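import Pool.Agent.Helper255.CF.TypE

set_option autoImplicit false

namespace Pool.Agent.Helper255.CF

open Matrix

variable {l : ℕ} {D : SLCartan l} (S : Folding D)

/-! `F_4` in characteristic 2 -/

def LPF2 : List (Fin 6 → ℤ) := [
  ![1, 0, 1, 1, 1, 1], ![1, 1, 1, 1, 1, 1], ![1, 1, 1, 2, 1, 1], ![1, 1, 1, 2, 2, 1],
  ![1, 1, 2, 2, 1, 1], ![1, 1, 2, 2, 2, 1], ![1, 1, 2, 3, 2, 1], ![1, 2, 2, 3, 2, 1]]

def LQF2 : List (Fin 6 → ℤ) := [
  ![0, 0, 0, 0, 0, 1], ![1, 0, 0, 0, 0, 0], ![0, 0, 0, 0, 1, 1], ![1, 0, 1, 0, 0, 0],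
  ![0, 0, 0, 1, 1, 1], ![1, 0, 1, 1, 0, 0], ![0, 0, 1, 1, 1, 1], ![0, 1, 0, 1, 1, 1],
  ![1, 0, 1, 1, 1, 0], ![1, 1, 1, 1, 0, 0], ![0, 1, 1, 1, 1, 1], ![1, 1, 1, 1, 1, 0],
  ![0, 1, 1, 2, 1, 1], ![1, 1, 1, 2, 1, 0], ![0, 1, 1, 2, 2, 1], ![1, 1, 2, 2, 1, 0]]

def LQF0 : List (Fin 6 → ℤ) := [
  ![1, 0, 0, 0, 0, 0], ![1, 0, 1, 0, 0, 0], ![1, 0, 1, 1, 0, 0], ![1, 0, 1, 1, 1, 0],
  ![1, 1, 1, 1, 0, 0], ![1, 1, 1, 1, 1, 0], ![1, 1, 1, 2, 1, 0], ![1, 1, 2, 2, 1, 0]]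

open Classical in
noncomputable def PF2 : Finset (Root cE) := Finset.univ.filter fun β => β.1 ∈ LPF2

open Classical in
noncomputable def QF2 : Finset (Root cE) := Finset.univ.filter fun β => β.1 ∈ LQF2

open Classical in
noncomputable def QF0 : Finset (Root cE) := Finset.univ.filter fun β => β.1 ∈ LQF0

def fe : Root cE := ⟨![1, 1, 1, 2, 2, 1], cE_mk _ (by decide)⟩

open Classical in
noncomputable def ccF (δ δ' : Root cE) : ℤ := if δ.1 + pv sF δ'.1 ∈ [fe.1, pv sF fe.1] then 1 else 0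

theorem F2a_mem (β : Root cE) : β ∈ PF2 ↔ β.1 ∈ LPF2 := by
  simp [PF2]

theorem F2a_sub : ∀ g ∈ LPF2, g ∈ LE := by
  decide +kernel

theorem F2a_ideal : ∀ g ∈ LPF2, ∀ b ∈ LE, g + b ∈ LE → g + b ∈ LPF2 := by
  decide +kernel

theorem F2a_comm : ∀ g ∈ LPF2, ∀ d ∈ LPF2, 0 ≤ bil cE g d := by
  decide +kernel

theorem F2a_stab : ∀ g ∈ LPF2, pv sF g ∈ LPF2 := by
  decide +kernel

theorem F2_PSet : PSet fF PF2 := by
  refine ⟨?_, ?_, ?_, ?_⟩
  · intro γ hγ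
    exact (cE_pos_mem γ).2 (F2a_sub _ ((F2a_mem γ).1 hγ))
  · intro γ hγ β δ hβ hδ
    have h1 := (F2a_mem γ).1 hγ
    have h2 := (cE_pos_mem β).1 hβ
    have hγp : Pos γ.1 := (cE_pos_mem γ).2 (F2a_sub _ h1)
    have hδp : Pos δ.1 := by
      intro i
      rw [hδ]
      have := hγp i
      have := hβ i
      simp only [Pi.add_apply]
      omega
    have h3 := (cE_pos_mem δ).1 hδp
    rw [hδ] at h3
    rw [F2a_mem, hδ]
    exact F2a_ideal _ h1 _ h2 h3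
  · intro γ hγ δ hδ
    exact F2a_comm _ ((F2a_mem γ).1 hγ) _ ((F2a_mem δ).1 hδ)
  · intro γ hγ
    rw [F2a_mem]
    exact F2a_stab _ ((F2a_mem γ).1 hγ)

theorem F2_conn_mem (β : Root cE) : β ∈ PF2 ↔ β.1 ∈ LPF2 := by
  unfold PF2
  rw [Finset.mem_filter]
  exact ⟨fun h => h.2, fun h => ⟨Finset.mem_univ _, h⟩⟩

theorem F2_conn_LP : ∀ v ∈ LPF2, v 0 = 1 ∧ v 5 = 1 := by
  decide +kernel

theorem F2_conn_LE : ∀ v ∈ LE, v 0 = 1 → v 5 = 1 → v ∈ LPF2 := by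
  decide +kernel

theorem F2_conn_JR (β : Root cE) (h0 : β.1 0 = 0) (h5 : β.1 5 = 0) : JR PF2 β := by
  constructor
  · intro h
    have h1 := (F2_conn_LP _ ((F2_conn_mem _).1 h)).1
    have h2 : (rneg cE β).1 0 = - (β.1 0) := rfl
    rw [h2, h0] at h1
    norm_num at h1
  · intro γ hγ δ hδ
    obtain ⟨g0, g5⟩ := F2_conn_LP _ ((F2_conn_mem _).1 hγ)
    have d0 : δ.1 0 = 1 := by
      rw [hδ, Pi.add_apply, g0, h0, add_zero]
    have d5 : δ.1 5 = 1 := by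
      rw [hδ, Pi.add_apply, g5, h5, add_zero]
    have hpos : Pos δ.1 := by
      rcases pos_or_neg cE δ with h | h
      · exact h
      · exfalso
        have h1 := h 0
        rw [Pi.neg_apply, d0] at h1
        norm_num at h1
    exact (F2_conn_mem δ).2 (F2_conn_LE _ ((cE_pos_mem δ).1 hpos) d0 d5)

theorem F2_conn_fe : fe ∈ PF2 := by
  rw [F2_conn_mem]
  show (![1, 1, 1, 2, 2, 1] : Fin 6 → ℤ) ∈ LPF2
  decide +kernel

theorem F2_conn_step (γ : Root cE) (hf : pv sF γ.1 = γ.1) (h0 : γ.1 0 = 1) (h5 : γ.1 5 = 1)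
    (hb : bil cE (fe.1 - γ.1) (fe.1 - γ.1) = 2) : StepRel fF 2 PF2 γ fe := by
  refine StepRel_of_unique fF 2 PF2 γ fe ⟨fe.1 - γ.1, hb⟩ F2_conn_fe rfl
    (F2_conn_JR _ ?_ ?_) ?_
  · show fe.1 0 - γ.1 0 = 0
    rw [h0]; rfl
  · show fe.1 5 - γ.1 5 = 0
    rw [h5]; rfl
  · intro β' _ γ'' hγ'' _
    have hs : sroot fF γ = γ := root_ext cE hf
    rw [orb_fixed fF γ hs] at hγ''
    exact Finset.mem_singleton.1 hγ''

theorem F2_conn_list : ∀ v ∈ LPF2, v = ![1, 1, 1, 2, 2, 1] ∨ v = pv sF ![1, 1, 1, 2, 2, 1] ∨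
    (pv sF v = v ∧ v 0 = 1 ∧ v 5 = 1 ∧
      bil cE (![1, 1, 1, 2, 2, 1] - v) (![1, 1, 1, 2, 2, 1] - v) = 2) := by
  decide +kernel

theorem F2_conn : ∀ γ ∈ PF2, Relation.ReflTransGen (StepRel fF 2 PF2) γ fe := by
  intro γ hγ
  rcases F2_conn_list γ.1 ((F2_conn_mem γ).1 hγ) with h | h | ⟨h1, h2, h3, h4⟩
  · have : γ = fe := root_ext cE h
    rw [this]
  · refine Relation.ReflTransGen.single ⟨F2_conn_fe, Or.inl ?_⟩
    rw [mem_orb]
    refine ⟨1, ?_⟩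
    rw [h]
    show (![1, 1, 1, 2, 2, 1] : Fin 6 → ℤ) = pv (sF ^ 1) (pv sF ![1, 1, 1, 2, 2, 1])
    decide +kernel
  · exact Relation.ReflTransGen.single (F2_conn_step γ h1 h2 h3 h4)

theorem F2b_mem (β : Root cE) : β ∈ QF2 ↔ β.1 ∈ LQF2 := by
  simp [QF2]

theorem F2b_mem0 (β : Root cE) : β ∈ QF0 ↔ β.1 ∈ LQF0 := by
  simp [QF0]

theorem F2b_sub : ∀ g ∈ LQF2, g ∈ LE := by
  decide +kernel

theorem F2b_sub0 : ∀ g ∈ LQF0, g ∈ LQF2 := by
  decide +kernel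

theorem F2b_stab : ∀ g ∈ LQF2, pv sF g ∈ LQF2 := by
  decide +kernel

theorem F2b_rep : ∀ g ∈ LQF2, ∃ d ∈ LQF0,
    d ∈ (Finset.range 2).image (fun k => pv (sF ^ k) g) := by
  decide +kernel

theorem F2_Q : (∀ δ ∈ QF2, Pos δ.1) ∧ (∀ δ ∈ QF2, sroot fF δ ∈ QF2) ∧
    (∀ δ ∈ QF2, ∃ δ' ∈ QF0, δ' ∈ orb fF δ) ∧ QF0 ⊆ QF2 := by
  refine ⟨?_, ?_, ?_, ?_⟩
  · intro γ hγ
    exact (cE_pos_mem γ).2 (F2b_sub _ ((F2b_mem γ).1 hγ))
  · intro γ hγ
    rw [F2b_mem]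
    exact F2b_stab _ ((F2b_mem γ).1 hγ)
  · intro γ hγ
    obtain ⟨d, hd, hd'⟩ := F2b_rep _ ((F2b_mem γ).1 hγ)
    exact ⟨⟨d, cE_mk d (F2b_sub _ (F2b_sub0 _ hd))⟩, (F2b_mem0 _).2 hd,
      (mem_orb_vec fF 2 (by norm_num) sF_sq _ _).2 hd'⟩
  · intro γ hγ
    rw [F2b_mem]
    exact F2b_sub0 _ ((F2b_mem0 γ).1 hγ)

theorem F2c_good : ∀ d ∈ LE, d ∉ LPF2 → d ∉ LQF2 →
    ∃ g ∈ LPF2, bil cE d g = -1 ∧ pv sF g = g := by
  decide +kernel

theorem F2_good (δ : Root cE) (hδ : Pos δ.1) (h : δ ∉ PF2) (h' : δ ∉ QF2) :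
    Good fF 2 PF2 δ := by
  rw [F2a_mem] at h
  rw [F2b_mem] at h'
  obtain ⟨g, hg, hb, hs⟩ := F2c_good _ ((cE_pos_mem δ).1 hδ) h h'
  have hg2 : bil cE g g = 2 := cE_mk g (F2a_sub _ hg)
  obtain ⟨γ, hγ⟩ : ∃ γ : Root cE, γ.1 = g := ⟨⟨g, hg2⟩, rfl⟩
  have hfix : sroot fF γ = γ := by
    apply Subtype.ext
    show pv sF γ.1 = γ.1
    rw [hγ, hs]
  have ho := orb_fixed fF γ hfix
  refine ⟨γ, (F2a_mem _).2 (by rw [hγ]; exact hg), by rw [hγ]; exact hb, Or.inl ?_⟩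
  intro γ' hγ' hne
  rw [ho] at hγ'
  exact absurd (Finset.mem_singleton.1 hγ') hne

theorem f2q_bil : ∀ v ∈ LQF2, ∀ w ∈ LPF2, 0 ≤ bil cE v w := by
  have h : ∀ v ∈ LQF2, ∀ w ∈ LPF2, 0 ≤ v ⬝ᵥ (EM *ᵥ w) + w ⬝ᵥ (EM *ᵥ v) := by
    decide +kernel
  exact h

theorem f2q_orb (δ γ δ' γ' : Root cE) (hδ : δ ∈ QF2) (hγ : γ ∈ PF2) (hδ' : δ' ∈ orb fF δ)
    (hγ' : γ' ∈ orb fF γ) : 0 ≤ bil cE δ'.1 γ'.1 := by
  classical
  have h1 : δ' ∈ QF2 := orb_induction fF (p := fun κ => κ ∈ QF2) δ hδ F2_Q.2.1 δ' hδ'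
  have h2 : γ' ∈ PF2 := orb_induction fF (p := fun κ => κ ∈ PF2) γ hγ F2_PSet.stab γ' hγ'
  have h3 : δ'.1 ∈ LQF2 := by
    unfold QF2 at h1
    exact (Finset.mem_filter.1 h1).2
  have h4 : γ'.1 ∈ LPF2 := by
    unfold PF2 at h2
    exact (Finset.mem_filter.1 h2).2
  exact f2q_bil _ h3 _ h4

theorem f2q_fix {R : Type*} [CommRing R] (β : Root cE) (t : R) (L : List (Root cE))
    (hL : ∀ α ∈ L, 0 ≤ bil cE α.1 β.1) :
    mat cE ((L.map fun α => xg cE α t).prod) *ᵥ ev cE R β = ev cE R β := by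
  induction L with
  | nil => rw [List.map_nil, List.prod_nil, mat_one, one_mulVec]
  | cons α L ih =>
    rw [List.map_cons, List.prod_cons, mat_mul, ← mulVec_mulVec,
      ih (fun κ hκ => hL κ (List.mem_cons_of_mem _ hκ)), mat_xg,
      xM_ev_fix cE α β (hL α List.mem_cons_self)]

theorem F2_Qcomm (L : Type) [Field L] (δ : Root cE) (hδ : δ ∈ QF2) (γ : Root cE)
    (hγ : γ ∈ PF2) (s t : L) : yg fF δ s * yg fF γ t = yg fF γ t * yg fF δ s := by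
  unfold yg XA
  have h : Commute ((orb fF δ).toList.map fun γ => xg cE γ s).prod
      ((orb fF γ).toList.map fun γ => xg cE γ t).prod := by
    apply Commute.list_prod_left
    intro x hx
    apply Commute.list_prod_right
    intro y hy
    rw [List.mem_map] at hx hy
    obtain ⟨δ', hδ', rfl⟩ := hx
    obtain ⟨γ', hγ', rfl⟩ := hy
    rw [Finset.mem_toList] at hδ' hγ'
    exact xg_commute cE δ' γ' (f2q_orb δ γ δ' γ' hδ hγ hδ' hγ') s t
  exact h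

theorem F2_Qact (L : Type) [Field L] (δ : Root cE) (hδ : δ ∈ QF2) (γ : Root cE)
    (hγ : γ ∈ PF2) (t : L) : mat cE (yg fF δ t) *ᵥ eo fF L γ = eo fF L γ := by
  unfold eo yg XA
  rw [mulVec_sum]
  apply Finset.sum_congr rfl
  intro γ' hγ'
  apply f2q_fix
  intro δ' hδ'
  rw [Finset.mem_toList] at hδ'
  exact f2q_orb δ γ δ' γ' hδ hγ hδ' hγ'

theorem F2_Qtor_aux (L : Type) [Field L] (t : G cE L) (χ : Root cE → L)
    (hm : Mono cE t (AddEquiv.refl _) χ) (a b c : Root cE) (h : c.1 = a.1 + b.1) :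
    χ c = χ a * χ b := by
  have h1 := hm.hmul a b c h
  have h2 : ((sgn cE a.1 b.1 : ℤ) : L) * ((sgn cE a.1 b.1 : ℤ) : L) = 1 := by
    rw [← Int.cast_mul, sgn_mul_self, Int.cast_one]
  change ((sgn cE a.1 b.1 : ℤ) : L) * χ c = ((sgn cE a.1 b.1 : ℤ) : L) * (χ a * χ b) at h1
  calc χ c = ((sgn cE a.1 b.1 : ℤ) : L) * (((sgn cE a.1 b.1 : ℤ) : L) * χ c) := by
        rw [← mul_assoc, h2, one_mul]
    _ = ((sgn cE a.1 b.1 : ℤ) : L) * (((sgn cE a.1 b.1 : ℤ) : L) * (χ a * χ b)) := by rw [h1]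
    _ = _ := by rw [← mul_assoc, h2, one_mul]

theorem F2_Qtor (L : Type) [Field L] [CharP L 2] (t : G cE L) (χ : Root cE → L)
    (ht : t ∈ FG fF L) (hm : Mono cE t (AddEquiv.refl _) χ) (h1 : ∀ γ ∈ PF2, χ γ = 1)
    (δ : Root cE) (hδ : δ ∈ QF2) : χ δ = 1 := by
  have hP : ∀ γ : Root cE, γ.1 ∈ LPF2 → χ γ = 1 := by
    intro γ hγ
    apply h1
    unfold PF2
    rw [Finset.mem_filter]
    exact ⟨Finset.mem_univ _, hγ⟩
  have hs : ∀ a b c : Root cE, c.1 = a.1 + b.1 → χ c = χ a * χ b :=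
    fun a b c h => F2_Qtor_aux L t χ hm a b c h
  have s010000 : χ (⟨![0, 1, 0, 0, 0, 0], cE_mk _ (by decide)⟩ : Root cE) = 1 := by
    have h := hs (⟨![1, 0, 1, 1, 1, 1], cE_mk _ (by decide)⟩ : Root cE) (⟨![0, 1, 0, 0, 0, 0], cE_mk _ (by decide)⟩ : Root cE) (⟨![1, 1, 1, 1, 1, 1], cE_mk _ (by decide)⟩ : Root cE) (by decide)
    rw [hP (⟨![1, 0, 1, 1, 1, 1], cE_mk _ (by decide)⟩ : Root cE) (by decide), hP (⟨![1, 1, 1, 1, 1, 1], cE_mk _ (by decide)⟩ : Root cE) (by decide), one_mul] at h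
    exact h.symm
  have s000100 : χ (⟨![0, 0, 0, 1, 0, 0], cE_mk _ (by decide)⟩ : Root cE) = 1 := by
    have h := hs (⟨![1, 1, 1, 1, 1, 1], cE_mk _ (by decide)⟩ : Root cE) (⟨![0, 0, 0, 1, 0, 0], cE_mk _ (by decide)⟩ : Root cE) (⟨![1, 1, 1, 2, 1, 1], cE_mk _ (by decide)⟩ : Root cE) (by decide)
    rw [hP (⟨![1, 1, 1, 1, 1, 1], cE_mk _ (by decide)⟩ : Root cE) (by decide), hP (⟨![1, 1, 1, 2, 1, 1], cE_mk _ (by decide)⟩ : Root cE) (by decide), one_mul] at h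
    exact h.symm
  have s000010 : χ (⟨![0, 0, 0, 0, 1, 0], cE_mk _ (by decide)⟩ : Root cE) = 1 := by
    have h := hs (⟨![1, 1, 1, 2, 1, 1], cE_mk _ (by decide)⟩ : Root cE) (⟨![0, 0, 0, 0, 1, 0], cE_mk _ (by decide)⟩ : Root cE) (⟨![1, 1, 1, 2, 2, 1], cE_mk _ (by decide)⟩ : Root cE) (by decide)
    rw [hP (⟨![1, 1, 1, 2, 1, 1], cE_mk _ (by decide)⟩ : Root cE) (by decide), hP (⟨![1, 1, 1, 2, 2, 1], cE_mk _ (by decide)⟩ : Root cE) (by decide), one_mul] at h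
    exact h.symm
  have s001000 : χ (⟨![0, 0, 1, 0, 0, 0], cE_mk _ (by decide)⟩ : Root cE) = 1 := by
    have h := hs (⟨![1, 1, 1, 2, 1, 1], cE_mk _ (by decide)⟩ : Root cE) (⟨![0, 0, 1, 0, 0, 0], cE_mk _ (by decide)⟩ : Root cE) (⟨![1, 1, 2, 2, 1, 1], cE_mk _ (by decide)⟩ : Root cE) (by decide)
    rw [hP (⟨![1, 1, 1, 2, 1, 1], cE_mk _ (by decide)⟩ : Root cE) (by decide), hP (⟨![1, 1, 2, 2, 1, 1], cE_mk _ (by decide)⟩ : Root cE) (by decide), one_mul] at h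
    exact h.symm
  have hfix : χ (⟨![0, 0, 0, 0, 0, 1], cE_mk _ (by decide)⟩ : Root cE) = χ (⟨![1, 0, 0, 0, 0, 0], cE_mk _ (by decide)⟩ : Root cE) := by
    have h := mono_fix fF t (FG_fix fF t ht) (AddEquiv.refl _) (fun x => rfl) χ hm (⟨![1, 0, 0, 0, 0, 0], cE_mk _ (by decide)⟩ : Root cE)
    have h2 : sroot fF (⟨![1, 0, 0, 0, 0, 0], cE_mk _ (by decide)⟩ : Root cE) = (⟨![0, 0, 0, 0, 0, 1], cE_mk _ (by decide)⟩ : Root cE) := by
      apply root_ext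
      change pv sF ![1, 0, 0, 0, 0, 0] = ![0, 0, 0, 0, 0, 1]
      decide
    rw [h2] at h
    exact h
  obtain ⟨c, hc⟩ : ∃ c, χ (⟨![1, 0, 0, 0, 0, 0], cE_mk _ (by decide)⟩ : Root cE) = c := ⟨_, rfl⟩
  rw [hc] at hfix
  have q101000 : χ (⟨![1, 0, 1, 0, 0, 0], cE_mk _ (by decide)⟩ : Root cE) = c := by
    have h := hs (⟨![1, 0, 0, 0, 0, 0], cE_mk _ (by decide)⟩ : Root cE) (⟨![0, 0, 1, 0, 0, 0], cE_mk _ (by decide)⟩ : Root cE) (⟨![1, 0, 1, 0, 0, 0], cE_mk _ (by decide)⟩ : Root cE) (by decide)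
    rw [hc, s001000, mul_one] at h
    exact h
  have q101100 : χ (⟨![1, 0, 1, 1, 0, 0], cE_mk _ (by decide)⟩ : Root cE) = c := by
    have h := hs (⟨![1, 0, 1, 0, 0, 0], cE_mk _ (by decide)⟩ : Root cE) (⟨![0, 0, 0, 1, 0, 0], cE_mk _ (by decide)⟩ : Root cE) (⟨![1, 0, 1, 1, 0, 0], cE_mk _ (by decide)⟩ : Root cE) (by decide)
    rw [q101000, s000100, mul_one] at h
    exact h
  have q101110 : χ (⟨![1, 0, 1, 1, 1, 0], cE_mk _ (by decide)⟩ : Root cE) = c := by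
    have h := hs (⟨![1, 0, 1, 1, 0, 0], cE_mk _ (by decide)⟩ : Root cE) (⟨![0, 0, 0, 0, 1, 0], cE_mk _ (by decide)⟩ : Root cE) (⟨![1, 0, 1, 1, 1, 0], cE_mk _ (by decide)⟩ : Root cE) (by decide)
    rw [q101100, s000010, mul_one] at h
    exact h
  have q111100 : χ (⟨![1, 1, 1, 1, 0, 0], cE_mk _ (by decide)⟩ : Root cE) = c := by
    have h := hs (⟨![1, 0, 1, 1, 0, 0], cE_mk _ (by decide)⟩ : Root cE) (⟨![0, 1, 0, 0, 0, 0], cE_mk _ (by decide)⟩ : Root cE) (⟨![1, 1, 1, 1, 0, 0], cE_mk _ (by decide)⟩ : Root cE) (by decide)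
    rw [q101100, s010000, mul_one] at h
    exact h
  have q111110 : χ (⟨![1, 1, 1, 1, 1, 0], cE_mk _ (by decide)⟩ : Root cE) = c := by
    have h := hs (⟨![1, 0, 1, 1, 1, 0], cE_mk _ (by decide)⟩ : Root cE) (⟨![0, 1, 0, 0, 0, 0], cE_mk _ (by decide)⟩ : Root cE) (⟨![1, 1, 1, 1, 1, 0], cE_mk _ (by decide)⟩ : Root cE) (by decide)
    rw [q101110, s010000, mul_one] at h
    exact h
  have q111210 : χ (⟨![1, 1, 1, 2, 1, 0], cE_mk _ (by decide)⟩ : Root cE) = c := by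
    have h := hs (⟨![1, 1, 1, 1, 1, 0], cE_mk _ (by decide)⟩ : Root cE) (⟨![0, 0, 0, 1, 0, 0], cE_mk _ (by decide)⟩ : Root cE) (⟨![1, 1, 1, 2, 1, 0], cE_mk _ (by decide)⟩ : Root cE) (by decide)
    rw [q111110, s000100, mul_one] at h
    exact h
  have q112210 : χ (⟨![1, 1, 2, 2, 1, 0], cE_mk _ (by decide)⟩ : Root cE) = c := by
    have h := hs (⟨![1, 1, 1, 2, 1, 0], cE_mk _ (by decide)⟩ : Root cE) (⟨![0, 0, 1, 0, 0, 0], cE_mk _ (by decide)⟩ : Root cE) (⟨![1, 1, 2, 2, 1, 0], cE_mk _ (by decide)⟩ : Root cE) (by decide)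
    rw [q111210, s001000, mul_one] at h
    exact h
  have q000011 : χ (⟨![0, 0, 0, 0, 1, 1], cE_mk _ (by decide)⟩ : Root cE) = c := by
    have h := hs (⟨![0, 0, 0, 0, 0, 1], cE_mk _ (by decide)⟩ : Root cE) (⟨![0, 0, 0, 0, 1, 0], cE_mk _ (by decide)⟩ : Root cE) (⟨![0, 0, 0, 0, 1, 1], cE_mk _ (by decide)⟩ : Root cE) (by decide)
    rw [hfix, s000010, mul_one] at h
    exact h
  have q000111 : χ (⟨![0, 0, 0, 1, 1, 1], cE_mk _ (by decide)⟩ : Root cE) = c := by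
    have h := hs (⟨![0, 0, 0, 0, 1, 1], cE_mk _ (by decide)⟩ : Root cE) (⟨![0, 0, 0, 1, 0, 0], cE_mk _ (by decide)⟩ : Root cE) (⟨![0, 0, 0, 1, 1, 1], cE_mk _ (by decide)⟩ : Root cE) (by decide)
    rw [q000011, s000100, mul_one] at h
    exact h
  have q001111 : χ (⟨![0, 0, 1, 1, 1, 1], cE_mk _ (by decide)⟩ : Root cE) = c := by
    have h := hs (⟨![0, 0, 0, 1, 1, 1], cE_mk _ (by decide)⟩ : Root cE) (⟨![0, 0, 1, 0, 0, 0], cE_mk _ (by decide)⟩ : Root cE) (⟨![0, 0, 1, 1, 1, 1], cE_mk _ (by decide)⟩ : Root cE) (by decide)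
    rw [q000111, s001000, mul_one] at h
    exact h
  have q010111 : χ (⟨![0, 1, 0, 1, 1, 1], cE_mk _ (by decide)⟩ : Root cE) = c := by
    have h := hs (⟨![0, 0, 0, 1, 1, 1], cE_mk _ (by decide)⟩ : Root cE) (⟨![0, 1, 0, 0, 0, 0], cE_mk _ (by decide)⟩ : Root cE) (⟨![0, 1, 0, 1, 1, 1], cE_mk _ (by decide)⟩ : Root cE) (by decide)
    rw [q000111, s010000, mul_one] at h
    exact h
  have q011111 : χ (⟨![0, 1, 1, 1, 1, 1], cE_mk _ (by decide)⟩ : Root cE) = c := by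
    have h := hs (⟨![0, 0, 1, 1, 1, 1], cE_mk _ (by decide)⟩ : Root cE) (⟨![0, 1, 0, 0, 0, 0], cE_mk _ (by decide)⟩ : Root cE) (⟨![0, 1, 1, 1, 1, 1], cE_mk _ (by decide)⟩ : Root cE) (by decide)
    rw [q001111, s010000, mul_one] at h
    exact h
  have q011211 : χ (⟨![0, 1, 1, 2, 1, 1], cE_mk _ (by decide)⟩ : Root cE) = c := by
    have h := hs (⟨![0, 1, 1, 1, 1, 1], cE_mk _ (by decide)⟩ : Root cE) (⟨![0, 0, 0, 1, 0, 0], cE_mk _ (by decide)⟩ : Root cE) (⟨![0, 1, 1, 2, 1, 1], cE_mk _ (by decide)⟩ : Root cE) (by decide)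
    rw [q011111, s000100, mul_one] at h
    exact h
  have q011221 : χ (⟨![0, 1, 1, 2, 2, 1], cE_mk _ (by decide)⟩ : Root cE) = c := by
    have h := hs (⟨![0, 1, 1, 2, 1, 1], cE_mk _ (by decide)⟩ : Root cE) (⟨![0, 0, 0, 0, 1, 0], cE_mk _ (by decide)⟩ : Root cE) (⟨![0, 1, 1, 2, 2, 1], cE_mk _ (by decide)⟩ : Root cE) (by decide)
    rw [q011211, s000010, mul_one] at h
    exact h
  have hcc : c * c = 1 := by
    have h := hs (⟨![1, 0, 0, 0, 0, 0], cE_mk _ (by decide)⟩ : Root cE) (⟨![0, 1, 1, 2, 1, 1], cE_mk _ (by decide)⟩ : Root cE) (⟨![1, 1, 1, 2, 1, 1], cE_mk _ (by decide)⟩ : Root cE) (by decide)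
    rw [hc, q011211, hP (⟨![1, 1, 1, 2, 1, 1], cE_mk _ (by decide)⟩ : Root cE) (by decide)] at h
    exact h.symm
  have hc1 : c = 1 := by
    have h2 : (2 : L) = 0 := CharTwo.two_eq_zero
    have h3 : (c - 1) * (c - 1) = 0 := by
      linear_combination hcc + (1 - c) * h2
    have h4 := mul_self_eq_zero.1 h3
    exact sub_eq_zero.1 h4
  have hδ' : δ.1 ∈ LQF2 := by
    unfold QF2 at hδ
    rw [Finset.mem_filter] at hδ
    exact hδ.2
  simp only [LQF2, List.mem_cons, List.not_mem_nil, or_false] at hδ'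
  rw [← hc1]
  rcases hδ' with h | h | h | h | h | h | h | h | h | h | h | h | h | h | h | h
  · rw [show δ = (⟨![0, 0, 0, 0, 0, 1], cE_mk _ (by decide)⟩ : Root cE) from root_ext cE h]
    exact hfix
  · rw [show δ = (⟨![1, 0, 0, 0, 0, 0], cE_mk _ (by decide)⟩ : Root cE) from root_ext cE h]
    exact hc
  · rw [show δ = (⟨![0, 0, 0, 0, 1, 1], cE_mk _ (by decide)⟩ : Root cE) from root_ext cE h]
    exact q000011
  · rw [show δ = (⟨![1, 0, 1, 0, 0, 0], cE_mk _ (by decide)⟩ : Root cE) from root_ext cE h]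
    exact q101000
  · rw [show δ = (⟨![0, 0, 0, 1, 1, 1], cE_mk _ (by decide)⟩ : Root cE) from root_ext cE h]
    exact q000111
  · rw [show δ = (⟨![1, 0, 1, 1, 0, 0], cE_mk _ (by decide)⟩ : Root cE) from root_ext cE h]
    exact q101100
  · rw [show δ = (⟨![0, 0, 1, 1, 1, 1], cE_mk _ (by decide)⟩ : Root cE) from root_ext cE h]
    exact q001111
  · rw [show δ = (⟨![0, 1, 0, 1, 1, 1], cE_mk _ (by decide)⟩ : Root cE) from root_ext cE h]
    exact q010111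
  · rw [show δ = (⟨![1, 0, 1, 1, 1, 0], cE_mk _ (by decide)⟩ : Root cE) from root_ext cE h]
    exact q101110
  · rw [show δ = (⟨![1, 1, 1, 1, 0, 0], cE_mk _ (by decide)⟩ : Root cE) from root_ext cE h]
    exact q111100
  · rw [show δ = (⟨![0, 1, 1, 1, 1, 1], cE_mk _ (by decide)⟩ : Root cE) from root_ext cE h]
    exact q011111
  · rw [show δ = (⟨![1, 1, 1, 1, 1, 0], cE_mk _ (by decide)⟩ : Root cE) from root_ext cE h]
    exact q111110
  · rw [show δ = (⟨![0, 1, 1, 2, 1, 1], cE_mk _ (by decide)⟩ : Root cE) from root_ext cE h]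
    exact q011211
  · rw [show δ = (⟨![1, 1, 1, 2, 1, 0], cE_mk _ (by decide)⟩ : Root cE) from root_ext cE h]
    exact q111210
  · rw [show δ = (⟨![0, 1, 1, 2, 2, 1], cE_mk _ (by decide)⟩ : Root cE) from root_ext cE h]
    exact q011221
  · rw [show δ = (⟨![1, 1, 2, 2, 1, 0], cE_mk _ (by decide)⟩ : Root cE) from root_ext cE h]
    exact q112210

theorem F2h_dec1 : ∀ v ∈ LQF0, ∀ w ∈ LQF0, 0 ≤ bil cE v w := by decide +kernel

theorem F2h_dec2 : ∀ v ∈ LQF0, ∀ w ∈ LQF0,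
    (0 ≤ bil cE v (pv sF w) ∧ v + pv sF w ∉ [fe.1, pv sF fe.1]) ∨
    (bil cE v (pv sF w) = -1 ∧ pv sF (v + pv sF w) = v + pv sF w ∧
      v + pv sF w ∉ [fe.1, pv sF fe.1]) ∨
    (bil cE v (pv sF w) = -1 ∧ v + pv sF w ∈ [fe.1, pv sF fe.1]) := by decide +kernel

theorem F2h_dec3 : ∀ v ∈ LQF0, pv sF v ≠ v := by decide +kernel

theorem F2h_dec4 : pv sF fe.1 ≠ fe.1 := by decide +kernel

theorem F2h_pvpv (v : Fin 6 → ℤ) : pv sF (pv sF v) = v := by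
  rw [← pv_mul, ← pow_two, sF_sq]; rfl

theorem F2h_yg (L : Type) [Field L] (δ : Root cE) (h : sroot fF δ ≠ δ) (s : L) :
    yg fF δ s = xg cE δ s * xg cE (sroot fF δ) s := by
  unfold yg
  rw [XA_eq_list (orb fF δ) _ (fun _ => s) [δ, sroot fF δ] (by simp [Ne.symm h])]
  · simp
  · intro γ
    rw [mem_orb_vec fF 2 (by norm_num) sF_sq]
    constructor
    · intro hγ
      rw [Finset.mem_image]
      simp only [List.mem_cons, List.not_mem_nil, or_false] at hγ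
      rcases hγ with rfl | rfl
      · exact ⟨0, by simp, by rw [pow_zero]; rfl⟩
      · exact ⟨1, by simp, by rw [pow_one]; rfl⟩
    · intro hγ
      rw [Finset.mem_image] at hγ
      obtain ⟨k, hk, hk'⟩ := hγ
      simp only [List.mem_cons, List.not_mem_nil, or_false]
      rw [Finset.mem_range] at hk
      interval_cases k
      · left; apply Subtype.ext; rw [← hk', pow_zero]; rfl
      · right; apply Subtype.ext; rw [← hk', pow_one]; rfl
  · intro γ hγ γ' hγ'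
    rcases orb_orth fF δ γ γ' hγ hγ' with h | h
    · rw [h, γ'.2]; norm_num
    · rw [h]

theorem F2h_grp {Γ : Type*} [Group Γ] (A A' B B' H H' : Γ) (h1 : A * B' = H * B' * A)
    (h2 : A' * B = H' * B * A') (h3 : A * B = B * A) (h4 : A' * B' = B' * A')
    (h5 : B * B' = B' * B) (h6 : A * H' = H' * A) (h7 : B * H = H * B) (h8 : H * H' = H' * H):
    (A * A') * (B * B') = (H * H') * ((B * B') * (A * A')) := by
  calc (A * A') * (B * B') = A * (A' * B) * B' := by group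
    _ = A * H' * B * (A' * B') := by rw [h2]; group
    _ = H' * (A * B) * B' * A' := by rw [h4, h6]; group
    _ = H' * B * (A * B') * A' := by rw [h3]; group
    _ = H' * (B * H) * B' * A * A' := by rw [h1]; group
    _ = (H' * H) * B * B' * A * A' := by rw [h7]; group
    _ = _ := by rw [← h8]; group

theorem F2h_sgn (L : Type) [Field L] [CharP L 2] (x y : Fin 6 → ℤ) :
    ((sgn cE x y : ℤ) : L) = 1 := by
  have h := sgn_mul_self cE x y
  have h2 : (2 : L) = 0 := by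
    have := CharP.cast_eq_zero L 2
    simpa using this
  rcases Int.isUnit_iff.1 (IsUnit.of_mul_eq_one _ h) with h | h
  · rw [h]; simp
  · rw [h]; push_cast; linear_combination -h2


theorem F2_heis (L : Type) [Field L] [CharP L 2] (δ : Root cE) (hδ : δ ∈ QF0) (δ' : Root cE)
    (hδ' : δ' ∈ QF0) (s t : L) :
    yg fF δ s * yg fF δ' t = yg fF fe ((ccF δ δ' : L) * (s * t)) * (yg fF δ' t * yg fF δ s) := by
  classical
  have hv : δ.1 ∈ LQF0 := by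
    have := hδ
    simp only [QF0, Finset.mem_filter] at this
    exact this.2
  have hw : δ'.1 ∈ LQF0 := by
    have := hδ'
    simp only [QF0, Finset.mem_filter] at this
    exact this.2
  have hpv : ∀ x y : Fin 6 → ℤ, bil cE (pv sF x) (pv sF y) = bil cE x y := by
    intro x y
    have := bil_pv fF 1 x y
    rw [pow_one] at this
    exact this
  have hsg : ∀ x y : Fin 6 → ℤ, sgn cE (pv sF x) (pv sF y) = sgn cE x y := by
    intro x y
    have := sgn_pv fF 1 x y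
    rw [pow_one] at this
    exact this
  have hn : sroot fF δ ≠ δ := fun h => F2h_dec3 _ hv (congrArg Subtype.val h)
  have hn' : sroot fF δ' ≠ δ' := fun h => F2h_dec3 _ hw (congrArg Subtype.val h)
  have hs1 : (sroot fF δ).1 = pv sF δ.1 := rfl
  have hs2 : (sroot fF δ').1 = pv sF δ'.1 := rfl
  have hab : 0 ≤ bil cE δ.1 δ'.1 := F2h_dec1 _ hv _ hw
  have hab' : 0 ≤ bil cE (sroot fF δ).1 (sroot fF δ').1 := by rw [hs1, hs2, hpv]; exact hab
  have hc : bil cE (sroot fF δ).1 δ'.1 = bil cE δ.1 (sroot fF δ').1 := by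
    rw [hs1, hs2, ← hpv, F2h_pvpv]
  have hbb : bil cE δ'.1 (sroot fF δ').1 = 0 := by
    rcases orb_orth fF δ' _ _ (self_mem_orb fF δ') (sroot_mem_orb fF δ') with h | h
    · exact absurd h.symm hn'
    · exact h
  have haa : bil cE δ.1 (sroot fF δ).1 = 0 := by
    rcases orb_orth fF δ _ _ (self_mem_orb fF δ) (sroot_mem_orb fF δ) with h | h
    · exact absurd h.symm hn
    · exact h
  rw [F2h_yg L δ hn, F2h_yg L δ' hn']
  have h3 := xg_commute cE δ δ' hab s t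
  have h4 := xg_commute cE (sroot fF δ) (sroot fF δ') hab' s t
  have h5 := xg_commute cE δ' (sroot fF δ') (by rw [hbb]) t t
  rcases F2h_dec2 _ hv _ hw with ⟨hd, hnot⟩ | hd
  · have hcc : ccF δ δ' = 0 := by
      unfold ccF; rw [if_neg hnot]
    rw [hcc]
    simp only [Int.cast_zero, zero_mul, yg_zero, one_mul]
    have h1 := xg_commute cE δ (sroot fF δ') (by rw [hs2]; exact hd) s t
    have h2 := xg_commute cE (sroot fF δ) δ' (by rw [hc, hs2]; exact hd) s t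
    have := F2h_grp (xg cE δ s) (xg cE (sroot fF δ) s) (xg cE δ' t) (xg cE (sroot fF δ') t) 1 1
      (by rw [one_mul]; exact h1) (by rw [one_mul]; exact h2) h3 h4 h5 (by simp) (by simp) (by simp)
    rw [this]; simp
  · have hd1 : bil cE δ.1 (sroot fF δ').1 = -1 := by
      rw [hs2]; rcases hd with hd | hd
      · exact hd.1
      · exact hd.1
    let η : Root cE := ⟨δ.1 + (sroot fF δ').1, (add_root_iff cE δ (sroot fF δ')).2 hd1⟩
    have hη : η.1 = δ.1 + (sroot fF δ').1 := rfl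
    have hη' : (sroot fF η).1 = (sroot fF δ).1 + δ'.1 := by
      have : (sroot fF η).1 = pv sF (δ.1 + pv sF δ'.1) := rfl
      rw [this, pv_add, F2h_pvpv]; rfl
    have h1 := xg_bracket cE δ (sroot fF δ') η hη s t
    have h2 := xg_bracket cE (sroot fF δ) δ' (sroot fF η) hη' s t
    rw [F2h_sgn, one_mul] at h1 h2
    have b1 : bil cE (sroot fF δ).1 δ.1 = 0 := by rw [bil_comm]; exact haa
    have b2 : bil cE (sroot fF δ').1 δ'.1 = 0 := by rw [bil_comm]; exact hbb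
    have h6 := xg_commute cE δ (sroot fF η) (by
      rw [hη', bil_add_right, haa, zero_add]; exact hab) s (s * t)
    have h7 := xg_commute cE δ' η (by
      rw [hη, bil_add_right, hbb, add_zero, bil_comm]; exact hab) t (s * t)
    have h8 := xg_commute cE η (sroot fF η) (by
      rw [hη', hη, bil_add_right, bil_add_left, bil_add_left, haa, b2, zero_add, add_zero,
        bil_comm cE (sroot fF δ').1]
      exact add_nonneg hab' hab) (s * t) (s * t)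
    have := F2h_grp (xg cE δ s) (xg cE (sroot fF δ) s) (xg cE δ' t) (xg cE (sroot fF δ') t)
      (xg cE η (s * t)) (xg cE (sroot fF η) (s * t)) h1 h2 h3 h4 h5 h6 h7 h8
    rw [this]
    congr 1
    rcases hd with ⟨_, hfix, hnot⟩ | ⟨_, hmem⟩
    · have hcc : ccF δ δ' = 0 := by
        unfold ccF; rw [if_neg hnot]
      rw [hcc]
      simp only [Int.cast_zero, zero_mul, yg_zero]
      have hf : sroot fF η = η := Subtype.ext hfix
      rw [hf, ← xg_add]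
      have h2 : s * t + s * t = 0 := CharTwo.add_self_eq_zero _
      rw [h2, xg_zero]
    · have hcc : ccF δ δ' = 1 := by
        unfold ccF; rw [if_pos hmem]
      rw [hcc]
      simp only [Int.cast_one, one_mul]
      have hmo : η ∈ orb fF fe := by
        simp only [List.mem_cons, List.not_mem_nil, or_false] at hmem
        rcases hmem with hmem | hmem
        · have : η = fe := Subtype.ext hmem
          rw [this]; exact self_mem_orb fF fe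
        · have : η = sroot fF fe := Subtype.ext hmem
          rw [this]; exact sroot_mem_orb fF fe
      have hnη : sroot fF η ≠ η := by
        intro hf
        simp only [List.mem_cons, List.not_mem_nil, or_false] at hmem
        have hf1 : pv sF η.1 = η.1 := congrArg Subtype.val hf
        rcases hmem with hmem | hmem
        · have h0 : η.1 = fe.1 := hmem
          rw [h0] at hf1
          exact F2h_dec4 hf1
        · have h0 : η.1 = pv sF fe.1 := hmem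
          rw [h0, F2h_pvpv] at hf1
          exact F2h_dec4 hf1.symm
      rw [← yg_congr fF fe η hmo, F2h_yg L η hnη]

theorem F2_star_sub : ∀ v ∈ LQF0, v ∈ LE := by
  decide +kernel

theorem F2_star_ex : ∀ v ∈ LQF0, ∃ a ∈ LQF0, v + pv sF a ∈ [fe.1, pv sF fe.1] := by
  decide +kernel

theorem F2_star_symm : ∀ v ∈ LQF0, ∀ a ∈ LQF0, v + pv sF a ∈ [fe.1, pv sF fe.1] →
    a + pv sF v ∈ [fe.1, pv sF fe.1] := by
  decide +kernel

theorem F2_star_uniq : ∀ v ∈ LQF0, ∀ a ∈ LQF0, ∀ b ∈ LQF0,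
    v + pv sF a ∈ [fe.1, pv sF fe.1] → v + pv sF b ∈ [fe.1, pv sF fe.1] → a = b := by
  decide +kernel

theorem F2_star_mem (δ : Root cE) : δ ∈ QF0 ↔ δ.1 ∈ LQF0 := by
  simp [QF0]

theorem F2_star_cc (δ δ' : Root cE) : ¬ ((2 : ℕ) : ℤ) ∣ ccF δ δ' ↔
    δ.1 + pv sF δ'.1 ∈ [fe.1, pv sF fe.1] := by
  unfold ccF
  by_cases h : δ.1 + pv sF δ'.1 ∈ [fe.1, pv sF fe.1]
  · rw [if_pos h]
    refine ⟨fun _ => h, fun _ h2 => ?_⟩
    norm_num at h2
  · rw [if_neg h]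
    refine ⟨fun h2 => absurd (dvd_zero _) h2, fun h2 => absurd h2 h⟩

theorem F2_star : ∃ star : Root cE → Root cE,
    (∀ δ ∈ QF0, star δ ∈ QF0 ∧ star (star δ) = δ ∧ ¬ ((2 : ℕ) : ℤ) ∣ ccF δ (star δ)) ∧
    ∀ δ ∈ QF0, ∀ δ' ∈ QF0, ¬ ((2 : ℕ) : ℤ) ∣ ccF δ δ' → δ' = star δ := by
  classical
  have hex : ∀ δ : Root cE, ∃ δ' : Root cE, δ ∈ QF0 →
      (δ' ∈ QF0 ∧ δ.1 + pv sF δ'.1 ∈ [fe.1, pv sF fe.1]) := by
    intro δ
    by_cases h : δ ∈ QF0
    · obtain ⟨a, ha, hc⟩ := F2_star_ex δ.1 ((F2_star_mem δ).1 h)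
      exact ⟨⟨a, cE_mk a (F2_star_sub a ha)⟩, fun _ => ⟨(F2_star_mem _).2 ha, hc⟩⟩
    · exact ⟨δ, fun h' => absurd h' h⟩
  choose star hstar using hex
  refine ⟨star, ?_, ?_⟩
  · intro δ hδ
    obtain ⟨h1, h2⟩ := hstar δ hδ
    obtain ⟨h3, h4⟩ := hstar (star δ) h1
    refine ⟨h1, ?_, (F2_star_cc _ _).2 h2⟩
    apply root_ext
    exact F2_star_uniq (star δ).1 ((F2_star_mem _).1 h1) _ ((F2_star_mem _).1 h3) _
      ((F2_star_mem _).1 hδ) h4 (F2_star_symm _ ((F2_star_mem _).1 hδ) _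
        ((F2_star_mem _).1 h1) h2)
  · intro δ hδ δ' hδ' h
    obtain ⟨h1, h2⟩ := hstar δ hδ
    apply root_ext
    exact F2_star_uniq δ.1 ((F2_star_mem _).1 hδ) _ ((F2_star_mem _).1 hδ') _
      ((F2_star_mem _).1 h1) ((F2_star_cc _ _).1 h) h2

theorem F2_data : ∃ P₀ star, HData fF 2 PF2 P₀ {fe} QF2 QF0 fe ccF star := by
  obtain ⟨star, h1, h2⟩ := F2_star
  have hfe : fe ∈ PF2 := by
    have h : fe.1 ∈ LPF2 := by
      show (![1, 1, 1, 2, 2, 1] : Fin 6 → ℤ) ∈ LPF2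
      decide
    simpa [PF2] using h
  obtain ⟨P₀, hP₀, hT⟩ := exists_reps (S := fF) PF2 {fe} F2_PSet.stab
    (by
      intro x hx
      rw [Finset.mem_singleton] at hx
      rw [hx]
      exact hfe)
    (by
      intro a ha b hb _
      rw [Finset.mem_singleton] at ha hb
      rw [ha, hb])
  obtain ⟨q1, q2, q3, q4⟩ := F2_Q
  refine ⟨P₀, star, ?_⟩
  exact
    { hP := F2_PSet
      hP₀ := hP₀
      hΓ := hT
      hε := hT (Finset.mem_singleton_self _)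
      conn := fun γ hγ => ⟨fe, Finset.mem_singleton_self _, F2_conn γ hγ⟩
      Qpos := q1
      Qstab := q2
      good := F2_good
      Qreps := q3
      Q₀Q := q4
      Qcomm := fun L _ _ δ hδ γ hγ s t => F2_Qcomm L δ hδ γ hγ s t
      Qact := fun L _ _ δ hδ γ hγ t => F2_Qact L δ hδ γ hγ t
      Qtor := fun L _ _ t χ ht hm h1 δ hδ => F2_Qtor L t χ ht hm h1 δ hδ
      heis := fun L _ _ δ hδ δ' hδ' s t => F2_heis L δ hδ δ' hδ' s t
      starQ := h1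
      starU := h2 }

end Pool.Agent.Helper255.CF
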