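import Pool.Agent.Helper255.CF.TypE

set_option autoImplicit false

namespace Pool.Agent.Helper255.CF

open Matrix

variable {l : ℕ} {D : SLCartan l} (S : Folding D)

/-! `G_2` in characteristic 3 -/

def gb : Root cT := ⟨![1, 0, 0, 0], cT_mk _ (by decide)⟩

def ga : Root cT := ⟨![0, 1, 0, 0], cT_mk _ (by decide)⟩

def gab : Root cT := ⟨![1, 1, 0, 0], cT_mk _ (by decide)⟩

def gaab : Root cT := ⟨![1, 1, 1, 0], cT_mk _ (by decide)⟩

def gl : Root cT := ⟨![1, 1, 1, 1], cT_mk _ (by decide)⟩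

def gh : Root cT := ⟨![2, 1, 1, 1], cT_mk _ (by decide)⟩

theorem gb_fixed : sroot fG gb = gb ∧ sroot fG gl = gl ∧ sroot fG gh = gh := by
  refine ⟨Subtype.ext ?_, Subtype.ext ?_, Subtype.ext ?_⟩
  · show pv sG ![1, 0, 0, 0] = ![1, 0, 0, 0]
    decide
  · show pv sG ![1, 1, 1, 1] = ![1, 1, 1, 1]
    decide
  · show pv sG ![2, 1, 1, 1] = ![2, 1, 1, 1]
    decide

theorem yg_three_aux {R : Type*} [CommRing R] (t : R) (a1 a2 a3 : Root cT)
    (h12 : a1.1 ≠ a2.1) (h13 : a1.1 ≠ a3.1) (h23 : a2.1 ≠ a3.1)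
    (himg : (Finset.range 3).image (fun k => pv (sG ^ k) a1.1) = {a1.1, a2.1, a3.1}) :
    yg fG a1 t = xg cT a1 t * xg cT a2 t * xg cT a3 t := by
  have hmem : ∀ γ, γ ∈ [a1, a2, a3] ↔ γ ∈ orb fG a1 := by
    intro γ
    rw [mem_orb_vec fG 3 (by norm_num) sG_cube a1 γ]
    have himg' : (Finset.range 3).image (fun k => pv (fG.σ ^ k) a1.1) = {a1.1, a2.1, a3.1} := himg
    rw [himg']
    simp only [List.mem_cons, List.not_mem_nil, or_false, Finset.mem_insert, Finset.mem_singleton]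
    constructor
    · rintro (h | h | h)
      · left; rw [h]
      · right; left; rw [h]
      · right; right; rw [h]
    · rintro (h | h | h)
      · left; exact Subtype.ext h
      · right; left; exact Subtype.ext h
      · right; right; exact Subtype.ext h
  have hnd : [a1, a2, a3].Nodup := by
    simp only [List.nodup_cons, List.mem_cons, List.not_mem_nil, or_false, not_false_eq_true,
      List.nodup_nil, and_true, not_or]
    exact ⟨⟨fun h => h12 (by rw [h]), fun h => h13 (by rw [h])⟩, fun h => h23 (by rw [h])⟩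
  have horth : ∀ γ ∈ orb fG a1, ∀ δ ∈ orb fG a1, 0 ≤ bil cT γ.1 δ.1 := by
    intro γ hγ δ hδ
    rcases orb_orth fG a1 γ δ hγ hδ with h | h
    · rw [h]; exact bil_nonneg _ _
    · rw [h]
  have h := XA_eq_list (orb fG a1) horth (fun _ => t) [a1, a2, a3] hnd hmem
  rw [yg, h]
  simp only [List.map_cons, List.map_nil, List.prod_cons, List.prod_nil, mul_one]
  rw [mul_assoc]

/-- folded root elements of `G_2` as products of three root elements -/
theorem yg_ga {R : Type*} [CommRing R] (t : R) (a2 a3 : Root cT) (h2 : a2.1 = ![0, 0, 1, 0])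
    (h3 : a3.1 = ![0, 0, 0, 1]) : yg fG ga t = xg cT ga t * xg cT a2 t * xg cT a3 t := by
  have h1 : ga.1 = ![0, 1, 0, 0] := rfl
  refine yg_three_aux t ga a2 a3 ?_ ?_ ?_ ?_
  · rw [h1, h2]; decide
  · rw [h1, h3]; decide
  · rw [h2, h3]; decide
  · rw [h1, h2, h3]; decide

theorem yg_gab {R : Type*} [CommRing R] (t : R) (a2 a3 : Root cT) (h2 : a2.1 = ![1, 0, 1, 0])
    (h3 : a3.1 = ![1, 0, 0, 1]) : yg fG gab t = xg cT gab t * xg cT a2 t * xg cT a3 t := by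
  have h1 : gab.1 = ![1, 1, 0, 0] := rfl
  refine yg_three_aux t gab a2 a3 ?_ ?_ ?_ ?_
  · rw [h1, h2]; decide
  · rw [h1, h3]; decide
  · rw [h2, h3]; decide
  · rw [h1, h2, h3]; decide

theorem yg_gaab {R : Type*} [CommRing R] (t : R) (a2 a3 : Root cT) (h2 : a2.1 = ![1, 0, 1, 1])
    (h3 : a3.1 = ![1, 1, 0, 1]) : yg fG gaab t = xg cT gaab t * xg cT a2 t * xg cT a3 t := by
  have h1 : gaab.1 = ![1, 1, 1, 0] := rfl
  refine yg_three_aux t gaab a2 a3 ?_ ?_ ?_ ?_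
  · rw [h1, h2]; decide
  · rw [h1, h3]; decide
  · rw [h2, h3]; decide
  · rw [h1, h2, h3]; decide

theorem G_comm1_tail {G : Type*} [Group G] {x y z : G} (h : x * y = z * (y * x)) (w : G) :
    x * (y * w) = z * (y * (x * w)) := by
  rw [← mul_assoc, h, mul_assoc, mul_assoc]

theorem G_comm1_tail2 {G : Type*} [Group G] {x y : G} (h : x * y = y * x) (w : G) :
    x * (y * w) = y * (x * w) := by
  rw [← mul_assoc, h, mul_assoc]

theorem G_comm1_grp {G : Type*} [Group G] (B1 B2 B3 A1 A2 A3 C12 C23 C13 L H : G)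
    (r1 : A1 * B2 = C12 * (B2 * A1)) (r2 : A1 * B3 = C13 * (B3 * A1))
    (r3 : A2 * B3 = C23 * (B3 * A2)) (r4 : A1 * C23 = L * (C23 * A1))
    (r5 : A2 * C13 = L * (C13 * A2)) (r6 : A3 * C12 = L * (C12 * A3))
    (r7 : C12 * B3 = H * (B3 * C12))
    (s1 : A1 * C12 = C12 * A1) (s2 : A2 * C12 = C12 * A2) (s3 : A1 * C13 = C13 * A1)
    (s4 : A3 * C13 = C13 * A3) (s5 : A2 * C23 = C23 * A2) (s6 : A3 * C23 = C23 * A3)
    (t1 : A1 * L = L * A1) (t2 : A2 * L = L * A2) (t3 : A3 * L = L * A3)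
    (t4 : A1 * H = H * A1) (t5 : A2 * H = H * A2) (t6 : A3 * H = H * A3)
    (u1 : L * B2 = B2 * L) (u2 : L * B3 = B3 * L) (u3 : L * C12 = C12 * L)
    (u4 : L * C23 = C23 * L) (u5 : L * C13 = C13 * L)
    (v1 : H * B2 = B2 * H) (v2 : H * B3 = B3 * H) (v3 : H * C12 = C12 * H)
    (v4 : H * C23 = C23 * H) (v5 : H * C13 = C13 * H) (v6 : H * L = L * H)
    (w1 : C12 * B2 = B2 * C12) (w2 : C13 * B3 = B3 * C13) (w3 : C23 * B3 = B3 * C23)
    (w4 : C13 * C12 = C12 * C13) (w5 : C13 * C23 = C23 * C13) (w6 : C23 * C12 = C12 * C23) :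
    B1 * A1 * (B2 * A2) * (B3 * A3) * (L * L) =
      (B1 * B2 * B3) * (A1 * A2 * A3) * (C12 * C23 * C13) * H := by
  simp only [mul_assoc, r1, r2, r3, r4, r5, r6, r7, s1, s2, s3, s4, s5, s6, t1, t2, t3, t4, t5, t6,
    u1, u2, u3, u4, u5, v1, v2, v3, v4, v5, v6, w1, w2, w3, w4, w5, w6,
    G_comm1_tail r1, G_comm1_tail r2, G_comm1_tail r3, G_comm1_tail r4, G_comm1_tail r5,
    G_comm1_tail r6, G_comm1_tail r7, G_comm1_tail2 s1, G_comm1_tail2 s2, G_comm1_tail2 s3,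
    G_comm1_tail2 s4, G_comm1_tail2 s5, G_comm1_tail2 s6, G_comm1_tail2 t1, G_comm1_tail2 t2,
    G_comm1_tail2 t3, G_comm1_tail2 t4, G_comm1_tail2 t5, G_comm1_tail2 t6, G_comm1_tail2 u1,
    G_comm1_tail2 u2, G_comm1_tail2 u3, G_comm1_tail2 u4, G_comm1_tail2 u5, G_comm1_tail2 v1,
    G_comm1_tail2 v2, G_comm1_tail2 v3, G_comm1_tail2 v4, G_comm1_tail2 v5, G_comm1_tail2 v6,
    G_comm1_tail2 w1, G_comm1_tail2 w2, G_comm1_tail2 w3, G_comm1_tail2 w4, G_comm1_tail2 w5,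
    G_comm1_tail2 w6]

def G_comm1_a2 : Root cT := ⟨![0, 0, 1, 0], cT_mk _ (by decide)⟩
def G_comm1_a3 : Root cT := ⟨![0, 0, 0, 1], cT_mk _ (by decide)⟩
def G_comm1_b2 : Root cT := ⟨![1, 0, 1, 0], cT_mk _ (by decide)⟩
def G_comm1_b3 : Root cT := ⟨![1, 0, 0, 1], cT_mk _ (by decide)⟩
def G_comm1_c23 : Root cT := ⟨![1, 0, 1, 1], cT_mk _ (by decide)⟩
def G_comm1_c13 : Root cT := ⟨![1, 1, 0, 1], cT_mk _ (by decide)⟩

theorem G_comm1_br {R : Type*} [CommRing R] (α β γ : Root cT) (h : γ.1 = α.1 + β.1)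
    (hs : eta cT α.1 β.1 = -1) (s t w : R) (hw : w = -(s * t)) :
    xg cT α s * xg cT β t = xg cT γ w * (xg cT β t * xg cT α s) := by
  rw [xg_bracket cT α β γ h, mul_assoc, hw]
  have e : sgn cT α.1 β.1 = -1 := by
    unfold sgn; rw [hs]; rfl
  rw [e]
  congr 2
  push_cast; ring

theorem G_comm1_br1 {R : Type*} [CommRing R] (α β γ : Root cT) (h : γ.1 = α.1 + β.1)
    (hs : eta cT α.1 β.1 = 0) (s t : R) :
    xg cT α s * xg cT β t = xg cT γ (s * t) * (xg cT β t * xg cT α s) := by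
  rw [xg_bracket cT α β γ h, mul_assoc]
  have e : sgn cT α.1 β.1 = 1 := by
    unfold sgn; rw [hs]; rfl
  rw [e]
  congr 2
  push_cast; ring

/-- the commutator formula between a long and a short simple root -/
theorem G_comm1 {R : Type*} [CommRing R] (u s : R) :
    yg fG gb u * yg fG ga s * yg fG gb (-u) =
      yg fG gab (u * s) * yg fG ga s * yg fG gaab (-(u * s ^ 2)) * yg fG gl (-2 * (u * s ^ 3)) *
        yg fG gh (u ^ 2 * s ^ 3) := by
  rw [yg_fixed fG gb gb_fixed.1, yg_fixed fG gb gb_fixed.1, yg_fixed fG gl gb_fixed.2.1,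
    yg_fixed fG gh gb_fixed.2.2, yg_ga s G_comm1_a2 G_comm1_a3 rfl rfl,
    yg_gab _ G_comm1_b2 G_comm1_b3 rfl rfl, yg_gaab _ G_comm1_c23 G_comm1_c13 rfl rfl]
  have hL : xg cT gl (-2 * (u * s ^ 3)) = (xg cT gl (u * s ^ 3) * xg cT gl (u * s ^ 3))⁻¹ := by
    rw [← xg_add, ← xg_neg]
    congr 1; ring
  have hb : xg cT gb (-u) = (xg cT gb u)⁻¹ := xg_neg cT gb u
  have k1 := G_comm1_br1 gb ga gab (by decide) (by decide) u s
  have k2 := G_comm1_br1 gb G_comm1_a2 G_comm1_b2 (by decide) (by decide) u s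
  have k3 := G_comm1_br1 gb G_comm1_a3 G_comm1_b3 (by decide) (by decide) u s
  have hlhs : xg cT gb u * (xg cT ga s * xg cT G_comm1_a2 s * xg cT G_comm1_a3 s) *
      xg cT gb (-u) = xg cT gab (u * s) * xg cT ga s * (xg cT G_comm1_b2 (u * s) *
        xg cT G_comm1_a2 s) * (xg cT G_comm1_b3 (u * s) * xg cT G_comm1_a3 s) := by
    rw [hb, mul_inv_eq_iff_eq_mul]
    simp only [mul_assoc]
    rw [G_comm1_tail k1, G_comm1_tail k2, k3]
  rw [hlhs, hL]
  have main := G_comm1_grp (xg cT gab (u * s)) (xg cT G_comm1_b2 (u * s))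
    (xg cT G_comm1_b3 (u * s)) (xg cT ga s) (xg cT G_comm1_a2 s) (xg cT G_comm1_a3 s)
    (xg cT gaab (-(u * s ^ 2))) (xg cT G_comm1_c23 (-(u * s ^ 2)))
    (xg cT G_comm1_c13 (-(u * s ^ 2))) (xg cT gl (u * s ^ 3)) (xg cT gh (u ^ 2 * s ^ 3))
    (G_comm1_br _ _ _ (by decide) (by decide) _ _ _ (by ring))
    (G_comm1_br _ _ _ (by decide) (by decide) _ _ _ (by ring))
    (G_comm1_br _ _ _ (by decide) (by decide) _ _ _ (by ring))
    (G_comm1_br _ _ _ (by decide) (by decide) _ _ _ (by ring))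
    (G_comm1_br _ _ _ (by decide) (by decide) _ _ _ (by ring))
    (G_comm1_br _ _ _ (by decide) (by decide) _ _ _ (by ring))
    (G_comm1_br _ _ _ (by decide) (by decide) _ _ _ (by ring))
    (xg_commute cT _ _ (by decide) _ _) (xg_commute cT _ _ (by decide) _ _)
    (xg_commute cT _ _ (by decide) _ _) (xg_commute cT _ _ (by decide) _ _)
    (xg_commute cT _ _ (by decide) _ _) (xg_commute cT _ _ (by decide) _ _)
    (xg_commute cT _ _ (by decide) _ _) (xg_commute cT _ _ (by decide) _ _)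
    (xg_commute cT _ _ (by decide) _ _) (xg_commute cT _ _ (by decide) _ _)
    (xg_commute cT _ _ (by decide) _ _) (xg_commute cT _ _ (by decide) _ _)
    (xg_commute cT _ _ (by decide) _ _) (xg_commute cT _ _ (by decide) _ _)
    (xg_commute cT _ _ (by decide) _ _) (xg_commute cT _ _ (by decide) _ _)
    (xg_commute cT _ _ (by decide) _ _) (xg_commute cT _ _ (by decide) _ _)
    (xg_commute cT _ _ (by decide) _ _) (xg_commute cT _ _ (by decide) _ _)
    (xg_commute cT _ _ (by decide) _ _) (xg_commute cT _ _ (by decide) _ _)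
    (xg_commute cT _ _ (by decide) _ _) (xg_commute cT _ _ (by decide) _ _)
    (xg_commute cT _ _ (by decide) _ _) (xg_commute cT _ _ (by decide) _ _)
    (xg_commute cT _ _ (by decide) _ _) (xg_commute cT _ _ (by decide) _ _)
    (xg_commute cT _ _ (by decide) _ _)
  have hLH : xg cT gh (u ^ 2 * s ^ 3) * xg cT gl (u * s ^ 3) =
      xg cT gl (u * s ^ 3) * xg cT gh (u ^ 2 * s ^ 3) := xg_commute cT _ _ (by decide) _ _
  rw [← eq_mul_inv_iff_mul_eq] at main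
  rw [main]
  have hc : Commute (xg cT gh (u ^ 2 * s ^ 3)) (xg cT gl (u * s ^ 3) * xg cT gl (u * s ^ 3)) :=
    Commute.mul_right hLH hLH
  rw [mul_assoc _ (xg cT gh (u ^ 2 * s ^ 3)), hc.inv_right.eq, ← mul_assoc]

theorem G_comm2_grp {Γ : Type*} [Group Γ] (A1 A2 A3 B1 B2 B3 C1 C2 C3 U V : Γ)
    (a12 : A1 * B2 = C3 * B2 * A1) (a13 : A1 * B3 = C2 * B3 * A1)
    (a21 : A2 * B1 = C3 * B1 * A2) (a23 : A2 * B3 = C1 * B3 * A2)
    (a31 : A3 * B1 = C2 * B1 * A3) (a32 : A3 * B2 = C1 * B2 * A3)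
    (a11 : A1 * B1 = B1 * A1) (a22 : A2 * B2 = B2 * A2) (a33 : A3 * B3 = B3 * A3)
    (c11 : A1 * C1 = U * C1 * A1) (c22 : A2 * C2 = U * C2 * A2) (c33 : A3 * C3 = U * C3 * A3)
    (c12 : A1 * C2 = C2 * A1) (c13 : A1 * C3 = C3 * A1) (c21 : A2 * C1 = C1 * A2)
    (c23 : A2 * C3 = C3 * A2) (c31 : A3 * C1 = C1 * A3) (c32 : A3 * C2 = C2 * A3)
    (b11 : B1 * C1 = V * C1 * B1) (b22 : B2 * C2 = V * C2 * B2) (b33 : B3 * C3 = V * C3 * B3)
    (b12 : B1 * C2 = C2 * B1) (b13 : B1 * C3 = C3 * B1) (b21 : B2 * C1 = C1 * B2)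
    (b23 : B2 * C3 = C3 * B2) (b31 : B3 * C1 = C1 * B3) (b32 : B3 * C2 = C2 * B3)
    (d21 : C2 * C1 = C1 * C2) (d31 : C3 * C1 = C1 * C3) (d32 : C3 * C2 = C2 * C3)
    (u1 : A1 * U = U * A1) (u2 : A2 * U = U * A2) (u3 : A3 * U = U * A3)
    (u4 : B1 * U = U * B1) (u5 : B2 * U = U * B2) (u6 : B3 * U = U * B3)
    (u7 : C1 * U = U * C1) (u8 : C2 * U = U * C2) (u9 : C3 * U = U * C3)
    (v1 : A1 * V = V * A1) (v2 : A2 * V = V * A2) (v3 : A3 * V = V * A3)
    (v4 : B1 * V = V * B1) (v5 : B2 * V = V * B2) (v6 : B3 * V = V * B3)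
    (v7 : C1 * V = V * C1) (v8 : C2 * V = V * C2) (v9 : C3 * V = V * C3) (v0 : U * V = V * U) :
    A1 * A2 * A3 * (B1 * B2 * B3) =
      (V * V * V) * ((U * U * U) * ((C1 * C1) * ((C2 * C2) * ((C3 * C3) *
        ((B1 * B2 * B3) * (A1 * A2 * A3)))))) := by
  have R : ∀ {x y z : Γ}, x * y = z → ∀ w, x * (y * w) = z * w := by
    intro x y z h w
    rw [← mul_assoc, h]
  simp only [mul_assoc, R a12, R a13, R a21, R a23, R a31, R a32, R a11, R a22, R a33,
    R c11, R c22, R c33, R c12, R c13, R c21, R c23, R c31, R c32,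
    R b11, R b22, R b33, R b12, R b13, R b21, R b23, R b31, R b32,
    R d21, R d31, R d32, R u1, R u2, R u3, R u4, R u5, R u6, R u7, R u8, R u9,
    R v1, R v2, R v3, R v4, R v5, R v6, R v7, R v8, R v9, R v0,
    a12, a13, a23, a33, a22, a11, a21, a31, a32]

theorem G_comm2_sgn {x y : Fin 4 → ℤ} (h : eta cT x y = -1 ∨ eta cT x y = 1) :
    sgn cT x y = -1 := by
  unfold sgn
  rcases h with h | h
  · rw [h]
    simp
  · rw [h]
    simp

theorem G_comm2_sgn0 {x y : Fin 4 → ℤ} (h : eta cT x y = 0) : sgn cT x y = 1 := by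
  unfold sgn
  rw [h]
  simp

/-- bracket with sign `-1` -/
theorem G_comm2_br {R : Type*} [CommRing R] (α β γ : Root cT) (h : γ.1 = α.1 + β.1)
    (he : eta cT α.1 β.1 = -1 ∨ eta cT α.1 β.1 = 1) (s t u : R) (hu : u = -(s * t)) :
    xg cT α s * xg cT β t = xg cT γ u * xg cT β t * xg cT α s := by
  rw [xg_bracket cT α β γ h s t, G_comm2_sgn he, hu]
  congr 3
  push_cast
  ring

/-- bracket with sign `1` -/
theorem G_comm2_br0 {R : Type*} [CommRing R] (α β γ : Root cT) (h : γ.1 = α.1 + β.1)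
    (he : eta cT α.1 β.1 = 0) (s t u : R) (hu : u = s * t) :
    xg cT α s * xg cT β t = xg cT γ u * xg cT β t * xg cT α s := by
  rw [xg_bracket cT α β γ h s t, G_comm2_sgn0 he, hu]
  congr 3
  push_cast
  ring

/-- the commutator formula between short roots at 60 degrees, in characteristic 3 -/
theorem G_comm2 {L : Type*} [Field L] [CharP L 3] (s t : L) :
    yg fG ga s * yg fG gab t = yg fG gaab (s * t) * (yg fG gab t * yg fG ga s) := by
  have h3 : (3 : L) = 0 := by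
    have := CharP.cast_eq_zero L 3
    exact_mod_cast this
  rw [yg_ga s ⟨![0, 0, 1, 0], cT_mk _ (by decide)⟩ ⟨![0, 0, 0, 1], cT_mk _ (by decide)⟩ rfl rfl,
    yg_gab t ⟨![1, 0, 1, 0], cT_mk _ (by decide)⟩ ⟨![1, 0, 0, 1], cT_mk _ (by decide)⟩ rfl rfl,
    yg_gaab (s * t) ⟨![1, 0, 1, 1], cT_mk _ (by decide)⟩ ⟨![1, 1, 0, 1], cT_mk _ (by decide)⟩
      rfl rfl]
  generalize hA2 : (⟨![0, 0, 1, 0], cT_mk _ (by decide)⟩ : Root cT) = A2
  generalize hA3 : (⟨![0, 0, 0, 1], cT_mk _ (by decide)⟩ : Root cT) = A3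
  generalize hB2 : (⟨![1, 0, 1, 0], cT_mk _ (by decide)⟩ : Root cT) = B2
  generalize hB3 : (⟨![1, 0, 0, 1], cT_mk _ (by decide)⟩ : Root cT) = B3
  generalize hC1 : (⟨![1, 0, 1, 1], cT_mk _ (by decide)⟩ : Root cT) = C1
  generalize hC2 : (⟨![1, 1, 0, 1], cT_mk _ (by decide)⟩ : Root cT) = C2
  have vA1 : ga.1 = ![0, 1, 0, 0] := rfl
  have vA2 : A2.1 = ![0, 0, 1, 0] := by rw [← hA2]
  have vA3 : A3.1 = ![0, 0, 0, 1] := by rw [← hA3]
  have vB1 : gab.1 = ![1, 1, 0, 0] := rfl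
  have vB2 : B2.1 = ![1, 0, 1, 0] := by rw [← hB2]
  have vB3 : B3.1 = ![1, 0, 0, 1] := by rw [← hB3]
  have vC3 : gaab.1 = ![1, 1, 1, 0] := rfl
  have vC1 : C1.1 = ![1, 0, 1, 1] := by rw [← hC1]
  have vC2 : C2.1 = ![1, 1, 0, 1] := by rw [← hC2]
  have vU : gl.1 = ![1, 1, 1, 1] := rfl
  have vV : gh.1 = ![2, 1, 1, 1] := rfl
  have key := G_comm2_grp (xg cT ga s) (xg cT A2 s) (xg cT A3 s) (xg cT gab t) (xg cT B2 t)
    (xg cT B3 t) (xg cT C1 (-(s * t))) (xg cT C2 (-(s * t))) (xg cT gaab (-(s * t)))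
    (xg cT gl (-(s * -(s * t)))) (xg cT gh (t * -(s * t)))
    (G_comm2_br ga B2 gaab (by rw [vA1, vB2, vC3]; decide) (by rw [vA1, vB2]; decide) _ _ _ rfl)
    (G_comm2_br ga B3 C2 (by rw [vA1, vB3, vC2]; decide) (by rw [vA1, vB3]; decide) _ _ _ rfl)
    (G_comm2_br A2 gab gaab (by rw [vA2, vB1, vC3]; decide) (by rw [vA2, vB1]; decide) _ _ _ rfl)
    (G_comm2_br A2 B3 C1 (by rw [vA2, vB3, vC1]; decide) (by rw [vA2, vB3]; decide) _ _ _ rfl)
    (G_comm2_br A3 gab C2 (by rw [vA3, vB1, vC2]; decide) (by rw [vA3, vB1]; decide) _ _ _ rfl)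
    (G_comm2_br A3 B2 C1 (by rw [vA3, vB2, vC1]; decide) (by rw [vA3, vB2]; decide) _ _ _ rfl)
    (xg_commute cT _ _ (by rw [vA1, vB1]; decide) _ _)
    (xg_commute cT _ _ (by rw [vA2, vB2]; decide) _ _)
    (xg_commute cT _ _ (by rw [vA3, vB3]; decide) _ _)
    (G_comm2_br ga C1 gl (by rw [vA1, vC1, vU]; decide) (by rw [vA1, vC1]; decide) _ _ _ rfl)
    (G_comm2_br A2 C2 gl (by rw [vA2, vC2, vU]; decide) (by rw [vA2, vC2]; decide) _ _ _ rfl)
    (G_comm2_br A3 gaab gl (by rw [vA3, vC3, vU]; decide) (by rw [vA3, vC3]; decide) _ _ _ rfl)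
    (xg_commute cT _ _ (by rw [vA1, vC2]; decide) _ _)
    (xg_commute cT _ _ (by rw [vA1, vC3]; decide) _ _)
    (xg_commute cT _ _ (by rw [vA2, vC1]; decide) _ _)
    (xg_commute cT _ _ (by rw [vA2, vC3]; decide) _ _)
    (xg_commute cT _ _ (by rw [vA3, vC1]; decide) _ _)
    (xg_commute cT _ _ (by rw [vA3, vC2]; decide) _ _)
    (G_comm2_br0 gab C1 gh (by rw [vB1, vC1, vV]; decide) (by rw [vB1, vC1]; decide) _ _ _ rfl)
    (G_comm2_br0 B2 C2 gh (by rw [vB2, vC2, vV]; decide) (by rw [vB2, vC2]; decide) _ _ _ rfl)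
    (G_comm2_br0 B3 gaab gh (by rw [vB3, vC3, vV]; decide) (by rw [vB3, vC3]; decide) _ _ _ rfl)
    (xg_commute cT _ _ (by rw [vB1, vC2]; decide) _ _)
    (xg_commute cT _ _ (by rw [vB1, vC3]; decide) _ _)
    (xg_commute cT _ _ (by rw [vB2, vC1]; decide) _ _)
    (xg_commute cT _ _ (by rw [vB2, vC3]; decide) _ _)
    (xg_commute cT _ _ (by rw [vB3, vC1]; decide) _ _)
    (xg_commute cT _ _ (by rw [vB3, vC2]; decide) _ _)
    (xg_commute cT _ _ (by rw [vC2, vC1]; decide) _ _)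
    (xg_commute cT _ _ (by rw [vC3, vC1]; decide) _ _)
    (xg_commute cT _ _ (by rw [vC3, vC2]; decide) _ _)
    (xg_commute cT _ _ (by rw [vA1, vU]; decide) _ _)
    (xg_commute cT _ _ (by rw [vA2, vU]; decide) _ _)
    (xg_commute cT _ _ (by rw [vA3, vU]; decide) _ _)
    (xg_commute cT _ _ (by rw [vB1, vU]; decide) _ _)
    (xg_commute cT _ _ (by rw [vB2, vU]; decide) _ _)
    (xg_commute cT _ _ (by rw [vB3, vU]; decide) _ _)
    (xg_commute cT _ _ (by rw [vC1, vU]; decide) _ _)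
    (xg_commute cT _ _ (by rw [vC2, vU]; decide) _ _)
    (xg_commute cT _ _ (by rw [vC3, vU]; decide) _ _)
    (xg_commute cT _ _ (by rw [vA1, vV]; decide) _ _)
    (xg_commute cT _ _ (by rw [vA2, vV]; decide) _ _)
    (xg_commute cT _ _ (by rw [vA3, vV]; decide) _ _)
    (xg_commute cT _ _ (by rw [vB1, vV]; decide) _ _)
    (xg_commute cT _ _ (by rw [vB2, vV]; decide) _ _)
    (xg_commute cT _ _ (by rw [vB3, vV]; decide) _ _)
    (xg_commute cT _ _ (by rw [vC1, vV]; decide) _ _)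
    (xg_commute cT _ _ (by rw [vC2, vV]; decide) _ _)
    (xg_commute cT _ _ (by rw [vC3, vV]; decide) _ _)
    (xg_commute cT _ _ (by rw [vU, vV]; decide) _ _)
  have three : ∀ x : L, x + x + x = 0 := by
    intro x
    linear_combination x * h3
  have two : -(s * t) + -(s * t) = s * t := by
    linear_combination (-(s * t)) * h3
  rw [← xg_add, ← xg_add, ← xg_add, ← xg_add, ← xg_add, ← xg_add, ← xg_add, three, three, two,
    xg_zero, xg_zero, one_mul, one_mul] at key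
  rw [key]
  have e1 : xg cT C2 (s * t) * xg cT gaab (s * t) = xg cT gaab (s * t) * xg cT C2 (s * t) :=
    xg_commute cT _ _ (by rw [vC2, vC3]; decide) _ _
  have e2 : xg cT C1 (s * t) * xg cT gaab (s * t) = xg cT gaab (s * t) * xg cT C1 (s * t) :=
    xg_commute cT _ _ (by rw [vC1, vC3]; decide) _ _
  calc xg cT C1 (s * t) * (xg cT C2 (s * t) * (xg cT gaab (s * t) *
        (xg cT gab t * xg cT B2 t * xg cT B3 t * (xg cT ga s * xg cT A2 s * xg cT A3 s))))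
      = xg cT C1 (s * t) * ((xg cT C2 (s * t) * xg cT gaab (s * t)) *
        (xg cT gab t * xg cT B2 t * xg cT B3 t * (xg cT ga s * xg cT A2 s * xg cT A3 s))) := by
        simp only [mul_assoc]
    _ = (xg cT C1 (s * t) * xg cT gaab (s * t)) * (xg cT C2 (s * t) *
        (xg cT gab t * xg cT B2 t * xg cT B3 t * (xg cT ga s * xg cT A2 s * xg cT A3 s))) := by
        rw [e1]
        simp only [mul_assoc]
    _ = _ := by
        rw [e2]
        simp only [mul_assoc]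

theorem G_comm3 {R : Type*} [CommRing R] (s t : R) :
    yg fG gb s * yg fG gl t = yg fG gh (-(s * t)) * (yg fG gl t * yg fG gb s) := by
  obtain ⟨h1, h2, h3⟩ := gb_fixed
  rw [yg_fixed fG gb h1, yg_fixed fG gl h2, yg_fixed fG gh h3, ← mul_assoc]
  exact G_comm2_br gb gl gh (by decide) (by decide) _ _ _ rfl

def LQG : List (Fin 4 → ℤ) := [
  ![0, 1, 0, 0], ![0, 0, 1, 0], ![0, 0, 0, 1], ![1, 1, 0, 0], ![1, 0, 1, 0], ![1, 0, 0, 1]]

open Classical in
noncomputable def QG : Finset (Root cT) := Finset.univ.filter fun β => β.1 ∈ LQG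

open Classical in
/-- the commutator constants -/
noncomputable def ccG (δ δ' : Root cT) : ℤ :=
  if δ = ga ∧ δ' = gab then 1 else if δ = gab ∧ δ' = ga then -1 else 0

open Classical in
noncomputable def stG (δ : Root cT) : Root cT :=
  if δ = ga then gab else if δ = gab then ga else δ

theorem G3_reps_mem (β : Root cT) : β ∈ PG ↔ β.1 ∈ LPG := by
  simp [PG]

theorem G3_reps_orb (β γ : Root cT) :
    γ ∈ orb fG β ↔ γ.1 ∈ (Finset.range 3).image (fun k => pv (sG ^ k) β.1) :=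
  mem_orb_vec fG 3 (by norm_num) sG_cube β γ

theorem G3_reps_cases {β : Root cT} (h : β ∈ PG) :
    β.1 = ![1, 0, 1, 1] ∨ β.1 = ![1, 1, 0, 1] ∨ β.1 = ![1, 1, 1, 0] ∨ β.1 = ![1, 1, 1, 1] ∨
      β.1 = ![2, 1, 1, 1] := by
  rw [G3_reps_mem] at h
  simpa [LPG] using h

theorem G3_reps_aux (w : Root cT) (hw : w ∈ ({gaab, gl, gh} : Finset (Root cT)))
    (γ : Root cT) (v : Fin 4 → ℤ) (hγ : γ.1 = v)
    (h1 : w.1 ∈ (Finset.range 3).image (fun k => pv (sG ^ k) v))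
    (h2 : ∀ u ∈ [gaab.1, gl.1, gh.1], u ∈ (Finset.range 3).image (fun k => pv (sG ^ k) v) →
      u = w.1) :
    ∃! γ' : Root cT, γ' ∈ ({gaab, gl, gh} : Finset (Root cT)) ∧ γ' ∈ orb fG γ := by
  refine ⟨w, ⟨hw, ?_⟩, ?_⟩
  · rw [G3_reps_orb, hγ]
    exact h1
  · rintro y ⟨hy1, hy2⟩
    rw [G3_reps_orb, hγ] at hy2
    refine root_ext cT (h2 _ ?_ hy2)
    simp only [Finset.mem_insert, Finset.mem_singleton] at hy1
    rcases hy1 with rfl | rfl | rfl <;> simp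

theorem G3_reps : IsReps fG PG {gaab, gl, gh} := by
  constructor
  · intro γ hγ
    simp only [Finset.mem_insert, Finset.mem_singleton] at hγ
    rw [G3_reps_mem]
    rcases hγ with rfl | rfl | rfl
    · show (![1, 1, 1, 0] : Fin 4 → ℤ) ∈ LPG
      decide +kernel
    · show (![1, 1, 1, 1] : Fin 4 → ℤ) ∈ LPG
      decide +kernel
    · show (![2, 1, 1, 1] : Fin 4 → ℤ) ∈ LPG
      decide +kernel
  · intro γ hγ
    rcases G3_reps_cases hγ with h | h | h | h | h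
    · refine G3_reps_aux gaab (by simp) γ _ h ?_ ?_
      · decide +kernel
      · decide +kernel
    · refine G3_reps_aux gaab (by simp) γ _ h ?_ ?_
      · decide +kernel
      · decide +kernel
    · refine G3_reps_aux gaab (by simp) γ _ h ?_ ?_
      · decide +kernel
      · decide +kernel
    · refine G3_reps_aux gl (by simp) γ _ h ?_ ?_
      · decide +kernel
      · decide +kernel
    · refine G3_reps_aux gh (by simp) γ _ h ?_ ?_
      · decide +kernel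
      · decide +kernel

theorem G3_conn_aux (γ : Root cT) (v : Fin 4 → ℤ) (hγ : γ.1 = v)
    (h : gaab.1 ∈ (Finset.range 3).image (fun k => pv (sG ^ k) v)) :
    ∃ γ₀ ∈ ({gaab, gh} : Finset (Root cT)),
    Relation.ReflTransGen (StepRel fG 3 PG) γ γ₀ := by
  refine ⟨gaab, by simp, Relation.ReflTransGen.single ⟨G3_reps.1 (by simp), Or.inl ?_⟩⟩
  rw [G3_reps_orb, hγ]
  exact h

theorem G3_conn : ∀ γ ∈ PG, ∃ γ₀ ∈ ({gaab, gh} : Finset (Root cT)),
    Relation.ReflTransGen (StepRel fG 3 PG) γ γ₀ := by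
  intro γ hγ
  rcases G3_reps_cases hγ with h | h | h | h | h
  · exact G3_conn_aux γ _ h (by decide +kernel)
  · exact G3_conn_aux γ _ h (by decide +kernel)
  · exact G3_conn_aux γ _ h (by decide +kernel)
  · obtain rfl : γ = gl := root_ext cT h
    refine ⟨gh, by simp, Relation.ReflTransGen.single ?_⟩
    haveI : Fact (Nat.Prime 3) := ⟨Nat.prime_three⟩
    refine StepRel_of_unique fG 3 PG gl gh gb (G3_reps.1 (by simp)) ?_ ?_ ?_
    · show (![1, 0, 0, 0] : Fin 4 → ℤ) = ![2, 1, 1, 1] - ![1, 1, 1, 1]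
      decide +kernel
    · refine JR_pos fG PG PG_PSet gb ?_
      show ∀ i : Fin 4, 0 ≤ (![1, 0, 0, 0] : Fin 4 → ℤ) i
      decide +kernel
    · intro β' _ γ'' h2 _
      rw [orb_fixed fG gl gb_fixed.2.1] at h2
      exact Finset.mem_singleton.1 h2
  · obtain rfl : γ = gh := root_ext cT h
    exact ⟨gh, by simp, Relation.ReflTransGen.refl⟩

theorem G3_Q_mem (β : Root cT) : β ∈ QG ↔ β.1 ∈ LQG := by
  simp [QG]

theorem G3_Q_pos : ∀ v ∈ LQG, ∀ i : Fin 4, 0 ≤ v i := by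
  decide +kernel

theorem G3_Q_stab : ∀ v ∈ LQG, pv sG v ∈ LQG := by
  decide +kernel

theorem G3_Q_orb : ∀ v ∈ LQG, ga.1 ∈ (Finset.range 3).image (fun k => pv (sG ^ k) v) ∨
    gab.1 ∈ (Finset.range 3).image (fun k => pv (sG ^ k) v) := by
  decide +kernel

theorem G3_Q : (∀ δ ∈ QG, Pos δ.1) ∧ (∀ δ ∈ QG, sroot fG δ ∈ QG) ∧
    (∀ δ ∈ QG, ∃ δ' ∈ ({ga, gab} : Finset (Root cT)), δ' ∈ orb fG δ) ∧
    ({ga, gab} : Finset (Root cT)) ⊆ QG := by
  refine ⟨?_, ?_, ?_, ?_⟩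
  · intro δ hδ
    exact G3_Q_pos _ ((G3_Q_mem δ).1 hδ)
  · intro δ hδ
    rw [G3_Q_mem]
    exact G3_Q_stab _ ((G3_Q_mem δ).1 hδ)
  · intro δ hδ
    rcases G3_Q_orb _ ((G3_Q_mem δ).1 hδ) with h | h
    · exact ⟨ga, by simp, (G3_reps_orb δ ga).2 h⟩
    · exact ⟨gab, by simp, (G3_reps_orb δ gab).2 h⟩
  · intro γ hγ
    simp only [Finset.mem_insert, Finset.mem_singleton] at hγ
    rw [G3_Q_mem]
    rcases hγ with rfl | rfl
    · show (![0, 1, 0, 0] : Fin 4 → ℤ) ∈ LQG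
      decide +kernel
    · show (![1, 1, 0, 0] : Fin 4 → ℤ) ∈ LQG
      decide +kernel

theorem G3_good_list : ∀ v ∈ LT, v ∉ LPG → v ∉ LQG → v = ![1, 0, 0, 0] := by
  decide +kernel

theorem G3_good (δ : Root cT) (hδ : Pos δ.1) (h : δ ∉ PG) (h' : δ ∉ QG) :
    Good fG 3 PG δ := by
  rw [G3_reps_mem] at h
  rw [G3_Q_mem] at h'
  have hv := G3_good_list _ ((cT_pos_mem δ).1 hδ) h h'
  refine ⟨gl, G3_reps.1 (by simp), ?_, Or.inl ?_⟩
  · rw [hv]
    show bil cT ![1, 0, 0, 0] ![1, 1, 1, 1] = -1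
    decide +kernel
  · intro γ' hγ' hne
    rw [orb_fixed fG gl gb_fixed.2.1] at hγ'
    exact absurd (Finset.mem_singleton.1 hγ') hne

def qq_gA (i : Fin 3) : Root cT := ⟨![![0, 1, 0, 0], ![0, 0, 1, 0], ![0, 0, 0, 1]] i,
  cT_mk _ (by revert i; decide)⟩

def qq_gB (i : Fin 3) : Root cT := ⟨![![1, 1, 0, 0], ![1, 0, 1, 0], ![1, 0, 0, 1]] i,
  cT_mk _ (by revert i; decide)⟩

def qq_gP (i : Fin 3) : Root cT := ⟨![![1, 0, 1, 1], ![1, 1, 0, 1], ![1, 1, 1, 0]] i,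
  cT_mk _ (by revert i; decide)⟩

theorem qq_gA_P (i j : Fin 3) : bil cT (qq_gA i).1 (qq_gP j).1 = if i = j then -1 else 1 := by
  revert i j; decide

theorem qq_gB_P (i j : Fin 3) : bil cT (qq_gB i).1 (qq_gP j).1 = if i = j then -1 else 1 := by
  revert i j; decide

theorem qq_gA_s (i : Fin 3) : sgn cT (qq_gA i).1 (qq_gP i).1 = -1 := by
  have h : eta cT (qq_gA i).1 (qq_gP i).1 = -1 := by revert i; decide
  rw [sgn, h]; rfl

theorem qq_gB_s (i : Fin 3) : sgn cT (qq_gB i).1 (qq_gP i).1 = 1 := by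
  have h : eta cT (qq_gB i).1 (qq_gP i).1 = 0 := by revert i; decide
  rw [sgn, h]; rfl

theorem qq_gA_add (i : Fin 3) : gl.1 = (qq_gA i).1 + (qq_gP i).1 := by revert i; decide

theorem qq_gB_add (i : Fin 3) : gh.1 = (qq_gB i).1 + (qq_gP i).1 := by revert i; decide

theorem qq_gA_l (i : Fin 3) : 0 ≤ bil cT (qq_gA i).1 gl.1 := by revert i; decide
theorem qq_gA_h (i : Fin 3) : 0 ≤ bil cT (qq_gA i).1 gh.1 := by revert i; decide
theorem qq_gB_l (i : Fin 3) : 0 ≤ bil cT (qq_gB i).1 gl.1 := by revert i; decide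
theorem qq_gB_h (i : Fin 3) : 0 ≤ bil cT (qq_gB i).1 gh.1 := by revert i; decide
theorem qq_gP_l (i : Fin 3) : 0 ≤ bil cT (qq_gP i).1 gl.1 := by revert i; decide
theorem qq_gP_h (i : Fin 3) : 0 ≤ bil cT (qq_gP i).1 gh.1 := by revert i; decide

theorem qq_gA_step : pv sG (qq_gA 0).1 = (qq_gA 1).1 ∧ pv sG (qq_gA 1).1 = (qq_gA 2).1 ∧
    pv sG (qq_gA 2).1 = (qq_gA 0).1 := by decide
theorem qq_gB_step : pv sG (qq_gB 0).1 = (qq_gB 1).1 ∧ pv sG (qq_gB 1).1 = (qq_gB 2).1 ∧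
    pv sG (qq_gB 2).1 = (qq_gB 0).1 := by decide
theorem qq_gP_step : pv sG (qq_gP 0).1 = (qq_gP 1).1 ∧ pv sG (qq_gP 1).1 = (qq_gP 2).1 ∧
    pv sG (qq_gP 2).1 = (qq_gP 0).1 := by decide

/-- orbit of three roots -/
theorem qq_orb3 (f : Fin 3 → Root cT) (h0 : pv sG (f 0).1 = (f 1).1) (h1 : pv sG (f 1).1 = (f 2).1)
    (h2 : pv sG (f 2).1 = (f 0).1) (i : Fin 3) (γ : Root cT) :
    γ ∈ orb fG (f i) ↔ ∃ j, γ = f j := by
  have hs : ∀ j, ∃ j', sroot fG (f j) = f j' := by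
    intro j
    fin_cases j
    · exact ⟨1, Subtype.ext h0⟩
    · exact ⟨2, Subtype.ext h1⟩
    · exact ⟨0, Subtype.ext h2⟩
  have s0 : f 1 ∈ orb fG (f 0) := by
    have := sroot_mem_orb fG (f 0)
    have e : sroot fG (f 0) = f 1 := Subtype.ext h0
    rwa [e] at this
  have s1 : f 2 ∈ orb fG (f 1) := by
    have := sroot_mem_orb fG (f 1)
    have e : sroot fG (f 1) = f 2 := Subtype.ext h1
    rwa [e] at this
  have e1 := orb_eq fG _ _ s0
  have e2 := orb_eq fG _ _ s1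
  have m0 : f 0 ∈ orb fG (f 0) := self_mem_orb fG (f 0)
  have ei : orb fG (f i) = orb fG (f 0) := by
    fin_cases i
    · rfl
    · exact e1
    · exact e2.trans e1
  constructor
  · refine orb_induction fG (p := fun γ => ∃ j, γ = f j) (f i) ⟨i, rfl⟩ ?_ γ
    rintro _ ⟨j, rfl⟩
    exact hs j
  · rintro ⟨j, rfl⟩
    rw [ei]
    fin_cases j
    · exact m0
    · exact s0
    · rw [← e1]; exact s1

theorem qq_gA_inj : Function.Injective qq_gA := by
  intro i j h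
  have h' : (qq_gA i).1 = (qq_gA j).1 := by rw [h]
  revert h'
  clear h
  revert i j
  decide

theorem qq_gB_inj : Function.Injective qq_gB := by
  intro i j h
  have h' : (qq_gB i).1 = (qq_gB j).1 := by rw [h]
  revert h'
  clear h
  revert i j
  decide

theorem qq_gP_inj : Function.Injective qq_gP := by
  intro i j h
  have h' : (qq_gP i).1 = (qq_gP j).1 := by rw [h]
  revert h'
  clear h
  revert i j
  decide

theorem qq_eo3 (f : Fin 3 → Root cT) (h0 : pv sG (f 0).1 = (f 1).1) (h1 : pv sG (f 1).1 = (f 2).1)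
    (h2 : pv sG (f 2).1 = (f 0).1) (hi : Function.Injective f) (i : Fin 3)
    (R : Type*) [CommRing R] : eo fG R (f i) = ev cT R (f 0) + ev cT R (f 1) + ev cT R (f 2) := by
  classical
  have : orb fG (f i) = Finset.univ.image f := by
    ext γ
    rw [qq_orb3 f h0 h1 h2 i γ]
    simp [eq_comm]
  rw [eo, this, Finset.sum_image (fun a _ b _ h => hi h), Fin.sum_univ_three]

theorem qq_ygA {R : Type*} [CommRing R] (t : R) :
    yg fG ga t = xg cT (qq_gA 0) t * xg cT (qq_gA 1) t * xg cT (qq_gA 2) t :=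
  yg_ga t (qq_gA 1) (qq_gA 2) rfl rfl

theorem qq_ygB {R : Type*} [CommRing R] (t : R) :
    yg fG gab t = xg cT (qq_gB 0) t * xg cT (qq_gB 1) t * xg cT (qq_gB 2) t :=
  yg_gab t (qq_gB 1) (qq_gB 2) rfl rfl

theorem qq_ygP {R : Type*} [CommRing R] (t : R) :
    yg fG gaab t = xg cT (qq_gP 2) t * xg cT (qq_gP 0) t * xg cT (qq_gP 1) t :=
  yg_gaab t (qq_gP 0) (qq_gP 1) rfl rfl

theorem qq_grp3 {G : Type*} [Group G] (a p : Fin 3 → G) (z : G)
    (h : ∀ i j, a i * p j = (if i = j then z else 1) * (p j * a i))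
    (hza : ∀ i, z * a i = a i * z) (hzp : ∀ i, z * p i = p i * z) (hz : z * z * z = 1) :
    a 0 * a 1 * a 2 * (p 2 * p 0 * p 1) = p 2 * p 0 * p 1 * (a 0 * a 1 * a 2) := by
  have key : ∀ j, a 0 * a 1 * a 2 * p j = z * (p j * (a 0 * a 1 * a 2)) := by
    intro j
    fin_cases j
    · have h0 : a 0 * p 0 = z * (p 0 * a 0) := by simpa using h 0 0
      have h1 : a 1 * p 0 = p 0 * a 1 := by simpa using h 1 0
      have h2 : a 2 * p 0 = p 0 * a 2 := by simpa using h 2 0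
      calc a 0 * a 1 * a 2 * p 0 = a 0 * a 1 * (a 2 * p 0) := by group
        _ = a 0 * (a 1 * p 0) * a 2 := by rw [h2]; group
        _ = (a 0 * p 0) * a 1 * a 2 := by rw [h1]; group
        _ = z * (p 0 * (a 0 * a 1 * a 2)) := by rw [h0]; group
    · have h0 : a 0 * p 1 = p 1 * a 0 := by simpa using h 0 1
      have h1 : a 1 * p 1 = z * (p 1 * a 1) := by simpa using h 1 1
      have h2 : a 2 * p 1 = p 1 * a 2 := by simpa using h 2 1
      calc a 0 * a 1 * a 2 * p 1 = a 0 * a 1 * (a 2 * p 1) := by group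
        _ = a 0 * (a 1 * p 1) * a 2 := by rw [h2]; group
        _ = (a 0 * z) * p 1 * a 1 * a 2 := by rw [h1]; group
        _ = (z * (a 0 * p 1)) * a 1 * a 2 := by rw [← hza 0]; group
        _ = z * (p 1 * (a 0 * a 1 * a 2)) := by rw [h0]; group
    · have h0 : a 0 * p 2 = p 2 * a 0 := by simpa using h 0 2
      have h1 : a 1 * p 2 = p 2 * a 1 := by simpa using h 1 2
      have h2 : a 2 * p 2 = z * (p 2 * a 2) := by simpa using h 2 2
      calc a 0 * a 1 * a 2 * p 2 = a 0 * a 1 * (a 2 * p 2) := by group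
        _ = a 0 * (a 1 * z) * p 2 * a 2 := by rw [h2]; group
        _ = (a 0 * z) * (a 1 * p 2) * a 2 := by rw [← hza 1]; group
        _ = z * (a 0 * p 2) * a 1 * a 2 := by rw [← hza 0, h1]; group
        _ = z * (p 2 * (a 0 * a 1 * a 2)) := by rw [h0]; group
  calc a 0 * a 1 * a 2 * (p 2 * p 0 * p 1) = (a 0 * a 1 * a 2 * p 2) * p 0 * p 1 := by group
    _ = z * p 2 * (a 0 * a 1 * a 2 * p 0) * p 1 := by rw [key 2]; group
    _ = z * (p 2 * z) * p 0 * (a 0 * a 1 * a 2 * p 1) := by rw [key 0]; group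
    _ = z * (z * p 2) * (p 0 * z) * p 1 * (a 0 * a 1 * a 2) := by rw [key 1, hzp 2]; group
    _ = z * z * (p 2 * z) * p 0 * p 1 * (a 0 * a 1 * a 2) := by rw [← hzp 0]; group
    _ = (z * z * z) * (p 2 * p 0 * p 1 * (a 0 * a 1 * a 2)) := by rw [← hzp 2]; group
    _ = p 2 * p 0 * p 1 * (a 0 * a 1 * a 2) := by rw [hz, one_mul]

theorem qq_yg_mul3 (L : Type) [Field L] [CharP L 3] (f : Fin 3 → Root cT) (c : Root cT) (ε : ℤ)
    (hb : ∀ i j, bil cT (f i).1 (qq_gP j).1 = if i = j then -1 else 1)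
    (hs : ∀ i, sgn cT (f i).1 (qq_gP i).1 = ε) (hc : ∀ i, c.1 = (f i).1 + (qq_gP i).1)
    (hfc : ∀ i, 0 ≤ bil cT (f i).1 c.1) (hpc : ∀ i, 0 ≤ bil cT (qq_gP i).1 c.1) (s t : L) :
    xg cT (f 0) s * xg cT (f 1) s * xg cT (f 2) s *
        (xg cT (qq_gP 2) t * xg cT (qq_gP 0) t * xg cT (qq_gP 1) t) =
      xg cT (qq_gP 2) t * xg cT (qq_gP 0) t * xg cT (qq_gP 1) t *
        (xg cT (f 0) s * xg cT (f 1) s * xg cT (f 2) s) := by
  refine qq_grp3 (fun i => xg cT (f i) s) (fun j => xg cT (qq_gP j) t)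
    (xg cT c ((ε : L) * (s * t))) ?_ ?_ ?_ ?_
  · intro i j
    by_cases hij : i = j
    · subst hij
      simp only [if_true]
      rw [xg_bracket cT (f i) (qq_gP i) c (hc i), hs i, mul_assoc]
    · simp only [if_neg hij, one_mul]
      exact xg_commute cT _ _ (by rw [hb, if_neg hij]; norm_num) _ _
  · intro i
    exact (xg_commute cT _ _ (hfc i) _ _).symm
  · intro i
    exact (xg_commute cT _ _ (hpc i) _ _).symm
  · rw [← xg_add, ← xg_add]
    have h3 : (3 : L) = 0 := by exact_mod_cast CharP.cast_eq_zero L 3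
    have : (ε : L) * (s * t) + (ε : L) * (s * t) + (ε : L) * (s * t) = 0 := by
      linear_combination ((ε : L) * (s * t)) * h3
    rw [this, xg_zero]

theorem qq_PG_cases (γ : Root cT) (hγ : γ ∈ PG) : γ ∈ orb fG gaab ∨ γ = gl ∨ γ = gh := by
  obtain ⟨γ', ⟨h1, h2⟩, -⟩ := G3_reps.2 γ hγ
  have h3 : γ ∈ orb fG γ' := by
    rw [orb_eq fG _ _ h2]; exact self_mem_orb fG γ
  simp only [Finset.mem_insert, Finset.mem_singleton] at h1
  rcases h1 with h | h | h
  · left; rw [← h]; exact h3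
  · right; left
    rw [h, orb_fixed fG gl gb_fixed.2.1, Finset.mem_singleton] at h3
    exact h3
  · right; right
    rw [h, orb_fixed fG gh gb_fixed.2.2, Finset.mem_singleton] at h3
    exact h3

theorem qq_QG_cases (δ : Root cT) (hδ : δ ∈ QG) : δ ∈ orb fG ga ∨ δ ∈ orb fG gab := by
  obtain ⟨δ', h1, h2⟩ := G3_Q.2.2.1 δ hδ
  have h3 : δ ∈ orb fG δ' := by
    rw [orb_eq fG _ _ h2]; exact self_mem_orb fG δ
  simp only [Finset.mem_insert, Finset.mem_singleton] at h1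
  rcases h1 with h | h
  · left; rw [← h]; exact h3
  · right; rw [← h]; exact h3

theorem qq_xg3_comm {R : Type*} [CommRing R] (f : Fin 3 → Root cT) (c : Root cT)
    (h : ∀ i, 0 ≤ bil cT (f i).1 c.1) (s t : R) :
    xg cT (f 0) s * xg cT (f 1) s * xg cT (f 2) s * xg cT c t =
      xg cT c t * (xg cT (f 0) s * xg cT (f 1) s * xg cT (f 2) s) := by
  rw [mul_assoc, xg_commute cT _ _ (h 2), ← mul_assoc, mul_assoc (xg cT (f 0) s),
    xg_commute cT _ _ (h 1), ← mul_assoc, xg_commute cT _ _ (h 0)]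
  simp only [mul_assoc]

theorem G3_Qcomm (L : Type) [Field L] [CharP L 3] (δ : Root cT) (hδ : δ ∈ QG) (γ : Root cT)
    (hγ : γ ∈ PG) (s t : L) : yg fG δ s * yg fG γ t = yg fG γ t * yg fG δ s := by
  rcases qq_QG_cases δ hδ with h | h <;> rcases qq_PG_cases γ hγ with h' | h' | h'
  · rw [yg_congr fG _ _ h, yg_congr fG _ _ h', qq_ygA, qq_ygP]
    exact qq_yg_mul3 L qq_gA gl (-1) qq_gA_P qq_gA_s qq_gA_add qq_gA_l qq_gP_l s t
  · rw [yg_congr fG _ _ h, h', yg_fixed fG gl gb_fixed.2.1, qq_ygA]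
    exact qq_xg3_comm qq_gA gl qq_gA_l s t
  · rw [yg_congr fG _ _ h, h', yg_fixed fG gh gb_fixed.2.2, qq_ygA]
    exact qq_xg3_comm qq_gA gh qq_gA_h s t
  · rw [yg_congr fG _ _ h, yg_congr fG _ _ h', qq_ygB, qq_ygP]
    exact qq_yg_mul3 L qq_gB gh 1 qq_gB_P qq_gB_s qq_gB_add qq_gB_h qq_gP_h s t
  · rw [yg_congr fG _ _ h, h', yg_fixed fG gl gb_fixed.2.1, qq_ygB]
    exact qq_xg3_comm qq_gB gl qq_gB_l s t
  · rw [yg_congr fG _ _ h, h', yg_fixed fG gh gb_fixed.2.2, qq_ygB]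
    exact qq_xg3_comm qq_gB gh qq_gB_h s t

theorem qq_xM3_fix {R : Type*} [CommRing R] (f : Fin 3 → Root cT) (c : Root cT)
    (h : ∀ i, 0 ≤ bil cT (f i).1 c.1) (t : R) :
    mat cT (xg cT (f 0) t * xg cT (f 1) t * xg cT (f 2) t) *ᵥ ev cT R c = ev cT R c := by
  rw [mat_mul, mat_mul, mat_xg, mat_xg, mat_xg, ← Matrix.mulVec_mulVec, ← Matrix.mulVec_mulVec,
    xM_ev_fix cT _ _ (h 2), xM_ev_fix cT _ _ (h 1), xM_ev_fix cT _ _ (h 0)]

theorem qq_xM3_P {R : Type*} [CommRing R] (f : Fin 3 → Root cT) (c : Root cT) (ε : ℤ)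
    (hb : ∀ i j, bil cT (f i).1 (qq_gP j).1 = if i = j then -1 else 1)
    (hs : ∀ i, sgn cT (f i).1 (qq_gP i).1 = ε) (hc : ∀ i, c.1 = (f i).1 + (qq_gP i).1)
    (hfc : ∀ i, 0 ≤ bil cT (f i).1 c.1) (t : R) (j : Fin 3) :
    mat cT (xg cT (f 0) t * xg cT (f 1) t * xg cT (f 2) t) *ᵥ ev cT R (qq_gP j) =
      ev cT R (qq_gP j) + ((ε : R) * t) • ev cT R c := by
  have hfix : ∀ i, i ≠ j → xM cT (f i) t *ᵥ ev cT R (qq_gP j) = ev cT R (qq_gP j) := by
    intro i hij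
    exact xM_ev_fix cT _ _ (by rw [hb, if_neg hij]; norm_num) _
  have hadd : xM cT (f j) t *ᵥ ev cT R (qq_gP j) = ev cT R (qq_gP j) + ((ε : R) * t) • ev cT R c := by
    rw [xM_ev_add cT (f j) (qq_gP j) c (hc j), hs j]
  have hcf : ∀ i, xM cT (f i) t *ᵥ ev cT R c = ev cT R c := fun i => xM_ev_fix cT _ _ (hfc i) _
  rw [mat_mul, mat_mul, mat_xg, mat_xg, mat_xg, ← Matrix.mulVec_mulVec, ← Matrix.mulVec_mulVec]
  fin_cases j
  · change xM cT (f 0) t *ᵥ (xM cT (f 1) t *ᵥ (xM cT (f 2) t *ᵥ ev cT R (qq_gP 0))) = _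
    have h1 : xM cT (f 1) t *ᵥ ev cT R (qq_gP 0) = ev cT R (qq_gP 0) := hfix 1 (by decide)
    have h2 : xM cT (f 2) t *ᵥ ev cT R (qq_gP 0) = ev cT R (qq_gP 0) := hfix 2 (by decide)
    rw [h2, h1]
    exact hadd
  · change xM cT (f 0) t *ᵥ (xM cT (f 1) t *ᵥ (xM cT (f 2) t *ᵥ ev cT R (qq_gP 1))) = _
    have h2 : xM cT (f 2) t *ᵥ ev cT R (qq_gP 1) = ev cT R (qq_gP 1) := hfix 2 (by decide)
    have h1 : xM cT (f 1) t *ᵥ ev cT R (qq_gP 1) = ev cT R (qq_gP 1) + ((ε : R) * t) • ev cT R c := hadd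
    have h0 : xM cT (f 0) t *ᵥ ev cT R (qq_gP 1) = ev cT R (qq_gP 1) := hfix 0 (by decide)
    rw [h2, h1, Matrix.mulVec_add, Matrix.mulVec_smul, hcf, h0]
    rfl
  · change xM cT (f 0) t *ᵥ (xM cT (f 1) t *ᵥ (xM cT (f 2) t *ᵥ ev cT R (qq_gP 2))) = _
    have h2 : xM cT (f 2) t *ᵥ ev cT R (qq_gP 2) = ev cT R (qq_gP 2) + ((ε : R) * t) • ev cT R c := hadd
    have h0 : xM cT (f 0) t *ᵥ ev cT R (qq_gP 2) = ev cT R (qq_gP 2) := hfix 0 (by decide)
    have h1 : xM cT (f 1) t *ᵥ ev cT R (qq_gP 2) = ev cT R (qq_gP 2) := hfix 1 (by decide)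
    rw [h2, Matrix.mulVec_add, Matrix.mulVec_smul, hcf, h1, Matrix.mulVec_add, Matrix.mulVec_smul,
      hcf, h0]
    rfl

theorem qq_eo_P (R : Type*) [CommRing R] (γ : Root cT) (hγ : γ ∈ orb fG gaab) :
    eo fG R γ = ev cT R (qq_gP 0) + ev cT R (qq_gP 1) + ev cT R (qq_gP 2) := by
  have e : gaab = qq_gP 2 := rfl
  rw [e, qq_orb3 qq_gP qq_gP_step.1 qq_gP_step.2.1 qq_gP_step.2.2 2 γ] at hγ
  obtain ⟨j, rfl⟩ := hγ
  exact qq_eo3 qq_gP qq_gP_step.1 qq_gP_step.2.1 qq_gP_step.2.2 qq_gP_inj j R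

theorem qq_eo_fix (R : Type*) [CommRing R] (γ : Root cT) (h : sroot fG γ = γ) :
    eo fG R γ = ev cT R γ := by
  rw [eo, orb_fixed fG γ h, Finset.sum_singleton]

theorem qq_Qact_aux (L : Type) [Field L] [CharP L 3] (f : Fin 3 → Root cT) (c : Root cT) (ε : ℤ)
    (hb : ∀ i j, bil cT (f i).1 (qq_gP j).1 = if i = j then -1 else 1)
    (hs : ∀ i, sgn cT (f i).1 (qq_gP i).1 = ε) (hc : ∀ i, c.1 = (f i).1 + (qq_gP i).1)
    (hfc : ∀ i, 0 ≤ bil cT (f i).1 c.1) (hl : ∀ i, 0 ≤ bil cT (f i).1 gl.1)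
    (hh : ∀ i, 0 ≤ bil cT (f i).1 gh.1) (γ : Root cT) (hγ : γ ∈ PG) (t : L) :
    mat cT (xg cT (f 0) t * xg cT (f 1) t * xg cT (f 2) t) *ᵥ eo fG L γ = eo fG L γ := by
  rcases qq_PG_cases γ hγ with h' | h' | h'
  · rw [qq_eo_P L γ h', Matrix.mulVec_add, Matrix.mulVec_add, qq_xM3_P f c ε hb hs hc hfc,
      qq_xM3_P f c ε hb hs hc hfc, qq_xM3_P f c ε hb hs hc hfc]
    have h3 : (3 : L) = 0 := by exact_mod_cast CharP.cast_eq_zero L 3
    have h4 : ((ε : L) * t) • ev cT L c + ((ε : L) * t) • ev cT L c + ((ε : L) * t) • ev cT L c =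
        0 := by
      rw [← add_smul, ← add_smul]
      have : (ε : L) * t + (ε : L) * t + (ε : L) * t = 0 := by
        linear_combination ((ε : L) * t) * h3
      rw [this, zero_smul]
    calc ev cT L (qq_gP 0) + ((ε : L) * t) • ev cT L c + (ev cT L (qq_gP 1) + ((ε : L) * t) • ev cT L c) +
          (ev cT L (qq_gP 2) + ((ε : L) * t) • ev cT L c) =
        ev cT L (qq_gP 0) + ev cT L (qq_gP 1) + ev cT L (qq_gP 2) + (((ε : L) * t) • ev cT L c +
          ((ε : L) * t) • ev cT L c + ((ε : L) * t) • ev cT L c) := by abel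
      _ = _ := by rw [h4, add_zero]
  · rw [h', qq_eo_fix L gl gb_fixed.2.1]
    exact qq_xM3_fix f gl hl t
  · rw [h', qq_eo_fix L gh gb_fixed.2.2]
    exact qq_xM3_fix f gh hh t

theorem G3_Qact (L : Type) [Field L] [CharP L 3] (δ : Root cT) (hδ : δ ∈ QG) (γ : Root cT)
    (hγ : γ ∈ PG) (t : L) : mat cT (yg fG δ t) *ᵥ eo fG L γ = eo fG L γ := by
  rcases qq_QG_cases δ hδ with h | h
  · rw [yg_congr fG _ _ h, qq_ygA]
    exact qq_Qact_aux L qq_gA gl (-1) qq_gA_P qq_gA_s qq_gA_add qq_gA_l qq_gA_l qq_gA_h γ hγ t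
  · rw [yg_congr fG _ _ h, qq_ygB]
    exact qq_Qact_aux L qq_gB gh 1 qq_gB_P qq_gB_s qq_gB_add qq_gB_h qq_gB_l qq_gB_h γ hγ t

theorem G3_Qtor_mul (L : Type) [Field L] (t : G cT L) (χ : Root cT → L)
    (hm : Mono cT t (AddEquiv.refl _) χ) (α β γ : Root cT) (h : γ.1 = α.1 + β.1) :
    χ γ = χ α * χ β := by
  have h1 : ((sgn cT α.1 β.1 : ℤ) : L) * χ γ = ((sgn cT α.1 β.1 : ℤ) : L) * (χ α * χ β) :=
    hm.hmul α β γ h
  have h2 : ((sgn cT α.1 β.1 : ℤ) : L) * ((sgn cT α.1 β.1 : ℤ) : L) = 1 := by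
    rw [← Int.cast_mul, sgn_mul_self, Int.cast_one]
  calc χ γ = (((sgn cT α.1 β.1 : ℤ) : L) * ((sgn cT α.1 β.1 : ℤ) : L)) * χ γ := by rw [h2, one_mul]
    _ = ((sgn cT α.1 β.1 : ℤ) : L) * (((sgn cT α.1 β.1 : ℤ) : L) * χ γ) := by ring
    _ = ((sgn cT α.1 β.1 : ℤ) : L) * (((sgn cT α.1 β.1 : ℤ) : L) * (χ α * χ β)) := by rw [h1]
    _ = (((sgn cT α.1 β.1 : ℤ) : L) * ((sgn cT α.1 β.1 : ℤ) : L)) * (χ α * χ β) := by ring
    _ = χ α * χ β := by rw [h2, one_mul]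

theorem G3_Qtor (L : Type) [Field L] [CharP L 3] (t : G cT L) (χ : Root cT → L)
    (ht : t ∈ FG fG L) (hm : Mono cT t (AddEquiv.refl _) χ) (h1 : ∀ γ ∈ PG, χ γ = 1)
    (δ : Root cT) (hδ : δ ∈ QG) : χ δ = 1 := by
  have hfix : ∀ β : Root cT, χ (sroot fG β) = χ β := fun β =>
    mono_fix fG t (FG_fix fG t ht) (AddEquiv.refl _) (fun _ => rfl) χ hm β
  have hmul := G3_Qtor_mul L t χ hm
  have mgl : gl ∈ PG := Finset.mem_filter.2 ⟨Finset.mem_univ _, by simp [gl, LPG]⟩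
  have mgh : gh ∈ PG := Finset.mem_filter.2 ⟨Finset.mem_univ _, by simp [gh, LPG]⟩
  have mgaab : gaab ∈ PG := Finset.mem_filter.2 ⟨Finset.mem_univ _, by simp [gaab, LPG]⟩
  have cl := h1 gl mgl
  have chh := h1 gh mgh
  have caab := h1 gaab mgaab
  have e1 : gh.1 = gl.1 + gb.1 := by
    show (![2, 1, 1, 1] : Fin 4 → ℤ) = ![1, 1, 1, 1] + ![1, 0, 0, 0]
    decide
  have a2 : (sroot fG ga).1 = ![0, 0, 1, 0] := by
    show pv sG ![0, 1, 0, 0] = ![0, 0, 1, 0]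
    decide
  have a3 : (sroot fG (sroot fG ga)).1 = ![0, 0, 0, 1] := by
    show pv sG (sroot fG ga).1 = ![0, 0, 0, 1]
    rw [a2]
    decide
  have e2 : gab.1 = gb.1 + ga.1 := by
    show (![1, 1, 0, 0] : Fin 4 → ℤ) = ![1, 0, 0, 0] + ![0, 1, 0, 0]
    decide
  have e3 : gaab.1 = gab.1 + (sroot fG ga).1 := by
    rw [a2]
    show (![1, 1, 1, 0] : Fin 4 → ℤ) = ![1, 1, 0, 0] + ![0, 0, 1, 0]
    decide
  have e4 : gl.1 = gaab.1 + (sroot fG (sroot fG ga)).1 := by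
    rw [a3]
    show (![1, 1, 1, 1] : Fin 4 → ℤ) = ![1, 1, 1, 0] + ![0, 0, 0, 1]
    decide
  have f1 := hmul gl gb gh e1
  have f2 := hmul gb ga gab e2
  have f3 := hmul gab (sroot fG ga) gaab e3
  have f4 := hmul gaab (sroot fG (sroot fG ga)) gl e4
  rw [hfix, hfix] at f4
  rw [hfix] at f3
  rw [cl, chh, one_mul] at f1
  rw [cl, caab, one_mul] at f4
  rw [← f1, ← f4, one_mul] at f2
  obtain ⟨-, -, hrep, -⟩ := G3_Q
  obtain ⟨δ', hδ', horb⟩ := hrep δ hδ
  have hconst : χ δ' = χ δ :=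
    orb_induction fG (p := fun γ => χ γ = χ δ) δ rfl (fun γ hγ => (hfix γ).trans hγ) δ' horb
  rw [← hconst]
  rw [Finset.mem_insert, Finset.mem_singleton] at hδ'
  rcases hδ' with rfl | rfl
  · exact f4.symm
  · exact f2

theorem ga_ne_gab : ga ≠ gab := by
  intro h
  have h1 : ga.1 0 = gab.1 0 := by rw [h]
  simp [ga, gab] at h1

theorem ccG_ab : ccG ga gab = 1 := by
  unfold ccG
  rw [if_pos ⟨rfl, rfl⟩]

theorem ccG_ba : ccG gab ga = -1 := by
  unfold ccG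
  rw [if_neg (fun h => ga_ne_gab h.1.symm), if_pos ⟨rfl, rfl⟩]

theorem ccG_aa : ccG ga ga = 0 := by
  unfold ccG
  rw [if_neg (fun h => ga_ne_gab h.2), if_neg (fun h => ga_ne_gab h.1)]

theorem ccG_bb : ccG gab gab = 0 := by
  unfold ccG
  rw [if_neg (fun h => ga_ne_gab h.1.symm), if_neg (fun h => ga_ne_gab h.2.symm)]

theorem stG_a : stG ga = gab := by
  unfold stG
  rw [if_pos rfl]

theorem stG_b : stG gab = ga := by
  unfold stG
  rw [if_neg (fun h => ga_ne_gab h.symm), if_pos rfl]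

theorem G3_data : HData fG 3 PG {gaab, gl, gh} {gaab, gh} QG {ga, gab} gaab ccG stG := by
  refine
    { hP := PG_PSet
      hP₀ := G3_reps
      hΓ := ?_
      hε := ?_
      conn := G3_conn
      Qpos := G3_Q.1
      Qstab := G3_Q.2.1
      good := G3_good
      Qreps := G3_Q.2.2.1
      Q₀Q := G3_Q.2.2.2
      Qcomm := ?_
      Qact := ?_
      Qtor := ?_
      heis := ?_
      starQ := ?_
      starU := ?_ }
  · intro x hx
    simp only [Finset.mem_insert, Finset.mem_singleton] at hx ⊢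
    rcases hx with hx | hx
    · exact Or.inl hx
    · exact Or.inr (Or.inr hx)
  · simp
  · intro L _ _ δ hδ γ hγ s t
    exact G3_Qcomm L δ hδ γ hγ s t
  · intro L _ _ δ hδ γ hγ t
    exact G3_Qact L δ hδ γ hγ t
  · intro L _ _ t χ ht hm h1 δ hδ
    exact G3_Qtor L t χ ht hm h1 δ hδ
  · intro L _ _ δ hδ δ' hδ' s t
    simp only [Finset.mem_insert, Finset.mem_singleton] at hδ hδ'
    rcases hδ with rfl | rfl <;> rcases hδ' with rfl | rfl
    · rw [ccG_aa, Int.cast_zero, zero_mul, yg_zero, one_mul, ← yg_add, ← yg_add, add_comm]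
    · rw [ccG_ab, Int.cast_one, one_mul]
      exact G_comm2 s t
    · rw [ccG_ba, Int.cast_neg, Int.cast_one, neg_one_mul, G_comm2 t s, ← mul_assoc, ← yg_add]
      have h0 : -(s * t) + t * s = 0 := by ring
      rw [h0, yg_zero, one_mul]
    · rw [ccG_bb, Int.cast_zero, zero_mul, yg_zero, one_mul, ← yg_add, ← yg_add, add_comm]
  · intro δ hδ
    simp only [Finset.mem_insert, Finset.mem_singleton] at hδ
    rcases hδ with rfl | rfl
    · rw [stG_a, stG_b, ccG_ab]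
      refine ⟨by simp, rfl, by norm_num⟩
    · rw [stG_b, stG_a, ccG_ba]
      refine ⟨by simp, rfl, by norm_num⟩
  · intro δ hδ δ' hδ' h
    simp only [Finset.mem_insert, Finset.mem_singleton] at hδ hδ'
    rcases hδ with rfl | rfl <;> rcases hδ' with rfl | rfl
    · exact absurd (by rw [ccG_aa]; exact dvd_zero _) h
    · exact stG_a.symm
    · exact stG_b.symm
    · exact absurd (by rw [ccG_bb]; exact dvd_zero _) h

theorem exists_A_eigenvector2 {E V G : Type*} [Field E] [IsAlgClosed E] [AddCommGroup V]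
    [Module E V] [FiniteDimensional E V] [Group G] (ρ : Representation E G V) (A : Subgroup G)
    (hcomm : ∀ a ∈ A, ∀ b ∈ A, a * b = b * a) (p : ℕ) (hp : (p : E) ≠ 0)
    (hexp : ∀ a ∈ A, a ^ p = 1) (z z' : G) (hz : z ∈ A) (hz' : z' ∈ A)
    (hne : (ρ z - 1) * (ρ z' - 1) ≠ 0) :
    ∃ w : V, w ≠ 0 ∧ ∃ lam : A →* Eˣ, (∀ y : A, ρ y w = (lam y : E) • w) ∧
      lam ⟨z, hz⟩ ≠ 1 ∧ lam ⟨z', hz'⟩ ≠ 1 := by
  classical
  set W : Submodule E V := LinearMap.range (ρ z' - 1 : V →ₗ[E] V) with hW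
  have hinv : ∀ a : A, ∀ v ∈ W, ρ (a : G) v ∈ W := by
    rintro a v ⟨u, rfl⟩
    refine ⟨ρ (a : G) u, ?_⟩
    have h1 : ρ z' (ρ (a : G) u) = ρ (a : G) (ρ z' u) := by
      rw [← Module.End.mul_apply, ← Module.End.mul_apply, ← map_mul, ← map_mul,
        hcomm z' hz' a a.2]
    simp only [LinearMap.sub_apply, Module.End.one_apply, map_sub]
    rw [h1]
  let ρ' : Representation E A W :=
    { toFun := fun a => (ρ (a : G)).restrict (hinv a)
      map_one' := by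
        ext v
        simp [LinearMap.restrict_apply]
      map_mul' := by
        intro a b
        ext v
        simp [LinearMap.restrict_apply] }
  have hρ' : ∀ (a : A) (w : W), ((ρ' a w : W) : V) = ρ (a : G) (w : V) := fun a w => rfl
  have hz1 : ρ' ⟨z, hz⟩ ≠ 1 := by
    intro h
    apply hne
    ext v
    have h1 := congrArg (fun f : W →ₗ[E] W => ((f ⟨(ρ z' - 1 : V →ₗ[E] V) v, ⟨v, rfl⟩⟩ : W) : V)) h
    simp only [Module.End.mul_apply, LinearMap.sub_apply, Module.End.one_apply,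
      LinearMap.zero_apply]
    have h2 : ρ z ((ρ z' - 1 : V →ₗ[E] V) v) = (ρ z' - 1 : V →ₗ[E] V) v := h1
    simp only [LinearMap.sub_apply, Module.End.one_apply] at h2
    rw [h2, sub_self]
  obtain ⟨w, hw0, lam, hlam, hlz⟩ := exists_A_eigenvector (G := A) ρ' ⊤
    (fun a _ b _ => Subtype.ext (hcomm a a.2 b b.2)) p hp
    (fun a _ => Subtype.ext (by
      rw [SubmonoidClass.coe_pow]
      exact hexp a a.2)) ⟨z, hz⟩ (Subgroup.mem_top _) hz1
  refine ⟨(w : V), fun h => hw0 (Subtype.ext h),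
    lam.comp (Subgroup.topEquiv (G := A)).symm.toMonoidHom, ?_, ?_, ?_⟩
  · intro y
    have h1 := hlam ⟨y, Subgroup.mem_top _⟩
    have h2 := congrArg (fun f : W => (f : V)) h1
    exact h2
  · exact hlz
  · intro h
    have h1 := hlam ⟨⟨z', hz'⟩, Subgroup.mem_top _⟩
    have h1' : lam ⟨⟨z', hz'⟩, Subgroup.mem_top _⟩ = 1 := h
    rw [h1', Units.val_one, one_smul] at h1
    have h2 : ρ z' (w : V) = (w : V) := congrArg (fun f : W => (f : V)) h1
    obtain ⟨u, hu⟩ := w.2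
    have h3 : ∀ k : ℕ, ρ (z' ^ k) u = u + (k : E) • (w : V) := by
      intro k
      induction k with
      | zero => simp
      | succ k ih =>
        rw [pow_succ', map_mul, Module.End.mul_apply, ih, map_add, map_smul, h2]
        have h4 : ρ z' u = u + (w : V) := by
          rw [← hu]; simp
        rw [h4]
        push_cast
        rw [add_smul, one_smul]
        abel
    have h5 := h3 p
    rw [hexp z' hz', map_one, Module.End.one_apply] at h5
    have h6 : (p : E) • (w : V) = 0 := by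
      have := h5.symm
      rwa [add_eq_left] at this
    rcases smul_eq_zero.1 h6 with h7 | h7
    · exact hp h7
    · exact hw0 (Subtype.ext h7)

/-- a root element as an element of the folded group -/
noncomputable def yF {l : ℕ} {D : SLCartan l} (S : Folding D) {R : Type*} [CommRing R]
    (β : Root D) (t : R) : FG S R := ⟨yg S β t, yg_mem_FG S β t⟩

/-- the annihilation relation between two root subgroups is invariant under the Weyl group -/
theorem ann_conj {l : ℕ} {D : SLCartan l} (S : Folding D) {L E V : Type*} [Field L] [Field E]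
    [AddCommGroup V] [Module E V] (ρ : Representation E (FG S L) V) (β γ β' γ' δ : Root D)
    (hβ : β'.1 = β.1 - ∑ κ ∈ orb S δ, bil D κ.1 β.1 • κ.1)
    (hγ : γ'.1 = γ.1 - ∑ κ ∈ orb S δ, bil D κ.1 γ.1 • κ.1)
    (h : ∀ s t : L, (ρ (yF S β s) - 1) * (ρ (yF S γ t) - 1) = 0) (s t : L) :
    (ρ (yF S β' s) - 1) * (ρ (yF S γ' t) - 1) = 0 := by
  obtain ⟨w, χ, hM, -, hwσ, hw⟩ := nF_mono S (R := L) δ 1
  have hg := FG_fix S (nF S δ (1 : Lˣ)) (nF_mem S δ 1)
  set n : FG S L := ⟨nF S δ (1 : Lˣ), nF_mem S δ 1⟩ with hn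
  have key : ∀ (α α' : Root D), α'.1 = α.1 - ∑ κ ∈ orb S δ, bil D κ.1 α.1 • κ.1 → ∀ u : L,
      ∃ u' : L, yF S α' u = n * yF S α u' * n⁻¹ := by
    intro α α' hα u
    have hc := conj_yg S (nF S δ (1 : Lˣ)) hg w hwσ χ hM α α' (by rw [hα, hw])
    have hne : χ α ≠ 0 := by
      intro h0
      have := hM.hneg α
      rw [h0, zero_mul] at this
      exact zero_ne_one this
    refine ⟨(χ α)⁻¹ * u, ?_⟩
    apply Subtype.ext
    have h1 := hc ((χ α)⁻¹ * u)
    rw [mul_inv_cancel_left₀ hne] at h1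
    exact h1.symm
  obtain ⟨s', hs⟩ := key β β' hβ s
  obtain ⟨t', ht⟩ := key γ γ' hγ t
  have e1 : ρ n * ρ n⁻¹ = 1 := by rw [← map_mul, mul_inv_cancel, map_one]
  have e2 : ρ n⁻¹ * ρ n = 1 := by rw [← map_mul, inv_mul_cancel, map_one]
  have f1 : ρ (yF S β' s) - 1 = ρ n * (ρ (yF S β s') - 1) * ρ n⁻¹ := by
    rw [hs, map_mul, map_mul, mul_sub, sub_mul, mul_one, e1]
  have f2 : ρ (yF S γ' t) - 1 = ρ n * (ρ (yF S γ t') - 1) * ρ n⁻¹ := by
    rw [ht, map_mul, map_mul, mul_sub, sub_mul, mul_one, e1]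
  rw [f1, f2]
  calc ρ n * (ρ (yF S β s') - 1) * ρ n⁻¹ * (ρ n * (ρ (yF S γ t') - 1) * ρ n⁻¹)
      = ρ n * (ρ (yF S β s') - 1) * (ρ n⁻¹ * ρ n) * (ρ (yF S γ t') - 1) * ρ n⁻¹ := by
        simp only [mul_assoc]
    _ = ρ n * ((ρ (yF S β s') - 1) * (ρ (yF S γ t') - 1)) * ρ n⁻¹ := by
        rw [e2]; simp only [mul_assoc, one_mul, mul_one]
    _ = 0 := by rw [h s' t', mul_zero, zero_mul]

def G_ann_r : Root cT := ⟨![1, 0, 0, 1], cT_mk _ (by decide)⟩

theorem G_ann_sum (δ β β' : Root cT)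
    (h : ∀ i : Fin 4, β'.1 i = β.1 i - ∑ v ∈ (Finset.range 3).image (fun k => pv (sG ^ k) δ.1),
      bil cT v β.1 * v i) :
    β'.1 = β.1 - ∑ κ ∈ orb fG δ, bil cT κ.1 β.1 • κ.1 := by
  funext i
  have e : ∑ γ ∈ orb fG δ, bil cT γ.1 β.1 * γ.1 i =
      ∑ v ∈ (Finset.range 3).image (fun k => pv (sG ^ k) δ.1), bil cT v β.1 * v i :=
    sum_orb_vec fG 3 (by norm_num) sG_cube δ (fun v => bil cT v β.1 * v i)
  rw [h i, ← e]
  simp only [Pi.sub_apply, Finset.sum_apply, Pi.smul_apply, smul_eq_mul]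

theorem G_ann {L E V : Type*} [Field L] [Field E]
    [AddCommGroup V] [Module E V] (ρ : Representation E (FG fG L) V)
    (h : ∀ s t : L, (ρ (yF fG gaab s) - 1) * (ρ (yF fG gh t) - 1) = 0) :
    (∀ s t : L, (ρ (yF fG gab s) - 1) * (ρ (yF fG gh t) - 1) = 0) ∧
    (∀ s t : L, (ρ (yF fG ga s) - 1) * (ρ (yF fG gl t) - 1) = 0) := by
  have h1 : ∀ s t : L, (ρ (yF fG G_ann_r s) - 1) * (ρ (yF fG gh t) - 1) = 0 :=
    ann_conj fG ρ gaab gh G_ann_r gh ga (G_ann_sum ga gaab G_ann_r (by decide +kernel))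
      (G_ann_sum ga gh gh (by decide +kernel)) h
  have h2 : ∀ s : L, yF fG G_ann_r s = yF fG gab s := by
    intro s
    apply Subtype.ext
    exact yg_congr fG gab G_ann_r ((mem_orb_vec fG 3 (by norm_num) sG_cube gab G_ann_r).2
      (by decide +kernel)) s
  have h3 : ∀ s t : L, (ρ (yF fG gab s) - 1) * (ρ (yF fG gh t) - 1) = 0 := by
    intro s t
    rw [← h2]
    exact h1 s t
  exact ⟨h3, ann_conj fG ρ gab gh ga gl gb (G_ann_sum gb gab ga (by decide +kernel))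
      (G_ann_sum gb gh gl (by decide +kernel)) h3⟩

theorem start_absurd {L E V G : Type*} [Field L] [Finite L] [CharP L 3] (hL : 3 ^ 4 ≤ Nat.card L)
    [Field E] [AddCommGroup V] [Module E V] [Group G] (ρ : Representation E G V)
    (xb xa xab xaab xl xh : L → G)
    (hb : ∀ s t, xb (s + t) = xb s * xb t) (hb0 : xb 0 = 1)
    (hl : ∀ s t, xl (s + t) = xl s * xl t)
    (hh : ∀ s t, xh (s + t) = xh s * xh t) (hh0 : xh 0 = 1) (hl0 : xl 0 = 1)
    (c1 : ∀ u s, xb u * xa s * xb (-u) =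
      xab (u * s) * xa s * xaab (-(u * s ^ 2)) * xl (-2 * (u * s ^ 3)) * xh (u ^ 2 * s ^ 3))
    (c3 : ∀ s t, xb s * xl t = xh (-(s * t)) * (xl t * xb s))
    (cb : ∀ s t, xb s * xh t = xh t * xb s)
    (r1 : ∀ s t, (ρ (xaab s) - 1) * (ρ (xh t) - 1) = 0)
    (r2 : ∀ s t, (ρ (xab s) - 1) * (ρ (xh t) - 1) = 0)
    (r3 : ∀ s t, (ρ (xa s) - 1) * (ρ (xl t) - 1) = 0)
    (w : V) (m1 m2 : L → E) (hw : w ≠ 0) (h1 : ∀ t, ρ (xl t) w = m1 t • w)
    (h2 : ∀ t, ρ (xh t) w = m2 t • w) (hne : ∃ t, m2 t ≠ 1) : False := by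
  classical
  have h3 : (3 : L) = 0 := by
    have := CharP.cast_eq_zero L 3
    exact_mod_cast this
  -- the fixing lemma
  have fixl : ∀ (X Y : Module.End E V), (X - 1) * (Y - 1) = 0 → ∀ (v : V) (c : E), Y v = c • v →
      c ≠ 1 → X v = v := by
    intro X Y hXY v c hY hc
    have e := LinearMap.congr_fun hXY v
    simp only [Module.End.mul_apply, LinearMap.sub_apply, Module.End.one_apply, LinearMap.zero_apply, hY] at e
    have e2 : c • v - v = (c - 1) • v := by rw [sub_smul, one_smul]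
    rw [e2, map_smul, ← smul_sub] at e
    have := (smul_eq_zero.1 e).resolve_left (sub_ne_zero.2 hc)
    exact sub_eq_zero.1 this
  -- additivity of eigenvalues
  have addc : ∀ (x : L → G), (∀ s t, x (s + t) = x s * x t) → ∀ (v : V), v ≠ 0 → ∀ m : L → E,
      (∀ t, ρ (x t) v = m t • v) → ∀ s t, m (s + t) = m s * m t := by
    intro x hx v hv m hm s t
    have e1 := hm (s + t)
    rw [hx, map_mul, Module.End.mul_apply, hm t, map_smul, hm s, smul_smul] at e1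
    have := smul_left_injective E hv e1
    rw [← this]; ring
  have zeroc : ∀ (x : L → G), x 0 = 1 → ∀ (v : V), v ≠ 0 → ∀ m : L → E,
      (∀ t, ρ (x t) v = m t • v) → m 0 = 1 := by
    intro x hx v hv m hm
    have e1 := hm 0
    rw [hx, map_one, Module.End.one_apply] at e1
    have : (1 : E) • v = m 0 • v := by rw [one_smul]; exact e1
    exact (smul_left_injective E hv this).symm
  -- shifting
  have shift : ∀ (v : V) (n1 n2 : L → E), v ≠ 0 → (∀ t, ρ (xl t) v = n1 t • v) →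
      (∀ t, ρ (xh t) v = n2 t • v) → ∀ u : L, ρ (xb (-u)) v ≠ 0 ∧
      (∀ t, ρ (xl t) (ρ (xb (-u)) v) = (n1 t * n2 (-(u * t))) • ρ (xb (-u)) v) ∧
      (∀ t, ρ (xh t) (ρ (xb (-u)) v) = n2 t • ρ (xb (-u)) v) := by
    intro v n1 n2 hv hn1 hn2 u
    refine ⟨?_, ?_, ?_⟩
    · intro h0
      apply hv
      have : ρ (xb u) (ρ (xb (-u)) v) = v := by
        rw [← Module.End.mul_apply, ← map_mul, ← hb, add_neg_cancel, hb0, map_one, Module.End.one_apply]
      rw [← this, h0, map_zero]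
    · intro t
      have e : xl t * xb (-u) = xb (-u) * (xh (-(u * t)) * xl t) := by
        have e1 := c3 (-u) t
        rw [show -(-u * t) = u * t by ring] at e1
        have e2 : xh (-(u * t)) * (xb (-u) * xl t) = xl t * xb (-u) := by
          rw [e1, ← mul_assoc, ← hh, neg_add_cancel, hh0, one_mul]
        rw [← e2, ← mul_assoc, ← cb, mul_assoc]
      rw [← Module.End.mul_apply, ← map_mul, e, map_mul, Module.End.mul_apply, map_mul,
        Module.End.mul_apply, hn1, map_smul, hn2, smul_smul, map_smul]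
    · intro t
      rw [← Module.End.mul_apply, ← map_mul, ← cb, map_mul, Module.End.mul_apply, hn2, map_smul]
  -- both nontrivial
  obtain ⟨v, n1, n2, hv, hn1, hn2, ⟨t1, ht1⟩, ⟨t2, ht2⟩⟩ : ∃ (v : V) (n1 n2 : L → E), v ≠ 0 ∧
      (∀ t, ρ (xl t) v = n1 t • v) ∧ (∀ t, ρ (xh t) v = n2 t • v) ∧ (∃ t, n1 t ≠ 1) ∧
      ∃ t, n2 t ≠ 1 := by
    by_cases hm1 : ∃ t, m1 t ≠ 1
    · exact ⟨w, m1, m2, hw, h1, h2, hm1, hne⟩
    · push Not at hm1
      obtain ⟨a1, a2, a3⟩ := shift w m1 m2 hw h1 h2 (-1)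
      refine ⟨_, _, _, a1, a2, a3, ?_, hne⟩
      obtain ⟨t, ht⟩ := hne
      refine ⟨t, ?_⟩
      rw [hm1, one_mul]
      rwa [show -(-1 * t) = t by ring]
  have add1 := addc xl hl v hv n1 hn1
  have add2 := addc xh hh v hv n2 hn2
  have z1 := zeroc xl hl0 v hv n1 hn1
  have z2 := zeroc xh hh0 v hv n2 hn2
  have fa : ∀ s, ρ (xaab s) v = v := fun s => fixl _ _ (r1 s t2) v _ (hn2 t2) ht2
  have fb : ∀ s, ρ (xab s) v = v := fun s => fixl _ _ (r2 s t2) v _ (hn2 t2) ht2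
  have fc : ∀ s, ρ (xa s) v = v := fun s => fixl _ _ (r3 s t1) v _ (hn1 t1) ht1
  have key : ∀ u : L, (∃ t, n1 t * n2 (-(u * t)) ≠ 1) → ∀ s : L,
      n1 (-2 * (u * s ^ 3)) * n2 (u ^ 2 * s ^ 3) = 1 := by
    rintro u ⟨t, ht⟩ s
    obtain ⟨a1, a2, a3⟩ := shift v n1 n2 hv hn1 hn2 u
    have f1 : ρ (xa s) (ρ (xb (-u)) v) = ρ (xb (-u)) v := fixl _ _ (r3 s t) _ _ (a2 t) ht
    have f2 : ρ (xb u * xa s * xb (-u)) v = v := by
      rw [map_mul, map_mul, Module.End.mul_apply, Module.End.mul_apply, f1, ← Module.End.mul_apply,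
        ← map_mul, ← hb, add_neg_cancel, hb0, map_one, Module.End.one_apply]
    rw [c1] at f2
    rw [map_mul, map_mul, map_mul, map_mul, Module.End.mul_apply, Module.End.mul_apply,
      Module.End.mul_apply, Module.End.mul_apply, hn2, map_smul, hn1, smul_smul, map_smul, fa,
      map_smul, fc, map_smul, fb] at f2
    have : (n2 (u ^ 2 * s ^ 3) * n1 (-2 * (u * s ^ 3))) • v = (1 : E) • v := by
      rw [one_smul]; exact f2
    have := smul_left_injective E hv this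
    rw [mul_comm]; exact this
  have cube : ∀ r : L, ∃ s : L, s ^ 3 = r := by
    haveI : Fact (Nat.Prime 3) := ⟨Nat.prime_three⟩
    intro r
    have hinj : Function.Injective (frobenius L 3) := frobenius_inj L 3
    obtain ⟨s, hs⟩ := (Finite.injective_iff_surjective.1 hinj) r
    exact ⟨s, by rw [← hs, frobenius_def]⟩
  have key2 : ∀ u : L, (∃ t, n1 t * n2 (-(u * t)) ≠ 1) → ∀ r : L, n1 (u * r) * n2 (u ^ 2 * r) = 1 := by
    intro u hu r
    obtain ⟨s, hs⟩ := cube r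
    have := key u hu s
    rw [hs] at this
    have e : -2 * (u * r) = u * r := by linear_combination (-(u * r)) * h3
    rwa [e] at this
  have bad : ∀ u u' : L, (∀ t, n1 t * n2 (-(u * t)) = 1) → (∀ t, n1 t * n2 (-(u' * t)) = 1) →
      u = u' := by
    intro u u' hu hu'
    by_contra hne'
    have hd : u' - u ≠ 0 := sub_ne_zero.2 (Ne.symm hne')
    apply ht2
    set t := t2 / (u' - u) with ht
    have e1 := hu t
    have e2 := hu' t
    have hn10 : n1 t ≠ 0 := by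
      intro h0; rw [h0, zero_mul] at e1; exact zero_ne_one e1
    have e3 : n2 (-(u * t)) = n2 (-(u' * t)) := mul_left_cancel₀ hn10 (e1.trans e2.symm)
    have e4 : t2 = -(u * t) + u' * t := by
      rw [ht]; field_simp; ring
    rw [e4, add2, e3, ← add2, neg_add_cancel, z2]
  obtain ⟨a, ha⟩ : ∃ a : L, a ∉ ({0, 1, -1} : Finset L) := by
    by_contra hcon
    push Not at hcon
    haveI := Fintype.ofFinite L
    have hc : Fintype.card L ≤ 3 := by
      rw [← Finset.card_univ]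
      refine (Finset.card_le_card (fun x _ => hcon x)).trans Finset.card_le_three
    rw [Nat.card_eq_fintype_card] at hL
    omega
  simp only [Finset.mem_insert, Finset.mem_singleton, not_or] at ha
  obtain ⟨ha0, ha1, ha2⟩ := ha
  obtain ⟨u, hu0, hu1, hu2⟩ : ∃ u : L, u ≠ 0 ∧ (∃ t, n1 t * n2 (-(u * t)) ≠ 1) ∧
      (∃ t, n1 t * n2 (-(-u * t)) ≠ 1) := by
    by_contra hcon
    push Not at hcon
    have b1 : ∃ e : L, (e = 1 ∨ e = -1) ∧ ∀ t, n1 t * n2 (-(e * t)) = 1 := by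
      by_cases hg : ∃ t, n1 t * n2 (-((1 : L) * t)) ≠ 1
      · exact ⟨-1, Or.inr rfl, hcon 1 one_ne_zero hg⟩
      · push Not at hg
        exact ⟨1, Or.inl rfl, hg⟩
    have b2 : ∃ e : L, (e = a ∨ e = -a) ∧ ∀ t, n1 t * n2 (-(e * t)) = 1 := by
      by_cases hg : ∃ t, n1 t * n2 (-(a * t)) ≠ 1
      · exact ⟨-a, Or.inr rfl, hcon a ha0 hg⟩
      · push Not at hg
        exact ⟨a, Or.inl rfl, hg⟩
    obtain ⟨e, he, he'⟩ := b1
    obtain ⟨f, hf, hf'⟩ := b2
    have hef := bad e f he' hf'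
    rcases he with rfl | rfl <;> rcases hf with hf | hf
    · exact ha1 (by rw [← hf, hef])
    · exact ha2 (by rw [hf] at hef; rw [hef, neg_neg])
    · exact ha2 (by rw [← hf, hef])
    · exact ha1 (by rw [hf] at hef; exact (neg_injective hef).symm)
  have k1 := key2 u hu1
  have k2 := key2 (-u) hu2
  apply ht2
  -- n2 (2 u^2 r) = 1
  have k3 : ∀ r, n2 (u ^ 2 * r) * n2 (u ^ 2 * r) = 1 := by
    intro r
    have e1 := k1 r
    have e2 := k2 r
    rw [neg_sq] at e2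
    have e3 : n1 (u * r) * n1 (-u * r) = 1 := by
      rw [← add1, show u * r + -u * r = 0 by ring, z1]
    calc n2 (u ^ 2 * r) * n2 (u ^ 2 * r)
        = (n1 (u * r) * n1 (-u * r)) * (n2 (u ^ 2 * r) * n2 (u ^ 2 * r)) := by rw [e3, one_mul]
      _ = (n1 (u * r) * n2 (u ^ 2 * r)) * (n1 (-u * r) * n2 (u ^ 2 * r)) := by ring
      _ = 1 := by rw [e1, e2, one_mul]
  have h2ne : (2 : L) ≠ 0 := by
    intro h20
    have : (1 : L) = 0 := by linear_combination h3 - h20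
    exact one_ne_zero this
  have k4 := k3 (t2 / (2 * u ^ 2))
  rw [← add2] at k4
  have e5 : u ^ 2 * (t2 / (2 * u ^ 2)) + u ^ 2 * (t2 / (2 * u ^ 2)) = t2 := by
    field_simp; ring
  rwa [e5] at k4

theorem G3_hasStart.{u, v} : HasStart.{u, v} fG 3 PG {gaab, gh} := by
  intro L _ _ _ hL E V _ _ _ _ _ ρ hp hρ
  have hgaab : gaab ∈ PG := by
    simp only [PG, Finset.mem_filter, Finset.mem_univ, true_and]
    simp [gaab, LPG]
  have hgh : gh ∈ PG := by
    simp only [PG, Finset.mem_filter, Finset.mem_univ, true_and]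
    simp [gh, LPG]
  have hgl : gl ∈ PG := by
    simp only [PG, Finset.mem_filter, Finset.mem_univ, true_and]
    simp [gl, LPG]
  have hmem : ∀ γ ∈ PG, ∀ t : L, yF fG γ t ∈ AF fG PG L := fun γ hγ t => yg_mem_AF fG PG PG_PSet L γ hγ t
  obtain ⟨hcomm, hexp⟩ := AF_comm fG PG PG_PSet L 3 (by norm_num)
  by_cases hcase : ∃ s t : L, (ρ (yF fG gaab s) - 1) * (ρ (yF fG gh t) - 1) ≠ 0
  · obtain ⟨s, t, hst⟩ := hcase
    obtain ⟨w, hw, lam, hlam, l1, l2⟩ := exists_A_eigenvector2 ρ (AF fG PG L) hcomm 3 hp hexp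
      (yF fG gaab s) (yF fG gh t) (hmem _ hgaab s) (hmem _ hgh t) hst
    refine ⟨w, lam, hw, hlam, ?_⟩
    intro γ₀ hγ₀
    rw [Finset.mem_insert, Finset.mem_singleton] at hγ₀
    rcases hγ₀ with rfl | rfl
    · exact ⟨s, yF fG gaab s, hmem _ hgaab s, rfl, l1⟩
    · exact ⟨t, yF fG gh t, hmem _ hgh t, rfl, l2⟩
  · exfalso
    push Not at hcase
    obtain ⟨r2, r3⟩ := G_ann ρ hcase
    obtain ⟨w, hw, lam, hlam, l1⟩ := exists_A_eigenvector ρ (AF fG PG L) hcomm 3 hp hexp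
      (yF fG gh 1) (hmem _ hgh 1) (hρ gh)
    refine start_absurd hL ρ (yF fG gb) (yF fG ga) (yF fG gab) (yF fG gaab) (yF fG gl) (yF fG gh)
      ?_ ?_ ?_ ?_ ?_ ?_ ?_ ?_ ?_ hcase r2 r3 w (fun t => (lam ⟨yF fG gl t, hmem _ hgl t⟩ : E))
      (fun t => (lam ⟨yF fG gh t, hmem _ hgh t⟩ : E)) hw
      (fun t => hlam ⟨yF fG gl t, hmem _ hgl t⟩) (fun t => hlam ⟨yF fG gh t, hmem _ hgh t⟩)
      ⟨1, fun h => l1 (Units.ext h)⟩
    · intro s t; exact Subtype.ext (yg_add fG gb s t)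
    · exact Subtype.ext (yg_zero fG gb)
    · intro s t; exact Subtype.ext (yg_add fG gl s t)
    · intro s t; exact Subtype.ext (yg_add fG gh s t)
    · exact Subtype.ext (yg_zero fG gh)
    · exact Subtype.ext (yg_zero fG gl)
    · intro u s; exact Subtype.ext (G_comm1 u s)
    · intro s t; exact Subtype.ext (G_comm3 s t)
    · intro s t
      apply Subtype.ext
      show yg fG gb s * yg fG gh t = yg fG gh t * yg fG gb s
      rw [yg_fixed fG gb gb_fixed.1, yg_fixed fG gh gb_fixed.2.2]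
      exact xg_commute cT gb gh (by decide) s t

end Pool.Agent.Helper255.CF
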