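import Pool.Agent.Helper255.CF.TypA

set_option autoImplicit false

namespace Pool.Agent.Helper255.CF

open Matrix

variable {l : ℕ} {D : SLCartan l} (S : Folding D)

/-! type `A_{2k+1}` and its folding `C_{k+1}` -/

/-- the coordinates of `∑ x_i α_i` in the orthonormal basis `ε_0, ..., ε_{2k+1}`, where
`α_i = ε_i - ε_{i+1}` -/
def aY (k : ℕ) (x : Fin (2 * k + 1) → ℤ) (i : Fin (2 * k + 2)) : ℤ :=
  (if h : (i : ℕ) < 2 * k + 1 then x ⟨i, h⟩ else 0) -
    (if h : 0 < (i : ℕ) then x ⟨(i : ℕ) - 1, by omega⟩ else 0)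

/-- extension by zero -/
def AM_bil_X (k : ℕ) (x : Fin (2 * k + 1) → ℤ) (n : ℕ) : ℤ :=
  if h : n < 2 * k + 1 then x ⟨n, h⟩ else 0

/-- differences -/
def AM_bil_d (X : ℕ → ℤ) (n : ℕ) : ℤ := X n - (if 0 < n then X (n - 1) else 0)

/-- Cartan matrix entries -/
def AM_bil_s (a b : ℕ) : ℤ := if a = b then 2 else if b = a + 1 ∨ a = b + 1 then -1 else 0

theorem AM_bil_row (X : ℕ → ℤ) (M : ℕ) :
    (∑ b ∈ Finset.range (M + 1), AM_bil_s (M + 1) b * X b) = - X M := by
  rw [Finset.sum_range_succ, Finset.sum_eq_zero]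
  · simp [AM_bil_s]
  · intro b hb
    rw [Finset.mem_range] at hb
    have h1 : AM_bil_s (M + 1) b = 0 := by
      unfold AM_bil_s
      rw [if_neg (by omega), if_neg (by omega)]
    rw [h1, zero_mul]

theorem AM_bil_symm (a b : ℕ) : AM_bil_s a b = AM_bil_s b a := by
  unfold AM_bil_s
  split_ifs <;> first | rfl | omega

theorem AM_bil_Q (X Z : ℕ → ℤ) (M : ℕ) :
    (∑ a ∈ Finset.range (M + 1), ∑ b ∈ Finset.range (M + 1), AM_bil_s a b * (X a * Z b)) =
      (∑ n ∈ Finset.range (M + 1), AM_bil_d X n * AM_bil_d Z n) + X M * Z M := by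
  induction M with
  | zero => simp [AM_bil_s, AM_bil_d]; ring
  | succ M ih =>
    rw [Finset.sum_range_succ _ (M + 1)]
    have h1 : (∑ a ∈ Finset.range (M + 1), ∑ b ∈ Finset.range (M + 1 + 1), AM_bil_s a b * (X a * Z b)) =
        (∑ a ∈ Finset.range (M + 1), ∑ b ∈ Finset.range (M + 1), AM_bil_s a b * (X a * Z b)) +
          Z (M + 1) * ∑ a ∈ Finset.range (M + 1), AM_bil_s (M + 1) a * X a := by
      rw [Finset.mul_sum, ← Finset.sum_add_distrib]
      refine Finset.sum_congr rfl (fun a _ => ?_)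
      rw [Finset.sum_range_succ _ (M + 1), AM_bil_symm a (M + 1)]
      ring
    have h2 : (∑ b ∈ Finset.range (M + 1 + 1), AM_bil_s (M + 1) b * (X (M + 1) * Z b)) =
        X (M + 1) * (∑ b ∈ Finset.range (M + 1), AM_bil_s (M + 1) b * Z b) + 2 * (X (M + 1) * Z (M + 1)) := by
      rw [Finset.sum_range_succ _ (M + 1), Finset.mul_sum]
      congr 1
      · refine Finset.sum_congr rfl (fun b _ => ?_)
        ring
      · simp [AM_bil_s]
    rw [h1, h2, ih, AM_bil_row, AM_bil_row, Finset.sum_range_succ _ (M + 1)]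
    simp only [AM_bil_d, Nat.succ_pos, if_true, Nat.add_sub_cancel]
    ring

theorem AM_bil_aY (k : ℕ) (x : Fin (2 * k + 1) → ℤ) (i : Fin (2 * k + 2)) :
    aY k x i = AM_bil_d (AM_bil_X k x) i := by
  unfold aY AM_bil_d AM_bil_X
  congr 1
  by_cases h : 0 < (i : ℕ)
  · rw [dif_pos h, if_pos h, dif_pos (by omega)]
  · rw [dif_neg h, if_neg h]

theorem AM_bil_M (k : ℕ) (i j : Fin (2 * k + 1)) :
    AM k i j + AM k j i = AM_bil_s i j := by
  unfold AM AM_bil_s
  simp only [Matrix.of_apply]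
  by_cases h : i = j
  · subst h; simp
  · have h' : (i : ℕ) ≠ j := fun hh => h (Fin.ext hh)
    rw [if_neg h, if_neg (Ne.symm h), if_neg h']
    split_ifs <;> first | rfl | omega

theorem AM_bil (k : ℕ) (x z : Fin (2 * k + 1) → ℤ) :
    x ⬝ᵥ (AM k *ᵥ z) + z ⬝ᵥ (AM k *ᵥ x) = ∑ i, aY k x i * aY k z i := by
  have h1 : x ⬝ᵥ (AM k *ᵥ z) + z ⬝ᵥ (AM k *ᵥ x) =
      ∑ i : Fin (2 * k + 1), ∑ j : Fin (2 * k + 1), AM_bil_s i j * (AM_bil_X k x i * AM_bil_X k z j) := by
    have hX : ∀ (y : Fin (2 * k + 1) → ℤ) (i : Fin (2 * k + 1)), AM_bil_X k y i = y i := by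
      intro y i
      unfold AM_bil_X
      rw [dif_pos i.2]
    simp only [dotProduct, mulVec, Finset.mul_sum, hX]
    rw [Finset.sum_comm (f := fun i j => z i * (AM k i j * x j)), ← Finset.sum_add_distrib]
    refine Finset.sum_congr rfl (fun i _ => ?_)
    rw [← Finset.sum_add_distrib]
    refine Finset.sum_congr rfl (fun j _ => ?_)
    rw [← AM_bil_M]
    ring
  rw [h1]
  have h2 : (∑ i : Fin (2 * k + 1), ∑ j : Fin (2 * k + 1), AM_bil_s i j * (AM_bil_X k x i * AM_bil_X k z j)) =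
      ∑ a ∈ Finset.range (2 * k + 1), ∑ b ∈ Finset.range (2 * k + 1), AM_bil_s a b * (AM_bil_X k x a * AM_bil_X k z b) := by
    rw [Finset.sum_range]
    refine Finset.sum_congr rfl (fun i _ => ?_)
    rw [Finset.sum_range]
  rw [h2, AM_bil_Q]
  simp only [AM_bil_aY]
  rw [← Finset.sum_range (fun n => AM_bil_d (AM_bil_X k x) n * AM_bil_d (AM_bil_X k z) n),
    Finset.sum_range_succ _ (2 * k + 1)]
  congr 1
  have h3 : ∀ y : Fin (2 * k + 1) → ℤ, AM_bil_X k y (2 * k + 1) = 0 := by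
    intro y
    unfold AM_bil_X
    rw [dif_neg (by omega)]
  simp only [AM_bil_d, h3, Nat.succ_pos, if_true, Nat.add_sub_cancel]
  ring

theorem aY_sum_aux (X : ℕ → ℤ) (M : ℕ) : (∑ n ∈ Finset.range (M + 1), AM_bil_d X n) = X M := by
  induction M with
  | zero => simp [AM_bil_d]
  | succ M ih =>
    rw [Finset.sum_range_succ, ih]
    simp only [AM_bil_d, Nat.succ_pos, if_true, Nat.add_sub_cancel]
    ring

theorem aY_sum (k : ℕ) (x : Fin (2 * k + 1) → ℤ) : ∑ i, aY k x i = 0 := by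
  simp only [AM_bil_aY]
  rw [← Finset.sum_range (fun n => AM_bil_d (AM_bil_X k x) n), aY_sum_aux]
  unfold AM_bil_X
  rw [dif_neg (by omega)]

theorem aY_eq_zero (k : ℕ) (x : Fin (2 * k + 1) → ℤ) (h : ∀ i, aY k x i = 0) : x = 0 := by
  have h1 : ∀ n, n < 2 * k + 2 → AM_bil_X k x n = 0 := by
    intro n
    induction n with
    | zero =>
      intro hn
      have h2 := h ⟨0, hn⟩
      rw [AM_bil_aY] at h2
      simpa [AM_bil_d] using h2
    | succ n ih =>
      intro hn
      have h2 := h ⟨n + 1, hn⟩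
      rw [AM_bil_aY] at h2
      simp only [AM_bil_d, Nat.succ_pos, if_true, Nat.add_sub_cancel, ih (by omega), sub_zero] at h2
      exact h2
  funext i
  have h2 := h1 i (by omega)
  unfold AM_bil_X at h2
  rw [dif_pos i.2] at h2
  exact h2

theorem AM_diag (k : ℕ) (i : Fin (2 * k + 1)) : AM k i i = 1 := by
  simp [AM]

theorem AM_off (k : ℕ) (i j : Fin (2 * k + 1)) (h : i ≠ j) : AM k i j + AM k j i ≤ 0 := by
  rw [AM_bil_M]
  unfold AM_bil_s
  have h' : (i : ℕ) ≠ j := fun hh => h (Fin.ext hh)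
  rw [if_neg h']
  split_ifs <;> omega

theorem AM_pos (k : ℕ) (x : Fin (2 * k + 1) → ℤ) (hx : x ≠ 0) : 0 < x ⬝ᵥ (AM k *ᵥ x) := by
  have h := AM_bil k x x
  have h0 : 0 < ∑ i, aY k x i * aY k x i := by
    by_contra hcon
    push Not at hcon
    have h1 : ∑ i, aY k x i * aY k x i = 0 :=
      le_antisymm hcon (Finset.sum_nonneg (fun i _ => mul_self_nonneg _))
    rw [Finset.sum_eq_zero_iff_of_nonneg (fun i _ => mul_self_nonneg _)] at h1
    exact hx (aY_eq_zero k x (fun i => mul_self_eq_zero.1 (h1 i (Finset.mem_univ _))))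
  linarith

theorem AM_conn_adj (k : ℕ) (i j : Fin (2 * k + 1)) (h : (j : ℕ) = i + 1) :
    AM k i j + AM k j i = -1 := by
  have hne : i ≠ j := by
    intro he
    rw [he] at h
    omega
  simp only [AM, Matrix.of_apply]
  rw [if_neg hne, if_neg hne.symm]
  by_cases hk : (j : ℕ) ≤ k
  · rw [if_pos (Or.inl ⟨h, hk⟩), if_neg (by omega)]
    norm_num
  · rw [if_neg (by omega), if_pos (Or.inr ⟨h, by omega⟩)]
    norm_num

theorem AM_conn (k : ℕ) (s : Finset (Fin (2 * k + 1))) (hs : s.Nonempty)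
    (h : ∀ i ∈ s, ∀ j, j ∉ s → AM k i j + AM k j i = 0) : s = Finset.univ := by
  have hadj : ∀ i j : Fin (2 * k + 1), (j : ℕ) = i + 1 → (i ∈ s ↔ j ∈ s) := by
    intro i j hij
    have h1 := AM_conn_adj k i j hij
    constructor
    · intro hi
      by_contra hj
      have := h i hi j hj
      omega
    · intro hj
      by_contra hi
      have := h j hj i hi
      omega
  have hall : ∀ n : ℕ, ∀ hn : n < 2 * k + 1,
      ((⟨n, hn⟩ : Fin (2 * k + 1)) ∈ s ↔ (⟨0, by omega⟩ : Fin (2 * k + 1)) ∈ s) := by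
    intro n
    induction n with
    | zero => intro hn; rfl
    | succ n ih =>
      intro hn
      rw [← ih (by omega)]
      exact (hadj ⟨n, by omega⟩ ⟨n + 1, hn⟩ rfl).symm
  obtain ⟨i, hi⟩ := hs
  have h0 := (hall i.1 i.2).1 hi
  ext j
  simp only [Finset.mem_univ, iff_true]
  exact (hall j.1 j.2).2 h0

/-- type `A_{2k+1}` -/
def cA (k : ℕ) : SLCartan (2 * k + 1) where
  M := AM k
  diag := AM_diag k
  off := AM_off k
  pos := AM_pos k
  conn := AM_conn k

theorem sC_M (k : ℕ) (i j : Fin (2 * k + 1)) :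
    AM k (Fin.revPerm i) (Fin.revPerm j) = AM k i j := by
  have hi := i.2
  have hj := j.2
  simp only [AM, Matrix.of_apply, Fin.revPerm_apply, Fin.rev_inj, Fin.val_rev]
  by_cases he : i = j
  · rw [if_pos he, if_pos he]
  · rw [if_neg he, if_neg he]
    have : (2 * k + 1 - ((j : ℕ) + 1) = 2 * k + 1 - ((i : ℕ) + 1) + 1 ∧
        2 * k + 1 - ((j : ℕ) + 1) ≤ k ∨
        2 * k + 1 - ((i : ℕ) + 1) = 2 * k + 1 - ((j : ℕ) + 1) + 1 ∧
        k ≤ 2 * k + 1 - ((j : ℕ) + 1)) ↔
        ((j : ℕ) = i + 1 ∧ (j : ℕ) ≤ k ∨ (i : ℕ) = j + 1 ∧ k ≤ (j : ℕ)) := by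
      omega
    simp only [this]

theorem sC_no (k : ℕ) (i : Fin (2 * k + 1)) (h : Fin.revPerm i ≠ i) :
    AM k i (Fin.revPerm i) + AM k (Fin.revPerm i) i = 0 := by
  have hi := i.2
  simp only [AM, Matrix.of_apply]
  rw [if_neg h.symm, if_neg h]
  simp only [Fin.revPerm_apply, Fin.val_rev]
  rw [if_neg (by omega), if_neg (by omega)]
  norm_num

/-- the folding of type `C_{k+1}` -/
def fC (k : ℕ) : Folding (cA k) where
  σ := Fin.revPerm
  hM := sC_M k
  orth := orth_of_involution (D := cA k) Fin.revPerm (sC_M k) (fun i => Fin.rev_rev i) (sC_no k)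

theorem aY_add (k : ℕ) (x z : Fin (2 * k + 1) → ℤ) (i : Fin (2 * k + 2)) :
    aY k (x + z) i = aY k x i + aY k z i := by
  simp only [aY, Pi.add_apply]
  split_ifs <;> ring

theorem aY_sub (k : ℕ) (x z : Fin (2 * k + 1) → ℤ) (i : Fin (2 * k + 2)) :
    aY k (x - z) i = aY k x i - aY k z i := by
  simp only [aY, Pi.sub_apply]
  split_ifs <;> ring

theorem aY_pv (k : ℕ) (x : Fin (2 * k + 1) → ℤ) (i : Fin (2 * k + 2)) :
    aY k (pv Fin.revPerm x) i = - aY k x (Fin.rev i) := by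
  have hpv : ∀ j, pv Fin.revPerm x j = x (Fin.rev j) := fun j => rfl
  have hrev : ((Fin.rev i : Fin (2 * k + 2)) : ℕ) = 2 * k + 1 - i := by
    rw [Fin.val_rev]
    omega
  have hi := i.2
  unfold aY
  have e1 : (if h : (i : ℕ) < 2 * k + 1 then pv Fin.revPerm x ⟨i, h⟩ else 0) =
      (if h : 0 < ((Fin.rev i : Fin (2 * k + 2)) : ℕ) then
        x ⟨((Fin.rev i : Fin (2 * k + 2)) : ℕ) - 1, by omega⟩ else 0) := by
    by_cases h : (i : ℕ) < 2 * k + 1
    · rw [dif_pos h, dif_pos (by omega), hpv]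
      congr 1
      apply Fin.ext
      rw [Fin.val_rev]
      simp only
      omega
    · rw [dif_neg h, dif_neg (by omega)]
  have e2 : (if h : 0 < (i : ℕ) then pv Fin.revPerm x ⟨(i : ℕ) - 1, by omega⟩ else 0) =
      (if h : ((Fin.rev i : Fin (2 * k + 2)) : ℕ) < 2 * k + 1 then
        x ⟨((Fin.rev i : Fin (2 * k + 2)) : ℕ), h⟩ else 0) := by
    by_cases h : 0 < (i : ℕ)
    · rw [dif_pos h, dif_pos (by omega), hpv]
      congr 1
      apply Fin.ext
      rw [Fin.val_rev]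
      simp only
      omega
    · rw [dif_neg h, dif_neg (by omega)]
  rw [e1, e2]
  ring

theorem aY_inj (k : ℕ) (x z : Fin (2 * k + 1) → ℤ) (h : ∀ i, aY k x i = aY k z i) : x = z := by
  have h1 : x - z = 0 := by
    apply aY_eq_zero
    intro i
    rw [aY_sub, h i, sub_self]
  exact sub_eq_zero.1 h1

theorem aY_partial_aux (X : ℕ → ℤ) (m : ℕ) :
    ∑ n ∈ Finset.range (m + 1), (X n - (if 0 < n then X (n - 1) else 0)) = X m := by
  induction m with
  | zero => simp
  | succ m ih =>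
    rw [Finset.sum_range_succ, ih, if_pos (Nat.succ_pos m), Nat.add_sub_cancel]
    ring

/-- coefficients are partial sums of the coordinates -/
theorem aY_partial (k : ℕ) (x : Fin (2 * k + 1) → ℤ) (j : Fin (2 * k + 1)) :
    x j = ∑ i : Fin (2 * k + 2), if (i : ℕ) ≤ j then aY k x i else 0 := by
  let X : ℕ → ℤ := fun n => if h : n < 2 * k + 1 then x ⟨n, h⟩ else 0
  have h1 : ∀ i : Fin (2 * k + 2), aY k x i = X i - (if 0 < (i : ℕ) then X ((i : ℕ) - 1) else 0) := by
    intro i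
    have hi := i.2
    unfold aY
    congr 1
    by_cases h : 0 < (i : ℕ)
    · rw [dif_pos h, if_pos h]
      change _ = if h' : (i : ℕ) - 1 < 2 * k + 1 then x ⟨(i : ℕ) - 1, h'⟩ else 0
      rw [dif_pos]
    · rw [dif_neg h, if_neg h]
  have h2 : (∑ i : Fin (2 * k + 2), if (i : ℕ) ≤ j then aY k x i else 0) =
      ∑ i : Fin (2 * k + 2), (fun n : ℕ => if n ≤ j then
        X n - (if 0 < n then X (n - 1) else 0) else 0) (i : ℕ) := by
    refine Finset.sum_congr rfl fun i _ => ?_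
    rw [h1 i]
  rw [h2, Fin.sum_univ_eq_sum_range (fun n : ℕ => if n ≤ j then
        X n - (if 0 < n then X (n - 1) else 0) else 0) (2 * k + 2), ← Finset.sum_filter]
  have h3 : (Finset.range (2 * k + 2)).filter (fun n => n ≤ (j : ℕ)) = Finset.range (j + 1) := by
    ext n
    rw [Finset.mem_filter, Finset.mem_range, Finset.mem_range]
    have := j.2
    omega
  rw [h3, aY_partial_aux]
  change x j = if h : (j : ℕ) < 2 * k + 1 then x ⟨j, h⟩ else 0
  rw [dif_pos j.2]

theorem A_bil (k : ℕ) (x z : Fin (2 * k + 1) → ℤ) :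
    bil (cA k) x z = ∑ i, aY k x i * aY k z i := AM_bil k x z

theorem A_root_form_aux {n : ℕ} (c : Fin n → ℤ) (h0 : ∑ i, c i = 0) (h2 : ∑ i, c i * c i = 2) :
    ∃ a b : Fin n, a ≠ b ∧ ∀ i, c i = (if i = a then 1 else 0) - (if i = b then 1 else 0) := by
  have hne : ∃ x ∈ (Finset.univ : Finset (Fin n)), c x ≠ 0 := by
    by_contra hcon
    push Not at hcon
    rw [Finset.sum_eq_zero (fun i hi => by rw [hcon i hi, mul_zero])] at h2
    norm_num at h2
  obtain ⟨a, -, ha⟩ := Finset.exists_pos_of_sum_zero_of_exists_nonzero c h0 hne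
  have hne' : ∃ x ∈ (Finset.univ : Finset (Fin n)), -c x ≠ 0 := by
    obtain ⟨x, hx, hcx⟩ := hne
    exact ⟨x, hx, neg_ne_zero.2 hcx⟩
  obtain ⟨b, -, hb⟩ := Finset.exists_pos_of_sum_zero_of_exists_nonzero (fun i => -c i)
    (by rw [Finset.sum_neg_distrib, h0, neg_zero]) hne'
  have hab : a ≠ b := by
    rintro rfl
    linarith
  have hnn : ∀ i ∈ (Finset.univ : Finset (Fin n)),
      0 ≤ c i * c i - ((if i = a then 1 else 0) + (if i = b then 1 else 0)) := by
    intro i _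
    by_cases hia : i = a
    · subst hia
      rw [if_pos rfl, if_neg hab]
      nlinarith
    · by_cases hib : i = b
      · subst hib
        rw [if_neg hia, if_pos rfl]
        nlinarith
      · rw [if_neg hia, if_neg hib]
        nlinarith [mul_self_nonneg (c i)]
  have hsum : ∑ i, (c i * c i - ((if i = a then 1 else 0) + (if i = b then 1 else 0))) = 0 := by
    rw [Finset.sum_sub_distrib, h2, Finset.sum_add_distrib]
    simp
  have hall := (Finset.sum_eq_zero_iff_of_nonneg hnn).1 hsum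
  refine ⟨a, b, hab, fun i => ?_⟩
  have hi := hall i (Finset.mem_univ i)
  by_cases hia : i = a
  · subst hia
    rw [if_pos rfl, if_neg hab] at hi ⊢
    nlinarith
  · by_cases hib : i = b
    · subst hib
      rw [if_neg hia, if_pos rfl] at hi ⊢
      nlinarith
    · rw [if_neg hia, if_neg hib] at hi ⊢
      nlinarith [mul_self_eq_zero.1 (show c i * c i = 0 by linarith)]

/-- the roots are `ε_a - ε_b` -/
theorem A_root_form (k : ℕ) (β : Root (cA k)) : ∃ a b : Fin (2 * k + 2), a ≠ b ∧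
    ∀ i, aY k β.1 i = (if i = a then 1 else 0) - (if i = b then 1 else 0) := by
  apply A_root_form_aux
  · exact aY_sum k β.1
  · rw [← A_bil]
    exact β.2

theorem A_root_mk (k : ℕ) (a b : Fin (2 * k + 2)) (hab : a ≠ b) : ∃ β : Root (cA k),
    ∀ i, aY k β.1 i = (if i = a then 1 else 0) - (if i = b then 1 else 0) := by
  let x : Fin (2 * k + 1) → ℤ := fun j =>
    (if (a : ℕ) ≤ (j : ℕ) then 1 else 0) - (if (b : ℕ) ≤ (j : ℕ) then 1 else 0)
  have hx : ∀ i, aY k x i = (if i = a then 1 else 0) - (if i = b then 1 else 0) := by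
    intro i
    have hi := i.2
    have ha := a.2
    have hb := b.2
    have e1 : (i = a) ↔ (i : ℕ) = (a : ℕ) := Fin.ext_iff
    have e2 : (i = b) ↔ (i : ℕ) = (b : ℕ) := Fin.ext_iff
    simp only [aY, x, e1, e2]
    split_ifs <;> omega
  have hn : bil (cA k) x x = 2 := by
    rw [A_bil]
    have h1 : ∀ i ∈ (Finset.univ : Finset (Fin (2 * k + 2))), aY k x i * aY k x i =
        (if i = a then 1 else 0) + (if i = b then 1 else 0) := by
      intro i _
      rw [hx]
      by_cases hia : i = a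
      · subst hia
        rw [if_pos rfl, if_neg hab]
        norm_num
      · by_cases hib : i = b
        · subst hib
          rw [if_neg hia, if_pos rfl]
          norm_num
        · rw [if_neg hia, if_neg hib]
          norm_num
    rw [Finset.sum_congr rfl h1, Finset.sum_add_distrib]
    simp
  exact ⟨⟨x, hn⟩, hx⟩

theorem C_min (k : ℕ) (β : Root (cA k)) : β.1 ⟨k, by omega⟩ ≤ 1 := by
  obtain ⟨a, b, -, h⟩ := A_root_form k β
  calc β.1 ⟨k, by omega⟩ = ∑ i : Fin (2 * k + 2),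
        (if (i : ℕ) ≤ ((⟨k, by omega⟩ : Fin (2 * k + 1)) : ℕ) then aY k β.1 i else 0) :=
        aY_partial k β.1 ⟨k, by omega⟩
    _ ≤ ∑ i : Fin (2 * k + 2), (if i = a then 1 else 0) := by
        apply Finset.sum_le_sum
        intro i _
        rw [h i]
        split_ifs <;> omega
    _ = 1 := by simp

theorem C_good_sum (n : ℕ) (a b : Fin n) (f : Fin n → ℤ) :
    ∑ i, ((if i = a then (1 : ℤ) else 0) - (if i = b then 1 else 0)) * f i = f a - f b := by
  simp [sub_mul, Finset.sum_sub_distrib]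

theorem C_good_coef (k : ℕ) (β : Root (cA k)) (a b : Fin (2 * k + 2))
    (h : ∀ i, aY k β.1 i = (if i = a then 1 else 0) - (if i = b then 1 else 0))
    (j : Fin (2 * k + 1)) :
    β.1 j = (if (a : ℕ) ≤ j then 1 else 0) - (if (b : ℕ) ≤ j then 1 else 0) := by
  rw [aY_partial k β.1 j, ← C_good_sum (2 * k + 2) a b (fun i => if (i : ℕ) ≤ j then 1 else 0)]
  refine Finset.sum_congr rfl fun i _ => ?_
  rw [h i]
  by_cases hij : (i : ℕ) ≤ j
  · rw [if_pos hij, if_pos hij, mul_one]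
  · rw [if_neg hij, if_neg hij, mul_zero]

theorem C_good_gamma (k : ℕ) (c : Fin (2 * k + 2)) (hc : (c : ℕ) ≤ k) : ∃ γ : Root (cA k),
    (∀ i, aY k γ.1 i = (if i = c then 1 else 0) - (if i = Fin.rev c then 1 else 0)) ∧
    γ ∈ PK (cA k) ⟨k, by omega⟩ ∧ orb (fC k) γ = {γ} := by
  have hrev : ((Fin.rev c : Fin (2 * k + 2)) : ℕ) = 2 * k + 1 - c := by
    rw [Fin.val_rev]; omega
  have hne : c ≠ Fin.rev c := by
    intro h
    have h1 := congrArg Fin.val h
    rw [hrev] at h1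
    omega
  obtain ⟨γ, hγ⟩ := A_root_mk k c (Fin.rev c) hne
  refine ⟨γ, hγ, ?_, ?_⟩
  · rw [mem_PK, C_good_coef k γ _ _ hγ, if_pos hc, if_neg (by rw [hrev]; simp only; omega)]
    rfl
  · apply orb_fixed
    apply root_ext
    show pv (fC k).σ γ.1 = γ.1
    apply aY_inj
    intro i
    show aY k (pv Fin.revPerm γ.1) i = _
    rw [aY_pv, hγ, hγ]
    have h1 : (Fin.rev i = c) ↔ (i = Fin.rev c) := Fin.rev_eq_iff
    have h2 : (Fin.rev i = Fin.rev c) ↔ (i = c) := Fin.rev_inj
    simp only [h1, h2]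
    ring

theorem C_good (k : ℕ) (p : ℕ) [Fact p.Prime] (δ : Root (cA k)) (hδ : Pos δ.1)
    (h0 : δ.1 ⟨k, by omega⟩ = 0) : Good (fC k) p (PK (cA k) ⟨k, by omega⟩) δ := by
  obtain ⟨a, b, hab, hf⟩ := A_root_form k δ
  have hlt : (a : ℕ) < b := by
    by_contra hcon
    push Not at hcon
    have hne : (a : ℕ) ≠ b := fun h => hab (Fin.ext h)
    have hba : (b : ℕ) < a := lt_of_le_of_ne hcon (Ne.symm hne)
    have ha := a.2
    have h1 := hδ ⟨b, by omega⟩
    rw [C_good_coef k δ a b hf] at h1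
    rw [if_neg (by simp only; omega), if_pos (by simp only; exact le_rfl)] at h1
    omega
  rw [C_good_coef k δ a b hf] at h0
  have hcases : (b : ℕ) ≤ k ∨ k < (a : ℕ) := by
    by_contra hcon
    push Not at hcon
    rw [if_pos (by simp only; omega), if_neg (by simp only; omega)] at h0
    omega
  have ha2 := a.2
  have hb2 := b.2
  rcases hcases with hb | ha
  · obtain ⟨γ, hγ, hP, horb⟩ := C_good_gamma k b hb
    refine ⟨γ, hP, ?_, Or.inl ?_⟩
    · rw [A_bil]
      simp only [hf]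
      rw [C_good_sum, hγ, hγ]
      have hr : ((Fin.rev b : Fin (2 * k + 2)) : ℕ) = 2 * k + 1 - b := by
        rw [Fin.val_rev]; omega
      rw [if_neg hab, if_neg (fun h => by have := congrArg Fin.val h; omega), if_pos rfl,
        if_neg (fun h => by have := congrArg Fin.val h; omega)]
      norm_num
    · intro γ' hγ' hne
      rw [horb, Finset.mem_singleton] at hγ'
      exact absurd hγ' hne
  · have hr : ((Fin.rev a : Fin (2 * k + 2)) : ℕ) = 2 * k + 1 - a := by
      rw [Fin.val_rev]; omega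
    obtain ⟨γ, hγ, hP, horb⟩ := C_good_gamma k (Fin.rev a) (by omega)
    refine ⟨γ, hP, ?_, Or.inl ?_⟩
    · rw [A_bil]
      simp only [hf]
      rw [C_good_sum, hγ, hγ, Fin.rev_rev]
      rw [if_neg (fun h => by have := congrArg Fin.val h; omega), if_pos rfl,
        if_neg (fun h => by have := congrArg Fin.val h; omega), if_neg (Ne.symm hab)]
      norm_num
    · intro γ' hγ' hne
      rw [horb, Finset.mem_singleton] at hγ'
      exact absurd hγ' hne

/-- the root `ε_a - ε_{2k+1-b}` -/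
def CIsR (k : ℕ) (γ : Root (cA k)) (a b : Fin (2 * k + 2)) : Prop :=
  ∀ i, aY k γ.1 i = (if i = a then 1 else 0) - (if i = Fin.rev b then 1 else 0)

theorem C_coef (k : ℕ) (x : Fin (2 * k + 1) → ℤ) (u v : Fin (2 * k + 2))
    (h : ∀ i, aY k x i = (if i = u then 1 else 0) - (if i = v then 1 else 0)) :
    x ⟨k, by omega⟩ = (if (u : ℕ) ≤ k then 1 else 0) - (if (v : ℕ) ≤ k then 1 else 0) := by
  rw [aY_partial k x ⟨k, by omega⟩]
  have h1 : ∀ i : Fin (2 * k + 2), (if (i : ℕ) ≤ k then aY k x i else 0) =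
      (if i = u then (if (u : ℕ) ≤ k then (1 : ℤ) else 0) else 0) -
        (if i = v then (if (v : ℕ) ≤ k then (1 : ℤ) else 0) else 0) := by
    intro i
    rw [h i]
    by_cases hu : i = u
    · by_cases hv : i = v
      · subst hu
        subst hv
        simp
      · subst hu
        simp [hv]
    · by_cases hv : i = v
      · subst hv
        simp only [hu, if_false, if_true, zero_sub]
        split_ifs <;> simp
      · simp [hu, hv]
  rw [Finset.sum_congr rfl (fun i _ => h1 i), Finset.sum_sub_distrib, Finset.sum_ite_eq',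
    Finset.sum_ite_eq']
  simp

theorem C_rev (k : ℕ) (b : Fin (2 * k + 2)) : ((Fin.rev b : Fin (2 * k + 2)) : ℕ) = 2 * k + 1 - b := by
  rw [Fin.val_rev]
  omega

theorem CIsR_mem (k : ℕ) (γ : Root (cA k)) (a b : Fin (2 * k + 2)) (ha : (a : ℕ) ≤ k)
    (hb : (b : ℕ) ≤ k) (h : CIsR k γ a b) : γ ∈ PK (cA k) ⟨k, by omega⟩ := by
  rw [mem_PK, C_coef k γ.1 a (Fin.rev b) h, if_pos ha, if_neg (by rw [C_rev]; omega)]
  norm_num

theorem CIsR_exists (k : ℕ) (a b : Fin (2 * k + 2)) (ha : (a : ℕ) ≤ k) (hb : (b : ℕ) ≤ k) :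
    ∃ γ : Root (cA k), CIsR k γ a b := by
  apply A_root_mk
  intro h
  have h1 := C_rev k b
  rw [← h] at h1
  omega

theorem CIsR_form (k : ℕ) (γ : Root (cA k)) (hγ : γ ∈ PK (cA k) ⟨k, by omega⟩) :
    ∃ a b : Fin (2 * k + 2), (a : ℕ) ≤ k ∧ (b : ℕ) ≤ k ∧ CIsR k γ a b := by
  obtain ⟨a, b', hne, h⟩ := A_root_form k γ
  rw [mem_PK, C_coef k γ.1 a b' h] at hγ
  refine ⟨a, Fin.rev b', ?_, ?_, ?_⟩
  · by_contra hn
    rw [if_neg hn] at hγ
    split_ifs at hγ <;> omega
  · rw [C_rev]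
    by_contra hn
    have hb' : (b' : ℕ) ≤ k := by omega
    rw [if_pos hb'] at hγ
    split_ifs at hγ <;> omega
  · intro i
    rw [h i, Fin.rev_rev]

theorem CIsR_unique (k : ℕ) (γ γ' : Root (cA k)) (a b : Fin (2 * k + 2)) (h : CIsR k γ a b)
    (h' : CIsR k γ' a b) : γ = γ' := by
  apply root_ext
  apply aY_inj
  intro i
  rw [h i, h' i]

theorem CIsR_sroot (k : ℕ) (γ : Root (cA k)) (a b : Fin (2 * k + 2)) (h : CIsR k γ a b) (i : _) :
    aY k (pv Fin.revPerm γ.1) i = (if i = b then 1 else 0) - (if i = Fin.rev a then 1 else 0) := by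
  rw [aY_pv, h (Fin.rev i)]
  have e1 : (Fin.rev i = a) ↔ (i = Fin.rev a) := by
    constructor
    · intro e; rw [← e, Fin.rev_rev]
    · intro e; rw [e, Fin.rev_rev]
  have e2 : (Fin.rev i = Fin.rev b) ↔ (i = b) := Fin.rev_inj
  simp only [e1, e2]
  ring

theorem CIsR_swap (k : ℕ) (p : ℕ) (γ γ' : Root (cA k)) (a b : Fin (2 * k + 2)) (ha : (a : ℕ) ≤ k)
    (hb : (b : ℕ) ≤ k) (h : CIsR k γ a b) (h' : CIsR k γ' b a) :
    StepRel (fC k) p (PK (cA k) ⟨k, by omega⟩) γ γ' := by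
  refine ⟨CIsR_mem k γ' b a hb ha h', Or.inl ?_⟩
  have h1 : γ' = sroot (fC k) γ := by
    apply root_ext
    apply aY_inj
    intro i
    rw [h' i]
    exact (CIsR_sroot k γ a b h i).symm
  rw [h1]
  exact sroot_mem_orb _ _

theorem CIsR_move (k : ℕ) (p : ℕ) [Fact p.Prime] (γ γ' : Root (cA k)) (a b c : Fin (2 * k + 2))
    (ha : (a : ℕ) ≤ k) (hb : (b : ℕ) ≤ k) (hc : (c : ℕ) ≤ k) (hca : c ≠ a) (hcb : c ≠ b)
    (h : CIsR k γ a b) (h' : CIsR k γ' c b) :
    StepRel (fC k) p (PK (cA k) ⟨k, by omega⟩) γ γ' := by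
  obtain ⟨β, hβ⟩ := A_root_mk k c a hca
  refine StepRel_of_unique (fC k) p _ γ γ' β (CIsR_mem k γ' c b hc hb h') ?_ ?_ ?_
  · apply aY_inj
    intro i
    rw [aY_sub, hβ i, h i, h' i]
    ring
  · refine (PSet_of_minuscule (fC k) ⟨k, by omega⟩ ?_ (C_min k) _ (fun β => mem_PK _ _ β)).2 β ?_
    · change Fin.revPerm _ = _
      apply Fin.ext
      rw [Fin.revPerm_apply, Fin.val_rev]
      simp only
      omega
    · rw [C_coef k β.1 c a hβ, if_pos hc, if_pos ha]
      norm_num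
  · intro β' hβ' γ'' hγ'' heq
    rw [mem_orb_vec (fC k) 2 (by norm_num) (by
      ext i
      simp [fC, pow_two])] at hγ''
    simp only [Finset.mem_image, Finset.mem_range] at hγ''
    obtain ⟨m, hm, hm'⟩ := hγ''
    have hm2 : m = 0 ∨ m = 1 := by omega
    rcases hm2 with rfl | rfl
    · rw [pow_zero, pv_one] at hm'
      exact (root_ext _ hm').symm
    · rw [pow_one] at hm'
      change pv Fin.revPerm γ.1 = γ''.1 at hm'
      by_cases hab : a = b
      · apply root_ext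
        apply aY_inj
        intro i
        rw [← hm', CIsR_sroot k γ a b h i, h i, hab]
      · exfalso
        obtain ⟨x, y, hxy, hf⟩ := A_root_form k β'
        have hval : ∀ i, aY k β'.1 i = ((if i = c then 1 else 0) - (if i = Fin.rev b then 1 else 0))
            - ((if i = b then 1 else 0) - (if i = Fin.rev a then 1 else 0)) := by
          intro i
          have h1 := aY_add k β'.1 γ''.1 i
          rw [← heq, h' i, ← hm', CIsR_sroot k γ a b h i] at h1
          linarith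
        have n1 : c ≠ Fin.rev b := by
          intro e
          have h1 := C_rev k b
          rw [← e] at h1
          omega
        have n2 : c ≠ Fin.rev a := by
          intro e
          have h1 := C_rev k a
          rw [← e] at h1
          omega
        have n3 : Fin.rev a ≠ Fin.rev b := fun e => hab (Fin.rev_inj.mp e)
        have n4 : Fin.rev a ≠ b := by
          intro e
          have h1 := C_rev k a
          rw [e] at h1
          omega
        have v1 := hval c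
        rw [hf c, if_pos rfl, if_neg n1, if_neg hcb, if_neg n2] at v1
        have v2 := hval (Fin.rev a)
        rw [hf (Fin.rev a), if_neg n2.symm, if_neg n3, if_neg n4, if_pos rfl] at v2
        have x1 : c = x := by
          by_contra hn
          rw [if_neg hn] at v1
          split_ifs at v1 <;> omega
        have x2 : Fin.rev a = x := by
          by_contra hn
          rw [if_neg hn] at v2
          split_ifs at v2 <;> omega
        exact n2 (x1.trans x2.symm)

theorem C_conn (k : ℕ) (hk : 1 ≤ k) (p : ℕ) [Fact p.Prime] :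
    ∃ γ₀ ∈ PK (cA k) ⟨k, by omega⟩, ∀ γ ∈ PK (cA k) ⟨k, by omega⟩,
      Relation.ReflTransGen (StepRel (fC k) p (PK (cA k) ⟨k, by omega⟩)) γ γ₀ := by
  obtain ⟨o, ho⟩ : ∃ o : Fin (2 * k + 2), (o : ℕ) = 0 := ⟨⟨0, by omega⟩, rfl⟩
  obtain ⟨e, he⟩ : ∃ e : Fin (2 * k + 2), (e : ℕ) = 1 := ⟨⟨1, by omega⟩, rfl⟩
  have ho' : (o : ℕ) ≤ k := by omega
  have he' : (e : ℕ) ≤ k := by omega
  have hoe : o ≠ e := by
    intro h
    rw [h] at ho
    omega
  obtain ⟨γ₀, hγ₀⟩ := CIsR_exists k o e ho' he'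
  refine ⟨γ₀, CIsR_mem k γ₀ o e ho' he' hγ₀, ?_⟩
  have r10 : ∀ γ, CIsR k γ e o → Relation.ReflTransGen
      (StepRel (fC k) p (PK (cA k) ⟨k, by omega⟩)) γ γ₀ := by
    intro γ hγ
    exact Relation.ReflTransGen.single (CIsR_swap k p γ γ₀ e o he' ho' hγ hγ₀)
  have r0b : ∀ (b : Fin (2 * k + 2)), (b : ℕ) ≤ k → ∀ γ, CIsR k γ o b →
      Relation.ReflTransGen (StepRel (fC k) p (PK (cA k) ⟨k, by omega⟩)) γ γ₀ := by
    intro b hb γ hγ
    by_cases hbe : b = e
    · rw [hbe] at hγ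
      rw [CIsR_unique k γ γ₀ o e hγ hγ₀]
    · obtain ⟨γ10, hγ10⟩ := CIsR_exists k e o he' ho'
      by_cases hbo : b = o
      · rw [hbo] at hγ
        exact Relation.ReflTransGen.head
          (CIsR_move k p γ γ10 o o e ho' ho' he' hoe.symm hoe.symm hγ hγ10) (r10 γ10 hγ10)
      · obtain ⟨γ1, hγ1⟩ := CIsR_exists k b o hb ho'
        exact Relation.ReflTransGen.head (CIsR_swap k p γ γ1 o b ho' hb hγ hγ1)
          (Relation.ReflTransGen.head
            (CIsR_move k p γ1 γ10 b o e hb ho' he' (Ne.symm hbe) hoe.symm hγ1 hγ10)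
            (r10 γ10 hγ10))
  intro γ hγ
  obtain ⟨a, b, ha, hb, h⟩ := CIsR_form k γ hγ
  by_cases hao : a = o
  · rw [hao] at h
    exact r0b b hb γ h
  · by_cases hbo : b = o
    · rw [hbo] at h
      obtain ⟨γ1, hγ1⟩ := CIsR_exists k o a ho' ha
      exact Relation.ReflTransGen.head (CIsR_swap k p γ γ1 a o ha ho' h hγ1) (r0b a ha γ1 hγ1)
    · obtain ⟨γ1, hγ1⟩ := CIsR_exists k o b ho' hb
      exact Relation.ReflTransGen.head
        (CIsR_move k p γ γ1 a b o ha hb ho' (Ne.symm hao) (Ne.symm hbo) h hγ1) (r0b b hb γ1 hγ1)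

theorem C_data (k : ℕ) (hk : 1 ≤ k) (p : ℕ) [Fact p.Prime] :
    ∃ P P₀ γ₀, EData (fC k) p P P₀ γ₀ :=
  data_of_minuscule (fC k) p ⟨k, by omega⟩ (by
      show Fin.rev _ = _
      apply Fin.ext
      simp [Fin.val_rev]
      omega)
    (C_min k) (C_good k p) (C_conn k hk p)

end Pool.Agent.Helper255.CF
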