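import Pool.Agent.Helper255.CF.TypB
import Pool.Agent.Helper255.CF.TypC
import Pool.Agent.Helper255.CF.HG
import Pool.Agent.Helper255.CF.HF

set_option autoImplicit false

namespace Pool.Agent.Helper255.CF

/-- from the data of a self-centralising abelian subgroup to the conclusion -/
theorem concl_of_E.{u, v, w} {l : ℕ} {D : SLCartan l} (S : Folding D) (hl : 0 < l) (p : ℕ)
    [Fact p.Prime] (h : ∃ P P₀ γ₀, EData S p P P₀ γ₀) (K : Type) [Field K] [Finite K] [CharP K p]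
    [IsSimpleGroup (FG S K)] : Conclusion.{u, v, w} S K := by
  obtain ⟨P, P₀, γ₀, h⟩ := h
  refine mainF S hl p P P₀ {γ₀} h.hP h.hP₀ (Finset.singleton_subset_iff.2 h.hγ) ?_
    (h.hasQU S p P P₀ γ₀) (h.hasQ2 S p P P₀ γ₀)
    (hasStart_single S p (Fact.out : p.Prime).ne_zero P h.hP γ₀ (h.hP₀.1 h.hγ)) K
  intro γ hγ
  exact ⟨γ₀, Finset.mem_singleton_self _, h.conn γ hγ⟩

theorem concl_triv.{u, v, w} {l : ℕ} (D : SLCartan l) (hl : 0 < l) (K : Type) [Field K] [Finite K]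
    [IsSimpleGroup (FG (fTriv D) K)] : Conclusion.{u, v, w} (fTriv D) K := by
  obtain ⟨p, hp⟩ := CharP.exists K
  haveI : Fact p.Prime := ⟨CharP.char_is_prime K p⟩
  exact concl_of_E (fTriv D) hl p (triv_data hl D p) K

theorem concl_B.{u, v, w} (l : ℕ) (hl : 2 ≤ l) (K : Type) [Field K] [Finite K]
    [IsSimpleGroup (FG (fB l hl) K)] : Conclusion.{u, v, w} (fB l hl) K := by
  obtain ⟨p, hp⟩ := CharP.exists K
  haveI : Fact p.Prime := ⟨CharP.char_is_prime K p⟩
  exact concl_of_E (fB l hl) (Nat.succ_pos l) p (B_data l hl p) K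

theorem concl_C.{u, v, w} (k : ℕ) (hk : 1 ≤ k) (K : Type) [Field K] [Finite K]
    [IsSimpleGroup (FG (fC k) K)] : Conclusion.{u, v, w} (fC k) K := by
  obtain ⟨p, hp⟩ := CharP.exists K
  haveI : Fact p.Prime := ⟨CharP.char_is_prime K p⟩
  exact concl_of_E (fC k) (Nat.succ_pos _) p (C_data k hk p) K

theorem concl_F.{u, v, w} (K : Type) [Field K] [Finite K]
    [IsSimpleGroup (FG fF K)] : Conclusion.{u, v, w} fF K := by
  obtain ⟨p, hp⟩ := CharP.exists K
  haveI : Fact p.Prime := ⟨CharP.char_is_prime K p⟩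
  by_cases h2 : p = 2
  · subst h2
    obtain ⟨P₀, star, h⟩ := F2_data
    refine mainF fF (by norm_num) 2 PF2 P₀ {fe} h.hP h.hP₀ h.hΓ h.conn
      (h.hasQU fF 2 PF2 P₀ {fe} QF2 QF0 fe ccF star)
      (h.hasQ2 fF 2 PF2 P₀ {fe} QF2 QF0 fe ccF star)
      (hasStart_single fF 2 (by norm_num) PF2 h.hP fe (h.hP₀.1 h.hε)) K
  · exact concl_of_E fF (by norm_num) p (F_data p h2) K

theorem concl_G.{u, v, w} (K : Type) [Field K] [Finite K]
    [IsSimpleGroup (FG fG K)] : Conclusion.{u, v, w} fG K := by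
  obtain ⟨p, hp⟩ := CharP.exists K
  haveI : Fact p.Prime := ⟨CharP.char_is_prime K p⟩
  by_cases h3 : p = 3
  · subst h3
    have h := G3_data
    exact mainF fG (by norm_num) 3 PG {gaab, gl, gh} {gaab, gh} h.hP h.hP₀ h.hΓ h.conn
      (h.hasQU fG 3 PG _ _ QG _ gaab ccG stG)
      (h.hasQ2 fG 3 PG _ _ QG _ gaab ccG stG)
      G3_hasStart K
  · exact concl_of_E fG (by norm_num) p (G_data p h3) K

end Pool.Agent.Helper255.CF
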