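import Mathlib

set_option autoImplicit false

namespace Pool.Agent.Helper255.CF

open Matrix

/-- A simply laced Cartan datum of finite type: `C = M + Mᵀ` is a Cartan matrix (diagonal 2, off
diagonal entries nonpositive integers, positive definite, indecomposable: types A, D, E).  The
choice of `M` also fixes the sign cocycle `(-1)^(xᵀ M y)`. -/
structure SLCartan (l : ℕ) where
  M : Matrix (Fin l) (Fin l) ℤ
  diag : ∀ i, M i i = 1
  off : ∀ i j, i ≠ j → M i j + M j i ≤ 0
  pos : ∀ x : Fin l → ℤ, x ≠ 0 → 0 < x ⬝ᵥ (M *ᵥ x)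
  conn : ∀ s : Finset (Fin l), s.Nonempty →
    (∀ i ∈ s, ∀ j, j ∉ s → M i j + M j i = 0) → s = Finset.univ

variable {l : ℕ} (D : SLCartan l)

/-- the bilinear form `xᵀ M y` -/
def eta (x y : Fin l → ℤ) : ℤ := x ⬝ᵥ (D.M *ᵥ y)

/-- the invariant form on the root lattice `ℤ^l`: `xᵀ C y` with `C = M + Mᵀ` -/
def bil (x y : Fin l → ℤ) : ℤ := eta D x y + eta D y x

/-- the sign cocycle `(-1)^(xᵀ M y)` -/
def sgn (x y : Fin l → ℤ) : ℤ := ((eta D x y).negOnePow : ℤ)

/-- the roots: vectors of norm 2 of the root lattice -/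
def Root : Type := {x : Fin l → ℤ // bil D x x = 2}

instance : DecidableEq (Root D) := fun a b => decidable_of_iff (a.1 = b.1) (by
  constructor
  · intro h; exact Subtype.ext h
  · intro h; rw [h])

theorem eta_add_left (x y z : Fin l → ℤ) : eta D (x + y) z = eta D x z + eta D y z := by
  simp [eta, add_dotProduct]

theorem eta_add_right (x y z : Fin l → ℤ) : eta D x (y + z) = eta D x y + eta D x z := by
  simp [eta, mulVec_add, dotProduct_add]

theorem eta_neg_left (x y : Fin l → ℤ) : eta D (-x) y = - eta D x y := by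
  simp [eta]

theorem eta_neg_right (x y : Fin l → ℤ) : eta D x (-y) = - eta D x y := by
  simp [eta, mulVec_neg]

theorem eta_zero_left (y : Fin l → ℤ) : eta D 0 y = 0 := by simp [eta]

theorem eta_zero_right (x : Fin l → ℤ) : eta D x 0 = 0 := by simp [eta]

theorem eta_smul_left (c : ℤ) (x y : Fin l → ℤ) : eta D (c • x) y = c * eta D x y := by
  rw [eta, smul_dotProduct, smul_eq_mul, eta]

theorem eta_smul_right (c : ℤ) (x y : Fin l → ℤ) : eta D x (c • y) = c * eta D x y := by
  rw [eta, mulVec_smul, dotProduct_smul, smul_eq_mul, eta]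

theorem eta_sum_left {ι : Type*} (s : Finset ι) (f : ι → Fin l → ℤ) (y : Fin l → ℤ) :
    eta D (∑ i ∈ s, f i) y = ∑ i ∈ s, eta D (f i) y := by
  classical
  induction s using Finset.induction_on with
  | empty => simp [eta_zero_left]
  | insert a s ha ih => rw [Finset.sum_insert ha, Finset.sum_insert ha, eta_add_left, ih]

theorem eta_sum_right {ι : Type*} (s : Finset ι) (x : Fin l → ℤ) (f : ι → Fin l → ℤ) :
    eta D x (∑ i ∈ s, f i) = ∑ i ∈ s, eta D x (f i) := by
  classical
  induction s using Finset.induction_on with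
  | empty => simp [eta_zero_right]
  | insert a s ha ih => rw [Finset.sum_insert ha, Finset.sum_insert ha, eta_add_right, ih]

theorem bil_comm (x y : Fin l → ℤ) : bil D x y = bil D y x := by
  rw [bil, bil, add_comm]

theorem bil_add_left (x y z : Fin l → ℤ) : bil D (x + y) z = bil D x z + bil D y z := by
  simp only [bil, eta_add_left, eta_add_right]; ring

theorem bil_add_right (x y z : Fin l → ℤ) : bil D x (y + z) = bil D x y + bil D x z := by
  simp only [bil, eta_add_left, eta_add_right]; ring

theorem bil_neg_left (x y : Fin l → ℤ) : bil D (-x) y = - bil D x y := by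
  simp only [bil, eta_neg_left, eta_neg_right]; ring

theorem bil_neg_right (x y : Fin l → ℤ) : bil D x (-y) = - bil D x y := by
  simp only [bil, eta_neg_left, eta_neg_right]; ring

theorem bil_sub_left (x y z : Fin l → ℤ) : bil D (x - y) z = bil D x z - bil D y z := by
  rw [sub_eq_add_neg, bil_add_left, bil_neg_left, sub_eq_add_neg]

theorem bil_sub_right (x y z : Fin l → ℤ) : bil D x (y - z) = bil D x y - bil D x z := by
  rw [sub_eq_add_neg, bil_add_right, bil_neg_right, sub_eq_add_neg]

theorem bil_smul_left (c : ℤ) (x y : Fin l → ℤ) : bil D (c • x) y = c * bil D x y := by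
  simp only [bil, eta_smul_left, eta_smul_right]; ring

theorem bil_smul_right (c : ℤ) (x y : Fin l → ℤ) : bil D x (c • y) = c * bil D x y := by
  simp only [bil, eta_smul_left, eta_smul_right]; ring

theorem bil_zero_left (y : Fin l → ℤ) : bil D 0 y = 0 := by
  simp [bil, eta_zero_left, eta_zero_right]

theorem bil_zero_right (x : Fin l → ℤ) : bil D x 0 = 0 := by
  simp [bil, eta_zero_left, eta_zero_right]

theorem bil_sum_left {ι : Type*} (s : Finset ι) (f : ι → Fin l → ℤ) (y : Fin l → ℤ) :
    bil D (∑ i ∈ s, f i) y = ∑ i ∈ s, bil D (f i) y := by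
  simp only [bil, eta_sum_left, eta_sum_right, Finset.sum_add_distrib]

theorem bil_sum_right {ι : Type*} (s : Finset ι) (x : Fin l → ℤ) (f : ι → Fin l → ℤ) :
    bil D x (∑ i ∈ s, f i) = ∑ i ∈ s, bil D x (f i) := by
  simp only [bil, eta_sum_left, eta_sum_right, Finset.sum_add_distrib]

theorem eta_single (i j : Fin l) : eta D (Pi.single i 1) (Pi.single j 1) = D.M i j := by
  simp [eta]

theorem bil_single (i j : Fin l) :
    bil D (Pi.single i 1) (Pi.single j 1) = D.M i j + D.M j i := by
  rw [bil, eta_single, eta_single]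

theorem bil_pos (x : Fin l → ℤ) (hx : x ≠ 0) : 0 < bil D x x := by
  have := D.pos x hx
  rw [bil, eta]; linarith

theorem bil_nonneg (x : Fin l → ℤ) : 0 ≤ bil D x x := by
  by_cases h : x = 0
  · subst h; simp [bil_zero_left]
  · exact (bil_pos D x h).le

theorem root_ext {α β : Root D} (h : α.1 = β.1) : α = β := Subtype.ext h

theorem root_norm (α : Root D) : bil D α.1 α.1 = 2 := α.2

/-- the simple roots -/
def sr (i : Fin l) : Root D := ⟨Pi.single i 1, by rw [bil_single, D.diag]; norm_num⟩

/-- the negative of a root -/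
def rneg (α : Root D) : Root D := ⟨-α.1, by rw [bil_neg_left, bil_neg_right, neg_neg]; exact α.2⟩

theorem eq_sum_single (z : Fin l → ℤ) : z = ∑ j, z j • (Pi.single j (1 : ℤ) : Fin l → ℤ) := by
  funext k
  simp [Finset.sum_apply, Pi.single_apply]

theorem abs_bil_le (α : Root D) (j : Fin l) : |bil D α.1 (Pi.single j 1)| ≤ 2 := by
  have h1 := bil_nonneg D (α.1 + Pi.single j 1)
  have h2 := bil_nonneg D (α.1 - Pi.single j 1)
  have h3 : bil D (Pi.single j 1) (Pi.single j 1) = 2 := (sr D j).2
  rw [bil_add_left, bil_add_right, bil_add_right, bil_comm D (Pi.single j 1) α.1, α.2, h3] at h1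
  rw [bil_sub_left, bil_sub_right, bil_sub_right, bil_comm D (Pi.single j 1) α.1, α.2, h3] at h2
  rw [abs_le]; constructor <;> linarith

theorem eq_of_bil_single (x y : Fin l → ℤ)
    (h : ∀ j, bil D x (Pi.single j 1) = bil D y (Pi.single j 1)) : x = y := by
  by_contra hne
  have h0 : ∀ z, bil D (x - y) z = 0 := by
    intro z
    rw [eq_sum_single z, bil_sum_right]
    refine Finset.sum_eq_zero fun j _ => ?_
    rw [bil_smul_right, bil_sub_left, h j, sub_self, mul_zero]
  have := bil_pos D (x - y) (sub_ne_zero.2 hne)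
  rw [h0] at this
  exact lt_irrefl _ this

theorem root_finite : Finite (Root D) := by
  let f : Root D → (Fin l → Finset.Icc (-2 : ℤ) 2) := fun α j =>
    ⟨bil D α.1 (Pi.single j 1), by
      have := abs_le.1 (abs_bil_le D α j)
      exact Finset.mem_Icc.2 ⟨this.1, this.2⟩⟩
  refine Finite.of_injective f ?_
  intro α β h
  apply root_ext
  apply eq_of_bil_single D
  intro j
  have := congrFun h j
  exact congrArg (fun z : Finset.Icc (-2 : ℤ) 2 => z.1) this

noncomputable instance : Fintype (Root D) := @Fintype.ofFinite _ (root_finite D)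

/-- index set of the basis `h_1, ..., h_l, (e_β)` of the Lie algebra -/
abbrev Idx := Fin l ⊕ Root D

/-- the matrix of `ad e_α` in the basis `h_j, e_β` of the Lie algebra with
`[h, e_β] = (h, β) e_β`, `[e_α, e_{-α}] = -h_α`, `[e_α, e_γ] = (-1)^(αᵀ M γ) e_{α + γ}` -/
def E (α : Root D) : Matrix (Idx D) (Idx D) ℤ := Matrix.of fun i j =>
  match i, j with
  | Sum.inl _, Sum.inl _ => 0
  | Sum.inr β, Sum.inl j => if β = α then - bil D α.1 (Pi.single j 1) else 0
  | Sum.inl i, Sum.inr γ => if γ.1 = -α.1 then - α.1 i else 0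
  | Sum.inr β, Sum.inr γ => if β.1 = α.1 + γ.1 then sgn D α.1 γ.1 else 0

/-- the matrix of `(ad e_α)^2 / 2` -/
def F (α : Root D) : Matrix (Idx D) (Idx D) ℤ := Matrix.of fun i j =>
  match i, j with
  | Sum.inr β, Sum.inr γ => if β = α ∧ γ.1 = -α.1 then 1 else 0
  | _, _ => 0

/-- `x_α(t) = exp (t ad e_α)` as a matrix over any commutative ring -/
noncomputable def xM {R : Type*} [CommRing R] (α : Root D) (t : R) : Matrix (Idx D) (Idx D) R :=
  1 + t • (E D α).map (Int.cast : ℤ → R) + t ^ 2 • (F D α).map (Int.cast : ℤ → R)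

/-- the action of a permutation of the nodes on the root lattice -/
def pv (π : Equiv.Perm (Fin l)) (x : Fin l → ℤ) : Fin l → ℤ := fun i => x (π⁻¹ i)

/-- The group generated, for all orbits `O` of the diagram automorphism `σ` on the roots and all
`t`, by the product of the (commuting) elements `x_γ(t)`, `γ ∈ O`; the list `L` enumerates the orbit
of `β`. For `σ = 1` this is the adjoint Chevalley group of the simply laced type `D`, generated by
all `x_β(t)`; in general it is the adjoint Chevalley group of the folded type. -/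
noncomputable def folded (σ : Equiv.Perm (Fin l)) (R : Type*) [CommRing R] :
    Subgroup (GL (Idx D) R) :=
  Subgroup.closure {g | ∃ (β : Root D) (t : R) (L : List (Root D)), L.Nodup ∧
    (∀ γ : Root D, γ ∈ L ↔ ∃ k : ℕ, γ.1 = pv (σ ^ k) β.1) ∧
    (g : Matrix (Idx D) (Idx D) R) = (L.map fun γ => xM D γ t).prod}

end Pool.Agent.Helper255.CF
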