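import Mathlib

set_option autoImplicit false

namespace Pool.Agent.Helper255.CF

/-- the matrix of type `D_{l+1}`: nodes `0 - 1 - ... - (l-2)`, and `l - 1` and `l` both joined to
`l - 2` -/
def DM (l : ℕ) : Matrix (Fin (l + 1)) (Fin (l + 1)) ℤ := Matrix.of fun i j =>
  if i = j then 1
  else if ((j : ℕ) = i + 1 ∧ (j : ℕ) < l) ∨ ((i : ℕ) + 2 = l ∧ (j : ℕ) = l) then -1 else 0

/-- the diagram automorphism of `D_{l+1}` exchanging the nodes `l - 1` and `l` -/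
def sB (l : ℕ) (hl : 2 ≤ l) : Equiv.Perm (Fin (l + 1)) :=
  Equiv.swap ⟨l - 1, by omega⟩ (Fin.last l)

/-- the matrix of type `A_{2k+1}`, symmetric under the reversal of the nodes -/
def AM (k : ℕ) : Matrix (Fin (2 * k + 1)) (Fin (2 * k + 1)) ℤ := Matrix.of fun i j =>
  if i = j then 1
  else if ((j : ℕ) = i + 1 ∧ (j : ℕ) ≤ k) ∨ ((i : ℕ) = j + 1 ∧ k ≤ (j : ℕ)) then -1 else 0

/-- type `E_6`: the chain `0 - 2 - 3 - 4 - 5` and the node `1` joined to `3` -/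
def EM : Matrix (Fin 6) (Fin 6) ℤ :=
  !![1, 0, -1, 0, 0, 0;
     0, 1, 0, -1, 0, 0;
     0, 0, 1, -1, 0, 0;
     0, 0, 0, 1, 0, 0;
     0, 0, 0, -1, 1, 0;
     0, 0, 0, 0, -1, 1]

/-- the nontrivial diagram automorphism of `E_6` -/
def sF : Equiv.Perm (Fin 6) := Equiv.swap 0 5 * Equiv.swap 2 4

/-- type `D_4` with central node `0` -/
def TM : Matrix (Fin 4) (Fin 4) ℤ :=
  !![1, 0, 0, 0;
     -1, 1, 0, 0;
     -1, 0, 1, 0;
     -1, 0, 0, 1]

/-- the diagram automorphism `1 → 2 → 3 → 1` of `D_4` -/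
def sG : Equiv.Perm (Fin 4) := Equiv.swap 1 2 * Equiv.swap 2 3

end Pool.Agent.Helper255.CF
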