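import Pool.Agent.Helper255.CF.Types
import Pool.Agent.Helper255.CF.Concl

set_option autoImplicit false

namespace Pool.Agent.Helper255.CF

open Matrix

variable {l : ℕ} {D : SLCartan l} (S : Folding D)

theorem mat_prod {R : Type*} [CommRing R] (L : List (Root D)) (a : Root D → R) :
    mat D (L.map fun γ => xg D γ (a γ)).prod = (L.map fun γ => xM D γ (a γ)).prod := by
  induction L with
  | nil => rfl
  | cons b L ih =>
    rw [List.map_cons, List.prod_cons, List.map_cons, List.prod_cons, mat_mul, ih, mat_xg]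

theorem orb_nonneg (β : Root D) : ∀ γ ∈ orb S β, ∀ δ ∈ orb S β, 0 ≤ bil D γ.1 δ.1 := by
  intro γ hγ δ hδ
  rcases orb_orth S β γ δ hγ hδ with h | h
  · subst h; rw [γ.2]; norm_num
  · rw [h]

theorem folded_eq (R : Type*) [CommRing R] :
    folded D S.σ R = (FG S R).map (G D R).subtype := by
  classical
  have hFG : (FG S R).map (G D R).subtype = Subgroup.closure
      ((G D R).subtype '' {g | ∃ (β : Root D) (t : R), g = yg S β t}) := by
    rw [FG]
    exact MonoidHom.map_closure _ _
  rw [hFG, folded]
  congr 1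
  ext g
  constructor
  · rintro ⟨β, t, L, hL, hLm, hg⟩
    refine ⟨yg S β t, ⟨β, t, rfl⟩, ?_⟩
    apply Units.ext
    have h1 : yg S β t = (L.map fun γ => xg D γ t).prod :=
      XA_eq_list (orb S β) (orb_nonneg S β) (fun _ => t) L hL
        (fun γ => by rw [hLm, mem_orb])
    have h2 := mat_prod L (fun _ => t)
    rw [hg, ← h2, ← h1]
    rfl
  · rintro ⟨_, ⟨β, t, rfl⟩, rfl⟩
    refine ⟨β, t, (orb S β).toList, Finset.nodup_toList _, ?_, ?_⟩
    · intro γ
      rw [Finset.mem_toList, mem_orb]
    · exact mat_prod (orb S β).toList (fun _ => t)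

/-- the two versions of the folded group agree -/
noncomputable def fe1 (R : Type*) [CommRing R] : FG S R ≃* folded D S.σ R :=
  ((FG S R).equivMapOfInjective (G D R).subtype (Subgroup.subtype_injective _)).trans
    (MulEquiv.subgroupCongr (folded_eq S R).symm)

theorem fe1_val {R : Type*} [CommRing R] (g : FG S R) :
    ((fe1 S R g : folded D S.σ R) : GL (Idx D) R) = ((g : G D R) : GL (Idx D) R) := rfl

theorem fe1_symm_val {R : Type*} [CommRing R] (g : folded D S.σ R) :
    ((((fe1 S R).symm g : FG S R) : G D R) : GL (Idx D) R) = (g : GL (Idx D) R) := by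
  have h := fe1_val S ((fe1 S R).symm g)
  rw [MulEquiv.apply_symm_apply] at h
  exact h.symm

theorem irred_comp {F G H V : Type*} [Field F] [Group G] [Group H] [AddCommGroup V] [Module F V]
    (ρ : Representation F H V) (e : G ≃* H) (h : ρ.IsIrreducible) :
    Representation.IsIrreducible (ρ.comp e.toMonoidHom : Representation F G V) := by
  let f : Subrepresentation (ρ.comp e.toMonoidHom : Representation F G V) ≃o
      Subrepresentation ρ :=
    { toFun := fun W => ⟨W.toSubmodule, fun g v hv => by
        have := W.apply_mem_toSubmodule (e.symm g) hv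
        simpa using this⟩
      invFun := fun W => ⟨W.toSubmodule, fun g v hv => W.apply_mem_toSubmodule (e g) hv⟩
      left_inv := fun W => rfl
      right_inv := fun W => rfl
      map_rel_iff' := Iff.rfl }
  exact (OrderIso.isSimpleOrder_iff f).2 h

theorem isFactor_of {F H V S : Type*} [Field F] [Group H] [AddCommGroup V] [Module F V]
    [AddCommGroup S] [Module F S] (τ : Representation F H S) (ρ : Representation F H V)
    (h : IsCompFactor τ ρ) : IsFactor τ ρ := by
  obtain ⟨W, hW, φ, hφ, heq⟩ := h
  refine ⟨⟨W, fun g v hv => hW g v hv⟩, ⟨φ, ?_⟩, hφ⟩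
  intro g
  ext w
  exact heq g w

theorem compFactor_comp {F G H V S : Type*} [Field F] [Group G] [Group H] [AddCommGroup V]
    [Module F V] [AddCommGroup S] [Module F S] (τ : Representation F H S)
    (ρ : Representation F H V) (e : G ≃* H)
    (h : IsCompFactor (τ.comp e.toMonoidHom : Representation F G S)
      (ρ.comp e.toMonoidHom : Representation F G V)) : IsCompFactor τ ρ := by
  obtain ⟨W, hW, φ, hφ, heq⟩ := h
  have hW' : ∀ h : H, ∀ w ∈ W, ρ h w ∈ W := by
    intro h w hw
    have := hW (e.symm h) w hw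
    simpa using this
  refine ⟨W, hW', φ, hφ, ?_⟩
  intro h w
  have := heq (e.symm h) w
  simpa using this

theorem exists_standardF (σ : Equiv.Perm (Fin l)) (hσ : S.σ = σ) (K L : Type) [Field K] [Field L]
    [Algebra K L] : ∃ j : folded D σ K →* folded D σ L,
      ∀ (g : folded D σ K) (a b : Idx D), (j g).1.1 a b = algebraMap K L (g.1.1 a b) := by
  subst hσ
  refine ⟨((fe1 S L).toMonoidHom.comp (Fmap S (algebraMap K L))).comp
    (fe1 S K).symm.toMonoidHom, ?_⟩
  intro g a b
  have h := fe1_symm_val S g
  have h1 : ((((fe1 S K).symm g : FG S K) : G D K) : GL (Idx D) K).1 a b =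
      (g : GL (Idx D) K).1 a b := by rw [h]
  exact congrArg (algebraMap K L) h1

/-- there is exactly one standard embedding -/
theorem existsUnique_standard (X : LieType) (K L : Type) [Field K] [Field L] [Algebra K L] :
    ∃! j : Chev X K →* Chev X L, IsStandard X j := by
  have hex : ∃ j : Chev X K →* Chev X L, IsStandard X j := by
    cases X with
    | ADE l hl D => exact exists_standardF (fTriv D) 1 rfl K L
    | B l hl => exact exists_standardF (fB l hl) (sB l hl) rfl K L
    | C k hk => exact exists_standardF (fC k) Fin.revPerm rfl K L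
    | F4 => exact exists_standardF fF sF rfl K L
    | G2 => exact exists_standardF fG sG rfl K L
  obtain ⟨j, hj⟩ := hex
  refine ⟨j, hj, ?_⟩
  intro j' hj'
  refine MonoidHom.ext fun g => ?_
  apply Subtype.ext
  apply Units.ext
  ext a b
  exact (hj' g a b).trans (hj g a b).symm

/-- transfer of the conclusion to the matrix groups -/
theorem concl_transfer.{u, v, w} (K : Type) [Field K] (σ : Equiv.Perm (Fin l)) (hσ : S.σ = σ)
    (h : Conclusion.{u, v, w} S K) :
    ∃ m : ℕ, 1 ≤ m ∧ ∀ (L : Type) [Field L] [Algebra K L], Module.finrank K L = m →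
      ∀ j : folded D σ K →* folded D σ L,
        (∀ (g : folded D σ K) (a b : Idx D), (j g).1.1 a b = algebraMap K L (g.1.1 a b)) →
      ∀ (F : Type u) (V : Type v) (W : Type w) [Field F] [AddCommGroup V] [Module F V]
        [FiniteDimensional F V] [AddCommGroup W] [Module F W],
        (∀ p : ℕ, p.Prime → CharP K p → (p : F) ≠ 0) →
      ∀ (ρ : Representation F (folded D σ L) V), ρ.IsIrreducible → 1 < Module.finrank F V →
      ∀ (τ : Representation F (folded D σ K) W), τ.IsIrreducible →
        IsCompFactor τ (ρ.comp j) := by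
  subst hσ
  obtain ⟨m, hm, h⟩ := h
  refine ⟨m, hm, ?_⟩
  intro L _ _ hL j hj F V W _ _ _ _ _ _ hp ρ hρ hdim τ hτ
  apply compFactor_comp τ (ρ.comp j) (fe1 S K)
  have h1 := h L hL F V W hp (ρ.comp (fe1 S L).toMonoidHom) (irred_comp ρ _ hρ) hdim
    (τ.comp (fe1 S K).toMonoidHom) (irred_comp τ _ hτ)
  have h2 : (ρ.comp (fe1 S L).toMonoidHom).comp (Fmap S (algebraMap K L)) =
      (ρ.comp j).comp (fe1 S K).toMonoidHom := by
    rw [MonoidHom.comp_assoc, MonoidHom.comp_assoc]
    congr 1
    refine MonoidHom.ext fun g => ?_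
    apply Subtype.ext
    apply Units.ext
    ext a b
    exact (hj (fe1 S K g) a b).symm
  rw [h2] at h1
  exact h1

/-- the main theorem for the matrix groups -/
theorem concl_X.{u, v, w} (X : LieType) (K : Type) [Field K] [Finite K]
    (hs : IsSimpleGroup (Chev X K)) :
    ∃ m : ℕ, 1 ≤ m ∧ ∀ (L : Type) [Field L] [Algebra K L], Module.finrank K L = m →
      ∀ j : Chev X K →* Chev X L, IsStandard X j →
      ∀ (F : Type u) (V : Type v) (W : Type w) [Field F] [AddCommGroup V] [Module F V]
        [FiniteDimensional F V] [AddCommGroup W] [Module F W],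
        (∀ p : ℕ, p.Prime → CharP K p → (p : F) ≠ 0) →
      ∀ (ρ : Representation F (Chev X L) V), ρ.IsIrreducible → 1 < Module.finrank F V →
      ∀ (τ : Representation F (Chev X K) W), τ.IsIrreducible →
        IsCompFactor τ (ρ.comp j) := by
  cases X with
  | ADE l hl D =>
    haveI : IsSimpleGroup (folded D (fTriv D).σ K) := hs
    haveI : IsSimpleGroup (FG (fTriv D) K) := (fe1 (fTriv D) K).isSimpleGroup
    exact concl_transfer.{u, v, w} (fTriv D) K 1 rfl (concl_triv D hl K)
  | B l hl =>
    haveI : IsSimpleGroup (folded (cD l hl) (fB l hl).σ K) := hs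
    haveI : IsSimpleGroup (FG (fB l hl) K) := (fe1 (fB l hl) K).isSimpleGroup
    exact concl_transfer.{u, v, w} (fB l hl) K (sB l hl) rfl (concl_B l hl K)
  | C k hk =>
    haveI : IsSimpleGroup (folded (cA k) (fC k).σ K) := hs
    haveI : IsSimpleGroup (FG (fC k) K) := (fe1 (fC k) K).isSimpleGroup
    exact concl_transfer.{u, v, w} (fC k) K Fin.revPerm rfl (concl_C k hk K)
  | F4 =>
    haveI : IsSimpleGroup (folded cE fF.σ K) := hs
    haveI : IsSimpleGroup (FG fF K) := (fe1 fF K).isSimpleGroup
    exact concl_transfer.{u, v, w} fF K sF rfl (concl_F K)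
  | G2 =>
    haveI : IsSimpleGroup (folded cT fG.σ K) := hs
    haveI : IsSimpleGroup (FG fG K) := (fe1 fG K).isSimpleGroup
    exact concl_transfer.{u, v, w} fG K sG rfl (concl_G K)

end Pool.Agent.Helper255.CF
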