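import Pool.Agent.Helper255.CF.Grp

set_option autoImplicit false

namespace Pool.Agent.Helper255.CF

open Matrix

variable {l : ℕ} (D : SLCartan l)

/-! folding -/

/-- `α₀` is the highest root -/
def IsHighest (α₀ : Root D) : Prop := Pos α₀.1 ∧
  ∀ γ : Root D, Pos γ.1 → γ ≠ α₀ → ht γ.1 < ht α₀.1 ∧ ∃ i, bil D (sr D i).1 γ.1 = -1

/-- a diagram automorphism preserving the cocycle, all of whose orbits on roots consist of
pairwise orthogonal roots -/
structure Folding (D : SLCartan l) where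
  σ : Equiv.Perm (Fin l)
  hM : ∀ i j, D.M (σ i) (σ j) = D.M i j
  orth : ∀ (k : ℕ) (x : Fin l → ℤ), bil D x x = 2 →
    pv (σ ^ k) x = x ∨ bil D x (pv (σ ^ k) x) = 0

variable {D} (S : Folding D)

theorem pv_one (x : Fin l → ℤ) : pv 1 x = x := rfl

theorem pv_mul (π π' : Equiv.Perm (Fin l)) (x : Fin l → ℤ) : pv (π * π') x = pv π (pv π' x) := by
  funext i
  simp only [pv, _root_.mul_inv_rev, Equiv.Perm.mul_apply]

theorem pv_add (π : Equiv.Perm (Fin l)) (x y : Fin l → ℤ) : pv π (x + y) = pv π x + pv π y := rfl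

theorem pv_neg (π : Equiv.Perm (Fin l)) (x : Fin l → ℤ) : pv π (-x) = - pv π x := rfl

theorem pv_single (π : Equiv.Perm (Fin l)) (i : Fin l) :
    pv π (Pi.single i 1) = Pi.single (π i) 1 := by
  funext j
  by_cases h : j = π i
  · subst h
    simp [pv]
  · have h' : π⁻¹ j ≠ i := by
      intro hc
      apply h
      rw [← hc]
      simp
    simp only [pv, Pi.single_apply, h, h', if_false]

theorem ht_pv (π : Equiv.Perm (Fin l)) (x : Fin l → ℤ) : ht (pv π x) = ht x :=
  Equiv.sum_comp π⁻¹ x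

theorem pos_pv (π : Equiv.Perm (Fin l)) (x : Fin l → ℤ) : Pos (pv π x) ↔ Pos x := by
  constructor
  · intro h i
    have := h (π i)
    simpa [pv] using this
  · intro h i
    exact h _

theorem hM_pow_aux (k : ℕ) (i j : Fin l) : D.M ((S.σ ^ k) i) ((S.σ ^ k) j) = D.M i j := by
  induction k generalizing i j with
  | zero => simp
  | succ k ih =>
    rw [pow_succ, Equiv.Perm.mul_apply, Equiv.Perm.mul_apply, ih, S.hM]

theorem eta_pv (k : ℕ) (x y : Fin l → ℤ) : eta D (pv (S.σ ^ k) x) (pv (S.σ ^ k) y) = eta D x y := by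
  have h1 : ∀ u v : Fin l → ℤ, eta D u v = ∑ i, u i * ∑ j, D.M i j * v j := by
    intro u v
    simp only [eta, dotProduct, mulVec]
  rw [h1, h1, ← Equiv.sum_comp (S.σ ^ k)]
  refine Finset.sum_congr rfl fun i _ => ?_
  rw [← Equiv.sum_comp (S.σ ^ k) (fun j => D.M ((S.σ ^ k) i) j * pv (S.σ ^ k) y j)]
  have e : ∀ (z : Fin l → ℤ) (j : Fin l), pv (S.σ ^ k) z ((S.σ ^ k) j) = z j := by
    intro z j
    show z ((S.σ ^ k)⁻¹ ((S.σ ^ k) j)) = z j
    congr 1
    exact Equiv.symm_apply_apply _ _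
  simp only [e, hM_pow_aux]

theorem bil_pv (k : ℕ) (x y : Fin l → ℤ) : bil D (pv (S.σ ^ k) x) (pv (S.σ ^ k) y) = bil D x y := by
  rw [bil, bil, eta_pv, eta_pv]

theorem sgn_pv (k : ℕ) (x y : Fin l → ℤ) : sgn D (pv (S.σ ^ k) x) (pv (S.σ ^ k) y) = sgn D x y := by
  rw [sgn, sgn, eta_pv]

/-- the action of the diagram automorphism on roots -/
def sroot (β : Root D) : Root D := ⟨pv S.σ β.1, by
  have h := bil_pv S 1 β.1 β.1
  rw [pow_one] at h
  rw [h]; exact β.2⟩

open Classical in
/-- the orbit of a root under the diagram automorphism -/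
noncomputable def orb (β : Root D) : Finset (Root D) :=
  Finset.univ.filter fun γ => ∃ k : ℕ, γ.1 = pv (S.σ ^ k) β.1

theorem mem_orb (β γ : Root D) : γ ∈ orb S β ↔ ∃ k : ℕ, γ.1 = pv (S.σ ^ k) β.1 := by
  simp [orb]

theorem self_mem_orb (β : Root D) : β ∈ orb S β := by
  rw [mem_orb]
  exact ⟨0, by rw [pow_zero, pv_one]⟩

theorem pv_pow_add (a b : ℕ) (x : Fin l → ℤ) :
    pv (S.σ ^ (a + b)) x = pv (S.σ ^ a) (pv (S.σ ^ b) x) := by
  rw [pow_add, pv_mul]

theorem pv_pow_inv (k : ℕ) (x : Fin l → ℤ) :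
    pv (S.σ ^ ((orderOf S.σ - 1) * k)) (pv (S.σ ^ k) x) = x := by
  rw [← pv_pow_add]
  have hpos : 0 < orderOf S.σ := orderOf_pos _
  have : (orderOf S.σ - 1) * k + k = orderOf S.σ * k := by
    obtain ⟨n, hn⟩ : ∃ n, orderOf S.σ = n + 1 := ⟨orderOf S.σ - 1, by omega⟩
    rw [hn, Nat.add_sub_cancel]
    ring
  rw [this, pow_mul, pow_orderOf_eq_one, one_pow, pv_one]

theorem orb_eq (β γ : Root D) (h : γ ∈ orb S β) : orb S γ = orb S β := by
  rw [mem_orb] at h
  obtain ⟨k, hk⟩ := h
  ext δ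
  rw [mem_orb, mem_orb]
  constructor
  · rintro ⟨m, hm⟩
    refine ⟨m + k, ?_⟩
    rw [pv_pow_add, ← hk, hm]
  · rintro ⟨m, hm⟩
    refine ⟨m + (orderOf S.σ - 1) * k, ?_⟩
    rw [pv_pow_add, hk, pv_pow_inv, hm]

theorem sroot_mem_orb (β : Root D) : sroot S β ∈ orb S β := by
  rw [mem_orb]
  exact ⟨1, by rw [pow_one]; rfl⟩

theorem orb_induction {p : Root D → Prop} (β : Root D) (h0 : p β)
    (hs : ∀ γ, p γ → p (sroot S γ)) : ∀ γ ∈ orb S β, p γ := by
  intro γ hγ
  rw [mem_orb] at hγ
  obtain ⟨k, hk⟩ := hγ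
  induction k generalizing γ with
  | zero =>
    rw [pow_zero, pv_one] at hk
    rw [root_ext D hk]
    exact h0
  | succ k ih =>
    obtain ⟨δ, hδ⟩ : ∃ δ : Root D, δ.1 = pv (S.σ ^ k) β.1 :=
      ⟨⟨pv (S.σ ^ k) β.1, by rw [bil_pv]; exact β.2⟩, rfl⟩
    have h1 : γ = sroot S δ := by
      apply root_ext D
      show γ.1 = pv S.σ δ.1
      rw [hk, hδ, ← pv_mul, pow_succ']
    rw [h1]
    exact hs δ (ih δ hδ)

theorem orb_orth (β γ γ' : Root D) (h : γ ∈ orb S β) (h' : γ' ∈ orb S β) :
    γ = γ' ∨ bil D γ.1 γ'.1 = 0 := by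
  rw [mem_orb] at h h'
  obtain ⟨a, ha⟩ := h
  obtain ⟨b, hb⟩ := h'
  rcases le_total a b with hab | hab
  · have h1 : γ'.1 = pv (S.σ ^ (b - a)) γ.1 := by
      rw [ha, ← pv_pow_add, Nat.sub_add_cancel hab, hb]
    rcases S.orth (b - a) γ.1 γ.2 with h2 | h2
    · left
      exact (root_ext D (h1.trans h2)).symm
    · right
      rw [h1]; exact h2
  · have h1 : γ.1 = pv (S.σ ^ (a - b)) γ'.1 := by
      rw [hb, ← pv_pow_add, Nat.sub_add_cancel hab, ha]
    rcases S.orth (a - b) γ'.1 γ'.2 with h2 | h2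
    · left
      exact root_ext D (h1.trans h2)
    · right
      rw [bil_comm, h1]; exact h2

theorem mem_orb_neg (β γ : Root D) : rneg D γ ∈ orb S (rneg D β) ↔ γ ∈ orb S β := by
  rw [mem_orb, mem_orb]
  constructor
  · rintro ⟨k, hk⟩
    refine ⟨k, ?_⟩
    have hk' : -γ.1 = pv (S.σ ^ k) (-β.1) := hk
    rw [pv_neg] at hk'
    exact neg_injective hk'
  · rintro ⟨k, hk⟩
    refine ⟨k, ?_⟩
    show -γ.1 = pv (S.σ ^ k) (-β.1)
    rw [pv_neg, hk]

theorem orb_ht (β γ : Root D) (h : γ ∈ orb S β) : ht γ.1 = ht β.1 := by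
  rw [mem_orb] at h
  obtain ⟨k, hk⟩ := h
  rw [hk, ht_pv]

theorem orb_pos (β γ : Root D) (h : γ ∈ orb S β) : Pos γ.1 ↔ Pos β.1 := by
  rw [mem_orb] at h
  obtain ⟨k, hk⟩ := h
  rw [hk, pos_pv]

theorem orb_simple (i : Fin l) (γ : Root D) (h : γ ∈ orb S (sr D i)) : ∃ j, γ = sr D j := by
  rw [mem_orb] at h
  obtain ⟨k, hk⟩ := h
  refine ⟨(S.σ ^ k) i, root_ext D ?_⟩
  rw [hk]
  exact pv_single (S.σ ^ k) i

theorem orb_fixed (β : Root D) (h : sroot S β = β) : orb S β = {β} := by
  ext γ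
  rw [Finset.mem_singleton]
  constructor
  · intro hγ
    exact orb_induction S (p := fun δ => δ = β) β rfl (fun δ hδ => by rw [hδ]; exact h) γ hγ
  · intro hγ
    rw [hγ]
    exact self_mem_orb S β

theorem highest_fixed (α₀ : Root D) (h₀ : IsHighest D α₀) : sroot S α₀ = α₀ := by
  by_contra hne
  have h1 := orb_ht S α₀ _ (sroot_mem_orb S α₀)
  have h2 := (orb_pos S α₀ _ (sroot_mem_orb S α₀)).2 h₀.1
  have h3 := (h₀.2 _ h2 hne).1
  omega

theorem sroot_bijective : Function.Bijective (sroot S) := by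
  haveI := root_finite D
  rw [← Finite.injective_iff_bijective]
  intro β γ h
  apply root_ext D
  have h1 : pv S.σ β.1 = pv S.σ γ.1 := congrArg Subtype.val h
  have h2 := pv_pow_inv S 1 β.1
  have h3 := pv_pow_inv S 1 γ.1
  rw [pow_one] at h2 h3
  rw [← h2, h1, h3]

/-- two roots with the same orbit sum are in the same orbit -/
theorem orb_sum_injective (β γ : Root D)
    (h : ∑ k ∈ Finset.range (orderOf S.σ), pv (S.σ ^ k) β.1 =
      ∑ k ∈ Finset.range (orderOf S.σ), pv (S.σ ^ k) γ.1) : γ ∈ orb S β := by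
  have hpos : 0 < orderOf S.σ := orderOf_pos _
  -- heights
  have hts : ∀ x : Fin l → ℤ, ht (∑ k ∈ Finset.range (orderOf S.σ), pv (S.σ ^ k) x) =
      orderOf S.σ * ht x := by
    intro x
    have h1 : ∀ (s : Finset ℕ) (f : ℕ → Fin l → ℤ), ht (∑ k ∈ s, f k) = ∑ k ∈ s, ht (f k) := by
      intro s f
      classical
      induction s using Finset.induction_on with
      | empty => simp [ht]
      | insert a s ha ih => rw [Finset.sum_insert ha, Finset.sum_insert ha, ht_add, ih]
    rw [h1]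
    simp only [ht_pv]
    rw [Finset.sum_const, Finset.card_range, nsmul_eq_mul]
  have hht : ht β.1 = ht γ.1 := by
    have h1 := congrArg ht h
    rw [hts, hts] at h1
    have h2 : ((orderOf S.σ : ℕ) : ℤ) ≠ 0 := by exact_mod_cast hpos.ne'
    exact mul_left_cancel₀ h2 h1
  -- positivity
  have h2 : 0 < bil D β.1 (∑ k ∈ Finset.range (orderOf S.σ), pv (S.σ ^ k) β.1) := by
    rw [bil_sum_right]
    apply Finset.sum_pos'
    · intro k _
      rcases S.orth k β.1 β.2 with h3 | h3
      · rw [h3, β.2]; norm_num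
      · rw [h3]
    · refine ⟨0, Finset.mem_range.2 hpos, ?_⟩
      rw [pow_zero, pv_one, β.2]; norm_num
  rw [h, bil_sum_right] at h2
  obtain ⟨k, _, hk⟩ := Finset.exists_lt_of_sum_lt
    (s := Finset.range (orderOf S.σ)) (f := fun _ => (0:ℤ))
    (g := fun k => bil D β.1 (pv (S.σ ^ k) γ.1)) (by simpa using h2)
  obtain ⟨δ, hδ⟩ : ∃ δ : Root D, δ.1 = pv (S.σ ^ k) γ.1 :=
    ⟨⟨pv (S.σ ^ k) γ.1, by rw [bil_pv]; exact γ.2⟩, rfl⟩
  have hδγ : δ ∈ orb S γ := by rw [mem_orb]; exact ⟨k, hδ⟩
  simp only [← hδ] at hk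
  have hr := bil_range D β δ
  by_cases h3 : bil D β.1 δ.1 = 2
  · have h4 : β = δ := (bil_eq_two_iff D β δ).1 h3
    rw [← h4] at hδγ
    rw [orb_eq S γ β hδγ]
    exact self_mem_orb S γ
  · exfalso
    have h4 : bil D β.1 δ.1 = 1 := by omega
    have h5 : bil D (β.1 - δ.1) (β.1 - δ.1) = 2 := by
      rw [bil_sub_left, bil_sub_right, bil_sub_right, bil_comm D δ.1 β.1, h4, β.2, δ.2]
      norm_num
    obtain ⟨η, hη⟩ : ∃ η : Root D, η.1 = β.1 - δ.1 := ⟨⟨_, h5⟩, rfl⟩
    have h6 : ht η.1 = 0 := by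
      rw [hη, sub_eq_add_neg, ht_add, ht_neg, hδ, ht_pv, hht]
      ring
    rcases pos_or_neg D η with h7 | h7
    · have := (pos_iff_ht D η).1 h7
      omega
    · have h8 := (pos_iff_ht D (rneg D η)).1 h7
      have h9 : (rneg D η).1 = -η.1 := rfl
      rw [h9, ht_neg] at h8
      omega

theorem XA_add_of_comm_aux1 {R : Type*} [CommRing R] (γ : Root D) (s : R) (L : List (Root D))
    (h : ∀ δ ∈ L, 0 ≤ bil D γ.1 δ.1) (a : Root D → R) :
    Commute (xg D γ s) (L.map fun δ => xg D δ (a δ)).prod := by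
  apply Commute.list_prod_right
  intro z hz
  obtain ⟨δ, hδ, rfl⟩ := List.mem_map.mp hz
  exact xg_commute D γ δ (h δ hδ) s (a δ)

theorem XA_add_of_comm_aux2 {R : Type*} [CommRing R] (L : List (Root D))
    (h : ∀ γ ∈ L, ∀ δ ∈ L, 0 ≤ bil D γ.1 δ.1) (a b : Root D → R) :
    (L.map fun δ => xg D δ ((a + b) δ)).prod =
      (L.map fun δ => xg D δ (a δ)).prod * (L.map fun δ => xg D δ (b δ)).prod := by
  induction L with
  | nil => simp
  | cons γ L ih =>
    have h1 := ih (fun γ hγ δ hδ => h γ (List.mem_cons_of_mem _ hγ) δ (List.mem_cons_of_mem _ hδ))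
    have h2 := XA_add_of_comm_aux1 γ (b γ) L
      (fun δ hδ => h γ List.mem_cons_self δ (List.mem_cons_of_mem _ hδ)) a
    rw [List.map_cons, List.prod_cons, h1, List.map_cons, List.prod_cons, List.map_cons,
      List.prod_cons, Pi.add_apply, xg_add]
    calc xg D γ (a γ) * xg D γ (b γ) *
          ((L.map fun δ => xg D δ (a δ)).prod * (L.map fun δ => xg D δ (b δ)).prod)
        = xg D γ (a γ) * (xg D γ (b γ) * (L.map fun δ => xg D δ (a δ)).prod) *
          (L.map fun δ => xg D δ (b δ)).prod := by simp only [mul_assoc]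
      _ = xg D γ (a γ) * ((L.map fun δ => xg D δ (a δ)).prod * xg D γ (b γ)) *
          (L.map fun δ => xg D δ (b δ)).prod := by rw [h2.eq]
      _ = _ := by simp only [mul_assoc]

/-- products of pairwise commuting root elements -/
theorem XA_add_of_comm {R : Type*} [CommRing R] (P : Finset (Root D))
    (hP : ∀ γ ∈ P, ∀ δ ∈ P, 0 ≤ bil D γ.1 δ.1) (a b : Root D → R) :
    XA D P (a + b) = XA D P a * XA D P b := by
  unfold XA
  exact XA_add_of_comm_aux2 P.toList
    (fun γ hγ δ hδ => hP γ (Finset.mem_toList.mp hγ) δ (Finset.mem_toList.mp hδ)) a b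

/-- independence of the product of the listing -/
theorem XA_eq_list {R : Type*} [CommRing R] (P : Finset (Root D))
    (hP : ∀ γ ∈ P, ∀ δ ∈ P, 0 ≤ bil D γ.1 δ.1) (a : Root D → R) (L : List (Root D))
    (hL : L.Nodup) (hLP : ∀ γ, γ ∈ L ↔ γ ∈ P) :
    XA D P a = (L.map fun γ => xg D γ (a γ)).prod := by
  unfold XA
  have h1 : P.toList.Perm L := by
    rw [List.perm_ext_iff_of_nodup P.nodup_toList hL]
    intro γ
    rw [Finset.mem_toList, hLP]
  refine (h1.map fun γ => xg D γ (a γ)).prod_eq' ?_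
  rw [List.pairwise_map]
  refine List.pairwise_of_forall_mem_list fun γ hγ δ hδ => ?_
  exact xg_commute D γ δ (hP γ (Finset.mem_toList.mp hγ) δ (Finset.mem_toList.mp hδ)) _ _

/-- the root elements of the folded group: products over an orbit -/
noncomputable def yg {R : Type*} [CommRing R] (β : Root D) (t : R) : G D R :=
  XA D (orb S β) (fun _ => t)

theorem yg_add {R : Type*} [CommRing R] (β : Root D) (s t : R) :
    yg S β (s + t) = yg S β s * yg S β t := by
  unfold yg
  refine XA_add_of_comm (orb S β) (fun γ hγ δ hδ => ?_) (fun _ => s) (fun _ => t)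
  rcases orb_orth S β γ δ hγ hδ with h | h
  · rw [h, δ.2]; norm_num
  · rw [h]

theorem yg_zero {R : Type*} [CommRing R] (β : Root D) : yg S β (0 : R) = 1 := by
  unfold yg XA
  simp [xg_zero]

theorem yg_neg {R : Type*} [CommRing R] (β : Root D) (t : R) : yg S β (-t) = (yg S β t)⁻¹ := by
  rw [eq_inv_iff_mul_eq_one, ← yg_add, neg_add_cancel, yg_zero]

theorem yg_congr {R : Type*} [CommRing R] (β γ : Root D) (h : γ ∈ orb S β) (t : R) :
    yg S γ t = yg S β t := by
  unfold yg
  rw [orb_eq S β γ h]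

theorem yg_fixed {R : Type*} [CommRing R] (β : Root D) (h : sroot S β = β) (t : R) :
    yg S β t = xg D β t := by
  unfold yg XA
  rw [orb_fixed S β h]
  simp

theorem Gmap_yg {R R' : Type*} [CommRing R] [CommRing R'] (f : R →+* R') (β : Root D) (t : R) :
    Gmap D f (yg S β t) = yg S β (f t) := by
  unfold yg XA
  rw [map_list_prod, List.map_map]
  congr 1
  refine List.map_congr_left fun γ _ => ?_
  exact Gmap_xg D f γ t

/-- the folded Chevalley group -/
noncomputable def FG (R : Type*) [CommRing R] : Subgroup (G D R) :=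
  Subgroup.closure {g | ∃ (β : Root D) (t : R), g = yg S β t}

theorem yg_mem_FG {R : Type*} [CommRing R] (β : Root D) (t : R) : yg S β t ∈ FG S R :=
  Subgroup.subset_closure ⟨β, t, rfl⟩

theorem Gmap_mem_FG {R R' : Type*} [CommRing R] [CommRing R'] (f : R →+* R') (g : G D R)
    (hg : g ∈ FG S R) : Gmap D f g ∈ FG S R' := by
  unfold FG at hg
  induction hg using Subgroup.closure_induction with
  | mem x hx =>
    obtain ⟨β, t, rfl⟩ := hx
    rw [Gmap_yg]
    exact yg_mem_FG S β (f t)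
  | one => rw [map_one]; exact one_mem _
  | mul x y _ _ hx hy => rw [map_mul]; exact mul_mem hx hy
  | inv x _ hx => rw [map_inv]; exact inv_mem hx

/-- the permutation of the basis induced by the diagram automorphism -/
def si (i : Idx D) : Idx D :=
  match i with
  | Sum.inl i => Sum.inl (S.σ i)
  | Sum.inr β => Sum.inr (sroot S β)

theorem exists_sg_pv_inj (π : Equiv.Perm (Fin l)) (x y : Fin l → ℤ) :
    pv π x = pv π y ↔ x = y := by
  constructor
  · intro h
    funext i
    have := congrFun h (π i)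
    simpa [pv] using this
  · intro h
    rw [h]

theorem exists_sg_bil (x y : Fin l → ℤ) : bil D (pv S.σ x) (pv S.σ y) = bil D x y := by
  have h := bil_pv S 1 x y
  rwa [pow_one] at h

theorem exists_sg_sgn (x y : Fin l → ℤ) : sgn D (pv S.σ x) (pv S.σ y) = sgn D x y := by
  have h := sgn_pv S 1 x y
  rwa [pow_one] at h

theorem exists_sg_E (α : Root D) (i j : Idx D) : E D (sroot S α) (si S i) (si S j) = E D α i j := by
  have hinj := (sroot_bijective S).1
  rcases i with i | β <;> rcases j with j | γ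
  · rfl
  · show (if (sroot S γ).1 = -(sroot S α).1 then - (sroot S α).1 (S.σ i) else 0) =
      if γ.1 = -α.1 then - α.1 i else 0
    have h1 : (sroot S γ).1 = -(sroot S α).1 ↔ γ.1 = -α.1 := by
      show pv S.σ γ.1 = - pv S.σ α.1 ↔ _
      rw [← pv_neg, exists_sg_pv_inj]
    have h2 : (sroot S α).1 (S.σ i) = α.1 i := by
      show α.1 (S.σ⁻¹ (S.σ i)) = α.1 i
      simp
    by_cases h : γ.1 = -α.1
    · rw [if_pos h, if_pos (h1.2 h), h2]
    · rw [if_neg h, if_neg (fun h' => h (h1.1 h'))]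
  · show (if sroot S β = sroot S α then - bil D (sroot S α).1 (Pi.single (S.σ j) 1) else 0) =
      if β = α then - bil D α.1 (Pi.single j 1) else 0
    have h2 : bil D (sroot S α).1 (Pi.single (S.σ j) 1) = bil D α.1 (Pi.single j 1) := by
      rw [← pv_single S.σ j]
      exact exists_sg_bil S _ _
    by_cases h : β = α
    · rw [if_pos h, if_pos (by rw [h]), h2]
    · rw [if_neg h, if_neg (fun h' => h (hinj h'))]
  · show (if (sroot S β).1 = (sroot S α).1 + (sroot S γ).1 then
      sgn D (sroot S α).1 (sroot S γ).1 else 0) =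
      if β.1 = α.1 + γ.1 then sgn D α.1 γ.1 else 0
    have h1 : (sroot S β).1 = (sroot S α).1 + (sroot S γ).1 ↔ β.1 = α.1 + γ.1 := by
      show pv S.σ β.1 = pv S.σ α.1 + pv S.σ γ.1 ↔ _
      rw [← pv_add, exists_sg_pv_inj]
    have h2 : sgn D (sroot S α).1 (sroot S γ).1 = sgn D α.1 γ.1 := exists_sg_sgn S _ _
    by_cases h : β.1 = α.1 + γ.1
    · rw [if_pos h, if_pos (h1.2 h), h2]
    · rw [if_neg h, if_neg (fun h' => h (h1.1 h'))]

theorem exists_sg_F (α : Root D) (i j : Idx D) : F D (sroot S α) (si S i) (si S j) = F D α i j := by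
  have hinj := (sroot_bijective S).1
  rcases i with i | β <;> rcases j with j | γ
  · rfl
  · rfl
  · rfl
  · show (if sroot S β = sroot S α ∧ (sroot S γ).1 = -(sroot S α).1 then (1 : ℤ) else 0) =
      if β = α ∧ γ.1 = -α.1 then 1 else 0
    have h1 : (sroot S γ).1 = -(sroot S α).1 ↔ γ.1 = -α.1 := by
      show pv S.σ γ.1 = - pv S.σ α.1 ↔ _
      rw [← pv_neg, exists_sg_pv_inj]
    by_cases h : β = α ∧ γ.1 = -α.1
    · rw [if_pos h, if_pos ⟨by rw [h.1], h1.2 h.2⟩]
    · rw [if_neg h, if_neg (fun h' => h ⟨hinj h'.1, h1.1 h'.2⟩)]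

/-- the permutation of the basis as an equivalence -/
noncomputable def exists_sg_e : Idx D ≃ Idx D :=
  Equiv.sumCongr S.σ (Equiv.ofBijective (sroot S) (sroot_bijective S))

theorem exists_sg_e_apply (i : Idx D) : exists_sg_e S i = si S i := by
  rcases i with i | β <;> rfl

theorem exists_sg_e_symm (i : Idx D) : (exists_sg_e S).symm (si S i) = i := by
  rw [← exists_sg_e_apply, Equiv.symm_apply_apply]

theorem exists_sg_xM {R : Type*} [CommRing R] (α : Root D) (t : R) (i j : Idx D) :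
    xM D (sroot S α) t (si S i) (si S j) = xM D α t i j := by
  have h1 : (1 : Matrix (Idx D) (Idx D) R) (si S i) (si S j) =
      (1 : Matrix (Idx D) (Idx D) R) i j := by
    rw [Matrix.one_apply, Matrix.one_apply, ← exists_sg_e_apply, ← exists_sg_e_apply]
    by_cases h : i = j
    · rw [if_pos h, if_pos (by rw [h])]
    · rw [if_neg h, if_neg (fun h' => h ((exists_sg_e S).injective h'))]
  unfold xM
  rw [Matrix.add_apply, Matrix.add_apply, Matrix.add_apply, Matrix.add_apply, Matrix.smul_apply,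
    Matrix.smul_apply, Matrix.smul_apply, Matrix.smul_apply, Matrix.map_apply, Matrix.map_apply,
    Matrix.map_apply, Matrix.map_apply, exists_sg_E, exists_sg_F, h1]

/-- reindexing as a monoid homomorphism -/
noncomputable def exists_sg_phi (R : Type*) [CommRing R] :
    Matrix (Idx D) (Idx D) R →* Matrix (Idx D) (Idx D) R where
  toFun A := A.submatrix (exists_sg_e S).symm (exists_sg_e S).symm
  map_one' := Matrix.submatrix_one_equiv _
  map_mul' A B := by rw [Matrix.submatrix_mul_equiv]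

theorem exists_sg_phi_xM {R : Type*} [CommRing R] (α : Root D) (t : R) :
    exists_sg_phi S R (xM D α t) = xM D (sroot S α) t := by
  ext i j
  obtain ⟨i', rfl⟩ := (exists_sg_e S).surjective i
  obtain ⟨j', rfl⟩ := (exists_sg_e S).surjective j
  rw [exists_sg_e_apply, exists_sg_e_apply, exists_sg_xM]
  show xM D α t ((exists_sg_e S).symm (si S i')) ((exists_sg_e S).symm (si S j')) = _
  rw [exists_sg_e_symm, exists_sg_e_symm]

/-- the automorphism of the Chevalley group induced by the diagram automorphism -/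
theorem exists_sg (R : Type*) [CommRing R] : ∃ s : G D R →* G D R,
    (∀ (β : Root D) (t : R), s (xg D β t) = xg D (sroot S β) t) ∧
    ∀ g i j, mat D (s g) (si S i) (si S j) = mat D g i j := by
  have hle : G D R ≤ (G D R).comap (Units.map (exists_sg_phi S R)) := by
    unfold G
    rw [Subgroup.closure_le]
    rintro g ⟨α, t, hg⟩
    apply Subgroup.subset_closure
    refine ⟨sroot S α, t, ?_⟩
    rw [← exists_sg_phi_xM, ← hg]
    rfl
  refine ⟨((Units.map (exists_sg_phi S R)).comp (G D R).subtype).codRestrict (G D R)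
    (fun g => hle g.2), ?_, ?_⟩
  · intro β t
    apply mat_injective D
    rw [mat_xg, ← exists_sg_phi_xM]
    rfl
  · intro g i j
    show mat D g ((exists_sg_e S).symm (si S i)) ((exists_sg_e S).symm (si S j)) = _
    rw [exists_sg_e_symm, exists_sg_e_symm]

/-- the automorphism of the Chevalley group induced by the diagram automorphism -/
noncomputable def sg (R : Type*) [CommRing R] : G D R →* G D R := (exists_sg S R).choose

theorem sg_xg {R : Type*} [CommRing R] (β : Root D) (t : R) :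
    sg S R (xg D β t) = xg D (sroot S β) t := (exists_sg S R).choose_spec.1 β t

theorem mat_sg {R : Type*} [CommRing R] (g : G D R) (i j : Idx D) :
    mat D (sg S R g) (si S i) (si S j) = mat D g i j := (exists_sg S R).choose_spec.2 g i j

theorem sg_yg {R : Type*} [CommRing R] (β : Root D) (t : R) : sg S R (yg S β t) = yg S β t := by
  have hP : ∀ γ ∈ orb S β, ∀ δ ∈ orb S β, 0 ≤ bil D γ.1 δ.1 := by
    intro γ hγ δ hδ
    rcases orb_orth S β γ δ hγ hδ with h | h
    · subst h; rw [root_norm]; norm_num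
    · rw [h]
  have h1 : sg S R (yg S β t) =
      (((orb S β).toList.map (sroot S)).map fun γ => xg D γ t).prod := by
    unfold yg XA
    rw [map_list_prod, List.map_map, List.map_map]
    congr 1
    apply List.map_congr_left
    intro γ _
    exact sg_xg S γ t
  rw [h1]
  unfold yg
  symm
  apply XA_eq_list (P := orb S β) hP (fun _ => t)
  · exact (Finset.nodup_toList _).map (sroot_bijective S).1
  · intro γ
    rw [List.mem_map]
    constructor
    · rintro ⟨δ, hδ, rfl⟩
      rw [Finset.mem_toList] at hδ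
      rw [← orb_eq S β δ hδ]
      exact sroot_mem_orb S δ
    · intro hγ
      obtain ⟨δ, rfl⟩ := (sroot_bijective S).2 γ
      refine ⟨δ, ?_, rfl⟩
      rw [Finset.mem_toList]
      have h2 := orb_eq S β (sroot S δ) hγ
      have h3 := orb_eq S δ (sroot S δ) (sroot_mem_orb S δ)
      rw [← h2, h3]
      exact self_mem_orb S δ

theorem FG_fix {R : Type*} [CommRing R] (g : G D R) (hg : g ∈ FG S R) : sg S R g = g := by
  unfold FG at hg
  induction hg using Subgroup.closure_induction with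
  | mem x hx =>
    obtain ⟨β, t, rfl⟩ := hx
    exact sg_yg S β t
  | one => exact map_one _
  | mul x y _ _ hx hy => rw [map_mul, hx, hy]
  | inv x _ hx => rw [map_inv, hx]

theorem sg_UG {R : Type*} [CommRing R] (g : G D R) (hg : g ∈ UG D R) : sg S R g ∈ UG D R := by
  unfold UG at hg
  induction hg using Subgroup.closure_induction with
  | mem x hx =>
    obtain ⟨β, t, hβ, rfl⟩ := hx
    rw [sg_xg]
    exact Subgroup.subset_closure ⟨sroot S β, t, (pos_pv S.σ β.1).2 hβ, rfl⟩
  | one => rw [map_one]; exact one_mem _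
  | mul x y _ _ hx hy => rw [map_mul]; exact mul_mem hx hy
  | inv x _ hx => rw [map_inv]; exact inv_mem hx

theorem sg_UK {R : Type*} [CommRing R] (k : ℤ) (g : G D R) (hg : g ∈ UK D R k) :
    sg S R g ∈ UK D R k := by
  unfold UK at hg
  induction hg using Subgroup.closure_induction with
  | mem x hx =>
    obtain ⟨β, t, hβ, hk, rfl⟩ := hx
    rw [sg_xg]
    refine Subgroup.subset_closure ⟨sroot S β, t, (pos_pv S.σ β.1).2 hβ, ?_, rfl⟩
    have h : ht (sroot S β).1 = ht β.1 := ht_pv S.σ β.1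
    rw [h]; exact hk
  | one => rw [map_one]; exact one_mem _
  | mul x y _ _ hx hy => rw [map_mul]; exact mul_mem hx hy
  | inv x _ hx => rw [map_inv]; exact inv_mem hx

theorem si_bijective_F1c : Function.Bijective (si S) := by
  constructor
  · rintro (i | β) (j | γ) h
    · have h' : (Sum.inl (S.σ i) : Idx D) = Sum.inl (S.σ j) := h
      rw [Sum.inl.injEq] at h'
      rw [S.σ.injective h']
    · exact absurd (h : (Sum.inl (S.σ i) : Idx D) = Sum.inr (sroot S γ)) Sum.inl_ne_inr
    · exact absurd (h : (Sum.inr (sroot S β) : Idx D) = Sum.inl (S.σ j)) Sum.inr_ne_inl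
    · have h' : (Sum.inr (sroot S β) : Idx D) = Sum.inr (sroot S γ) := h
      rw [Sum.inr.injEq] at h'
      rw [(sroot_bijective S).1 h']
  · rintro (i | β)
    · exact ⟨Sum.inl (S.σ.symm i), by simp [si]⟩
    · obtain ⟨γ, rfl⟩ := (sroot_bijective S).2 β
      exact ⟨Sum.inr γ, rfl⟩

theorem sg_mulVec_F1c {R : Type*} [CommRing R] (g : G D R) (v v' : Idx D → R)
    (h : ∀ i, v' (si S i) = v i) (i : Idx D) :
    (mat D (sg S R g) *ᵥ v') (si S i) = (mat D g *ᵥ v) i := by
  simp only [Matrix.mulVec, dotProduct]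
  rw [← (si_bijective_F1c S).sum_comp]
  refine Finset.sum_congr rfl fun j _ => ?_
  rw [mat_sg, h]

theorem pv_inv_F1c (x : Fin l → ℤ) : pv S.σ (pv S.σ⁻¹ x) = x := by
  rw [← pv_mul, mul_inv_cancel, pv_one]

theorem pv_inj_F1c {x y : Fin l → ℤ} (h : pv S.σ x = pv S.σ y) : x = y := by
  have h2 : pv S.σ⁻¹ (pv S.σ x) = pv S.σ⁻¹ (pv S.σ y) := by rw [h]
  rwa [← pv_mul, ← pv_mul, inv_mul_cancel, pv_one, pv_one] at h2

theorem ev_si_F1c {R : Type*} [CommRing R] (β : Root D) (i : Idx D) :
    ev D R (sroot S β) (si S i) = ev D R β i := by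
  unfold ev
  by_cases h : i = Sum.inr β
  · subst h
    rw [Pi.single_eq_same]
    exact Pi.single_eq_same _ _
  · rw [Pi.single_eq_of_ne h]
    apply Pi.single_eq_of_ne
    intro h2
    exact h ((si_bijective_F1c S).1 (h2.trans (rfl : (Sum.inr (sroot S β) : Idx D) = si S (Sum.inr β))))

theorem hv_si_F1c {R : Type*} [CommRing R] (y : Fin l → ℤ) (i : Idx D) :
    hv D R (pv S.σ y) (si S i) = hv D R y i := by
  rcases i with i | β
  · show ((pv S.σ y (S.σ i) : ℤ) : R) = (y i : R)
    have : pv S.σ y (S.σ i) = y i := by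
      unfold pv
      exact congrArg y (S.σ.symm_apply_apply i)
    rw [this]
  · rfl

theorem sg_mono {R : Type*} [CommRing R] (g : G D R) (w w' : (Fin l → ℤ) ≃+ (Fin l → ℤ))
    (hw' : ∀ x, w' (pv S.σ x) = pv S.σ (w x)) (χ χ' : Root D → R)
    (hχ' : ∀ β, χ' (sroot S β) = χ β) (h : Mono D g w χ) : Mono D (sg S R g) w' χ' := by
  have hb : ∀ x y, bil D (pv S.σ x) (pv S.σ y) = bil D x y := by
    intro x y
    have := bil_pv S 1 x y
    rwa [pow_one] at this
  have hs : ∀ x y, sgn D (pv S.σ x) (pv S.σ y) = sgn D x y := by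
    intro x y
    have := sgn_pv S 1 x y
    rwa [pow_one] at this
  refine ⟨?_, ?_, ?_, ?_, ?_⟩
  · intro x y
    rw [← pv_inv_F1c S x, ← pv_inv_F1c S y, hw', hw', hb, hb, h.isom]
  · intro β β' hβ
    obtain ⟨β0, rfl⟩ := (sroot_bijective S).2 β
    have h1 : β' = sroot S (wr D w h.isom β0) := by
      apply root_ext
      rw [hβ]
      exact hw' β0.1
    subst h1
    have h2 := h.he β0 (wr D w h.isom β0) rfl
    funext j
    obtain ⟨i, rfl⟩ := (si_bijective_F1c S).2 j
    rw [sg_mulVec_F1c S g (ev D R β0) (ev D R (sroot S β0)) (ev_si_F1c S β0), h2, hχ']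
    simp only [Pi.smul_apply, smul_eq_mul]
    rw [ev_si_F1c]
  · intro y
    have hy := pv_inv_F1c S y
    rw [← hy]
    generalize pv S.σ⁻¹ y = y0
    funext j
    obtain ⟨i, rfl⟩ := (si_bijective_F1c S).2 j
    rw [sg_mulVec_F1c S g (hv D R y0) (hv D R (pv S.σ y0)) (hv_si_F1c S y0), h.hh, hw', hv_si_F1c]
  · intro α β γ hγ
    obtain ⟨α0, rfl⟩ := (sroot_bijective S).2 α
    obtain ⟨β0, rfl⟩ := (sroot_bijective S).2 β
    obtain ⟨γ0, rfl⟩ := (sroot_bijective S).2 γ
    have h0 : γ0.1 = α0.1 + β0.1 := by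
      apply pv_inj_F1c S
      rw [pv_add]
      exact hγ
    have h1 := h.hmul α0 β0 γ0 h0
    have ea : (sroot S α0).1 = pv S.σ α0.1 := rfl
    have eb : (sroot S β0).1 = pv S.σ β0.1 := rfl
    rw [ea, eb, hs, hw', hw', hs, hχ', hχ', hχ']
    exact h1
  · intro β
    obtain ⟨β0, rfl⟩ := (sroot_bijective S).2 β
    have h1 : rneg D (sroot S β0) = sroot S (rneg D β0) := by
      apply root_ext
      exact (pv_neg S.σ β0.1).symm
    rw [h1, hχ', hχ']
    exact h.hneg β0

/-- coefficients of unipotent elements of height at least `k` are determined by the matrix -/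
theorem UK_coeff_unique {K : Type*} [Field K] (k : ℤ) (hk : 1 ≤ k) (s s' : Root D → K)
    (u' u'' : G D K) (hu' : u' ∈ UK D K (k + 1)) (hu'' : u'' ∈ UK D K (k + 1))
    (h : ((Finset.univ.filter fun β : Root D => ht β.1 = k).toList.map
        fun β => xg D β (s β)).prod * u' =
      ((Finset.univ.filter fun β : Root D => ht β.1 = k).toList.map
        fun β => xg D β (s' β)).prod * u'') : ∀ β : Root D, ht β.1 = k → s β = s' β := by
  intro b hb
  have hsum : ∀ (t : Root D → K) (i0 : Fin l),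
      ∑ β ∈ Finset.univ.filter (fun β : Root D => ht β.1 = k),
        t β * ((E D β (Sum.inl i0) (Sum.inr (rneg D b)) : ℤ) : K) = - (t b * ((b.1 i0 : ℤ) : K)) := by
    intro t i0
    rw [Finset.sum_eq_single b]
    · have hE : E D b (Sum.inl i0) (Sum.inr (rneg D b)) = - b.1 i0 := by
        exact if_pos (rfl : (rneg D b).1 = -b.1)
      rw [hE]
      push_cast
      ring
    · intro c _ hcb
      have hE : E D c (Sum.inl i0) (Sum.inr (rneg D b)) = 0 := by
        have hn : ¬ (rneg D b).1 = -c.1 := by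
          intro he
          apply hcb
          apply root_ext D
          have he' : -b.1 = -c.1 := he
          exact (neg_injective he').symm
        exact if_neg hn
      rw [hE]
      simp
    · intro hnm
      have hm : b ∈ Finset.univ.filter (fun β : Root D => ht β.1 = k) :=
        Finset.mem_filter.mpr ⟨Finset.mem_univ b, hb⟩
      exact absurd hm hnm
  have key : ∀ i0 : Fin l, s b * ((b.1 i0 : ℤ) : K) = s' b * ((b.1 i0 : ℤ) : K) := by
    intro i0
    have hdeg : deg D (Sum.inl i0) = deg D (Sum.inr (rneg D b)) + k := by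
      change (0 : ℤ) = ht (-b.1) + k
      rw [ht_neg, hb]
      ring
    have h1 := UK_coeff D k hk s u' hu' (Sum.inl i0) (Sum.inr (rneg D b)) hdeg
    have h2 := UK_coeff D k hk s' u'' hu'' (Sum.inl i0) (Sum.inr (rneg D b)) hdeg
    rw [h] at h1
    rw [h1] at h2
    rw [hsum, hsum] at h2
    exact neg_injective h2
  have hex : ∃ i0 : Fin l, ((b.1 i0 : ℤ) : K) ≠ 0 := by
    by_contra hcon
    push Not at hcon
    have hb2 : bil D b.1 b.1 = 2 := b.2
    rw [bil_eq] at hb2
    have heta : eta D b.1 b.1 = 1 := by linarith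
    rw [eta, dotProduct] at heta
    have hcast : ((∑ i, b.1 i * (D.M *ᵥ b.1) i : ℤ) : K) = ((1 : ℤ) : K) := by rw [heta]
    rw [Int.cast_sum, Int.cast_one] at hcast
    have hz : ∑ i, ((b.1 i * (D.M *ᵥ b.1) i : ℤ) : K) = 0 := by
      apply Finset.sum_eq_zero
      intro i _
      rw [Int.cast_mul, hcon i, zero_mul]
    rw [hz] at hcast
    exact zero_ne_one hcast
  obtain ⟨i0, hi0⟩ := hex
  exact mul_right_cancel₀ hi0 (key i0)

theorem fx_mem_UK {R : Type*} [CommRing R] (m : ℤ) (β : Root D) (t : R) (hp : Pos β.1)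
    (h : m ≤ ht β.1) : xg D β t ∈ UK D R m := Subgroup.subset_closure ⟨β, t, hp, h, rfl⟩

theorem fx_mem_UG {R : Type*} [CommRing R] (β : Root D) (t : R) (hp : Pos β.1) :
    xg D β t ∈ UG D R := Subgroup.subset_closure ⟨β, t, hp, rfl⟩

theorem fx_conj_gen {R : Type*} [CommRing R] (m : ℤ) (β : Root D) (t : R) (hβ : Pos β.1)
    (c : G D R) (hc : c ∈ UK D R m) : xg D β t * c * (xg D β t)⁻¹ ∈ UK D R m := by
  refine Subgroup.closure_induction (p := fun c _ => xg D β t * c * (xg D β t)⁻¹ ∈ UK D R m)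
    ?_ ?_ ?_ ?_ hc
  · rintro c ⟨γ, r, hγ, hm, rfl⟩
    rcases lt_or_ge (bil D β.1 γ.1) 0 with h | h
    · have h2 := bil_range D β γ
      have h3 : bil D β.1 γ.1 = -1 ∨ bil D β.1 γ.1 = -2 := by omega
      rcases h3 with h3 | h3
      · have h4 := xg_bracket D β γ (⟨β.1 + γ.1, (add_root_iff D β γ).2 h3⟩ : Root D) rfl t r
        rw [h4, mul_inv_cancel_right]
        refine Subgroup.mul_mem _ (fx_mem_UK m _ _ ?_ ?_) (fx_mem_UK m γ r hγ hm)
        · intro i
          exact add_nonneg (hβ i) (hγ i)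
        · have h5 : 0 ≤ ht β.1 := Finset.sum_nonneg fun i _ => hβ i
          show m ≤ ht (β.1 + γ.1)
          rw [ht_add]
          omega
      · exfalso
        have h4 := (bil_eq_neg_two_iff D β γ).1 h3
        have h5 := (pos_iff_ht D β).1 hβ
        have h6 := (pos_iff_ht D γ).1 hγ
        rw [h4, ht_neg] at h6
        omega
    · rw [xg_commute D β γ h, mul_inv_cancel_right]
      exact fx_mem_UK m γ r hγ hm
  · rw [mul_one, mul_inv_cancel]
    exact Subgroup.one_mem _
  · intro a b _ _ ha hb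
    have : xg D β t * (a * b) * (xg D β t)⁻¹ =
        (xg D β t * a * (xg D β t)⁻¹) * (xg D β t * b * (xg D β t)⁻¹) := by group
    rw [this]
    exact Subgroup.mul_mem _ ha hb
  · intro a _ ha
    have : xg D β t * a⁻¹ * (xg D β t)⁻¹ = (xg D β t * a * (xg D β t)⁻¹)⁻¹ := by group
    rw [this]
    exact Subgroup.inv_mem _ ha

theorem fx_conj {R : Type*} [CommRing R] (m : ℤ) (g : G D R) (hg : g ∈ UG D R) :
    (∀ c ∈ UK D R m, g * c * g⁻¹ ∈ UK D R m) ∧ (∀ c ∈ UK D R m, g⁻¹ * c * g ∈ UK D R m) := by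
  refine Subgroup.closure_induction (p := fun g _ => (∀ c ∈ UK D R m, g * c * g⁻¹ ∈ UK D R m) ∧
    (∀ c ∈ UK D R m, g⁻¹ * c * g ∈ UK D R m)) ?_ ?_ ?_ ?_ hg
  · rintro g ⟨β, t, hβ, rfl⟩
    refine ⟨fun c hc => fx_conj_gen m β t hβ c hc, fun c hc => ?_⟩
    have h := fx_conj_gen m β (-t) hβ c hc
    rw [xg_neg, inv_inv] at h
    exact h
  · exact ⟨fun c hc => by simpa using hc, fun c hc => by simpa using hc⟩
  · intro a b _ _ ha hb
    refine ⟨fun c hc => ?_, fun c hc => ?_⟩
    · have : a * b * c * (a * b)⁻¹ = a * (b * c * b⁻¹) * a⁻¹ := by group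
      rw [this]
      exact ha.1 _ (hb.1 _ hc)
    · have : (a * b)⁻¹ * c * (a * b) = b⁻¹ * (a⁻¹ * c * a) * b := by group
      rw [this]
      exact hb.2 _ (ha.2 _ hc)
  · intro a _ ha
    refine ⟨fun c hc => ?_, fun c hc => ?_⟩
    · rw [inv_inv]; exact ha.2 c hc
    · rw [inv_inv]; exact ha.1 c hc

theorem fx_comm {R : Type*} [CommRing R] (k : ℤ) (hk : 1 ≤ k) (β γ : Root D) (hβ : ht β.1 = k)
    (hγ : ht γ.1 = k) (s t : R) : ∃ c ∈ UK D R (k + 1),
      xg D β s * xg D γ t = c * (xg D γ t * xg D β s) := by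
  have pβ : Pos β.1 := (pos_iff_ht D β).2 (by omega)
  have pγ : Pos γ.1 := (pos_iff_ht D γ).2 (by omega)
  rcases lt_or_ge (bil D β.1 γ.1) 0 with h | h
  · have h2 := bil_range D β γ
    have h3 : bil D β.1 γ.1 = -1 ∨ bil D β.1 γ.1 = -2 := by omega
    rcases h3 with h3 | h3
    · have h4 := xg_bracket D β γ (⟨β.1 + γ.1, (add_root_iff D β γ).2 h3⟩ : Root D) rfl s t
      refine ⟨_, ?_, by rw [h4, mul_assoc]⟩
      refine fx_mem_UK _ _ _ ?_ ?_
      · intro i
        exact add_nonneg (pβ i) (pγ i)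
      · show k + 1 ≤ ht (β.1 + γ.1)
        rw [ht_add]
        omega
    · exfalso
      have h4 := (bil_eq_neg_two_iff D β γ).1 h3
      rw [h4, ht_neg] at hγ
      omega
  · exact ⟨1, Subgroup.one_mem _, by rw [one_mul, xg_commute D β γ h]⟩

theorem fx_list_mem_UG {R : Type*} [CommRing R] (k : ℤ) (hk : 1 ≤ k) (L : List (Root D))
    (hL : ∀ γ ∈ L, ht γ.1 = k) (s : Root D → R) :
    (L.map fun γ => xg D γ (s γ)).prod ∈ UG D R := by
  apply Subgroup.list_prod_mem
  intro x hx
  rw [List.mem_map] at hx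
  obtain ⟨γ, hγ, rfl⟩ := hx
  exact fx_mem_UG γ _ ((pos_iff_ht D γ).2 (by rw [hL γ hγ]; omega))

theorem fx_insert {R : Type*} [CommRing R] (k : ℤ) (hk : 1 ≤ k) (β : Root D) (t : R)
    (s : Root D → R) (L : List (Root D)) (hL : ∀ γ ∈ L, ht γ.1 = k) (hnd : L.Nodup) (hβ : β ∈ L) :
    ∃ v ∈ UK D R (k + 1), xg D β t * (L.map fun γ => xg D γ (s γ)).prod =
      (L.map fun γ => xg D γ ((s + Pi.single β t : Root D → R) γ)).prod * v := by
  induction L with
  | nil => simp at hβ
  | cons γ L ih =>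
    rw [List.nodup_cons] at hnd
    simp only [List.map_cons, List.prod_cons]
    by_cases hγβ : γ = β
    · subst hγβ
      refine ⟨1, Subgroup.one_mem _, ?_⟩
      rw [mul_one, ← mul_assoc, ← xg_add]
      congr 1
      · congr 1
        simp only [Pi.add_apply, Pi.single_eq_same]
        ring
      · congr 1
        apply List.map_congr_left
        intro δ hδ
        have : δ ≠ γ := fun h => hnd.1 (h ▸ hδ)
        simp only [Pi.add_apply, Pi.single_eq_of_ne this, add_zero]
    · have hβL : β ∈ L := by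
        rcases List.mem_cons.1 hβ with h | h
        · exact absurd h.symm hγβ
        · exact h
      have hL' : ∀ γ ∈ L, ht γ.1 = k := fun δ hδ => hL δ (List.mem_cons_of_mem _ hδ)
      obtain ⟨v, hv, hv2⟩ := ih hL' hnd.2 hβL
      obtain ⟨c, hc, hc2⟩ := fx_comm k hk β γ (hL β hβ) (hL γ List.mem_cons_self) t (s γ)
      have e1 : (s + Pi.single β t : Root D → R) γ = s γ := by
        simp only [Pi.add_apply, Pi.single_eq_of_ne hγβ, add_zero]
      rw [e1, ← mul_assoc, hc2]
      have hg : xg D γ (s γ) * (L.map fun γ => xg D γ ((s + Pi.single β t : Root D → R) γ)).prod ∈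
          UG D R := Subgroup.mul_mem _
        (fx_mem_UG γ _ ((pos_iff_ht D γ).2 (by rw [hL γ List.mem_cons_self]; omega)))
        (fx_list_mem_UG k hk L hL' _)
      obtain ⟨g, hg'⟩ : ∃ g, g = xg D γ (s γ) *
        (L.map fun γ => xg D γ ((s + Pi.single β t : Root D → R) γ)).prod := ⟨_, rfl⟩
      rw [← hg'] at hg
      refine ⟨g⁻¹ * c * g * v, Subgroup.mul_mem _ ((fx_conj (k + 1) g hg).2 c hc) hv, ?_⟩
      have e2 : c * (xg D γ (s γ) * xg D β t) * (L.map fun γ => xg D γ (s γ)).prod =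
          c * (xg D γ (s γ) * (xg D β t * (L.map fun γ => xg D γ (s γ)).prod)) := by group
      rw [e2, hv2]
      have e3 : c * (xg D γ (s γ) *
          ((L.map fun γ => xg D γ ((s + Pi.single β t : Root D → R) γ)).prod * v)) = c * g * v := by
        rw [hg']; group
      rw [e3, ← hg']
      group

/-- height `k` roots -/
noncomputable def fxH (D : SLCartan l) (k : ℤ) : Finset (Root D) :=
  Finset.univ.filter fun β : Root D => ht β.1 = k

theorem fx_mem_H (k : ℤ) (β : Root D) : β ∈ fxH D k ↔ ht β.1 = k := by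
  simp [fxH]

/-- total coefficients of a list -/
def fxtot {R : Type*} [CommRing R] (M : List (Root D × R)) (β : Root D) : R :=
  (M.map fun p => if p.1 = β then p.2 else 0).sum

theorem fx_list {R : Type*} [CommRing R] (k : ℤ) (hk : 1 ≤ k) (M : List (Root D × R))
    (hM : ∀ p ∈ M, ht p.1.1 = k) :
    ∃ v ∈ UK D R (k + 1), (M.map fun p => xg D p.1 p.2).prod = XA D (fxH D k) (fxtot M) * v := by
  induction M with
  | nil =>
    refine ⟨1, Subgroup.one_mem _, ?_⟩
    have h0 : ∀ L : List (Root D), (L.map fun γ => xg D γ (fxtot ([] : List (Root D × R)) γ)).prod =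
        1 := by
      intro L
      induction L with
      | nil => simp
      | cons a L ih =>
        rw [List.map_cons, List.prod_cons, ih]
        simp [fxtot, xg_zero]
    unfold XA
    rw [h0]
    simp
  | cons p M ih =>
    obtain ⟨v, hv, hv2⟩ := ih (fun q hq => hM q (List.mem_cons_of_mem _ hq))
    have hp := hM p List.mem_cons_self
    obtain ⟨w, hw, hw2⟩ := fx_insert k hk p.1 p.2 (fxtot M) (fxH D k).toList
      (fun γ hγ => (fx_mem_H k γ).1 (Finset.mem_toList.1 hγ)) (Finset.nodup_toList _)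
      (Finset.mem_toList.2 ((fx_mem_H k _).2 hp))
    refine ⟨w * v, Subgroup.mul_mem _ hw hv, ?_⟩
    rw [List.map_cons, List.prod_cons, hv2]
    have e : (fxtot M + Pi.single p.1 p.2 : Root D → R) = fxtot (p :: M) := by
      funext β
      simp only [Pi.add_apply, fxtot, List.map_cons, List.sum_cons]
      by_cases h : p.1 = β
      · subst h
        simp [add_comm]
      · rw [Pi.single_eq_of_ne (Ne.symm h), if_neg h]
        ring
    rw [e] at hw2
    unfold XA
    rw [← mul_assoc, hw2, mul_assoc]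

theorem fx_ht_sroot (β : Root D) : ht (sroot S β).1 = ht β.1 := ht_pv S.σ β.1

theorem fx_tot_map {R : Type*} [CommRing R] (P : Finset (Root D)) (f : Root D → Root D)
    (c : Root D → R) (β : Root D) :
    fxtot (P.toList.map fun γ => (f γ, c γ)) β = ∑ γ ∈ P, if f γ = β then c γ else 0 := by
  unfold fxtot
  rw [List.map_map]
  exact Finset.sum_map_toList P _

theorem fx_tot_append {R : Type*} [CommRing R] (M M' : List (Root D × R)) (β : Root D) :
    fxtot (M ++ M') β = fxtot M β + fxtot M' β := by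
  unfold fxtot
  rw [List.map_append, List.sum_append]

/-- the list of pairs of a product of folded root elements -/
noncomputable def fxfl {R : Type*} (s : Root D → R) (L : List (Root D)) : List (Root D × R) :=
  L.flatMap fun β => (orb S β).toList.map fun γ => (γ, s β)

theorem fx_fl_prod {R : Type*} [CommRing R] (s : Root D → R) (L : List (Root D)) :
    ((fxfl S s L).map fun p => xg D p.1 p.2).prod = (L.map fun β => yg S β (s β)).prod := by
  induction L with
  | nil => rfl
  | cons β L ih =>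
    have e : fxfl S s (β :: L) = ((orb S β).toList.map fun γ => (γ, s β)) ++ fxfl S s L := rfl
    rw [e, List.map_append, List.prod_append, ih, List.map_cons, List.prod_cons, List.map_map]
    rfl

theorem fx_fl_tot {R : Type*} [CommRing R] (s : Root D → R) (β : Root D) (L : List (Root D))
    (γ : Root D) : fxtot (fxfl S s (β :: L)) γ =
      (if γ ∈ orb S β then s β else 0) + fxtot (fxfl S s L) γ := by
  have e : fxfl S s (β :: L) = ((orb S β).toList.map fun γ => (γ, s β)) ++ fxfl S s L := rfl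
  rw [e, fx_tot_append]
  congr 1
  have := fx_tot_map (orb S β) (fun γ => γ) (fun _ => s β) γ
  rw [this, Finset.sum_ite_eq' (orb S β) γ (fun _ => s β)]

theorem fx_reps {R : Type*} [CommRing R] (k : ℤ) (s : Root D → R)
    (hs : ∀ β, s (sroot S β) = s β) (n : ℕ) :
    ∀ T : Finset (Root D), T.card ≤ n → (∀ β ∈ T, ht β.1 = k) → (∀ β ∈ T, orb S β ⊆ T) →
      ∃ L : List (Root D), (∀ β ∈ L, ht β.1 = k ∧ s β ≠ 0) ∧
        ∀ γ, fxtot (fxfl S s L) γ = if γ ∈ T then s γ else 0 := by
  have hso : ∀ β, ∀ γ ∈ orb S β, s γ = s β := by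
    intro β
    exact orb_induction S (p := fun γ => s γ = s β) β rfl (fun γ h => by rw [hs, h])
  induction n with
  | zero =>
    intro T hT _ _
    have : T = ∅ := Finset.card_eq_zero.1 (by omega)
    subst this
    exact ⟨[], by simp, by simp [fxfl, fxtot]⟩
  | succ n ih =>
    intro T hT hk ho
    rcases T.eq_empty_or_nonempty with h | ⟨β, hβ⟩
    · subst h
      exact ⟨[], by simp, by simp [fxfl, fxtot]⟩
    · have hself := self_mem_orb S β
      obtain ⟨L, hL1, hL2⟩ := ih (T \ orb S β) (by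
          have h1 : (T \ orb S β).card < T.card := by
            apply Finset.card_lt_card
            rw [Finset.ssubset_iff_subset_ne]
            refine ⟨Finset.sdiff_subset, fun h => ?_⟩
            rw [← h, Finset.mem_sdiff] at hβ
            exact hβ.2 hself
          omega)
        (fun γ hγ => hk γ (Finset.mem_sdiff.1 hγ).1)
        (fun γ hγ δ hδ => by
          rw [Finset.mem_sdiff] at hγ ⊢
          refine ⟨ho γ hγ.1 hδ, fun hδ2 => hγ.2 ?_⟩
          have e1 := orb_eq S γ δ hδ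
          have e2 := orb_eq S β δ hδ2
          rw [← e2, e1]
          exact self_mem_orb S γ)
      by_cases h0 : s β = 0
      · refine ⟨L, hL1, fun γ => ?_⟩
        rw [hL2 γ]
        by_cases hγT : γ ∈ T
        · by_cases hγo : γ ∈ orb S β
          · rw [if_neg (fun h => (Finset.mem_sdiff.1 h).2 hγo), if_pos hγT, hso β γ hγo, h0]
          · rw [if_pos (Finset.mem_sdiff.2 ⟨hγT, hγo⟩), if_pos hγT]
        · rw [if_neg (fun h => hγT (Finset.mem_sdiff.1 h).1), if_neg hγT]
      · refine ⟨β :: L, ?_, fun γ => ?_⟩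
        · intro δ hδ
          rcases List.mem_cons.1 hδ with h | h
          · subst h
            exact ⟨hk _ hβ, h0⟩
          · exact hL1 δ h
        · rw [fx_fl_tot, hL2 γ]
          by_cases hγT : γ ∈ T
          · by_cases hγo : γ ∈ orb S β
            · rw [if_pos hγo, if_neg (fun h => (Finset.mem_sdiff.1 h).2 hγo), if_pos hγT,
                hso β γ hγo, add_zero]
            · rw [if_neg hγo, if_pos (Finset.mem_sdiff.2 ⟨hγT, hγo⟩), if_pos hγT, zero_add]
          · have hγo : γ ∉ orb S β := fun h => hγT (ho β hβ h)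
            rw [if_neg hγo, if_neg (fun h => hγT (Finset.mem_sdiff.1 h).1), if_neg hγT, zero_add]

/-- fixed unipotent elements of height at least `k`: the leading part is a product of root
elements of the folded group -/
theorem UK_fix_decomp {K : Type*} [Field K] (k : ℤ) (hk : 1 ≤ k) (u : G D K) (hu : u ∈ UK D K k)
    (hfix : sg S K u = u) : ∃ (s : Root D → K) (L : List (Root D)) (u' : G D K),
      u' ∈ UK D K (k + 1) ∧ sg S K u' = u' ∧ (∀ β, s (sroot S β) = s β) ∧
      (∀ β ∈ L, ht β.1 = k ∧ s β ≠ 0) ∧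
      u = (L.map fun β => yg S β (s β)).prod * u' ∧
      ∀ i j : Idx D, deg D i = deg D j + k → mat D u i j =
        ∑ β ∈ Finset.univ.filter (fun β : Root D => ht β.1 = k), s β * ((E D β i j : ℤ) : K) := by
  obtain ⟨s1, u1, hu1, hu⟩ := UK_decomp D k hk u hu
  have huX : u = XA D (fxH D k) s1 * u1 := hu
  have hinj := (sroot_bijective S).1
  -- invariance of the coefficients
  have hinv : ∀ β : Root D, ht β.1 = k → s1 (sroot S β) = s1 β := by
    obtain ⟨v, hv, hv2⟩ := fx_list k hk ((fxH D k).toList.map fun γ => (sroot S γ, s1 γ)) (by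
      intro p hp
      rw [List.mem_map] at hp
      obtain ⟨γ, hγ, rfl⟩ := hp
      show ht (sroot S γ).1 = k
      rw [fx_ht_sroot]
      exact (fx_mem_H k γ).1 (Finset.mem_toList.1 hγ))
    have h1 : sg S K (XA D (fxH D k) s1) =
        (((fxH D k).toList.map fun γ => (sroot S γ, s1 γ)).map fun p => xg D p.1 p.2).prod := by
      unfold XA
      rw [map_list_prod, List.map_map, List.map_map]
      congr 1
      apply List.map_congr_left
      intro γ _
      exact sg_xg S γ (s1 γ)
    have h2 : XA D (fxH D k) s1 * u1 =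
        XA D (fxH D k) (fxtot ((fxH D k).toList.map fun γ => (sroot S γ, s1 γ))) *
          (v * sg S K u1) := by
      rw [← mul_assoc, ← hv2, ← h1, ← map_mul, ← huX, hfix]
    have h3 := UK_coeff_unique (D := D) k hk s1 _ u1 (v * sg S K u1) hu1
      (Subgroup.mul_mem _ hv (sg_UK S (k + 1) u1 hu1)) h2
    intro β hβ
    rw [h3 (sroot S β) (by rw [fx_ht_sroot]; exact hβ), fx_tot_map]
    rw [Finset.sum_eq_single β]
    · simp
    · intro γ _ hne
      rw [if_neg (fun h => hne (hinj h))]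
    · intro h
      exact absurd ((fx_mem_H k β).2 hβ) h
  obtain ⟨s, hs⟩ : ∃ s : Root D → K, s = fun β => if ht β.1 = k then s1 β else 0 := ⟨_, rfl⟩
  have hs1 : ∀ β : Root D, ht β.1 = k → s β = s1 β := fun β h => by rw [hs]; simp [h]
  have hsinv : ∀ β, s (sroot S β) = s β := by
    intro β
    rw [hs]
    simp only [fx_ht_sroot]
    by_cases h : ht β.1 = k
    · rw [if_pos h, if_pos h, hinv β h]
    · rw [if_neg h, if_neg h]
  obtain ⟨L, hL1, hL2⟩ := fx_reps S k s hsinv (fxH D k).card (fxH D k) le_rfl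
    (fun β hβ => (fx_mem_H k β).1 hβ) (fun β hβ γ hγ => by
      rw [fx_mem_H] at hβ ⊢
      rw [orb_ht S β γ hγ, hβ])
  obtain ⟨v, hv, hv2⟩ := fx_list k hk (fxfl S s L) (by
    intro p hp
    unfold fxfl at hp
    rw [List.mem_flatMap] at hp
    obtain ⟨β, hβ, hp⟩ := hp
    rw [List.mem_map] at hp
    obtain ⟨γ, hγ, rfl⟩ := hp
    show ht γ.1 = k
    rw [orb_ht S β γ (Finset.mem_toList.1 hγ)]
    exact (hL1 β hβ).1)
  rw [fx_fl_prod] at hv2
  have e1 : XA D (fxH D k) (fxtot (fxfl S s L)) = XA D (fxH D k) s1 := by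
    apply XA_congr
    intro γ hγ
    rw [hL2, if_pos hγ, hs1 γ ((fx_mem_H k γ).1 hγ)]
  rw [e1] at hv2
  have hu' : (L.map fun β => yg S β (s β)).prod⁻¹ * u = v⁻¹ * u1 := by
    rw [hv2, huX]
    group
  have hfixL : sg S K (L.map fun β => yg S β (s β)).prod = (L.map fun β => yg S β (s β)).prod := by
    rw [map_list_prod, List.map_map]
    congr 1
    apply List.map_congr_left
    intro β _
    exact sg_yg S β (s β)
  refine ⟨s, L, (L.map fun β => yg S β (s β)).prod⁻¹ * u, ?_, ?_, hsinv, hL1, ?_, ?_⟩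
  · rw [hu']
    exact Subgroup.mul_mem _ (Subgroup.inv_mem _ hv) hu1
  · rw [map_mul, map_inv, hfixL, hfix]
  · rw [mul_inv_cancel_left]
  · intro i j hij
    rw [hu, UK_coeff D k hk s1 u1 hu1 i j hij]
    apply Finset.sum_congr rfl
    intro β hβ
    rw [hs1 β (Finset.mem_filter.1 hβ).2]

theorem mem_FG_of_unip_aux {K : Type*} [Field K] (H : ℤ) (hH : ∀ β : Root D, ht β.1 ≤ H) (n : ℕ) :
    ∀ k : ℤ, 1 ≤ k → H + 1 - n ≤ k → ∀ u : G D K, u ∈ UK D K k → sg S K u = u → u ∈ FG S K := by
  induction n with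
  | zero =>
    intro k hk hkH u hu _
    have h : UK D K k ≤ ⊥ := by
      unfold UK
      rw [Subgroup.closure_le]
      rintro g ⟨β, t, _, hβ, _⟩
      have := hH β
      simp only [Nat.cast_zero, sub_zero] at hkH
      omega
    have h1 : u = 1 := Subgroup.mem_bot.mp (h hu)
    rw [h1]
    exact one_mem _
  | succ n ih =>
    intro k hk hkH u hu hfix
    obtain ⟨s, L, u', hu', hfix', _, _, hprod, _⟩ := UK_fix_decomp S k hk u hu hfix
    have h1 : u' ∈ FG S K := ih (k + 1) (by omega) (by push_cast at hkH; omega) u' hu' hfix'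
    rw [hprod]
    refine mul_mem (Subgroup.list_prod_mem _ ?_) h1
    intro g hg
    rw [List.mem_map] at hg
    obtain ⟨β, _, rfl⟩ := hg
    exact yg_mem_FG S β _

theorem mem_FG_of_unip {K : Type*} [Field K] (u : G D K) (hu : u ∈ UG D K)
    (hfix : sg S K u = u) : u ∈ FG S K := by
  obtain ⟨H, hH⟩ : ∃ H : ℤ, ∀ β : Root D, ht β.1 ≤ H := by
    obtain ⟨H, hH⟩ := (Set.finite_range (fun β : Root D => ht β.1)).bddAbove
    exact ⟨H, fun β => hH ⟨β, rfl⟩⟩
  have hUG : UG D K ≤ UK D K 1 := by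
    unfold UG
    rw [Subgroup.closure_le]
    rintro g ⟨β, t, hβ, rfl⟩
    exact Subgroup.subset_closure ⟨β, t, hβ, (pos_iff_ht D β).mp hβ, rfl⟩
  exact mem_FG_of_unip_aux S H hH H.toNat 1 le_rfl (by omega) u (hUG hu) hfix

/-- elements of the Weyl group -/
inductive IsWeyl (D : SLCartan l) : ((Fin l → ℤ) ≃+ (Fin l → ℤ)) → Prop
  | one : IsWeyl D (AddEquiv.refl _)
  | step (w : (Fin l → ℤ) ≃+ (Fin l → ℤ)) (α : Root D) : IsWeyl D w →
      IsWeyl D ((refl D α).trans w)

theorem IsWeyl.trans (w w' : (Fin l → ℤ) ≃+ (Fin l → ℤ)) (h : IsWeyl D w) (h' : IsWeyl D w') :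
    IsWeyl D (w'.trans w) := by
  induction h' with
  | one => exact h
  | step w'' α _ ih => exact IsWeyl.step (w''.trans w) α ih

theorem refl_apply (α : Root D) (y : Fin l → ℤ) : refl D α y = y - bil D α.1 y • α.1 := rfl

theorem refl_isom (α : Root D) (x y : Fin l → ℤ) :
    bil D (refl D α x) (refl D α y) = bil D x y := by
  rw [refl_apply, refl_apply, bil_sub_left, bil_sub_right, bil_sub_right, bil_smul_left,
    bil_smul_right, bil_smul_left, bil_smul_right, α.2, bil_comm D x α.1]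
  ring

theorem IsWeyl.isom (w : (Fin l → ℤ) ≃+ (Fin l → ℤ)) (h : IsWeyl D w) (x y : Fin l → ℤ) :
    bil D (w x) (w y) = bil D x y := by
  induction h generalizing x y with
  | one => rfl
  | step w α _ ih =>
    change bil D (w (refl D α x)) (w (refl D α y)) = bil D x y
    rw [ih, refl_isom]

/-- action of a word of simple reflections -/
def act (D : SLCartan l) : List (Fin l) → (Fin l → ℤ) → (Fin l → ℤ)
  | [], x => x
  | i :: L, x => refl D (sr D i) (act D L x)

theorem act_append (L L' : List (Fin l)) (x : Fin l → ℤ) :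
    act D (L ++ L') x = act D L (act D L' x) := by
  induction L with
  | nil => rfl
  | cons i L ih =>
    rw [List.cons_append]
    change refl D (sr D i) (act D (L ++ L') x) = refl D (sr D i) (act D L (act D L' x))
    rw [ih]

theorem act_isom (L : List (Fin l)) (x y : Fin l → ℤ) :
    bil D (act D L x) (act D L y) = bil D x y := by
  induction L with
  | nil => rfl
  | cons i L ih =>
    change bil D (refl D (sr D i) (act D L x)) (refl D (sr D i) (act D L y)) = _
    rw [refl_isom, ih]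

theorem act_sub (L : List (Fin l)) (x y : Fin l → ℤ) :
    act D L (x - y) = act D L x - act D L y := by
  induction L with
  | nil => rfl
  | cons i L ih =>
    change refl D (sr D i) (act D L (x - y)) =
      refl D (sr D i) (act D L x) - refl D (sr D i) (act D L y)
    rw [ih, map_sub]

theorem act_neg (L : List (Fin l)) (x : Fin l → ℤ) :
    act D L (-x) = - act D L x := by
  induction L with
  | nil => rfl
  | cons i L ih =>
    change refl D (sr D i) (act D L (-x)) = - refl D (sr D i) (act D L x)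
    rw [ih, map_neg]

theorem act_zsmul (L : List (Fin l)) (c : ℤ) (x : Fin l → ℤ) :
    act D L (c • x) = c • act D L x := by
  induction L with
  | nil => rfl
  | cons i L ih =>
    change refl D (sr D i) (act D L (c • x)) = c • refl D (sr D i) (act D L x)
    rw [ih, map_zsmul]

theorem refl_refl' (α : Root D) (x : Fin l → ℤ) : refl D α (refl D α x) = x :=
  (refl D α).left_inv x

theorem not_pos_neg (α : Root D) (h : Pos α.1) (h' : Pos (-α.1)) : False := by
  have h0 : α.1 = 0 := by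
    funext i
    have h1 := h i
    have h2 := h' i
    simp only [Pi.neg_apply] at h2
    simp only [Pi.zero_apply]
    omega
  have h1 := α.2
  rw [h0, bil_zero_left] at h1
  norm_num at h1

/-- a simple reflection makes only its own simple root negative -/
theorem simple_neg (j : Fin l) (γ : Root D) (hγ : Pos γ.1)
    (hneg : Pos (-(refl D (sr D j) γ.1))) : γ = sr D j := by
  by_contra hne
  have hr := bil_range D (sr D j) γ
  have h2 : bil D (sr D j).1 γ.1 ≠ 2 := fun h => hne ((bil_eq_two_iff D (sr D j) γ).1 h).symm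
  have hm2 : bil D (sr D j).1 γ.1 ≠ -2 := by
    intro h
    have h3 := (bil_eq_neg_two_iff D (sr D j) γ).1 h
    apply not_pos_neg γ hγ
    rw [h3, neg_neg]
    exact pos_simple D j
  have hroot : bil D (refl D (sr D j) γ.1) (refl D (sr D j) γ.1) = 2 := by
    rw [refl_isom]; exact γ.2
  have hpos : Pos (refl D (sr D j) γ.1) := by
    rw [refl_apply]
    have h3 : bil D (sr D j).1 γ.1 = -1 ∨ bil D (sr D j).1 γ.1 = 0 ∨
      bil D (sr D j).1 γ.1 = 1 := by omega
    rcases h3 with h3 | h3 | h3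
    · intro k
      have h4 := hγ k
      have h5 := pos_simple D j k
      rw [h3]
      simp only [Pi.sub_apply, Pi.smul_apply, smul_eq_mul]
      linarith
    · rw [h3, zero_smul, sub_zero]
      exact hγ
    · have h4 : refl D (sr D j) γ.1 = γ.1 - (sr D j).1 := by
        rw [refl_apply, h3, one_smul]
      rw [h3, one_smul]
      rw [h4] at hroot
      exact (pos_sub_simple D γ ⟨γ.1 - (sr D j).1, hroot⟩ j hγ hne rfl).1
  exact not_pos_neg ⟨refl D (sr D j) γ.1, hroot⟩ hpos hneg

theorem conj_refl (L : List (Fin l)) (α β : Root D) (h : act D L α.1 = β.1) (x : Fin l → ℤ) :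
    act D L (refl D α x) = refl D β (act D L x) := by
  rw [refl_apply, refl_apply, act_sub, act_zsmul, h, ← h, act_isom]

theorem exchange (i : Fin l) (L : List (Fin l)) (h : Pos (-(act D L (sr D i).1))) :
    ∃ L' : List (Fin l), L'.length + 1 = L.length ∧
      ∀ x, act D L (refl D (sr D i) x) = act D L' x := by
  induction L with
  | nil => exact (not_pos_neg (sr D i) (pos_simple D i) h).elim
  | cons j L ih =>
    have hroot : bil D (act D L (sr D i).1) (act D L (sr D i).1) = 2 := by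
      rw [act_isom]; exact (sr D i).2
    rcases pos_or_neg D ⟨act D L (sr D i).1, hroot⟩ with hp | hn
    · have h1 := simple_neg j ⟨act D L (sr D i).1, hroot⟩ hp h
      have h2 : act D L (sr D i).1 = (sr D j).1 := congrArg Subtype.val h1
      refine ⟨L, rfl, fun x => ?_⟩
      change refl D (sr D j) (act D L (refl D (sr D i) x)) = act D L x
      rw [conj_refl L (sr D i) (sr D j) h2, refl_refl']
    · obtain ⟨L', hl, hL'⟩ := ih hn
      refine ⟨j :: L', by simp [hl], fun x => ?_⟩
      change refl D (sr D j) (act D L (refl D (sr D i) x)) = refl D (sr D j) (act D L' x)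
      rw [hL']

theorem act_pos_trivial (n : ℕ) : ∀ L : List (Fin l), L.length = n →
    (∀ β : Root D, Pos β.1 → Pos (act D L β.1)) → ∀ x, act D L x = x := by
  induction n using Nat.strong_induction_on with
  | _ n ih =>
    intro L hL hpos x
    rcases List.eq_nil_or_concat L with h | ⟨L1, i, h⟩
    · rw [h]; rfl
    · rw [List.concat_eq_append] at h
      have hact : ∀ x, act D L x = act D L1 (refl D (sr D i) x) := by
        intro x
        rw [h, act_append]
        rfl
      have h1 := hpos (sr D i) (pos_simple D i)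
      rw [hact] at h1
      have h2 : refl D (sr D i) (sr D i).1 = -(sr D i).1 := by
        rw [refl_apply, (sr D i).2]
        funext k
        simp only [Pi.sub_apply, Pi.smul_apply, smul_eq_mul, Pi.neg_apply]
        ring
      rw [h2, act_neg] at h1
      obtain ⟨L', hl', hL'⟩ := exchange i L1 h1
      have h3 : ∀ x, act D L x = act D L' x := fun x => by rw [hact, hL']
      have hlen : L.length = L1.length + 1 := by rw [h]; simp
      rw [h3]
      apply ih L'.length (by omega) L' rfl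
      intro β hβ
      rw [← h3]
      exact hpos β hβ

theorem refl_word_pos (n : ℕ) : ∀ β : Root D, Pos β.1 → (ht β.1).toNat = n →
    ∃ L : List (Fin l), ∀ x, refl D β x = act D L x := by
  induction n using Nat.strong_induction_on with
  | _ n ih =>
    intro β hβ hn
    by_cases hs : ∃ i, β = sr D i
    · obtain ⟨i, rfl⟩ := hs
      exact ⟨[i], fun x => rfl⟩
    · push Not at hs
      obtain ⟨i, γ, hγ, hγp, hb⟩ := exists_simple_sub D β hβ hs
      have hhγ := (pos_iff_ht D γ).1 hγp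
      have hht : ht β.1 = ht γ.1 + 1 := by
        have : β.1 = γ.1 + (sr D i).1 := by rw [hγ]; abel
        rw [this, ht_add]
        congr 1
        exact ht_single i
      obtain ⟨L, hL⟩ := ih (ht γ.1).toNat (by omega) γ hγp rfl
      refine ⟨i :: (L ++ [i]), fun x => ?_⟩
      change refl D β x = refl D (sr D i) (act D (L ++ [i]) x)
      rw [act_append, ← hL]
      change refl D β x = refl D (sr D i) (refl D γ (refl D (sr D i) x))
      have e1 : refl D (sr D i) γ.1 = β.1 := by
        rw [refl_apply, hb, hγ]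
        funext k
        simp only [Pi.sub_apply, Pi.smul_apply, smul_eq_mul]
        ring
      have e2 : bil D γ.1 (refl D (sr D i) x) = bil D β.1 x := by
        rw [← refl_isom (sr D i) γ.1, refl_refl', e1]
      rw [refl_apply γ, e2, map_sub, map_zsmul, e1, refl_refl', refl_apply]

theorem refl_word (β : Root D) : ∃ L : List (Fin l), ∀ x, refl D β x = act D L x := by
  rcases pos_or_neg D β with h | h
  · exact refl_word_pos _ β h rfl
  · obtain ⟨L, hL⟩ := refl_word_pos _ (rneg D β) h rfl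
    refine ⟨L, fun x => ?_⟩
    rw [← hL, refl_apply, refl_apply]
    change _ = x - bil D (-β.1) x • (-β.1)
    rw [bil_neg_left, neg_smul_neg]

theorem weyl_word (w : (Fin l → ℤ) ≃+ (Fin l → ℤ)) (h : IsWeyl D w) :
    ∃ L : List (Fin l), ∀ x, w x = act D L x := by
  induction h with
  | one => exact ⟨[], fun x => rfl⟩
  | step w α _ ih =>
    obtain ⟨L, hL⟩ := ih
    obtain ⟨L', hL'⟩ := refl_word α
    refine ⟨L ++ L', fun x => ?_⟩
    rw [act_append, ← hL', ← hL]
    rfl

/-- an element of the Weyl group that preserves positivity of roots is trivial -/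
theorem weyl_pos (w : (Fin l → ℤ) ≃+ (Fin l → ℤ)) (h : IsWeyl D w)
    (hpos : ∀ β : Root D, Pos β.1 → Pos (w β.1)) (x : Fin l → ℤ) : w x = x := by
  obtain ⟨L, hL⟩ := weyl_word w h
  rw [hL]
  refine act_pos_trivial L.length L rfl (fun β hβ => ?_) x
  rw [← hL]
  exact hpos β hβ

theorem weyl_fix (w : (Fin l → ℤ) ≃+ (Fin l → ℤ)) (h : IsWeyl D w) (ν : Fin l → ℤ) (d : ℕ)
    (hd : 1 ≤ d) (hν : ∀ x : Fin l → ℤ, bil D ν x = d * ht x) (hfix : w ν = ν) (x : Fin l → ℤ) :
    w x = x := by
  refine weyl_pos w h (fun β hβ => ?_) x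
  have hroot : bil D (w β.1) (w β.1) = 2 := by
    rw [h.isom]; exact β.2
  have h1 : bil D ν (w β.1) = bil D ν β.1 := by
    conv_lhs => rw [← hfix]
    rw [h.isom]
  rw [hν, hν] at h1
  have h2 := (pos_iff_ht D β).1 hβ
  have hd' : (0 : ℤ) < d := by exact_mod_cast hd
  have h3 : ht (w β.1) = ht β.1 := mul_left_cancel₀ hd'.ne' h1
  exact (pos_iff_ht D ⟨w β.1, hroot⟩).2 (by
    change 0 < ht (w β.1)
    rw [h3]; exact h2)

theorem auxF3b_refl_weyl (γ : Root D) : IsWeyl D (refl D γ) := by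
  have h := IsWeyl.step (AddEquiv.refl _) γ (IsWeyl.one (D := D))
  have : (refl D γ).trans (AddEquiv.refl _) = refl D γ := by
    ext x
    rfl
  rw [this] at h
  exact h

theorem auxF3b_list {R : Type*} [CommRing R] (c : Rˣ) (L : List (Root D)) (hnd : L.Nodup)
    (horth : ∀ γ ∈ L, ∀ δ ∈ L, γ = δ ∨ bil D γ.1 δ.1 = 0) :
    ∃ w χ, Mono D ((L.map fun γ => ng D γ c).prod) w χ ∧ IsWeyl D w ∧
      ∀ x, w x = x - (L.map fun γ => bil D γ.1 x • γ.1).sum := by
  induction L with
  | nil =>
    refine ⟨AddEquiv.refl _, fun _ => 1, ?_, IsWeyl.one, ?_⟩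
    · simpa using Mono.one D (R := R)
    · intro x
      simp
  | cons γ L ih =>
    rw [List.nodup_cons] at hnd
    obtain ⟨w, χ, hm, hw, hx⟩ := ih hnd.2 (fun a ha b hb =>
      horth a (List.mem_cons_of_mem _ ha) b (List.mem_cons_of_mem _ hb))
    obtain ⟨χ', hm'⟩ := ng_mono D γ c
    refine ⟨w.trans (refl D γ), fun β => χ' (wr D w hm.isom β) * χ β, ?_,
      IsWeyl.trans (refl D γ) w (auxF3b_refl_weyl γ) hw, ?_⟩
    · rw [List.map_cons, List.prod_cons]
      exact hm'.mul D hm
    · intro x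
      have h0 : ∀ L' : List (Root D), (∀ δ ∈ L', bil D γ.1 δ.1 = 0) →
          bil D γ.1 ((L'.map fun δ => bil D δ.1 x • δ.1).sum) = 0 := by
        intro L' hL'
        induction L' with
        | nil => simp [bil_zero_right]
        | cons δ L' ih' =>
          rw [List.map_cons, List.sum_cons, bil_add_right, bil_smul_right,
            hL' δ List.mem_cons_self, ih' (fun a ha => hL' a (List.mem_cons_of_mem _ ha))]
          ring
      have h1 : bil D γ.1 (w x) = bil D γ.1 x := by
        rw [hx, bil_sub_right, h0 L, sub_zero]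
        intro δ hδ
        rcases horth γ List.mem_cons_self δ (List.mem_cons_of_mem _ hδ) with h | h
        · exact absurd (h ▸ hδ) hnd.1
        · exact h
      show w x - bil D γ.1 (w x) • γ.1 = _
      rw [h1, hx, List.map_cons, List.sum_cons]
      abel

theorem auxF3b_sum_sroot (β : Root D) (f : Root D → (Fin l → ℤ)) :
    ∑ γ ∈ orb S β, f (sroot S γ) = ∑ γ ∈ orb S β, f γ := by
  classical
  have himg : (orb S β).image (sroot S) = orb S β := by
    apply Finset.eq_of_subset_of_card_le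
    · intro γ hγ
      obtain ⟨δ, hδ, rfl⟩ := Finset.mem_image.1 hγ
      rw [← orb_eq S β δ hδ]
      exact sroot_mem_orb S δ
    · rw [Finset.card_image_of_injective _ (sroot_bijective S).1]
  conv_rhs => rw [← himg]
  rw [Finset.sum_image (fun a _ b _ h => (sroot_bijective S).1 h)]

theorem auxF3b_comm (β : Root D) (w : (Fin l → ℤ) ≃+ (Fin l → ℤ))
    (hw : ∀ x, w x = x - ∑ γ ∈ orb S β, bil D γ.1 x • γ.1) (x : Fin l → ℤ) :
    w (pv S.σ x) = pv S.σ (w x) := by
  rw [hw, hw]
  have h1 : pv S.σ (x - ∑ γ ∈ orb S β, bil D γ.1 x • γ.1) =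
      pv S.σ x - ∑ γ ∈ orb S β, bil D γ.1 x • pv S.σ γ.1 := by
    funext i
    simp [pv, Finset.sum_apply]
  rw [h1, ← auxF3b_sum_sroot S β (fun γ => bil D γ.1 (pv S.σ x) • γ.1)]
  congr 1
  apply Finset.sum_congr rfl
  intro γ _
  have h2 := bil_pv S 1 γ.1 x
  rw [pow_one] at h2
  show bil D (pv S.σ γ.1) (pv S.σ x) • pv S.σ γ.1 = _
  rw [h2]

theorem auxF3b_toList (β : Root D) (x : Fin l → ℤ) :
    ((orb S β).toList.map fun γ => bil D γ.1 x • γ.1).sum = ∑ γ ∈ orb S β, bil D γ.1 x • γ.1 := by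
  rw [Finset.sum_map_toList]

/-- the product of the reflections in an orbit -/
theorem exists_orb_refl (β : Root D) : ∃ w : (Fin l → ℤ) ≃+ (Fin l → ℤ), IsWeyl D w ∧
    (∀ x, w (pv S.σ x) = pv S.σ (w x)) ∧
    ∀ x, w x = x - ∑ γ ∈ orb S β, bil D γ.1 x • γ.1 := by
  obtain ⟨w, χ, -, hw, hx⟩ := auxF3b_list (R := ℤ) (1 : ℤˣ) (orb S β).toList (orb S β).nodup_toList
    (fun γ hγ δ hδ => orb_orth S β γ δ (Finset.mem_toList.1 hγ) (Finset.mem_toList.1 hδ))
  have hx' : ∀ x, w x = x - ∑ γ ∈ orb S β, bil D γ.1 x • γ.1 := by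
    intro x
    rw [hx, auxF3b_toList]
  exact ⟨w, hw, auxF3b_comm S β w hx', hx'⟩

/-- `n_β(c)` in the folded group -/
noncomputable def nF {R : Type*} [CommRing R] (β : Root D) (c : Rˣ) : G D R :=
  yg S β (c : R) * yg S (rneg D β) ((c⁻¹ : Rˣ) : R) * yg S β (c : R)

theorem nF_mem {R : Type*} [CommRing R] (β : Root D) (c : Rˣ) : nF S β c ∈ FG S R := by
  unfold nF
  exact mul_mem (mul_mem (yg_mem_FG S _ _) (yg_mem_FG S _ _)) (yg_mem_FG S _ _)

theorem auxF3b_prod {M : Type*} [Monoid M] {ι : Type*} (L : List ι) (hnd : L.Nodup) (f g : ι → M)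
    (hc : ∀ a ∈ L, ∀ b ∈ L, a ≠ b → Commute (f a) (g b)) :
    (L.map f).prod * (L.map g).prod = (L.map fun a => f a * g a).prod := by
  induction L with
  | nil => simp
  | cons a L ih =>
    rw [List.nodup_cons] at hnd
    have ih' := ih hnd.2 (fun x hx y hy => hc x (List.mem_cons_of_mem _ hx) y (List.mem_cons_of_mem _ hy))
    rw [List.map_cons, List.map_cons, List.map_cons, List.prod_cons, List.prod_cons, List.prod_cons,
      ← ih']
    have hcomm : Commute (L.map f).prod (g a) := by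
      apply Commute.list_prod_left
      intro y hy
      obtain ⟨b, hb, rfl⟩ := List.mem_map.1 hy
      refine hc b (List.mem_cons_of_mem _ hb) a List.mem_cons_self ?_
      rintro rfl
      exact hnd.1 hb
    calc f a * (L.map f).prod * (g a * (L.map g).prod)
        = f a * ((L.map f).prod * g a) * (L.map g).prod := by simp only [mul_assoc]
      _ = f a * (g a * (L.map f).prod) * (L.map g).prod := by rw [hcomm.eq]
      _ = f a * g a * ((L.map f).prod * (L.map g).prod) := by simp only [mul_assoc]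

theorem auxF3b_rneg_rneg (γ : Root D) : rneg D (rneg D γ) = γ := by
  apply root_ext
  show - - γ.1 = γ.1
  rw [neg_neg]

theorem auxF3b_nF {R : Type*} [CommRing R] (β : Root D) (c : Rˣ) :
    nF S β c = ((orb S β).toList.map fun γ => ng D γ c).prod := by
  set L := (orb S β).toList with hL
  have hnd : L.Nodup := (orb S β).nodup_toList
  have hmem : ∀ γ ∈ L, γ ∈ orb S β := fun γ hγ => Finset.mem_toList.1 hγ
  have hnonneg : ∀ (b : Root D), ∀ γ ∈ orb S b, ∀ δ ∈ orb S b, 0 ≤ bil D γ.1 δ.1 := by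
    intro b γ hγ δ hδ
    rcases orb_orth S b γ δ hγ hδ with h | h
    · rw [h, root_norm]; norm_num
    · rw [h]
  have h1 : yg S β (c : R) = (L.map fun γ => xg D γ (c : R)).prod := rfl
  have h2 : yg S (rneg D β) ((c⁻¹ : Rˣ) : R) =
      (L.map fun γ => xg D (rneg D γ) ((c⁻¹ : Rˣ) : R)).prod := by
    unfold yg
    rw [XA_eq_list (orb S (rneg D β)) (hnonneg _) _ (L.map (rneg D))]
    · rw [List.map_map]
      rfl
    · apply hnd.map
      intro a b hab
      have := congrArg (rneg D) hab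
      rwa [auxF3b_rneg_rneg, auxF3b_rneg_rneg] at this
    · intro γ
      rw [List.mem_map]
      constructor
      · rintro ⟨δ, hδ, rfl⟩
        exact (mem_orb_neg S β δ).2 (hmem δ hδ)
      · intro hγ
        refine ⟨rneg D γ, ?_, auxF3b_rneg_rneg γ⟩
        rw [hL, Finset.mem_toList, ← mem_orb_neg S β, auxF3b_rneg_rneg]
        exact hγ
  unfold nF
  rw [h1, h2, auxF3b_prod L hnd, auxF3b_prod L hnd]
  · rfl
  · intro a ha b hb hab
    have hab0 : bil D a.1 b.1 = 0 := (orb_orth S β a b (hmem a ha) (hmem b hb)).resolve_left hab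
    have e1 : Commute (xg D a (c : R)) (xg D b (c : R)) := xg_commute D a b (by rw [hab0]) _ _
    have e2 : Commute (xg D (rneg D a) ((c⁻¹ : Rˣ) : R)) (xg D b (c : R)) :=
      xg_commute D (rneg D a) b (by
        show 0 ≤ bil D (-a.1) b.1
        rw [bil_neg_left, hab0]; norm_num) _ _
    exact e1.mul_left e2
  · intro a ha b hb hab
    have hab0 : bil D a.1 b.1 = 0 := (orb_orth S β a b (hmem a ha) (hmem b hb)).resolve_left hab
    exact xg_commute D a (rneg D b) (by
      show 0 ≤ bil D a.1 (-b.1)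
      rw [bil_neg_right, hab0]; norm_num) _ _

theorem nF_mono {R : Type*} [CommRing R] (β : Root D) (c : Rˣ) :
    ∃ w χ, Mono D (nF S β c) w χ ∧ IsWeyl D w ∧ (∀ x, w (pv S.σ x) = pv S.σ (w x)) ∧
      ∀ x, w x = x - ∑ γ ∈ orb S β, bil D γ.1 x • γ.1 := by
  obtain ⟨w, χ, hm, hw, hx⟩ := auxF3b_list (R := R) c (orb S β).toList (orb S β).nodup_toList
    (fun γ hγ δ hδ => orb_orth S β γ δ (Finset.mem_toList.1 hγ) (Finset.mem_toList.1 hδ))
  have hx' : ∀ x, w x = x - ∑ γ ∈ orb S β, bil D γ.1 x • γ.1 := by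
    intro x
    rw [hx, auxF3b_toList]
  refine ⟨w, χ, ?_, hw, auxF3b_comm S β w hx', hx'⟩
  rw [auxF3b_nF]
  exact hm

theorem tF833_list {α M : Type*} [Monoid M] (L : List α) (f g : α → M)
    (h : L.Pairwise (fun a b => Commute (g a) (f b))) :
    (L.map (fun a => f a * g a)).prod = (L.map f).prod * (L.map g).prod := by
  induction L with
  | nil => simp
  | cons a L ih =>
    rw [List.pairwise_cons] at h
    rw [List.map_cons, List.map_cons, List.map_cons, List.prod_cons, List.prod_cons,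
      List.prod_cons, ih h.2]
    have hc : Commute (g a) (L.map f).prod := by
      apply Commute.list_prod_right
      intro x hx
      rw [List.mem_map] at hx
      obtain ⟨b, hb, rfl⟩ := hx
      exact h.1 b hb
    calc f a * g a * ((L.map f).prod * (L.map g).prod)
        = f a * (g a * (L.map f).prod) * (L.map g).prod := by simp only [mul_assoc]
      _ = f a * ((L.map f).prod * g a) * (L.map g).prod := by rw [hc.eq]
      _ = f a * (L.map f).prod * (g a * (L.map g).prod) := by simp only [mul_assoc]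

theorem tF833_comm {R : Type*} [CommRing R] (a b : Root D) (h : bil D a.1 b.1 = 0) (s t : R) :
    Commute (xg D a s) (xg D b t) ∧ Commute (xg D a s) (xg D (rneg D b) t) ∧
    Commute (xg D (rneg D a) s) (xg D b t) ∧ Commute (xg D (rneg D a) s) (xg D (rneg D b) t) := by
  refine ⟨xg_commute D a b h.ge s t, xg_commute D a (rneg D b) ?_ s t,
    xg_commute D (rneg D a) b ?_ s t, xg_commute D (rneg D a) (rneg D b) ?_ s t⟩
  · show 0 ≤ bil D a.1 (-b.1)
    rw [bil_neg_right, h]; simp
  · show 0 ≤ bil D (-a.1) b.1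
    rw [bil_neg_left, h]; simp
  · show 0 ≤ bil D (-a.1) (-b.1)
    rw [bil_neg_left, bil_neg_right, h]; simp

theorem tF833_ng_comm {R : Type*} [CommRing R] (a b : Root D) (h : bil D a.1 b.1 = 0) (c c' : Rˣ) :
    Commute (ng D a c) (ng D b c') := by
  unfold ng
  have H := fun s t => tF833_comm (R := R) a b h s t
  apply Commute.mul_left
  · apply Commute.mul_left
    · apply Commute.mul_right
      · apply Commute.mul_right
        · exact (H _ _).1
        · exact (H _ _).2.1
      · exact (H _ _).1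
    · apply Commute.mul_right
      · apply Commute.mul_right
        · exact (H _ _).2.2.1
        · exact (H _ _).2.2.2
      · exact (H _ _).2.2.1
  · apply Commute.mul_right
    · apply Commute.mul_right
      · exact (H _ _).1
      · exact (H _ _).2.1
    · exact (H _ _).1

theorem tF833_orbpair (β : Root D) :
    (orb S β).toList.Pairwise (fun a b => bil D a.1 b.1 = 0) := by
  apply List.Nodup.pairwise_of_forall_ne (Finset.nodup_toList _)
  intro a ha b hb hab
  rw [Finset.mem_toList] at ha hb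
  rcases orb_orth S β a b ha hb with h | h
  · exact absurd h hab
  · exact h

theorem tF833_orbnn (β : Root D) : ∀ γ ∈ orb S β, ∀ δ ∈ orb S β, 0 ≤ bil D γ.1 δ.1 := by
  intro γ hγ δ hδ
  rcases orb_orth S β γ δ hγ hδ with h | h
  · rw [← h, γ.2]; norm_num
  · rw [h]

theorem tF833_rneg_rneg (β : Root D) : rneg D (rneg D β) = β := by
  apply root_ext
  show - - β.1 = β.1
  rw [neg_neg]

theorem tF833_nF {R : Type*} [CommRing R] (β : Root D) (c : Rˣ) :
    nF S β c = ((orb S β).toList.map (fun γ => ng D γ c)).prod := by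
  have h1 : yg S β (c : R) = ((orb S β).toList.map (fun γ => xg D γ (c : R))).prod := rfl
  have h2 : yg S (rneg D β) ((c⁻¹ : Rˣ) : R)
      = ((orb S β).toList.map (fun γ => xg D (rneg D γ) ((c⁻¹ : Rˣ) : R))).prod := by
    unfold yg
    rw [XA_eq_list (orb S (rneg D β)) (tF833_orbnn S (rneg D β)) _
      ((orb S β).toList.map (rneg D)) ?_ ?_, List.map_map]
    · rfl
    · apply List.Nodup.map ?_ (Finset.nodup_toList _)
      intro a b hab
      rw [← tF833_rneg_rneg a, hab, tF833_rneg_rneg]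
    · intro γ
      rw [List.mem_map]
      constructor
      · rintro ⟨a, ha, rfl⟩
        rw [Finset.mem_toList] at ha
        exact (mem_orb_neg S β a).2 ha
      · intro hγ
        refine ⟨rneg D γ, ?_, tF833_rneg_rneg γ⟩
        rw [Finset.mem_toList]
        rw [← mem_orb_neg, tF833_rneg_rneg]
        exact hγ
  unfold nF
  rw [h1, h2]
  have hp := tF833_orbpair S β
  unfold ng
  rw [tF833_list (orb S β).toList
    (fun γ => xg D γ (c : R) * xg D (rneg D γ) ((c⁻¹ : Rˣ) : R)) (fun γ => xg D γ (c : R))]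
  · rw [tF833_list (orb S β).toList]
    exact hp.imp (fun {a b} h => (tF833_comm a b h _ _).2.2.1)
  · exact hp.imp (fun {a b} h => Commute.mul_right (tF833_comm a b h _ _).1
      (tF833_comm a b h _ _).2.1)

theorem tF833_mul {R : Type*} [CommRing R] (c : Rˣ) {g g' : G D R} {ν ν' : Fin l → ℤ}
    (h : Mono D g (AddEquiv.refl _) (fun β => ((c ^ (bil D ν β.1) : Rˣ) : R)))
    (h' : Mono D g' (AddEquiv.refl _) (fun β => ((c ^ (bil D ν' β.1) : Rˣ) : R))) :
    Mono D (g * g') (AddEquiv.refl _) (fun β => ((c ^ (bil D (ν + ν') β.1) : Rˣ) : R)) := by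
  have h1 := h.mul D h'
  have e1 : (AddEquiv.refl (Fin l → ℤ)).trans (AddEquiv.refl _) = AddEquiv.refl _ := rfl
  have e2 : (fun β : Root D => ((c ^ (bil D ν (wr D (AddEquiv.refl _) h'.isom β).1) : Rˣ) : R)
      * ((c ^ (bil D ν' β.1) : Rˣ) : R))
      = (fun β : Root D => ((c ^ (bil D (ν + ν') β.1) : Rˣ) : R)) := by
    funext β
    have : (wr D (AddEquiv.refl _) h'.isom β).1 = β.1 := rfl
    rw [this, bil_add_left, _root_.zpow_add, Units.val_mul]
  rw [e1, e2] at h1
  exact h1

theorem tF833_one {R : Type*} [CommRing R] (c : Rˣ) :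
    Mono D (1 : G D R) (AddEquiv.refl _) (fun β => ((c ^ (bil D 0 β.1) : Rˣ) : R)) := by
  have h := Mono.one D (R := R)
  have e : (fun β : Root D => ((c ^ (bil D 0 β.1) : Rˣ) : R)) = fun _ => 1 := by
    funext β
    rw [bil_zero_left, zpow_zero, Units.val_one]
  rw [e]
  exact h

theorem tF833_listmono {R : Type*} [CommRing R] (c : Rˣ) (L : List (Root D)) :
    Mono D (L.map (fun γ => hg D γ c)).prod (AddEquiv.refl _)
      (fun β => ((c ^ (bil D (L.map (fun γ => γ.1)).sum β.1) : Rˣ) : R)) := by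
  induction L with
  | nil => exact tF833_one c
  | cons a L ih =>
    rw [List.map_cons, List.map_cons, List.prod_cons, List.sum_cons]
    exact tF833_mul c (hg_mono D a c) ih

theorem tF833_orb {R : Type*} [CommRing R] (β : Root D) (c : Rˣ) :
    ∃ g ∈ FG S R, Mono D g (AddEquiv.refl _)
      (fun δ => ((c ^ (bil D (∑ γ ∈ orb S β, γ.1) δ.1) : Rˣ) : R)) := by
  refine ⟨nF S β c * nF S β (-1), mul_mem (nF_mem S β c) (nF_mem S β (-1)), ?_⟩
  rw [tF833_nF, tF833_nF, ← tF833_list]
  · have h := tF833_listmono c (orb S β).toList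
    have e : ((orb S β).toList.map (fun γ => γ.1)).sum = ∑ γ ∈ orb S β, γ.1 :=
      Finset.sum_map_toList _ _
    rw [e] at h
    exact h
  · exact (tF833_orbpair S β).imp (fun {a b} h => tF833_ng_comm a b h _ _)

theorem tF833_orb_smul {R : Type*} [CommRing R] (β : Root D) (c : Rˣ) (k : ℤ) :
    ∃ g ∈ FG S R, Mono D g (AddEquiv.refl _)
      (fun δ => ((c ^ (bil D (k • ∑ γ ∈ orb S β, γ.1) δ.1) : Rˣ) : R)) := by
  obtain ⟨g, hg, h⟩ := tF833_orb S (R := R) β (c ^ k)
  refine ⟨g, hg, ?_⟩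
  have e : (fun δ : Root D => (((c ^ k) ^ (bil D (∑ γ ∈ orb S β, γ.1) δ.1) : Rˣ) : R))
      = (fun δ : Root D => ((c ^ (bil D (k • ∑ γ ∈ orb S β, γ.1) δ.1) : Rˣ) : R)) := by
    funext δ
    rw [bil_smul_left, _root_.zpow_mul]
  rw [e] at h
  exact h

theorem tF833_mem (i j : Fin l) : sr D j ∈ orb S (sr D i) ↔ ∃ k : ℕ, j = (S.σ ^ k) i := by
  rw [mem_orb]
  constructor
  · rintro ⟨k, hk⟩
    refine ⟨k, ?_⟩
    have h1 : (Pi.single j 1 : Fin l → ℤ) = pv (S.σ ^ k) (Pi.single i 1) := hk
    rw [pv_single] at h1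
    have h2 := congrFun h1 j
    rw [Pi.single_eq_same, Pi.single_apply] at h2
    by_contra hne
    rw [if_neg hne] at h2
    exact one_ne_zero h2
  · rintro ⟨k, hk⟩
    refine ⟨k, ?_⟩
    show (Pi.single j 1 : Fin l → ℤ) = pv (S.σ ^ k) (Pi.single i 1)
    rw [pv_single, hk]

theorem tF833_coord (i j : Fin l) : (∑ γ ∈ orb S (sr D i), γ.1) j
    = if sr D j ∈ orb S (sr D i) then 1 else 0 := by
  rw [Finset.sum_apply]
  have h : ∀ γ ∈ orb S (sr D i), γ.1 j = if γ = sr D j then (1 : ℤ) else 0 := by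
    intro γ hγ
    obtain ⟨m, rfl⟩ := orb_simple S i γ hγ
    show (Pi.single m 1 : Fin l → ℤ) j = _
    rw [Pi.single_apply]
    by_cases hjm : j = m
    · rw [if_pos hjm, hjm, if_pos rfl]
    · rw [if_neg hjm, if_neg]
      intro hh
      have h1 : (Pi.single m 1 : Fin l → ℤ) = Pi.single j 1 := congrArg Subtype.val hh
      have h2 := congrFun h1 j
      rw [Pi.single_eq_same, Pi.single_apply, if_neg hjm] at h2
      exact zero_ne_one h2
  rw [Finset.sum_congr rfl h, Finset.sum_ite_eq']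

theorem tF833_ind {R : Type*} [CommRing R] (c : Rˣ) : ∀ (n : ℕ) (ν : Fin l → ℤ),
    (Finset.univ.filter (fun i => ν i ≠ 0)).card ≤ n → (∀ i, ν (S.σ i) = ν i) →
    ∃ g ∈ FG S R, Mono D g (AddEquiv.refl _) (fun β => ((c ^ (bil D ν β.1) : Rˣ) : R)) := by
  classical
  intro n
  induction n with
  | zero =>
    intro ν hc hν
    have h0 : ν = 0 := by
      funext i
      by_contra hi
      have : i ∈ Finset.univ.filter (fun i => ν i ≠ 0) := by simpa using hi
      have h1 := Finset.card_pos.2 ⟨i, this⟩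
      omega
    rw [h0]
    exact ⟨1, one_mem _, tF833_one c⟩
  | succ n ih =>
    intro ν hc hν
    by_cases h0 : ν = 0
    · rw [h0]
      exact ⟨1, one_mem _, tF833_one c⟩
    obtain ⟨i, hi⟩ : ∃ i, ν i ≠ 0 := by
      by_contra hcon
      push Not at hcon
      exact h0 (funext hcon)
    have hpow : ∀ (k : ℕ) (j : Fin l), ν ((S.σ ^ k) j) = ν j := by
      intro k
      induction k with
      | zero => intro j; rfl
      | succ k ihk =>
        intro j
        rw [pow_succ, Equiv.Perm.mul_apply, ihk, hν]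
    obtain ⟨s, hs⟩ : ∃ s : Fin l → ℤ, s = ∑ γ ∈ orb S (sr D i), γ.1 := ⟨_, rfl⟩
    have hsj : ∀ j, s j = if (∃ k : ℕ, j = (S.σ ^ k) i) then 1 else 0 := by
      intro j
      rw [hs, tF833_coord]
      by_cases hj : sr D j ∈ orb S (sr D i)
      · rw [if_pos hj, if_pos ((tF833_mem S i j).1 hj)]
      · rw [if_neg hj, if_neg (fun h => hj ((tF833_mem S i j).2 h))]
    have hsσ : ∀ j, s (S.σ j) = s j := by
      intro j
      rw [hsj, hsj]
      have : (∃ k : ℕ, S.σ j = (S.σ ^ k) i) ↔ (∃ k : ℕ, j = (S.σ ^ k) i) := by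
        constructor
        · rintro ⟨k, hk⟩
          have hpos : 0 < orderOf S.σ := orderOf_pos S.σ
          refine ⟨k + (orderOf S.σ - 1), ?_⟩
          have h1 : (S.σ ^ (k + (orderOf S.σ - 1))) i = (S.σ ^ (orderOf S.σ - 1)) (S.σ j) := by
            rw [hk, ← Equiv.Perm.mul_apply, ← pow_add, add_comm]
          rw [h1, ← Equiv.Perm.mul_apply, ← pow_succ, Nat.sub_add_cancel hpos, pow_orderOf_eq_one]
          rfl
        · rintro ⟨k, hk⟩
          refine ⟨k + 1, ?_⟩
          rw [hk, pow_succ', Equiv.Perm.mul_apply]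
      simp only [this]
    obtain ⟨ν', hν'⟩ : ∃ ν' : Fin l → ℤ, ν' = ν - ν i • s := ⟨_, rfl⟩
    have hν'j : ∀ j, ν' j = if (∃ k : ℕ, j = (S.σ ^ k) i) then 0 else ν j := by
      intro j
      rw [hν', Pi.sub_apply, Pi.smul_apply, hsj, smul_eq_mul]
      by_cases hj : ∃ k : ℕ, j = (S.σ ^ k) i
      · rw [if_pos hj, if_pos hj]
        obtain ⟨k, rfl⟩ := hj
        rw [hpow]; ring
      · rw [if_neg hj, if_neg hj]; ring
    have hcard : (Finset.univ.filter (fun j => ν' j ≠ 0)).card ≤ n := by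
      have hss : Finset.univ.filter (fun j => ν' j ≠ 0)
          ⊂ Finset.univ.filter (fun j => ν j ≠ 0) := by
        rw [Finset.ssubset_iff_subset_ne]
        constructor
        · intro j hj
          rw [Finset.mem_filter] at hj ⊢
          refine ⟨Finset.mem_univ _, ?_⟩
          have h1 := hj.2
          rw [hν'j] at h1
          split_ifs at h1 with h2
          · exact absurd rfl h1
          · exact h1
        · intro heq
          have h1 : i ∈ Finset.univ.filter (fun j => ν j ≠ 0) := by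
            rw [Finset.mem_filter]; exact ⟨Finset.mem_univ _, hi⟩
          rw [← heq, Finset.mem_filter] at h1
          apply h1.2
          rw [hν'j, if_pos ⟨0, rfl⟩]
      have := Finset.card_lt_card hss
      omega
    obtain ⟨g, hg, hm⟩ := ih ν' hcard (by
      intro j
      rw [hν', Pi.sub_apply, Pi.sub_apply, Pi.smul_apply, Pi.smul_apply, hsσ, hν])
    obtain ⟨g', hg', hm'⟩ := tF833_orb_smul S (R := R) (sr D i) c (ν i)
    refine ⟨g * g', mul_mem hg hg', ?_⟩
    have h1 := tF833_mul c hm hm'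
    have e : ν' + ν i • ∑ γ ∈ orb S (sr D i), γ.1 = ν := by
      rw [← hs, hν']; abel
    rw [e] at h1
    exact h1

/-- torus elements of the folded group -/
theorem exists_torusF {R : Type*} [CommRing R] (ν : Fin l → ℤ) (hν : pv S.σ ν = ν) (c : Rˣ) :
    ∃ g ∈ FG S R, Mono D g (AddEquiv.refl _) (fun β => ((c ^ (bil D ν β.1) : Rˣ) : R)) := by
  apply tF833_ind S c _ ν le_rfl
  intro i
  have h := congrFun hν (S.σ i)
  have h1 : ν (S.σ⁻¹ (S.σ i)) = ν (S.σ i) := h
  rw [← h1]
  congr 1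
  simp

theorem mono_entry {R : Type*} [CommRing R] (g : G D R)
    (w : (Fin l → ℤ) ≃+ (Fin l → ℤ)) (χ : Root D → R)
    (h : Mono D g w χ) (β β' : Root D) (hβ : β'.1 = w β.1) :
    mat D g (Sum.inr β') (Sum.inr β) = χ β := by
  have h1 := congrFun (h.he β β' hβ) (Sum.inr β')
  rw [ev, Matrix.mulVec_single_one, ev, Pi.smul_apply, Pi.single_eq_same, smul_eq_mul, mul_one] at h1
  exact h1

/-- the character of a fixed monomial element is constant on orbits -/
theorem mono_fix {R : Type*} [CommRing R] (g : G D R) (hg : sg S R g = g)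
    (w : (Fin l → ℤ) ≃+ (Fin l → ℤ)) (hw : ∀ x, w (pv S.σ x) = pv S.σ (w x)) (χ : Root D → R)
    (h : Mono D g w χ) (β : Root D) : χ (sroot S β) = χ β := by
  have h1 := mono_entry g w χ h β (wr D w h.isom β) rfl
  have h2 := mono_entry g w χ h (sroot S β) (sroot S (wr D w h.isom β)) (hw β.1).symm
  have h3 := mat_sg S g (Sum.inr (wr D w h.isom β)) (Sum.inr β)
  rw [hg, h1] at h3
  rw [← h2]
  exact h3

theorem w_pv_pow (w : (Fin l → ℤ) ≃+ (Fin l → ℤ)) (hw : ∀ x, w (pv S.σ x) = pv S.σ (w x))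
    (k : ℕ) : ∀ x, w (pv (S.σ ^ k) x) = pv (S.σ ^ k) (w x) := by
  induction k with
  | zero => intro x; rw [pow_zero, pv_one, pv_one]
  | succ k ih => intro x; rw [pow_succ, pv_mul, pv_mul, ih, hw]

theorem conj_yg {R : Type*} [CommRing R] (g : G D R) (hg : sg S R g = g)
    (w : (Fin l → ℤ) ≃+ (Fin l → ℤ)) (hw : ∀ x, w (pv S.σ x) = pv S.σ (w x)) (χ : Root D → R)
    (h : Mono D g w χ) (β β' : Root D) (hβ : β'.1 = w β.1) (t : R) :
    g * yg S β t * g⁻¹ = yg S β' (χ β * t) := by
  have hχ : ∀ γ ∈ orb S β, χ γ = χ β :=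
    orb_induction S (p := fun γ => χ γ = χ β) β rfl
      (fun γ hγ => (mono_fix S g hg w hw χ h γ).trans hγ)
  have hconj : g * yg S β t * g⁻¹
      = (((orb S β).toList.map (wr D w h.isom)).map fun γ => xg D γ (χ β * t)).prod := by
    change g * ((orb S β).toList.map fun γ => xg D γ t).prod * g⁻¹ = _
    have e1 : g * ((orb S β).toList.map fun γ => xg D γ t).prod * g⁻¹
        = MulAut.conj g ((orb S β).toList.map fun γ => xg D γ t).prod := rfl
    rw [e1, map_list_prod, List.map_map, List.map_map]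
    congr 1
    apply List.map_congr_left
    intro γ hγ
    rw [Finset.mem_toList] at hγ
    change g * xg D γ t * g⁻¹ = xg D (wr D w h.isom γ) (χ β * t)
    rw [h.conj D γ (wr D w h.isom γ) rfl t, hχ γ hγ]
  rw [hconj]
  symm
  apply XA_eq_list
  · intro γ hγ δ hδ
    rcases orb_orth S β' γ δ hγ hδ with he | he
    · rw [← he, γ.2]
      norm_num
    · rw [he]
  · apply List.Nodup.map
    · intro a b hab
      have := congrArg Subtype.val hab
      exact Subtype.ext (w.injective this)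
    · exact Finset.nodup_toList _
  · intro γ'
    rw [List.mem_map, mem_orb]
    constructor
    · rintro ⟨γ, hγ, rfl⟩
      rw [Finset.mem_toList, mem_orb] at hγ
      obtain ⟨k, hk⟩ := hγ
      refine ⟨k, ?_⟩
      change w γ.1 = _
      rw [hk, w_pv_pow S w hw, hβ]
    · rintro ⟨k, hk⟩
      refine ⟨⟨pv (S.σ ^ k) β.1, by rw [bil_pv]; exact β.2⟩, ?_, ?_⟩
      · rw [Finset.mem_toList, mem_orb]
        exact ⟨k, rfl⟩
      · apply Subtype.ext
        change w (pv (S.σ ^ k) β.1) = γ'.1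
        rw [w_pv_pow S w hw, hk, hβ]

theorem orb_refl_pos_sr_inj (i j : Fin l) (h : sr D i = sr D j) : i = j := by
  by_contra hne
  have h1 := congrFun (congrArg Subtype.val h) i
  simp only [sr, Pi.single_eq_same, Pi.single_eq_of_ne hne] at h1
  exact one_ne_zero h1

/-- a positive root outside the orbit of a simple root has a positive coordinate outside -/
theorem orb_refl_pos_coord (i : Fin l) (β : Root D) (hβ : Pos β.1) (hne : β ∉ orb S (sr D i)) :
    ∃ j, sr D j ∉ orb S (sr D i) ∧ 0 < β.1 j := by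
  by_contra hcon
  push Not at hcon
  have h1 : ∀ j, 0 < β.1 j → sr D j ∈ orb S (sr D i) := by
    intro j hj
    by_contra hn
    exact absurd (hcon j hn) (not_le.mpr hj)
  have h2 : ∃ j, 0 < β.1 j := by
    by_contra hn
    push Not at hn
    have h0 : β.1 = 0 := by
      funext j
      exact le_antisymm (hn j) (hβ j)
    have h3 := β.2
    rw [h0, bil_zero_left] at h3
    exact absurd h3 (by norm_num)
  obtain ⟨j, hj⟩ := h2
  have h3 : bil D β.1 (sr D j).1 = β.1 j * 2 := by
    conv_lhs => rw [eq_sum_single β.1]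
    rw [bil_sum_left, Finset.sum_eq_single j]
    · rw [bil_smul_left]
      congr 1
      exact (sr D j).2
    · intro k _ hkj
      rw [bil_smul_left]
      rcases (hβ k).lt_or_eq with hk | hk
      · rcases orb_orth S (sr D i) (sr D k) (sr D j) (h1 k hk) (h1 j hj) with h4 | h4
        · exact absurd (orb_refl_pos_sr_inj k j h4) hkj
        · have h5 : bil D (Pi.single k 1) (sr D j).1 = 0 := h4
          rw [h5, mul_zero]
      · rw [← hk, zero_mul]
    · intro h4
      exact absurd (Finset.mem_univ j) h4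
  have h4 := (bil_range D β (sr D j)).2
  have h5 : bil D β.1 (sr D j).1 = 2 := by
    have : 1 ≤ β.1 j := hj
    linarith
  have h6 := (bil_eq_two_iff D β (sr D j)).mp h5
  apply hne
  rw [h6]
  exact h1 j hj

/-- for a positive root outside the orbit of a simple root, the reflection in the orbit preserves
positivity; and for a nonsimple orbit some such reflection decreases the height -/
theorem orb_refl_pos (i : Fin l) (β γ : Root D) (hβ : Pos β.1) (hne : β ∉ orb S (sr D i))
    (hγ : γ.1 = β.1 - ∑ δ ∈ orb S (sr D i), bil D δ.1 β.1 • δ.1) : Pos γ.1 := by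
  obtain ⟨j, hj, hβj⟩ := orb_refl_pos_coord S i β hβ hne
  have h1 : γ.1 j = β.1 j := by
    rw [hγ, Pi.sub_apply, Finset.sum_apply, Finset.sum_eq_zero, sub_zero]
    intro δ hδ
    obtain ⟨k, rfl⟩ := orb_simple S i δ hδ
    have hjk : j ≠ k := by
      rintro rfl
      exact hj hδ
    have h2 : (sr D k).1 j = 0 := Pi.single_eq_of_ne hjk _
    rw [Pi.smul_apply, h2, smul_zero]
  rcases pos_or_neg D γ with h | h
  · exact h
  · exfalso
    have h2 := h j
    rw [Pi.neg_apply, h1] at h2
    linarith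

/-- the orbit sum is invariant -/
theorem exists_orb_lower_inv (β : Root D) :
    pv S.σ (∑ δ ∈ orb S β, δ.1) = ∑ δ ∈ orb S β, δ.1 := by
  classical
  have hinj := (sroot_bijective S).1
  have himg : (orb S β).image (sroot S) = orb S β := by
    apply Finset.eq_of_subset_of_card_le
    · intro γ hγ
      obtain ⟨δ, hδ, rfl⟩ := Finset.mem_image.mp hγ
      have := sroot_mem_orb S δ
      rwa [orb_eq S β δ hδ] at this
    · rw [Finset.card_image_of_injective _ hinj]
  have h1 : pv S.σ (∑ δ ∈ orb S β, δ.1) = ∑ δ ∈ orb S β, (sroot S δ).1 := by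
    funext j
    rw [Finset.sum_apply]
    change (∑ δ ∈ orb S β, δ.1) (S.σ⁻¹ j) = _
    rw [Finset.sum_apply]
    rfl
  rw [h1]
  conv_rhs => rw [← himg]
  rw [Finset.sum_image (fun a _ b _ h => hinj h)]

theorem exists_orb_lower_inv' (B : Fin l → ℤ) (hB : pv S.σ B = B) (k : ℕ) :
    pv (S.σ ^ k) B = B := by
  induction k with
  | zero => rw [pow_zero, pv_one]
  | succ k ih => rw [pow_succ, pv_mul, hB, ih]

theorem exists_orb_lower_const (B : Fin l → ℤ) (hB : pv S.σ B = B) (i j : Fin l)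
    (h : orb S (sr D j) = orb S (sr D i)) : B j = B i := by
  have h1 : sr D j ∈ orb S (sr D i) := by
    rw [← h]
    exact self_mem_orb S _
  obtain ⟨k, hk⟩ := (mem_orb S _ _).mp h1
  have h2 : (Pi.single j 1 : Fin l → ℤ) = Pi.single ((S.σ ^ k) i) 1 := by
    have h3 : (Pi.single j 1 : Fin l → ℤ) = pv (S.σ ^ k) (Pi.single i 1) := hk
    rw [h3, pv_single]
  have h3 : j = (S.σ ^ k) i := by
    by_contra hne
    have h4 := congrFun h2 j
    rw [Pi.single_eq_same, Pi.single_eq_of_ne hne] at h4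
    exact one_ne_zero h4
  have h4 := congrFun (exists_orb_lower_inv' S B hB k) j
  rw [← h4]
  change B ((S.σ ^ k).symm j) = B i
  rw [h3, Equiv.symm_apply_apply]

theorem exists_orb_lower_ht {s : Finset (Root D)} (c : Root D → ℤ) :
    ht (∑ δ ∈ s, c δ • δ.1) = ∑ δ ∈ s, c δ * ht δ.1 := by
  classical
  induction s using Finset.induction_on with
  | empty => simp [ht]
  | insert a s ha ih =>
    rw [Finset.sum_insert ha, Finset.sum_insert ha, ht_add, ih]
    congr 1
    simp [ht, Finset.mul_sum]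

theorem exists_orb_lower (β : Root D) (hβ : Pos β.1) (hns : ∀ i, β ≠ sr D i) :
    ∃ i, β ∉ orb S (sr D i) ∧ ht (β.1 - ∑ δ ∈ orb S (sr D i), bil D δ.1 β.1 • δ.1) < ht β.1 := by
  classical
  have hnot : ∀ i, β ∉ orb S (sr D i) := by
    intro i hi
    obtain ⟨j, hj⟩ := orb_simple S i β hi
    exact hns j hj
  have hht : ∀ i, ht (β.1 - ∑ δ ∈ orb S (sr D i), bil D δ.1 β.1 • δ.1)
      = ht β.1 - ∑ δ ∈ orb S (sr D i), bil D δ.1 β.1 := by
    intro i
    rw [sub_eq_add_neg, ht_add, ht_neg, exists_orb_lower_ht, ← sub_eq_add_neg]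
    congr 1
    apply Finset.sum_congr rfl
    intro δ hδ
    rw [orb_ht S (sr D i) δ hδ]
    have : ht (sr D i).1 = 1 := ht_single i
    rw [this, mul_one]
  by_contra hcon
  push Not at hcon
  have hS : ∀ i, ∑ δ ∈ orb S (sr D i), bil D δ.1 β.1 ≤ 0 := by
    intro i
    have := hcon i (hnot i)
    rw [hht i] at this
    linarith
  have hB0 : ∀ j, 0 ≤ (∑ δ ∈ orb S β, δ.1 : Fin l → ℤ) j := by
    intro j
    rw [Finset.sum_apply]
    apply Finset.sum_nonneg
    intro δ hδ
    exact (orb_pos S β δ hδ).mpr hβ j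
  have hBβ : bil D (∑ δ ∈ orb S β, δ.1) β.1 = 2 := by
    rw [bil_sum_left, Finset.sum_eq_single β]
    · exact β.2
    · intro δ hδ hne
      rcases orb_orth S β δ β hδ (self_mem_orb S β) with h | h
      · exact absurd h hne
      · exact h
    · intro h
      exact absurd (self_mem_orb S β) h
  have hBσ := exists_orb_lower_inv S β
  generalize (∑ δ ∈ orb S β, δ.1 : Fin l → ℤ) = B at hB0 hBβ hBσ
  have hsum : bil D B β.1 = ∑ j : Fin l, B j * bil D (sr D j).1 β.1 := by
    conv_lhs => rw [eq_sum_single B]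
    rw [bil_sum_left]
    apply Finset.sum_congr rfl
    intro j _
    rw [bil_smul_left]
    rfl
  have hle : ∑ j : Fin l, B j * bil D (sr D j).1 β.1 ≤ 0 := by
    rw [← Finset.sum_fiberwise_of_maps_to (s := Finset.univ)
      (t := Finset.univ.image (fun j => orb S (sr D j))) (g := fun j => orb S (sr D j))
      (fun j _ => Finset.mem_image_of_mem _ (Finset.mem_univ j))]
    apply Finset.sum_nonpos
    intro O hO
    obtain ⟨i, _, rfl⟩ := Finset.mem_image.mp hO
    have h1 : ∑ j ∈ Finset.univ.filter (fun j => orb S (sr D j) = orb S (sr D i)),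
        B j * bil D (sr D j).1 β.1 = B i * ∑ δ ∈ orb S (sr D i), bil D δ.1 β.1 := by
      rw [Finset.mul_sum]
      apply Finset.sum_bij (fun j _ => sr D j)
      · intro j hj
        rw [← (Finset.mem_filter.mp hj).2]
        exact self_mem_orb S _
      · intro a _ b _ h
        exact orb_refl_pos_sr_inj a b h
      · intro δ hδ
        obtain ⟨j, rfl⟩ := orb_simple S i δ hδ
        exact ⟨j, Finset.mem_filter.mpr ⟨Finset.mem_univ _, orb_eq S _ _ hδ⟩, rfl⟩
      · intro j hj
        rw [exists_orb_lower_const S B hBσ i j (Finset.mem_filter.mp hj).2]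
    rw [h1]
    exact mul_nonpos_of_nonneg_of_nonpos (hB0 i) (hS i)
  rw [← hsum, hBβ] at hle
  exact absurd hle (by norm_num)

theorem simple_inductionF {R : Type*} [CommRing R] {p : G D R → Prop} (h1 : p 1)
    (hx : ∀ (g : G D R) (i : Fin l) (t : R), p g → p (g * yg S (sr D i) t))
    (hy : ∀ (g : G D R) (i : Fin l) (t : R), p g → p (g * yg S (rneg D (sr D i)) t))
    (g : G D R) (hg : g ∈ FG S R) : p g := by
  set H : Subgroup (G D R) := Subgroup.closure {g | ∃ (i : Fin l) (t : R),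
    g = yg S (sr D i) t ∨ g = yg S (rneg D (sr D i)) t} with hH
  have hp : ∀ (i : Fin l) (t : R), yg S (sr D i) t ∈ H := fun i t =>
    Subgroup.subset_closure ⟨i, t, Or.inl rfl⟩
  have hn : ∀ (i : Fin l) (t : R), yg S (rneg D (sr D i)) t ∈ H := fun i t =>
    Subgroup.subset_closure ⟨i, t, Or.inr rfl⟩
  have hnF : ∀ i : Fin l, nF S (R := R) (sr D i) 1 ∈ H := by
    intro i
    unfold nF
    exact H.mul_mem (H.mul_mem (hp i _) (hn i _)) (hp i _)
  have key : ∀ (n : ℕ) (β : Root D), Pos β.1 → ht β.1 ≤ n → ∀ t : R,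
      yg S β t ∈ H ∧ yg S (rneg D β) t ∈ H := by
    intro n
    induction n with
    | zero =>
      intro β hβ hht
      have := (pos_iff_ht D β).1 hβ
      simp only [Nat.cast_zero] at hht
      omega
    | succ n ih =>
      intro β hβ hht t
      by_cases hs : ∃ i, β = sr D i
      · obtain ⟨i, rfl⟩ := hs
        exact ⟨hp i t, hn i t⟩
      · push Not at hs
        obtain ⟨i, hne, hlt⟩ := exists_orb_lower S β hβ hs
        obtain ⟨w, χ, hm, -, hcomm, hw⟩ := nF_mono S (R := R) (sr D i) 1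
        have hfix := FG_fix S _ (nF_mem S (R := R) (sr D i) 1)
        set β' := wr D w hm.isom β with hβ'
        have e : β'.1 = β.1 - ∑ δ ∈ orb S (sr D i), bil D δ.1 β.1 • δ.1 := hw β.1
        have hpos : Pos β'.1 := orb_refl_pos S i β β' hβ hne e
        have hht' : ht β'.1 ≤ n := by
          rw [e]
          push_cast at hht
          omega
        have c1 := conj_yg S _ hfix w hcomm χ hm β β' rfl t
        have c2 := conj_yg S _ hfix w hcomm χ hm (rneg D β) (rneg D β')
          (show -(w β.1) = w (-β.1) by rw [map_neg]) t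
        have i1 := (ih β' hpos hht' (χ β * t)).1
        have i2 := (ih β' hpos hht' (χ (rneg D β) * t)).2
        rw [← c1] at i1
        rw [← c2] at i2
        constructor
        · have := H.mul_mem (H.mul_mem (H.inv_mem (hnF i)) i1) (hnF i)
          simpa [mul_assoc] using this
        · have := H.mul_mem (H.mul_mem (H.inv_mem (hnF i)) i2) (hnF i)
          simpa [mul_assoc] using this
  have hall : ∀ (β : Root D) (t : R), yg S β t ∈ H := by
    intro β t
    rcases pos_or_neg D β with h | h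
    · exact (key (ht β.1).toNat β h (by omega) t).1
    · have h' := (key (ht (rneg D β).1).toNat (rneg D β) h (by omega) t).2
      have e : rneg D (rneg D β) = β := root_ext D (neg_neg _)
      rwa [e] at h'
  have hle : FG S R ≤ H := by
    unfold FG
    rw [Subgroup.closure_le]
    rintro g ⟨β, t, rfl⟩
    exact hall β t
  have hgH := hle hg
  clear hg
  induction hgH using Subgroup.closure_induction_right with
  | one => exact h1
  | mul_right a _ b hb ih =>
    obtain ⟨i, t, rfl | rfl⟩ := hb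
    · exact hx _ _ _ ih
    · exact hy _ _ _ ih
  | mul_inv_cancel a _ b hb ih =>
    obtain ⟨i, t, rfl | rfl⟩ := hb
    · rw [← yg_neg]
      exact hx _ _ _ ih
    · rw [← yg_neg]
      exact hy _ _ _ ih

/-- the unipotent radical of a minimal parabolic subgroup of the folded group, in the big group -/
noncomputable def RO (R : Type*) [CommRing R] (i : Fin l) : Subgroup (G D R) :=
  Subgroup.closure {g | ∃ (β : Root D) (t : R), Pos β.1 ∧ β ∉ orb S (sr D i) ∧ g = xg D β t}

theorem RO_gen_conj {R : Type*} [CommRing R] (i : Fin l) (g : G D R)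
    (h : ∀ (β : Root D) (s : R), Pos β.1 → β ∉ orb S (sr D i) →
      g * xg D β s * g⁻¹ ∈ RO S R i)
    (r : G D R) (hr : r ∈ RO S R i) : g * r * g⁻¹ ∈ RO S R i := by
  induction hr using Subgroup.closure_induction with
  | mem x hx =>
    obtain ⟨β, s, h1, h2, rfl⟩ := hx
    exact h β s h1 h2
  | one =>
    rw [mul_one, mul_inv_cancel]
    exact (RO S R i).one_mem
  | mul x y _ _ hx hy =>
    have : g * (x * y) * g⁻¹ = (g * x * g⁻¹) * (g * y * g⁻¹) := by group
    rw [this]; exact mul_mem hx hy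
  | inv x _ hx =>
    have : g * x⁻¹ * g⁻¹ = (g * x * g⁻¹)⁻¹ := by group
    rw [this]; exact inv_mem hx

theorem RO_conj_pos' {R : Type*} [CommRing R] (i : Fin l) (γ : Root D)
    (hγ : γ ∈ orb S (sr D i)) (t : R) (r : G D R) (hr : r ∈ RO S R i) :
    xg D γ t * r * (xg D γ t)⁻¹ ∈ RO S R i := by
  refine RO_gen_conj S i _ ?_ r hr
  intro β s hβ hβo
  obtain ⟨j, rfl⟩ := orb_simple S i γ hγ
  have hj := pos_simple D j
  have h3 := (pos_iff_ht D β).1 hβ
  rcases lt_or_ge (bil D (sr D j).1 β.1) 0 with hneg | hnn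
  · have hrange := (bil_range D (sr D j) β).1
    have h2 : bil D (sr D j).1 β.1 ≠ -2 := by
      intro h
      rw [bil_eq_neg_two_iff] at h
      have h4 := (pos_iff_ht D (sr D j)).1 hj
      rw [h, ht_neg] at h3
      linarith
    have h1 : bil D (sr D j).1 β.1 = -1 := by omega
    let δ : Root D := ⟨(sr D j).1 + β.1, (add_root_iff D _ _).2 h1⟩
    rw [xg_bracket D (sr D j) β δ rfl, mul_assoc, mul_inv_cancel, mul_one]
    refine mul_mem (Subgroup.subset_closure ⟨δ, _, ?_, ?_, rfl⟩)
      (Subgroup.subset_closure ⟨β, s, hβ, hβo, rfl⟩)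
    · intro k
      exact add_nonneg (hj k) (hβ k)
    · intro hδ
      obtain ⟨k, hk⟩ := orb_simple S i δ hδ
      have h5 : ht δ.1 = ht (sr D k).1 := by rw [hk]
      have h6 : ht δ.1 = ht (sr D j).1 + ht β.1 := ht_add _ _
      have h7 : ht (sr D k).1 = 1 := ht_single k
      have h8 : ht (sr D j).1 = 1 := ht_single j
      linarith
  · rw [xg_commute D (sr D j) β hnn, mul_assoc, mul_inv_cancel, mul_one]
    exact Subgroup.subset_closure ⟨β, s, hβ, hβo, rfl⟩

theorem RO_conj_neg' {R : Type*} [CommRing R] (i : Fin l) (γ : Root D)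
    (hγ : γ ∈ orb S (sr D i)) (t : R) (r : G D R) (hr : r ∈ RO S R i) :
    xg D (rneg D γ) t * r * (xg D (rneg D γ) t)⁻¹ ∈ RO S R i := by
  refine RO_gen_conj S i _ ?_ r hr
  intro β s hβ hβo
  obtain ⟨j, rfl⟩ := orb_simple S i γ hγ
  have hj := pos_simple D j
  have h3 := (pos_iff_ht D β).1 hβ
  have hb : bil D (rneg D (sr D j)).1 β.1 = - bil D (sr D j).1 β.1 := bil_neg_left D _ _
  have hne : β ≠ sr D j := by
    intro h; rw [h] at hβo; exact hβo hγ
  rcases lt_or_ge (bil D (rneg D (sr D j)).1 β.1) 0 with hneg | hnn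
  · have hrange := (bil_range D (sr D j) β).2
    have h2 : bil D (sr D j).1 β.1 ≠ 2 := by
      intro h
      rw [bil_eq_two_iff] at h
      exact hne h.symm
    have h1 : bil D (sr D j).1 β.1 = 1 := by omega
    have h1' : bil D (rneg D (sr D j)).1 β.1 = -1 := by omega
    let δ : Root D := ⟨(rneg D (sr D j)).1 + β.1, (add_root_iff D _ _).2 h1'⟩
    have hδe : δ.1 = β.1 - (sr D j).1 := by
      change -(sr D j).1 + β.1 = β.1 - (sr D j).1
      abel
    rw [xg_bracket D (rneg D (sr D j)) β δ rfl, mul_assoc, mul_inv_cancel, mul_one]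
    refine mul_mem (Subgroup.subset_closure ⟨δ, _, ?_, ?_, rfl⟩)
      (Subgroup.subset_closure ⟨β, s, hβ, hβo, rfl⟩)
    · exact (pos_sub_simple D β δ j hβ hne hδe).1
    · intro hδ
      rcases orb_orth S (sr D i) δ (sr D j) hδ hγ with h | h
      · exact (pos_sub_simple D β δ j hβ hne hδe).2 h
      · rw [hδe, bil_sub_left, bil_comm D β.1, h1, root_norm] at h
        norm_num at h
  · rw [xg_commute D (rneg D (sr D j)) β hnn, mul_assoc, mul_inv_cancel, mul_one]
    exact Subgroup.subset_closure ⟨β, s, hβ, hβo, rfl⟩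

theorem list_conj_mem {R : Type*} [CommRing R] (H : Subgroup (G D R)) (a : Root D → R)
    (L : List (Root D))
    (h : ∀ γ ∈ L, ∀ r ∈ H, xg D γ (a γ) * r * (xg D γ (a γ))⁻¹ ∈ H) (r : G D R) (hr : r ∈ H) :
    (L.map fun γ => xg D γ (a γ)).prod * r * ((L.map fun γ => xg D γ (a γ)).prod)⁻¹ ∈ H := by
  induction L generalizing r with
  | nil => simpa using hr
  | cons γ L ih =>
    rw [List.map_cons, List.prod_cons]
    have h1 := ih (fun γ' hγ' => h γ' (List.mem_cons_of_mem _ hγ')) r hr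
    have h2 := h γ List.mem_cons_self _ h1
    convert h2 using 1
    group

theorem XA_conj_mem {R : Type*} [CommRing R] (i : Fin l) (a : Root D → R) (r : G D R)
    (hr : r ∈ RO S R i) :
    XA D (orb S (sr D i)) a * r * (XA D (orb S (sr D i)) a)⁻¹ ∈ RO S R i := by
  refine list_conj_mem (RO S R i) a _ ?_ r hr
  intro γ hγ r hr
  exact RO_conj_pos' S i γ (Finset.mem_toList.1 hγ) _ r hr

theorem RO_conj {R : Type*} [CommRing R] (i : Fin l) (t : R) (r : G D R) (hr : r ∈ RO S R i) :
    yg S (sr D i) t * r * (yg S (sr D i) t)⁻¹ ∈ RO S R i ∧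
    yg S (rneg D (sr D i)) t * r * (yg S (rneg D (sr D i)) t)⁻¹ ∈ RO S R i := by
  refine ⟨XA_conj_mem S i _ r hr, ?_⟩
  refine list_conj_mem (RO S R i) (fun _ => t) _ ?_ r hr
  intro γ hγ r hr
  have h1 : γ ∈ orb S (rneg D (sr D i)) := Finset.mem_toList.1 hγ
  have h2 : rneg D (rneg D γ) = γ := root_ext D (neg_neg γ.1)
  have h3 : rneg D γ ∈ orb S (sr D i) := by
    rw [← mem_orb_neg, h2]; exact h1
  have h4 := RO_conj_neg' S i (rneg D γ) h3 t r hr
  rw [h2] at h4
  exact h4

theorem XA_zero' {R : Type*} [CommRing R] (P : Finset (Root D)) : XA D P (0 : Root D → R) = 1 := by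
  rw [XA]
  refine List.prod_eq_one ?_
  intro x hx
  obtain ⟨γ, -, rfl⟩ := List.mem_map.1 hx
  simp [xg_zero]

theorem orb_comm (β : Root D) : ∀ γ ∈ orb S β, ∀ δ ∈ orb S β, 0 ≤ bil D γ.1 δ.1 := by
  intro γ hγ δ hδ
  rcases orb_orth S β γ δ hγ hδ with h | h
  · rw [h, root_norm]; norm_num
  · rw [h]

theorem XA_neg' {R : Type*} [CommRing R] (P : Finset (Root D))
    (hP : ∀ γ ∈ P, ∀ δ ∈ P, 0 ≤ bil D γ.1 δ.1) (a : Root D → R) :
    XA D P (-a) = (XA D P a)⁻¹ := by
  rw [eq_inv_iff_mul_eq_one, ← XA_add_of_comm P hP, neg_add_cancel, XA_zero']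

theorem UG_orb_decomp {R : Type*} [CommRing R] (i : Fin l) (u : G D R) (hu : u ∈ UG D R) :
    ∃ a : Root D → R, ∃ r ∈ RO S R i, u = XA D (orb S (sr D i)) a * r := by
  have hP := orb_comm S (sr D i)
  induction hu using Subgroup.closure_induction with
  | mem x hx =>
    obtain ⟨β, s, h1, rfl⟩ := hx
    by_cases h : β ∈ orb S (sr D i)
    · refine ⟨Pi.single β s, 1, one_mem _, ?_⟩
      rw [XA_single D _ β h, mul_one]
    · refine ⟨0, xg D β s, Subgroup.subset_closure ⟨β, s, h1, h, rfl⟩, ?_⟩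
      rw [XA_zero', one_mul]
  | one => exact ⟨0, 1, one_mem _, by rw [XA_zero', mul_one]⟩
  | mul x y _ _ hx hy =>
    obtain ⟨a, r, hr, rfl⟩ := hx
    obtain ⟨b, r', hr', rfl⟩ := hy
    refine ⟨a + b, XA D (orb S (sr D i)) (-b) * r * (XA D (orb S (sr D i)) (-b))⁻¹ * r',
      mul_mem (XA_conj_mem S i _ r hr) hr', ?_⟩
    rw [XA_add_of_comm _ hP, XA_neg' _ hP]
    group
  | inv x _ hx =>
    obtain ⟨a, r, hr, rfl⟩ := hx
    refine ⟨-a, XA D (orb S (sr D i)) a * r⁻¹ * (XA D (orb S (sr D i)) a)⁻¹,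
      XA_conj_mem S i _ _ (inv_mem hr), ?_⟩
    rw [XA_neg' _ hP]
    group

theorem RO_le_UG {R : Type*} [CommRing R] (i : Fin l) : RO S R i ≤ UG D R := by
  refine (Subgroup.closure_le _).2 ?_
  rintro x ⟨β, t, h1, -, rfl⟩
  exact Subgroup.subset_closure ⟨β, t, h1, rfl⟩

/-- the coefficient of a simple root -/
def cf {R : Type*} [CommRing R] (j : Fin l) (g : G D R) : R :=
  mat D g (Sum.inl j) (Sum.inr (rneg D (sr D j)))

theorem cf_mul {R : Type*} [CommRing R] (j : Fin l) (g g' : G D R) (hg : g ∈ UG D R)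
    (hg' : g' ∈ UG D R) : cf j (g * g') = cf j g + cf j g' := by
  obtain ⟨h1, h2⟩ := UG_unitri D g hg
  obtain ⟨h1', h2'⟩ := UG_unitri D g' hg'
  have hne : (Sum.inl j : Idx D) ≠ Sum.inr (rneg D (sr D j)) := by simp
  have hd : deg D (Sum.inr (rneg D (sr D j))) = -1 := by
    change ht (-(sr D j).1) = -1
    rw [ht_neg]
    have : ht (sr D j).1 = 1 := ht_single j
    rw [this]
  have hd0 : deg D (Sum.inl j : Idx D) = 0 := rfl
  rw [cf, mat_mul, Matrix.mul_apply]
  rw [Finset.sum_eq_add_of_mem (Sum.inl j) (Sum.inr (rneg D (sr D j))) (Finset.mem_univ _)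
    (Finset.mem_univ _) hne]
  · rw [h2, one_mul, h2', mul_one, cf, cf, add_comm]
  · intro m _ hm
    by_cases hm1 : deg D (Sum.inl j : Idx D) ≤ deg D m
    · rw [h1 _ _ (Ne.symm hm.1) hm1, zero_mul]
    · rw [h1' m _ hm.2 (by rw [hd]; rw [hd0] at hm1; omega), mul_zero]

theorem cf_xg {R : Type*} [CommRing R] (j : Fin l) (β : Root D) (t : R) :
    cf j (xg D β t) = if β = sr D j then -t else 0 := by
  rw [cf, mat_xg, xM]
  have h1 : (1 : Matrix (Idx D) (Idx D) R) (Sum.inl j) (Sum.inr (rneg D (sr D j))) = 0 :=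
    Matrix.one_apply_ne (by simp)
  rw [Matrix.add_apply, Matrix.add_apply, h1, Matrix.smul_apply, Matrix.smul_apply,
    Matrix.map_apply, Matrix.map_apply]
  have h2 : F D β (Sum.inl j) (Sum.inr (rneg D (sr D j))) = 0 := rfl
  have h3 : E D β (Sum.inl j) (Sum.inr (rneg D (sr D j))) =
      if (rneg D (sr D j)).1 = -β.1 then - β.1 j else 0 := rfl
  rw [h2, h3]
  by_cases h : β = sr D j
  · rw [if_pos h, if_pos (by rw [h]; rfl)]
    have h4 : β.1 j = 1 := by rw [h]; exact Pi.single_eq_same _ _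
    rw [h4]
    simp
  · rw [if_neg h, if_neg]
    · simp
    · intro h5
      apply h
      apply root_ext
      have h6 : -(sr D j).1 = -β.1 := h5
      exact (neg_injective h6).symm

theorem cf_one {R : Type*} [CommRing R] (j : Fin l) : cf j (1 : G D R) = 0 :=
  Matrix.one_apply_ne (by simp)

theorem cf_inv {R : Type*} [CommRing R] (j : Fin l) (g : G D R) (hg : g ∈ UG D R) :
    cf j g⁻¹ = - cf j g := by
  have h := cf_mul j g⁻¹ g (inv_mem hg) hg
  rw [inv_mul_cancel, cf_one] at h
  exact (neg_eq_of_add_eq_zero_left h.symm).symm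

theorem cf_RO {R : Type*} [CommRing R] (i j : Fin l) (hj : sr D j ∈ orb S (sr D i)) (r : G D R)
    (hr : r ∈ RO S R i) : cf j r = 0 := by
  induction hr using Subgroup.closure_induction with
  | mem x hx =>
    obtain ⟨β, s, h1, h2, rfl⟩ := hx
    rw [cf_xg, if_neg]
    rintro rfl
    exact h2 hj
  | one => exact cf_one j
  | mul x y hx' hy' hx hy =>
    rw [cf_mul j x y (RO_le_UG S i hx') (RO_le_UG S i hy'), hx, hy, add_zero]
  | inv x hx' hx => rw [cf_inv j x (RO_le_UG S i hx'), hx, neg_zero]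

theorem XA_mem_UG {R : Type*} [CommRing R] (i : Fin l) (a : Root D → R) :
    XA D (orb S (sr D i)) a ∈ UG D R := by
  refine Subgroup.list_prod_mem _ ?_
  intro x hx
  obtain ⟨γ, hγ, rfl⟩ := List.mem_map.1 hx
  refine Subgroup.subset_closure ⟨γ, _, ?_, rfl⟩
  exact (orb_pos S _ γ (Finset.mem_toList.1 hγ)).2 (pos_simple D i)

theorem cf_list {R : Type*} [CommRing R] (j : Fin l) (a : Root D → R) (L : List (Root D))
    (hL : ∀ γ ∈ L, Pos γ.1) : (L.map fun γ => xg D γ (a γ)).prod ∈ UG D R ∧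
    cf j (L.map fun γ => xg D γ (a γ)).prod = (L.map fun γ => cf j (xg D γ (a γ))).sum := by
  induction L with
  | nil => exact ⟨by simp, by simpa using cf_one j⟩
  | cons γ L ih =>
    obtain ⟨h1, h2⟩ := ih (fun γ' hγ' => hL γ' (List.mem_cons_of_mem _ hγ'))
    have h3 : xg D γ (a γ) ∈ UG D R :=
      Subgroup.subset_closure ⟨γ, _, hL γ List.mem_cons_self, rfl⟩
    rw [List.map_cons, List.prod_cons, List.map_cons, List.sum_cons]
    exact ⟨mul_mem h3 h1, by rw [cf_mul j _ _ h3 h1, h2]⟩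

theorem cf_XA {R : Type*} [CommRing R] (i j : Fin l) (hj : sr D j ∈ orb S (sr D i))
    (a : Root D → R) : cf j (XA D (orb S (sr D i)) a) = - a (sr D j) := by
  classical
  have h := (cf_list j a (orb S (sr D i)).toList (fun γ hγ =>
    (orb_pos S _ γ (Finset.mem_toList.1 hγ)).2 (pos_simple D i))).2
  rw [XA, h, Finset.sum_map_toList]
  rw [Finset.sum_eq_single (sr D j)]
  · rw [cf_xg, if_pos rfl]
  · intro γ _ hγ
    rw [cf_xg, if_neg hγ]
  · intro h; exact absurd hj h

theorem sroot_sr (j : Fin l) : sroot S (sr D j) = sr D (S.σ j) :=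
  root_ext D (pv_single S.σ j)

theorem sroot_rneg (β : Root D) : sroot S (rneg D β) = rneg D (sroot S β) := rfl

theorem UF_decomp {K : Type*} [Field K] (i : Fin l) (u : G D K) (hu : u ∈ UG D K)
    (hfix : sg S K u = u) : ∃ (s : K) (r : G D K), r ∈ RO S K i ∧ sg S K r = r ∧
      u = yg S (sr D i) s * r := by
  obtain ⟨a, r, hr, hu2⟩ := UG_orb_decomp S i u hu
  have hcf : ∀ j, sr D j ∈ orb S (sr D i) → cf j u = - a (sr D j) := by
    intro j hj
    rw [hu2, cf_mul j _ _ (XA_mem_UG S i a) (RO_le_UG S i hr), cf_XA S i j hj, cf_RO S i j hj r hr,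
      add_zero]
  have hs : ∀ j, cf (S.σ j) u = cf j u := by
    intro j
    have h := mat_sg S u (Sum.inl j) (Sum.inr (rneg D (sr D j)))
    rw [hfix] at h
    have h1 : si S (Sum.inr (rneg D (sr D j))) = Sum.inr (rneg D (sr D (S.σ j))) := by
      change Sum.inr (sroot S (rneg D (sr D j))) = _
      rw [sroot_rneg, sroot_sr]
    have h2 : si S (Sum.inl j : Idx D) = Sum.inl (S.σ j) := rfl
    rw [h1, h2] at h
    exact h
  have hconst : ∀ γ ∈ orb S (sr D i), γ ∈ orb S (sr D i) ∧ a γ = a (sr D i) := by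
    refine orb_induction S (sr D i) ⟨self_mem_orb S _, rfl⟩ ?_
    rintro γ ⟨h1, h2⟩
    have h3 : sroot S γ ∈ orb S (sr D i) := by
      rw [← orb_eq S _ γ h1]; exact sroot_mem_orb S γ
    refine ⟨h3, ?_⟩
    obtain ⟨j, rfl⟩ := orb_simple S i γ h1
    rw [sroot_sr] at h3 ⊢
    have h4 := hs j
    rw [hcf j h1, hcf _ h3, neg_inj] at h4
    rw [h4, h2]
  have hy : XA D (orb S (sr D i)) a = yg S (sr D i) (a (sr D i)) := by
    rw [yg]
    exact XA_congr D _ _ _ (fun γ hγ => (hconst γ hγ).2)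
  rw [hy] at hu2
  refine ⟨a (sr D i), r, hr, ?_, hu2⟩
  have h1 := hfix
  rw [hu2, map_mul, sg_yg] at h1
  exact mul_left_cancel h1

/-- monomial elements of the folded group -/
def NF (R : Type*) [CommRing R] : Set (G D R) := {g | g ∈ FG S R ∧
  ∃ w χ, IsWeyl D w ∧ (∀ x, w (pv S.σ x) = pv S.σ (w x)) ∧ Mono D g w χ}

/-- auxiliary: `g` has a Bruhat decomposition -/
def bruhatF_Q {K : Type*} [Field K] (g : G D K) : Prop :=
  ∃ u ∈ UG D K, u ∈ FG S K ∧ ∃ n ∈ NF S K, ∃ u' ∈ UG D K, u' ∈ FG S K ∧ g = u * n * u'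

theorem bruhatF_left {K : Type*} [Field K] {g u : G D K} (hu : u ∈ UG D K) (huF : u ∈ FG S K)
    (h : bruhatF_Q S g) : bruhatF_Q S (u * g) := by
  obtain ⟨u1, h1, h1F, n, hn, u2, h2, h2F, rfl⟩ := h
  exact ⟨u * u1, mul_mem hu h1, mul_mem huF h1F, n, hn, u2, h2, h2F, by simp only [mul_assoc]⟩

theorem bruhatF_right {K : Type*} [Field K] {g u : G D K} (hu : u ∈ UG D K) (huF : u ∈ FG S K)
    (h : bruhatF_Q S g) : bruhatF_Q S (g * u) := by
  obtain ⟨u1, h1, h1F, n, hn, u2, h2, h2F, rfl⟩ := h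
  exact ⟨u1, h1, h1F, n, hn, u2 * u, mul_mem h2 hu, mul_mem h2F huF, by simp only [mul_assoc]⟩

theorem bruhatF_mem {K : Type*} [Field K] (β : Root D) (t : K) (hβ : Pos β.1) :
    yg S β t ∈ UG D K := by
  unfold yg XA
  apply Subgroup.list_prod_mem
  intro g hg
  rw [List.mem_map] at hg
  obtain ⟨γ, hγ, rfl⟩ := hg
  rw [Finset.mem_toList] at hγ
  exact Subgroup.subset_closure ⟨γ, t, (orb_pos S β γ hγ).2 hβ, rfl⟩

theorem bruhatF_RO_le {K : Type*} [Field K] (i : Fin l) : RO S K i ≤ UG D K := by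
  apply Subgroup.closure_mono
  rintro g ⟨β, t, hβ, _, rfl⟩
  exact ⟨β, t, hβ, rfl⟩

theorem bruhatF_shift {K : Type*} [Field K] {n : G D K} (hnF : n ∈ FG S K)
    {w : (Fin l → ℤ) ≃+ (Fin l → ℤ)} (hw : ∀ x, w (pv S.σ x) = pv S.σ (w x))
    {χ : Root D → K} (h : Mono D n w χ) (β β' : Root D) (hβ : β'.1 = w β.1) (t : K) :
    n * yg S β t = yg S β' (χ β * t) * n := by
  rw [← conj_yg S n (FG_fix S n hnF) w hw χ h β β' hβ t, inv_mul_cancel_right]

theorem bruhatF_nF {K : Type*} [Field K] (α : Root D) (c : Kˣ) :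
    yg S (rneg D α) ((c⁻¹ : Kˣ) : K) =
      yg S α (-(c : K)) * nF S α c * yg S α (-(c : K)) := by
  unfold nF
  rw [yg_neg]
  group

theorem bruhatF_rneg (α : Root D) : rneg D (rneg D α) = α := by
  apply root_ext
  simp [rneg]

theorem bruhatF_mulNF {K : Type*} [Field K] {n n' : G D K} (hn : n ∈ NF S K) (hn' : n' ∈ NF S K) :
    n * n' ∈ NF S K := by
  obtain ⟨h1, w, χ, hW, hc, hM⟩ := hn
  obtain ⟨h1', w', χ', hW', hc', hM'⟩ := hn'
  refine ⟨mul_mem h1 h1', w'.trans w, _, IsWeyl.trans w w' hW hW', ?_, hM.mul D hM'⟩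
  intro x
  rw [AddEquiv.trans_apply, AddEquiv.trans_apply, hc', hc]

theorem bruhatF_A {K : Type*} [Field K] (a : Root D) (ha : Pos a.1) {n : G D K}
    (hnF : n ∈ FG S K) {w : (Fin l → ℤ) ≃+ (Fin l → ℤ)} (hW : IsWeyl D w)
    (hc : ∀ x, w (pv S.σ x) = pv S.σ (w x)) {χ : Root D → K} (h : Mono D n w χ)
    (hw : Pos (w a.1)) (s t : K) :
    bruhatF_Q S (n * yg S a s * yg S (rneg D a) t) := by
  have hpos : Pos (wr D w h.isom a).1 := hw
  rw [bruhatF_shift S hnF hc h a (wr D w h.isom a) rfl s, mul_assoc]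
  apply bruhatF_left S (bruhatF_mem S _ _ hpos) (yg_mem_FG S _ _)
  by_cases ht : t = 0
  · subst ht
    rw [yg_zero, mul_one]
    exact ⟨1, one_mem _, one_mem _, n, ⟨hnF, w, χ, hW, hc, h⟩, 1, one_mem _, one_mem _, by simp⟩
  · have h1 : t = (((Units.mk0 t ht)⁻¹⁻¹ : Kˣ) : K) := by simp
    rw [h1, bruhatF_nF S a ((Units.mk0 t ht)⁻¹), ← mul_assoc, ← mul_assoc,
      bruhatF_shift S hnF hc h a (wr D w h.isom a) rfl]
    obtain ⟨w2, χ2, h2, hW2, hc2, _⟩ := nF_mono S a ((Units.mk0 t ht)⁻¹)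
    exact ⟨_, bruhatF_mem S _ (χ a * -(((Units.mk0 t ht)⁻¹ : Kˣ) : K)) hpos,
      yg_mem_FG S _ _,
      n * nF S a ((Units.mk0 t ht)⁻¹),
      bruhatF_mulNF S ⟨hnF, w, χ, hW, hc, h⟩ ⟨nF_mem S _ _, w2, χ2, hW2, hc2, h2⟩, _,
      bruhatF_mem S _ (-(((Units.mk0 t ht)⁻¹ : Kˣ) : K)) ha, yg_mem_FG S _ _,
      by simp only [mul_assoc]⟩

theorem bruhatF_refl (a : Root D) {w : (Fin l → ℤ) ≃+ (Fin l → ℤ)}
    (hw : ∀ x, w x = x - ∑ γ ∈ orb S (rneg D a), bil D γ.1 x • γ.1) : w a.1 = -a.1 := by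
  rw [hw, Finset.sum_eq_single (rneg D a)]
  · have h6 : bil D (rneg D a).1 a.1 = -2 := by
      change bil D (-a.1) a.1 = -2
      rw [bil_neg_left, a.2]
    rw [h6]
    change a.1 - (-2 : ℤ) • (-a.1) = -a.1
    rw [smul_neg, neg_smul, neg_neg, two_smul]
    abel
  · intro γ hγ hne
    have h1 := orb_orth S (rneg D a) γ (rneg D a) hγ (self_mem_orb S _)
    rcases h1 with h1 | h1
    · exact absurd h1 hne
    · have h2 : bil D γ.1 a.1 = 0 := by
        change bil D γ.1 (-a.1) = 0 at h1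
        rw [bil_neg_right] at h1
        linarith
      rw [h2, zero_smul]
  · intro h
    exact absurd (self_mem_orb S _) h

theorem bruhatF_B {K : Type*} [Field K] (a : Root D) (ha : Pos a.1) {n : G D K}
    (hn : n ∈ NF S K) (s t : K) :
    bruhatF_Q S (n * yg S a s * yg S (rneg D a) t) := by
  obtain ⟨hnF, w, χ, hW, hc, h⟩ := hn
  rcases pos_or_neg D (wr D w h.isom a) with hw | hw
  · exact bruhatF_A S a ha hnF hW hc h hw s t
  · have hneg : w (rneg D a).1 = -(w a.1) := by
      change w (-a.1) = _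
      rw [map_neg]
    have hpos : Pos (wr D w h.isom (rneg D a)).1 := by
      change Pos (w (rneg D a).1)
      rw [hneg]
      exact hw
    by_cases hs : s = 0
    · subst hs
      rw [yg_zero, mul_one, bruhatF_shift S hnF hc h (rneg D a) (wr D w h.isom (rneg D a)) rfl]
      exact ⟨_, bruhatF_mem S _ (χ (rneg D a) * t) hpos, yg_mem_FG S _ _, n,
        ⟨hnF, w, χ, hW, hc, h⟩, 1, one_mem _, one_mem _, by simp⟩
    · have h1 : yg S a s = yg S (rneg D a) (-(((Units.mk0 s hs)⁻¹ : Kˣ) : K)) *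
          nF S (rneg D a) ((Units.mk0 s hs)⁻¹) *
          yg S (rneg D a) (-(((Units.mk0 s hs)⁻¹ : Kˣ) : K)) := by
        have h2 := bruhatF_nF S (rneg D a) ((Units.mk0 s hs)⁻¹)
        rw [bruhatF_rneg] at h2
        rw [← h2]
        simp
      obtain ⟨w2, χ2, h2, hW2, hc2, hw2⟩ := nF_mono S (rneg D a) ((Units.mk0 s hs)⁻¹)
      have h3 := h.mul D h2
      have h4 : Pos ((w2.trans w) a.1) := by
        rw [AddEquiv.trans_apply, bruhatF_refl S a hw2, map_neg]
        exact hw
      have hc3 : ∀ x, (w2.trans w) (pv S.σ x) = pv S.σ ((w2.trans w) x) := by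
        intro x
        rw [AddEquiv.trans_apply, AddEquiv.trans_apply, hc2, hc]
      have h7 := bruhatF_A S a ha (mul_mem hnF (nF_mem S _ _)) (IsWeyl.trans w w2 hW hW2) hc3 h3 h4
        0 (-(((Units.mk0 s hs)⁻¹ : Kˣ) : K) + t)
      rw [yg_zero, mul_one] at h7
      have h8 : n * yg S a s * yg S (rneg D a) t =
          yg S (wr D w h.isom (rneg D a)) (χ (rneg D a) * -(((Units.mk0 s hs)⁻¹ : Kˣ) : K)) *
          (n * nF S (rneg D a) ((Units.mk0 s hs)⁻¹) *
            yg S (rneg D a) (-(((Units.mk0 s hs)⁻¹ : Kˣ) : K) + t)) := by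
        rw [h1, yg_add]
        simp only [← mul_assoc]
        rw [bruhatF_shift S hnF hc h (rneg D a) (wr D w h.isom (rneg D a)) rfl]
      rw [h8]
      exact bruhatF_left S (bruhatF_mem S _ _ hpos) (yg_mem_FG S _ _) h7

/-- Bruhat decomposition in the folded group -/
theorem bruhatF {K : Type*} [Field K] (g : G D K) (hg : g ∈ FG S K) :
    ∃ u ∈ UG D K, u ∈ FG S K ∧ ∃ n ∈ NF S K, ∃ u' ∈ UG D K, u' ∈ FG S K ∧ g = u * n * u' := by
  change bruhatF_Q S g
  refine simple_inductionF S (p := fun g => bruhatF_Q S g) ?_ ?_ ?_ g hg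
  · refine ⟨1, one_mem _, one_mem _, 1, ⟨one_mem _, AddEquiv.refl _, fun _ => 1, IsWeyl.one,
      fun _ => rfl, Mono.one D⟩, 1, one_mem _, one_mem _, by simp⟩
  · intro g i t h
    exact bruhatF_right S (bruhatF_mem S _ _ (pos_simple D i)) (yg_mem_FG S _ _) h
  · intro g i t h
    obtain ⟨u, hu, huF, n, hn, u', hu', hu'F, rfl⟩ := h
    obtain ⟨s, r, hr, hrs, rfl⟩ := UF_decomp S i u' hu' (FG_fix S u' hu'F)
    have h1 := (RO_conj S i (-t) r hr).2
    rw [← yg_neg, neg_neg] at h1
    have h2 : u * n * (yg S (sr D i) s * r) * yg S (rneg D (sr D i)) t =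
        u * (n * yg S (sr D i) s * yg S (rneg D (sr D i)) t) *
          (yg S (rneg D (sr D i)) (-t) * r * yg S (rneg D (sr D i)) t) := by
      rw [yg_neg]
      group
    rw [h2]
    have hU := bruhatF_RO_le S i h1
    have hfix : sg S K (yg S (rneg D (sr D i)) (-t) * r * yg S (rneg D (sr D i)) t) =
        yg S (rneg D (sr D i)) (-t) * r * yg S (rneg D (sr D i)) t := by
      rw [map_mul, map_mul, sg_yg, sg_yg, hrs]
    exact bruhatF_right S hU (mem_FG_of_unip S _ hU hfix)
      (bruhatF_left S hu huF (bruhatF_B S (sr D i) (pos_simple D i) hn s t))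

end Pool.Agent.Helper255.CF
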