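import Pool.Agent.Helper255.CF.Poly

set_option autoImplicit false

namespace Pool.Agent.Helper255.CF

open MvPolynomial

theorem pm2_sz {L : Type} [Field L] [Fintype L] [DecidableEq L] {τ : Type} [Fintype τ]
    [DecidableEq τ] (P : MvPolynomial τ L) (hP : P ≠ 0) :
    (Finset.univ.filter fun y : τ → L => eval y P = 0).card * Fintype.card L ≤
      P.totalDegree * Fintype.card L ^ Fintype.card τ := by
  classical
  set e : τ ≃ Fin (Fintype.card τ) := Fintype.equivFin τ with he
  have hP' : rename e P ≠ 0 := by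
    intro h
    apply hP
    apply rename_injective e e.injective
    rw [h, map_zero]
  have h1 := schwartz_zippel_totalDegree hP' (Finset.univ : Finset L)
  have hcard : (Finset.filter (fun f : Fin (Fintype.card τ) → L => eval f (rename e P) = 0)
      (Fintype.piFinset fun _ => (Finset.univ : Finset L))).card =
      (Finset.univ.filter fun y : τ → L => eval y P = 0).card := by
    rw [Fintype.piFinset_univ]
    apply Finset.card_bij (fun f _ => f ∘ e)
    · intro f hf
      rw [Finset.mem_filter] at hf ⊢
      refine ⟨Finset.mem_univ _, ?_⟩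
      rw [← eval_rename]
      exact hf.2
    · intro f _ g _ hfg
      funext i
      have := congrFun hfg (e.symm i)
      simpa using this
    · intro y hy
      rw [Finset.mem_filter] at hy
      refine ⟨y ∘ e.symm, ?_, ?_⟩
      · rw [Finset.mem_filter]
        refine ⟨Finset.mem_univ _, ?_⟩
        rw [eval_rename]
        have : (y ∘ e.symm) ∘ e = y := by
          funext i; simp
        rw [this]
        exact hy.2
      · funext i
        simp
  rw [hcard] at h1
  have hLpos : 0 < Fintype.card L := Fintype.card_pos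
  rw [Finset.card_univ] at h1
  have h2 : ((Finset.univ.filter fun y : τ → L => eval y P = 0).card : ℚ≥0) *
      (Fintype.card L : ℚ≥0) ≤ ((rename e P).totalDegree : ℚ≥0) *
      (Fintype.card L : ℚ≥0) ^ Fintype.card τ := by
    have hq : (0 : ℚ≥0) < (Fintype.card L : ℚ≥0) := by exact_mod_cast hLpos
    rwa [div_le_div_iff₀ (pow_pos hq _) hq] at h1
  have h3 : (Finset.univ.filter fun y : τ → L => eval y P = 0).card * Fintype.card L ≤
      (rename e P).totalDegree * Fintype.card L ^ Fintype.card τ := by
    exact_mod_cast h2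
  refine h3.trans (Nat.mul_le_mul_right _ ?_)
  exact totalDegree_rename_le e P

theorem pm2_option {L : Type} [Field L] {σ : Type} (f : MvPolynomial σ L) :
    optionEquivLeft L σ (rename some f) = Polynomial.C f := by
  induction f using MvPolynomial.induction_on with
  | C a => rw [rename_C, optionEquivLeft_C]
  | add p q hp hq => rw [map_add, map_add, hp, hq, map_add]
  | mul_X p i hp => rw [map_mul, map_mul, hp, rename_X, optionEquivLeft_X_some, map_mul]

theorem pm2_F {L : Type} [Field L] {σ Γ : Type} [Fintype Γ] (f : Γ → MvPolynomial σ L)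
    (k : Γ → ℕ) (hk : Function.Injective k) (a : Γ → L) (γ₀ : Γ) (h1 : a γ₀ ≠ 0) (h2 : f γ₀ ≠ 0) :
    (∑ γ, C (a γ) * (X none ^ k γ * rename some (f γ)) : MvPolynomial (Option σ) L) ≠ 0 := by
  classical
  intro h
  have h3 := congrArg (fun P => (optionEquivLeft L σ P).coeff (k γ₀)) h
  have h4 : (optionEquivLeft L σ (∑ γ, C (a γ) * (X none ^ k γ * rename some (f γ)))).coeff (k γ₀) =
      C (a γ₀) * f γ₀ := by
    rw [map_sum, Polynomial.finsetSum_coeff]
    rw [Finset.sum_eq_single γ₀]
    · rw [map_mul, map_mul, map_pow, optionEquivLeft_C, optionEquivLeft_X_none, pm2_option,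
        Polynomial.coeff_C_mul, Polynomial.coeff_mul_C, Polynomial.coeff_X_pow, if_pos rfl, one_mul]
    · intro γ _ hγ
      rw [map_mul, map_mul, map_pow, optionEquivLeft_C, optionEquivLeft_X_none, pm2_option,
        Polynomial.coeff_C_mul, Polynomial.coeff_mul_C, Polynomial.coeff_X_pow, if_neg, zero_mul,
        mul_zero]
      intro h5
      exact hγ (hk h5.symm)
    · intro h5
      exact absurd (Finset.mem_univ _) h5
  have h5 : (optionEquivLeft L σ (∑ γ, C (a γ) * (X none ^ k γ * rename some (f γ)))).coeff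
      (k γ₀) = 0 := by
    rw [h, map_zero, Polynomial.coeff_zero]
  rw [h4] at h5
  rcases mul_eq_zero.1 h5 with h6 | h6
  · exact h1 (C_eq_zero.1 h6)
  · exact h2 h6

/-- the polynomial method: over a large extension `L` of `K` the traces of `c ^ k * f` can be
made zero without killing the nontrivial `K`-combinations -/
theorem poly_method2 {K : Type} [Field K] [Finite K] {σ Γ : Type} [Fintype σ] [Fintype Γ]
    (D : ℕ) : ∃ N₀ : ℕ, ∀ (L : Type) [Field L] [Finite L] [Algebra K L],
      N₀ ≤ Module.finrank K L → ∀ (f : Γ → MvPolynomial σ L) (k : Γ → ℕ) (h : MvPolynomial σ L),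
      (∀ γ, (f γ).totalDegree ≤ D) → (∀ γ, 1 ≤ k γ ∧ k γ ≤ D) → Function.Injective k →
      h ≠ 0 → h.totalDegree ≤ D →
      ∃ (c : L) (s : σ → L), c ≠ 0 ∧ eval s h ≠ 0 ∧
        (∀ γ, Algebra.trace K L (c ^ k γ * eval s (f γ)) = 0) ∧
        (∀ γ, f γ ≠ 0 → eval s (f γ) ≠ 0) ∧
        ∀ a : Γ → K, (∃ γ, a γ ≠ 0 ∧ f γ ≠ 0) →
          (∑ γ, algebraMap K L (a γ) * (c ^ k γ * eval s (f γ))) ≠ 0 := by
  classical
  haveI : Fintype K := Fintype.ofFinite K
  set q := Fintype.card K with hq
  have hq2 : 1 < q := Fintype.one_lt_card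
  set E := 1 + D + Fintype.card Γ * D + q ^ Fintype.card Γ * (D + D) with hE
  set W := q ^ (Fintype.card Γ * ((D + D) * (q - 1))) with hW
  obtain ⟨N₀, hN₀⟩ : ∃ N₀ : ℕ, E * W < q ^ N₀ := ⟨E * W, Nat.lt_pow_self hq2⟩
  refine ⟨N₀, ?_⟩
  intro L _ _ _ hN f k h hf hk hkinj hh0 hhD
  haveI : Fintype L := Fintype.ofFinite L
  haveI : Module.Finite K L := Module.Finite.of_finite
  set N := Module.finrank K L with hNdef
  set b : Module.Basis (Fin N) K L := Module.finBasis K L with hb
  have hcardL : Fintype.card L = q ^ N := Module.card_eq_pow_finrank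
  set G : Γ → MvPolynomial (Option σ) L := fun γ => X none ^ k γ * rename some (f γ) with hG
  have hGdeg : ∀ γ, (G γ).totalDegree ≤ D + D := by
    intro γ
    refine (totalDegree_mul _ _).trans (add_le_add ?_ ?_)
    · refine (totalDegree_pow _ _).trans ?_
      rw [totalDegree_X, mul_one]
      exact (hk γ).2
    · exact (totalDegree_rename_le _ _).trans (hf γ)
  have hGeval : ∀ γ (y : Option σ → L), eval y (G γ) =
      y none ^ k γ * eval (fun i => y (some i)) (f γ) := by
    intro γ y
    simp only [hG, map_mul, map_pow, eval_X, eval_rename]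
    rfl
  choose g hg1 hg2 using fun γ => exists_trace_poly b (G γ) (D + D) (hGdeg γ)
  have h0 : ∀ γ, eval (0 : Option σ × Fin N → K) (g γ) = 0 := by
    intro γ
    rw [hg2 γ, hGeval]
    simp only [Pi.zero_apply, zero_smul, Finset.sum_const_zero]
    rw [zero_pow (by have := (hk γ).1; omega), zero_mul, map_zero]
  have hcz := card_common_zeros g (D + D) hg1 0 h0
  set Z := Finset.univ.filter fun x : Option σ × Fin N → K => ∀ γ, eval x (g γ) = 0 with hZ
  -- the map to points of `L`
  set Φ : (Option σ × Fin N → K) → (Option σ → L) := fun x i => ∑ j, x (i, j) • b j with hΦ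
  have hΦinj : Function.Injective Φ := by
    intro x x' h
    funext ⟨i, j⟩
    have h1 := congrFun h i
    simp only [hΦ] at h1
    have h2 := congrArg (fun v => b.repr v j) h1
    simpa [Finsupp.single_apply] using h2
  -- the combinations
  set F : (Γ → K) → MvPolynomial (Option σ) L :=
    fun a => ∑ γ, C (algebraMap K L (a γ)) * G γ with hF
  have hFdeg : ∀ a, (F a).totalDegree ≤ D + D := by
    intro a
    refine totalDegree_finsetSum_le ?_
    intro γ _
    refine (totalDegree_mul _ _).trans ?_
    rw [totalDegree_C, zero_add]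
    exact hGdeg γ
  obtain ⟨P1, hP1⟩ : ∃ P1 : MvPolynomial (Option σ) L,
    P1 = ∏ a ∈ Finset.univ.filter (fun a : Γ → K => F a ≠ 0), F a := ⟨_, rfl⟩
  obtain ⟨P2, hP2⟩ : ∃ P2 : MvPolynomial (Option σ) L,
    P2 = ∏ γ ∈ Finset.univ.filter (fun γ : Γ => f γ ≠ 0), rename some (f γ) := ⟨_, rfl⟩
  set P : MvPolynomial (Option σ) L := X none * rename some h * P2 * P1 with hP
  have hren : ∀ p : MvPolynomial σ L, p ≠ 0 → (rename some p : MvPolynomial (Option σ) L) ≠ 0 := by
    intro p hp h1
    apply hp
    apply rename_injective some (Option.some_injective σ)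
    rw [h1, map_zero]
  have hP10 : P1 ≠ 0 := by
    rw [hP1]
    refine Finset.prod_ne_zero_iff.2 ?_
    intro a ha
    exact (Finset.mem_filter.1 ha).2
  have hP20 : P2 ≠ 0 := by
    rw [hP2]
    refine Finset.prod_ne_zero_iff.2 ?_
    intro γ hγ
    exact hren _ (Finset.mem_filter.1 hγ).2
  have hP0 : P ≠ 0 :=
    mul_ne_zero (mul_ne_zero (mul_ne_zero (X_ne_zero _) (hren h hh0)) hP20) hP10
  have hP1deg : P1.totalDegree ≤ q ^ Fintype.card Γ * (D + D) := by
    rw [hP1]
    refine (totalDegree_finsetProd _ _).trans ?_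
    refine (Finset.sum_le_card_nsmul _ _ (D + D) (fun a _ => hFdeg a)).trans ?_
    rw [smul_eq_mul]
    refine Nat.mul_le_mul_right _ ?_
    refine (Finset.card_filter_le _ _).trans ?_
    rw [Finset.card_univ, Fintype.card_fun]
  have hP2deg : P2.totalDegree ≤ Fintype.card Γ * D := by
    rw [hP2]
    refine (totalDegree_finsetProd _ _).trans ?_
    refine (Finset.sum_le_card_nsmul _ _ D
      (fun γ _ => (totalDegree_rename_le _ _).trans (hf γ))).trans ?_
    rw [smul_eq_mul]
    refine Nat.mul_le_mul_right _ ?_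
    refine (Finset.card_filter_le _ _).trans ?_
    rw [Finset.card_univ]
  have hPdeg : P.totalDegree ≤ E := by
    refine (totalDegree_mul _ _).trans (add_le_add ?_ hP1deg)
    refine (totalDegree_mul _ _).trans (add_le_add ?_ hP2deg)
    refine (totalDegree_mul _ _).trans (add_le_add ?_ ((totalDegree_rename_le _ _).trans hhD))
    rw [totalDegree_X]
  have hsz := pm2_sz P hP0
  set B := Finset.univ.filter fun y : Option σ → L => eval y P = 0 with hB
  have hex : ∃ x ∈ Z, eval (Φ x) P ≠ 0 := by
    by_contra hcon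
    push Not at hcon
    have hle : Z.card ≤ B.card := by
      apply Finset.card_le_card_of_injOn Φ
      · intro x hx
        simp only [hB, Finset.coe_filter, Finset.mem_univ, true_and]
        exact hcon x hx
      · exact hΦinj.injOn
    have hcard1 : Fintype.card (Option σ × Fin N) = (Fintype.card σ + 1) * N := by
      rw [Fintype.card_prod, Fintype.card_option, Fintype.card_fin]
    have hcard2 : Fintype.card (Option σ) = Fintype.card σ + 1 := Fintype.card_option
    rw [hcard1] at hcz
    rw [hcard2, hcardL, ← pow_mul] at hsz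
    have e1 : q ^ ((Fintype.card σ + 1) * N) = q ^ (N * Fintype.card σ) * q ^ N := by
      rw [← pow_add]; congr 1; ring
    have e2 : q ^ (N * (Fintype.card σ + 1)) = q ^ (N * Fintype.card σ) * q ^ N := by
      rw [← pow_add]; congr 1
    rw [e2] at hsz
    have hqN : 0 < q ^ N := pow_pos (by omega) _
    have hqs : 0 < q ^ (N * Fintype.card σ) := pow_pos (by omega) _
    have h1 : B.card ≤ P.totalDegree * q ^ (N * Fintype.card σ) := by
      apply Nat.le_of_mul_le_mul_right _ hqN
      rw [mul_assoc]
      exact hsz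
    have h2 : q ^ (N * Fintype.card σ) * q ^ N ≤
        E * q ^ (N * Fintype.card σ) * W := by
      rw [← e1]
      refine hcz.trans (Nat.mul_le_mul_right _ ?_)
      exact hle.trans (h1.trans (Nat.mul_le_mul_right _ hPdeg))
    have h3 : q ^ N ≤ E * W := by
      apply Nat.le_of_mul_le_mul_left _ hqs
      calc _ ≤ E * q ^ (N * Fintype.card σ) * W := h2
        _ = _ := by ring
    have h4 : q ^ N₀ ≤ q ^ N := Nat.pow_le_pow_right (by omega) hN
    omega
  obtain ⟨x, hxZ, hxP⟩ := hex
  have hxZ' := (Finset.mem_filter.1 hxZ).2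
  rw [hP, map_mul, map_mul, map_mul, eval_X] at hxP
  have hprod1 := right_ne_zero_of_mul hxP
  have hxP' := left_ne_zero_of_mul hxP
  have hprod2 := right_ne_zero_of_mul hxP'
  have hxP'' := left_ne_zero_of_mul hxP'
  have hhx := right_ne_zero_of_mul hxP''
  have hc := left_ne_zero_of_mul hxP''
  rw [hP1, map_prod] at hprod1
  rw [hP2, map_prod] at hprod2
  have hevr : ∀ p : MvPolynomial σ L, eval (Φ x) (rename some p) =
      eval (fun i => Φ x (some i)) p := by
    intro p
    rw [eval_rename]
    rfl
  refine ⟨Φ x none, fun i => Φ x (some i), hc, ?_, ?_, ?_, ?_⟩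
  · rw [← hevr]
    exact hhx
  · intro γ
    rw [← hGeval]
    have h1 := hg2 γ x
    rw [hxZ' γ] at h1
    exact h1.symm
  · intro γ hγ
    have h1 := Finset.prod_ne_zero_iff.1 hprod2 γ
      (Finset.mem_filter.2 ⟨Finset.mem_univ _, hγ⟩)
    rw [hevr] at h1
    exact h1
  · rintro a ⟨γ₀, ha1, ha2⟩
    have hFa : F a ≠ 0 := by
      refine pm2_F f k hkinj (fun γ => algebraMap K L (a γ)) γ₀ ?_ ha2
      intro h1
      apply ha1
      exact (algebraMap K L).injective (by rw [h1, map_zero])
    have h1 := Finset.prod_ne_zero_iff.1 hprod1 a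
      (Finset.mem_filter.2 ⟨Finset.mem_univ _, hFa⟩)
    intro h2
    apply h1
    rw [← h2, hF]
    simp only [map_sum, map_mul, eval_C]
    apply Finset.sum_congr rfl
    intro γ _
    rw [hGeval]

end Pool.Agent.Helper255.CF
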