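import Pool.Agent.Helper255.CF.FoldA
import Pool.Agent.Helper255.CF.Gen
import Pool.Agent.Helper255.CF.Poly2

set_option autoImplicit false

namespace Pool.Agent.Helper255.CF

open Matrix

variable {l : ℕ} {D : SLCartan l} (S : Folding D)

/-! words, generic elements and regular characters in the folded group -/

/-- products of folded root elements along a list of roots -/
noncomputable def wdF {R : Type*} [CommRing R] (L : List (Root D)) (s : Fin L.length → R) :
    G D R := (List.ofFn fun i => yg S (L.get i) (s i)).prod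

theorem wdF_mem {R : Type*} [CommRing R] (L : List (Root D)) (s : Fin L.length → R) :
    wdF S L s ∈ FG S R := by
  unfold wdF
  apply Subgroup.list_prod_mem
  intro g hg
  rw [List.mem_ofFn] at hg
  obtain ⟨i, rfl⟩ := hg
  exact yg_mem_FG S _ _

theorem wdF_map_aux (L : List (Root D)) {R : Type*} [CommRing R] {R' : Type*} [CommRing R']
    (f : R →+* R') (s : Fin L.length → R) :
    Gmap D f (wdF S L s) = wdF S L (fun i => f (s i)) := by
  unfold wdF
  rw [map_list_prod, List.map_ofFn]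
  congr 1
  congr 1
  funext i
  exact Gmap_yg S f _ _

theorem wdF_poly (L : List (Root D)) : ∃ Q : Idx D → Idx D → MvPolynomial (Fin L.length) ℤ,
    ∀ (R : Type) [CommRing R] (s : Fin L.length → R) (i j : Idx D),
      mat D (wdF S L s) i j = MvPolynomial.aeval s (Q i j) := by
  refine ⟨fun i j => mat D (wdF S L (fun k => (MvPolynomial.X k : MvPolynomial (Fin L.length) ℤ)))
    i j, ?_⟩
  intro R _ s i j
  have h := wdF_map_aux S L ((MvPolynomial.aeval s : MvPolynomial (Fin L.length) ℤ →ₐ[ℤ] R) :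
    MvPolynomial (Fin L.length) ℤ →+* R)
    (fun k => (MvPolynomial.X k : MvPolynomial (Fin L.length) ℤ))
  have h2 : (fun k => ((MvPolynomial.aeval s : MvPolynomial (Fin L.length) ℤ →ₐ[ℤ] R) :
    MvPolynomial (Fin L.length) ℤ →+* R) (MvPolynomial.X k)) = s := by
    funext k
    simp
  rw [h2] at h
  rw [← h, mat_Gmap]
  rfl

def CovF {K : Type} [Field K] (L : List (Root D)) (g : G D K) : Prop :=
  ∃ M : List (Root D × K), M.map Prod.fst = L ∧ g = (M.map (fun p => yg S p.1 p.2)).prod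

theorem CovF.toWd {K : Type} [Field K] {L : List (Root D)} {g : G D K} (h : CovF S L g) :
    ∃ s : Fin L.length → K, g = wdF S L s := by
  obtain ⟨M, rfl, rfl⟩ := h
  refine ⟨fun i => (M.get (i.cast (by simp))).2, ?_⟩
  unfold wdF
  congr 1
  apply List.ext_getElem
  · simp
  · intro i h1 h2
    simp

theorem CovF.mul {K : Type} [Field K] {L L' : List (Root D)} {g g' : G D K} (h : CovF S L g)
    (h' : CovF S L' g') : CovF S (L ++ L') (g * g') := by
  obtain ⟨M, rfl, rfl⟩ := h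
  obtain ⟨M', rfl, rfl⟩ := h'
  refine ⟨M ++ M', by simp, by simp⟩

theorem CovF.one {K : Type} [Field K] (L : List (Root D)) : CovF S L (1 : G D K) := by
  refine ⟨L.map (fun β => (β, 0)), ?_, ?_⟩
  · simp [Function.comp_def]
  · rw [List.map_map]
    symm
    apply List.prod_eq_one
    intro x hx
    rw [List.mem_map] at hx
    obtain ⟨β, _, rfl⟩ := hx
    exact yg_zero S β

theorem CovF.exists {K : Type} [Field K] (g : G D K) (hg : g ∈ FG S K) :
    ∃ L : List (Root D), CovF S L g := by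
  unfold FG at hg
  induction hg using Subgroup.closure_induction with
  | mem x hx =>
    obtain ⟨β, t, rfl⟩ := hx
    exact ⟨[β], [(β, t)], by simp, by simp⟩
  | one => exact ⟨[], CovF.one S []⟩
  | mul x y _ _ hx hy =>
    obtain ⟨L, hL⟩ := hx
    obtain ⟨L', hL'⟩ := hy
    exact ⟨_, hL.mul S hL'⟩
  | inv x _ hx =>
    obtain ⟨L, M, rfl, rfl⟩ := hx
    refine ⟨_, (M.map (fun p => (p.1, -p.2))).reverse, rfl, ?_⟩
    rw [List.prod_inv_reverse, List.map_reverse, List.map_map, List.map_map]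
    congr 3
    funext p
    exact (yg_neg S p.1 p.2).symm

theorem wdF_cover (K : Type) [Field K] [Finite K] :
    ∃ L : List (Root D), ∀ g ∈ FG S K, ∃ s : Fin L.length → K, g = wdF S L s := by
  classical
  haveI : Finite (G D K) := by
    haveI : Finite (Matrix (Idx D) (Idx D) K) := by unfold Matrix; infer_instance
    haveI : Finite (GL (Idx D) K) := by
      unfold Matrix.GeneralLinearGroup
      infer_instance
    infer_instance
  haveI : Fintype (G D K) := Fintype.ofFinite _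
  have key : ∀ F : Finset (G D K), (∀ g ∈ F, g ∈ FG S K) →
      ∃ L : List (Root D), ∀ g ∈ F, CovF S L g := by
    intro F
    induction F using Finset.induction_on with
    | empty => exact fun _ => ⟨[], by simp⟩
    | insert a F ha ih =>
      intro hF
      obtain ⟨L, hL⟩ := ih (fun g hg => hF g (Finset.mem_insert_of_mem hg))
      obtain ⟨L', hL'⟩ := CovF.exists S a (hF a (Finset.mem_insert_self a F))
      refine ⟨L ++ L', ?_⟩
      intro g hg
      rw [Finset.mem_insert] at hg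
      rcases hg with rfl | hg
      · have := (CovF.one S L).mul S hL'
        rwa [one_mul] at this
      · have := (hL g hg).mul S (CovF.one S L')
        rwa [mul_one] at this
  obtain ⟨L, hL⟩ := key (Finset.univ.filter (fun g => g ∈ FG S K)) (fun g hg => by
    simpa using hg)
  exact ⟨L, fun g hg => (hL g (by simpa using hg)).toWd S⟩

/-- in a simple folded group an element fixing all lines in the orbit of the highest root line is
trivial -/
theorem eq_one_of_lineF {K : Type*} [Field K] [IsSimpleGroup (FG S K)] (α₀ : Root D)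
    (h₀ : IsHighest D α₀) (h : G D K) (hh : h ∈ FG S K)
    (H : ∀ g ∈ FG S K, ∃ c : K, mat D (g⁻¹ * h * g) *ᵥ ev D K α₀ = c • ev D K α₀) : h = 1 := by
  have hev0 : ev D K α₀ ≠ 0 := by
    intro h0
    have h1 := congrFun h0 (Sum.inr α₀)
    rw [ev, Pi.single_eq_same] at h1
    exact one_ne_zero h1
  let N : Subgroup (FG S K) :=
    { carrier := {h | ∀ g ∈ FG S K, ∃ c : K, mat D (g⁻¹ * (h : G D K) * g) *ᵥ ev D K α₀ =
        c • ev D K α₀}
      mul_mem' := by
        intro a b ha hb g hg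
        obtain ⟨c, hc⟩ := ha g hg
        obtain ⟨c', hc'⟩ := hb g hg
        refine ⟨c' * c, ?_⟩
        have e : g⁻¹ * ((a * b : FG S K) : G D K) * g =
            (g⁻¹ * (a : G D K) * g) * (g⁻¹ * (b : G D K) * g) := by
          rw [Subgroup.coe_mul]
          group
        rw [e, mat_mul, ← Matrix.mulVec_mulVec, hc', Matrix.mulVec_smul, hc, smul_smul]
      one_mem' := by
        intro g hg
        refine ⟨1, ?_⟩
        have e : g⁻¹ * ((1 : FG S K) : G D K) * g = 1 := by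
          rw [Subgroup.coe_one]
          group
        rw [e, mat_one, Matrix.one_mulVec, one_smul]
      inv_mem' := by
        intro a ha g hg
        obtain ⟨c, hc⟩ := ha g hg
        have e : (g⁻¹ * ((a⁻¹ : FG S K) : G D K) * g) * (g⁻¹ * (a : G D K) * g) = 1 := by
          rw [Subgroup.coe_inv]
          group
        have e2 : mat D (g⁻¹ * ((a⁻¹ : FG S K) : G D K) * g) *ᵥ
            (mat D (g⁻¹ * (a : G D K) * g) *ᵥ ev D K α₀) = ev D K α₀ := by
          rw [Matrix.mulVec_mulVec, ← mat_mul, e, mat_one, Matrix.one_mulVec]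
        rw [hc, Matrix.mulVec_smul] at e2
        have hc0 : c ≠ 0 := by
          intro h0
          rw [h0, zero_smul] at e2
          exact hev0 e2.symm
        refine ⟨c⁻¹, ?_⟩
        conv_rhs => rw [← e2]
        rw [smul_smul, inv_mul_cancel₀ hc0, one_smul] }
  have hNn : N.Normal := by
    constructor
    intro n hn g0 g hg
    obtain ⟨c, hc⟩ := hn ((g0 : G D K)⁻¹ * g) ((FG S K).mul_mem ((FG S K).inv_mem g0.2) hg)
    refine ⟨c, ?_⟩
    have e : g⁻¹ * ((g0 * n * g0⁻¹ : FG S K) : G D K) * g =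
        ((g0 : G D K)⁻¹ * g)⁻¹ * (n : G D K) * ((g0 : G D K)⁻¹ * g) := by
      rw [Subgroup.coe_mul, Subgroup.coe_mul, Subgroup.coe_inv]
      group
    rw [e]
    exact hc
  have hhN : (⟨h, hh⟩ : FG S K) ∈ N := H
  rcases hNn.eq_bot_or_eq_top with hb | ht
  · rw [hb, Subgroup.mem_bot] at hhN
    exact congrArg Subtype.val hhN
  · exfalso
    have hmem : (⟨yg S (rneg D α₀) (1 : K), yg_mem_FG S (rneg D α₀) (1 : K)⟩ : FG S K) ∈ N := by
      rw [ht]
      exact Subgroup.mem_top _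
    obtain ⟨c, hc⟩ := hmem 1 (FG S K).one_mem
    have hfix : sroot S (rneg D α₀) = rneg D α₀ := by
      apply root_ext D
      have h1 := congrArg Subtype.val (highest_fixed S α₀ h₀)
      change pv S.σ (-α₀.1) = -α₀.1
      rw [pv_neg]
      exact congrArg (fun x => -x) h1
    have e : (1 : G D K)⁻¹ * yg S (rneg D α₀) (1 : K) * 1 = xg D (rneg D α₀) (1 : K) := by
      rw [yg_fixed S (rneg D α₀) hfix]
      group
    have hc2 : mat D (xg D (rneg D α₀) (1 : K)) *ᵥ ev D K α₀ = c • ev D K α₀ := by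
      rw [← e]
      exact hc
    have hnn : rneg D (rneg D α₀) = α₀ := by
      apply root_ext D
      change -(-α₀.1) = α₀.1
      rw [neg_neg]
    have h2 := xM_ev_neg D (R := K) (rneg D α₀) 1
    rw [hnn] at h2
    rw [mat_xg, h2] at hc2
    have hne : Sum.inr (rneg D α₀) ≠ (Sum.inr α₀ : Idx D) := by
      intro he
      have he1 : rneg D α₀ = α₀ := Sum.inr_injective he
      have he2 : -α₀.1 = α₀.1 := congrArg Subtype.val he1
      have h3 : bil D α₀.1 α₀.1 = 2 := α₀.2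
      have h4 : bil D (-α₀.1) α₀.1 = 2 := by rw [he2]; exact h3
      rw [bil_neg_left, h3] at h4
      norm_num at h4
    have h5 := congrFun hc2 (Sum.inr (rneg D α₀))
    have v1 : ev D K α₀ (Sum.inr (rneg D α₀)) = 0 := by
      rw [ev, Pi.single_eq_of_ne hne]
    have v2 : ev D K (rneg D α₀) (Sum.inr (rneg D α₀)) = 1 := by
      rw [ev, Pi.single_eq_same]
    have v3 : hv D K (rneg D α₀).1 (Sum.inr (rneg D α₀)) = 0 := rfl
    simp only [Pi.add_apply, Pi.sub_apply, Pi.smul_apply, smul_eq_mul, v1, v2, v3] at h5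
    norm_num at h5

theorem gxf_finite (K : Type) [Field K] [Finite K] : Finite (G D K) := by
  have : Finite (GL (Idx D) K) := inferInstance
  infer_instance

/-- polynomial vector of the generic point of the orbit -/
noncomputable def gxfY (K : Type) [Field K] {n : ℕ} (α₀ : Root D)
    (Q : Idx D → Idx D → MvPolynomial (Fin n) ℤ) (i : Idx D) : MvPolynomial (Fin n) K :=
  MvPolynomial.map (algebraMap ℤ K) (Q i (Sum.inr α₀))

/-- its image under `h` -/
noncomputable def gxfH (K : Type) [Field K] {n : ℕ} (α₀ : Root D)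
    (Q : Idx D → Idx D → MvPolynomial (Fin n) ℤ) (h : G D K) (i : Idx D) : MvPolynomial (Fin n) K :=
  ∑ j, MvPolynomial.C (mat D h i j) * gxfY K α₀ Q j

/-- the minors -/
noncomputable def gxfP (K : Type) [Field K] {n : ℕ} (α₀ : Root D)
    (Q : Idx D → Idx D → MvPolynomial (Fin n) ℤ) (h : G D K) (i j : Idx D) :
    MvPolynomial (Fin n) K :=
  gxfH K α₀ Q h i * gxfY K α₀ Q j - gxfH K α₀ Q h j * gxfY K α₀ Q i

theorem gxf_ev {R : Type*} [CommRing R] (A : Matrix (Idx D) (Idx D) R) (β : Root D) (i : Idx D) :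
    (A *ᵥ ev D R β) i = A i (Sum.inr β) := by
  unfold ev
  rw [Matrix.mulVec_single_one]
  rfl

theorem gxfY_eval (K L : Type) [Field K] [Field L] [Algebra K L] {n : ℕ} (α₀ : Root D)
    (Q : Idx D → Idx D → MvPolynomial (Fin n) ℤ) (s : Fin n → L) (g : G D L)
    (hQ : ∀ i j, mat D g i j = MvPolynomial.aeval s (Q i j)) (i : Idx D) :
    MvPolynomial.aeval s (gxfY K α₀ Q i) = (mat D g *ᵥ ev D L α₀) i := by
  unfold gxfY
  rw [gxf_ev, hQ, MvPolynomial.aeval_map_algebraMap]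

theorem gxfH_eval (K L : Type) [Field K] [Field L] [Algebra K L] {n : ℕ} (α₀ : Root D)
    (Q : Idx D → Idx D → MvPolynomial (Fin n) ℤ) (s : Fin n → L) (g : G D L)
    (hQ : ∀ i j, mat D g i j = MvPolynomial.aeval s (Q i j)) (h : G D K) (i : Idx D) :
    MvPolynomial.aeval s (gxfH K α₀ Q h i) =
      (mat D (Gmap D (algebraMap K L) h) *ᵥ (mat D g *ᵥ ev D L α₀)) i := by
  unfold gxfH
  rw [map_sum, Matrix.mulVec, dotProduct]
  refine Finset.sum_congr rfl fun j _ => ?_
  rw [map_mul, gxfY_eval K L α₀ Q s g hQ j, MvPolynomial.aeval_C, mat_Gmap]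
  rfl

theorem gxf_ev_ne {R : Type*} [Field R] (g : G D R) (β : Root D) :
    ∃ i, (mat D g *ᵥ ev D R β) i ≠ 0 := by
  by_contra hcon
  push Not at hcon
  have h0 : mat D g *ᵥ ev D R β = 0 := funext hcon
  have h1 : mat D g⁻¹ *ᵥ (mat D g *ᵥ ev D R β) = ev D R β := by
    rw [Matrix.mulVec_mulVec, ← mat_mul, inv_mul_cancel, mat_one, Matrix.one_mulVec]
  rw [h0, Matrix.mulVec_zero] at h1
  have h2 := congrFun h1 (Sum.inr β)
  simp [ev] at h2

theorem gxfP_ne (K : Type) [Field K] [IsSimpleGroup (FG S K)] (W : List (Root D)) (α₀ : Root D)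
    (h₀ : IsHighest D α₀) (hW : ∀ g ∈ FG S K, ∃ s : Fin W.length → K, g = wdF S W s)
    (Q : Idx D → Idx D → MvPolynomial (Fin W.length) ℤ)
    (hQ : ∀ (R : Type) [CommRing R] (s : Fin W.length → R) (i j : Idx D),
      mat D (wdF S W s) i j = MvPolynomial.aeval s (Q i j)) (h : G D K) (hhF : h ∈ FG S K)
    (hh : h ≠ 1) : ∃ i j, gxfP K α₀ Q h i j ≠ 0 := by
  by_contra hcon
  push Not at hcon
  apply hh
  apply eq_one_of_lineF S α₀ h₀ h hhF
  intro g hg
  obtain ⟨s, hs⟩ := hW g hg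
  obtain ⟨j, hj⟩ := gxf_ev_ne g α₀
  have hQs : ∀ i j, mat D g i j = MvPolynomial.aeval s (Q i j) := by
    intro i j
    rw [hs]
    exact hQ K s i j
  have hG : Gmap D (algebraMap K K) h = h := by
    apply mat_injective D
    rw [mat_Gmap]
    ext a b
    rfl
  have key : ∀ i, (mat D h *ᵥ (mat D g *ᵥ ev D K α₀)) i * (mat D g *ᵥ ev D K α₀) j =
      (mat D h *ᵥ (mat D g *ᵥ ev D K α₀)) j * (mat D g *ᵥ ev D K α₀) i := by
    intro i
    have h1 := congrArg (MvPolynomial.aeval (R := K) s) (hcon i j)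
    unfold gxfP at h1
    rw [map_sub, map_mul, map_mul, map_zero, gxfH_eval K K α₀ Q s g hQs h i,
      gxfH_eval K K α₀ Q s g hQs h j, gxfY_eval K K α₀ Q s g hQs i,
      gxfY_eval K K α₀ Q s g hQs j, hG] at h1
    exact sub_eq_zero.1 h1
  obtain ⟨c, hc⟩ : ∃ c, c = (mat D h *ᵥ (mat D g *ᵥ ev D K α₀)) j / (mat D g *ᵥ ev D K α₀) j :=
    ⟨_, rfl⟩
  refine ⟨c, ?_⟩
  have h2 : mat D h *ᵥ (mat D g *ᵥ ev D K α₀) = c • (mat D g *ᵥ ev D K α₀) := by
    funext i
    rw [Pi.smul_apply, smul_eq_mul, hc, div_mul_eq_mul_div, eq_div_iff hj]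
    exact key i
  rw [mat_mul, mat_mul, ← Matrix.mulVec_mulVec, ← Matrix.mulVec_mulVec, h2,
    Matrix.mulVec_smul, Matrix.mulVec_mulVec, ← mat_mul, inv_mul_cancel, mat_one,
    Matrix.one_mulVec]

theorem gxf_point (K L : Type) [Field K] [Field L] [Finite L] [Algebra K L] {n : ℕ}
    (P : MvPolynomial (Fin n) K) (hP : P ≠ 0) (hd : P.totalDegree < Nat.card L) :
    ∃ s : Fin n → L, MvPolynomial.aeval s P ≠ 0 := by
  classical
  have : Fintype L := Fintype.ofFinite L
  by_contra hcon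
  push Not at hcon
  apply hP
  have hinj := MvPolynomial.map_injective (σ := Fin n) (algebraMap K L) (algebraMap K L).injective
  apply hinj
  rw [map_zero]
  apply MvPolynomial.eq_zero_of_eval_zero_at_prod_finset _ (fun _ => (Finset.univ : Finset L))
  · intro i
    refine lt_of_le_of_lt (MvPolynomial.degreeOf_le_totalDegree _ i) ?_
    rw [Finset.card_univ, ← Nat.card_eq_fintype_card]
    refine lt_of_le_of_lt ?_ hd
    unfold MvPolynomial.totalDegree
    exact Finset.sup_mono (MvPolynomial.support_map_subset _ _)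
  · intro x _
    rw [MvPolynomial.eval_map, ← MvPolynomial.aeval_def]
    exact hcon x

theorem gxf_card (K L : Type) [Field K] [Finite K] [Field L] [Finite L] [Algebra K L] :
    2 ^ Module.finrank K L ≤ Nat.card L := by
  have : Fintype K := Fintype.ofFinite K
  have : Fintype L := Fintype.ofFinite L
  rw [Nat.card_eq_fintype_card, Module.card_eq_pow_finrank (K := K)]
  exact Nat.pow_le_pow_left Fintype.one_lt_card _

theorem exists_generic_xF {K : Type} [Field K] [Finite K] [IsSimpleGroup (FG S K)]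
    (α₀ : Root D) (h₀ : IsHighest D α₀) :
    ∃ N₀ : ℕ, ∀ (L : Type) [Field L] [Finite L] [Algebra K L], N₀ ≤ Module.finrank K L →
      ∃ x ∈ FG S L, ∀ h ∈ FG S K, h ≠ 1 → ∀ c : L,
        mat D (x⁻¹ * Gmap D (algebraMap K L) h * x) *ᵥ ev D L α₀ ≠ c • ev D L α₀ := by
  classical
  obtain ⟨W, hW⟩ := wdF_cover S K
  obtain ⟨Q, hQ⟩ := wdF_poly S W
  have hfin : Finite (G D K) := gxf_finite K
  choose ih jh hij using fun (h : {h : G D K // h ∈ FG S K ∧ h ≠ 1}) =>
    gxfP_ne S K W α₀ h₀ hW Q hQ h.1 h.2.1 h.2.2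
  have : Fintype {h : G D K // h ∈ FG S K ∧ h ≠ 1} := Fintype.ofFinite _
  obtain ⟨P, hPdef⟩ : ∃ P : MvPolynomial (Fin W.length) K,
    P = ∏ h : {h : G D K // h ∈ FG S K ∧ h ≠ 1}, gxfP K α₀ Q h.1 (ih h) (jh h) := ⟨_, rfl⟩
  have hP0 : P ≠ 0 := by
    rw [hPdef]
    exact Finset.prod_ne_zero_iff.2 fun h _ => hij h
  refine ⟨P.totalDegree, ?_⟩
  intro L _ _ _ hN
  have hd : P.totalDegree < Nat.card L :=
    lt_of_le_of_lt hN (lt_of_lt_of_le Nat.lt_two_pow_self (gxf_card K L))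
  obtain ⟨s, hs⟩ := gxf_point K L P hP0 hd
  have hQs : ∀ i j, mat D (wdF S W s) i j = MvPolynomial.aeval s (Q i j) := hQ L s
  refine ⟨wdF S W s, wdF_mem S W s, ?_⟩
  intro h hhF hh c hc
  apply hs
  rw [hPdef, map_prod]
  apply Finset.prod_eq_zero (Finset.mem_univ
    (⟨h, hhF, hh⟩ : {h : G D K // h ∈ FG S K ∧ h ≠ 1}))
  have h3 : mat D (Gmap D (algebraMap K L) h) *ᵥ (mat D (wdF S W s) *ᵥ ev D L α₀) =
      c • (mat D (wdF S W s) *ᵥ ev D L α₀) := by
    have h4 : mat D (wdF S W s) *ᵥ (mat D ((wdF S W s)⁻¹ * Gmap D (algebraMap K L) h *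
        wdF S W s) *ᵥ ev D L α₀) = mat D (wdF S W s) *ᵥ (c • ev D L α₀) := by rw [hc]
    rw [Matrix.mulVec_mulVec, ← mat_mul, Matrix.mulVec_smul] at h4
    rw [← h4, Matrix.mulVec_mulVec, ← mat_mul]
    congr 2
    group
  unfold gxfP
  rw [map_sub, map_mul, map_mul, gxfH_eval K L α₀ Q s _ hQs h, gxfH_eval K L α₀ Q s _ hQs h,
    gxfY_eval K L α₀ Q s _ hQs, gxfY_eval K L α₀ Q s _ hQs, h3]
  simp only [Pi.smul_apply, smul_eq_mul]
  ring

theorem exists_boundF (ν : Fin l → ℤ) : ∃ N : ℕ, ∀ w : (Fin l → ℤ) ≃+ (Fin l → ℤ),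
    (∀ x y, bil D (w x) (w y) = bil D x y) → ∀ γ : Root D,
      (bil D (∑ β ∈ orb S γ, β.1) (w ν - ν)).natAbs < N := by
  have hCS : ∀ x y : Fin l → ℤ, |bil D x y| ≤ bil D x x + bil D y y := by
    intro x y
    have h1 := bil_nonneg D (x + y)
    have h2 := bil_nonneg D (x - y)
    have h3 := bil_nonneg D x
    have h4 := bil_nonneg D y
    rw [bil_add_left, bil_add_right, bil_add_right, bil_comm D y x] at h1
    rw [bil_sub_left, bil_sub_right, bil_sub_right, bil_comm D y x] at h2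
    rw [abs_le]; constructor <;> linarith
  refine ⟨2 * ((∑ γ : Root D, (bil D (∑ β ∈ orb S γ, β.1) (∑ β ∈ orb S γ, β.1)).natAbs)
    + (bil D ν ν).natAbs) + 1, fun w hw γ => ?_⟩
  have h1 := hCS (∑ β ∈ orb S γ, β.1) (w ν)
  have h2 := hCS (∑ β ∈ orb S γ, β.1) ν
  rw [hw] at h1
  have h3 : (bil D (∑ β ∈ orb S γ, β.1) (∑ β ∈ orb S γ, β.1)).natAbs ≤
      ∑ γ : Root D, (bil D (∑ β ∈ orb S γ, β.1) (∑ β ∈ orb S γ, β.1)).natAbs :=
    Finset.single_le_sum (f := fun γ : Root D =>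
      (bil D (∑ β ∈ orb S γ, β.1) (∑ β ∈ orb S γ, β.1)).natAbs)
      (fun _ _ => Nat.zero_le _) (Finset.mem_univ γ)
  rw [bil_sub_right]
  have h5 := bil_nonneg D ν
  have h6 := bil_nonneg D (∑ β ∈ orb S γ, β.1)
  have h7 := abs_le.mp h1
  have h8 := abs_le.mp h2
  omega

theorem rho_fixed (ν : Fin l → ℤ) (d : ℕ) (hν : ∀ x : Fin l → ℤ, bil D ν x = d * ht x) :
    pv S.σ ν = ν := by
  refine eq_of_bil_single D _ _ fun j => ?_
  have h1 : (Pi.single j 1 : Fin l → ℤ) = pv S.σ (Pi.single (S.σ⁻¹ j) 1) := by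
    rw [pv_single]
    simp
  have h2 := bil_pv S 1 ν (Pi.single (S.σ⁻¹ j) 1)
  rw [pow_one] at h2
  rw [hν (Pi.single j 1), ht_single, h1, h2, hν, ht_single]

theorem exists_regularF_sum_fixed (g : Root D) :
    pv S.σ (∑ β ∈ orb S g, β.1) = ∑ β ∈ orb S g, β.1 := by
  classical
  have h1 : pv S.σ (∑ β ∈ orb S g, β.1) = ∑ β ∈ orb S g, (sroot S β).1 := by
    have h2 : ∀ s : Finset (Root D), pv S.σ (∑ β ∈ s, β.1) = ∑ β ∈ s, (sroot S β).1 := by
      intro s
      induction s using Finset.induction_on with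
      | empty => rfl
      | insert a s ha ih =>
        rw [Finset.sum_insert ha, Finset.sum_insert ha, pv_add, ih]
        rfl
    exact h2 _
  rw [h1]
  have hmem : ∀ β ∈ orb S g, sroot S β ∈ orb S g := by
    intro β hβ
    have := sroot_mem_orb S β
    rwa [orb_eq S g β hβ] at this
  have hinj : Set.InjOn (sroot S) (orb S g : Set (Root D)) :=
    (sroot_bijective S).injective.injOn
  have himg : (orb S g).image (sroot S) = orb S g := by
    apply Finset.eq_of_subset_of_card_le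
    · intro y hy
      obtain ⟨β, hβ, rfl⟩ := Finset.mem_image.mp hy
      exact hmem β hβ
    · rw [Finset.card_image_of_injOn hinj]
  calc ∑ β ∈ orb S g, (sroot S β).1 = ∑ β ∈ (orb S g).image (sroot S), β.1 := by
        rw [Finset.sum_image hinj]
    _ = _ := by rw [himg]

theorem exists_regularF_bil (g : Root D) (v : Fin l → ℤ) (hv : pv S.σ v = v) :
    bil D (∑ β ∈ orb S g, β.1) v = (orb S g).card * bil D g.1 v := by
  have h : ∀ γ ∈ orb S g, bil D γ.1 v = bil D g.1 v := by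
    refine orb_induction S (p := fun γ => bil D γ.1 v = bil D g.1 v) g rfl ?_
    intro γ hγ
    have h1 := bil_pv S 1 γ.1 v
    rw [pow_one, hv] at h1
    show bil D (pv S.σ γ.1) v = bil D g.1 v
    rw [h1]
    exact hγ
  rw [bil_sum_left, Finset.sum_congr rfl h, Finset.sum_const, nsmul_eq_mul]

/-- regular characters of the Borel subgroup, for the folded group -/
theorem exists_regularF {K E : Type*} [Field K] [Fintype K] [Field E] [IsAlgClosed E]
    (ν : Fin l → ℤ) (d : ℕ) (hd : 1 ≤ d) (hν : ∀ x : Fin l → ℤ, bil D ν x = d * ht x)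
    (N : ℕ) (hN : ∀ w : (Fin l → ℤ) ≃+ (Fin l → ℤ),
      (∀ x y, bil D (w x) (w y) = bil D x y) → ∀ γ : Root D,
      (bil D (∑ β ∈ orb S γ, β.1) (w ν - ν)).natAbs < N)
    (r : ℕ) [Fact r.Prime] (hrN : N ≤ r) (hr : r ∣ Fintype.card K - 1) (hE : (r : E) ≠ 0) :
    ∃ θ : BG D K →* Eˣ, (∀ b : BG D K, (b : G D K) ∈ UG D K → θ b = 1) ∧
      ∀ n ∈ NF S K, n ∉ TG D K → ∃ t t' : BG D K, (t : G D K) ∈ TG D K ∧ (t : G D K) ∈ FG S K ∧
        (t' : G D K) = n⁻¹ * t * n ∧ θ t' ≠ θ t := by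
  obtain ⟨ω, c0, hω⟩ := exists_mulChar (K := K) (E := E) r hr hE
  obtain ⟨κ, hκ1, hκ2⟩ := exists_kappa D (K := K) ν
  refine ⟨ω.comp κ, ?_, ?_⟩
  · intro b hb
    rw [MonoidHom.comp_apply, hκ1 b hb, map_one]
  · intro n hn hnT
    obtain ⟨hnF, w, χ, hweyl, hcomm, hmono⟩ := hn
    have hwν : w ν ≠ ν := by
      intro hfix
      have hx := weyl_fix w hweyl ν d hd hν hfix
      have hw : w = AddEquiv.refl _ := AddEquiv.ext hx
      apply hnT
      rw [hw] at hmono
      exact ⟨χ, hmono⟩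
    have hv0 : w ν - ν ≠ 0 := sub_ne_zero.mpr hwν
    have hvf : pv S.σ (w ν - ν) = w ν - ν := by
      have h1 : pv S.σ (w ν - ν) = pv S.σ (w ν) - pv S.σ ν := rfl
      rw [h1, ← hcomm, rho_fixed S ν d hν]
    obtain ⟨i, hi⟩ : ∃ i, bil D (sr D i).1 (w ν - ν) ≠ 0 := by
      by_contra hcon
      push Not at hcon
      apply hv0
      apply eq_of_bil_single D
      intro j
      rw [bil_zero_left, bil_comm]
      exact hcon j
    set g := sr D i with hg
    set s := ∑ β ∈ orb S g, β.1 with hs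
    have hsf : pv S.σ s = s := exists_regularF_sum_fixed S g
    have hbil : bil D s (w ν - ν) = (orb S g).card * bil D g.1 (w ν - ν) :=
      exists_regularF_bil S g _ hvf
    have hcard : 0 < (orb S g).card := Finset.card_pos.mpr ⟨g, self_mem_orb S g⟩
    have hne : bil D s (w ν - ν) ≠ 0 := by
      rw [hbil]
      exact mul_ne_zero (by exact_mod_cast hcard.ne') hi
    have hlt : (bil D s (w ν - ν)).natAbs < r := lt_of_lt_of_le (hN w hmono.isom g) hrN
    have hndvd : ¬ (r : ℤ) ∣ bil D s (w ν - ν) := by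
      intro hdvd
      have h1 : r ∣ (bil D s (w ν - ν)).natAbs := Int.natCast_dvd.mp hdvd
      have h2 := Nat.le_of_dvd (Int.natAbs_pos.mpr hne) h1
      omega
    obtain ⟨t, htF, htm⟩ := exists_torusF S (R := K) s hsf c0
    have htT : t ∈ TG D K := ⟨_, htm⟩
    have htm' := conj_torus D hmono htm
    have htT' : n⁻¹ * t * n ∈ TG D K := ⟨_, htm'⟩
    have hle : TG D K ≤ BG D K := le_sup_left
    refine ⟨⟨t, hle htT⟩, ⟨n⁻¹ * t * n, hle htT'⟩, htT, htF, rfl, ?_⟩
    have k1 : κ ⟨t, hle htT⟩ = c0 ^ (bil D s ν) := by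
      apply Units.ext
      rw [hκ2 ⟨t, hle htT⟩ _ htm]
      have := kappa_torus D (K := K) ν s (AddEquiv.refl _) (fun x y => rfl) c0
      exact this
    have k2 : κ ⟨n⁻¹ * t * n, hle htT'⟩ = c0 ^ (bil D s (w ν)) := by
      apply Units.ext
      rw [hκ2 ⟨n⁻¹ * t * n, hle htT'⟩ _ htm']
      exact kappa_torus D (K := K) ν s w hmono.isom c0
    intro heq
    rw [MonoidHom.comp_apply, MonoidHom.comp_apply, k1, k2, map_zpow, map_zpow] at heq
    apply hndvd
    apply hω
    rw [bil_sub_right, _root_.zpow_sub, heq, mul_inv_cancel]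

/-- the map of folded groups induced by a ring homomorphism -/
noncomputable def Fmap {R R' : Type*} [CommRing R] [CommRing R'] (f : R →+* R') :
    FG S R →* FG S R' :=
  ((Gmap D f).comp (FG S R).subtype).codRestrict (FG S R') (fun g => Gmap_mem_FG S f g g.2)

theorem auxF5f_bil_nonneg (α₀ : Root D) (h₀ : IsHighest D α₀) (β : Root D) (hβ : Pos β.1) :
    0 ≤ bil D β.1 α₀.1 := by
  have hr := bil_range D β α₀
  have hβ' := (pos_iff_ht D β).1 hβ
  have h₀' := (pos_iff_ht D α₀).1 h₀.1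
  by_contra hneg
  push Not at hneg
  have hcase : bil D β.1 α₀.1 = -1 ∨ bil D β.1 α₀.1 = -2 := by omega
  rcases hcase with h | h
  · have hroot := (add_root_iff D β α₀).2 h
    set γ : Root D := ⟨β.1 + α₀.1, hroot⟩ with hγ
    have hpos : Pos γ.1 := by
      intro i
      have e1 := hβ i
      have e2 := h₀.1 i
      show 0 ≤ (β.1 + α₀.1) i
      rw [Pi.add_apply]
      linarith
    have hne : γ ≠ α₀ := by
      intro he
      have h1 : β.1 + α₀.1 = α₀.1 := congrArg Subtype.val he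
      have h2 : β.1 = 0 := by simpa using h1
      have h3 := root_norm D β
      rw [h2, bil_zero_left] at h3
      norm_num at h3
    have := (h₀.2 γ hpos hne).1
    have h4 : ht γ.1 = ht β.1 + ht α₀.1 := ht_add _ _
    omega
  · have h1 := (bil_eq_neg_two_iff D β α₀).1 h
    rw [h1, ht_neg] at h₀'
    omega

theorem auxF5f_UG_fix {R : Type*} [CommRing R] (α₀ : Root D) (h₀ : IsHighest D α₀) (u : G D R)
    (hu : u ∈ UG D R) : mat D u *ᵥ ev D R α₀ = ev D R α₀ := by
  induction hu using Subgroup.closure_induction with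
  | mem g hg =>
    obtain ⟨β, t, hβ, rfl⟩ := hg
    rw [mat_xg]
    exact xM_ev_fix D β α₀ (auxF5f_bil_nonneg α₀ h₀ β hβ) t
  | one => rw [mat_one, one_mulVec]
  | mul g h _ _ hg hh => rw [mat_mul, ← mulVec_mulVec, hh, hg]
  | inv g _ hg =>
    have h1 : mat D g⁻¹ *ᵥ (mat D g *ᵥ ev D R α₀) = ev D R α₀ := by
      rw [mulVec_mulVec, ← mat_mul, inv_mul_cancel, mat_one, one_mulVec]
    rw [hg] at h1
    exact h1

theorem auxF5f_finite (R : Type*) [CommRing R] [Finite R] : Finite (G D R) := by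
  classical
  have : Finite (Matrix (Idx D) (Idx D) R) := inferInstanceAs (Finite (Idx D → Idx D → R))
  have : Finite (GL (Idx D) R) := inferInstanceAs (Finite (Matrix (Idx D) (Idx D) R)ˣ)
  infer_instance

set_option maxHeartbeats 2000000 in
/-- a free orbit of the small folded group -/
theorem free_orbitF {K M L : Type} [Field K] [Finite K] [Field M] [Finite M] [Field L]
    [Finite L] [Algebra K M] [Algebra M L] [Algebra K L] [IsScalarTower K M L]
    (p : ℕ) [Fact p.Prime] [CharP K p] (α₀ : Root D) (h₀ : IsHighest D α₀)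
    (x : G D M) (hxF : x ∈ FG S M) (hx : ∀ h ∈ FG S K, h ≠ 1 → ∀ c : M,
        mat D (x⁻¹ * Gmap D (algebraMap K M) h * x) *ᵥ ev D M α₀ ≠ c • ev D M α₀)
    {E V : Type*} [Field E] (hpE : (p : E) ≠ 0) [AddCommGroup V] [Module E V]
    (ρ : Representation E (FG S L) V)
    (θ : BG D M →* Eˣ) (hθU : ∀ b : BG D M, (b : G D M) ∈ UG D M → θ b = 1)
    (hθreg : ∀ n ∈ NF S M, n ∉ TG D M → ∃ t t' : BG D M, (t : G D M) ∈ TG D M ∧
        (t : G D M) ∈ FG S M ∧ (t' : G D M) = n⁻¹ * t * n ∧ θ t' ≠ θ t)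
    (v : V) (hv0 : v ≠ 0) (hv : ∀ (b : FG S M) (hb : (b : G D M) ∈ BG D M),
      ρ (Fmap S (algebraMap M L) b) v = (θ ⟨b, hb⟩ : E) • v) :
    ∃ v' : V, LinearIndependent E (fun h : FG S K => ρ (Fmap S (algebraMap K L) h) v') := by
  classical
  have : CharP M p := charP_of_injective_algebraMap (algebraMap K M).injective p
  have : Finite (G D M) := auxF5f_finite M
  let ρM : Representation E (FG S M) V := ρ.comp (Fmap S (algebraMap M L))
  let U : Subgroup (FG S M) := (UG D M).subgroupOf (FG S M)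
  let T : Subgroup (FG S M) := (TG D M).subgroupOf (FG S M)
  let N : Set (FG S M) := {n | (n : G D M) ∈ NF S M}
  let θ' : FG S M → E := fun g => if h : (g : G D M) ∈ BG D M then (θ ⟨g, h⟩ : E) else 0
  let B : Set (FG S M) := {g | ∃ c : M, mat D (g : G D M) *ᵥ ev D M α₀ = c • ev D M α₀}
  have hTB : TG D M ≤ BG D M := le_sup_left
  have hUB : UG D M ≤ BG D M := le_sup_right
  have hUcard : (Nat.card U : E) ≠ 0 := by
    obtain ⟨k, hk⟩ := card_UG D (K := M) p
    let f : U →* UG D M := ((FG S M).subtype.comp U.subtype).codRestrict (UG D M) (fun u => u.2)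
    have hf : Function.Injective f := by
      intro a b hab
      apply Subtype.ext
      apply Subtype.ext
      exact congrArg (fun z : UG D M => (z : G D M)) hab
    have hdvd := Subgroup.card_dvd_of_injective f hf
    rw [hk] at hdvd
    obtain ⟨j, -, hj⟩ := (Nat.dvd_prime_pow (Fact.out : p.Prime)).1 hdvd
    rw [hj]
    push_cast
    exact pow_ne_zero _ hpE
  have a1 : ∀ g ∈ (⊤ : Subgroup (FG S M)), ∃ u ∈ U, ∃ n ∈ N, ∃ u' ∈ U, g = u * n * u' := by
    rintro g -
    obtain ⟨u, hu, huF, n, hn, u', hu', huF', he⟩ := bruhatF S (g : G D M) g.2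
    refine ⟨⟨u, huF⟩, hu, ⟨n, hn.1⟩, hn, ⟨u', huF'⟩, hu', ?_⟩
    apply Subtype.ext
    exact he
  have a2 : ∀ t ∈ T, ∀ u ∈ U, t * u * t⁻¹ ∈ U := by
    intro t ht u hu
    have ht' : (t : G D M) ∈ TG D M := ht
    have hu' : (u : G D M) ∈ UG D M := hu
    exact torus_conj_mem_UG D (t : G D M) ht' (u : G D M) hu'
  have a3 : ∀ n ∈ N, ∀ t ∈ T, n⁻¹ * t * n ∈ T := by
    rintro n ⟨-, w, χ, -, -, hm⟩ t ⟨χt, hmt⟩
    exact ⟨_, conj_torus D hm hmt⟩
  have a4 : ∀ u ∈ U, ρM u v = v := by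
    intro u hu
    have hb : (u : G D M) ∈ BG D M := hUB hu
    show ρ (Fmap S (algebraMap M L) u) v = v
    rw [hv u hb, hθU ⟨u, hb⟩ hu, Units.val_one, one_smul]
  have a5 : ∀ t ∈ T, ρM t v = θ' t • v := by
    intro t ht
    have hb : (t : G D M) ∈ BG D M := hTB ht
    show ρ (Fmap S (algebraMap M L) t) v = (if h : (t : G D M) ∈ BG D M then (θ ⟨t, h⟩ : E) else 0) • v
    rw [dif_pos hb, hv t hb]
  have a6 : ∀ n ∈ N, n ∈ T → ∀ u ∈ U, ∀ u' ∈ U, u * n * u' ∈ B := by
    intro n _ hnT u hu u' hu'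
    have hu1 : (u : G D M) ∈ UG D M := hu
    have hu1' : (u' : G D M) ∈ UG D M := hu'
    have hnT' : (n : G D M) ∈ TG D M := hnT
    obtain ⟨χ, hm⟩ := hnT'
    refine ⟨χ α₀, ?_⟩
    show mat D ((u : G D M) * (n : G D M) * (u' : G D M)) *ᵥ ev D M α₀ = _
    rw [mat_mul, mat_mul, ← mulVec_mulVec, ← mulVec_mulVec, auxF5f_UG_fix α₀ h₀ _ hu1',
      hm.he α₀ α₀ rfl, mulVec_smul, auxF5f_UG_fix α₀ h₀ _ hu1]
  have hθ' : ∀ (g : FG S M) (hb : (g : G D M) ∈ BG D M), θ' g = (θ ⟨g, hb⟩ : E) :=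
    fun g hb => dif_pos hb
  have a7 : ∀ n ∈ N, n ∉ T → ∃ t ∈ T, θ' (n⁻¹ * t * n) ≠ θ' t := by
    intro n hn hnT
    obtain ⟨t, t', ht, htF, htt, hne⟩ := hθreg n hn hnT
    refine ⟨⟨t, htF⟩, ht, ?_⟩
    obtain ⟨g', hg'⟩ : ∃ g' : FG S M, g' = n⁻¹ * ⟨(t : G D M), htF⟩ * n := ⟨_, rfl⟩
    rw [← hg']
    have hco : (g' : G D M) = (t' : G D M) := by
      rw [htt, hg']
      rfl
    have hb' : (g' : G D M) ∈ BG D M := by
      rw [hco]
      exact t'.2
    have e1 : (⟨(g' : G D M), hb'⟩ : BG D M) = t' := Subtype.ext hco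
    intro he
    apply hne
    have e2 := hθ' g' hb'
    have e3 : θ' ⟨(t : G D M), htF⟩ = (θ t : E) := hθ' ⟨(t : G D M), htF⟩ t.2
    rw [e2, e3, e1] at he
    exact Units.ext he
  have a8 : ∀ h ∈ (Fmap S (algebraMap K M)).range, h ≠ 1 →
      (⟨x, hxF⟩ : FG S M)⁻¹ * h * ⟨x, hxF⟩ ∉ B := by
    rintro _ ⟨h, rfl⟩ hne ⟨c, hc⟩
    have hne' : (h : G D K) ≠ 1 := by
      intro he
      apply hne
      have : h = 1 := Subtype.ext he
      rw [this, map_one]
    exact hx h h.2 hne' c hc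
  have key := orbit_indep ρM v hv0 U T hUcard N ⊤ a1 a2 a3 θ' a4 a5 B a6 a7
    (Fmap S (algebraMap K M)).range le_top ⟨x, hxF⟩ (Subgroup.mem_top _) a8
  refine ⟨ρM ⟨x, hxF⟩ v, ?_⟩
  let e : FG S K → (Fmap S (algebraMap K M)).range := fun h => ⟨Fmap S (algebraMap K M) h, ⟨h, rfl⟩⟩
  have he : Function.Injective e := by
    intro a b hab
    have h1 : Fmap S (algebraMap K M) a = Fmap S (algebraMap K M) b := congrArg Subtype.val hab
    have h2 : Gmap D (algebraMap K M) (a : G D K) = Gmap D (algebraMap K M) (b : G D K) :=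
      congrArg Subtype.val h1
    exact Subtype.ext (Gmap_injective D _ (algebraMap K M).injective h2)
  have h3 := key.comp e he
  convert h3 using 1
  funext h
  show ρ (Fmap S (algebraMap K L) h) (ρM ⟨x, hxF⟩ v) = ρM (Fmap S (algebraMap K M) h * ⟨x, hxF⟩) v
  rw [map_mul]
  show _ = ρM (Fmap S (algebraMap K M) h) (ρM ⟨x, hxF⟩ v)
  have h4 : Fmap S (algebraMap K L) h = Fmap S (algebraMap M L) (Fmap S (algebraMap K M) h) := by
    apply Subtype.ext
    show Gmap D (algebraMap K L) (h : G D K) = Gmap D (algebraMap M L) (Gmap D (algebraMap K M) h)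
    rw [Gmap_comp, IsScalarTower.algebraMap_eq K M L]
  rw [h4]
  rfl

theorem sum_sq_finite {L : Type*} [Field L] [Finite L] (x : L) : ∃ a b : L, x = a ^ 2 + b ^ 2 := by
  classical
  have : Fintype L := Fintype.ofFinite L
  by_cases h2 : ringChar L = 2
  · obtain ⟨a, ha⟩ := FiniteField.isSquare_of_char_two h2 x
    exact ⟨a, 0, by rw [ha]; ring⟩
  · have hodd := FiniteField.odd_card_of_char_ne_two h2
    obtain ⟨a, b, hab⟩ := FiniteField.exists_root_sum_quadratic
      (f := (Polynomial.X ^ 2 : Polynomial L)) (g := Polynomial.X ^ 2 - Polynomial.C x)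
      (Polynomial.degree_X_pow 2) (Polynomial.degree_X_pow_sub_C (by decide) _) hodd
    refine ⟨a, b, ?_⟩
    rw [Polynomial.eval_pow, Polynomial.eval_X, Polynomial.eval_sub, Polynomial.eval_pow,
      Polynomial.eval_X, Polynomial.eval_C] at hab
    linear_combination -hab

theorem yg_one_ne {K : Type*} [Field K] (β : Root D) : yg S β (1 : K) ≠ 1 := by
  classical
  intro h
  have hP : ∀ γ ∈ orb S β, ∀ δ ∈ orb S β, 0 ≤ bil D γ.1 δ.1 := by
    intro γ hγ δ hδ
    rcases orb_orth S β γ δ hγ hδ with h1 | h1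
    · rw [h1, root_norm]; norm_num
    · rw [h1]
  have h1 : yg S β (1 : K) = ((β :: ((orb S β).erase β).toList).map
      fun γ => xg D γ (1 : K)).prod := by
    refine XA_eq_list (orb S β) hP (fun _ => (1 : K)) (β :: ((orb S β).erase β).toList) ?_ ?_
    · rw [List.nodup_cons]
      refine ⟨?_, Finset.nodup_toList _⟩
      rw [Finset.mem_toList]
      exact Finset.notMem_erase β _
    · intro γ
      rw [List.mem_cons, Finset.mem_toList, Finset.mem_erase]
      constructor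
      · rintro (h | h)
        · rw [h]; exact self_mem_orb S β
        · exact h.2
      · intro h
        by_cases hγ : γ = β
        · exact Or.inl hγ
        · exact Or.inr ⟨hγ, h⟩
  have hrest : ∀ M : List (Root D), (∀ γ ∈ M, bil D γ.1 β.1 = 0) →
      mat D (M.map fun γ => xg D γ (1 : K)).prod *ᵥ ev D K (rneg D β) = ev D K (rneg D β) := by
    intro M
    induction M with
    | nil =>
      intro _
      rw [List.map_nil, List.prod_nil, mat_one, Matrix.one_mulVec]
    | cons γ M ih =>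
      intro hM
      rw [List.map_cons, List.prod_cons, mat_mul, ← Matrix.mulVec_mulVec,
        ih (fun δ hδ => hM δ (List.mem_cons_of_mem _ hδ)), mat_xg]
      apply xM_ev_fix
      change 0 ≤ bil D γ.1 (-β.1)
      rw [bil_neg_right, hM γ List.mem_cons_self, neg_zero]
  have h2 : mat D (yg S β (1 : K)) *ᵥ ev D K (rneg D β) =
      ev D K (rneg D β) - (1 : K) • hv D K β.1 + (1 : K) ^ 2 • ev D K β := by
    rw [h1, List.map_cons, List.prod_cons, mat_mul, ← Matrix.mulVec_mulVec, hrest, mat_xg,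
      xM_ev_neg]
    intro γ hγ
    rw [Finset.mem_toList, Finset.mem_erase] at hγ
    rcases orb_orth S β γ β hγ.2 (self_mem_orb S β) with h3 | h3
    · exact absurd h3 hγ.1
    · exact h3
  rw [h, mat_one, Matrix.one_mulVec] at h2
  have h3 := congrFun h2 (Sum.inr β)
  have hne : β ≠ rneg D β := by
    intro he
    have h4 : bil D β.1 β.1 = bil D β.1 (rneg D β).1 := by rw [← he]
    change bil D β.1 β.1 = bil D β.1 (-β.1) at h4
    rw [bil_neg_right, root_norm] at h4
    norm_num at h4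
  have h5 : (Sum.inr β : Idx D) ≠ Sum.inr (rneg D β) := fun he => hne (Sum.inr_injective he)
  rw [Pi.add_apply, Pi.sub_apply, Pi.smul_apply, Pi.smul_apply] at h3
  have h6 : hv D K β.1 (Sum.inr β) = 0 := rfl
  have h7 : ev D K β (Sum.inr β) = 1 := by unfold ev; rw [Pi.single_eq_same]
  rw [h6, h7] at h3
  simp at h3

theorem yg_conj_sq {R : Type*} [CommRing R] (β : Root D) (c : Rˣ) :
    ∃ g ∈ FG S R, g * yg S β 1 * g⁻¹ = yg S β ((c : R) ^ 2) := by
  classical
  obtain ⟨ν, hν⟩ : ∃ ν : Fin l → ℤ, ν = ∑ γ ∈ orb S β, γ.1 := ⟨_, rfl⟩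
  have himg : (orb S β).image (sroot S) = orb S β := by
    apply Finset.eq_of_subset_of_card_le
    · intro δ hδ
      obtain ⟨γ, hγ, rfl⟩ := Finset.mem_image.1 hδ
      rw [← orb_eq S β γ hγ]
      exact sroot_mem_orb S γ
    · rw [Finset.card_image_of_injective _ (sroot_bijective S).1]
  have hfix : pv S.σ ν = ν := by
    have h1 : pv S.σ ν = ∑ γ ∈ orb S β, (sroot S γ).1 := by
      rw [hν]
      funext i
      rw [Finset.sum_apply]
      change (∑ γ ∈ orb S β, γ.1) (S.σ⁻¹ i) = _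
      rw [Finset.sum_apply]
      rfl
    have h2 : ∑ γ ∈ (orb S β).image (sroot S), γ.1 = ∑ γ ∈ orb S β, (sroot S γ).1 :=
      Finset.sum_image (fun a _ b _ hab => (sroot_bijective S).1 hab)
    rw [h1, ← h2, himg, hν]
  have hbil : bil D ν β.1 = 2 := by
    rw [hν, bil_sum_left, Finset.sum_eq_single β]
    · exact root_norm D β
    · intro γ hγ hne
      rcases orb_orth S β γ β hγ (self_mem_orb S β) with h3 | h3
      · exact absurd h3 hne
      · exact h3
    · intro h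
      exact absurd (self_mem_orb S β) h
  obtain ⟨g, hg, hm⟩ := exists_torusF S ν hfix c
  refine ⟨g, hg, ?_⟩
  have h4 := conj_yg S g (FG_fix S g hg) (AddEquiv.refl _) (fun _ => rfl) _ hm β β rfl 1
  rw [h4, mul_one, hbil]
  congr 1

/-- a normal subgroup of the folded group over `L` containing a root element with parameter 1 is
everything, if the folded group over `K` is simple -/
theorem normal_top {K L : Type*} [Field K] [Field L] [Finite L] [Algebra K L]
    [IsSimpleGroup (FG S K)] (N : Subgroup (FG S L)) (hN : N.Normal) (β : Root D)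
    (h : (⟨yg S β 1, yg_mem_FG S β 1⟩ : FG S L) ∈ N) : N = ⊤ := by
  classical
  have hF : ∀ (γ : Root D) (t : K), Fmap S (algebraMap K L) ⟨yg S γ t, yg_mem_FG S γ t⟩ =
      ⟨yg S γ (algebraMap K L t), yg_mem_FG S γ _⟩ := by
    intro γ t
    apply Subtype.ext
    exact Gmap_yg S (algebraMap K L) γ t
  have hN' : (N.comap (Fmap S (algebraMap K L))).Normal := hN.comap _
  have htop : N.comap (Fmap S (algebraMap K L)) = ⊤ := by
    rcases IsSimpleGroup.eq_bot_or_eq_top_of_normal _ hN' with h1 | h1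
    · exfalso
      have h2 : (⟨yg S β 1, yg_mem_FG S β 1⟩ : FG S K) ∈ N.comap (Fmap S (algebraMap K L)) := by
        rw [Subgroup.mem_comap, hF]
        have h3 : (⟨yg S β (algebraMap K L 1), yg_mem_FG S β _⟩ : FG S L) =
            ⟨yg S β 1, yg_mem_FG S β 1⟩ := by
          apply Subtype.ext
          change yg S β (algebraMap K L 1) = yg S β 1
          rw [map_one]
        rw [h3]
        exact h
      rw [h1, Subgroup.mem_bot] at h2
      exact yg_one_ne S β (congrArg Subtype.val h2)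
    · exact h1
  have hone : ∀ γ : Root D, (⟨yg S γ 1, yg_mem_FG S γ 1⟩ : FG S L) ∈ N := by
    intro γ
    have h2 : (⟨yg S γ 1, yg_mem_FG S γ 1⟩ : FG S K) ∈ N.comap (Fmap S (algebraMap K L)) := by
      rw [htop]
      exact Subgroup.mem_top _
    rw [Subgroup.mem_comap, hF] at h2
    have h3 : (⟨yg S γ (algebraMap K L 1), yg_mem_FG S γ _⟩ : FG S L) =
        ⟨yg S γ 1, yg_mem_FG S γ 1⟩ := by
      apply Subtype.ext
      change yg S γ (algebraMap K L 1) = yg S γ 1
      rw [map_one]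
    rwa [h3] at h2
  have hsq : ∀ (γ : Root D) (a : L),
      (⟨yg S γ (a ^ 2), yg_mem_FG S γ _⟩ : FG S L) ∈ N := by
    intro γ a
    by_cases ha : a = 0
    · have h3 : (⟨yg S γ (a ^ 2), yg_mem_FG S γ _⟩ : FG S L) = 1 := by
        apply Subtype.ext
        change yg S γ (a ^ 2) = 1
        rw [ha, zero_pow two_ne_zero, yg_zero]
      rw [h3]
      exact N.one_mem
    · obtain ⟨g, hg, hgc⟩ := yg_conj_sq S (R := L) γ (Units.mk0 a ha)
      have h3 := hN.conj_mem _ (hone γ) ⟨g, hg⟩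
      have h4 : (⟨g, hg⟩ : FG S L) * ⟨yg S γ 1, yg_mem_FG S γ 1⟩ * (⟨g, hg⟩ : FG S L)⁻¹ =
          ⟨yg S γ (a ^ 2), yg_mem_FG S γ _⟩ := Subtype.ext hgc
      rwa [h4] at h3
  have hall : ∀ (γ : Root D) (x : L), (⟨yg S γ x, yg_mem_FG S γ x⟩ : FG S L) ∈ N := by
    intro γ x
    obtain ⟨a, b, hab⟩ := sum_sq_finite x
    have h3 : (⟨yg S γ x, yg_mem_FG S γ x⟩ : FG S L) =
        ⟨yg S γ (a ^ 2), yg_mem_FG S γ _⟩ * ⟨yg S γ (b ^ 2), yg_mem_FG S γ _⟩ := by
      apply Subtype.ext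
      change yg S γ x = yg S γ (a ^ 2) * yg S γ (b ^ 2)
      rw [hab, yg_add]
    rw [h3]
    exact N.mul_mem (hsq γ a) (hsq γ b)
  rw [eq_top_iff]
  rintro ⟨g, hg⟩ _
  have hle : FG S L ≤ N.map (FG S L).subtype := by
    unfold FG
    rw [Subgroup.closure_le]
    rintro _ ⟨γ, t, rfl⟩
    exact ⟨⟨yg S γ t, yg_mem_FG S γ t⟩, hall γ t, rfl⟩
  obtain ⟨y, hy, hyg⟩ := hle hg
  have h5 : y = ⟨g, hg⟩ := Subtype.ext hyg
  rwa [h5] at hy

theorem nontrivialF {K L F V : Type*} [Field K] [Field L] [Finite L] [Algebra K L]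
    [IsSimpleGroup (FG S K)] [Field F] [AddCommGroup V] [Module F V] [FiniteDimensional F V]
    (ρ : Representation F (FG S L) V) (hirr : ρ.IsIrreducible) (hdim : 1 < Module.finrank F V)
    (β : Root D) : ρ (⟨yg S β 1, yg_mem_FG S β 1⟩ : FG S L) ≠ 1 := by
  intro h1
  obtain ⟨N, hNdef⟩ : ∃ N : Subgroup (FG S L), N = MonoidHom.ker ρ := ⟨_, rfl⟩
  have hN : N.Normal := by rw [hNdef]; infer_instance
  have hmem : (⟨yg S β 1, yg_mem_FG S β 1⟩ : FG S L) ∈ N := by
    rw [hNdef, MonoidHom.mem_ker]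
    exact h1
  have htop : N = ⊤ := normal_top (K := K) S N hN β hmem
  have htriv : ∀ g : FG S L, ρ g = 1 := by
    intro g
    have : g ∈ N := by rw [htop]; exact Subgroup.mem_top g
    rw [hNdef, MonoidHom.mem_ker] at this
    exact this
  have hnt : Nontrivial V := Module.nontrivial_of_finrank_pos (R := F) (by omega)
  obtain ⟨v, hv⟩ := exists_ne (0 : V)
  let σ : Subrepresentation ρ :=
    ⟨Submodule.span F {v}, fun g u hu => by rw [htriv g]; exact hu⟩
  have hσ : σ.toSubmodule = Submodule.span F {v} := rfl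
  rcases hirr.eq_bot_or_eq_top σ with h | h
  · have h2 : Submodule.span F {v} = ⊥ := by
      rw [← hσ, h]
      rfl
    rw [Submodule.span_singleton_eq_bot] at h2
    exact hv h2
  · have h2 : Submodule.span F {v} = ⊤ := by
      rw [← hσ, h]
      rfl
    have h3 := finrank_span_singleton (K := F) hv
    rw [h2, finrank_top] at h3
    omega

/-! the abelian normal subgroup -/

/-- invariant coefficient functions -/
def Inv {R : Type*} (a : Root D → R) : Prop := ∀ β, a (sroot S β) = a β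

/-- the orbit sum of basis vectors -/
noncomputable def eo (R : Type*) [CommRing R] (γ : Root D) : Idx D → R :=
  ∑ β ∈ orb S γ, ev D R β

/-- combinatorial conditions on the set `P` of roots of the abelian subgroup -/
structure PSet (P : Finset (Root D)) : Prop where
  pos : ∀ γ ∈ P, Pos γ.1
  ideal : ∀ γ ∈ P, ∀ β δ : Root D, Pos β.1 → δ.1 = γ.1 + β.1 → δ ∈ P
  comm : ∀ γ ∈ P, ∀ δ ∈ P, 0 ≤ bil D γ.1 δ.1
  stab : ∀ γ ∈ P, sroot S γ ∈ P

/-- roots whose root elements normalise the abelian subgroup -/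
def JR (P : Finset (Root D)) (β : Root D) : Prop :=
  rneg D β ∉ P ∧ ∀ γ ∈ P, ∀ δ : Root D, δ.1 = γ.1 + β.1 → δ ∈ P

/-- elements acting linearly on the abelian subgroup -/
def NP {R : Type*} [CommRing R] (P : Finset (Root D)) (g : G D R) : Prop :=
  (∀ γ ∈ P, ∀ i : Idx D, (∀ δ ∈ P, i ≠ Sum.inr δ) → mat D g i (Sum.inr γ) = 0) ∧
  ∀ γ ∈ P, ∀ t : R, g * xg D γ t * g⁻¹ = XA D P (fun δ => t * mat D g (Sum.inr δ) (Sum.inr γ))

theorem zzNP_col {R : Type*} [CommRing R] (g : G D R) (γ : Root D) (i : Idx D) :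
    mat D g i (Sum.inr γ) = (mat D g *ᵥ ev D R γ) i := by
  rw [ev, Matrix.mulVec_single_one]
  rfl

theorem zzNP_sum {R : Type*} [CommRing R] (P : Finset (Root D))
    (M M' : Matrix (Idx D) (Idx D) R) (γ : Root D)
    (h : ∀ i : Idx D, (∀ δ ∈ P, i ≠ Sum.inr δ) → M' i (Sum.inr γ) = 0) (i : Idx D) :
    (M * M') i (Sum.inr γ) = ∑ δ ∈ P, M i (Sum.inr δ) * M' (Sum.inr δ) (Sum.inr γ) := by
  rw [Matrix.mul_apply, Fintype.sum_sum_type]
  have h1 : ∑ j : Fin l, M i (Sum.inl j) * M' (Sum.inl j) (Sum.inr γ) = 0 := by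
    refine Finset.sum_eq_zero fun j _ => ?_
    rw [h _ (fun δ _ => by simp), mul_zero]
  rw [h1, zero_add]
  symm
  apply Finset.sum_subset (Finset.subset_univ _)
  intro δ _ hδ
  rw [h _ (fun δ' hδ' he => hδ (by rw [Sum.inr.inj he]; exact hδ')), mul_zero]

theorem zzNP_XA_zero {R : Type*} [CommRing R] (P : Finset (Root D)) :
    XA D P (fun _ => (0 : R)) = 1 := by
  rw [XA]
  apply List.prod_eq_one
  intro x hx
  rw [List.mem_map] at hx
  obtain ⟨γ, -, rfl⟩ := hx
  exact xg_zero D γ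

theorem zzNP_XA {R : Type*} [CommRing R] (P : Finset (Root D)) (hP : PSet S P) (g : G D R)
    (h : NP P g) (a : Root D → R) : g * XA D P a * g⁻¹ =
      XA D P (fun δ => ∑ γ ∈ P, a γ * mat D g (Sum.inr δ) (Sum.inr γ)) := by
  have key : ∀ L : List (Root D), (∀ γ ∈ L, γ ∈ P) →
      g * (L.map fun γ => xg D γ (a γ)).prod * g⁻¹ =
        XA D P (fun δ => (L.map fun γ => a γ * mat D g (Sum.inr δ) (Sum.inr γ)).sum) := by
    intro L
    induction L with
    | nil =>
      intro _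
      simp only [List.map_nil, List.prod_nil, List.sum_nil]
      rw [zzNP_XA_zero, mul_one, mul_inv_cancel]
    | cons γ L ih =>
      intro hL
      have h1 : g * (((γ :: L).map fun γ => xg D γ (a γ)).prod) * g⁻¹ =
          (g * xg D γ (a γ) * g⁻¹) * (g * (L.map fun γ => xg D γ (a γ)).prod * g⁻¹) := by
        rw [List.map_cons, List.prod_cons]
        group
      rw [h1, ih (fun γ' hγ' => hL γ' (List.mem_cons_of_mem _ hγ')),
        h.2 γ (hL γ List.mem_cons_self), ← XA_add_of_comm P hP.comm]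
      congr 1
  rw [XA, key _ (fun γ hγ => Finset.mem_toList.1 hγ)]
  congr 1
  funext δ
  rw [Finset.sum_map_toList]

theorem NP_mul {R : Type*} [CommRing R] (P : Finset (Root D)) (hP : PSet S P) (g g' : G D R)
    (h : NP P g) (h' : NP P g') : NP P (g * g') := by
  refine ⟨fun γ hγ i hi => ?_, fun γ hγ t => ?_⟩
  · rw [mat_mul, zzNP_sum P _ _ γ (h'.1 γ hγ)]
    refine Finset.sum_eq_zero fun δ hδ => ?_
    rw [h.1 δ hδ i hi, zero_mul]
  · have h1 : g * g' * xg D γ t * (g * g')⁻¹ = g * (g' * xg D γ t * g'⁻¹) * g⁻¹ := by group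
    rw [h1, h'.2 γ hγ, zzNP_XA S P hP g h]
    apply XA_congr
    intro δ _
    rw [mat_mul, zzNP_sum P _ _ γ (h'.1 γ hγ), Finset.mul_sum]
    refine Finset.sum_congr rfl fun ε _ => ?_
    ring

theorem zzNP_scal {R : Type*} [CommRing R] (P : Finset (Root D)) (g : G D R) (γ : Root D)
    (hγ : γ ∈ P) (c : R) (h1 : mat D g *ᵥ ev D R γ = c • ev D R γ)
    (h2 : ∀ t, g * xg D γ t * g⁻¹ = xg D γ (c * t)) :
    (∀ i : Idx D, (∀ δ ∈ P, i ≠ Sum.inr δ) → mat D g i (Sum.inr γ) = 0) ∧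
    ∀ t : R, g * xg D γ t * g⁻¹ = XA D P (fun δ => t * mat D g (Sum.inr δ) (Sum.inr γ)) := by
  refine ⟨fun i hi => ?_, fun t => ?_⟩
  · rw [zzNP_col, h1, Pi.smul_apply, ev, Pi.single_eq_of_ne (hi γ hγ), smul_zero]
  · rw [h2, ← XA_single D P γ hγ]
    apply XA_congr
    intro δ _
    rw [zzNP_col, h1, Pi.smul_apply, ev]
    by_cases hδ : δ = γ
    · subst hδ
      rw [Pi.single_eq_same, Pi.single_eq_same, smul_eq_mul, mul_one, mul_comm]
    · rw [Pi.single_eq_of_ne hδ, Pi.single_eq_of_ne (fun h => hδ (Sum.inr.inj h)), smul_zero,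
        mul_zero]

theorem zzNP_one {R : Type*} [CommRing R] (P : Finset (Root D)) : NP P (1 : G D R) := by
  have key : ∀ γ ∈ P, _ := fun γ (hγ : γ ∈ P) => zzNP_scal P (1 : G D R) γ hγ 1
    (by rw [mat_one, Matrix.one_mulVec, one_smul])
    (fun t => by rw [one_mul, inv_one, mul_one, one_mul])
  exact ⟨fun γ hγ => (key γ hγ).1, fun γ hγ => (key γ hγ).2⟩

theorem zzNP_torus {R : Type*} [CommRing R] (P : Finset (Root D)) (g : G D R)
    (hg : g ∈ TG D R) : NP P g := by
  obtain ⟨χ, hχ⟩ := hg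
  have key : ∀ γ ∈ P, _ := fun γ (hγ : γ ∈ P) => zzNP_scal P g γ hγ (χ γ)
    (hχ.he γ γ rfl) (fun t => hχ.conj D γ γ rfl t)
  exact ⟨fun γ hγ => (key γ hγ).1, fun γ hγ => (key γ hγ).2⟩

theorem zzNP_xg {R : Type*} [CommRing R] (P : Finset (Root D)) (hP : PSet S P) (β : Root D)
    (h : JR P β) (s : R) : NP P (xg D β s) := by
  have key : ∀ γ ∈ P,
      (∀ i : Idx D, (∀ δ ∈ P, i ≠ Sum.inr δ) → mat D (xg D β s) i (Sum.inr γ) = 0) ∧
      ∀ t : R, xg D β s * xg D γ t * (xg D β s)⁻¹ =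
        XA D P (fun δ => t * mat D (xg D β s) (Sum.inr δ) (Sum.inr γ)) := by
    intro γ hγ
    rcases le_or_gt 0 (bil D β.1 γ.1) with hb | hb
    · exact zzNP_scal P (xg D β s) γ hγ 1 (by rw [mat_xg, xM_ev_fix D β γ hb, one_smul])
        (fun t => by rw [xg_commute D β γ hb, one_mul, mul_assoc, mul_inv_cancel, mul_one])
    · have hr := bil_range D β γ
      have hb2 : bil D β.1 γ.1 ≠ -2 := by
        intro he
        rw [bil_eq_neg_two_iff] at he
        apply h.1
        have : rneg D β = γ := root_ext D he.symm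
        rw [this]
        exact hγ
      have hb1 : bil D β.1 γ.1 = -1 := by omega
      have hn : bil D (β.1 + γ.1) (β.1 + γ.1) = 2 := (add_root_iff D β γ).2 hb1
      obtain ⟨δ₀, hδ₀⟩ : ∃ δ₀ : Root D, δ₀.1 = β.1 + γ.1 := ⟨⟨_, hn⟩, rfl⟩
      have hδP : δ₀ ∈ P := h.2 γ hγ δ₀ (by rw [hδ₀, add_comm])
      have hcol := xM_ev_add D β γ δ₀ hδ₀ s
      refine ⟨fun i hi => ?_, fun t => ?_⟩
      · rw [zzNP_col, mat_xg, hcol, Pi.add_apply, Pi.smul_apply, ev, ev,
          Pi.single_eq_of_ne (hi γ hγ), Pi.single_eq_of_ne (hi δ₀ hδP), smul_zero, add_zero]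
      · rw [xg_bracket D β γ δ₀ hδ₀, mul_assoc _ (xg D β s) _, mul_inv_cancel, mul_one,
          ← XA_single D P γ hγ, ← XA_single D P δ₀ hδP, ← XA_add_of_comm P hP.comm]
        apply XA_congr
        intro δ _
        rw [zzNP_col, mat_xg, hcol, Pi.add_apply, Pi.add_apply, Pi.smul_apply, ev, ev]
        have hs : ∀ (α : Root D), (Pi.single (Sum.inr α) (1 : R) : Idx D → R) (Sum.inr δ) =
            if δ = α then 1 else 0 := by
          intro α
          by_cases hα : δ = α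
          · subst hα
            rw [Pi.single_eq_same, if_pos rfl]
          · rw [if_neg hα, Pi.single_eq_of_ne (fun h => hα (Sum.inr.inj h))]
        rw [hs, hs, Pi.single_apply, Pi.single_apply]
        split_ifs <;> simp <;> ring
  exact ⟨fun γ hγ => (key γ hγ).1, fun γ hγ => (key γ hγ).2⟩

theorem zzJR_pos (P : Finset (Root D)) (hP : PSet S P) (β : Root D) (h : Pos β.1) : JR P β := by
  refine ⟨fun hc => ?_, fun γ hγ δ hδ => hP.ideal γ hγ β δ h hδ⟩
  have h1 := (pos_iff_ht D β).1 h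
  have h2 := (pos_iff_ht D (rneg D β)).1 (hP.pos _ hc)
  have h3 : ht (rneg D β).1 = - ht β.1 := ht_neg β.1
  omega

theorem NP_BG {R : Type*} [CommRing R] (P : Finset (Root D)) (hP : PSet S P) (g : G D R)
    (h : g ∈ BG D R) : NP P g := by
  obtain ⟨t, ht, u, hu, rfl⟩ := mem_BG D g h
  apply NP_mul S P hP _ _ (zzNP_torus P t ht)
  clear h
  have key : NP P u ∧ NP P u⁻¹ := by
    unfold UG at hu
    induction hu using Subgroup.closure_induction with
    | mem x hx =>
      obtain ⟨β, t, hβ, rfl⟩ := hx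
      refine ⟨zzNP_xg S P hP β (zzJR_pos S P hP β hβ) t, ?_⟩
      rw [← xg_neg]
      exact zzNP_xg S P hP β (zzJR_pos S P hP β hβ) (-t)
    | one => exact ⟨zzNP_one P, by rw [inv_one]; exact zzNP_one P⟩
    | mul x y _ _ hx hy =>
      exact ⟨NP_mul S P hP _ _ hx.1 hy.1, by rw [_root_.mul_inv_rev]; exact NP_mul S P hP _ _ hy.2 hx.2⟩
    | inv x _ hx => exact ⟨hx.2, by rw [inv_inv]; exact hx.1⟩
  exact key.1

theorem JR_pos (P : Finset (Root D)) (hP : PSet S P) (β : Root D) (h : Pos β.1) : JR P β :=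
  zzJR_pos S P hP β h

theorem zzJR_sroot (P : Finset (Root D)) (hP : PSet S P) (β : Root D) (h : JR P β) :
    JR P (sroot S β) := by
  classical
  have himg : P.image (sroot S) = P := by
    apply Finset.eq_of_subset_of_card_le
    · intro x hx
      rw [Finset.mem_image] at hx
      obtain ⟨y, hy, rfl⟩ := hx
      exact hP.stab y hy
    · rw [Finset.card_image_of_injective _ (sroot_bijective S).1]
  have hback : ∀ x, sroot S x ∈ P → x ∈ P := by
    intro x hx
    rw [← himg, Finset.mem_image] at hx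
    obtain ⟨y, hy, hyx⟩ := hx
    rwa [← (sroot_bijective S).1 hyx]
  have hinv : ∀ x y : Fin l → ℤ, pv S.σ x = pv S.σ y → x = y := by
    intro x y hxy
    have := congrArg (pv S.σ⁻¹) hxy
    rwa [← pv_mul, ← pv_mul, inv_mul_cancel, pv_one, pv_one] at this
  refine ⟨fun hc => ?_, fun γ hγ δ hδ => ?_⟩
  · apply h.1
    apply hback
    have : sroot S (rneg D β) = rneg D (sroot S β) := root_ext D rfl
    rw [this]
    exact hc
  · obtain ⟨γ', rfl⟩ := (sroot_bijective S).2 γ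
    obtain ⟨δ', rfl⟩ := (sroot_bijective S).2 δ
    apply hP.stab
    apply h.2 γ' (hback _ hγ)
    apply hinv
    rw [pv_add]
    exact hδ

theorem NP_yg {R : Type*} [CommRing R] (P : Finset (Root D)) (hP : PSet S P) (β : Root D)
    (h : JR P β) (t : R) : NP P (yg S β t) := by
  have h1 : ∀ γ ∈ orb S β, JR P γ := orb_induction S β h (fun γ hγ => zzJR_sroot S P hP γ hγ)
  have key : ∀ L : List (Root D), (∀ γ ∈ L, JR P γ) →
      NP P ((L.map fun γ => xg D γ t).prod) := by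
    intro L
    induction L with
    | nil => intro _; exact zzNP_one P
    | cons γ L ih =>
      intro hL
      rw [List.map_cons, List.prod_cons]
      exact NP_mul S P hP _ _ (zzNP_xg S P hP γ (hL γ List.mem_cons_self) t)
        (ih (fun γ' hγ' => hL γ' (List.mem_cons_of_mem _ hγ')))
  exact key _ (fun γ hγ => h1 γ (Finset.mem_toList.1 hγ))

theorem NP_XA {R : Type*} [CommRing R] (P : Finset (Root D)) (hP : PSet S P) (g : G D R)
    (h : NP P g) (a : Root D → R) : g * XA D P a * g⁻¹ =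
      XA D P (fun δ => ∑ γ ∈ P, a γ * mat D g (Sum.inr δ) (Sum.inr γ)) :=
  zzNP_XA S P hP g h a

theorem XA_inj_aux1 {R : Type*} [CommRing R] (L : List (Root D)) (f : Root D → G D R)
    (p : Root D → Prop) [DecidablePred p] (h : ∀ γ ∈ L, ¬ p γ → f γ = 1) :
    (L.map f).prod = ((L.filter (fun γ => decide (p γ))).map f).prod := by
  induction L with
  | nil => simp
  | cons γ L ih =>
    have ih' := ih (fun δ hδ => h δ (List.mem_cons_of_mem _ hδ))
    by_cases hp : p γ
    · rw [List.filter_cons_of_pos (by simpa using hp), List.map_cons, List.prod_cons,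
        List.map_cons, List.prod_cons, ih']
    · rw [List.filter_cons_of_neg (by simpa using hp), List.map_cons, List.prod_cons,
        h γ List.mem_cons_self hp, one_mul, ih']

theorem XA_inj_zero {R : Type*} [CommRing R] (P : Finset (Root D)) (a : Root D → R)
    (h : ∀ γ ∈ P, a γ = 0) : XA D P a = 1 := by
  rw [XA]
  apply List.prod_eq_one
  intro x hx
  rw [List.mem_map] at hx
  obtain ⟨γ, hγ, rfl⟩ := hx
  rw [h γ (Finset.mem_toList.1 hγ), xg_zero]

theorem XA_inj_UK {R : Type*} [CommRing R] (P : Finset (Root D)) (k : ℤ) (a : Root D → R)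
    (hpos : ∀ γ ∈ P, Pos γ.1) (h : ∀ γ ∈ P, ht γ.1 < k → a γ = 0) : XA D P a ∈ UK D R k := by
  rw [XA]
  apply Subgroup.list_prod_mem
  intro x hx
  rw [List.mem_map] at hx
  obtain ⟨γ, hγ, rfl⟩ := hx
  rw [Finset.mem_toList] at hγ
  rcases lt_or_ge (ht γ.1) k with hlt | hge
  · rw [h γ hγ hlt, xg_zero]; exact Subgroup.one_mem _
  · exact Subgroup.subset_closure ⟨γ, a γ, hpos γ hγ, hge, rfl⟩

theorem XA_inj_key {K : Type*} [Field K] (P : Finset (Root D)) (hP : PSet S P) (c : Root D → K)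
    (h : XA D P c = 1) (n : ℕ) : ∀ γ ∈ P, ht γ.1 = n → c γ = 0 := by
  classical
  induction n using Nat.strong_induction_on with
  | _ n ih =>
    intro γ hγ hn
    have hpos : 1 ≤ (n : ℤ) := by
      rw [← hn]
      have := (pos_iff_ht D γ).1 (hP.pos γ hγ)
      omega
    set s : Root D → K := fun β => if β ∈ P ∧ ht β.1 = n then c β else 0 with hs
    set c' : Root D → K := fun β => if ht β.1 = n then 0 else c β with hc'
    have hsplit : XA D P c = XA D P (s + c') := by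
      apply XA_congr
      intro β hβ
      simp only [Pi.add_apply, hs, hc']
      by_cases h1 : ht β.1 = n
      · simp [h1, hβ]
      · simp [h1]
    rw [XA_add_of_comm P hP.comm] at hsplit
    have hc'UK : XA D P c' ∈ UK D K ((n : ℤ) + 1) := by
      apply XA_inj_UK P _ _ hP.pos
      intro β hβ hlt
      simp only [hc']
      by_cases h1 : ht β.1 = n
      · simp [h1]
      · rw [if_neg h1]
        have h2 := (pos_iff_ht D β).1 (hP.pos β hβ)
        have h3 : ht β.1 < n := by omega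
        refine ih (ht β.1).toNat (by omega) β hβ (by omega)
    have hk : XA D P s = ((Finset.univ.filter fun β : Root D => ht β.1 = (n : ℤ)).toList.map
        fun β => xg D β (s β)).prod := by
      rw [XA]
      rw [XA_inj_aux1 P.toList (fun β => xg D β (s β)) (fun β => ht β.1 = (n : ℤ))]
      · rw [XA_inj_aux1 (Finset.univ.filter fun β : Root D => ht β.1 = (n : ℤ)).toList
          (fun β => xg D β (s β)) (fun β => β ∈ P)]
        · have hPk : ∀ γ ∈ P.filter (fun β => ht β.1 = (n : ℤ)),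
              ∀ δ ∈ P.filter (fun β => ht β.1 = (n : ℤ)), 0 ≤ bil D γ.1 δ.1 := by
            intro γ hγ δ hδ
            exact hP.comm γ (Finset.mem_filter.1 hγ).1 δ (Finset.mem_filter.1 hδ).1
          rw [← XA_eq_list (P.filter (fun β => ht β.1 = (n : ℤ))) hPk s,
            ← XA_eq_list (P.filter (fun β => ht β.1 = (n : ℤ))) hPk s]
          · exact (Finset.nodup_toList _).filter _
          · intro δ
            simp [and_comm]
          · exact (Finset.nodup_toList _).filter _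
          · intro δ
            simp
        · intro δ _ hδ2
          have : s δ = 0 := by simp [hs, hδ2]
          rw [this, xg_zero]
      · intro δ _ hδ2
        have : s δ = 0 := by simp [hs, hδ2]
        rw [this, xg_zero]
    have h1 : ((Finset.univ.filter fun β : Root D => ht β.1 = (n : ℤ)).toList.map
        fun β => xg D β ((fun _ => (0 : K)) β)).prod = 1 := by
      apply List.prod_eq_one
      intro x hx
      rw [List.mem_map] at hx
      obtain ⟨γ, hγ, rfl⟩ := hx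
      rw [xg_zero]
    have := UK_coeff_unique (n : ℤ) hpos s (fun _ => 0) (XA D P c') 1 hc'UK
      (Subgroup.one_mem _) (by rw [h1, ← hk, ← hsplit, h, one_mul]) γ hn
    simpa [hs, hγ, hn] using this

theorem XA_inj {K : Type*} [Field K] (P : Finset (Root D)) (hP : PSet S P) (a b : Root D → K)
    (h : XA D P a = XA D P b) : ∀ γ ∈ P, a γ = b γ := by
  intro γ hγ
  have h1 : XA D P (a - b) = 1 := by
    have h2 := XA_add_of_comm P hP.comm (a - b) b
    rw [sub_add_cancel, h] at h2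
    exact (mul_eq_right.1 h2.symm)
  have h3 := (pos_iff_ht D γ).1 (hP.pos γ hγ)
  have h4 := XA_inj_key S P hP (a - b) h1 (ht γ.1).toNat γ hγ (by omega)
  exact sub_eq_zero.1 h4

/-- orbit representatives in `P` -/
def IsReps (P P₀ : Finset (Root D)) : Prop := P₀ ⊆ P ∧ ∀ γ ∈ P, ∃! γ' : Root D, γ' ∈ P₀ ∧ γ' ∈ orb S γ

theorem stab_orb (P : Finset (Root D)) (hs : ∀ γ ∈ P, sroot S γ ∈ P) (γ : Root D) (hγ : γ ∈ P) :
    ∀ δ ∈ orb S γ, δ ∈ P := orb_induction S γ hγ hs

theorem inv_orb {R : Type*} [CommRing R] (a : Root D → R) (ha : Inv S a) (γ : Root D) :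
    ∀ δ ∈ orb S γ, a δ = a γ := by
  refine orb_induction S (p := fun δ => a δ = a γ) γ rfl ?_
  intro δ hδ
  rw [ha, hδ]

theorem XA_eq_reps {R : Type*} [CommRing R] (P P₀ : Finset (Root D)) (hP : PSet S P)
    (hP₀ : IsReps S P P₀) (a : Root D → R) (ha : Inv S a) :
    XA D P a = (P₀.toList.map fun γ => yg S γ (a γ)).prod := by
  classical
  have h1 : ∀ γ : Root D, yg S γ (a γ) = ((orb S γ).toList.map fun δ => xg D δ (a δ)).prod := by
    intro γ
    rw [yg, XA]
    congr 1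
    apply List.map_congr_left
    intro δ hδ
    rw [inv_orb S a ha γ δ (Finset.mem_toList.1 hδ)]
  have h2 : (P₀.toList.map fun γ => yg S γ (a γ)).prod =
      ((P₀.toList.flatMap fun γ => (orb S γ).toList).map fun δ => xg D δ (a δ)).prod := by
    generalize P₀.toList = L
    induction L with
    | nil => simp
    | cons γ L ih =>
      rw [List.map_cons, List.prod_cons, ih, List.flatMap_cons, List.map_append,
        List.prod_append, h1]
  rw [h2]
  apply XA_eq_list P hP.comm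
  · rw [List.nodup_flatMap]
    refine ⟨fun γ _ => Finset.nodup_toList _, ?_⟩
    refine List.Pairwise.imp_of_mem ?_ (Finset.nodup_toList P₀)
    intro γ₁ γ₂ h₁ h₂ hne
    rw [Finset.mem_toList] at h₁ h₂
    intro δ hδ₁ hδ₂
    rw [Finset.mem_toList] at hδ₁ hδ₂
    apply hne
    have e1 := orb_eq S γ₁ δ hδ₁
    have e2 := orb_eq S γ₂ δ hδ₂
    have hδP : δ ∈ P := stab_orb S P hP.stab γ₁ (hP₀.1 h₁) δ hδ₁
    obtain ⟨γ', _, hu⟩ := hP₀.2 δ hδP
    rw [hu γ₁ ⟨h₁, by rw [e1]; exact self_mem_orb S γ₁⟩,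
      hu γ₂ ⟨h₂, by rw [e2]; exact self_mem_orb S γ₂⟩]
  · intro δ
    rw [List.mem_flatMap]
    constructor
    · rintro ⟨γ, hγ, hδ⟩
      rw [Finset.mem_toList] at hγ hδ
      exact stab_orb S P hP.stab γ (hP₀.1 hγ) δ hδ
    · intro hδ
      obtain ⟨γ', ⟨hγ'1, hγ'2⟩, _⟩ := hP₀.2 δ hδ
      refine ⟨γ', Finset.mem_toList.2 hγ'1, Finset.mem_toList.2 ?_⟩
      rw [orb_eq S δ γ' hγ'2]
      exact self_mem_orb S δ

theorem exists_reps_F6b (P : Finset (Root D)) (hP : PSet S P) : ∃ P₀, IsReps S P P₀ := by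
  classical
  rcases P.eq_empty_or_nonempty with h | ⟨γ₀, hγ₀⟩
  · subst h
    exact ⟨∅, Finset.Subset.refl _, by simp⟩
  · have : ∀ T : Finset (Root D), ∃ x, T.Nonempty → x ∈ T := by
      intro T
      by_cases hT : T.Nonempty
      · exact ⟨hT.choose, fun _ => hT.choose_spec⟩
      · exact ⟨γ₀, fun h => absurd h hT⟩
    choose f hf using this
    have hf' : ∀ γ, f (orb S γ) ∈ orb S γ := fun γ => hf _ ⟨γ, self_mem_orb S γ⟩
    refine ⟨P.image (fun γ => f (orb S γ)), ?_, ?_⟩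
    · intro δ hδ
      obtain ⟨γ, hγ, rfl⟩ := Finset.mem_image.1 hδ
      exact stab_orb S P hP.stab γ hγ _ (hf' γ)
    · intro γ hγ
      refine ⟨f (orb S γ), ⟨Finset.mem_image.2 ⟨γ, hγ, rfl⟩, hf' γ⟩, ?_⟩
      rintro δ ⟨h1, h2⟩
      obtain ⟨ε, hε, rfl⟩ := Finset.mem_image.1 h1
      have e1 := orb_eq S ε _ (hf' ε)
      have e2 := orb_eq S γ _ h2
      rw [← e1, e2]

theorem XA_mem_FG {R : Type*} [CommRing R] (P : Finset (Root D)) (hP : PSet S P)
    (a : Root D → R) (ha : Inv S a) : XA D P a ∈ FG S R := by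
  obtain ⟨P₀, hP₀⟩ := exists_reps_F6b S P hP
  rw [XA_eq_reps S P P₀ hP hP₀ a ha]
  apply Subgroup.list_prod_mem
  intro x hx
  rw [List.mem_map] at hx
  obtain ⟨γ, _, rfl⟩ := hx
  exact yg_mem_FG S γ (a γ)

theorem mem_AG_of_PSet {R : Type*} [CommRing R] (P : Finset (Root D)) (hP : PSet S P) (g : G D R)
    (hg : g ∈ AG D R P) : ∃ a, g = XA D P a := by
  classical
  rw [AG] at hg
  induction hg using Subgroup.closure_induction with
  | mem x hx =>
    obtain ⟨β, t, hβ, rfl⟩ := hx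
    exact ⟨Pi.single β t, (XA_single D P β hβ t).symm⟩
  | one => exact ⟨fun _ => 0, (XA_inj_zero P _ (fun _ _ => rfl)).symm⟩
  | mul x y _ _ hx hy =>
    obtain ⟨a, rfl⟩ := hx
    obtain ⟨b, rfl⟩ := hy
    exact ⟨a + b, (XA_add_of_comm P hP.comm a b).symm⟩
  | inv x _ hx =>
    obtain ⟨a, rfl⟩ := hx
    refine ⟨-a, ?_⟩
    rw [inv_eq_iff_mul_eq_one, ← XA_add_of_comm P hP.comm, add_neg_cancel]
    exact XA_inj_zero P _ (fun _ _ => rfl)

theorem stab_iff (P : Finset (Root D)) (hs : ∀ γ ∈ P, sroot S γ ∈ P) (γ : Root D) :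
    sroot S γ ∈ P ↔ γ ∈ P := by
  classical
  refine ⟨fun h => ?_, hs γ⟩
  have him : P.image (sroot S) = P := by
    apply Finset.eq_of_subset_of_card_le
    · intro δ hδ
      obtain ⟨ε, hε, rfl⟩ := Finset.mem_image.1 hδ
      exact hs ε hε
    · rw [Finset.card_image_of_injective _ (sroot_bijective S).1]
  rw [← him] at h
  obtain ⟨ε, hε, he⟩ := Finset.mem_image.1 h
  rw [← (sroot_bijective S).1 he]
  exact hε

theorem sg_XA {R : Type*} [CommRing R] (P : Finset (Root D)) (hP : PSet S P)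
    (a a' : Root D → R) (haa : ∀ γ, a' (sroot S γ) = a γ) :
    sg S R (XA D P a) = XA D P a' := by
  classical
  rw [XA_eq_list P hP.comm a' (P.toList.map (sroot S))]
  · rw [XA, map_list_prod, List.map_map, List.map_map]
    congr 1
    apply List.map_congr_left
    intro γ _
    simp only [Function.comp_apply, sg_xg, haa]
  · exact (Finset.nodup_toList P).map (sroot_bijective S).1
  · intro δ
    rw [List.mem_map]
    constructor
    · rintro ⟨γ, hγ, rfl⟩
      exact hP.stab γ (Finset.mem_toList.1 hγ)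
    · intro hδ
      obtain ⟨γ, rfl⟩ := (sroot_bijective S).2 δ
      exact ⟨γ, Finset.mem_toList.2 ((stab_iff S P hP.stab γ).1 hδ), rfl⟩

theorem AG_inf_FG {K : Type*} [Field K] (P : Finset (Root D)) (hP : PSet S P) (g : G D K)
    (hg : g ∈ AG D K P) (hgF : g ∈ FG S K) : ∃ a : Root D → K, Inv S a ∧ g = XA D P a := by
  classical
  obtain ⟨a, rfl⟩ := mem_AG_of_PSet S P hP g hg
  set e := Equiv.ofBijective (sroot S) (sroot_bijective S) with he
  have haa : ∀ γ, (fun δ => a (e.symm δ)) (sroot S γ) = a γ := by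
    intro γ
    have : sroot S γ = e γ := rfl
    simp only [this, Equiv.symm_apply_apply]
  have h1 := sg_XA S P hP a (fun δ => a (e.symm δ)) haa
  rw [FG_fix S _ hgF] at h1
  have h2 := XA_inj S P hP _ _ h1
  have h3 : ∀ γ ∈ P, a (sroot S γ) = a γ := by
    intro γ hγ
    rw [h2 _ (hP.stab γ hγ)]
    exact haa γ
  refine ⟨fun γ => if γ ∈ P then a γ else 0, ?_, ?_⟩
  · intro γ
    show (if sroot S γ ∈ P then a (sroot S γ) else 0) = if γ ∈ P then a γ else 0
    by_cases hγ : γ ∈ P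
    · rw [if_pos hγ, if_pos (hP.stab γ hγ), h3 γ hγ]
    · rw [if_neg hγ, if_neg (fun h => hγ ((stab_iff S P hP.stab γ).1 h))]
  · apply XA_congr
    intro γ hγ
    simp [hγ]

/-- good roots: detected by the action on the abelian subgroup in characteristic `p` -/
def Good (p : ℕ) (P : Finset (Root D)) (δ : Root D) : Prop :=
  ∃ γ ∈ P, bil D δ.1 γ.1 = -1 ∧
    ((∀ γ' ∈ orb S γ, γ' ≠ γ → bil D (δ.1 + γ.1) γ'.1 ≠ 1) ∨
      (pv S.σ (δ.1 + γ.1) = δ.1 + γ.1 ∧ ¬ p ∣ (orb S γ).card))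

theorem cF833_mulVec_ev {R : Type*} [CommRing R] (A : Matrix (Idx D) (Idx D) R) (β : Root D)
    (i : Idx D) : (A *ᵥ ev D R β) i = A i (Sum.inr β) := by
  unfold ev
  rw [Matrix.mulVec_single_one]
  rfl

theorem cF833_mulVec_eo {R : Type*} [CommRing R] (A : Matrix (Idx D) (Idx D) R) (γ : Root D)
    (i : Idx D) : (A *ᵥ eo S R γ) i = ∑ γ' ∈ orb S γ, A i (Sum.inr γ') := by
  unfold eo
  rw [Matrix.mulVec_sum, Finset.sum_apply]
  exact Finset.sum_congr rfl (fun β _ => cF833_mulVec_ev A β i)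

theorem cF833_ev {R : Type*} [CommRing R] (β ε : Root D) :
    ev D R β (Sum.inr ε) = if β = ε then 1 else 0 := by
  unfold ev
  rw [Pi.single_apply]
  by_cases h : β = ε
  · rw [if_pos h, if_pos (by rw [h])]
  · rw [if_neg h, if_neg (fun h' => h (Sum.inr_injective h').symm)]

theorem cF833_eo {R : Type*} [CommRing R] (γ ε : Root D) :
    eo S R γ (Sum.inr ε) = if ε ∈ orb S γ then 1 else 0 := by
  unfold eo
  rw [Finset.sum_apply, Finset.sum_congr rfl (fun β _ => cF833_ev β ε), Finset.sum_ite_eq']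

theorem cF833_diag {R : Type*} [CommRing R] (t : G D R) (χ : Root D → R)
    (h : Mono D t (AddEquiv.refl _) χ) :
    mat D t = Matrix.diagonal (fun i : Idx D => Sum.elim (fun _ => (1 : R)) χ i) := by
  apply mat_ext
  · intro β
    rw [h.he β β rfl]
    funext i
    rw [Matrix.mulVec_diagonal, Pi.smul_apply, smul_eq_mul]
    cases i with
    | inl j => simp [ev]
    | inr ε =>
      rw [cF833_ev, Sum.elim_inr]
      by_cases h : β = ε
      · rw [h]
      · rw [if_neg h, mul_zero, mul_zero]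
  · intro y
    rw [h.hh y]
    funext i
    rw [Matrix.mulVec_diagonal]
    cases i with
    | inl j => rw [Sum.elim_inl, one_mul]; rfl
    | inr ε =>
      show (0 : R) = _ * (0 : R)
      rw [mul_zero]

theorem cF833_TU {R : Type*} [CommRing R] (g : G D R) (h1 : g ∈ TG D R) (h2 : g ∈ UG D R) :
    g = 1 := by
  obtain ⟨χ, h⟩ := h1
  have hd := cF833_diag g χ h
  have hu := (UG_unitri D g h2).2
  apply mat_injective D
  rw [mat_one, hd, ← Matrix.diagonal_one]
  congr 1
  funext i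
  have := hu i
  rw [hd, Matrix.diagonal_apply_eq] at this
  exact this

theorem cF833_sgT {R : Type*} [CommRing R] (t : G D R) (h : t ∈ TG D R) :
    sg S R t ∈ TG D R := by
  obtain ⟨χ, h⟩ := h
  let e := Equiv.ofBijective (sroot S) (sroot_bijective S)
  have h2 := sg_mono S t (AddEquiv.refl _) (AddEquiv.refl _) (fun x => rfl) χ
    (fun β => χ (e.symm β)) (fun β => by
      have : e.symm (sroot S β) = β := e.symm_apply_apply β
      rw [this]) h
  exact ⟨_, h2⟩

theorem cF833_orbP (P : Finset (Root D)) (hP : PSet S P) (γ : Root D) (hγ : γ ∈ P) :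
    ∀ γ' ∈ orb S γ, γ' ∈ P :=
  orb_induction S (p := fun x => x ∈ P) γ hγ (fun x hx => hP.stab x hx)

theorem cF833_xg_eo {R : Type*} [CommRing R] (P : Finset (Root D)) (hP : PSet S P)
    (δ γ : Root D) (hδ : δ ∈ P) (hγ : γ ∈ P) (t : R) :
    mat D (xg D δ t) *ᵥ eo S R γ = eo S R γ := by
  unfold eo
  rw [Matrix.mulVec_sum]
  apply Finset.sum_congr rfl
  intro β hβ
  rw [mat_xg]
  exact xM_ev_fix D δ β (hP.comm δ hδ β (cF833_orbP S P hP γ hγ β hβ)) t

theorem cF833_XA_eo {R : Type*} [CommRing R] (P : Finset (Root D)) (hP : PSet S P)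
    (a : Root D → R) (γ : Root D) (hγ : γ ∈ P) :
    mat D (XA D P a) *ᵥ eo S R γ = eo S R γ := by
  unfold XA
  have key : ∀ L : List (Root D), (∀ x ∈ L, x ∈ P) →
      mat D ((L.map fun γ => xg D γ (a γ)).prod) *ᵥ eo S R γ = eo S R γ := by
    intro L
    induction L with
    | nil => intro _; rw [List.map_nil, List.prod_nil, mat_one, Matrix.one_mulVec]
    | cons x L ih =>
      intro hL
      rw [List.map_cons, List.prod_cons, mat_mul, ← Matrix.mulVec_mulVec,
        ih (fun y hy => hL y (List.mem_cons_of_mem _ hy)),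
        cF833_xg_eo S P hP x γ (hL x List.mem_cons_self) hγ]
  exact key P.toList (fun x hx => Finset.mem_toList.1 hx)

theorem cF833_C_act {K : Type*} [Field K] (P Q : Finset (Root D))
    (hP : PSet S P)
    (hQact : ∀ δ ∈ Q, ∀ γ ∈ P, ∀ t : K, mat D (yg S δ t) *ᵥ eo S K γ = eo S K γ)
    (g : G D K) (hg : g ∈ Subgroup.closure ({g | ∃ a : Root D → K, Inv S a ∧ g = XA D P a} ∪
      {g | ∃ δ ∈ Q, ∃ t : K, g = yg S δ t})) :
    ∀ γ ∈ P, mat D g *ᵥ eo S K γ = eo S K γ := by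
  intro γ hγ
  induction hg using Subgroup.closure_induction with
  | mem g hg =>
    rcases hg with ⟨a, _, rfl⟩ | ⟨δ, hδ, t, rfl⟩
    · exact cF833_XA_eo S P hP a γ hγ
    · exact hQact δ hδ γ hγ t
  | one => rw [mat_one, Matrix.one_mulVec]
  | mul a b _ _ iha ihb => rw [mat_mul, ← Matrix.mulVec_mulVec, ihb, iha]
  | inv a _ iha =>
    have h1 : mat D a⁻¹ *ᵥ (mat D a *ᵥ eo S K γ) = eo S K γ := by
      rw [Matrix.mulVec_mulVec, ← mat_mul, inv_mul_cancel, mat_one, Matrix.one_mulVec]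
    rw [iha] at h1
    exact h1

theorem cF833_sroot_orb (β γ : Root D) : sroot S γ ∈ orb S β ↔ γ ∈ orb S β := by
  have h1 : orb S (sroot S γ) = orb S γ := orb_eq S γ (sroot S γ) (sroot_mem_orb S γ)
  constructor
  · intro h
    have h2 := orb_eq S β (sroot S γ) h
    rw [← h2, h1]
    exact self_mem_orb S γ
  · intro h
    have h2 := orb_eq S β γ h
    rw [← h2, ← h1]
    exact self_mem_orb S (sroot S γ)

theorem cF833_yg_P {R : Type*} [CommRing R] (P : Finset (Root D)) (hP : PSet S P) (β : Root D)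
    (hβ : β ∈ P) (t : R) : ∃ a : Root D → R, Inv S a ∧ yg S β t = XA D P a := by
  classical
  refine ⟨fun γ => if γ ∈ orb S β then t else 0, ?_, ?_⟩
  · intro γ
    simp only [cF833_sroot_orb]
  · have hsub : orb S β ⊆ P := cF833_orbP S P hP β hβ
    rw [XA_eq_list P hP.comm _ ((orb S β).toList ++ (P \ orb S β).toList) ?_ ?_]
    · rw [List.map_append, List.prod_append]
      have h1 : ((P \ orb S β).toList.map
          fun γ => xg D γ (if γ ∈ orb S β then t else 0)).prod = 1 := by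
        apply List.prod_eq_one
        intro x hx
        rw [List.mem_map] at hx
        obtain ⟨γ, hγ, rfl⟩ := hx
        rw [Finset.mem_toList, Finset.mem_sdiff] at hγ
        rw [if_neg hγ.2, xg_zero]
      rw [h1, mul_one]
      unfold yg XA
      congr 1
      apply List.map_congr_left
      intro γ hγ
      rw [Finset.mem_toList] at hγ
      rw [if_pos hγ]
    · rw [List.nodup_append]
      refine ⟨Finset.nodup_toList _, Finset.nodup_toList _, ?_⟩
      intro a ha b hb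
      rw [Finset.mem_toList] at ha hb
      rw [Finset.mem_sdiff] at hb
      rintro rfl
      exact hb.2 ha
    · intro γ
      rw [List.mem_append, Finset.mem_toList, Finset.mem_toList, Finset.mem_sdiff]
      constructor
      · rintro (h | h)
        · exact hsub h
        · exact h.1
      · intro h
        by_cases h' : γ ∈ orb S β
        · exact Or.inl h'
        · exact Or.inr ⟨h, h'⟩

theorem cF833_iter (j : ℕ) (δ : Root D) : ((sroot S)^[j] δ).1 = pv (S.σ ^ j) δ.1 := by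
  induction j with
  | zero => rfl
  | succ j ih =>
    rw [Function.iterate_succ_apply', pow_succ', pv_mul, ← ih]
    rfl

theorem cF833_iter_s {R : Type*} (s : Root D → R) (hs : ∀ β, s (sroot S β) = s β) (j : ℕ)
    (δ : Root D) : s ((sroot S)^[j] δ) = s δ := by
  induction j with
  | zero => rfl
  | succ j ih => rw [Function.iterate_succ_apply', hs, ih]

theorem cF833_term {K : Type*} [Field K] (k : ℤ) (u : G D K) (s : Root D → K)
    (hcoef : ∀ i j : Idx D, deg D i = deg D j + k → mat D u i j =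
        ∑ β ∈ Finset.univ.filter (fun β : Root D => ht β.1 = k), s β * ((E D β i j : ℤ) : K))
    (ε γ' : Root D) (hd : ht ε.1 = ht γ'.1 + k) :
    (∀ β₀ : Root D, ε.1 = β₀.1 + γ'.1 →
      mat D u (Sum.inr ε) (Sum.inr γ') = s β₀ * ((sgn D β₀.1 γ'.1 : ℤ) : K)) ∧
    ((∀ β : Root D, ε.1 ≠ β.1 + γ'.1) → mat D u (Sum.inr ε) (Sum.inr γ') = 0) := by
  have h0 := hcoef (Sum.inr ε) (Sum.inr γ') hd
  have hE : ∀ β : Root D, E D β (Sum.inr ε) (Sum.inr γ')
      = if ε.1 = β.1 + γ'.1 then sgn D β.1 γ'.1 else 0 := fun β => rfl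
  constructor
  · intro β₀ hβ
    rw [h0, Finset.sum_eq_single β₀]
    · rw [hE, if_pos hβ]
    · intro β _ hne
      rw [hE, if_neg, Int.cast_zero, mul_zero]
      intro h
      apply hne
      apply root_ext
      rw [hβ] at h
      exact (add_right_cancel h).symm
    · intro hn
      exfalso
      apply hn
      rw [Finset.mem_filter]
      refine ⟨Finset.mem_univ _, ?_⟩
      rw [hβ, ht_add] at hd
      linarith
  · intro hno
    rw [h0]
    apply Finset.sum_eq_zero
    intro β _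
    rw [hE, if_neg (hno β), Int.cast_zero, mul_zero]

theorem cF833_key {K : Type*} [Field K] (p : ℕ) [CharP K p] (P : Finset (Root D))
    (δ : Root D) (hδ : Good S p P δ) (k : ℤ) (hk : 1 ≤ k)
    (hht : ht δ.1 = k) (u : G D K) (s : Root D → K) (hs : ∀ β, s (sroot S β) = s β)
    (hcoef : ∀ i j : Idx D, deg D i = deg D j + k → mat D u i j =
        ∑ β ∈ Finset.univ.filter (fun β : Root D => ht β.1 = k), s β * ((E D β i j : ℤ) : K))
    (hact : ∀ γ ∈ P, mat D u *ᵥ eo S K γ = eo S K γ) : s δ = 0 := by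
  obtain ⟨γ, hγ, hbil, hor⟩ := hδ
  obtain ⟨ε, hε⟩ : ∃ ε : Root D, ε.1 = δ.1 + γ.1 := ⟨⟨δ.1 + γ.1, (add_root_iff D δ γ).2 hbil⟩, rfl⟩
  have hsgn : ∀ x y : Fin l → ℤ, ((sgn D x y : ℤ) : K) ≠ 0 := by
    intro x y h
    have h1 := sgn_mul_self D x y
    have h2 : ((sgn D x y : ℤ) : K) * ((sgn D x y : ℤ) : K) = 1 := by
      rw [← Int.cast_mul, h1, Int.cast_one]
    rw [h, mul_zero] at h2
    exact zero_ne_one h2
  have hεht : ht ε.1 = ht γ.1 + k := by rw [hε, ht_add, hht]; ring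
  have hεn : ε ∉ orb S γ := by
    intro h
    have := orb_ht S γ ε h
    linarith
  have h0 := congrFun (hact γ hγ) (Sum.inr ε)
  rw [cF833_mulVec_eo, cF833_eo, if_neg hεn] at h0
  have hd : ∀ γ' ∈ orb S γ, ht ε.1 = ht γ'.1 + k := by
    intro γ' hγ'
    rw [orb_ht S γ γ' hγ', hεht]
  rcases hor with h1 | ⟨h1, h2⟩
  · rw [Finset.sum_eq_single γ] at h0
    · rw [(cF833_term k u s hcoef ε γ hεht).1 δ hε] at h0
      exact (mul_eq_zero.1 h0).resolve_right (hsgn _ _)
    · intro γ' hγ' hne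
      apply (cF833_term k u s hcoef ε γ' (hd γ' hγ')).2
      intro β hβ
      apply h1 γ' hγ' hne
      rw [← hε]
      have h3 : bil D β.1 γ'.1 = -1 := by
        rw [← add_root_iff D β γ', ← hβ]
        exact ε.2
      rw [hβ, bil_add_left, h3, γ'.2]
      norm_num
    · intro h
      exact absurd (self_mem_orb S γ) h
  · have hpvε : ∀ j : ℕ, pv (S.σ ^ j) ε.1 = ε.1 := by
      intro j
      induction j with
      | zero => rw [pow_zero, pv_one]
      | succ j ih => rw [pow_succ, pv_mul, hε, h1, ← hε, ih]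
    have hall : ∀ γ' ∈ orb S γ, mat D u (Sum.inr ε) (Sum.inr γ')
        = s δ * ((sgn D δ.1 γ.1 : ℤ) : K) := by
      intro γ' hγ'
      obtain ⟨j, hj⟩ := (mem_orb S γ γ').1 hγ'
      have h3 : ε.1 = ((sroot S)^[j] δ).1 + γ'.1 := by
        rw [cF833_iter, hj, ← pv_add, ← hε, hpvε]
      rw [(cF833_term k u s hcoef ε γ' (hd γ' hγ')).1 _ h3, cF833_iter_s S s hs, cF833_iter, hj,
        sgn_pv]
    rw [Finset.sum_congr rfl hall, Finset.sum_const, nsmul_eq_mul] at h0
    have hc : (((orb S γ).card : ℕ) : K) ≠ 0 := by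
      intro h
      exact h2 ((CharP.cast_eq_zero_iff K p _).1 h)
    have h3 := (mul_eq_zero.1 h0).resolve_left hc
    exact (mul_eq_zero.1 h3).resolve_right (hsgn _ _)

theorem cF833_ind {K : Type*} [Field K] (p : ℕ) [CharP K p] (P Q : Finset (Root D))
    (hP : PSet S P)
    (hgood : ∀ δ : Root D, Pos δ.1 → δ ∉ P → δ ∉ Q → Good S p P δ)
    (hQact : ∀ δ ∈ Q, ∀ γ ∈ P, ∀ t : K, mat D (yg S δ t) *ᵥ eo S K γ = eo S K γ)
    (H : ℤ) (hH : ∀ β : Root D, ht β.1 ≤ H) :
    ∀ (n : ℕ) (k : ℤ), 1 ≤ k → H + 1 - k ≤ n → ∀ u ∈ UK D K k, sg S K u = u →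
      (∀ γ ∈ P, mat D u *ᵥ eo S K γ = eo S K γ) →
      u ∈ Subgroup.closure ({g | ∃ a : Root D → K, Inv S a ∧ g = XA D P a} ∪
        {g | ∃ δ ∈ Q, ∃ t : K, g = yg S δ t}) := by
  intro n
  induction n with
  | zero =>
    intro k hk hn u hu _ _
    have h1 : UK D K k ≤ ⊥ := by
      unfold UK
      rw [Subgroup.closure_le]
      rintro g ⟨β, t, _, h2, _⟩
      exfalso
      have := hH β
      push_cast at hn
      linarith
    have h2 := h1 hu
    rw [Subgroup.mem_bot] at h2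
    rw [h2]
    exact one_mem _
  | succ n ih =>
    intro k hk hn u hu hfix hact
    obtain ⟨s, L, u', hu', hfix', hs, hL, hdec, hcoef⟩ := UK_fix_decomp S k hk u hu hfix
    have hz : ∀ δ : Root D, ht δ.1 = k → s δ ≠ 0 → δ ∈ P ∨ δ ∈ Q := by
      intro δ hδ hne
      by_contra hcon
      push Not at hcon
      apply hne
      have hpos : Pos δ.1 := (pos_iff_ht D δ).2 (by linarith)
      exact cF833_key S p P δ (hgood δ hpos hcon.1 hcon.2) k hk hδ u s hs hcoef hact
    have hc0 : (L.map fun β => yg S β (s β)).prod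
        ∈ Subgroup.closure ({g | ∃ a : Root D → K, Inv S a ∧ g = XA D P a} ∪
        {g | ∃ δ ∈ Q, ∃ t : K, g = yg S δ t}) := by
      apply Subgroup.list_prod_mem
      intro x hx
      rw [List.mem_map] at hx
      obtain ⟨β, hβ, rfl⟩ := hx
      apply Subgroup.subset_closure
      rcases hz β (hL β hβ).1 (hL β hβ).2 with h | h
      · left
        exact cF833_yg_P S P hP β h (s β)
      · right
        exact ⟨β, h, s β, rfl⟩
    have hu'eq : u' = ((L.map fun β => yg S β (s β)).prod)⁻¹ * u := by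
      rw [hdec]; group
    have hact' : ∀ γ ∈ P, mat D u' *ᵥ eo S K γ = eo S K γ := by
      intro γ hγ
      rw [hu'eq, mat_mul, ← Matrix.mulVec_mulVec, hact γ hγ]
      exact cF833_C_act S P Q hP hQact _ (Subgroup.inv_mem _ hc0) γ hγ
    have h3 := ih (k + 1) (by linarith) (by push_cast at hn; linarith) u' hu' hfix' hact'
    rw [hdec]
    exact Subgroup.mul_mem _ hc0 h3

/-- the centraliser of the folded abelian subgroup in the folded Borel subgroup -/
theorem centralizerF {K : Type*} [Field K] (p : ℕ) [CharP K p] (P Q : Finset (Root D))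
    (hP : PSet S P) (hQpos : ∀ δ ∈ Q, Pos δ.1) (hQstab : ∀ δ ∈ Q, sroot S δ ∈ Q)
    (hgood : ∀ δ : Root D, Pos δ.1 → δ ∉ P → δ ∉ Q → Good S p P δ)
    (hQact : ∀ δ ∈ Q, ∀ γ ∈ P, ∀ t : K, mat D (yg S δ t) *ᵥ eo S K γ = eo S K γ)
    (hQtor : ∀ (t : G D K) (χ : Root D → K), t ∈ FG S K → Mono D t (AddEquiv.refl _) χ →
      (∀ γ ∈ P, χ γ = 1) → ∀ δ ∈ Q, χ δ = 1)
    (b : G D K) (hb : b ∈ BG D K) (hbF : b ∈ FG S K)
    (hact : ∀ γ ∈ P, mat D b *ᵥ eo S K γ = eo S K γ) :
    b ∈ Subgroup.closure ({g | ∃ a : Root D → K, Inv S a ∧ g = XA D P a} ∪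
      {g | ∃ δ ∈ Q, ∃ t : K, g = yg S δ t}) := by
  obtain ⟨t, ht', u, hu, hbtu⟩ := mem_BG D b hb
  have hsb := FG_fix S b hbF
  have hTinv : (sg S K t)⁻¹ * t = 1 := by
    apply cF833_TU
    · exact mul_mem (inv_mem (cF833_sgT S t ht')) ht'
    · have h1 : (sg S K t)⁻¹ * t = sg S K u * u⁻¹ := by
        have h2 : sg S K t * sg S K u = t * u := by rw [← map_mul, ← hbtu, hsb]
        rw [inv_mul_eq_iff_eq_mul, ← mul_assoc, h2]
        group
      rw [h1]
      exact mul_mem (sg_UG S u hu) (inv_mem hu)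
  have hsgt : sg S K t = t := by
    rw [inv_mul_eq_one] at hTinv
    exact hTinv
  have hsgu : sg S K u = u := by
    have h2 : sg S K t * sg S K u = t * u := by rw [← map_mul, ← hbtu, hsb]
    rw [hsgt] at h2
    exact mul_left_cancel h2
  have huF : u ∈ FG S K := mem_FG_of_unip S u hu hsgu
  have htF : t ∈ FG S K := by
    have h1 : t = b * u⁻¹ := by rw [hbtu]; group
    rw [h1]
    exact mul_mem hbF (inv_mem huF)
  obtain ⟨χ, hχ⟩ := ht'
  have hd := cF833_diag t χ hχ
  have huni := UG_unitri D u hu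
  have hχP : ∀ γ ∈ P, χ γ = 1 := by
    intro γ hγ
    have h1 := congrFun (hact γ hγ) (Sum.inr γ)
    rw [hbtu, mat_mul, ← Matrix.mulVec_mulVec, hd, Matrix.mulVec_diagonal, cF833_mulVec_eo,
      cF833_eo, if_pos (self_mem_orb S γ), Finset.sum_eq_single γ, huni.2, mul_one] at h1
    · exact h1
    · intro γ' hγ' hne
      apply huni.1
      · intro h
        exact hne (Sum.inr_injective h).symm
      · show ht γ.1 ≤ ht γ'.1
        rw [orb_ht S γ γ' hγ']
    · intro h
      exact absurd (self_mem_orb S γ) h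
  have hχQ := hQtor t χ htF hχ hχP
  have hsgnK : ∀ x y : Fin l → ℤ, ((sgn D x y : ℤ) : K) ≠ 0 := by
    intro x y h
    have h1 := sgn_mul_self D x y
    have h2 : ((sgn D x y : ℤ) : K) * ((sgn D x y : ℤ) : K) = 1 := by
      rw [← Int.cast_mul, h1, Int.cast_one]
    rw [h, mul_zero] at h2
    exact zero_ne_one h2
  have hχpos : ∀ δ : Root D, Pos δ.1 → χ δ = 1 := by
    intro δ hδ
    by_cases h1 : δ ∈ P
    · exact hχP δ h1
    by_cases h2 : δ ∈ Q
    · exact hχQ δ h2
    obtain ⟨γ, hγ, hbil, _⟩ := hgood δ hδ h1 h2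
    obtain ⟨ε, hε⟩ : ∃ ε : Root D, ε.1 = δ.1 + γ.1 :=
      ⟨⟨δ.1 + γ.1, (add_root_iff D δ γ).2 hbil⟩, rfl⟩
    have hεP : ε ∈ P := hP.ideal γ hγ δ ε hδ (by rw [hε, add_comm])
    have h3 := hχ.hmul δ γ ε hε
    rw [hχP ε hεP, hχP γ hγ, mul_one, mul_one] at h3
    have h4 : ((sgn D δ.1 γ.1 : ℤ) : K) * 1 = ((sgn D δ.1 γ.1 : ℤ) : K) * χ δ := by
      rw [mul_one]; exact h3
    exact (mul_left_cancel₀ (hsgnK _ _) h4).symm
  have hχ1 : ∀ δ : Root D, χ δ = 1 := by
    intro δ
    rcases pos_or_neg D δ with h | h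
    · exact hχpos δ h
    · have h1 := hχ.hneg δ
      have h2 : χ (rneg D δ) = 1 := hχpos (rneg D δ) h
      rw [h2, mul_one] at h1
      exact h1
  have ht1 : t = 1 := by
    apply mat_injective D
    rw [hd, mat_one, ← Matrix.diagonal_one]
    congr 1
    funext i
    cases i with
    | inl j => rfl
    | inr β => exact hχ1 β
  have hbu : b = u := by rw [hbtu, ht1, one_mul]
  obtain ⟨H, hH⟩ : ∃ H : ℤ, ∀ β : Root D, ht β.1 ≤ H := by
    have := root_finite D
    obtain ⟨H, hH⟩ := (Set.finite_range (fun β : Root D => ht β.1)).bddAbove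
    exact ⟨H, fun β => hH ⟨β, rfl⟩⟩
  have huUK : u ∈ UK D K 1 := by
    have hle : UG D K ≤ UK D K 1 := by
      unfold UG
      rw [Subgroup.closure_le]
      rintro g ⟨β, s, hβ, rfl⟩
      apply Subgroup.subset_closure
      refine ⟨β, s, hβ, ?_, rfl⟩
      have := (pos_iff_ht D β).1 hβ
      omega
    exact hle hu
  rw [hbu] at hact ⊢
  exact cF833_ind S p P Q hP hgood hQact H hH (H + 1 - 1).toNat 1 le_rfl
    (Int.self_le_toNat _) u huUK hsgu hact

/-- elementary moves between roots of `P` -/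
def StepRel (p : ℕ) (P : Finset (Root D)) (γ γ' : Root D) : Prop :=
  γ' ∈ P ∧ (γ' ∈ orb S γ ∨ ∃ β : Root D, JR P β ∧ ¬ (p : ℤ) ∣ ∑ β' ∈ orb S β, ∑ γ'' ∈ orb S γ,
    E D β' (Sum.inr γ') (Sum.inr γ''))

/-- the orbit sum of a vector -/
noncomputable def avg_23922 (x : Fin l → ℤ) : Fin l → ℤ :=
  ∑ k ∈ Finset.range (orderOf S.σ), pv (S.σ ^ k) x

theorem pv_sum_23922 {ι : Type*} (π : Equiv.Perm (Fin l)) (s : Finset ι) (f : ι → Fin l → ℤ) :
    pv π (∑ i ∈ s, f i) = ∑ i ∈ s, pv π (f i) := by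
  funext j
  simp only [pv, Finset.sum_apply]

theorem avg_fixed_23922 (x : Fin l → ℤ) : pv S.σ (avg_23922 S x) = avg_23922 S x := by
  unfold avg_23922
  rw [pv_sum_23922]
  have h1 : ∀ k ∈ Finset.range (orderOf S.σ), pv S.σ (pv (S.σ ^ k) x) = pv (S.σ ^ (k + 1)) x := by
    intro k _
    rw [pow_succ', pv_mul]
  rw [Finset.sum_congr rfl h1]
  have h2 := Finset.sum_range_succ' (fun k => pv (S.σ ^ k) x) (orderOf S.σ)
  have h3 := Finset.sum_range_succ (fun k => pv (S.σ ^ k) x) (orderOf S.σ)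
  rw [h3] at h2
  simp only [pow_orderOf_eq_one, pow_zero] at h2
  exact (add_right_cancel h2).symm

theorem pow_fixed_23922 {ν : Fin l → ℤ} (hν : pv S.σ ν = ν) (k : ℕ) : pv (S.σ ^ k) ν = ν := by
  induction k with
  | zero => rw [pow_zero, pv_one]
  | succ k ih => rw [pow_succ, pv_mul, hν, ih]

theorem bil_avg_23922 {ν : Fin l → ℤ} (hν : pv S.σ ν = ν) (c : Fin l → ℤ) :
    bil D ν (avg_23922 S c) = (orderOf S.σ : ℤ) * bil D ν c := by
  unfold avg_23922
  rw [bil_sum_right]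
  have h1 : ∀ k ∈ Finset.range (orderOf S.σ), bil D ν (pv (S.σ ^ k) c) = bil D ν c := by
    intro k _
    conv_lhs => rw [← pow_fixed_23922 S hν k]
    exact bil_pv S k ν c
  rw [Finset.sum_congr rfl h1, Finset.sum_const, Finset.card_range, nsmul_eq_mul]

theorem exists_avoid_23922 (P : Finset (Root D)) (hP : ∀ γ ∈ P, Pos γ.1)
    (Z : Finset (Fin l → ℤ)) (hZ : ∀ z ∈ Z, z ≠ 0 ∧ pv S.σ z = z) :
    ∃ ν : Fin l → ℤ, pv S.σ ν = ν ∧ (∀ γ ∈ P, 1 ≤ bil D ν γ.1) ∧ ∀ z ∈ Z, bil D ν z ≠ 0 := by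
  classical
  induction Z using Finset.induction_on with
  | empty =>
    obtain ⟨ν, d, hd, hν⟩ := exists_rho D
    refine ⟨ν, rho_fixed S ν d hν, ?_, by simp⟩
    intro γ hγ
    rw [hν]
    have h1 := (pos_iff_ht D γ).1 (hP γ hγ)
    have h2 : (1 : ℤ) ≤ d := by exact_mod_cast hd
    nlinarith
  | insert z Z hz ih =>
    obtain ⟨μ, hμ1, hμ2, hμ3⟩ := ih (fun y hy => hZ y (Finset.mem_insert_of_mem hy))
    obtain ⟨hz0, hzf⟩ := hZ z (Finset.mem_insert_self _ _)
    set T : ℤ := 1 + (∑ y ∈ Z, |bil D z y|) + |bil D z z| + ∑ γ ∈ P, |bil D z γ.1| with hT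
    have hs1 : 0 ≤ ∑ y ∈ Z, |bil D z y| := Finset.sum_nonneg fun _ _ => abs_nonneg _
    have hs2 : 0 ≤ ∑ γ ∈ P, |bil D z γ.1| := Finset.sum_nonneg fun _ _ => abs_nonneg _
    have hs3 : 0 ≤ |bil D z z| := abs_nonneg _
    have hTy : ∀ y ∈ Z, |bil D z y| < T := by
      intro y hy
      have h1 : |bil D z y| ≤ ∑ y ∈ Z, |bil D z y| :=
        Finset.single_le_sum (f := fun y => |bil D z y|) (fun _ _ => abs_nonneg _) hy
      linarith
    have hTz : |bil D z z| < T := by linarith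
    have hTP : ∀ γ ∈ P, |bil D z γ.1| < T := by
      intro γ hγ
      have h1 : |bil D z γ.1| ≤ ∑ γ ∈ P, |bil D z γ.1| :=
        Finset.single_le_sum (f := fun γ : Root D => |bil D z γ.1|)
        (fun _ _ => abs_nonneg _) hγ
      linarith
    have hne : ∀ a b : ℤ, a ≠ 0 → |b| < T → T * a + b ≠ 0 := by
      intro a b ha hb h
      have h1 : |T * a| = |b| := by
        rw [show T * a = -b by linarith, abs_neg]
      rw [abs_mul] at h1
      have h2 : 1 ≤ |a| := Int.one_le_abs ha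
      have h3 : T ≤ |T| := le_abs_self _
      have h4 : |T| * 1 ≤ |T| * |a| := mul_le_mul_of_nonneg_left h2 (abs_nonneg _)
      linarith
    refine ⟨T • μ + z, ?_, ?_, ?_⟩
    · rw [pv_add, hzf]
      have : pv S.σ (T • μ) = T • pv S.σ μ := rfl
      rw [this, hμ1]
    · intro γ hγ
      rw [bil_add_left, bil_smul_left]
      have h1 := hμ2 γ hγ
      have h2 := hTP γ hγ
      have h3 := neg_abs_le (bil D z γ.1)
      have h4 : 0 ≤ T := by linarith [abs_nonneg (bil D z γ.1)]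
      nlinarith
    · intro y hy
      rw [bil_add_left, bil_smul_left]
      rcases Finset.mem_insert.1 hy with rfl | hyZ
      · by_cases h0 : bil D μ y = 0
        · rw [h0, mul_zero, zero_add]
          exact (bil_pos D y hz0).ne'
        · exact hne _ _ h0 hTz
      · exact hne _ _ (hμ3 y hyZ) (hTy y hyZ)

/-- a cocharacter separating the orbits in `P` -/
theorem exists_sep (P : Finset (Root D)) (hP : ∀ γ ∈ P, Pos γ.1) : ∃ ν : Fin l → ℤ,
    pv S.σ ν = ν ∧ (∀ γ ∈ P, 1 ≤ bil D ν γ.1) ∧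
    ∀ γ ∈ P, ∀ γ' ∈ P, bil D ν γ.1 = bil D ν γ'.1 → γ' ∈ orb S γ := by
  classical
  set Z : Finset (Fin l → ℤ) := ((P ×ˢ P).image
    (fun p => avg_23922 S p.1.1 - avg_23922 S p.2.1)).filter (fun z => z ≠ 0) with hZ
  obtain ⟨ν, h1, h2, h3⟩ := exists_avoid_23922 S P hP Z (by
    intro z hz
    rw [hZ, Finset.mem_filter, Finset.mem_image] at hz
    obtain ⟨⟨p, _, rfl⟩, hz0⟩ := hz
    refine ⟨hz0, ?_⟩
    have : pv S.σ (avg_23922 S p.1.1 - avg_23922 S p.2.1) =
      pv S.σ (avg_23922 S p.1.1) - pv S.σ (avg_23922 S p.2.1) := rfl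
    rw [this, avg_fixed_23922, avg_fixed_23922])
  refine ⟨ν, h1, h2, ?_⟩
  intro γ hγ γ' hγ' heq
  by_contra hcon
  have hz0 : avg_23922 S γ.1 - avg_23922 S γ'.1 ≠ 0 := by
    intro h
    apply hcon
    apply orb_sum_injective S γ γ'
    exact sub_eq_zero.1 h
  have hzZ : avg_23922 S γ.1 - avg_23922 S γ'.1 ∈ Z := by
    rw [hZ, Finset.mem_filter, Finset.mem_image]
    exact ⟨⟨(γ, γ'), Finset.mem_product.2 ⟨hγ, hγ'⟩, rfl⟩, hz0⟩
  apply h3 _ hzZ
  rw [bil_sub_right, bil_avg_23922 S h1, bil_avg_23922 S h1, heq, sub_self]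

/-- the element of a letter: `none` is a torus letter, `some β` a root letter -/
noncomputable def letter {L : Type*} [Field L] (ν : Fin l → ℤ) (hν : pv S.σ ν = ν)
    (o : Option (Root D)) (t : L) : G D L :=
  open Classical in
  match o with
  | some β => yg S β t
  | none => if h : t ≠ 0 then (exists_torusF S ν hν (Units.mk0 t h)).choose else 1

/-- generalised words -/
noncomputable def gw {L : Type*} [Field L] (ν : Fin l → ℤ) (hν : pv S.σ ν = ν)
    (W : List (Option (Root D))) (s : Fin W.length → L) : G D L :=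
  (List.ofFn fun i => letter S ν hν (W.get i) (s i)).prod

theorem gwa_cons {L : Type*} [Field L] (ν : Fin l → ℤ) (hν : pv S.σ ν = ν) (o : Option (Root D))
    (W : List (Option (Root D))) (s : Fin (W.length + 1) → L) :
    gw S ν hν (o :: W) s = letter S ν hν o (s 0) * gw S ν hν W (fun i => s i.succ) := by
  unfold gw
  change (List.ofFn (n := W.length + 1)
    (fun i => letter S ν hν ((o :: W).get i) (s i))).prod = _
  rw [List.ofFn_succ, List.prod_cons]
  rfl

theorem gwa_some {L : Type*} [Field L] (ν : Fin l → ℤ) (hν : pv S.σ ν = ν) (β : Root D) (t : L) :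
    letter S ν hν (some β) t = yg S β t := rfl

theorem gwa_none {L : Type*} [Field L] (ν : Fin l → ℤ) (hν : pv S.σ ν = ν) (t : L) (h : t ≠ 0) :
    letter S ν hν none t = (exists_torusF S ν hν (Units.mk0 t h)).choose := by
  unfold letter
  exact dif_pos h

theorem gwa_none_zero {L : Type*} [Field L] (ν : Fin l → ℤ) (hν : pv S.σ ν = ν) :
    letter S ν hν none (0 : L) = 1 := by
  unfold letter
  exact dif_neg (by simp)

theorem gwa_NP_one {L : Type*} [Field L] (P : Finset (Root D)) (hP : PSet S P) :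
    NP P (1 : G D L) := NP_BG S P hP 1 (Subgroup.one_mem _)

theorem gwa_letter {L : Type*} [Field L] (ν : Fin l → ℤ) (hν : pv S.σ ν = ν) (P : Finset (Root D))
    (hP : PSet S P) (o : Option (Root D)) (ho : ∀ β, o = some β → JR P β) (t : L) :
    letter S ν hν o t ∈ FG S L ∧ NP P (letter S ν hν o t) := by
  cases o with
  | some β => exact ⟨yg_mem_FG S β t, NP_yg S P hP β (ho β rfl) t⟩
  | none =>
    by_cases h : t = 0
    · subst h
      rw [gwa_none_zero]
      exact ⟨Subgroup.one_mem _, gwa_NP_one S P hP⟩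
    · rw [gwa_none S ν hν t h]
      have hs := (exists_torusF S ν hν (Units.mk0 t h)).choose_spec
      refine ⟨hs.1, NP_BG S P hP _ ?_⟩
      have h1 : (exists_torusF S ν hν (Units.mk0 t h)).choose ∈ TG D L := ⟨_, hs.2⟩
      exact (le_sup_left : TG D L ≤ TG D L ⊔ UG D L) h1

theorem gw_mem {L : Type*} [Field L] (ν : Fin l → ℤ) (hν : pv S.σ ν = ν) (P : Finset (Root D))
    (hP : PSet S P) (W : List (Option (Root D))) (hW : ∀ β, some β ∈ W → JR P β)
    (s : Fin W.length → L) : gw S ν hν W s ∈ FG S L ∧ NP P (gw S ν hν W s) := by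
  induction W with
  | nil => exact ⟨Subgroup.one_mem _, gwa_NP_one S P hP⟩
  | cons o W ih =>
    have h1 := ih (fun β hβ => hW β (List.mem_cons_of_mem _ hβ)) (fun i => s i.succ)
    have h2 := gwa_letter S ν hν P hP o (fun β hβ => hW β (by rw [hβ]; exact List.mem_cons_self))
      (s 0)
    have h3 := gwa_cons S ν hν o W s
    rw [h3]
    exact ⟨Subgroup.mul_mem _ h2.1 h1.1, NP_mul S P hP _ _ h2.2 h1.2⟩

theorem gwa_orb_sub (P : Finset (Root D)) (hP : PSet S P) (γ : Root D) (hγ : γ ∈ P) :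
    ∀ β ∈ orb S γ, β ∈ P :=
  orb_induction S γ hγ (fun β hβ => hP.stab β hβ)

theorem gwa_col {R : Type*} [CommRing R] (A : Matrix (Idx D) (Idx D) R) (β : Root D) (i : Idx D) :
    (A *ᵥ ev D R β) i = A i (Sum.inr β) := by
  unfold ev
  rw [Matrix.mulVec_single_one]
  rfl

theorem gwa_eo {R : Type*} [CommRing R] (A : Matrix (Idx D) (Idx D) R) (γ : Root D) (i : Idx D) :
    (A *ᵥ eo S R γ) i = ∑ β ∈ orb S γ, A i (Sum.inr β) := by
  unfold eo
  rw [Matrix.mulVec_sum, Finset.sum_apply]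
  exact Finset.sum_congr rfl fun β _ => gwa_col A β i

theorem gwa_letter_poly (ν : Fin l → ℤ) (hν : pv S.σ ν = ν) (P : Finset (Root D))
    (hνP : ∀ γ ∈ P, 1 ≤ bil D ν γ.1) (o : Option (Root D)) :
    ∃ p : Root D → Root D → MvPolynomial (Fin 1) ℤ, ∀ (L : Type) [Field L] (t : L),
      (o = none → t ≠ 0) → ∀ γ ∈ P, ∀ δ ∈ P,
        mat D (letter S ν hν o t) (Sum.inr δ) (Sum.inr γ) =
          MvPolynomial.aeval (fun _ => t) (p δ γ) := by
  classical
  cases o with
  | some β =>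
    obtain ⟨Q, hQ⟩ := wdF_poly S [β]
    refine ⟨fun δ γ => Q (Sum.inr δ) (Sum.inr γ), ?_⟩
    intro L _ t _ γ _ δ _
    have h := hQ L (fun _ => t) (Sum.inr δ) (Sum.inr γ)
    have h2 : wdF S [β] (fun _ => t) = letter S ν hν (some β) t := by
      rw [gwa_some]
      unfold wdF
      simp
    rw [h2] at h
    exact h
  | none =>
    refine ⟨fun δ γ => if δ = γ then MvPolynomial.X 0 ^ (bil D ν γ.1).toNat else 0, ?_⟩
    intro L _ t ht γ hγ δ _
    have h := ht rfl
    rw [gwa_none S ν hν t h]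
    have hs := (exists_torusF S ν hν (Units.mk0 t h)).choose_spec.2
    have h1 := hs.he γ γ rfl
    have h4 := gwa_col (mat D (exists_torusF S ν hν (Units.mk0 t h)).choose) γ (Sum.inr δ)
    rw [← h4, h1]
    have h2 : (((Units.mk0 t h) ^ (bil D ν γ.1) : Lˣ) : L) = t ^ (bil D ν γ.1).toNat := by
      have h3 : bil D ν γ.1 = ((bil D ν γ.1).toNat : ℤ) :=
        (Int.toNat_of_nonneg (by have := hνP γ hγ; linarith)).symm
      rw [Units.val_zpow_eq_zpow_val, Units.val_mk0]
      conv_lhs => rw [h3]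
      rw [zpow_natCast]
    simp only [Pi.smul_apply, smul_eq_mul]
    rw [h2]
    unfold ev
    by_cases hd : δ = γ
    · rw [if_pos hd, hd, Pi.single_eq_same, mul_one]
      simp
    · rw [if_neg hd, Pi.single_eq_of_ne (by simpa using hd), mul_zero, map_zero]

theorem gwa_entry (ν : Fin l → ℤ) (hν : pv S.σ ν = ν) (P : Finset (Root D))
    (hP : PSet S P) (hνP : ∀ γ ∈ P, 1 ≤ bil D ν γ.1)
    (W : List (Option (Root D))) (hW : ∀ β, some β ∈ W → JR P β) :
    ∃ Q : Root D → Root D → MvPolynomial (Fin W.length) ℤ,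
      ∀ (L : Type) [Field L] (s : Fin W.length → L), (∀ i, W.get i = none → s i ≠ 0) →
        ∀ γ ∈ P, ∀ δ ∈ P, mat D (gw S ν hν W s) (Sum.inr δ) (Sum.inr γ) =
          MvPolynomial.aeval s (Q δ γ) := by
  classical
  induction W with
  | nil =>
    refine ⟨fun δ γ => if δ = γ then 1 else 0, ?_⟩
    intro L _ s _ γ _ δ _
    have h1 : gw S ν hν [] s = 1 := rfl
    rw [h1, mat_one, Matrix.one_apply]
    change _ = MvPolynomial.aeval s (if δ = γ then 1 else 0)
    by_cases hd : δ = γ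
    · rw [if_pos hd, if_pos (by rw [hd]), map_one]
    · rw [if_neg hd, if_neg (by simpa using hd), map_zero]
  | cons o W ih =>
    obtain ⟨Q, hQ⟩ := ih (fun β hβ => hW β (List.mem_cons_of_mem _ hβ))
    obtain ⟨p, hp⟩ := gwa_letter_poly S ν hν P hνP o
    refine ⟨fun δ γ => ∑ ε ∈ P,
      MvPolynomial.rename (fun _ : Fin 1 => (0 : Fin (W.length + 1))) (p δ ε) *
      MvPolynomial.rename (Fin.succ : Fin W.length → Fin (W.length + 1)) (Q ε γ), ?_⟩
    intro L _ s hs γ hγ δ hδ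
    rw [gwa_cons, mat_mul, Matrix.mul_apply, Fintype.sum_sum_type]
    have hNP := (gw_mem S ν hν P hP W (fun β hβ => hW β (List.mem_cons_of_mem _ hβ))
      (fun i => s i.succ)).2
    rw [Finset.sum_eq_zero (fun j _ => by
      rw [hNP.1 γ hγ (Sum.inl j) (fun δ _ => by simp), mul_zero]), zero_add]
    rw [← Finset.sum_subset (Finset.subset_univ P) (fun ε _ hε => by
      rw [hNP.1 γ hγ (Sum.inr ε) (fun δ' hδ' h => hε (by
        have := Sum.inr.inj h
        rw [this]; exact hδ')), mul_zero]), map_sum]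
    refine Finset.sum_congr rfl fun ε hε => ?_
    have e1 := hp L (s 0) (fun ho => hs 0 ho) ε hε δ hδ
    have e2 := hQ L (fun i => s i.succ) (fun i hi => hs i.succ hi) γ hγ ε hε
    rw [e1, e2, map_mul, MvPolynomial.aeval_rename, MvPolynomial.aeval_rename]
    rfl

theorem gw_poly (ν : Fin l → ℤ) (hν : pv S.σ ν = ν) (P : Finset (Root D))
    (hP : PSet S P) (hνP : ∀ γ ∈ P, 1 ≤ bil D ν γ.1)
    (W : List (Option (Root D))) (hW : ∀ β, some β ∈ W → JR P β) :
    ∃ Q : Root D → Root D → MvPolynomial (Fin W.length) ℤ,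
      ∀ (L : Type) [Field L] (s : Fin W.length → L), (∀ i, W.get i = none → s i ≠ 0) →
        ∀ γ ∈ P, ∀ δ ∈ P, (mat D (gw S ν hν W s) *ᵥ eo S L γ) (Sum.inr δ) =
          MvPolynomial.aeval s (Q δ γ) := by
  obtain ⟨Q, hQ⟩ := gwa_entry S ν hν P hP hνP W hW
  refine ⟨fun δ γ => ∑ β ∈ orb S γ, Q δ β, ?_⟩
  intro L _ s hs γ hγ δ hδ
  rw [gwa_eo, map_sum]
  exact Finset.sum_congr rfl fun β hβ => hQ L s hs β (gwa_orb_sub S P hP γ hγ β hβ) δ hδ

/-- values of a generalised word -/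
def GVal {L : Type} [Field L] (ν : Fin l → ℤ) (hν : pv S.σ ν = ν) (W : List (Option (Root D)))
    (g : G D L) : Prop :=
  ∃ s : Fin W.length → L, (∀ i, W.get i = none → s i ≠ 0) ∧ gw S ν hν W s = g

theorem GVal_nil {L : Type} [Field L] (ν : Fin l → ℤ) (hν : pv S.σ ν = ν) :
    GVal S ν hν [] (1 : G D L) :=
  ⟨fun i => i.elim0, fun i => i.elim0, by simp [gw]⟩

theorem GVal_cons {L : Type} [Field L] (ν : Fin l → ℤ) (hν : pv S.σ ν = ν)
    (o : Option (Root D)) (W : List (Option (Root D))) (t : L) (ht : o = none → t ≠ 0)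
    (g : G D L) (hg : GVal S ν hν W g) : GVal S ν hν (o :: W) (letter S ν hν o t * g) := by
  obtain ⟨s, hs, rfl⟩ := hg
  refine ⟨Fin.cons t s, ?_, ?_⟩
  · intro i
    refine Fin.cases ?_ ?_ i
    · intro h; exact ht h
    · intro i h; exact hs i h
  · simp [gw, List.ofFn_succ]

theorem GVal_uncons {L : Type} [Field L] (ν : Fin l → ℤ) (hν : pv S.σ ν = ν)
    (o : Option (Root D)) (W : List (Option (Root D)))
    (g : G D L) (hg : GVal S ν hν (o :: W) g) : ∃ (t : L) (g' : G D L), (o = none → t ≠ 0) ∧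
      GVal S ν hν W g' ∧ g = letter S ν hν o t * g' := by
  obtain ⟨s, hs, rfl⟩ := hg
  refine ⟨s 0, gw S ν hν W (fun i => s i.succ), ?_, ⟨fun i => s i.succ, ?_, rfl⟩, ?_⟩
  · intro h; exact hs 0 h
  · intro i h; exact hs i.succ h
  · simp [gw, List.ofFn_succ]

theorem GVal_append {L : Type} [Field L] (ν : Fin l → ℤ) (hν : pv S.σ ν = ν)
    (A B : List (Option (Root D))) (a b : G D L) (ha : GVal S ν hν A a)
    (hb : GVal S ν hν B b) : GVal S ν hν (A ++ B) (a * b) := by
  induction A generalizing a with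
  | nil =>
    obtain ⟨s, hs, rfl⟩ := ha
    have : gw S ν hν [] s = 1 := by simp [gw]
    rw [this, one_mul]; exact hb
  | cons o A ih =>
    obtain ⟨t, g', ht, hg', rfl⟩ := GVal_uncons S ν hν o A a ha
    rw [mul_assoc]
    exact GVal_cons S ν hν o (A ++ B) t ht _ (ih g' hg')

theorem letter_none_ev {L : Type} [Field L] (ν : Fin l → ℤ) (hν : pv S.σ ν = ν) (t : L)
    (ht : t ≠ 0) : letter S ν hν none t ∈ FG S L ∧ Mono D (letter S ν hν none t)
      (AddEquiv.refl _) (fun β => t ^ (bil D ν β.1)) := by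
  have h := (exists_torusF S ν hν (Units.mk0 t ht)).choose_spec
  have e : letter S ν hν none t = (exists_torusF S ν hν (Units.mk0 t ht)).choose := by
    simp [letter, ht]
  rw [e]
  refine ⟨h.1, ?_⟩
  have h2 := h.2
  simpa only [Units.val_zpow_eq_zpow_val, Units.val_mk0] using h2

theorem letter_none_one {L : Type} [Field L] (ν : Fin l → ℤ) (hν : pv S.σ ν = ν) :
    letter S ν hν none (1 : L) = 1 := by
  have h := (letter_none_ev S ν hν (1 : L) one_ne_zero).2
  apply mat_injective D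
  apply mat_ext D
  · intro β
    rw [h.he β β rfl, mat_one]; simp
  · intro y
    rw [h.hh y, mat_one, Matrix.one_mulVec]; rfl

theorem GVal_one {L : Type} [Field L] (ν : Fin l → ℤ) (hν : pv S.σ ν = ν)
    (W : List (Option (Root D))) : GVal S ν hν W (1 : G D L) := by
  induction W with
  | nil => exact GVal_nil S ν hν
  | cons o W ih =>
    rcases o with _ | β
    · have := GVal_cons S ν hν none W (1 : L) (fun _ => one_ne_zero) 1 ih
      rwa [letter_none_one, one_mul] at this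
    · have := GVal_cons S ν hν (some β) W (0 : L) (fun h => by simp at h) 1 ih
      have e : letter S ν hν (some β) (0 : L) = 1 := by
        simp only [letter]; exact yg_zero S β
      rwa [e, one_mul] at this

theorem GVal_flatten {L : Type} [Field L] (ν : Fin l → ℤ) (hν : pv S.σ ν = ν)
    (LL : List (List (Option (Root D)))) (B : List (Option (Root D))) (hB : B ∈ LL)
    (g : G D L) (hg : GVal S ν hν B g) : GVal S ν hν LL.flatten g := by
  induction LL with
  | nil => simp at hB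
  | cons A LL ih =>
    rw [List.flatten_cons]
    rcases List.mem_cons.1 hB with h | h
    · subst h
      have := GVal_append S ν hν B LL.flatten g 1 hg (GVal_one S ν hν _)
      rwa [mul_one] at this
    · have := GVal_append S ν hν A LL.flatten 1 g (GVal_one S ν hν _) (ih h)
      rwa [one_mul] at this

theorem pv_pow_fix (ν : Fin l → ℤ) (hν : pv S.σ ν = ν) (k : ℕ) : pv (S.σ ^ k) ν = ν := by
  induction k with
  | zero => rw [pow_zero, pv_one]
  | succ k ih => rw [pow_succ, pv_mul, hν, ih]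

theorem bil_orb (ν : Fin l → ℤ) (hν : pv S.σ ν = ν) (β γ : Root D) (h : β ∈ orb S γ) :
    bil D ν β.1 = bil D ν γ.1 := by
  obtain ⟨k, hk⟩ := (mem_orb S γ β).1 h
  rw [hk]
  conv_lhs => rw [← pv_pow_fix S ν hν k]
  rw [bil_pv]

theorem letter_none_eo {L : Type} [Field L] (ν : Fin l → ℤ) (hν : pv S.σ ν = ν) (t : L)
    (ht : t ≠ 0) (γ : Root D) (hγ : 1 ≤ bil D ν γ.1) :
    mat D (letter S ν hν none t) *ᵥ eo S L γ = (t ^ (bil D ν γ.1).toNat) • eo S L γ := by
  have h := (letter_none_ev S ν hν t ht).2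
  rw [eo, Matrix.mulVec_sum, Finset.smul_sum]
  refine Finset.sum_congr rfl fun β hβ => ?_
  rw [h.he β β rfl, bil_orb S ν hν β γ hβ]
  congr 1
  conv_lhs => rw [← Int.toNat_of_nonneg (show 0 ≤ bil D ν γ.1 by linarith)]
  rw [zpow_natCast]

theorem mulVec_ev_apply_F6f {L : Type} [Field L] (A : Matrix (Idx D) (Idx D) L) (β : Root D)
    (i : Idx D) : (A *ᵥ ev D L β) i = A i (Sum.inr β) := by
  simp [ev]

theorem mulVec_eo_apply {L : Type} [Field L] (A : Matrix (Idx D) (Idx D) L) (γ : Root D)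
    (i : Idx D) : (A *ᵥ eo S L γ) i = ∑ β ∈ orb S γ, A i (Sum.inr β) := by
  rw [eo, Matrix.mulVec_sum, Finset.sum_apply]
  exact Finset.sum_congr rfl fun β _ => mulVec_ev_apply_F6f A β i

open Classical in
theorem eo_inr {L : Type} [Field L] (γ δ : Root D) :
    eo S L γ (Sum.inr δ) = if δ ∈ orb S γ then 1 else 0 := by
  rw [eo, Finset.sum_apply]
  simp only [ev, Pi.single_apply, Sum.inr.injEq]
  rw [Finset.sum_ite_eq]

theorem eo_inl {L : Type} [Field L] (γ : Root D) (i : Fin l) :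
    eo S L γ (Sum.inl i) = 0 := by
  rw [eo, Finset.sum_apply]
  simp [ev, Pi.single_apply]

theorem orb_sub (P : Finset (Root D)) (hP : PSet S P) (γ : Root D) (hγ : γ ∈ P) :
    ∀ β ∈ orb S γ, β ∈ P :=
  orb_induction S γ hγ fun β hβ => hP.stab β hβ

theorem mem_orb_symm (β γ : Root D) (h : β ∈ orb S γ) : γ ∈ orb S β := by
  rw [orb_eq S γ β h]; exact self_mem_orb S γ

/-- invariant vectors supported on `P` -/
structure IV {L : Type} [Field L] (P : Finset (Root D)) (v : Idx D → L) : Prop where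
  sup : ∀ i : Idx D, (∀ δ ∈ P, i ≠ Sum.inr δ) → v i = 0
  inv : ∀ δ : Root D, v (Sum.inr (sroot S δ)) = v (Sum.inr δ)

theorem IV_mul {L : Type} [Field L] (P : Finset (Root D)) (hP : PSet S P) (g : G D L)
    (hg : g ∈ FG S L) (hN : NP P g) (γ : Root D) (hγ : γ ∈ P) :
    IV S P (mat D g *ᵥ eo S L γ) := by
  constructor
  · intro i hi
    rw [mulVec_eo_apply]
    exact Finset.sum_eq_zero fun β hβ => hN.1 β (orb_sub S P hP γ hγ β hβ) i hi
  · intro δ
    rw [mulVec_eo_apply, mulVec_eo_apply]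
    symm
    refine Finset.sum_bij (fun β _ => sroot S β) ?_ ?_ ?_ ?_
    · intro β hβ
      rw [← orb_eq S γ β hβ]; exact sroot_mem_orb S β
    · intro a _ b _ hab
      exact (sroot_bijective S).1 hab
    · intro b hb
      obtain ⟨a, ha⟩ := (sroot_bijective S).2 b
      refine ⟨a, ?_, ha⟩
      have h1 : b ∈ orb S a := by rw [← ha]; exact sroot_mem_orb S a
      have h2 : orb S b = orb S a := orb_eq S a b h1
      have h3 : orb S b = orb S γ := orb_eq S γ b hb
      rw [← h3, h2]; exact self_mem_orb S a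
    · intro β _
      have h1 := FG_fix S g hg
      have h2 := mat_sg S g (Sum.inr δ) (Sum.inr β)
      rw [h1] at h2
      exact h2.symm

theorem IV_orb {L : Type} [Field L] (P : Finset (Root D)) (v : Idx D → L) (hv : IV S P v)
    (γ : Root D) : ∀ β ∈ orb S γ, v (Sum.inr β) = v (Sum.inr γ) :=
  orb_induction S γ rfl fun β hβ => by rw [hv.inv β, hβ]

theorem IV_decomp {L : Type} [Field L] (P P₀ : Finset (Root D)) (hP : PSet S P)
    (hP₀ : IsReps S P P₀) (v : Idx D → L) (hv : IV S P v) :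
    v = ∑ d ∈ P₀, v (Sum.inr d) • eo S L d := by
  classical
  funext i
  rw [Finset.sum_apply]
  rcases i with i | δ
  · rw [hv.sup (Sum.inl i) (by intro δ _ h; cases h)]
    symm
    refine Finset.sum_eq_zero fun d _ => ?_
    rw [Pi.smul_apply, eo_inl, smul_zero]
  · by_cases hδ : δ ∈ P
    · obtain ⟨d, ⟨hd0, hdo⟩, hu⟩ := hP₀.2 δ hδ
      rw [Finset.sum_eq_single d]
      · rw [Pi.smul_apply, eo_inr, if_pos (mem_orb_symm S d δ hdo), smul_eq_mul, mul_one]
        exact (IV_orb S P v hv δ d hdo).symm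
      · intro b hb hbd
        rw [Pi.smul_apply, eo_inr, if_neg, smul_zero]
        intro h
        exact hbd (hu b ⟨hb, mem_orb_symm S δ b h⟩)
      · intro h; exact absurd hd0 h
    · rw [hv.sup (Sum.inr δ) (by
        intro δ' hδ' h
        rw [Sum.inr.injEq] at h
        exact hδ (h ▸ hδ'))]
      symm
      refine Finset.sum_eq_zero fun d hd => ?_
      rw [Pi.smul_apply, eo_inr, if_neg, smul_zero]
      intro h
      exact hδ (orb_sub S P hP d (hP₀.1 hd) δ h)

open Polynomial in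
theorem xMX_entry (β : Root D) (i j : Idx D) :
    (xM D β (X : ℤ[X]) i j).coeff 0 = (1 : Matrix (Idx D) (Idx D) ℤ) i j ∧
    (xM D β (X : ℤ[X]) i j).coeff 1 = E D β i j := by
  have e : xM D β (X : ℤ[X]) i j = (1 : Matrix (Idx D) (Idx D) ℤ[X]) i j +
      X * C (E D β i j) + X ^ 2 * C (F D β i j) := by
    simp [xM, Matrix.add_apply, Matrix.smul_apply]
  rw [e]
  have h1 : ((1 : Matrix (Idx D) (Idx D) ℤ[X]) i j) = C ((1 : Matrix (Idx D) (Idx D) ℤ) i j) := by
    rw [Matrix.one_apply, Matrix.one_apply]; split_ifs <;> simp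
  rw [h1]
  constructor
  · simp [coeff_X_pow_mul']
  · simp only [coeff_add, coeff_X_mul, coeff_X_pow_mul', coeff_C_zero]
    rw [coeff_C, if_neg one_ne_zero, if_neg (by norm_num)]
    ring

open Polynomial in
theorem prodX_entry (Ls : List (Root D)) (i j : Idx D) :
    (mat D (Ls.map fun β => xg D β (X : ℤ[X])).prod i j).coeff 0 =
      (1 : Matrix (Idx D) (Idx D) ℤ) i j ∧
    (mat D (Ls.map fun β => xg D β (X : ℤ[X])).prod i j).coeff 1 =
      (Ls.map fun β => E D β i j).sum := by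
  induction Ls generalizing i with
  | nil =>
    rw [List.map_nil, List.prod_nil, mat_one, Matrix.one_apply, Matrix.one_apply]
    constructor
    · split_ifs <;> simp
    · split_ifs <;> simp [coeff_one]
  | cons b Ls ih =>
    rw [List.map_cons, List.prod_cons, mat_mul, mat_xg, Matrix.mul_apply]
    constructor
    · rw [finset_sum_coeff]
      simp only [mul_coeff_zero]
      simp only [(xMX_entry b _ _).1, (ih _).1]
      rw [← Matrix.mul_apply, Matrix.one_mul]
    · rw [finset_sum_coeff]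
      simp only [mul_coeff_one]
      simp only [(xMX_entry b _ _).1, (ih _).1, (xMX_entry b _ _).2, (ih _).2]
      rw [Finset.sum_add_distrib, List.map_cons, List.sum_cons, add_comm]
      congr 1
      · rw [← Matrix.mul_apply, Matrix.mul_one]
      · simp [Matrix.one_apply]

open Polynomial in
theorem yg_poly (b : Root D) (c c' : Root D) : ∃ q : ℤ[X],
    q.coeff 1 = ∑ β' ∈ orb S b, ∑ γ'' ∈ orb S c, E D β' (Sum.inr c') (Sum.inr γ'') ∧
    ∀ (L : Type) [Field L] (t : L),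
      (mat D (yg S b t) *ᵥ eo S L c) (Sum.inr c') = aeval t q := by
  refine ⟨∑ γ'' ∈ orb S c, mat D (yg S b (X : ℤ[X])) (Sum.inr c') (Sum.inr γ''), ?_, ?_⟩
  · rw [finset_sum_coeff, Finset.sum_comm]
    refine Finset.sum_congr rfl fun γ'' _ => ?_
    rw [yg, XA, (prodX_entry _ _ _).2, Finset.sum_map_toList]
  · intro L _ t
    rw [mulVec_eo_apply, map_sum]
    refine Finset.sum_congr rfl fun γ'' _ => ?_
    have h := Gmap_yg S ((aeval t : ℤ[X] →ₐ[ℤ] L).toRingHom) b X
    have h2 : ((aeval t : ℤ[X] →ₐ[ℤ] L).toRingHom) X = t := by simp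
    rw [h2] at h
    rw [← h, mat_Gmap]
    rfl

open Polynomial in
theorem exists_ne {L : Type} [Field L] [Infinite L] (q : L[X]) (hq : q ≠ 0) :
    ∃ c : L, c ≠ 0 ∧ q.eval c ≠ 0 := by
  by_contra h
  push Not at h
  have : q * X = 0 := by
    apply Polynomial.funext
    intro c
    by_cases hc : c = 0
    · subst hc; simp
    · simp [h c hc]
  rcases mul_eq_zero.1 this with h1 | h1
  · exact hq h1
  · exact X_ne_zero h1

open Polynomial in
theorem exists_c {L : Type} [Field L] [Infinite L] (P₀ : Finset (Root D)) (n : Root D → ℕ)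
    (hn : ∀ d ∈ P₀, ∀ d' ∈ P₀, n d = n d' → d = d') (a : Root D → L) (d' : Root D)
    (hd' : d' ∈ P₀) (ha : a d' ≠ 0) : ∃ c : L, c ≠ 0 ∧ ∑ d ∈ P₀, a d * c ^ (n d) ≠ 0 := by
  classical
  have hq : (∑ d ∈ P₀, C (a d) * X ^ (n d) : L[X]) ≠ 0 := by
    intro h
    have h2 := congrArg (fun q : L[X] => q.coeff (n d')) h
    simp only [finset_sum_coeff, coeff_C_mul, coeff_X_pow, coeff_zero] at h2
    rw [Finset.sum_eq_single d'] at h2
    · simp at h2; exact ha h2
    · intro b hb hbd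
      rw [if_neg, mul_zero]
      intro h3
      exact hbd (hn b hb d' hd' h3.symm)
    · intro h3; exact absurd hd' h3
  obtain ⟨c, hc, hc2⟩ := exists_ne _ hq
  refine ⟨c, hc, ?_⟩
  simpa [eval_finset_sum] using hc2

theorem reps_inj (ν : Fin l → ℤ)
    (P P₀ : Finset (Root D)) (hP₀ : IsReps S P P₀)
    (hνP : ∀ γ ∈ P, 1 ≤ bil D ν γ.1)
    (hsep : ∀ γ ∈ P, ∀ γ' ∈ P, bil D ν γ.1 = bil D ν γ'.1 → γ' ∈ orb S γ) :
    ∀ d ∈ P₀, ∀ d' ∈ P₀, (bil D ν d.1).toNat = (bil D ν d'.1).toNat → d = d' := by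
  intro d hd d' hd' h
  have h1 := hνP d (hP₀.1 hd)
  have h2 := hνP d' (hP₀.1 hd')
  have h3 : bil D ν d.1 = bil D ν d'.1 := by omega
  have h4 := hsep d (hP₀.1 hd) d' (hP₀.1 hd') h3
  obtain ⟨e, _, hu⟩ := hP₀.2 d (hP₀.1 hd)
  rw [hu d ⟨hd, self_mem_orb S d⟩, hu d' ⟨hd', h4⟩]

theorem word_to (p : ℕ) [Fact p.Prime] (ν : Fin l → ℤ) (hν : pv S.σ ν = ν)
    (P P₀ : Finset (Root D)) (hP : PSet S P) (hP₀ : IsReps S P P₀)
    (hνP : ∀ γ ∈ P, 1 ≤ bil D ν γ.1)
    (hsep : ∀ γ ∈ P, ∀ γ' ∈ P, bil D ν γ.1 = bil D ν γ'.1 → γ' ∈ orb S γ)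
    (γ γ₀ : Root D) (hγ : γ ∈ P) (h : Relation.ReflTransGen (StepRel S p P) γ γ₀) :
    ∃ W : List (Option (Root D)), (∀ β, some β ∈ W → JR P β) ∧
      ∀ (L : Type) [Field L] [CharP L p] [Infinite L], ∃ g : G D L,
        GVal S ν hν W g ∧ (mat D g *ᵥ eo S L γ) (Sum.inr γ₀) ≠ 0 := by
  classical
  revert hγ
  induction h using Relation.ReflTransGen.head_induction_on with
  | refl =>
    intro _
    refine ⟨[], by simp, ?_⟩
    intro L _ _ _
    refine ⟨1, GVal_nil S ν hν, ?_⟩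
    rw [mat_one, Matrix.one_mulVec, eo_inr, if_pos (self_mem_orb S γ₀)]
    exact one_ne_zero
  | head h1 h2 ih =>
    rename_i c c'
    intro hc
    obtain ⟨hc', h1⟩ := h1
    obtain ⟨W', hW', H⟩ := ih hc'
    rcases h1 with horb | ⟨b, hb, hpb⟩
    · refine ⟨W', hW', ?_⟩
      intro L _ _ _
      obtain ⟨g', hg', hne⟩ := H L
      refine ⟨g', hg', ?_⟩
      have heo' : eo S L c = eo S L c' := by rw [eo, eo, orb_eq S c c' horb]
      rw [heo']; exact hne
    refine ⟨W' ++ [none, some b], ?_, ?_⟩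
    · intro β hβ
      rcases List.mem_append.1 hβ with h | h
      · exact hW' β h
      · simp at h; rw [h]; exact hb
    · intro L _ _ _
      obtain ⟨g', hg', hne⟩ := H L
      obtain ⟨q, hq1, hq⟩ := yg_poly S b c c'
      obtain ⟨t, ht⟩ : ∃ t : L, (mat D (yg S b t) *ᵥ eo S L c) (Sum.inr c') ≠ 0 := by
        have hq0 : q.map (Int.castRingHom L) ≠ 0 := by
          intro h0
          have := congrArg (fun q : Polynomial L => q.coeff 1) h0
          simp only [Polynomial.coeff_map, Polynomial.coeff_zero, hq1] at this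
          rw [eq_intCast, CharP.intCast_eq_zero_iff L p] at this
          exact hpb this
        obtain ⟨t, _, ht⟩ := exists_ne _ hq0
        refine ⟨t, ?_⟩
        rw [hq]
        rwa [Polynomial.eval_map] at ht
      have hIV := IV_mul S P hP (yg S b t) (yg_mem_FG S b t) (NP_yg S P hP b hb t) c hc
      set v := mat D (yg S b t) *ᵥ eo S L c with hv
      obtain ⟨d', ⟨hd0, hdo⟩, _⟩ := hP₀.2 c' hc'
      have hvd : v (Sum.inr d') ≠ 0 := by
        rw [IV_orb S P v hIV c' d' hdo]; exact ht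
      have heo : eo S L d' = eo S L c' := by
        rw [eo, eo, orb_eq S c' d' hdo]
      obtain ⟨u, hu0, hu⟩ := exists_c P₀ (fun d => (bil D ν d.1).toNat)
        (reps_inj S ν P P₀ hP₀ hνP hsep)
        (fun d => v (Sum.inr d) * (mat D g' *ᵥ eo S L d) (Sum.inr γ₀)) d' hd0
        (mul_ne_zero hvd (by rw [heo]; exact hne))
      refine ⟨g' * (letter S ν hν none u * (letter S ν hν (some b) t * 1)), ?_, ?_⟩
      · refine GVal_append S ν hν _ _ _ _ hg' ?_
        refine GVal_cons S ν hν none _ u (fun _ => hu0) _ ?_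
        exact GVal_cons S ν hν (some b) _ t (fun h => by simp at h) _ (GVal_nil S ν hν)
      · have e1 : letter S ν hν (some b) t = yg S b t := by simp only [letter]
        have e2 : mat D (g' * (letter S ν hν none u * (letter S ν hν (some b) t * 1))) *ᵥ eo S L c =
            ∑ d ∈ P₀, (v (Sum.inr d) * u ^ (bil D ν d.1).toNat) • (mat D g' *ᵥ eo S L d) := by
          rw [mul_one, e1, mat_mul, mat_mul, ← Matrix.mulVec_mulVec, ← Matrix.mulVec_mulVec, ← hv]
          conv_lhs => rw [IV_decomp S P P₀ hP hP₀ v hIV]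
          rw [Matrix.mulVec_sum, Matrix.mulVec_sum]
          refine Finset.sum_congr rfl fun d hd => ?_
          rw [Matrix.mulVec_smul, letter_none_eo S ν hν u hu0 d (hνP d (hP₀.1 hd)),
            Matrix.mulVec_smul, Matrix.mulVec_smul, smul_smul]
        rw [e2, Finset.sum_apply]
        convert hu using 1
        refine Finset.sum_congr rfl fun d _ => ?_
        rw [Pi.smul_apply, smul_eq_mul]; ring

/-- a universal word moving every element of `P` with nonzero coefficient to `Γ₀` -/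
theorem exists_word (p : ℕ) [Fact p.Prime] (ν : Fin l → ℤ) (hν : pv S.σ ν = ν)
    (P P₀ Γ₀ : Finset (Root D)) (hP : PSet S P) (hP₀ : IsReps S P P₀) (hΓ : Γ₀ ⊆ P₀)
    (hνP : ∀ γ ∈ P, 1 ≤ bil D ν γ.1)
    (hsep : ∀ γ ∈ P, ∀ γ' ∈ P, bil D ν γ.1 = bil D ν γ'.1 → γ' ∈ orb S γ)
    (hconn : ∀ γ ∈ P, ∃ γ₀ ∈ Γ₀, Relation.ReflTransGen (StepRel S p P) γ γ₀) :
    ∃ W : List (Option (Root D)), (∀ β, some β ∈ W → JR P β) ∧
      ∀ (L : Type) [Field L] [CharP L p] [Infinite L] (lam : Root D → L),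
        (∀ γ₀ ∈ Γ₀, lam γ₀ ≠ 0) → ∀ γ ∈ P, ∃ s : Fin W.length → L,
          (∀ i, W.get i = none → s i ≠ 0) ∧
          ∑ δ ∈ P₀, lam δ * (mat D (gw S ν hν W s) *ᵥ eo S L γ) (Sum.inr δ) ≠ 0 := by
  classical
  have H : ∀ γ ∈ P, ∃ W : List (Option (Root D)), (∀ β, some β ∈ W → JR P β) ∧
      ∃ γ₀ ∈ Γ₀, ∀ (L : Type) [Field L] [CharP L p] [Infinite L], ∃ g : G D L,
        GVal S ν hν W g ∧ (mat D g *ᵥ eo S L γ) (Sum.inr γ₀) ≠ 0 := by
    intro γ hγ
    obtain ⟨γ₀, h0, h⟩ := hconn γ hγ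
    obtain ⟨W, hW, HW⟩ := word_to S p ν hν P P₀ hP hP₀ hνP hsep γ γ₀ hγ h
    exact ⟨W, hW, γ₀, h0, HW⟩
  choose! Wf hWJ hWf using H
  refine ⟨(P.toList.map fun γ => none :: Wf γ).flatten, ?_, ?_⟩
  · intro β hβ
    rw [List.mem_flatten] at hβ
    obtain ⟨B, hB, hβB⟩ := hβ
    rw [List.mem_map] at hB
    obtain ⟨γ, hγ, rfl⟩ := hB
    rw [Finset.mem_toList] at hγ
    rcases List.mem_cons.1 hβB with h | h
    · cases h
    · exact hWJ γ hγ β h
  · intro L _ _ _ lam hlam γ hγ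
    obtain ⟨γ₀, hγ₀, HW⟩ := hWf γ hγ
    obtain ⟨g, hg, hne⟩ := HW L
    have hmem : g ∈ FG S L ∧ NP P g := by
      obtain ⟨s, _, rfl⟩ := hg
      exact gw_mem S ν hν P hP (Wf γ) (hWJ γ hγ) s
    have hIV := IV_mul S P hP g hmem.1 hmem.2 γ hγ
    set v := mat D g *ᵥ eo S L γ with hv
    obtain ⟨u, hu0, hu⟩ := exists_c P₀ (fun d => (bil D ν d.1).toNat)
        (reps_inj S ν P P₀ hP₀ hνP hsep)
        (fun d => lam d * v (Sum.inr d)) γ₀ (hΓ hγ₀)
        (mul_ne_zero (hlam γ₀ hγ₀) hne)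
    have hG : GVal S ν hν (P.toList.map fun γ => none :: Wf γ).flatten
        (letter S ν hν none u * g) := by
      refine GVal_flatten S ν hν _ (none :: Wf γ) ?_ _ ?_
      · rw [List.mem_map]; exact ⟨γ, Finset.mem_toList.2 hγ, rfl⟩
      · exact GVal_cons S ν hν none _ u (fun _ => hu0) _ hg
    obtain ⟨s, hs, hgs⟩ := hG
    refine ⟨s, hs, ?_⟩
    rw [hgs]
    have e2 : mat D (letter S ν hν none u * g) *ᵥ eo S L γ =
        ∑ d ∈ P₀, (v (Sum.inr d) * u ^ (bil D ν d.1).toNat) • eo S L d := by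
      rw [mat_mul, ← Matrix.mulVec_mulVec, ← hv]
      conv_lhs => rw [IV_decomp S P P₀ hP hP₀ v hIV]
      rw [Matrix.mulVec_sum]
      refine Finset.sum_congr rfl fun d hd => ?_
      rw [Matrix.mulVec_smul, letter_none_eo S ν hν u hu0 d (hνP d (hP₀.1 hd)), smul_smul]
    rw [e2]
    convert hu using 1
    refine Finset.sum_congr rfl fun δ hδ => ?_
    rw [Finset.sum_apply, Finset.sum_eq_single δ]
    · rw [Pi.smul_apply, eo_inr, if_pos (self_mem_orb S δ), smul_eq_mul]; ring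
    · intro d hd hdδ
      rw [Pi.smul_apply, eo_inr, if_neg, smul_zero]
      intro h
      obtain ⟨e, _, hue⟩ := hP₀.2 d (hP₀.1 hd)
      exact hdδ (by rw [hue d ⟨hd, self_mem_orb S d⟩, hue δ ⟨hδ, h⟩])
    · intro h; exact absurd hδ h

/-- every character of the abelian subgroup over `L` nontrivial at the start roots can be moved
to one that is trivial over `K` but nontrivial in every direction defined over `K` -/
def GoodExtF (P P₀ Γ₀ : Finset (Root D)) (K L : Type) [Field K] [Field L] [Algebra K L] : Prop :=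
  ∀ lam : Root D → L, (∀ γ₀ ∈ Γ₀, lam γ₀ ≠ 0) → ∃ g ∈ FG S L, NP P g ∧ NP P g⁻¹ ∧
    ∃ lam' : Root D → L,
      (∀ γ ∈ P, lam' γ = ∑ δ ∈ P₀, lam δ * (mat D g *ᵥ eo S L γ) (Sum.inr δ)) ∧
      (∀ γ ∈ P, Algebra.trace K L (lam' γ) = 0) ∧ (∀ γ ∈ P, lam' γ ≠ 0) ∧
      ∀ a : Root D → K, (∃ γ ∈ P₀, a γ ≠ 0) →
        ∑ γ ∈ P₀, lam' γ * algebraMap K L (a γ) ≠ 0

theorem totalDegree_map_le' {σ R R' : Type*} [CommSemiring R] [CommSemiring R'] (f : R →+* R')
    (q : MvPolynomial σ R) : (MvPolynomial.map f q).totalDegree ≤ q.totalDegree := by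
  unfold MvPolynomial.totalDegree
  exact Finset.sup_mono (MvPolynomial.support_map_subset f q)

theorem eo_torus {L : Type} [Field L] (ν : Fin l → ℤ) (hν : pv S.σ ν = ν) (c : L) (hc : c ≠ 0)
    (t : G D L) (ht : Mono D t (AddEquiv.refl _)
      (fun β => (((Units.mk0 c hc) ^ (bil D ν β.1) : Lˣ) : L))) (γ : Root D)
    (h1 : 1 ≤ bil D ν γ.1) :
    mat D t *ᵥ eo S L γ = c ^ (bil D ν γ.1).toNat • eo S L γ := by
  have hνk : ∀ k : ℕ, pv (S.σ ^ k) ν = ν := by
    intro k
    induction k with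
    | zero => rw [pow_zero, pv_one]
    | succ n ih => rw [pow_succ, pv_mul, hν, ih]
  unfold eo
  rw [Matrix.mulVec_sum, Finset.smul_sum]
  refine Finset.sum_congr rfl fun β hβ => ?_
  obtain ⟨k, hk⟩ := (mem_orb S γ β).1 hβ
  rw [ht.he β β rfl]
  congr 1
  have hb : bil D ν β.1 = bil D ν γ.1 := by
    rw [hk]
    calc bil D ν (pv (S.σ ^ k) γ.1) = bil D (pv (S.σ ^ k) ν) (pv (S.σ ^ k) γ.1) := by rw [hνk]
      _ = bil D ν γ.1 := bil_pv S k ν γ.1
  rw [hb]
  have h2 : bil D ν γ.1 = ((bil D ν γ.1).toNat : ℤ) := (Int.toNat_of_nonneg (by linarith)).symm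
  conv_lhs => rw [h2]
  rw [zpow_natCast, Units.val_pow_eq_pow_val, Units.val_mk0]

theorem NP_one' {R : Type*} [CommRing R] (P : Finset (Root D)) (hP : PSet S P) :
    NP P (1 : G D R) := NP_BG S P hP 1 (Subgroup.one_mem _)

theorem NP_pow' {R : Type*} [CommRing R] (P : Finset (Root D)) (hP : PSet S P) (g : G D R)
    (h : NP P g) (n : ℕ) : NP P (g ^ n) := by
  induction n with
  | zero => rw [pow_zero]; exact NP_one' S P hP
  | succ n ih => rw [pow_succ]; exact NP_mul S P hP _ _ ih h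

theorem NP_inv' {L : Type} [Field L] [Finite L] (P : Finset (Root D)) (hP : PSet S P) (g : G D L)
    (h : NP P g) : NP P g⁻¹ := by
  have : Finite (Matrix (Idx D) (Idx D) L) := by
    unfold Matrix; infer_instance
  have : Finite (G D L) := Finite.of_injective (mat D (R := L)) (mat_injective D)
  have h1 : g⁻¹ = g ^ (orderOf g - 1) := by
    rw [inv_eq_iff_mul_eq_one, ← pow_succ', Nat.sub_add_cancel (orderOf_pos g), pow_orderOf_eq_one]
  rw [h1]
  exact NP_pow' S P hP g h _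

theorem exists_goodExtF {K : Type} [Field K] [Finite K] (p : ℕ) [Fact p.Prime] [CharP K p]
    (P P₀ Γ₀ : Finset (Root D)) (hP : PSet S P) (hP₀ : IsReps S P P₀) (hΓ : Γ₀ ⊆ P₀)
    (hconn : ∀ γ ∈ P, ∃ γ₀ ∈ Γ₀, Relation.ReflTransGen (StepRel S p P) γ γ₀) :
    ∃ N₀ : ℕ, ∀ (L : Type) [Field L] [Finite L] [Algebra K L], N₀ ≤ Module.finrank K L →
      GoodExtF S P P₀ Γ₀ K L := by
  classical
  obtain ⟨ν, hν, hνP, hsep⟩ := exists_sep S P hP.pos
  obtain ⟨W, hW, hword⟩ := exists_word S p ν hν P P₀ Γ₀ hP hP₀ hΓ hνP hsep hconn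
  obtain ⟨Q, hQ⟩ := gw_poly S ν hν P hP hνP W hW
  let kk : {γ // γ ∈ P₀} → ℕ := fun γ => (bil D ν γ.1.1).toNat
  have hP₀P : ∀ γ ∈ P₀, γ ∈ P := fun γ h => hP₀.1 h
  have hkk1 : ∀ γ, 1 ≤ kk γ := by
    intro γ
    have := hνP γ.1 (hP₀P _ γ.2)
    show 1 ≤ (bil D ν γ.1.1).toNat
    omega
  have hkinj : Function.Injective kk := by
    intro γ γ' h
    have h1 := hνP γ.1 (hP₀P _ γ.2)
    have h2 := hνP γ'.1 (hP₀P _ γ'.2)
    have h3 : (bil D ν γ.1.1).toNat = (bil D ν γ'.1.1).toNat := h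
    have h4 : bil D ν γ.1.1 = bil D ν γ'.1.1 := by omega
    have h5 := hsep γ.1 (hP₀P _ γ.2) γ'.1 (hP₀P _ γ'.2) h4
    have h6 := (hP₀.2 γ.1 (hP₀P _ γ.2)).unique ⟨γ.2, self_mem_orb S γ.1⟩ ⟨γ'.2, h5⟩
    exact Subtype.ext h6
  let D₀ : ℕ := (∑ δ ∈ P₀, ∑ γ ∈ P₀, (Q δ γ).totalDegree) + (∑ γ : {γ // γ ∈ P₀}, kk γ) + W.length
  obtain ⟨N₀, hN₀⟩ := poly_method2 (K := K) (σ := Fin W.length) (Γ := {γ // γ ∈ P₀}) D₀
  refine ⟨N₀, ?_⟩
  intro L _ _ _ hL lam hlam
  let f : {γ // γ ∈ P₀} → MvPolynomial (Fin W.length) L := fun γ =>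
    ∑ δ ∈ P₀, MvPolynomial.C (lam δ) * MvPolynomial.map (algebraMap ℤ L) (Q δ γ.1)
  let h : MvPolynomial (Fin W.length) L :=
    ∏ i ∈ Finset.univ.filter (fun i => W.get i = none), MvPolynomial.X i
  have hfdeg : ∀ γ, (f γ).totalDegree ≤ D₀ := by
    intro γ
    refine (MvPolynomial.totalDegree_finsetSum _ _).trans ?_
    refine Finset.sup_le fun δ hδ => ?_
    refine (MvPolynomial.totalDegree_mul _ _).trans ?_
    rw [MvPolynomial.totalDegree_C, zero_add]
    refine (totalDegree_map_le' _ _).trans ?_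
    have h1 : (Q δ γ.1).totalDegree ≤ ∑ γ ∈ P₀, (Q δ γ).totalDegree :=
      Finset.single_le_sum (f := fun γ => (Q δ γ).totalDegree) (fun _ _ => Nat.zero_le _) γ.2
    have h2 : ∑ γ ∈ P₀, (Q δ γ).totalDegree ≤ ∑ δ ∈ P₀, ∑ γ ∈ P₀, (Q δ γ).totalDegree :=
      Finset.single_le_sum (f := fun δ => ∑ γ ∈ P₀, (Q δ γ).totalDegree)
        (fun _ _ => Nat.zero_le _) hδ
    show _ ≤ (∑ δ ∈ P₀, ∑ γ ∈ P₀, (Q δ γ).totalDegree) + (∑ γ : {γ // γ ∈ P₀}, kk γ) + W.length
    omega
  have hkD : ∀ γ, 1 ≤ kk γ ∧ kk γ ≤ D₀ := by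
    intro γ
    refine ⟨hkk1 γ, ?_⟩
    have h1 : kk γ ≤ ∑ γ : {γ // γ ∈ P₀}, kk γ :=
      Finset.single_le_sum (f := kk) (fun _ _ => Nat.zero_le _) (Finset.mem_univ γ)
    show _ ≤ (∑ δ ∈ P₀, ∑ γ ∈ P₀, (Q δ γ).totalDegree) + (∑ γ : {γ // γ ∈ P₀}, kk γ) + W.length
    omega
  have hh0 : h ≠ 0 := Finset.prod_ne_zero_iff.2 fun i _ => MvPolynomial.X_ne_zero i
  have hhdeg : h.totalDegree ≤ D₀ := by
    refine (MvPolynomial.totalDegree_finsetProd _ _).trans ?_
    have h1 : ∑ i ∈ Finset.univ.filter (fun i => W.get i = none),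
        (MvPolynomial.X i : MvPolynomial (Fin W.length) L).totalDegree ≤ W.length := by
      refine (Finset.sum_le_card_nsmul _ _ 1 fun i _ => (MvPolynomial.totalDegree_X i).le).trans ?_
      rw [smul_eq_mul, mul_one]
      refine (Finset.card_filter_le _ _).trans ?_
      simp
    show _ ≤ (∑ δ ∈ P₀, ∑ γ ∈ P₀, (Q δ γ).totalDegree) + (∑ γ : {γ // γ ∈ P₀}, kk γ) + W.length
    omega
  have : CharP L p := charP_of_injective_algebraMap (algebraMap K L).injective p
  have hf0 : ∀ γ, f γ ≠ 0 := by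
    intro γ hzero
    have : CharP (AlgebraicClosure L) p :=
      charP_of_injective_algebraMap (algebraMap L (AlgebraicClosure L)).injective p
    have : Infinite (AlgebraicClosure L) := IsAlgClosed.instInfinite
    obtain ⟨s, hs, hval⟩ := hword (AlgebraicClosure L)
      (fun δ => algebraMap L (AlgebraicClosure L) (lam δ))
      (fun γ₀ h₀ => by
        rw [Ne, map_eq_zero]; exact hlam γ₀ h₀) γ.1 (hP₀P _ γ.2)
    apply hval
    have h1 : MvPolynomial.eval₂ (algebraMap L (AlgebraicClosure L)) s (f γ) = 0 := by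
      rw [hzero, MvPolynomial.eval₂_zero]
    rw [← h1]
    show _ = MvPolynomial.eval₂ (algebraMap L (AlgebraicClosure L)) s
      (∑ δ ∈ P₀, MvPolynomial.C (lam δ) * MvPolynomial.map (algebraMap ℤ L) (Q δ γ.1))
    rw [MvPolynomial.eval₂_sum]
    refine Finset.sum_congr rfl fun δ hδ => ?_
    rw [MvPolynomial.eval₂_mul, MvPolynomial.eval₂_C, MvPolynomial.eval₂_map,
      hQ (AlgebraicClosure L) s hs γ.1 (hP₀P _ γ.2) δ (hP₀P _ hδ), MvPolynomial.aeval_def]
    congr 2
  obtain ⟨c, s, hc, hs, htr, hne, hsum⟩ := hN₀ L hL f kk h hfdeg hkD hkinj hh0 hhdeg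
  have hs' : ∀ i, W.get i = none → s i ≠ 0 := by
    intro i hi h0
    apply hs
    show MvPolynomial.eval s (∏ i ∈ Finset.univ.filter (fun i => W.get i = none),
      MvPolynomial.X i) = 0
    rw [map_prod]
    refine Finset.prod_eq_zero (i := i) (by simp [-List.get_eq_getElem, hi]) ?_
    rw [MvPolynomial.eval_X, h0]
  obtain ⟨t, htF, htM⟩ := exists_torusF S ν hν (Units.mk0 c hc)
  have hgw := gw_mem S ν hν P hP W hW s
  have htB : t ∈ BG D L := by
    refine (le_sup_left : TG D L ≤ TG D L ⊔ UG D L) ?_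
    exact ⟨_, htM⟩
  have hNPg : NP P (gw S ν hν W s * t) := NP_mul S P hP _ _ hgw.2 (NP_BG S P hP t htB)
  have hval : ∀ γ : {γ // γ ∈ P₀}, ∑ δ ∈ P₀, lam δ * (mat D (gw S ν hν W s * t) *ᵥ eo S L γ.1)
      (Sum.inr δ) = c ^ kk γ * MvPolynomial.eval s (f γ) := by
    intro γ
    show _ = c ^ kk γ * MvPolynomial.eval s
      (∑ δ ∈ P₀, MvPolynomial.C (lam δ) * MvPolynomial.map (algebraMap ℤ L) (Q δ γ.1))
    rw [map_sum, Finset.mul_sum]
    refine Finset.sum_congr rfl fun δ hδ => ?_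
    rw [mat_mul, ← Matrix.mulVec_mulVec, eo_torus S ν hν c hc t htM γ.1 (hνP _ (hP₀P _ γ.2)),
      Matrix.mulVec_smul, Pi.smul_apply, hQ L s hs' γ.1 (hP₀P _ γ.2) δ (hP₀P _ hδ), map_mul,
      MvPolynomial.eval_C, MvPolynomial.eval_map, MvPolynomial.aeval_def, smul_eq_mul]
    ring
  have hval' : ∀ γ ∈ P, ∃ γ' : {γ // γ ∈ P₀}, ∑ δ ∈ P₀, lam δ *
      (mat D (gw S ν hν W s * t) *ᵥ eo S L γ) (Sum.inr δ) =
        c ^ kk γ' * MvPolynomial.eval s (f γ') := by
    intro γ hγ
    obtain ⟨γ', ⟨h1, h2⟩, _⟩ := hP₀.2 γ hγ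
    refine ⟨⟨γ', h1⟩, ?_⟩
    rw [← hval ⟨γ', h1⟩]
    have : eo S L γ' = eo S L γ := by
      unfold eo; rw [orb_eq S γ γ' h2]
    simp only [this]
  refine ⟨gw S ν hν W s * t, Subgroup.mul_mem _ hgw.1 htF, hNPg, NP_inv' S P hP _ hNPg,
    fun γ => ∑ δ ∈ P₀, lam δ * (mat D (gw S ν hν W s * t) *ᵥ eo S L γ) (Sum.inr δ),
    fun γ _ => rfl, ?_, ?_, ?_⟩
  · intro γ hγ
    obtain ⟨γ', h1⟩ := hval' γ hγ
    show Algebra.trace K L (∑ δ ∈ P₀, lam δ *
      (mat D (gw S ν hν W s * t) *ᵥ eo S L γ) (Sum.inr δ)) = 0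
    rw [h1]
    exact htr γ'
  · intro γ hγ
    obtain ⟨γ', h1⟩ := hval' γ hγ
    show (∑ δ ∈ P₀, lam δ *
      (mat D (gw S ν hν W s * t) *ᵥ eo S L γ) (Sum.inr δ)) ≠ 0
    rw [h1]
    exact mul_ne_zero (pow_ne_zero _ hc) (hne γ' (hf0 γ'))
  · rintro a ⟨γ, hγ, haγ⟩
    have h1 := hsum (fun γ => a γ.1) ⟨⟨γ, hγ⟩, haγ, hf0 _⟩
    intro h2
    apply h1
    rw [← h2, ← Finset.sum_coe_sort P₀]
    refine Finset.sum_congr rfl fun γ' _ => ?_
    rw [← hval γ']
    ring

end Pool.Agent.Helper255.CF
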