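import Pool.Agent.Helper255.CF.Gen

set_option autoImplicit false

namespace Pool.Agent.Helper255.CF

/-- every additive character of `L` is a twist of `ψ ∘ trace` -/
theorem addChar_eq_trace {K L E : Type*} [Field K] [Finite K] [Field L] [Finite L] [Algebra K L]
    [Field E] (p : ℕ) [Fact p.Prime] [CharP K p] (hp : (p : E) ≠ 0) (ψ : AddChar K E)
    (hψ : ∃ t, ψ t ≠ 1) (χ : AddChar L E) :
    ∃ c : L, ∀ t : L, χ t = ψ (Algebra.trace K L (c * t)) := by
  classical
  cases nonempty_fintype L
  -- the twisting map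
  let Φ : L → AddChar L E := fun c =>
    ψ.compAddMonoidHom ((Algebra.trace K L).toAddMonoidHom.comp (AddMonoidHom.mulLeft c))
  have hΦ : ∀ c t, Φ c t = ψ (Algebra.trace K L (c * t)) := fun c t => rfl
  -- injectivity
  have hinj : Function.Injective Φ := by
    intro c d hcd
    by_contra hne
    obtain ⟨s, hs⟩ := hψ
    obtain ⟨u, hu⟩ := Algebra.trace_surjective K L s
    apply hs
    have he : c - d ≠ 0 := sub_ne_zero.mpr hne
    have h1 := DFunLike.congr_fun hcd ((c - d)⁻¹ * u)
    rw [hΦ, hΦ] at h1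
    have h2 : s = Algebra.trace K L (c * ((c - d)⁻¹ * u)) - Algebra.trace K L (d * ((c - d)⁻¹ * u)) := by
      rw [← map_sub, ← sub_mul, mul_inv_cancel_left₀ he, hu]
    rw [h2, sub_eq_add_neg, AddChar.map_add_eq_mul, h1, ← AddChar.map_add_eq_mul, add_neg_cancel,
      AddChar.map_zero_eq_one]
  -- counting
  have hli : LinearIndependent E (fun f : AddChar L E => (f : L → E)) := by
    have h1 := linearIndependent_monoidHom (Multiplicative L) E
    have h2 := h1.comp (AddChar.toMonoidHomEquiv (A := L) (M := E))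
      (Equiv.injective _)
    exact h2
  have hfin : Finite (AddChar L E) := hli.finite
  cases nonempty_fintype (AddChar L E)
  have hcard : Fintype.card (AddChar L E) ≤ Fintype.card L := by
    have h := hli.fintype_card_le_finrank
    rwa [Module.finrank_fintype_fun_eq_card] at h
  have hbij : Function.Bijective Φ := by
    rw [Fintype.bijective_iff_injective_and_card]
    exact ⟨hinj, le_antisymm (Fintype.card_le_of_injective Φ hinj) hcard⟩
  obtain ⟨c, hc⟩ := hbij.2 χ
  exact ⟨c, fun t => by rw [← hc, hΦ]⟩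

/-- an eigenvector for an abelian group whose character has stabiliser `Q` in `B`, fixed by `Q`,
yields an eigenvector for `B` with any given character `θ` that is trivial on `Q` -/
theorem exists_B_eigenvector' {E V G : Type*} [Field E] [AddCommGroup V] [Module E V] [Group G]
    (ρ : Representation E G V) (A B Q : Subgroup G) [Finite B] (w : V) (hw0 : w ≠ 0)
    (lam : A →* Eˣ) (hw : ∀ y : A, ρ y w = (lam y : E) • w) (hQB : Q ≤ B)
    (hnorm : ∀ b ∈ B, ∀ y ∈ A, b⁻¹ * y * b ∈ A)
    (hQ : ∀ q ∈ Q, ρ q w = w) (hcard : (Nat.card Q : E) ≠ 0)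
    (hdist : ∀ (b : G) (hb : b ∈ B), b ∉ Q → ∃ y : A, lam ⟨b⁻¹ * y * b, hnorm b hb y y.2⟩ ≠ lam y)
    (θ : B →* Eˣ) (hθ : ∀ b : B, (b : G) ∈ Q → θ b = 1) :
    ∃ v : V, v ≠ 0 ∧ ∀ b : B, ρ b v = (θ b : E) • v := by
  classical
  haveI : Fintype B := Fintype.ofFinite B
  set t : B → V := fun b => (((θ b)⁻¹ : Eˣ) : E) • ρ b w with ht
  refine ⟨∑ b : B, t b, ?_, ?_⟩
  · intro hv
    have hsplit := Finset.sum_filter_add_sum_filter_not (Finset.univ : Finset B)
      (fun b : B => (b : G) ∈ Q) t
    have hQsum : ∑ b ∈ Finset.univ.filter (fun b : B => (b : G) ∈ Q), t b = (Nat.card Q : E) • w := by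
      have h1 : ∀ b ∈ Finset.univ.filter (fun b : B => (b : G) ∈ Q), t b = w := by
        intro b hb
        have hb' := (Finset.mem_filter.1 hb).2
        rw [ht]
        simp only
        rw [hθ b hb', hQ b hb']
        simp
      rw [Finset.sum_congr rfl h1, Finset.sum_const]
      have h2 : (Finset.univ.filter (fun b : B => (b : G) ∈ Q)).card = Nat.card Q := by
        rw [← Fintype.card_subtype, ← Nat.card_eq_fintype_card]
        exact Nat.card_congr (Subgroup.subgroupOfEquivOfLe hQB).toEquiv
      rw [h2, Nat.cast_smul_eq_nsmul]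
    rw [hQsum, hv] at hsplit
    have hz := eig_indep (X := A) (fun y => ρ (y : G))
      (Finset.univ.filter (fun b : B => ¬ (b : G) ∈ Q)) t
      (fun b y => (lam ⟨(b:G)⁻¹ * y * b, hnorm b b.2 y y.2⟩ : E)) ?_ ((Nat.card Q : E) • w)
      (fun y => (lam y : E)) ?_ ?_ hsplit
    · exact hw0 ((smul_eq_zero.1 hz).resolve_left hcard)
    · intro b _ y
      rw [ht]
      simp only
      rw [map_smul, smul_comm]
      congr 1
      have h1 := hw ⟨(b:G)⁻¹ * y * b, hnorm b b.2 y y.2⟩
      simp only at h1
      rw [← map_smul, ← h1, ← Module.End.mul_apply, ← map_mul, ← Module.End.mul_apply, ← map_mul]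
      congr 2
      group
    · intro y
      rw [map_smul, hw y, smul_comm]
    · intro b hb
      obtain ⟨y, hy⟩ := hdist b b.2 (Finset.mem_filter.1 hb).2
      refine ⟨y, fun h => hy ?_⟩
      exact Units.ext h
  · intro b'
    rw [map_sum, Finset.smul_sum]
    refine Fintype.sum_equiv (Equiv.mulLeft b') _ _ (fun b => ?_)
    rw [ht]
    simp only [Equiv.coe_mulLeft]
    rw [map_smul, ← Module.End.mul_apply, ← map_mul, smul_smul, ← Units.val_mul]
    congr 2
    simp [map_mul, mul_inv_rev]

/-- commuting operators on a nonzero finite-dimensional space have a common eigenvector -/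
theorem heis_common {E V α : Type*} [Field E] [IsAlgClosed E] [AddCommGroup V] [Module E V]
    [FiniteDimensional E V] (W0 : Submodule E V) (hW0 : W0 ≠ ⊥) (T : α → (V →ₗ[E] V))
    (hst : ∀ a, ∀ v ∈ W0, T a v ∈ W0) (hcomm : ∀ a b, ∀ v ∈ W0, T a (T b v) = T b (T a v))
    (S : Finset α) : ∃ W : Submodule E V, W ≠ ⊥ ∧ W ≤ W0 ∧ (∀ a, ∀ v ∈ W, T a v ∈ W) ∧
      ∀ a ∈ S, ∃ μ : E, ∀ v ∈ W, T a v = μ • v := by
  classical
  induction S using Finset.induction_on with
  | empty => exact ⟨W0, hW0, le_rfl, hst, fun a ha => absurd ha (Finset.notMem_empty a)⟩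
  | insert a S ha ih =>
    obtain ⟨W, hW, hWW, hWst, hWS⟩ := ih
    have : Nontrivial W := Submodule.nontrivial_iff_ne_bot.mpr hW
    obtain ⟨μ, hμ⟩ := Module.End.exists_eigenvalue ((T a).restrict (hWst a))
    obtain ⟨u, hu⟩ := hμ.exists_hasEigenvector
    have hu1 : ((T a).restrict (hWst a)) u = μ • u := Module.End.mem_eigenspace_iff.mp hu.1
    have hu2 : T a (u : V) = μ • (u : V) := congrArg Subtype.val hu1
    refine ⟨W ⊓ Module.End.eigenspace (T a) μ, ?_, inf_le_left.trans hWW, ?_, ?_⟩
    · intro hbot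
      have hmem : (u : V) ∈ W ⊓ Module.End.eigenspace (T a) μ :=
        ⟨u.2, Module.End.mem_eigenspace_iff.mpr hu2⟩
      rw [hbot, Submodule.mem_bot] at hmem
      exact hu.2 (Subtype.ext hmem)
    · rintro b v ⟨hv1, hv2⟩
      refine ⟨hWst b v hv1, ?_⟩
      have hv2' : T a v = μ • v := Module.End.mem_eigenspace_iff.mp hv2
      apply Module.End.mem_eigenspace_iff.mpr
      rw [hcomm a b v (hWW hv1), hv2', map_smul]
    · intro b hb
      rcases Finset.mem_insert.mp hb with h | h
      · subst h
        exact ⟨μ, fun v hv => Module.End.mem_eigenspace_iff.mp hv.2⟩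
      · obtain ⟨ν, hν⟩ := hWS b h
        exact ⟨ν, fun v hv => hν v hv.1⟩

theorem heis_trace {K L : Type*} [Field K] [Finite K] [Field L] [Finite L] [Algebra K L]
    (z : L) (hz : z ≠ 0) (r : K) : ∃ s : L, Algebra.trace K L (z * s) = r := by
  obtain ⟨s0, hs0⟩ := Algebra.trace_surjective K L r
  refine ⟨z⁻¹ * s0, ?_⟩
  rw [mul_inv_cancel_left₀ hz, hs0]

/-- fixed vectors of the `K`-points of a Heisenberg type group over `L` when the central character
is trivial on `K`-points -/
theorem heis_fixed {K L E V G ι : Type*} [Field K] [Finite K] [Field L] [Finite L] [Algebra K L]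
    [Field E] [IsAlgClosed E] [AddCommGroup V] [Module E V] [FiniteDimensional E V] [Group G]
    [Fintype ι] (p : ℕ) [Fact p.Prime] [CharP K p] (hp : (p : E) ≠ 0)
    (ρ : Representation E G V) (A : Subgroup G) (lam : A →* Eˣ) (w : V) (hw0 : w ≠ 0)
    (hw : ∀ a : A, ρ a w = (lam a : E) • w) (y : ι → L → G)
    (hadd : ∀ i s t, y i (s + t) = y i s * y i t) (hyA : ∀ a ∈ A, ∀ i s, a * y i s = y i s * a)
    (e : L → A) (cc : ι → ι → K)
    (hcomm : ∀ i j s t, y i s * y j t = (e (algebraMap K L (cc i j) * (s * t)) : G) * (y j t * y i s))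
    (ψ : AddChar K E) (hψ : ∃ t, ψ t ≠ 1) (z : L) (hz : z ≠ 0) (hTr : Algebra.trace K L z = 0)
    (hlam : ∀ s, (lam (e s) : E) = ψ (Algebra.trace K L (z * s)))
    (star : Equiv.Perm ι) (hstar : ∀ i j, cc j i ≠ 0 → i = star j)
    (hstar' : ∀ j, cc j (star j) ≠ 0) :
    ∃ w' : V, w' ≠ 0 ∧ (∀ a : A, ρ a w' = (lam a : E) • w') ∧
      ∀ i (t : K), ρ (y i (algebraMap K L t)) w' = w' := by
  classical
  have hKfin : Fintype K := Fintype.ofFinite K
  -- stability of the eigenspace
  have hstab : ∀ v : V, (∀ a : A, ρ a v = (lam a : E) • v) → ∀ i s,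
      ∀ a : A, ρ a (ρ (y i s) v) = (lam a : E) • ρ (y i s) v := by
    intro v hv i s a
    have h1 : ρ (a : G) (ρ (y i s) v) = ρ (y i s) (ρ (a : G) v) := by
      rw [← Module.End.mul_apply, ← Module.End.mul_apply, ← map_mul, ← map_mul,
        hyA a a.2 i s]
    rw [h1, hv a, map_smul]
  have hco : ∀ v : V, (∀ a : A, ρ a v = (lam a : E) • v) → ∀ i j s t,
      ρ (y i s) (ρ (y j t) v) =
        (lam (e (algebraMap K L (cc i j) * (s * t))) : E) • ρ (y j t) (ρ (y i s) v) := by
    intro v hv i j s t
    rw [← Module.End.mul_apply, ← map_mul, hcomm i j s t, map_mul, map_mul,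
      Module.End.mul_apply, Module.End.mul_apply]
    exact hstab _ (hstab v hv i s) j t _
  have hTrK : ∀ c : K, Algebra.trace K L (z * algebraMap K L c) = 0 := by
    intro c
    have h1 : z * algebraMap K L c = c • z := by
      rw [Algebra.smul_def, mul_comm]
    rw [h1, map_smul, hTr, smul_zero]
  have hco' : ∀ v : V, (∀ a : A, ρ a v = (lam a : E) • v) → ∀ i j (s t : K),
      ρ (y i (algebraMap K L s)) (ρ (y j (algebraMap K L t)) v) =
        ρ (y j (algebraMap K L t)) (ρ (y i (algebraMap K L s)) v) := by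
    intro v hv i j s t
    rw [hco v hv, hlam, ← map_mul, ← map_mul, hTrK, AddChar.map_zero_eq_one, one_smul]
  let W0 : Submodule E V :=
    { carrier := {v | ∀ a : A, ρ a v = (lam a : E) • v}
      add_mem' := by
        intro u v hu hv a
        rw [map_add, hu a, hv a, smul_add]
      zero_mem' := by
        intro a
        rw [map_zero, smul_zero]
      smul_mem' := by
        intro c v hv a
        rw [map_smul, hv a, smul_comm] }
  have hW0 : W0 ≠ ⊥ := by
    intro h
    have hmem : w ∈ W0 := hw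
    rw [h, Submodule.mem_bot] at hmem
    exact hw0 hmem
  obtain ⟨W, hWne, hWW, hWst, hWS⟩ := heis_common W0 hW0
    (fun a : ι × K => ρ (y a.1 (algebraMap K L a.2)))
    (fun a v hv => hstab v hv _ _) (fun a b v hv => hco' v hv _ _ _ _) Finset.univ
  obtain ⟨w1, hw1W, hw10⟩ := Submodule.exists_mem_ne_zero_of_ne_bot hWne
  have hχ : ∀ i (t : K), ∃ μ : E, ρ (y i (algebraMap K L t)) w1 = μ • w1 := by
    intro i t
    obtain ⟨μ, hμ⟩ := hWS (i, t) (Finset.mem_univ _)
    exact ⟨μ, hμ w1 hw1W⟩
  choose χ hχ' using hχ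
  have hy0 : ∀ i, y i 0 = 1 := by
    intro i
    have h1 := hadd i 0 0
    rw [add_zero] at h1
    exact (mul_eq_left.mp h1.symm)
  have hinj := smul_left_injective E hw10
  let χc : ι → AddChar K E := fun i =>
    { toFun := χ i
      map_zero_eq_one' := by
        apply hinj
        show χ i 0 • w1 = (1 : E) • w1
        rw [← hχ' i 0, map_zero, hy0, map_one, one_smul]
        rfl
      map_add_eq_mul' := by
        intro s t
        apply hinj
        show χ i (s + t) • w1 = (χ i s * χ i t) • w1
        rw [← hχ' i (s + t), map_add, hadd, map_mul, Module.End.mul_apply, hχ' i t, map_smul,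
          hχ' i s, smul_smul, mul_comm] }
  have hx : ∀ i, ∃ x : K, ∀ t : K, χ i t = ψ (x * t) := by
    intro i
    obtain ⟨c, hc⟩ := addChar_eq_trace (K := K) (L := K) p hp ψ hψ (χc i)
    refine ⟨c, fun t => ?_⟩
    have h1 := hc t
    rw [Algebra.trace_self_apply] at h1
    exact h1
  choose x0 hx0 using hx
  -- the induction removing the characters
  have key : ∀ S : Finset ι, ∃ (v : V) (x : ι → K), v ≠ 0 ∧ (∀ a : A, ρ a v = (lam a : E) • v) ∧
      (∀ j (t : K), ρ (y j (algebraMap K L t)) v = ψ (x j * t) • v) ∧ ∀ j ∈ S, x j = 0 := by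
    intro S
    induction S using Finset.induction_on with
    | empty =>
      refine ⟨w1, x0, hw10, hWW hw1W, fun j t => ?_, fun j hj => absurd hj (Finset.notMem_empty j)⟩
      rw [hχ' j t, hx0 j t]
    | insert j0 S hj0 ih =>
      obtain ⟨v, x, hv0, hvA, hvx, hxS⟩ := ih
      obtain ⟨s, hs⟩ := heis_trace (K := K) z hz (-(x j0) / cc j0 (star j0))
      refine ⟨ρ (y (star j0) s) v, fun j => x j + cc j (star j0) * Algebra.trace K L (z * s),
        ?_, hstab v hvA _ _, ?_, ?_⟩
      · intro h0
        apply hv0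
        have h1 : ρ (y (star j0) s)⁻¹ (ρ (y (star j0) s) v) = v := by
          rw [← Module.End.mul_apply, ← map_mul, inv_mul_cancel, map_one, Module.End.one_apply]
        rw [← h1, h0, map_zero]
      · intro j t
        rw [hco v hvA, hvx, map_smul, smul_smul, hlam, ← AddChar.map_add_eq_mul]
        congr 2
        have h1 : z * (algebraMap K L (cc j (star j0)) * (algebraMap K L t * s)) =
            (cc j (star j0) * t) • (z * s) := by
          rw [Algebra.smul_def, map_mul]
          ring
        rw [h1, map_smul, smul_eq_mul]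
        ring
      · intro j hj
        show x j + cc j (star j0) * Algebra.trace K L (z * s) = 0
        rcases Finset.mem_insert.mp hj with h | h
        · rw [h, hs]
          have := hstar' j0
          field_simp
          ring
        · have hne : j ≠ j0 := by
            rintro rfl
            exact hj0 h
          have hcc : cc j (star j0) = 0 := by
            by_contra hcc
            exact hne (star.injective (hstar _ _ hcc)).symm
          rw [hcc, zero_mul, add_zero, hxS j h]
  obtain ⟨v, x, hv0, hvA, hvx, hx⟩ := key Finset.univ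
  refine ⟨v, hv0, hvA, fun i t => ?_⟩
  rw [hvx, hx i (Finset.mem_univ i), zero_mul, AddChar.map_zero_eq_one, one_smul]

end Pool.Agent.Helper255.CF
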