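import Pool.Agent.Helper255.CF.FoldB
import Pool.Agent.Helper255.CF.Gen2

set_option autoImplicit false

namespace Pool.Agent.Helper255.CF

open Matrix

variable {l : ℕ} {D : SLCartan l} (S : Folding D)

/-! eigenvectors -/

/-- the folded abelian subgroup, inside the folded group -/
noncomputable def AF (P : Finset (Root D)) (L : Type) [Field L] : Subgroup (FG S L) :=
  (AG D L P).subgroupOf (FG S L)

/-- `lam` describes the character `lamc` of the folded abelian subgroup -/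
def CharF (P P₀ : Finset (Root D)) {K L : Type} [Field K] [Field L] [Algebra K L] {E : Type*}
    [Field E] (ψ : AddChar K E) (lamc : AF S P L →* Eˣ) (lam : Root D → L) : Prop :=
  ∀ (y : FG S L) (hy : y ∈ AF S P L) (a : Root D → L), Inv S a → (y : G D L) = XA D P a →
    (lamc ⟨y, hy⟩ : E) = ψ (Algebra.trace K L (∑ γ ∈ P₀, lam γ * a γ))

theorem XA_mem_AF_aux {R : Type*} [CommRing R] (P Q : Finset (Root D)) (h : Q ⊆ P)
    (a : Root D → R) : XA D Q a ∈ AG D R P := by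
  unfold XA
  apply Subgroup.list_prod_mem
  intro x hx
  rw [List.mem_map] at hx
  obtain ⟨γ, hγ, rfl⟩ := hx
  exact Subgroup.subset_closure ⟨γ, a γ, h (Finset.mem_toList.1 hγ), rfl⟩

theorem XA_mem_AF (P : Finset (Root D)) (hP : PSet S P) (L : Type) [Field L] (a : Root D → L)
    (ha : Inv S a) : (⟨XA D P a, XA_mem_FG S P hP a ha⟩ : FG S L) ∈ AF S P L := by
  rw [AF, Subgroup.mem_subgroupOf]
  exact XA_mem_AF_aux P P (Finset.Subset.refl P) a

theorem yg_mem_AF_aux {R : Type*} [CommRing R] (P Q : Finset (Root D)) (h : Q ⊆ P)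
    (a : Root D → R) : XA D Q a ∈ AG D R P := by
  unfold XA
  apply Subgroup.list_prod_mem
  intro x hx
  rw [List.mem_map] at hx
  obtain ⟨γ, hγ, rfl⟩ := hx
  exact Subgroup.subset_closure ⟨γ, a γ, h (Finset.mem_toList.1 hγ), rfl⟩

theorem yg_mem_AF (P : Finset (Root D)) (hP : PSet S P) (L : Type) [Field L] (γ : Root D)
    (hγ : γ ∈ P) (t : L) : (⟨yg S γ t, yg_mem_FG S γ t⟩ : FG S L) ∈ AF S P L := by
  rw [AF, Subgroup.mem_subgroupOf]
  exact yg_mem_AF_aux P (orb S γ)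
    (fun δ hδ => orb_induction S (p := fun δ => δ ∈ P) γ hγ (fun δ hδ => hP.stab δ hδ) δ hδ) _

theorem AF_comm_closure {H : Type*} [Group H] (T : Set H)
    (hT : ∀ x ∈ T, ∀ y ∈ T, x * y = y * x) :
    ∀ a ∈ Subgroup.closure T, ∀ b ∈ Subgroup.closure T, a * b = b * a := by
  have h1 : ∀ x ∈ T, ∀ b ∈ Subgroup.closure T, x * b = b * x := by
    intro x hx b hb
    have h : Subgroup.closure T ≤ Subgroup.centralizer {x} := by
      rw [Subgroup.closure_le]
      intro y hy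
      rw [SetLike.mem_coe, Subgroup.mem_centralizer_iff]
      intro z hz
      rw [Set.mem_singleton_iff] at hz
      rw [hz]
      exact hT x hx y hy
    exact Subgroup.mem_centralizer_iff.1 (h hb) x (Set.mem_singleton x)
  intro a ha b hb
  have h : Subgroup.closure T ≤ Subgroup.centralizer {b} := by
    rw [Subgroup.closure_le]
    intro y hy
    rw [SetLike.mem_coe, Subgroup.mem_centralizer_iff]
    intro z hz
    rw [Set.mem_singleton_iff] at hz
    rw [hz]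
    exact (h1 y hy b hb).symm
  exact (Subgroup.mem_centralizer_iff.1 (h ha) b (Set.mem_singleton b)).symm

theorem AF_comm_pow {R : Type*} [CommRing R] (α : Root D) (t : R) (n : ℕ) :
    xg D α t ^ n = xg D α ((n : R) * t) := by
  induction n with
  | zero => rw [pow_zero, Nat.cast_zero, zero_mul, xg_zero]
  | succ n ih => rw [pow_succ, ih, ← xg_add]; congr 1; push_cast; ring

theorem AF_comm_AG (P : Finset (Root D)) (hP : ∀ γ ∈ P, ∀ δ ∈ P, 0 ≤ bil D γ.1 δ.1)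
    (L : Type) [Field L] (p : ℕ) [CharP L p] :
    (∀ a ∈ AG D L P, ∀ b ∈ AG D L P, a * b = b * a) ∧ ∀ a ∈ AG D L P, a ^ p = 1 := by
  have hc : ∀ a ∈ AG D L P, ∀ b ∈ AG D L P, a * b = b * a := by
    apply AF_comm_closure
    rintro x ⟨β, t, hβ, rfl⟩ y ⟨γ, u, hγ, rfl⟩
    exact xg_commute D β γ (hP β hβ γ hγ) t u
  refine ⟨hc, ?_⟩
  intro a ha
  have key : ∀ a (ha : a ∈ Subgroup.closure {g : G D L | ∃ (β : Root D) (t : L),
      β ∈ P ∧ g = xg D β t}), a ^ p = 1 := by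
    intro a ha
    induction ha using Subgroup.closure_induction with
    | mem x hx =>
      obtain ⟨β, t, hβ, rfl⟩ := hx
      rw [AF_comm_pow, CharP.cast_eq_zero, zero_mul, xg_zero]
    | one => exact one_pow p
    | mul x y hx hy ihx ihy =>
      have h : Commute x y := hc x hx y hy
      rw [h.mul_pow, ihx, ihy, one_mul]
    | inv x hx ih => rw [inv_pow, ih, inv_one]
  exact key a ha

theorem AF_comm (P : Finset (Root D)) (hP : PSet S P) (L : Type) [Field L] (p : ℕ) [CharP L p]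
    (hp : p ≠ 0) : (∀ a ∈ AF S P L, ∀ b ∈ AF S P L, a * b = b * a) ∧ ∀ a ∈ AF S P L, a ^ p = 1 := by
  obtain ⟨h1, h2⟩ := AF_comm_AG P hP.comm L p
  constructor
  · intro a ha b hb
    rw [AF, Subgroup.mem_subgroupOf] at ha hb
    exact Subtype.ext (h1 _ ha _ hb)
  · intro a ha
    rw [AF, Subgroup.mem_subgroupOf] at ha
    exact Subtype.ext (h2 _ ha)

theorem exists_charF_list (P : Finset (Root D)) (hP : PSet S P)
    {K L : Type} [Field K] [Finite K] [Field L] [Finite L] [Algebra K L] {E : Type*} [Field E]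
    (ψ : AddChar K E) (lamc : AF S P L →* Eˣ) (lam : Root D → L)
    (hlam : ∀ (γ : Root D) (hγ : γ ∈ P) (t : L),
      (lamc ⟨⟨yg S γ t, yg_mem_FG S γ t⟩, yg_mem_AF S P hP L γ hγ t⟩ : E) =
        ψ (Algebra.trace K L (lam γ * t))) (a : Root D → L) (Ls : List (Root D)) :
    (∀ γ ∈ Ls, γ ∈ P) → ∀ (y : FG S L) (hy : y ∈ AF S P L),
      (y : G D L) = (Ls.map fun γ => yg S γ (a γ)).prod →
      (lamc ⟨y, hy⟩ : E) = ψ (Algebra.trace K L ((Ls.map fun γ => lam γ * a γ).sum)) := by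
  induction Ls with
  | nil =>
    intro _ y hy h
    have h1 : y = 1 := Subtype.ext h
    subst h1
    have h2 : (⟨1, hy⟩ : AF S P L) = 1 := rfl
    rw [h2, map_one]
    simp
  | cons γ Ls ih =>
    intro hm y hy h
    have hγ : γ ∈ P := hm γ (by simp)
    rw [List.map_cons, List.prod_cons] at h
    have h1 : (⟨yg S γ (a γ), yg_mem_FG S γ (a γ)⟩ : FG S L) ∈ AF S P L :=
      yg_mem_AF S P hP L γ hγ (a γ)
    have h2 : (⟨yg S γ (a γ), yg_mem_FG S γ (a γ)⟩ : FG S L)⁻¹ * y ∈ AF S P L :=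
      mul_mem (inv_mem h1) hy
    have h3 : (((⟨yg S γ (a γ), yg_mem_FG S γ (a γ)⟩ : FG S L)⁻¹ * y : FG S L) : G D L) =
        (Ls.map fun γ => yg S γ (a γ)).prod := by
      rw [Subgroup.coe_mul, Subgroup.coe_inv, h]
      exact inv_mul_cancel_left _ _
    have h4 := ih (fun δ hδ => hm δ (by simp [hδ])) _ h2 h3
    have h5 : (⟨y, hy⟩ : AF S P L) = ⟨⟨yg S γ (a γ), yg_mem_FG S γ (a γ)⟩, h1⟩ *
        ⟨(⟨yg S γ (a γ), yg_mem_FG S γ (a γ)⟩ : FG S L)⁻¹ * y, h2⟩ := by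
      apply Subtype.ext
      exact (mul_inv_cancel_left _ _).symm
    rw [h5, map_mul, Units.val_mul, h4, hlam γ hγ, List.map_cons, List.sum_cons, map_add,
      AddChar.map_add_eq_mul]


theorem exists_charF (P P₀ : Finset (Root D)) (hP : PSet S P) (hP₀ : IsReps S P P₀)
    {K L : Type} [Field K] [Finite K] [Field L] [Finite L] [Algebra K L] (p : ℕ) [Fact p.Prime]
    [CharP K p] {E : Type*} [Field E] (hp : (p : E) ≠ 0) (ψ : AddChar K E) (hψ : ∃ t, ψ t ≠ 1)
    (lamc : AF S P L →* Eˣ) : ∃ lam : Root D → L, CharF S P P₀ ψ lamc lam := by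
  have key : ∀ γ : Root D, ∃ c : L, ∀ (hγ : γ ∈ P) (t : L),
      (lamc ⟨⟨yg S γ t, yg_mem_FG S γ t⟩, yg_mem_AF S P hP L γ hγ t⟩ : E) =
        ψ (Algebra.trace K L (c * t)) := by
    intro γ
    by_cases hγ : γ ∈ P
    · let χ : AddChar L E :=
        { toFun := fun t => (lamc ⟨⟨yg S γ t, yg_mem_FG S γ t⟩, yg_mem_AF S P hP L γ hγ t⟩ : E)
          map_zero_eq_one' := by
            have h2 : (⟨⟨yg S γ (0:L), yg_mem_FG S γ 0⟩, yg_mem_AF S P hP L γ hγ 0⟩ :
                AF S P L) = 1 := by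
              apply Subtype.ext
              apply Subtype.ext
              exact yg_zero S γ
            rw [h2, map_one, Units.val_one]
          map_add_eq_mul' := by
            intro s t
            have h2 : (⟨⟨yg S γ (s + t), yg_mem_FG S γ (s + t)⟩,
                yg_mem_AF S P hP L γ hγ (s + t)⟩ : AF S P L) =
                ⟨⟨yg S γ s, yg_mem_FG S γ s⟩, yg_mem_AF S P hP L γ hγ s⟩ *
                ⟨⟨yg S γ t, yg_mem_FG S γ t⟩, yg_mem_AF S P hP L γ hγ t⟩ := by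
              apply Subtype.ext
              apply Subtype.ext
              exact yg_add S γ s t
            rw [h2, map_mul, Units.val_mul] }
      obtain ⟨c, hc⟩ := addChar_eq_trace (K := K) p hp ψ hψ χ
      exact ⟨c, fun _ t => hc t⟩
    · exact ⟨0, fun h => absurd h hγ⟩
  choose lam hlam using key
  refine ⟨lam, ?_⟩
  intro y hy a ha hya
  rw [XA_eq_reps S P P₀ hP hP₀ a ha] at hya
  have h := exists_charF_list S P hP ψ lamc lam hlam a P₀.toList
    (fun γ hγ => hP₀.1 (Finset.mem_toList.mp hγ)) y hy hya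
  rw [h]
  congr 2
  simp

theorem charF_conj_orb (P : Finset (Root D)) (hP : PSet S P) {γ : Root D} (hγ : γ ∈ P) :
    ∀ β ∈ orb S γ, β ∈ P :=
  orb_induction S γ hγ (fun β hβ => hP.stab β hβ)

theorem charF_conj_inv {R : Type*} (a : Root D → R) (ha : Inv S a) (γ : Root D) :
    ∀ β ∈ orb S γ, a β = a γ :=
  orb_induction S γ (p := fun β => a β = a γ) rfl (fun β hβ => (ha β).trans hβ)

theorem charF_conj_sum (P P₀ : Finset (Root D)) (hP : PSet S P) (hP₀ : IsReps S P P₀)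
    {R : Type*} [CommRing R] (f : Root D → R) :
    ∑ γ ∈ P, f γ = ∑ γ ∈ P₀, ∑ β ∈ orb S γ, f β := by
  classical
  have hU : P = P₀.biUnion (fun γ => orb S γ) := by
    ext γ
    rw [Finset.mem_biUnion]
    constructor
    · intro h
      obtain ⟨γ', ⟨h1, h2⟩, _⟩ := hP₀.2 γ h
      refine ⟨γ', h1, ?_⟩
      rw [orb_eq S γ γ' h2]
      exact self_mem_orb S γ
    · rintro ⟨γ', h1, h2⟩
      exact charF_conj_orb S P hP (hP₀.1 h1) γ h2
  conv_lhs => rw [hU]
  refine Finset.sum_biUnion ?_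
  intro γ₁ h₁ γ₂ h₂ hne
  show Disjoint (orb S γ₁) (orb S γ₂)
  rw [Finset.disjoint_left]
  intro β hb₁ hb₂
  have hβP : β ∈ P := charF_conj_orb S P hP (hP₀.1 h₁) β hb₁
  have g₁ : γ₁ ∈ orb S β := by
    rw [orb_eq S γ₁ β hb₁]; exact self_mem_orb S γ₁
  have g₂ : γ₂ ∈ orb S β := by
    rw [orb_eq S γ₂ β hb₂]; exact self_mem_orb S γ₂
  exact hne ((hP₀.2 β hβP).unique ⟨h₁, g₁⟩ ⟨h₂, g₂⟩)

theorem charF_conj_mulVec {R : Type*} [CommRing R] (M : Matrix (Idx D) (Idx D) R) (γ δ : Root D) :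
    (M *ᵥ eo S R γ) (Sum.inr δ) = ∑ β ∈ orb S γ, M (Sum.inr δ) (Sum.inr β) := by
  unfold eo
  rw [Matrix.mulVec_sum, Finset.sum_apply]
  refine Finset.sum_congr rfl fun β _ => ?_
  unfold ev
  rw [Matrix.mulVec_single_one]
  rfl

/-- the transformed coefficients are invariant -/
theorem charF_conj_Inv {R : Type*} [CommRing R] (P : Finset (Root D)) (hP : PSet S P) (g : G D R)
    (hg : g ∈ FG S R) (a : Root D → R) (ha : Inv S a) :
    Inv S (fun δ => ∑ γ ∈ P, a γ * mat D g (Sum.inr δ) (Sum.inr γ)) := by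
  intro δ
  show ∑ γ ∈ P, a γ * mat D g (Sum.inr (sroot S δ)) (Sum.inr γ)
    = ∑ γ ∈ P, a γ * mat D g (Sum.inr δ) (Sum.inr γ)
  symm
  have hinj := (sroot_bijective S).1
  have himg : P.image (sroot S) = P := by
    apply Finset.eq_of_subset_of_card_le
    · intro γ hγ
      obtain ⟨γ', h1, h2⟩ := Finset.mem_image.mp hγ
      rw [← h2]
      exact hP.stab γ' h1
    · rw [Finset.card_image_of_injective P hinj]
  conv_rhs => rw [← himg]
  rw [Finset.sum_image (fun x _ y _ h => hinj h)]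
  refine Finset.sum_congr rfl fun γ _ => ?_
  rw [ha γ]
  have h1 := mat_sg S g (Sum.inr δ) (Sum.inr γ)
  rw [FG_fix S g hg] at h1
  have h2 : mat D g (Sum.inr (sroot S δ)) (Sum.inr (sroot S γ)) = mat D g (Sum.inr δ) (Sum.inr γ) :=
    h1
  rw [h2]

theorem charF_conj_mem (P : Finset (Root D)) (hP : PSet S P) {L : Type} [Field L]
    (g : FG S L) (hg : NP P (g : G D L)) (y : FG S L) (a : Root D → L) (ha : Inv S a)
    (hya : (y : G D L) = XA D P a) :
    ((g * y * g⁻¹ : FG S L) : G D L)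
      = XA D P (fun δ => ∑ γ ∈ P, a γ * mat D (g : G D L) (Sum.inr δ) (Sum.inr γ)) ∧
    g * y * g⁻¹ ∈ AF S P L := by
  have h1 : ((g * y * g⁻¹ : FG S L) : G D L)
      = XA D P (fun δ => ∑ γ ∈ P, a γ * mat D (g : G D L) (Sum.inr δ) (Sum.inr γ)) := by
    rw [Subgroup.coe_mul, Subgroup.coe_mul, Subgroup.coe_inv, hya]
    exact NP_XA S P hP (g : G D L) hg a
  have hI := charF_conj_Inv S P hP (g : G D L) g.2 a ha
  refine ⟨h1, ?_⟩
  have h2 := XA_mem_AF S P hP L _ hI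
  have h3 : g * y * g⁻¹ = (⟨XA D P (fun δ => ∑ γ ∈ P, a γ *
      mat D (g : G D L) (Sum.inr δ) (Sum.inr γ)), XA_mem_FG S P hP _ hI⟩ : FG S L) :=
    Subtype.ext h1
  rw [h3]
  exact h2

theorem charF_conj_mem' (P : Finset (Root D)) (hP : PSet S P) {L : Type} [Field L]
    (g : FG S L) (hg : NP P (g : G D L)) (y : FG S L) (hy : y ∈ AF S P L) :
    g * y * g⁻¹ ∈ AF S P L := by
  obtain ⟨a, ha, hya⟩ := AG_inf_FG S P hP (y : G D L) (Subgroup.mem_subgroupOf.mp hy) y.2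
  exact (charF_conj_mem S P hP g hg y a ha hya).2

/-- transport of a character by a normalising element -/
theorem charF_conj (P P₀ : Finset (Root D)) (hP : PSet S P) (hP₀ : IsReps S P P₀)
    {K L : Type} [Field K] [Field L] [Algebra K L] {E : Type*} [Field E] (ψ : AddChar K E)
    (lamc : AF S P L →* Eˣ) (lam : Root D → L) (h : CharF S P P₀ ψ lamc lam)
    (g : FG S L) (hg : NP P (g : G D L)) (lam' : Root D → L)
    (hlam' : ∀ γ ∈ P, lam' γ = ∑ δ ∈ P₀, lam δ * (mat D (g : G D L) *ᵥ eo S L γ) (Sum.inr δ)) :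
    ∃ lamc' : AF S P L →* Eˣ, CharF S P P₀ ψ lamc' lam' ∧
      ∀ (y : FG S L) (hy : y ∈ AF S P L), ∃ hy' : g * y * g⁻¹ ∈ AF S P L,
        lamc' ⟨y, hy⟩ = lamc ⟨g * y * g⁻¹, hy'⟩ := by
  have hmem := charF_conj_mem' S P hP g hg
  refine ⟨lamc.comp
    { toFun := fun y => ⟨g * (y : FG S L) * g⁻¹, hmem y y.2⟩
      map_one' := Subtype.ext (by
        show g * (1 : FG S L) * g⁻¹ = 1
        rw [mul_one, mul_inv_cancel])
      map_mul' := fun y z => Subtype.ext (by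
        show g * ((y : FG S L) * (z : FG S L)) * g⁻¹
          = (g * (y : FG S L) * g⁻¹) * (g * (z : FG S L) * g⁻¹)
        group) }, ?_, ?_⟩
  · intro y hy a ha hya
    obtain ⟨h1, h2⟩ := charF_conj_mem S P hP g hg y a ha hya
    have hI := charF_conj_Inv S P hP (g : G D L) g.2 a ha
    have h3 := h (g * y * g⁻¹) h2 _ hI h1
    show (lamc ⟨g * y * g⁻¹, _⟩ : E) = _
    rw [h3]
    congr 2
    -- the two sums agree
    have e1 : ∀ δ : Root D, ∑ γ ∈ P, a γ * mat D (g : G D L) (Sum.inr δ) (Sum.inr γ)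
        = ∑ γ ∈ P₀, a γ * (mat D (g : G D L) *ᵥ eo S L γ) (Sum.inr δ) := by
      intro δ
      rw [charF_conj_sum S P P₀ hP hP₀]
      refine Finset.sum_congr rfl fun γ _ => ?_
      rw [charF_conj_mulVec, Finset.mul_sum]
      refine Finset.sum_congr rfl fun β hβ => ?_
      rw [charF_conj_inv S a ha γ β hβ]
    simp only [e1, Finset.mul_sum]
    rw [Finset.sum_comm]
    refine Finset.sum_congr rfl fun γ hγ => ?_
    rw [hlam' γ (hP₀.1 hγ), Finset.sum_mul]
    refine Finset.sum_congr rfl fun δ _ => ?_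
    ring
  · intro y hy
    exact ⟨hmem y hy, rfl⟩

/-- eigenvectors with trace zero characters can be replaced by ones fixed by the centraliser -/
def HasQ2.{u, v} (p : ℕ) (P P₀ : Finset (Root D)) : Prop :=
  ∀ (K L : Type) [Field K] [Finite K] [Field L] [Finite L] [Algebra K L] [CharP K p]
    (E : Type u) (V : Type v) [Field E] [IsAlgClosed E] [AddCommGroup V] [Module E V]
    [FiniteDimensional E V] (ρ : Representation E (FG S L) V), (p : E) ≠ 0 →
    ∀ ψ : AddChar K E, (∃ t, ψ t ≠ 1) → ∀ (w : V) (lamc : AF S P L →* Eˣ) (lam : Root D → L),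
      w ≠ 0 → (∀ y : AF S P L, ρ y w = (lamc y : E) • w) → CharF S P P₀ ψ lamc lam →
      (∀ γ ∈ P, Algebra.trace K L (lam γ) = 0) → (∀ γ ∈ P, lam γ ≠ 0) →
      ∃ w' : V, w' ≠ 0 ∧ (∀ y : AF S P L, ρ y w' = (lamc y : E) • w') ∧
        ∀ b : FG S K, (b : G D K) ∈ BG D K →
          (∀ γ ∈ P, mat D (b : G D K) *ᵥ eo S K γ = eo S K γ) →
          ρ (Fmap S (algebraMap K L) b) w' = w'

/-- the centraliser in the Borel subgroup is unipotent -/
def HasQU (p : ℕ) (P : Finset (Root D)) : Prop :=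
  ∀ (K : Type) [Field K] [CharP K p], ∀ b ∈ BG D K, b ∈ FG S K →
    (∀ γ ∈ P, mat D b *ᵥ eo S K γ = eo S K γ) → b ∈ UG D K

/-- starting eigenvectors -/
def HasStart.{u, v} (p : ℕ) (P Γ₀ : Finset (Root D)) : Prop :=
  ∀ (L : Type) [Field L] [Finite L] [CharP L p], p ^ 4 ≤ Nat.card L →
    ∀ (E : Type u) (V : Type v) [Field E] [IsAlgClosed E] [AddCommGroup V] [Module E V]
    [FiniteDimensional E V] (ρ : Representation E (FG S L) V), (p : E) ≠ 0 →
    (∀ β : Root D, ρ (⟨yg S β 1, yg_mem_FG S β 1⟩ : FG S L) ≠ 1) →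
    ∃ (w : V) (lamc : AF S P L →* Eˣ), w ≠ 0 ∧ (∀ y : AF S P L, ρ y w = (lamc y : E) • w) ∧
      ∀ γ₀ ∈ Γ₀, ∃ (t : L) (y : FG S L) (hy : y ∈ AF S P L), (y : G D L) = yg S γ₀ t ∧
        lamc ⟨y, hy⟩ ≠ 1

theorem ef_orb_subset (P : Finset (Root D)) (hP : PSet S P) (γ : Root D) (hγ : γ ∈ P) :
    orb S γ ⊆ P := by
  intro δ hδ
  exact orb_induction S (p := fun δ => δ ∈ P) γ hγ (fun γ h => hP.stab γ h) δ hδ

theorem ef_inv_orb {R : Type*} (a : Root D → R) (ha : Inv S a) (γ δ : Root D)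
    (h : δ ∈ orb S γ) : a δ = a γ :=
  orb_induction S (p := fun δ => a δ = a γ) γ rfl (fun β h => by rw [ha β, h]) δ h

theorem ef_mem_symm (γ δ : Root D) (h : δ ∈ orb S γ) : γ ∈ orb S δ := by
  rw [orb_eq S γ δ h]; exact self_mem_orb S γ

theorem ef_mulVec_ev {R : Type*} [CommRing R] (A : Matrix (Idx D) (Idx D) R) (γ : Root D)
    (i : Idx D) : (A *ᵥ ev D R γ) i = A i (Sum.inr γ) := by
  rw [ev, Matrix.mulVec_single_one]; rfl

theorem ef_mulVec_eo {R : Type*} [CommRing R] (A : Matrix (Idx D) (Idx D) R) (γ : Root D)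
    (i : Idx D) : (A *ᵥ eo S R γ) i = ∑ β ∈ orb S γ, A i (Sum.inr β) := by
  classical
  rw [eo, Matrix.mulVec_sum, Finset.sum_apply]
  exact Finset.sum_congr rfl fun β _ => ef_mulVec_ev A β i

open Classical in
theorem ef_eo_inr {R : Type*} [CommRing R] (γ δ : Root D) :
    eo S R γ (Sum.inr δ) = if δ ∈ orb S γ then 1 else 0 := by
  have h := ef_mulVec_eo S (1 : Matrix (Idx D) (Idx D) R) γ (Sum.inr δ)
  rw [Matrix.one_mulVec] at h
  rw [h]
  simp only [Matrix.one_apply, Sum.inr.injEq]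
  rw [Finset.sum_ite_eq]

theorem ef_eo_inl {R : Type*} [CommRing R] (γ : Root D) (i : Fin l) :
    eo S R γ (Sum.inl i) = 0 := by
  have h := ef_mulVec_eo S (1 : Matrix (Idx D) (Idx D) R) γ (Sum.inl i)
  rw [Matrix.one_mulVec] at h
  rw [h]
  refine Finset.sum_eq_zero fun β _ => ?_
  rw [Matrix.one_apply_ne]
  simp

/-- indicator coefficients -/
noncomputable def efInd {R : Type*} [CommRing R] (c : Root D) (t : R) : Root D → R :=
  open Classical in fun γ => if γ ∈ orb S c then t else 0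

theorem efInd_of_mem {R : Type*} [CommRing R] (c : Root D) (t : R) (γ : Root D)
    (h : γ ∈ orb S c) : efInd S c t γ = t := by
  simp [efInd, h]

theorem efInd_of_notMem {R : Type*} [CommRing R] (c : Root D) (t : R) (γ : Root D)
    (h : γ ∉ orb S c) : efInd S c t γ = 0 := by
  simp [efInd, h]

theorem ef_sroot_mem (c γ : Root D) : sroot S γ ∈ orb S c ↔ γ ∈ orb S c := by
  constructor
  · intro h
    have h1 := sroot_mem_orb S γ
    have h2 := ef_mem_symm S γ (sroot S γ) h1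
    rw [orb_eq S c (sroot S γ) h] at h2
    exact h2
  · intro h
    have h1 := sroot_mem_orb S γ
    rwa [orb_eq S c γ h] at h1

theorem efInd_inv {R : Type*} [CommRing R] (c : Root D) (t : R) : Inv S (efInd S c t) := by
  intro β
  by_cases h : β ∈ orb S c
  · rw [efInd_of_mem S c t β h, efInd_of_mem S c t _ ((ef_sroot_mem S c β).2 h)]
  · rw [efInd_of_notMem S c t β h, efInd_of_notMem S c t _ (fun h' => h ((ef_sroot_mem S c β).1 h'))]

theorem ef_yg_eq {R : Type*} [CommRing R] (P : Finset (Root D)) (hP : PSet S P) (c : Root D)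
    (hc : c ∈ P) (t : R) : yg S c t = XA D P (efInd S c t) := by
  classical
  rw [XA_eq_list (D := D) P hP.comm (efInd S c t) ((orb S c).toList ++ (P \ orb S c).toList)]
  · rw [List.map_append, List.prod_append]
    have h2 : ((P \ orb S c).toList.map fun γ => xg D γ (efInd S c t γ)).prod = 1 := by
      apply List.prod_eq_one
      intro x hx
      rw [List.mem_map] at hx
      obtain ⟨γ, hγ, rfl⟩ := hx
      rw [Finset.mem_toList, Finset.mem_sdiff] at hγ
      rw [efInd_of_notMem S c t γ hγ.2, xg_zero]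
    rw [h2, mul_one]
    change XA D (orb S c) (fun _ => t) = XA D (orb S c) (efInd S c t)
    apply XA_congr
    intro γ hγ
    rw [efInd_of_mem S c t γ hγ]
  · rw [List.nodup_append]
    refine ⟨Finset.nodup_toList _, Finset.nodup_toList _, ?_⟩
    intro a ha b hb hab
    subst hab
    rw [Finset.mem_toList] at ha hb
    exact (Finset.mem_sdiff.1 hb).2 ha
  · intro γ
    rw [List.mem_append, Finset.mem_toList, Finset.mem_toList, Finset.mem_sdiff]
    constructor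
    · rintro (h | h)
      · exact ef_orb_subset S P hP c hc h
      · exact h.1
    · intro h
      by_cases h' : γ ∈ orb S c
      · exact Or.inl h'
      · exact Or.inr ⟨h, h'⟩

theorem ef_XA_mem_AG {R : Type*} [CommRing R] (P : Finset (Root D)) (a : Root D → R) :
    XA D P a ∈ AG D R P := by
  unfold XA
  apply Subgroup.list_prod_mem
  intro x hx
  rw [List.mem_map] at hx
  obtain ⟨γ, hγ, rfl⟩ := hx
  exact Subgroup.subset_closure ⟨γ, a γ, Finset.mem_toList.1 hγ, rfl⟩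

theorem ef_map_ev {R R' : Type*} [CommRing R] [CommRing R'] (f : R →+* R') (β : Root D) :
    ev D R' β = fun i => f (ev D R β i) := by
  funext i
  rw [ev, ev]
  by_cases h : i = Sum.inr β
  · subst h; simp
  · rw [Pi.single_eq_of_ne h, Pi.single_eq_of_ne h, map_zero]

theorem ef_map_hv {R R' : Type*} [CommRing R] [CommRing R'] (f : R →+* R') (y : Fin l → ℤ) :
    hv D R' y = fun i => f (hv D R y i) := by
  funext i
  rcases i with i | i
  · simp [hv]
  · simp [hv]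

theorem ef_map_mulVec {R R' : Type*} [CommRing R] [CommRing R'] (f : R →+* R')
    (A : Matrix (Idx D) (Idx D) R) (v : Idx D → R) :
    (A.map f) *ᵥ (fun i => f (v i)) = fun i => f ((A *ᵥ v) i) := by
  funext i
  simp [Matrix.mulVec, dotProduct, map_sum]

theorem ef_Gmap_mono {R R' : Type*} [CommRing R] [CommRing R'] (f : R →+* R') (t : G D R)
    (w : (Fin l → ℤ) ≃+ (Fin l → ℤ)) (χ : Root D → R) (h : Mono D t w χ) :
    Mono D (Gmap D f t) w (fun β => f (χ β)) := by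
  refine ⟨h.isom, ?_, ?_, ?_, ?_⟩
  · intro β β' hβ
    rw [mat_Gmap, ef_map_ev f β, ef_map_mulVec, h.he β β' hβ, ef_map_ev f β']
    funext i
    simp
  · intro y
    rw [mat_Gmap, ef_map_hv f y, ef_map_mulVec, h.hh y, ef_map_hv f (w y)]
  · intro α β γ hγ
    have := congrArg f (h.hmul α β γ hγ)
    simpa using this
  · intro β
    have := congrArg f (h.hneg β)
    simpa using this

theorem ef_Gmap_UG {R R' : Type*} [CommRing R] [CommRing R'] (f : R →+* R') :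
    UG D R ≤ (UG D R').comap (Gmap D f) := by
  rw [UG, Subgroup.closure_le]
  rintro g ⟨β, t, hβ, rfl⟩
  change Gmap D f (xg D β t) ∈ UG D R'
  rw [Gmap_xg]
  exact Subgroup.subset_closure ⟨β, f t, hβ, rfl⟩

theorem ef_Gmap_BG {R R' : Type*} [CommRing R] [CommRing R'] (f : R →+* R') (b : G D R)
    (hb : b ∈ BG D R) : Gmap D f b ∈ BG D R' := by
  obtain ⟨t, ht, u, hu, rfl⟩ := mem_BG D b hb
  obtain ⟨χ, hχ⟩ := ht
  rw [map_mul]
  refine mul_mem ?_ ?_
  · exact (le_sup_left : TG D R' ≤ BG D R') ⟨_, ef_Gmap_mono f t _ χ hχ⟩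
  · exact (le_sup_right : UG D R' ≤ BG D R') (ef_Gmap_UG f hu)

theorem ef_fix_mulVec {R : Type*} [CommRing R] (g : G D R) (hg : g ∈ FG S R) (c δ : Root D) :
    (mat D g *ᵥ eo S R c) (Sum.inr (sroot S δ)) = (mat D g *ᵥ eo S R c) (Sum.inr δ) := by
  classical
  rw [ef_mulVec_eo, ef_mulVec_eo]
  have h1 : ∀ β, mat D g (Sum.inr (sroot S δ)) (Sum.inr (sroot S β)) =
      mat D g (Sum.inr δ) (Sum.inr β) := by
    intro β
    have h := mat_sg S g (Sum.inr δ) (Sum.inr β)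
    rw [FG_fix S g hg] at h
    exact h
  symm
  refine Finset.sum_bij (fun β _ => sroot S β) ?_ ?_ ?_ ?_
  · intro β hβ
    exact (ef_sroot_mem S c β).2 hβ
  · intro β _ β' _ h
    exact (sroot_bijective S).1 h
  · intro β hβ
    obtain ⟨β', rfl⟩ := (sroot_bijective S).2 β
    exact ⟨β', (ef_sroot_mem S c β').1 hβ, rfl⟩
  · intro β _
    exact (h1 β).symm

/-- the elements of the folded Borel subgroup acting trivially on the abelian subgroup -/
noncomputable def efQF (K : Type) [Field K] (P : Finset (Root D)) : Subgroup (FG S K) where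
  carrier := {b | (b : G D K) ∈ BG D K ∧
    ∀ γ ∈ P, mat D (b : G D K) *ᵥ eo S K γ = eo S K γ}
  mul_mem' := by
    rintro a b ⟨ha, ha'⟩ ⟨hb, hb'⟩
    refine ⟨mul_mem ha hb, fun γ hγ => ?_⟩
    change mat D ((a : G D K) * (b : G D K)) *ᵥ eo S K γ = eo S K γ
    rw [mat_mul, ← Matrix.mulVec_mulVec, hb' γ hγ, ha' γ hγ]
  one_mem' := by
    refine ⟨one_mem _, fun γ _ => ?_⟩
    change mat D (1 : G D K) *ᵥ eo S K γ = eo S K γ
    rw [mat_one, Matrix.one_mulVec]
  inv_mem' := by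
    rintro a ⟨ha, ha'⟩
    refine ⟨inv_mem ha, fun γ hγ => ?_⟩
    change mat D ((a : G D K)⁻¹) *ᵥ eo S K γ = eo S K γ
    conv_lhs => rw [← ha' γ hγ]
    rw [Matrix.mulVec_mulVec, ← mat_mul, inv_mul_cancel, mat_one, Matrix.one_mulVec]

theorem ef_inv_mulVec {R : Type*} [CommRing R] (g : G D R) (hg : g ∈ FG S R) (c : Root D) :
    Inv S (fun δ => (mat D g *ᵥ eo S R c) (Sum.inr δ)) := fun δ => ef_fix_mulVec S g hg c δ

/-- the difference vector -/
theorem ef_exists_diff {K : Type*} [Field K] (P P₀ : Finset (Root D)) (hP : PSet S P)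
    (hP₀ : IsReps S P P₀) (g : G D K) (hg : g ∈ FG S K) (hgB : g ∈ BG D K) (c : Root D)
    (hc : c ∈ P) (hne : mat D g *ᵥ eo S K c ≠ eo S K c) :
    ∃ a : Root D → K, (∀ δ, (mat D g *ᵥ eo S K c) (Sum.inr δ) = a δ + efInd S c 1 δ) ∧
      ∃ γ ∈ P₀, a γ ≠ 0 := by
  classical
  refine ⟨fun δ => (mat D g *ᵥ eo S K c) (Sum.inr δ) - efInd S c 1 δ, fun δ => by ring, ?_⟩
  have hinv : Inv S (fun δ => (mat D g *ᵥ eo S K c) (Sum.inr δ) - efInd S c (1 : K) δ) := by
    intro δ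
    have h1 := ef_fix_mulVec S g hg c δ
    have h2 := efInd_inv S c (1 : K) δ
    change (mat D g *ᵥ eo S K c) (Sum.inr (sroot S δ)) - efInd S c (1 : K) (sroot S δ) =
      (mat D g *ᵥ eo S K c) (Sum.inr δ) - efInd S c (1 : K) δ
    rw [h1, h2]
  by_contra hcon
  push Not at hcon
  apply hne
  have hsupp : ∀ i : Idx D, (∀ δ ∈ P, i ≠ Sum.inr δ) → (mat D g *ᵥ eo S K c) i = 0 := by
    intro i hi
    rw [ef_mulVec_eo]
    exact Finset.sum_eq_zero fun β hβ =>
      (NP_BG S P hP g hgB).1 β (ef_orb_subset S P hP c hc hβ) i hi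
  have heo : ∀ δ : Root D, eo S K c (Sum.inr δ) = efInd S c 1 δ := by
    intro δ
    rw [ef_eo_inr]
    by_cases h : δ ∈ orb S c
    · rw [if_pos h, efInd_of_mem S c 1 δ h]
    · rw [if_neg h, efInd_of_notMem S c 1 δ h]
  funext i
  rcases i with i | δ
  · rw [hsupp _ (by intro δ _ h; cases h), ef_eo_inl]
  · rw [heo δ]
    by_cases hδ : δ ∈ P
    · obtain ⟨γ, ⟨hγ₀, hγδ⟩, -⟩ := hP₀.2 δ hδ
      have h1 := hcon γ hγ₀
      have h2 := ef_inv_orb S _ hinv δ γ hγδ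
      rw [h2] at h1
      exact sub_eq_zero.1 h1
    · rw [hsupp _ (by intro δ' hδ' h; exact hδ (by rw [Sum.inr.inj h]; exact hδ'))]
      rw [efInd_of_notMem]
      intro h
      exact hδ (ef_orb_subset S P hP c hc h)

/-- conjugation of the elements of the abelian group by Borel elements -/
theorem ef_conj {L : Type*} [Field L] (P : Finset (Root D)) (hP : PSet S P) (g : G D L)
    (hg : g ∈ BG D L) (c : Root D) (hc : c ∈ P) (t : L) :
    g * yg S c t * g⁻¹ = XA D P (fun δ => t * (mat D g *ᵥ eo S L c) (Sum.inr δ)) := by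
  classical
  rw [ef_yg_eq S P hP c hc t, NP_XA S P hP g (NP_BG S P hP g hg)]
  congr 1
  funext δ
  rw [ef_mulVec_eo, Finset.mul_sum]
  rw [← Finset.sum_subset (ef_orb_subset S P hP c hc)]
  · refine Finset.sum_congr rfl fun β hβ => ?_
    rw [efInd_of_mem S c t β hβ]
  · intro β _ hβ
    rw [efInd_of_notMem S c t β hβ, zero_mul]

theorem ef_mulVec_Gmap {K L : Type*} [Field K] [Field L] (f : K →+* L) (g : G D K) (c : Root D)
    (i : Idx D) : (mat D (Gmap D f g) *ᵥ eo S L c) i = f ((mat D g *ᵥ eo S K c) i) := by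
  rw [ef_mulVec_eo, ef_mulVec_eo, map_sum, mat_Gmap]
  rfl

theorem ef_sum_ind {L : Type*} [Field L] (P P₀ : Finset (Root D)) (hP₀ : IsReps S P P₀)
    (lam : Root D → L) (γ₀ : Root D) (h₀ : γ₀ ∈ P₀) (t : L) :
    ∑ γ ∈ P₀, lam γ * efInd S γ₀ t γ = lam γ₀ * t := by
  classical
  rw [Finset.sum_eq_single γ₀]
  · rw [efInd_of_mem S γ₀ t γ₀ (self_mem_orb S γ₀)]
  · intro γ hγ hne
    rw [efInd_of_notMem, mul_zero]
    intro h
    obtain ⟨γ', -, huniq⟩ := hP₀.2 γ₀ (hP₀.1 h₀)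
    have h1 := huniq γ ⟨hγ, h⟩
    have h2 := huniq γ₀ ⟨h₀, self_mem_orb S γ₀⟩
    exact hne (h1.trans h2.symm)
  · intro h
    exact absurd h₀ h

theorem ef_trace_surj {K L : Type*} [Field K] [Finite K] [Field L] [Finite L] [Algebra K L]
    (z : L) (hz : z ≠ 0) (t₁ : K) : ∃ t : L, Algebra.trace K L (t * z) = t₁ := by
  obtain ⟨s, hs⟩ := Algebra.trace_surjective K L t₁
  exact ⟨s * z⁻¹, by rw [mul_assoc, inv_mul_cancel₀ hz, mul_one, hs]⟩

/-- the key separation property -/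
theorem ef_dist {K L : Type} [Field K] [Finite K] [Field L] [Finite L] [Algebra K L]
    (P P₀ : Finset (Root D)) (hP : PSet S P) (hP₀ : IsReps S P P₀) {E : Type*} [Field E]
    (ψ : AddChar K E) (hψ : ∃ t, ψ t ≠ 1) (lamc : AF S P L →* Eˣ) (lam : Root D → L)
    (h : CharF S P P₀ ψ lamc lam)
    (hdir : ∀ a : Root D → K, (∃ γ ∈ P₀, a γ ≠ 0) →
        ∑ γ ∈ P₀, lam γ * algebraMap K L (a γ) ≠ 0)
    (g : FG S K) (hgB : (g : G D K) ∈ BG D K) (hg : g ∉ efQF S K P) :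
    ∃ (y : FG S L) (hy : y ∈ AF S P L)
      (hy' : Fmap S (algebraMap K L) g * y * (Fmap S (algebraMap K L) g)⁻¹ ∈ AF S P L),
      lamc ⟨_, hy'⟩ ≠ lamc ⟨y, hy⟩ := by
  classical
  have h1 : ∃ c ∈ P, mat D (g : G D K) *ᵥ eo S K c ≠ eo S K c := by
    by_contra hcon
    push Not at hcon
    exact hg ⟨hgB, hcon⟩
  obtain ⟨c, hc, hne⟩ := h1
  obtain ⟨a, ha, hane⟩ := ef_exists_diff (K := K) S P P₀ hP hP₀ (g : G D K) g.2 hgB c hc hne
  have hz := hdir a hane
  obtain ⟨t₁, ht₁⟩ := hψ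
  obtain ⟨t, ht⟩ := ef_trace_surj (K := K) _ hz t₁
  set f := algebraMap K L with hf
  have hyA := yg_mem_AF S P hP L c hc t
  have hconj : ((Fmap S f g * ⟨yg S c t, yg_mem_FG S c t⟩ * (Fmap S f g)⁻¹ : FG S L) : G D L) =
      XA D P (fun δ => t * f ((mat D (g : G D K) *ᵥ eo S K c) (Sum.inr δ))) := by
    have h2 := ef_conj S P hP (Gmap D f g) (ef_Gmap_BG (D := D) f (g : G D K) hgB) c hc t
    have h3 : ((Fmap S f g * ⟨yg S c t, yg_mem_FG S c t⟩ * (Fmap S f g)⁻¹ : FG S L) : G D L) =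
      Gmap D f g * yg S c t * (Gmap D f g)⁻¹ := rfl
    rw [h3, h2]
    congr 1
    funext δ
    rw [ef_mulVec_Gmap]
  have hy' : (Fmap S f g * ⟨yg S c t, yg_mem_FG S c t⟩ * (Fmap S f g)⁻¹ : FG S L) ∈
      AF S P L := by
    rw [AF, Subgroup.mem_subgroupOf, hconj]
    exact ef_XA_mem_AG P _
  refine ⟨_, hyA, hy', ?_⟩
  intro heq
  have hinv : Inv S (fun δ => t * f ((mat D (g : G D K) *ᵥ eo S K c) (Sum.inr δ))) := by
    intro δ
    change t * f ((mat D (g : G D K) *ᵥ eo S K c) (Sum.inr (sroot S δ))) =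
      t * f ((mat D (g : G D K) *ᵥ eo S K c) (Sum.inr δ))
    rw [ef_fix_mulVec S (g : G D K) g.2 c δ]
  have e1 := h _ hy' _ hinv hconj
  have e2 := h _ hyA _ (efInd_inv S c t) (ef_yg_eq S P hP c hc t)
  rw [heq, e2] at e1
  have e3 : ∑ γ ∈ P₀, lam γ * (t * f ((mat D (g : G D K) *ᵥ eo S K c) (Sum.inr γ))) =
      t * ∑ γ ∈ P₀, lam γ * f (a γ) + ∑ γ ∈ P₀, lam γ * efInd S c t γ := by
    rw [Finset.mul_sum, ← Finset.sum_add_distrib]
    refine Finset.sum_congr rfl fun γ _ => ?_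
    rw [ha γ]
    by_cases hγ : γ ∈ orb S c
    · rw [efInd_of_mem S c 1 γ hγ, efInd_of_mem S c t γ hγ, map_add, map_one]
      ring
    · rw [efInd_of_notMem S c 1 γ hγ, efInd_of_notMem S c t γ hγ, add_zero]
      ring
  rw [e3, map_add, AddChar.map_add_eq_mul, ht] at e1
  have e4 : ψ (Algebra.trace K L (∑ γ ∈ P₀, lam γ * efInd S c t γ)) ≠ 0 := by
    rw [← e2]; exact Units.ne_zero _
  apply ht₁
  have e5 : (ψ t₁ - 1) * ψ (Algebra.trace K L (∑ γ ∈ P₀, lam γ * efInd S c t γ)) = 0 := by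
    rw [sub_mul, ← e1]; ring
  rcases mul_eq_zero.1 e5 with e6 | e6
  · exact sub_eq_zero.1 e6
  · exact absurd e6 e4

theorem ef_conj_mem {K L : Type} [Field K] [Field L] [Algebra K L]
    (P : Finset (Root D)) (hP : PSet S P) (g : FG S K) (hgB : (g : G D K) ∈ BG D K)
    (y : FG S L) (hy : y ∈ AF S P L) :
    Fmap S (algebraMap K L) g * y * (Fmap S (algebraMap K L) g)⁻¹ ∈ AF S P L := by
  obtain ⟨a, ha, hya⟩ := AG_inf_FG S P hP (y : G D L) hy y.2
  rw [AF, Subgroup.mem_subgroupOf]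
  have h3 : ((Fmap S (algebraMap K L) g * y * (Fmap S (algebraMap K L) g)⁻¹ : FG S L) : G D L) =
      Gmap D (algebraMap K L) g * y * (Gmap D (algebraMap K L) g)⁻¹ := rfl
  rw [h3, hya, NP_XA S P hP _ (NP_BG S P hP _ (ef_Gmap_BG _ (g : G D K) hgB))]
  exact ef_XA_mem_AG P _

theorem ef_Fmap_injective {K L : Type} [Field K] [Field L] [Algebra K L] :
    Function.Injective (Fmap S (algebraMap K L)) := by
  intro a b h
  apply Subtype.ext
  apply Gmap_injective D (algebraMap K L) (algebraMap K L).injective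
  exact congrArg (fun z : FG S L => (z : G D L)) h

theorem ef_card {K L : Type} [Field K] [Finite K] [Field L] [Algebra K L] (p : ℕ) [Fact p.Prime]
    [CharP K p] (P : Finset (Root D)) (hQU : HasQU S p P) {E : Type*} [Field E]
    (hpE : (p : E) ≠ 0) :
    (Nat.card ((efQF S K P).map (Fmap S (algebraMap K L))) : E) ≠ 0 := by
  have h1 : Nat.card ((efQF S K P).map (Fmap S (algebraMap K L))) = Nat.card (efQF S K P) :=
    Nat.card_congr ((efQF S K P).equivMapOfInjective _ (ef_Fmap_injective S)).symm.toEquiv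
  have h2 : Nat.card ((efQF S K P).map (FG S K).subtype) = Nat.card (efQF S K P) :=
    Nat.card_congr ((efQF S K P).equivMapOfInjective _ (Subgroup.subtype_injective _)).symm.toEquiv
  have h3 : (efQF S K P).map (FG S K).subtype ≤ UG D K := by
    rintro _ ⟨b, hb, rfl⟩
    exact hQU K (b : G D K) hb.1 b.2 hb.2
  obtain ⟨k, hk⟩ := card_UG D (K := K) p
  have h4 := Subgroup.card_dvd_of_le h3
  rw [h2, hk] at h4
  obtain ⟨j, -, hj⟩ := (Nat.dvd_prime_pow (Fact.out : p.Prime)).1 h4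
  rw [h1, hj, Nat.cast_pow]
  exact pow_ne_zero _ hpE

/-- `(B, θ)`-eigenvectors, folded -/
theorem exists_theta_vectorF.{u, v} {K L : Type} [Field K] [Finite K] [Field L] [Finite L]
    [Algebra K L] (p : ℕ) [Fact p.Prime] [CharP K p] [CharP L p] (hL : p ^ 4 ≤ Nat.card L)
    (P P₀ Γ₀ : Finset (Root D)) (hP : PSet S P) (hP₀ : IsReps S P P₀) (hΓ : Γ₀ ⊆ P₀)
    (hext : GoodExtF S P P₀ Γ₀ K L) (hQU : HasQU S p P) (hQ2 : HasQ2.{u, v} S p P P₀)
    (hstart : HasStart.{u, v} S p P Γ₀)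
    {E : Type u} {V : Type v} [Field E] [IsAlgClosed E] (hpE : (p : E) ≠ 0) [AddCommGroup V]
    [Module E V] [FiniteDimensional E V] (ρ : Representation E (FG S L) V)
    (hρ : ∀ β : Root D, ρ (⟨yg S β 1, yg_mem_FG S β 1⟩ : FG S L) ≠ 1)
    (θ : BG D K →* Eˣ) (hθU : ∀ b : BG D K, (b : G D K) ∈ UG D K → θ b = 1) :
    ∃ v : V, v ≠ 0 ∧ ∀ (b : FG S K) (hb : (b : G D K) ∈ BG D K),
      ρ (Fmap S (algebraMap K L) b) v = (θ ⟨b, hb⟩ : E) • v := by
  classical
  obtain ⟨w, lamc, hw0, hw, hnt⟩ := hstart L hL E V ρ hpE hρ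
  obtain ⟨ψ, hψ1, -⟩ := exists_addChar (K := K) (L := L) (E := E) p hpE
  obtain ⟨lam, hlam⟩ := exists_charF S P P₀ hP hP₀ p hpE ψ hψ1 lamc
  have hlam0 : ∀ γ₀ ∈ Γ₀, lam γ₀ ≠ 0 := by
    intro γ₀ hγ₀ h0
    obtain ⟨t, y, hy, hyt, hne⟩ := hnt γ₀ hγ₀
    apply hne
    apply Units.ext
    have h1 := hlam y hy (efInd S γ₀ t) (efInd_inv S γ₀ t)
      (by rw [hyt]; exact ef_yg_eq S P hP γ₀ (hP₀.1 (hΓ hγ₀)) t)
    rw [h1, ef_sum_ind S P P₀ hP₀ lam γ₀ (hΓ hγ₀) t, h0, zero_mul, map_zero,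
      AddChar.map_zero_eq_one]
    rfl
  obtain ⟨g, hg, hNg, hNg', lam', hlam', htr, hnz, hdir⟩ := hext lam hlam0
  obtain ⟨lamc', hchar', hconj⟩ :=
    charF_conj S P P₀ hP hP₀ ψ lamc lam hlam (⟨g, hg⟩ : FG S L) hNg lam' hlam'
  have hw1 : ∀ y : AF S P L, ρ y (ρ (⟨g, hg⟩ : FG S L)⁻¹ w) =
      (lamc' y : E) • (ρ (⟨g, hg⟩ : FG S L)⁻¹ w) := by
    rintro ⟨y, hy⟩
    obtain ⟨hy', he⟩ := hconj y hy
    rw [he]
    have h1 := hw ⟨_, hy'⟩
    rw [← LinearMap.map_smul, ← h1, ← Module.End.mul_apply, ← Module.End.mul_apply, ← map_mul,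
      ← map_mul]
    congr 2
    change y * (⟨g, hg⟩ : FG S L)⁻¹ =
      (⟨g, hg⟩ : FG S L)⁻¹ * ((⟨g, hg⟩ : FG S L) * y * (⟨g, hg⟩ : FG S L)⁻¹)
    group
  have hw10 : ρ (⟨g, hg⟩ : FG S L)⁻¹ w ≠ 0 := by
    intro h0
    apply hw0
    have h1 : ρ (⟨g, hg⟩ : FG S L) (ρ (⟨g, hg⟩ : FG S L)⁻¹ w) = w := by
      rw [← Module.End.mul_apply, ← map_mul, mul_inv_cancel, map_one]; rfl
    rw [← h1, h0, map_zero]
  obtain ⟨w', hw'0, hw', hfix⟩ := hQ2 K L E V ρ hpE ψ hψ1 _ lamc' lam' hw10 hw1 hchar' htr hnz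
  let BF : Subgroup (FG S K) := (BG D K).subgroupOf (FG S K)
  let e := BF.equivMapOfInjective (Fmap S (algebraMap K L)) (ef_Fmap_injective S)
  let θF : BF →* Eˣ := θ.comp
    { toFun := fun b => ⟨((b : FG S K) : G D K), b.2⟩
      map_one' := rfl
      map_mul' := fun _ _ => rfl }
  have hnorm : ∀ b ∈ BF.map (Fmap S (algebraMap K L)), ∀ y ∈ AF S P L,
      b⁻¹ * y * b ∈ AF S P L := by
    rintro _ ⟨b0, hb0, rfl⟩ y hy
    have h1 := ef_conj_mem (L := L) S P hP b0⁻¹ (inv_mem hb0) y hy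
    rw [map_inv, inv_inv] at h1
    exact h1
  have hfin : Finite (BF.map (Fmap S (algebraMap K L))) := Finite.of_equiv BF e.toEquiv
  obtain ⟨v, hv0, hv⟩ := exists_B_eigenvector' ρ (AF S P L) (BF.map (Fmap S (algebraMap K L)))
    ((efQF S K P).map (Fmap S (algebraMap K L))) w' hw'0 lamc' hw'
    (Subgroup.map_mono (fun b hb => hb.1)) hnorm
    (by
      rintro _ ⟨b, hb, rfl⟩
      exact hfix b hb.1 hb.2)
    (ef_card S p P hQU hpE)
    (by
      rintro b ⟨b0, hb0, rfl⟩ hbQ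
      have hb1 : b0⁻¹ ∉ efQF S K P := by
        intro h
        apply hbQ
        exact ⟨b0, by simpa using inv_mem h, rfl⟩
      obtain ⟨y, hy, hy', hne⟩ := ef_dist S P P₀ hP hP₀ ψ hψ1 lamc' lam' hchar' hdir b0⁻¹
        (inv_mem hb0) hb1
      refine ⟨⟨y, hy⟩, ?_⟩
      intro heq
      apply hne
      rw [← heq]
      congr 1)
    (θF.comp e.symm.toMonoidHom)
    (by
      intro b hb
      obtain ⟨q, hq, hqb⟩ := hb
      have h1 : e.symm b = ⟨q, hq.1⟩ := by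
        rw [MulEquiv.symm_apply_eq]
        apply Subtype.ext
        exact hqb.symm
      change θF (e.symm b) = 1
      rw [h1]
      exact hθU ⟨(q : G D K), hq.1⟩ (hQU K (q : G D K) hq.1 q.2 hq.2))
  refine ⟨v, hv0, fun b hb => ?_⟩
  have h1 := hv ⟨Fmap S (algebraMap K L) b, ⟨b, hb, rfl⟩⟩
  have h2 : e.symm ⟨Fmap S (algebraMap K L) b, ⟨b, hb, rfl⟩⟩ = ⟨b, hb⟩ := by
    rw [MulEquiv.symm_apply_eq]
    rfl
  have h3 : (θF.comp e.symm.toMonoidHom) ⟨Fmap S (algebraMap K L) b, ⟨b, hb, rfl⟩⟩ =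
      θ ⟨b, hb⟩ := by
    change θF (e.symm ⟨Fmap S (algebraMap K L) b, ⟨b, hb, rfl⟩⟩) = θ ⟨b, hb⟩
    rw [h2]
    rfl
  rw [h3] at h1
  exact h1

theorem hasStart_single.{u, v} (p : ℕ) (hp0 : p ≠ 0) (P : Finset (Root D)) (hP : PSet S P)
    (γ₀ : Root D) (hγ₀ : γ₀ ∈ P) : HasStart.{u, v} S p P {γ₀} := by
  intro L _ _ _ _ E V _ _ _ _ _ ρ hp hρ
  obtain ⟨hc, he⟩ := AF_comm S P hP L p hp0
  obtain ⟨w, hw0, lam, hw, hl⟩ := exists_A_eigenvector ρ (AF S P L) hc p hp he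
    (⟨yg S γ₀ 1, yg_mem_FG S γ₀ 1⟩ : FG S L) (yg_mem_AF S P hP L γ₀ hγ₀ 1) (hρ γ₀)
  refine ⟨w, lam, hw0, hw, ?_⟩
  intro γ hγ
  rw [Finset.mem_singleton] at hγ
  subst hγ
  exact ⟨1, _, yg_mem_AF S P hP L γ hγ₀ 1, rfl, hl⟩

/-- the combinatorial data when the abelian subgroup is its own centraliser -/
structure EData (p : ℕ) (P P₀ : Finset (Root D)) (γ₀ : Root D) : Prop where
  hP : PSet S P
  hP₀ : IsReps S P P₀
  hγ : γ₀ ∈ P₀
  conn : ∀ γ ∈ P, Relation.ReflTransGen (StepRel S p P) γ γ₀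
  good : ∀ δ : Root D, Pos δ.1 → δ ∉ P → Good S p P δ

theorem f7e_closure {K : Type*} [Field K] (p : ℕ) [CharP K p] (P P₀ : Finset (Root D))
    (γ₀ : Root D) (h : EData S p P P₀ γ₀) (b : G D K) (hb : b ∈ BG D K) (hbF : b ∈ FG S K)
    (hact : ∀ γ ∈ P, mat D b *ᵥ eo S K γ = eo S K γ) :
    b ∈ Subgroup.closure {g : G D K | ∃ a : Root D → K, Inv S a ∧ g = XA D P a} := by
  have hc := centralizerF S p P ∅ h.hP (fun δ hδ => absurd hδ (Finset.notMem_empty δ))
    (fun δ hδ => absurd hδ (Finset.notMem_empty δ)) (fun δ hδ hδP _ => h.good δ hδ hδP)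
    (fun δ hδ => absurd hδ (Finset.notMem_empty δ))
    (fun t χ _ _ _ δ hδ => absurd hδ (Finset.notMem_empty δ)) b hb hbF hact
  refine (Subgroup.closure_mono ?_) hc
  rintro g (hg | ⟨δ, hδ, _⟩)
  · exact hg
  · exact absurd hδ (Finset.notMem_empty δ)

theorem EData.hasQU (p : ℕ) (P P₀ : Finset (Root D)) (γ₀ : Root D) (h : EData S p P P₀ γ₀) :
    HasQU S p P := by
  intro K _ _ b hb hbF hact
  have hc := f7e_closure S p P P₀ γ₀ h b hb hbF hact
  refine (Subgroup.closure_le (UG D K)).2 ?_ hc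
  rintro g ⟨a, _, rfl⟩
  apply Subgroup.list_prod_mem
  intro y hy
  rw [List.mem_map] at hy
  obtain ⟨γ, hγ, rfl⟩ := hy
  exact Subgroup.subset_closure ⟨γ, a γ, h.hP.pos γ (Finset.mem_toList.1 hγ), rfl⟩

theorem f7e_XA_AG {R : Type*} [CommRing R] (P : Finset (Root D)) (a : Root D → R) :
    XA D P a ∈ AG D R P := by
  apply Subgroup.list_prod_mem
  intro y hy
  rw [List.mem_map] at hy
  obtain ⟨γ, hγ, rfl⟩ := hy
  exact Subgroup.subset_closure ⟨γ, a γ, Finset.mem_toList.1 hγ, rfl⟩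

theorem f7e_Gmap_XA {R R' : Type*} [CommRing R] [CommRing R'] (f : R →+* R')
    (P : Finset (Root D)) (a : Root D → R) :
    Gmap D f (XA D P a) = XA D P (fun γ => f (a γ)) := by
  unfold XA
  rw [map_list_prod, List.map_map]
  congr 1
  apply List.map_congr_left
  intro γ _
  exact Gmap_xg D f γ (a γ)

theorem EData.hasQ2.{u, v} (p : ℕ) [Fact p.Prime] (P P₀ : Finset (Root D)) (γ₀ : Root D)
    (h : EData S p P P₀ γ₀) : HasQ2.{u, v} S p P P₀ := by
  intro K L _ _ _ _ _ _ E V _ _ _ _ _ ρ hp ψ hψ w lamc lam hw0 hw hchar htr hlam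
  refine ⟨w, hw0, hw, ?_⟩
  intro b hb hact
  have hc := f7e_closure S p P P₀ γ₀ h (b : G D K) hb b.2 hact
  have hAG : (b : G D K) ∈ AG D K P := by
    refine (Subgroup.closure_le (AG D K P)).2 ?_ hc
    rintro g ⟨a, _, rfl⟩
    exact f7e_XA_AG P a
  obtain ⟨a, ha, hba⟩ := AG_inf_FG S P h.hP (b : G D K) hAG b.2
  set y : FG S L := Fmap S (algebraMap K L) b with hy
  have hyv : (y : G D L) = XA D P (fun γ => algebraMap K L (a γ)) := by
    have : (y : G D L) = Gmap D (algebraMap K L) (b : G D K) := rfl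
    rw [this, hba, f7e_Gmap_XA]
  have hyA : y ∈ AF S P L := by
    unfold AF
    rw [Subgroup.mem_subgroupOf, hyv]
    exact f7e_XA_AG P _
  have hinv : Inv S (fun γ => algebraMap K L (a γ)) := by
    intro β
    simp only [ha β]
  have h1 := hchar y hyA (fun γ => algebraMap K L (a γ)) hinv hyv
  have h2 : Algebra.trace K L (∑ γ ∈ P₀, lam γ * algebraMap K L (a γ)) = 0 := by
    rw [map_sum]
    refine Finset.sum_eq_zero fun γ hγ => ?_
    have : lam γ * algebraMap K L (a γ) = a γ • lam γ := by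
      rw [Algebra.smul_def, mul_comm]
    rw [this, map_smul, htr γ (h.hP₀.1 hγ), smul_zero]
  rw [h2, AddChar.map_zero_eq_one] at h1
  have h3 := hw ⟨y, hyA⟩
  rw [h1, one_smul] at h3
  exact h3

/-- the data in the remaining characteristics: the centraliser is of Heisenberg type -/
structure HData (p : ℕ) (P P₀ Γ₀ Q Q₀ : Finset (Root D)) (ε : Root D)
    (cc : Root D → Root D → ℤ) (star : Root D → Root D) : Prop where
  hP : PSet S P
  hP₀ : IsReps S P P₀
  hΓ : Γ₀ ⊆ P₀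
  hε : ε ∈ P₀
  conn : ∀ γ ∈ P, ∃ γ₀ ∈ Γ₀, Relation.ReflTransGen (StepRel S p P) γ γ₀
  Qpos : ∀ δ ∈ Q, Pos δ.1
  Qstab : ∀ δ ∈ Q, sroot S δ ∈ Q
  good : ∀ δ : Root D, Pos δ.1 → δ ∉ P → δ ∉ Q → Good S p P δ
  Qreps : ∀ δ ∈ Q, ∃ δ' ∈ Q₀, δ' ∈ orb S δ
  Q₀Q : Q₀ ⊆ Q
  Qcomm : ∀ (L : Type) [Field L] [CharP L p], ∀ δ ∈ Q, ∀ γ ∈ P, ∀ s t : L,
    yg S δ s * yg S γ t = yg S γ t * yg S δ s
  Qact : ∀ (L : Type) [Field L] [CharP L p], ∀ δ ∈ Q, ∀ γ ∈ P, ∀ t : L,
    mat D (yg S δ t) *ᵥ eo S L γ = eo S L γ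
  Qtor : ∀ (L : Type) [Field L] [CharP L p] (t : G D L) (χ : Root D → L), t ∈ FG S L →
    Mono D t (AddEquiv.refl _) χ → (∀ γ ∈ P, χ γ = 1) → ∀ δ ∈ Q, χ δ = 1
  heis : ∀ (L : Type) [Field L] [CharP L p], ∀ δ ∈ Q₀, ∀ δ' ∈ Q₀, ∀ s t : L,
    yg S δ s * yg S δ' t = yg S ε ((cc δ δ' : L) * (s * t)) * (yg S δ' t * yg S δ s)
  starQ : ∀ δ ∈ Q₀, star δ ∈ Q₀ ∧ star (star δ) = δ ∧ ¬ (p : ℤ) ∣ cc δ (star δ)
  starU : ∀ δ ∈ Q₀, ∀ δ' ∈ Q₀, ¬ (p : ℤ) ∣ cc δ δ' → δ' = star δ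

theorem XA_mem_UG_aux {R : Type*} [CommRing R] (P : Finset (Root D)) (hpos : ∀ γ ∈ P, Pos γ.1)
    (a : Root D → R) : XA D P a ∈ UG D R := by
  unfold XA
  apply Subgroup.list_prod_mem
  intro g hg
  rw [List.mem_map] at hg
  obtain ⟨γ, hγ, rfl⟩ := hg
  exact Subgroup.subset_closure ⟨γ, a γ, hpos γ (Finset.mem_toList.1 hγ), rfl⟩

theorem HData.hasQU (p : ℕ) (P P₀ Γ₀ Q Q₀ : Finset (Root D)) (ε : Root D)
    (cc : Root D → Root D → ℤ) (star : Root D → Root D)
    (h : HData S p P P₀ Γ₀ Q Q₀ ε cc star) : HasQU S p P := by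
  intro K _ _ b hb hbF hact
  have h1 := centralizerF S p P Q h.hP h.Qpos h.Qstab h.good (h.Qact K) (h.Qtor K) b hb hbF hact
  have h2 : Subgroup.closure ({g : G D K | ∃ a : Root D → K, Inv S a ∧ g = XA D P a} ∪
      {g | ∃ δ ∈ Q, ∃ t : K, g = yg S δ t}) ≤ UG D K := by
    rw [Subgroup.closure_le]
    rintro g (⟨a, _, rfl⟩ | ⟨δ, hδ, t, rfl⟩)
    · exact XA_mem_UG_aux P h.hP.pos a
    · unfold yg
      exact XA_mem_UG_aux _ (fun γ hγ => (orb_pos S δ γ hγ).2 (h.Qpos δ hδ)) _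
  exact h2 h1

theorem prod_single_aux {α G : Type*} [Monoid G] (f : α → G) (l : List α) (hl : l.Nodup) (e : α)
    (he : e ∈ l) (h1 : ∀ x ∈ l, x ≠ e → f x = 1) : (l.map f).prod = f e := by
  induction l with
  | nil => exact absurd he List.not_mem_nil
  | cons a l ih =>
    rw [List.map_cons, List.prod_cons]
    rw [List.nodup_cons] at hl
    by_cases hae : a = e
    · have h2 : (l.map f).prod = 1 := by
        apply List.prod_eq_one
        intro x hx
        rw [List.mem_map] at hx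
        obtain ⟨y, hy, rfl⟩ := hx
        apply h1 y (List.mem_cons_of_mem a hy)
        rintro rfl
        rw [hae] at hl
        exact hl.1 hy
      rw [h2, mul_one, hae]
    · have he' : e ∈ l := by
        rcases List.mem_cons.1 he with h | h
        · exact absurd h.symm hae
        · exact h
      rw [h1 a List.mem_cons_self hae, one_mul]
      exact ih hl.2 he' (fun x hx hne => h1 x (List.mem_cons_of_mem a hx) hne)

theorem Gmap_XA_aux {R R' : Type*} [CommRing R] [CommRing R'] (f : R →+* R')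
    (P : Finset (Root D)) (a : Root D → R) :
    Gmap D f (XA D P a) = XA D P (fun γ => f (a γ)) := by
  unfold XA
  rw [map_list_prod, List.map_map]
  congr 1
  apply List.map_congr_left
  intro γ _
  exact Gmap_xg D f γ (a γ)

theorem HData.hasQ2.{u, v} (p : ℕ) [Fact p.Prime] (P P₀ Γ₀ Q Q₀ : Finset (Root D)) (ε : Root D)
    (cc : Root D → Root D → ℤ) (star : Root D → Root D)
    (h : HData S p P P₀ Γ₀ Q Q₀ ε cc star) : HasQ2.{u, v} S p P P₀ := by
  classical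
  intro K L _ _ _ _ _ _ E V _ _ _ _ _ ρ hp ψ hψ w lamc lam hw0 hw hchar htr hne
  haveI hL : CharP L p := charP_of_injective_algebraMap (algebraMap K L).injective p
  have hεP : ε ∈ P := h.hP₀.1 h.hε
  have hψ0 : ψ 0 = 1 := AddChar.map_zero_eq_one ψ
  -- the permutation
  have hss : ∀ δ : {δ // δ ∈ Q₀}, star δ.1 ∈ Q₀ := fun δ => (h.starQ δ.1 δ.2).1
  let st : Equiv.Perm {δ // δ ∈ Q₀} :=
    { toFun := fun δ => ⟨star δ.1, hss δ⟩
      invFun := fun δ => ⟨star δ.1, hss δ⟩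
      left_inv := fun δ => Subtype.ext (h.starQ δ.1 δ.2).2.1
      right_inv := fun δ => Subtype.ext (h.starQ δ.1 δ.2).2.1 }
  have hdvd : ∀ z : ℤ, ((z : ℤ) : K) = 0 ↔ (p : ℤ) ∣ z := fun z => CharP.intCast_eq_zero_iff K p z
  have hadd : ∀ (i : {δ // δ ∈ Q₀}) (s t : L),
      (⟨yg S i.1 (s + t), yg_mem_FG S i.1 (s + t)⟩ : FG S L) =
        ⟨yg S i.1 s, yg_mem_FG S i.1 s⟩ * ⟨yg S i.1 t, yg_mem_FG S i.1 t⟩ := fun i s t =>
    Subtype.ext (yg_add S i.1 s t)
  have hyA : ∀ a ∈ AF S P L, ∀ (i : {δ // δ ∈ Q₀}) (s : L),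
      a * ⟨yg S i.1 s, yg_mem_FG S i.1 s⟩ = ⟨yg S i.1 s, yg_mem_FG S i.1 s⟩ * a := by
    intro a ha i s
    have ha' : (a : G D L) ∈ AG D L P := ha
    obtain ⟨a', hinv, haa⟩ := AG_inf_FG (K := L) S P h.hP (a : G D L) ha' a.2
    apply Subtype.ext
    show (a : G D L) * yg S i.1 s = yg S i.1 s * (a : G D L)
    rw [haa, XA_eq_reps S P P₀ h.hP h.hP₀ a' hinv]
    have hc : Commute (yg S i.1 s) (P₀.toList.map fun γ => yg S γ (a' γ)).prod := by
      apply Commute.list_prod_right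
      intro x hx
      rw [List.mem_map] at hx
      obtain ⟨γ, hγ, rfl⟩ := hx
      exact h.Qcomm L i.1 (h.Q₀Q i.2) γ (h.hP₀.1 (Finset.mem_toList.1 hγ)) s (a' γ)
    exact hc.eq.symm
  have hcomm : ∀ (i j : {δ // δ ∈ Q₀}) (s t : L),
      (⟨yg S i.1 s, yg_mem_FG S i.1 s⟩ : FG S L) * ⟨yg S j.1 t, yg_mem_FG S j.1 t⟩ =
      (⟨yg S ε (algebraMap K L ((cc i.1 j.1 : ℤ) : K) * (s * t)), yg_mem_FG S ε _⟩ : FG S L) *
        (⟨yg S j.1 t, yg_mem_FG S j.1 t⟩ * ⟨yg S i.1 s, yg_mem_FG S i.1 s⟩) := by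
    intro i j s t
    apply Subtype.ext
    show yg S i.1 s * yg S j.1 t = yg S ε (algebraMap K L ((cc i.1 j.1 : ℤ) : K) * (s * t)) *
      (yg S j.1 t * yg S i.1 s)
    rw [map_intCast]
    exact h.heis L i.1 i.2 j.1 j.2 s t
  have hlam : ∀ s : L, (lamc ⟨⟨yg S ε s, yg_mem_FG S ε s⟩, yg_mem_AF S P h.hP L ε hεP s⟩ : E) =
      ψ (Algebra.trace K L (lam ε * s)) := by
    intro s
    let a : Root D → L := fun β => if β ∈ orb S ε then s else 0
    have hinv : Inv S a := by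
      intro β
      show (if sroot S β ∈ orb S ε then s else 0) = (if β ∈ orb S ε then s else 0)
      have hiff : sroot S β ∈ orb S ε ↔ β ∈ orb S ε := by
        have e1 := orb_eq S β (sroot S β) (sroot_mem_orb S β)
        constructor
        · intro hβ
          have e2 := orb_eq S ε (sroot S β) hβ
          rw [← e2, e1]
          exact self_mem_orb S β
        · intro hβ
          have e2 := orb_eq S ε β hβ
          rw [← e2]
          exact sroot_mem_orb S β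
      simp only [hiff]
    have hone : ∀ γ ∈ P₀, γ ≠ ε → γ ∉ orb S ε := by
      intro γ hγ hne' hmem
      obtain ⟨γ', hγ', huni⟩ := h.hP₀.2 ε hεP
      have e1 := huni γ ⟨hγ, hmem⟩
      have e2 := huni ε ⟨h.hε, self_mem_orb S ε⟩
      exact hne' (e1.trans e2.symm)
    have hXA : yg S ε s = XA D P a := by
      rw [XA_eq_reps S P P₀ h.hP h.hP₀ a hinv,
        prod_single_aux (fun γ => yg S γ (a γ)) P₀.toList (Finset.nodup_toList P₀) ε
          (Finset.mem_toList.2 h.hε) (by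
            intro γ hγ hne'
            show yg S γ (if γ ∈ orb S ε then s else 0) = 1
            rw [if_neg (hone γ (Finset.mem_toList.1 hγ) hne'), yg_zero])]
      show yg S ε s = yg S ε (if ε ∈ orb S ε then s else 0)
      rw [if_pos (self_mem_orb S ε)]
    rw [hchar ⟨yg S ε s, yg_mem_FG S ε s⟩ (yg_mem_AF S P h.hP L ε hεP s) a hinv hXA]
    congr 2
    rw [Finset.sum_eq_single ε]
    · show lam ε * (if ε ∈ orb S ε then s else 0) = _
      rw [if_pos (self_mem_orb S ε)]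
    · intro γ hγ hne'
      show lam γ * (if γ ∈ orb S ε then s else 0) = 0
      rw [if_neg (hone γ hγ hne'), mul_zero]
    · intro hε
      exact absurd h.hε hε
  obtain ⟨w', hw'0, hw', hfix⟩ := heis_fixed p hp ρ (AF S P L) lamc w hw0 hw
    (fun (i : {δ // δ ∈ Q₀}) (s : L) => (⟨yg S i.1 s, yg_mem_FG S i.1 s⟩ : FG S L))
    hadd hyA (fun s => ⟨⟨yg S ε s, yg_mem_FG S ε s⟩, yg_mem_AF S P h.hP L ε hεP s⟩)
    (fun i j => ((cc i.1 j.1 : ℤ) : K)) hcomm ψ hψ (lam ε) (hne ε hεP) (htr ε hεP) hlam st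
    (by
      intro i j hij
      apply Subtype.ext
      refine h.starU j.1 j.2 i.1 i.2 (fun hd => hij ?_)
      exact (hdvd _).2 hd)
    (by
      intro j hj
      exact (h.starQ j.1 j.2).2.2 ((hdvd _).1 hj))
  refine ⟨w', hw'0, hw', ?_⟩
  intro b hb hact
  have h1 := centralizerF S p P Q h.hP h.Qpos h.Qstab h.good (h.Qact K) (h.Qtor K) (b : G D K) hb
    b.2 hact
  have h2 : ∃ hg : (b : G D K) ∈ FG S K,
      ρ (Fmap S (algebraMap K L) ⟨(b : G D K), hg⟩) w' = w' := by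
    refine Subgroup.closure_induction (p := fun g _ => ∃ hg : g ∈ FG S K,
      ρ (Fmap S (algebraMap K L) ⟨g, hg⟩) w' = w') ?_ ?_ ?_ ?_ h1
    · rintro g (⟨a, ha, rfl⟩ | ⟨δ, hδ, t, rfl⟩)
      · refine ⟨XA_mem_FG S P h.hP a ha, ?_⟩
        have hinv : Inv S (fun γ => algebraMap K L (a γ)) := fun β => congrArg _ (ha β)
        have e1 : Fmap S (algebraMap K L) ⟨XA D P a, XA_mem_FG S P h.hP a ha⟩ =
            ⟨XA D P (fun γ => algebraMap K L (a γ)), XA_mem_FG S P h.hP _ hinv⟩ :=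
          Subtype.ext (Gmap_XA_aux (algebraMap K L) P a)
        rw [e1]
        have e2 := hw' ⟨⟨XA D P (fun γ => algebraMap K L (a γ)), XA_mem_FG S P h.hP _ hinv⟩,
          XA_mem_AF S P h.hP L _ hinv⟩
        have e3 := hchar ⟨XA D P (fun γ => algebraMap K L (a γ)), XA_mem_FG S P h.hP _ hinv⟩
          (XA_mem_AF S P h.hP L _ hinv) _ hinv rfl
        have e4 : Algebra.trace K L (∑ γ ∈ P₀, lam γ * algebraMap K L (a γ)) = 0 := by
          rw [map_sum]
          apply Finset.sum_eq_zero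
          intro γ hγ
          rw [mul_comm, ← Algebra.smul_def, map_smul, htr γ (h.hP₀.1 hγ), smul_zero]
        rw [e4, hψ0] at e3
        rw [e3, one_smul] at e2
        exact e2
      · refine ⟨yg_mem_FG S δ t, ?_⟩
        obtain ⟨δ', hδ', hδo⟩ := h.Qreps δ hδ
        have e1 : Fmap S (algebraMap K L) ⟨yg S δ t, yg_mem_FG S δ t⟩ =
            ⟨yg S δ' (algebraMap K L t), yg_mem_FG S δ' _⟩ := by
          apply Subtype.ext
          show Gmap D (algebraMap K L) (yg S δ t) = yg S δ' (algebraMap K L t)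
          rw [← yg_congr S δ δ' hδo, Gmap_yg]
        rw [e1]
        exact hfix ⟨δ', hδ'⟩ t
    · refine ⟨one_mem _, ?_⟩
      have e1 : (⟨(1 : G D K), one_mem _⟩ : FG S K) = 1 := rfl
      rw [e1, map_one, map_one]
      rfl
    · rintro g g' _ _ ⟨hg, e1⟩ ⟨hg', e2⟩
      refine ⟨mul_mem hg hg', ?_⟩
      have e3 : (⟨g * g', mul_mem hg hg'⟩ : FG S K) = ⟨g, hg⟩ * ⟨g', hg'⟩ := rfl
      rw [e3, map_mul, map_mul, Module.End.mul_apply, e2, e1]
    · rintro g _ ⟨hg, e1⟩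
      refine ⟨inv_mem hg, ?_⟩
      have e3 : (⟨g⁻¹, inv_mem hg⟩ : FG S K) = ⟨g, hg⟩⁻¹ := rfl
      rw [e3, map_inv]
      have e4 : ρ (Fmap S (algebraMap K L) ⟨g, hg⟩)⁻¹ (ρ (Fmap S (algebraMap K L) ⟨g, hg⟩) w') =
          w' := by
        rw [← Module.End.mul_apply, ← map_mul, inv_mul_cancel, map_one]
        rfl
      rw [e1] at e4
      exact e4
  obtain ⟨hg, h3⟩ := h2
  exact h3

open scoped TensorProduct in
/-- base change of a representation -/
noncomputable def cfGoodF_rE {F H V : Type*} (E : Type*) [Field F] [Field E] [Algebra F E]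
    [Group H] [AddCommGroup V] [Module F V] (ρ : Representation F H V) :
    Representation E H (E ⊗[F] V) where
  toFun g := (ρ g).baseChange E
  map_one' := by
    rw [map_one]
    exact LinearMap.baseChange_id
  map_mul' := by
    intro a b
    rw [map_mul]
    exact LinearMap.baseChange_comp (ρ b) (ρ a)

theorem cfGoodF_ne {F : Type*} [Field F] (r₁ r₂ : ℕ) (hr₁ : r₁.Prime) (hr₂ : r₂.Prime)
    (hne : r₁ ≠ r₂) (h : (r₁ : F) = 0) : (r₂ : F) ≠ 0 := by
  intro h2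
  have hco : Nat.Coprime r₁ r₂ := (Nat.coprime_primes hr₁ hr₂).2 hne
  obtain ⟨u, v, huv⟩ := Nat.isCoprime_iff_coprime.2 hco
  have h3 := congrArg (Int.cast : ℤ → F) huv
  push_cast at h3
  rw [h, h2, mul_zero, mul_zero, add_zero] at h3
  exact zero_ne_one h3

/-- from good extensions to composition factors, folded -/
theorem compFactor_of_goodF.{u, v, w} {K M L : Type} [Field K] [Finite K] [Field M] [Fintype M]
    [Field L] [Finite L] [Algebra K M] [Algebra M L] [Algebra K L] [IsScalarTower K M L]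
    (p : ℕ) [Fact p.Prime] [CharP K p] [CharP M p] [CharP L p] [IsSimpleGroup (FG S K)]
    (hL : p ^ 4 ≤ Nat.card L) (α₀ : Root D) (h₀ : IsHighest D α₀)
    (P P₀ Γ₀ : Finset (Root D)) (hP : PSet S P) (hP₀ : IsReps S P P₀) (hΓ : Γ₀ ⊆ P₀)
    (hext : GoodExtF S P P₀ Γ₀ M L) (hQU : HasQU S p P)
    (hQ2 : HasQ2.{u, max u v} S p P P₀) (hstart : HasStart.{u, max u v} S p P Γ₀)
    (x : G D M) (hxF : x ∈ FG S M) (hx : ∀ h ∈ FG S K, h ≠ 1 → ∀ c : M,
        mat D (x⁻¹ * Gmap D (algebraMap K M) h * x) *ᵥ ev D M α₀ ≠ c • ev D M α₀)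
    (ν : Fin l → ℤ) (d : ℕ) (hd : 1 ≤ d) (hν : ∀ x : Fin l → ℤ, bil D ν x = d * ht x)
    (N : ℕ) (hN : ∀ w : (Fin l → ℤ) ≃+ (Fin l → ℤ),
      (∀ x y, bil D (w x) (w y) = bil D x y) → ∀ γ : Root D,
      (bil D (∑ β ∈ orb S γ, β.1) (w ν - ν)).natAbs < N)
    (r₁ r₂ : ℕ) (hr₁ : r₁.Prime) (hr₂ : r₂.Prime) (hne : r₁ ≠ r₂) (hN₁ : N ≤ r₁) (hN₂ : N ≤ r₂)
    (hd₁ : r₁ ∣ Fintype.card M - 1) (hd₂ : r₂ ∣ Fintype.card M - 1)
    {F : Type u} {V : Type v} {W : Type w} [Field F] [AddCommGroup V] [Module F V]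
    [FiniteDimensional F V] [AddCommGroup W] [Module F W] (hpF : (p : F) ≠ 0)
    (ρ : Representation F (FG S L) V) (hirr : ρ.IsIrreducible) (hdim : 1 < Module.finrank F V)
    (τ : Representation F (FG S K) W) (hτ : τ.IsIrreducible) :
    IsCompFactor τ (ρ.comp (Fmap S (algebraMap K L))) := by
  classical
  obtain ⟨r, hr, hNr, hdr, hrF⟩ : ∃ r : ℕ, r.Prime ∧ N ≤ r ∧ r ∣ Fintype.card M - 1 ∧
      (r : F) ≠ 0 := by
    by_cases h : (r₁ : F) = 0
    · exact ⟨r₂, hr₂, hN₂, hd₂, cfGoodF_ne r₁ r₂ hr₁ hr₂ hne h⟩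
    · exact ⟨r₁, hr₁, hN₁, hd₁, h⟩
  have : Fact r.Prime := ⟨hr⟩
  have hcast : ∀ n : ℕ, (n : F) ≠ 0 → (n : AlgebraicClosure F) ≠ 0 := by
    intro n hn h
    apply hn
    apply (algebraMap F (AlgebraicClosure F)).injective
    rw [map_natCast, map_zero]
    exact h
  obtain ⟨θ, hθU, hθreg⟩ := exists_regularF S (K := M) (E := AlgebraicClosure F) ν d hd hν N hN r
    hNr hdr (hcast r hrF)
  have hρE : ∀ β : Root D,
      cfGoodF_rE (AlgebraicClosure F) ρ (⟨yg S β 1, yg_mem_FG S β 1⟩ : FG S L) ≠ 1 := by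
    intro β h
    apply nontrivialF S (K := K) ρ hirr hdim β
    apply LinearMap.ext
    intro v
    have h1 := LinearMap.congr_fun h (TensorProduct.tmul F (1 : AlgebraicClosure F) v)
    have h2 : cfGoodF_rE (AlgebraicClosure F) ρ (⟨yg S β 1, yg_mem_FG S β 1⟩ : FG S L)
        (TensorProduct.tmul F (1 : AlgebraicClosure F) v) =
        TensorProduct.tmul F (1 : AlgebraicClosure F)
          (ρ (⟨yg S β 1, yg_mem_FG S β 1⟩ : FG S L) v) := LinearMap.baseChange_tmul _ _ _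
    rw [h2] at h1
    exact Module.FaithfullyFlat.tensorProduct_mk_injective (A := F) (B := AlgebraicClosure F) V h1
  obtain ⟨v, hv0, hv⟩ := exists_theta_vectorF S (K := M) (L := L) p hL P P₀ Γ₀ hP hP₀ hΓ hext hQU
    hQ2 hstart (hcast p hpF) (cfGoodF_rE (AlgebraicClosure F) ρ) hρE θ hθU
  obtain ⟨v', hv'⟩ := free_orbitF S p α₀ h₀ x hxF hx (hcast p hpF)
    (cfGoodF_rE (AlgebraicClosure F) ρ) θ hθU hθreg v hv0 hv
  exact compFactor_of_faithful τ (ρ.comp (Fmap S (algebraMap K L))) hτ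
    (fun a ha => faithful_of_baseChange (ρ.comp (Fmap S (algebraMap K L))) v' hv' a ha)

/-- the conclusion of the main theorem, for a folded group -/
def Conclusion.{u, v, w} {l : ℕ} {D : SLCartan l} (S : Folding D) (K : Type) [Field K] : Prop :=
  ∃ m : ℕ, 1 ≤ m ∧ ∀ (L : Type) [Field L] [Algebra K L], Module.finrank K L = m →
    ∀ (F : Type u) (V : Type v) (W : Type w) [Field F] [AddCommGroup V] [Module F V]
      [FiniteDimensional F V] [AddCommGroup W] [Module F W],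
      (∀ p : ℕ, p.Prime → CharP K p → (p : F) ≠ 0) →
    ∀ (ρ : Representation F (FG S L) V), ρ.IsIrreducible → 1 < Module.finrank F V →
    ∀ (τ : Representation F (FG S K) W), τ.IsIrreducible →
      IsCompFactor τ (ρ.comp (Fmap S (algebraMap K L)))

/-- the main theorem from the data -/
theorem mainF.{u, v, w} (hl : 0 < l) (p : ℕ) [Fact p.Prime]
    (P P₀ Γ₀ : Finset (Root D)) (hP : PSet S P) (hP₀ : IsReps S P P₀) (hΓ : Γ₀ ⊆ P₀)
    (hconn : ∀ γ ∈ P, ∃ γ₀ ∈ Γ₀, Relation.ReflTransGen (StepRel S p P) γ γ₀)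
    (hQU : HasQU S p P) (hQ2 : HasQ2.{u, max u v} S p P P₀)
    (hstart : HasStart.{u, max u v} S p P Γ₀)
    (K : Type) [Field K] [Finite K] [CharP K p] [IsSimpleGroup (FG S K)] :
    Conclusion.{u, v, w} S K := by
  classical
  unfold Conclusion
  have hp : p.Prime := Fact.out
  obtain ⟨α₀, hpos, hhigh⟩ := exists_highest D hl
  have h₀ : IsHighest D α₀ := ⟨hpos, hhigh⟩
  obtain ⟨ν, d, hd, hν⟩ := exists_rho D
  obtain ⟨N, hN⟩ := exists_boundF S ν
  obtain ⟨r₁, r₂, hr₁, hr₂, hne, hN₁, hN₂, hdiv⟩ := exists_primes (Nat.card K) N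
    Finite.one_lt_card
  obtain ⟨N1, hN1⟩ := exists_generic_xF S (K := K) α₀ h₀
  set a : ℕ := (r₁ - 1) * (r₂ - 1) * (N1 + 1) with ha
  have hc0 : 0 < (r₁ - 1) * (r₂ - 1) :=
    Nat.mul_pos (Nat.sub_pos_of_lt hr₁.one_lt) (Nat.sub_pos_of_lt hr₂.one_lt)
  have ha0 : 0 < a := Nat.mul_pos hc0 (Nat.succ_pos _)
  have haN : N1 ≤ a := by
    calc N1 ≤ 1 * (N1 + 1) := by omega
      _ ≤ a := Nat.mul_le_mul_right _ hc0
  haveI : NeZero a := ⟨ha0.ne'⟩
  letI : Fintype (FiniteField.Extension K p a) := Fintype.ofFinite _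
  haveI : CharP (FiniteField.Extension K p a) p :=
    charP_of_injective_algebraMap (algebraMap K (FiniteField.Extension K p a)).injective p
  obtain ⟨N2, hN2⟩ := exists_goodExtF S (K := FiniteField.Extension K p a) p P P₀ Γ₀ hP hP₀ hΓ
    hconn
  refine ⟨a * (N2 + 4), Nat.mul_pos ha0 (Nat.succ_pos _), ?_⟩
  intro L _ _ hfin F V W _ _ _ _ _ _ hpF ρ hirr hdim τ hτ
  haveI : Module.Finite K L := Module.finite_of_finrank_pos
    (by rw [hfin]; exact Nat.mul_pos ha0 (Nat.succ_pos _))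
  haveI : Finite L := Module.finite_of_finite K
  haveI : CharP L p := charP_of_injective_algebraMap (algebraMap K L).injective p
  have hK0 : Module.finrank K (FiniteField.Extension K p a) = a :=
    FiniteField.finrank_extension K p a
  obtain ⟨f⟩ := FiniteField.nonempty_algHom_of_finrank_dvd (F := K)
    (K := FiniteField.Extension K p a) (L := L) (by rw [hK0, hfin]; exact Dvd.intro _ rfl)
  letI : Algebra (FiniteField.Extension K p a) L := f.toRingHom.toAlgebra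
  haveI : IsScalarTower K (FiniteField.Extension K p a) L :=
    IsScalarTower.of_algebraMap_eq fun x => (f.commutes x).symm
  have hML : Module.finrank (FiniteField.Extension K p a) L = N2 + 4 := by
    have h1 := Module.finrank_mul_finrank K (FiniteField.Extension K p a) L
    rw [hK0, hfin] at h1
    exact Nat.eq_of_mul_eq_mul_left ha0 h1
  obtain ⟨x, hxF, hx⟩ := hN1 (FiniteField.Extension K p a) (by rw [hK0]; exact haN)
  have hext := hN2 L (by rw [hML]; omega)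
  have hcard : Fintype.card (FiniteField.Extension K p a) = Nat.card K ^ a := by
    rw [Fintype.card_eq_nat_card, FiniteField.natCard_extension]
  obtain ⟨d1, d2⟩ := hdiv a (Dvd.intro _ rfl)
  have hpK : p ≤ Nat.card K := by
    letI : Fintype K := Fintype.ofFinite K
    obtain ⟨n, hn1, hn2⟩ := FiniteField.card K p
    rw [Nat.card_eq_fintype_card, hn2]
    exact Nat.le_self_pow n.pos.ne' p
  have hL : p ^ 4 ≤ Nat.card L := by
    rw [Module.natCard_eq_pow_finrank (K := K), hfin]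
    calc p ^ 4 ≤ Nat.card K ^ 4 := Nat.pow_le_pow_left hpK 4
      _ ≤ Nat.card K ^ (a * (N2 + 4)) := by
        apply Nat.pow_le_pow_right (lt_of_lt_of_le hp.pos hpK)
        calc 4 ≤ 1 * (N2 + 4) := by omega
          _ ≤ a * (N2 + 4) := Nat.mul_le_mul_right _ ha0
  exact compFactor_of_goodF S p hL α₀ h₀ P P₀ Γ₀ hP hP₀ hΓ hext hQU hQ2 hstart x hxF hx ν d hd hν
    N hN r₁ r₂ hr₁ hr₂ hne hN₁.le hN₂.le
    (by rw [hcard]; exact d1) (by rw [hcard]; exact d2) (hpF p hp inferInstance) ρ hirr hdim τ hτ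

end Pool.Agent.Helper255.CF
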