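import Pool.Agent.Helper255.CF.Lat

set_option autoImplicit false

namespace Pool.Agent.Helper255.CF

open Matrix

variable {l : ℕ} (D : SLCartan l)

/-! matrix lemmas -/

theorem EF_ne_neg (α : Root D) : ¬ (α.1 = -α.1) := by
  intro h
  have h1 := α.2
  have h2 : bil D α.1 α.1 = bil D α.1 (-α.1) := by rw [← h]
  rw [bil_neg_right] at h2
  omega

theorem EF_two (α β : Root D) : ¬ (β.1 = α.1 + α.1) := by
  intro h
  have h1 := α.2
  have h2 := β.2
  rw [h, bil_add_left, bil_add_right] at h2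
  omega

theorem EF_neg_two (α β : Root D) : ¬ (-α.1 = α.1 + β.1) := by
  intro h
  have h1 := α.2
  have h2 := β.2
  have h3 : β.1 = -α.1 - α.1 := by rw [h]; abel
  rw [h3] at h2
  simp only [bil_sub_left, bil_sub_right, bil_neg_left, bil_neg_right] at h2
  omega

theorem EF_add (α β γ δ : Root D) (h1 : β.1 = α.1 + γ.1) (h2 : γ.1 = α.1 + δ.1) : False := by
  have ha := α.2
  have hb := β.2
  have hc := γ.2
  have hd := δ.2
  rw [h1, h2] at hb
  rw [h2] at hc
  simp only [bil_add_left, bil_add_right] at hb hc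
  have hcm := bil_comm D α.1 δ.1
  omega

theorem E_ll (α : Root D) (i j : Fin l) : E D α (Sum.inl i) (Sum.inl j) = 0 := rfl
theorem E_rl (α β : Root D) (j : Fin l) : E D α (Sum.inr β) (Sum.inl j) =
    if β = α then - bil D α.1 (Pi.single j 1) else 0 := rfl
theorem E_lr (α γ : Root D) (i : Fin l) : E D α (Sum.inl i) (Sum.inr γ) =
    if γ.1 = -α.1 then - α.1 i else 0 := rfl
theorem E_rr (α β γ : Root D) : E D α (Sum.inr β) (Sum.inr γ) =
    if β.1 = α.1 + γ.1 then sgn D α.1 γ.1 else 0 := rfl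
theorem F_l (α : Root D) (i : Fin l) (x : Idx D) : F D α (Sum.inl i) x = 0 := by
  cases x <;> rfl
theorem F_xl (α : Root D) (x : Idx D) (i : Fin l) : F D α x (Sum.inl i) = 0 := by
  cases x <;> rfl
theorem F_rr (α β γ : Root D) : F D α (Sum.inr β) (Sum.inr γ) =
    if β = α ∧ γ.1 = -α.1 then 1 else 0 := rfl

theorem EF_bil_sum' (x y : Fin l → ℤ) :
    ∑ k : Fin l, (- bil D x (Pi.single k 1)) * (- y k) = bil D x y := by
  have h1 : bil D x y = bil D x (∑ j, y j • (Pi.single j (1 : ℤ) : Fin l → ℤ)) := by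
    rw [← eq_sum_single y]
  rw [h1, bil_sum_right]
  exact Finset.sum_congr rfl fun k _ => by rw [bil_smul_right]; ring

theorem EF_bil_sum (α : Root D) :
    ∑ k : Fin l, (- bil D α.1 (Pi.single k 1)) * (- α.1 k) = 2 :=
  (EF_bil_sum' D α.1 α.1).trans α.2

theorem E_mul_E (α : Root D) : E D α * E D α = 2 • F D α := by
  ext x y
  rw [Matrix.mul_apply, Fintype.sum_sum_type, Matrix.smul_apply]
  rcases x with i | β <;> rcases y with j | δ
  · rw [F_l, smul_zero]
    have h1 : ∑ k : Fin l, E D α (Sum.inl i) (Sum.inl k) * E D α (Sum.inl k) (Sum.inl j) = 0 :=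
      Finset.sum_eq_zero fun k _ => by rw [E_ll, zero_mul]
    have h2 : ∑ γ : Root D, E D α (Sum.inl i) (Sum.inr γ) * E D α (Sum.inr γ) (Sum.inl j) = 0 := by
      refine Finset.sum_eq_zero fun γ _ => ?_
      rw [E_lr, E_rl]
      by_cases h1 : γ.1 = -α.1
      · by_cases h2 : γ = α
        · subst h2; exact absurd h1 (EF_ne_neg D γ)
        · rw [if_neg h2, mul_zero]
      · rw [if_neg h1, zero_mul]
    rw [h1, h2, add_zero]
  · rw [F_l, smul_zero]
    have h1 : ∑ k : Fin l, E D α (Sum.inl i) (Sum.inl k) * E D α (Sum.inl k) (Sum.inr δ) = 0 :=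
      Finset.sum_eq_zero fun k _ => by rw [E_ll, zero_mul]
    have h2 : ∑ γ : Root D, E D α (Sum.inl i) (Sum.inr γ) * E D α (Sum.inr γ) (Sum.inr δ) = 0 := by
      refine Finset.sum_eq_zero fun γ _ => ?_
      rw [E_lr, E_rr]
      by_cases h1 : γ.1 = -α.1
      · by_cases h2 : γ.1 = α.1 + δ.1
        · exact absurd (h1.symm.trans h2) (EF_neg_two D α δ)
        · rw [if_neg h2, mul_zero]
      · rw [if_neg h1, zero_mul]
    rw [h1, h2, add_zero]
  · rw [F_xl, smul_zero]
    have h1 : ∑ k : Fin l, E D α (Sum.inr β) (Sum.inl k) * E D α (Sum.inl k) (Sum.inl j) = 0 :=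
      Finset.sum_eq_zero fun k _ => by rw [E_ll, mul_zero]
    have h2 : ∑ γ : Root D, E D α (Sum.inr β) (Sum.inr γ) * E D α (Sum.inr γ) (Sum.inl j) = 0 := by
      refine Finset.sum_eq_zero fun γ _ => ?_
      rw [E_rr, E_rl]
      by_cases h2 : γ = α
      · subst h2
        rw [if_neg (EF_two D γ β), zero_mul]
      · rw [if_neg h2, mul_zero]
    rw [h1, h2, add_zero]
  · have h2 : ∑ γ : Root D, E D α (Sum.inr β) (Sum.inr γ) * E D α (Sum.inr γ) (Sum.inr δ) = 0 := by
      refine Finset.sum_eq_zero fun γ _ => ?_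
      rw [E_rr, E_rr]
      by_cases h1 : β.1 = α.1 + γ.1
      · by_cases h2 : γ.1 = α.1 + δ.1
        · exact (EF_add D α β γ δ h1 h2).elim
        · rw [if_neg h2, mul_zero]
      · rw [if_neg h1, zero_mul]
    rw [h2, add_zero, F_rr]
    by_cases h1 : β = α
    · by_cases h3 : δ.1 = -α.1
      · rw [if_pos ⟨h1, h3⟩]
        have h4 : ∀ k : Fin l, E D α (Sum.inr β) (Sum.inl k) * E D α (Sum.inl k) (Sum.inr δ) =
            (- bil D α.1 (Pi.single k 1)) * (- α.1 k) := by
          intro k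
          rw [E_rl, E_lr, if_pos h1, if_pos h3]
        rw [Finset.sum_congr rfl (fun k _ => h4 k), EF_bil_sum]
        rfl
      · rw [if_neg (fun h => h3 h.2), smul_zero]
        exact Finset.sum_eq_zero fun k _ => by rw [E_lr, if_neg h3, mul_zero]
    · rw [if_neg (fun h => h1 h.1), smul_zero]
      exact Finset.sum_eq_zero fun k _ => by rw [E_rl, if_neg h1, zero_mul]

theorem E_mul_F (α : Root D) : E D α * F D α = 0 := by
  ext x y
  rw [Matrix.mul_apply, Fintype.sum_sum_type, Matrix.zero_apply]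
  have h1 : ∑ k : Fin l, E D α x (Sum.inl k) * F D α (Sum.inl k) y = 0 :=
    Finset.sum_eq_zero fun k _ => by rw [F_l, mul_zero]
  rw [h1, zero_add]
  refine Finset.sum_eq_zero fun γ _ => ?_
  rcases y with j | δ
  · rw [F_xl, mul_zero]
  · rw [F_rr]
    by_cases h : γ = α ∧ δ.1 = -α.1
    · obtain ⟨rfl, _⟩ := h
      rcases x with i | β
      · rw [E_lr, if_neg (EF_ne_neg D γ), zero_mul]
      · rw [E_rr, if_neg (EF_two D γ β), zero_mul]
    · rw [if_neg h, mul_zero]

theorem F_mul_E (α : Root D) : F D α * E D α = 0 := by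
  ext x y
  rw [Matrix.mul_apply, Fintype.sum_sum_type, Matrix.zero_apply]
  have h1 : ∑ k : Fin l, F D α x (Sum.inl k) * E D α (Sum.inl k) y = 0 :=
    Finset.sum_eq_zero fun k _ => by rw [F_xl, zero_mul]
  rw [h1, zero_add]
  refine Finset.sum_eq_zero fun γ _ => ?_
  rcases x with i | β
  · rw [F_l, zero_mul]
  · rw [F_rr]
    by_cases h : β = α ∧ γ.1 = -α.1
    · obtain ⟨_, h2⟩ := h
      have hE : E D α (Sum.inr γ) y = 0 := by
        rcases y with j | δ
        · rw [E_rl, if_neg]
          intro h3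
          rw [h3] at h2
          exact EF_ne_neg D α h2
        · rw [E_rr, if_neg]
          intro h3
          rw [h2] at h3
          exact EF_neg_two D α δ h3
      rw [hE, mul_zero]
    · rw [if_neg h, zero_mul]

theorem F_mul_F (α : Root D) : F D α * F D α = 0 := by
  ext x y
  rw [Matrix.mul_apply, Fintype.sum_sum_type, Matrix.zero_apply]
  have h1 : ∑ k : Fin l, F D α x (Sum.inl k) * F D α (Sum.inl k) y = 0 :=
    Finset.sum_eq_zero fun k _ => by rw [F_xl, zero_mul]
  rw [h1, zero_add]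
  refine Finset.sum_eq_zero fun γ _ => ?_
  rcases x with i | β
  · rw [F_l, zero_mul]
  · rcases y with j | δ
    · rw [F_xl, mul_zero]
    · rw [F_rr, F_rr]
      by_cases h : β = α ∧ γ.1 = -α.1
      · rw [if_neg (c := γ = α ∧ δ.1 = -α.1), mul_zero]
        rintro ⟨h3, _⟩
        have h4 := h.2
        rw [h3] at h4
        exact EF_ne_neg D α h4
      · rw [if_neg h, zero_mul]

theorem j18971_ll (α : Root D) (i j : Fin l) : E D α (Sum.inl i) (Sum.inl j) = 0 := rfl

theorem j18971_rl (α β : Root D) (j : Fin l) : E D α (Sum.inr β) (Sum.inl j) =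
    if β = α then - bil D α.1 (Pi.single j 1) else 0 := rfl

theorem j18971_lr (α γ : Root D) (i : Fin l) : E D α (Sum.inl i) (Sum.inr γ) =
    if γ.1 = -α.1 then - α.1 i else 0 := rfl

theorem j18971_rr (α β γ : Root D) : E D α (Sum.inr β) (Sum.inr γ) =
    if β.1 = α.1 + γ.1 then sgn D α.1 γ.1 else 0 := rfl

theorem j18971_mul_ll (α β : Root D) (h : 0 ≤ bil D α.1 β.1) (i j : Fin l) :
    (E D α * E D β) (Sum.inl i) (Sum.inl j) = 0 := by
  rw [Matrix.mul_apply]
  refine Finset.sum_eq_zero fun k _ => ?_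
  rcases k with k | k
  · rw [j18971_ll, zero_mul]
  · rw [j18971_lr, j18971_rl]
    by_cases h1 : k.1 = -α.1
    · by_cases h2 : k = β
      · exfalso
        subst h2
        have := (bil_eq_neg_two_iff D α k).2 h1
        omega
      · rw [if_neg h2, mul_zero]
    · rw [if_neg h1, zero_mul]

theorem j18971_mul_rl (α β : Root D) (h : 0 ≤ bil D α.1 β.1) (δ : Root D) (j : Fin l) :
    (E D α * E D β) (Sum.inr δ) (Sum.inl j) = 0 := by
  rw [Matrix.mul_apply]
  refine Finset.sum_eq_zero fun k _ => ?_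
  rcases k with k | k
  · rw [j18971_ll, mul_zero]
  · rw [j18971_rr, j18971_rl]
    by_cases h1 : δ.1 = α.1 + k.1
    · by_cases h2 : k = β
      · exfalso
        subst h2
        have := (add_root_iff D α k).1 (by rw [← h1]; exact δ.2)
        omega
      · rw [if_neg h2, mul_zero]
    · rw [if_neg h1, zero_mul]

theorem j18971_mul_lr (α β : Root D) (h : 0 ≤ bil D α.1 β.1) (γ : Root D) (i : Fin l) :
    (E D α * E D β) (Sum.inl i) (Sum.inr γ) = 0 := by
  rw [Matrix.mul_apply]
  refine Finset.sum_eq_zero fun k _ => ?_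
  rcases k with k | k
  · rw [j18971_ll, zero_mul]
  · rw [j18971_lr, j18971_rr]
    by_cases h1 : k.1 = -α.1
    · by_cases h2 : k.1 = β.1 + γ.1
      · exfalso
        have h3 : α.1 + β.1 = (rneg D γ).1 := by
          show α.1 + β.1 = -γ.1
          have h4 : β.1 + γ.1 = -α.1 := by rw [← h2, h1]
          have h5 : β.1 = -α.1 - γ.1 := by rw [← h4]; abel
          rw [h5]; abel
        have := (add_root_iff D α β).1 (by rw [h3]; exact (rneg D γ).2)
        omega
      · rw [if_neg h2, mul_zero]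
    · rw [if_neg h1, zero_mul]

theorem j18971_mul_rr (α β δ γ : Root D) :
    (E D α * E D β) (Sum.inr δ) (Sum.inr γ) =
      (if δ = α ∧ γ.1 = -β.1 then bil D α.1 β.1 else 0) +
      (if bil D β.1 γ.1 = -1 ∧ δ.1 = α.1 + (β.1 + γ.1) then
        sgn D α.1 (β.1 + γ.1) * sgn D β.1 γ.1 else 0) := by
  rw [Matrix.mul_apply, Fintype.sum_sum_type]
  congr 1
  · by_cases h1 : δ = α
    · by_cases h2 : γ.1 = -β.1
      · rw [if_pos ⟨h1, h2⟩]
        have h3 : bil D α.1 β.1 = ∑ k : Fin l, β.1 k * bil D α.1 (Pi.single k 1) := by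
          conv_lhs => rw [eq_sum_single β.1]
          rw [bil_sum_right]
          exact Finset.sum_congr rfl fun k _ => bil_smul_right D _ _ _
        rw [h3]
        refine Finset.sum_congr rfl fun k _ => ?_
        rw [j18971_rl, j18971_lr, if_pos h1, if_pos h2]
        ring
      · rw [if_neg (fun hh => h2 hh.2)]
        refine Finset.sum_eq_zero fun k _ => ?_
        rw [j18971_lr, if_neg h2, mul_zero]
    · rw [if_neg (fun hh => h1 hh.1)]
      refine Finset.sum_eq_zero fun k _ => ?_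
      rw [j18971_rl, if_neg h1, zero_mul]
  · by_cases h1 : bil D β.1 γ.1 = -1
    · have hr := (add_root_iff D β γ).2 h1
      obtain ⟨k0, hk0⟩ : ∃ k0 : Root D, k0.1 = β.1 + γ.1 := ⟨⟨β.1 + γ.1, hr⟩, rfl⟩
      refine (Finset.sum_eq_single k0 ?_ ?_).trans ?_
      · intro k _ hk
        rw [j18971_rr D β]
        rw [if_neg (fun hh => hk (root_ext D (hh.trans hk0.symm))), mul_zero]
      · intro hk
        exact absurd (Finset.mem_univ _) hk
      · rw [j18971_rr, j18971_rr, hk0]
        by_cases h2 : δ.1 = α.1 + (β.1 + γ.1)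
        · rw [if_pos h2, if_pos rfl, if_pos ⟨h1, h2⟩]
        · rw [if_neg h2, zero_mul]
          exact (if_neg (fun hh => h2 hh.2)).symm
    · rw [if_neg (fun hh => h1 hh.1)]
      refine Finset.sum_eq_zero fun k _ => ?_
      rw [j18971_rr D β]
      rw [if_neg, mul_zero]
      intro hh
      exact h1 ((add_root_iff D β γ).1 (by rw [← hh]; exact k.2))

theorem E_commute (α β : Root D) (h : 0 ≤ bil D α.1 β.1) : E D α * E D β = E D β * E D α := by
  have h' : 0 ≤ bil D β.1 α.1 := by rw [bil_comm]; exact h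
  ext i j
  rcases i with i | δ <;> rcases j with j | γ
  · rw [j18971_mul_ll D α β h, j18971_mul_ll D β α h']
  · rw [j18971_mul_lr D α β h, j18971_mul_lr D β α h']
  · rw [j18971_mul_rl D α β h, j18971_mul_rl D β α h']
  · rw [j18971_mul_rr, j18971_mul_rr]
    by_cases hδ : δ.1 = α.1 + (β.1 + γ.1)
    · have hδ' : δ.1 = β.1 + (α.1 + γ.1) := by rw [hδ]; abel
      have hn : bil D α.1 β.1 + bil D β.1 γ.1 + bil D α.1 γ.1 = -2 := by
        have h1 := δ.2
        rw [hδ] at h1
        simp only [bil_add_left, bil_add_right] at h1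
        have a1 := α.2
        have a2 := β.2
        have a3 := γ.2
        have b1 := bil_comm D α.1 β.1
        have b2 := bil_comm D α.1 γ.1
        have b3 := bil_comm D β.1 γ.1
        linarith
      have e1 : (δ = α ∧ γ.1 = -β.1) ↔ bil D β.1 γ.1 = -2 := by
        rw [bil_eq_neg_two_iff]
        constructor
        · exact fun hh => hh.2
        · intro hh
          refine ⟨root_ext D ?_, hh⟩
          rw [hδ, hh]; abel
      have e2 : (δ = β ∧ γ.1 = -α.1) ↔ bil D α.1 γ.1 = -2 := by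
        rw [bil_eq_neg_two_iff]
        constructor
        · exact fun hh => hh.2
        · intro hh
          refine ⟨root_ext D ?_, hh⟩
          rw [hδ', hh]; abel
      have e3 : (bil D β.1 γ.1 = -1 ∧ δ.1 = α.1 + (β.1 + γ.1)) ↔ bil D β.1 γ.1 = -1 :=
        and_iff_left hδ
      have e4 : (bil D α.1 γ.1 = -1 ∧ δ.1 = β.1 + (α.1 + γ.1)) ↔ bil D α.1 γ.1 = -1 :=
        and_iff_left hδ'
      simp only [e1, e2, e3, e4]
      have r1 := bil_range D α β
      have r2 := bil_range D β γ
      have r3 := bil_range D α γ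
      have hs := sgn_mul_swap D α.1 β.1
      have hc := bil_comm D α.1 β.1
      rw [← hc, sgn_add_right, sgn_add_right]
      -- cases
      have hcase : (bil D β.1 γ.1 = -2 ∧ bil D α.1 γ.1 = -2) ∨
          (bil D β.1 γ.1 = -2 ∧ bil D α.1 γ.1 = -1) ∨ (bil D β.1 γ.1 = -1 ∧ bil D α.1 γ.1 = -2) ∨
          (bil D β.1 γ.1 = -1 ∧ bil D α.1 γ.1 = -1) ∨
          (bil D α.1 β.1 = 0 ∧ bil D β.1 γ.1 = -2 ∧ bil D α.1 γ.1 = 0) ∨
          (bil D α.1 β.1 = 0 ∧ bil D β.1 γ.1 = 0 ∧ bil D α.1 γ.1 = -2) := by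
        omega
      rcases hcase with ⟨c1, c2⟩ | ⟨c1, c2⟩ | ⟨c1, c2⟩ | ⟨c1, c2⟩ | ⟨c0, c1, c2⟩ | ⟨c0, c1, c2⟩
      · simp [c1, c2]
      · -- γ = -β, bil α β = 1
        have c0 : bil D α.1 β.1 = 1 := by omega
        have hγ := (bil_eq_neg_two_iff D β γ).1 c1
        rw [c0] at hs
        have h5 := sgn_self D β
        rw [c0, c1, c2, hγ, sgn_neg_right, sgn_neg_right, h5]
        simp at hs ⊢
        linarith
      · have c0 : bil D α.1 β.1 = 1 := by omega
        have hγ := (bil_eq_neg_two_iff D α γ).1 c2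
        rw [c0] at hs
        have h5 := sgn_self D α
        rw [c0, c1, c2, hγ, sgn_neg_right, sgn_neg_right, h5]
        simp at hs ⊢
        linarith
      · have c0 : bil D α.1 β.1 = 0 := by omega
        have h5 := sgn_swap_of_even D α.1 β.1 c0
        rw [c0, c1, c2, h5]
        simp
        ring
      · simp [c0, c1, c2]
      · simp [c0, c1, c2]
    · have hδ' : ¬ (δ.1 = β.1 + (α.1 + γ.1)) := by
        intro hh
        apply hδ
        rw [hh]; abel
      rw [if_neg, if_neg, if_neg, if_neg]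
      · exact fun hh => hδ' hh.2
      · rintro ⟨h1, h2⟩
        apply hδ
        rw [h1, h2]; abel
      · exact fun hh => hδ hh.2
      · rintro ⟨h1, h2⟩
        apply hδ
        rw [h1, h2]; abel

theorem EB_sum_ite (v : Fin l → ℤ) (f : Root D → ℤ) :
    ∑ δ : Root D, (if δ.1 = v then f δ else 0) = if h : bil D v v = 2 then f ⟨v, h⟩ else 0 := by
  classical
  split_ifs with h
  · refine (Finset.sum_eq_single (⟨v, h⟩ : Root D) ?_ ?_).trans ?_
    · intro b _ hb
      rw [if_neg]
      intro h'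
      exact hb (Subtype.ext h')
    · intro h'
      exact (h' (@Finset.mem_univ (Root D) _ ⟨v, h⟩)).elim
    · exact if_pos rfl
  · apply Finset.sum_eq_zero
    intro b _
    rw [if_neg]
    rintro rfl
    exact h b.2

theorem EB_inl (α β : Root D) (x : Idx D) (j : Fin l) :
    (E D α * E D β) x (Sum.inl j) = E D α x (Sum.inr β) * (- bil D β.1 (Pi.single j 1)) := by
  classical
  rw [Matrix.mul_apply, Fintype.sum_sum_type]
  have h1 : ∑ i : Fin l, E D α x (Sum.inl i) * E D β (Sum.inl i) (Sum.inl j) = 0 := by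
    apply Finset.sum_eq_zero
    intro i _
    simp [E]
  rw [h1, zero_add, Finset.sum_eq_single β]
  · congr 1
    simp [E]
  · intro δ _ hδ
    have : E D β (Sum.inr δ) (Sum.inl j) = 0 := by
      simp [E, hδ]
    rw [this, mul_zero]
  · intro h'; exact absurd (Finset.mem_univ _) h'

theorem EB_inl_inr (α β : Root D) (i : Fin l) (g : Root D) :
    (E D α * E D β) (Sum.inl i) (Sum.inr g) =
      if g.1 = -(α.1 + β.1) then (- α.1 i) * sgn D β.1 g.1 else 0 := by
  classical
  rw [Matrix.mul_apply, Fintype.sum_sum_type]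
  have h1 : ∑ k : Fin l, E D α (Sum.inl i) (Sum.inl k) * E D β (Sum.inl k) (Sum.inr g) = 0 := by
    apply Finset.sum_eq_zero
    intro k _
    simp [E]
  have h2 : ∀ δ : Root D, E D α (Sum.inl i) (Sum.inr δ) * E D β (Sum.inr δ) (Sum.inr g) =
      if δ.1 = -α.1 then (- α.1 i) * (if δ.1 = β.1 + g.1 then sgn D β.1 g.1 else 0) else 0 := by
    intro δ
    simp only [E, Matrix.of_apply]
    split_ifs <;> simp
  have hn : bil D (-α.1) (-α.1) = 2 := (rneg D α).2
  rw [h1, zero_add, Finset.sum_congr rfl (fun δ _ => h2 δ), EB_sum_ite, dif_pos hn]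
  by_cases hg : g.1 = -(α.1 + β.1)
  · rw [if_pos hg, if_pos]
    rw [hg]; abel
  · rw [if_neg hg, if_neg, mul_zero]
    intro h
    apply hg
    have h' : -α.1 = β.1 + g.1 := h
    rw [neg_add, h']; abel

theorem EB_inr_inr (α β : Root D) (ε g : Root D) :
    (E D α * E D β) (Sum.inr ε) (Sum.inr g) =
      (if ε = α ∧ bil D β.1 g.1 = -2 then bil D α.1 β.1 else 0) +
      (if ε.1 = α.1 + β.1 + g.1 ∧ bil D β.1 g.1 = -1 then
        sgn D α.1 (β.1 + g.1) * sgn D β.1 g.1 else 0) := by
  classical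
  rw [Matrix.mul_apply, Fintype.sum_sum_type]
  congr 1
  · have hq := bil_eq_neg_two_iff D β g
    by_cases h1 : ε = α
    · by_cases h2 : g.1 = -β.1
      · rw [if_pos ⟨h1, hq.2 h2⟩]
        have : ∀ k : Fin l, E D α (Sum.inr ε) (Sum.inl k) * E D β (Sum.inl k) (Sum.inr g) =
            β.1 k * bil D α.1 (Pi.single k 1) := by
          intro k
          simp only [E, Matrix.of_apply]
          rw [if_pos h1, if_pos h2]; ring
        rw [Finset.sum_congr rfl (fun k _ => this k)]
        conv_rhs => rw [eq_sum_single β.1]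
        rw [bil_sum_right]
        refine Finset.sum_congr rfl fun k _ => ?_
        rw [bil_smul_right]
      · rw [if_neg (fun h => h2 (hq.1 h.2))]
        apply Finset.sum_eq_zero
        intro k _
        simp only [E, Matrix.of_apply]
        rw [if_neg h2, mul_zero]
    · rw [if_neg (fun h => h1 h.1)]
      apply Finset.sum_eq_zero
      intro k _
      simp only [E, Matrix.of_apply]
      rw [if_neg h1, zero_mul]
  · have h2 : ∀ δ : Root D, E D α (Sum.inr ε) (Sum.inr δ) * E D β (Sum.inr δ) (Sum.inr g) =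
        if δ.1 = β.1 + g.1 then (if ε.1 = α.1 + δ.1 then sgn D α.1 δ.1 else 0) * sgn D β.1 g.1
          else 0 := by
      intro δ
      simp only [E, Matrix.of_apply]
      split_ifs <;> simp
    rw [Finset.sum_congr rfl (fun δ _ => h2 δ), EB_sum_ite]
    by_cases h3 : bil D β.1 g.1 = -1
    · rw [dif_pos ((add_root_iff D β g).2 h3)]
      simp only [h3, and_true]
      rw [← add_assoc]
      split_ifs <;> simp
    · rw [dif_neg (fun h => h3 ((add_root_iff D β g).1 h)), if_neg (fun h => h3 h.2)]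

theorem E_bracket (α β γ : Root D) (h : γ.1 = α.1 + β.1) :
    E D α * E D β = sgn D α.1 β.1 • E D γ + E D β * E D α := by
  classical
  have hab : bil D α.1 β.1 = -1 := by
    rw [← add_root_iff, ← h]; exact γ.2
  have hba : bil D β.1 α.1 = -1 := by rw [bil_comm]; exact hab
  have hs : sgn D β.1 α.1 = - sgn D α.1 β.1 := sgn_swap_of_odd D _ _ (Or.inl hab)
  have hss : sgn D α.1 β.1 * sgn D α.1 β.1 = 1 := sgn_mul_self D _ _
  have haa : sgn D α.1 α.1 = -1 := sgn_self D α
  have hbb : sgn D β.1 β.1 = -1 := sgn_self D β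
  ext x y
  rw [Matrix.add_apply, Matrix.smul_apply, smul_eq_mul]
  rcases y with j | g
  · rw [EB_inl, EB_inl]
    rcases x with i | ε
    · have n1 : ¬ β.1 = -α.1 := by
        rw [← bil_eq_neg_two_iff, hab]; norm_num
      have n2 : ¬ α.1 = -β.1 := by
        rw [← bil_eq_neg_two_iff, hba]; norm_num
      simp only [E, Matrix.of_apply]
      rw [if_neg n1, if_neg n2]; ring
    · simp only [E, Matrix.of_apply]
      by_cases hε : ε.1 = γ.1
      · have e1 : ε = γ := Subtype.ext hε
        rw [if_pos (hε.trans h), if_pos e1, if_pos (by rw [hε, h, add_comm]), hs, h, bil_add_left]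
        ring
      · have e1 : ε ≠ γ := fun h' => hε (by rw [h'])
        rw [if_neg (fun h' => hε (h'.trans h.symm)), if_neg e1,
          if_neg (fun h' => hε (by rw [h', h, add_comm]))]
        ring
  · rcases x with i | ε
    · rw [EB_inl_inr, EB_inl_inr]
      simp only [E, Matrix.of_apply]
      rw [← h, add_comm β.1 α.1, ← h]
      by_cases hg : g.1 = -γ.1
      · rw [if_pos hg, if_pos hg, if_pos hg, hg, sgn_neg_right, sgn_neg_right, h, sgn_add_right,
          sgn_add_right, hs, haa, hbb, Pi.add_apply]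
        ring
      · rw [if_neg hg, if_neg hg, if_neg hg]; ring
    · rw [EB_inr_inr, EB_inr_inr]
      simp only [E, Matrix.of_apply]
      have hcg : bil D γ.1 g.1 = bil D α.1 g.1 + bil D β.1 g.1 := by rw [h, bil_add_left]
      have hsg : sgn D γ.1 g.1 = sgn D α.1 g.1 * sgn D β.1 g.1 := by rw [h, sgn_add_left]
      rw [add_comm β.1 α.1, ← h]
      by_cases hε : ε.1 = γ.1 + g.1
      · have h1 : bil D γ.1 g.1 = -1 := by
          rw [← add_root_iff, ← hε]; exact ε.2
        rw [if_pos hε]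
        have hra := bil_range D α g
        have hrb := bil_range D β g
        rw [hcg] at h1
        have hcases : (bil D α.1 g.1 = -2 ∧ bil D β.1 g.1 = 1) ∨
            (bil D α.1 g.1 = -1 ∧ bil D β.1 g.1 = 0) ∨
            (bil D α.1 g.1 = 0 ∧ bil D β.1 g.1 = -1) ∨
            (bil D α.1 g.1 = 1 ∧ bil D β.1 g.1 = -2) := by omega
        rcases hcases with ⟨p, q⟩ | ⟨p, q⟩ | ⟨p, q⟩ | ⟨p, q⟩
        · -- g = -α
          have hg := (bil_eq_neg_two_iff D α g).1 p
          have hεb : ε = β := Subtype.ext (by rw [hε, h, hg]; abel)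
          rw [if_neg (fun h' => by rw [q] at h'; exact absurd h'.2 (by norm_num)),
            if_neg (fun h' => by rw [q] at h'; exact absurd h'.2 (by norm_num)),
            if_pos ⟨hεb, p⟩,
            if_neg (fun h' => by rw [p] at h'; exact absurd h'.2 (by norm_num)), hba, hsg, hg,
            sgn_neg_right, sgn_neg_right, hs, haa]
          linear_combination -hss
        · rw [if_neg (fun h' => by rw [q] at h'; exact absurd h'.2 (by norm_num)),
            if_neg (fun h' => by rw [q] at h'; exact absurd h'.2 (by norm_num)),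
            if_neg (fun h' => by rw [p] at h'; exact absurd h'.2 (by norm_num)),
            if_pos ⟨hε, p⟩, hsg, sgn_add_right, hs]
          ring
        · rw [if_neg (fun h' => by rw [q] at h'; exact absurd h'.2 (by norm_num)),
            if_pos ⟨hε, q⟩,
            if_neg (fun h' => by rw [p] at h'; exact absurd h'.2 (by norm_num)),
            if_neg (fun h' => by rw [p] at h'; exact absurd h'.2 (by norm_num)), hsg, sgn_add_right]
          ring
        · have hg := (bil_eq_neg_two_iff D β g).1 q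
          have hεa : ε = α := Subtype.ext (by rw [hε, h, hg]; abel)
          rw [if_pos ⟨hεa, q⟩,
            if_neg (fun h' => by rw [q] at h'; exact absurd h'.2 (by norm_num)),
            if_neg (fun h' => by rw [p] at h'; exact absurd h'.2 (by norm_num)),
            if_neg (fun h' => by rw [p] at h'; exact absurd h'.2 (by norm_num)), hab, hsg, hg,
            sgn_neg_right, sgn_neg_right, hbb]
          linear_combination hss
      · have z1 : ¬ (ε.1 = γ.1 + g.1 ∧ bil D β.1 g.1 = -1) := fun h' => hε h'.1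
        have z2 : ¬ (ε.1 = γ.1 + g.1 ∧ bil D α.1 g.1 = -1) := fun h' => hε h'.1
        have z3 : ¬ (ε = α ∧ bil D β.1 g.1 = -2) := by
          rintro ⟨h1, h2⟩
          have h3 := (bil_eq_neg_two_iff D β g).1 h2
          apply hε
          rw [h3, h, h1]; abel
        have z4 : ¬ (ε = β ∧ bil D α.1 g.1 = -2) := by
          rintro ⟨h1, h2⟩
          have h3 := (bil_eq_neg_two_iff D α g).1 h2
          apply hε
          rw [h3, h, h1]; abel
        rw [if_neg z1, if_neg z2, if_neg z3, if_neg z4, if_neg hε]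
        ring

theorem xM_zero {R : Type*} [CommRing R] (α : Root D) : xM D α (0 : R) = 1 := by
  simp [xM]

theorem xM_add {R : Type*} [CommRing R] (α : Root D) (s t : R) :
    xM D α (s + t) = xM D α s * xM D α t := by
  have hm : ∀ A B : Matrix (Idx D) (Idx D) ℤ,
      A.map (Int.cast : ℤ → R) * B.map (Int.cast : ℤ → R) = (A * B).map (Int.cast : ℤ → R) := by
    intro A B
    exact (Matrix.map_mul (f := Int.castRingHom R)).symm
  have hEE : (E D α).map (Int.cast : ℤ → R) * (E D α).map (Int.cast : ℤ → R) =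
      (2 : R) • (F D α).map (Int.cast : ℤ → R) := by
    rw [hm, E_mul_E]
    ext x y
    show (((2 • F D α) x y : ℤ) : R) = (2 : R) * ((F D α x y : ℤ) : R)
    rw [Matrix.smul_apply, nsmul_eq_mul]
    push_cast
    rfl
  have hEF : (E D α).map (Int.cast : ℤ → R) * (F D α).map (Int.cast : ℤ → R) = 0 := by
    rw [hm, E_mul_F]
    ext x y
    simp [Matrix.map_apply]
  have hFE : (F D α).map (Int.cast : ℤ → R) * (E D α).map (Int.cast : ℤ → R) = 0 := by
    rw [hm, F_mul_E]
    ext x y
    simp [Matrix.map_apply]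
  have hFF : (F D α).map (Int.cast : ℤ → R) * (F D α).map (Int.cast : ℤ → R) = 0 := by
    rw [hm, F_mul_F]
    ext x y
    simp [Matrix.map_apply]
  unfold xM
  generalize (E D α).map (Int.cast : ℤ → R) = A at *
  generalize (F D α).map (Int.cast : ℤ → R) = B at *
  simp only [add_mul, mul_add, one_mul, mul_one, Matrix.smul_mul, Matrix.mul_smul, hEE, hEF, hFE,
    hFF, smul_zero, add_zero]
  rw [add_sq]
  simp only [add_smul, smul_smul]
  have h2 : t * (s * 2) = 2 * s * t := by ring
  rw [h2]; abel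

theorem xmc_aux (X A B : Matrix (Idx D) (Idx D) ℤ) (hAB : A * A = 2 • B) (h : Commute X A) :
    Commute X B := by
  have h1 : X * (A * A) = (A * A) * X := (h.mul_right h).eq
  rw [hAB] at h1
  have h2 : 2 • (X * B) = 2 • (B * X) := by
    rw [← mul_smul_comm, h1, smul_mul_assoc]
  show X * B = B * X
  ext i j
  have h3 := congrFun (congrFun h2 i) j
  rw [Matrix.smul_apply, Matrix.smul_apply, nsmul_eq_mul, nsmul_eq_mul] at h3
  have h4 : ((2 : ℕ) : ℤ) ≠ 0 := by norm_num
  exact mul_left_cancel₀ h4 h3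

theorem xmc_map {R : Type*} [CommRing R] (A B : Matrix (Idx D) (Idx D) ℤ) (h : Commute A B) :
    Commute (A.map (Int.cast : ℤ → R)) (B.map (Int.cast : ℤ → R)) :=
  h.map (Int.castRingHom R).mapMatrix

theorem xM_commute {R : Type*} [CommRing R] (α β : Root D) (h : 0 ≤ bil D α.1 β.1) (s t : R) :
    xM D α s * xM D β t = xM D β t * xM D α s := by
  have h1 : Commute (E D α) (E D β) := E_commute D α β h
  have h2 : Commute (E D α) (F D β) := xmc_aux D _ _ _ (E_mul_E D β) h1
  have h3 : Commute (F D α) (E D β) := (xmc_aux D _ _ _ (E_mul_E D α) h1.symm).symm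
  have h4 : Commute (F D α) (F D β) := xmc_aux D _ _ _ (E_mul_E D β) h3
  have k1 := xmc_map D (R := R) _ _ h1
  have k2 := xmc_map D (R := R) _ _ h2
  have k3 := xmc_map D (R := R) _ _ h3
  have k4 := xmc_map D (R := R) _ _ h4
  unfold xM
  have key : ∀ X : Matrix (Idx D) (Idx D) R, Commute X ((E D β).map (Int.cast : ℤ → R)) →
      Commute X ((F D β).map (Int.cast : ℤ → R)) →
      Commute X (1 + t • (E D β).map (Int.cast : ℤ → R) + t ^ 2 • (F D β).map (Int.cast : ℤ → R)) :=
    fun X ha hb => ((Commute.one_right X).add_right (ha.smul_right t)).add_right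
      (hb.smul_right (t ^ 2))
  exact (((Commute.one_left _).add_left ((key _ k1 k2).smul_left s)).add_left
    ((key _ k3 k4).smul_left (s ^ 2))).eq

theorem xMb_int {S : Type*} [Ring S] (tf2 : ∀ X Y : S, 2 • X = 2 • Y → X = Y)
    (tf3 : ∀ X Y : S, 3 • X = 3 • Y → X = Y) (A A2 B B2 C C2 : S)
    (hAA : A * A = 2 • A2) (hBB : B * B = 2 • B2) (hCC : C * C = 2 • C2)
    (hAA2 : A * A2 = 0) (hB2B : B2 * B = 0)
    (hAB : A * B = C + B * A) (hCA : C * A = A * C) (hCB : C * B = B * C) :
    (A2 * B = B * A2 + C * A) ∧ (A * B2 = B2 * A + C * B) ∧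
    (A2 * B2 = B2 * A2 + C * (B * A) + C2) ∧ (C * A2 = 0) ∧ (C * B2 = 0) ∧ (C2 * A = 0) ∧
    (C2 * B = 0) ∧ (C2 * A2 = 0) ∧ (C2 * B2 = 0) ∧ (C * (B * A2) = 0) := by
  have h21 : A2 * B = B * A2 + C * A := by
    apply tf2
    linear_combination (norm := noncomm_ring) -(hAA * B) + A * hAB + hAB * A + B * hAA - hCA
  have h12 : A * B2 = B2 * A + C * B := by
    apply tf2
    linear_combination (norm := noncomm_ring) -(A * hBB) + hAB * B + B * hAB + hBB * A - hCB
  have h22 : A2 * B2 = B2 * A2 + C * (B * A) + C2 := by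
    apply tf2
    linear_combination (norm := noncomm_ring) -(hAA * B2) + A * h12 + h12 * A + B2 * hAA
      - hCA * B + C * hAB + hCC
  have z1 : C * A2 = 0 := by
    apply tf3
    linear_combination (norm := noncomm_ring) -(A * h21) + hAA2 * B - hAB * A2 - B * hAA2
      + hCA * A - C * hAA
  have hCB2 : C * B2 = B2 * C := by
    apply tf2
    linear_combination (norm := noncomm_ring) -(C * hBB) + hCB * B + B * hCB + hBB * C
  have z2 : C * B2 = 0 := by
    apply tf3
    linear_combination (norm := noncomm_ring) -(h12 * B) + A * hB2B - B2 * hAB - hB2B * A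
      - C * hBB + hCB2
  have z7 : C * (B * A2) = 0 := by
    linear_combination (norm := noncomm_ring) hCB * A2 + B * z1
  have z3 : C2 * A = 0 := by
    apply tf2
    linear_combination (norm := noncomm_ring) -(C * h21) + z1 * B - z7 - hCC * A
  have z4 : C2 * B = 0 := by
    apply tf2
    linear_combination (norm := noncomm_ring) -(C * h12) + hCA * B2 + A * z2 - z2 * A - hCC * B
  have z5 : C2 * A2 = 0 := by
    apply tf2
    linear_combination (norm := noncomm_ring) C * z1 - hCC * A2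
  have z6 : C2 * B2 = 0 := by
    apply tf2
    linear_combination (norm := noncomm_ring) C * z2 - hCC * B2
  exact ⟨h21, h12, h22, z1, z2, z3, z4, z5, z6, z7⟩

theorem xMb_gen {R S : Type*} [CommRing R] [Ring S] [Algebra R S] (A A2 B B2 C C2 : S)
    (h11 : A * B = C + B * A) (h21 : A2 * B = B * A2 + C * A) (h12 : A * B2 = B2 * A + C * B)
    (h22 : A2 * B2 = B2 * A2 + C * (B * A) + C2) (z1 : C * A2 = 0) (z2 : C * B2 = 0)
    (z3 : C2 * A = 0) (z4 : C2 * B = 0) (z5 : C2 * A2 = 0) (z6 : C2 * B2 = 0)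
    (z7 : C * (B * A2) = 0) (s t : R) :
    (1 + s • A + s ^ 2 • A2) * (1 + t • B + t ^ 2 • B2)
      = (1 + (s * t) • C + (s * t) ^ 2 • C2) * (1 + t • B + t ^ 2 • B2)
        * (1 + s • A + s ^ 2 • A2) := by
  have e1 : (1 + (s * t) • C + (s * t) ^ 2 • C2) * (1 + t • B + t ^ 2 • B2)
      = 1 + t • B + t ^ 2 • B2 + (s * t) • C + (s * t * t) • (C * B) + (s * t) ^ 2 • C2 := by
    simp only [add_mul, mul_add, one_mul, mul_one, smul_mul_assoc, mul_smul_comm, z2, z4, z6,
      smul_zero, add_zero, smul_smul]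
    module
  rw [e1]
  simp only [add_mul, mul_add, one_mul, mul_one, smul_mul_assoc, mul_smul_comm, z1, z3, z5, z7,
    smul_zero, add_zero, smul_smul, smul_add, h11, h12, h21, h22, mul_assoc]
  module

theorem xM_bracket {R : Type*} [CommRing R] (α β γ : Root D) (h : γ.1 = α.1 + β.1) (s t : R) :
    xM D α s * xM D β t =
      xM D γ ((sgn D α.1 β.1 : ℤ) * (s * t)) * xM D β t * xM D α s := by
  have hab : bil D α.1 β.1 = -1 := by
    rw [← add_root_iff, ← h]
    exact γ.2
  have hag : bil D γ.1 α.1 = 1 := by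
    rw [h, bil_add_left, bil_comm D β.1 α.1, hab, α.2]
    norm_num
  have hbg : bil D γ.1 β.1 = 1 := by
    rw [h, bil_add_left, hab, β.2]
    norm_num
  have tf2 : ∀ X Y : Matrix (Idx D) (Idx D) ℤ, 2 • X = 2 • Y → X = Y := by
    intro X Y hXY
    ext i j
    have := congrFun (congrFun hXY i) j
    simp only [Matrix.smul_apply, nsmul_eq_mul] at this
    push_cast at this
    linarith
  have tf3 : ∀ X Y : Matrix (Idx D) (Idx D) ℤ, 3 • X = 3 • Y → X = Y := by
    intro X Y hXY
    ext i j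
    have := congrFun (congrFun hXY i) j
    simp only [Matrix.smul_apply, nsmul_eq_mul] at this
    push_cast at this
    linarith
  have hs := sgn_mul_self D α.1 β.1
  have hCC : (sgn D α.1 β.1 • E D γ) * (sgn D α.1 β.1 • E D γ) = 2 • F D γ := by
    rw [smul_mul_smul_comm, hs, one_smul, E_mul_E]
  have hCA : (sgn D α.1 β.1 • E D γ) * E D α = E D α * (sgn D α.1 β.1 • E D γ) := by
    rw [smul_mul_assoc, mul_smul_comm, E_commute D γ α (by rw [hag]; norm_num)]
  have hCB : (sgn D α.1 β.1 • E D γ) * E D β = E D β * (sgn D α.1 β.1 • E D γ) := by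
    rw [smul_mul_assoc, mul_smul_comm, E_commute D γ β (by rw [hbg]; norm_num)]
  have hAB := E_bracket D α β γ h
  obtain ⟨h21, h12, h22, z1, z2, z3, z4, z5, z6, z7⟩ := xMb_int tf2 tf3 (E D α) (F D α) (E D β)
    (F D β) (sgn D α.1 β.1 • E D γ) (F D γ) (E_mul_E D α) (E_mul_E D β) hCC (E_mul_F D α)
    (F_mul_E D β) hAB hCA hCB
  -- transfer to `R`
  let φ : Matrix (Idx D) (Idx D) ℤ →+* Matrix (Idx D) (Idx D) R := (Int.castRingHom R).mapMatrix
  have hφ : ∀ X : Matrix (Idx D) (Idx D) ℤ, φ X = X.map (Int.cast : ℤ → R) := fun X => rfl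
  have key := xMb_gen (R := R) (φ (E D α)) (φ (F D α)) (φ (E D β)) (φ (F D β))
    (φ (sgn D α.1 β.1 • E D γ)) (φ (F D γ))
    (by rw [← map_mul, hAB, map_add, map_mul])
    (by rw [← map_mul, h21, map_add, map_mul, map_mul])
    (by rw [← map_mul, h12, map_add, map_mul, map_mul])
    (by rw [← map_mul, h22, map_add, map_add, map_mul, map_mul, map_mul])
    (by rw [← map_mul, z1, map_zero]) (by rw [← map_mul, z2, map_zero])
    (by rw [← map_mul, z3, map_zero]) (by rw [← map_mul, z4, map_zero])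
    (by rw [← map_mul, z5, map_zero]) (by rw [← map_mul, z6, map_zero])
    (by rw [← map_mul, ← map_mul, z7, map_zero]) s t
  have hC : φ (sgn D α.1 β.1 • E D γ) = ((sgn D α.1 β.1 : ℤ) : R) • φ (E D γ) := by
    rw [hφ, hφ]
    ext i j
    show (((sgn D α.1 β.1 • E D γ) i j : ℤ) : R)
      = ((sgn D α.1 β.1 : ℤ) : R) * ((E D γ i j : ℤ) : R)
    rw [Matrix.smul_apply, smul_eq_mul, Int.cast_mul]
  have hsR : ((sgn D α.1 β.1 : ℤ) : R) * ((sgn D α.1 β.1 : ℤ) : R) = 1 := by
    rw [← Int.cast_mul, hs, Int.cast_one]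
  have hx : xM D γ (((sgn D α.1 β.1 : ℤ) : R) * (s * t))
      = 1 + (s * t) • φ (sgn D α.1 β.1 • E D γ) + (s * t) ^ 2 • φ (F D γ) := by
    rw [hC, smul_smul]
    unfold xM
    rw [← hφ, ← hφ]
    congr 2
    · rw [mul_comm]
    · rw [mul_pow, pow_two ((sgn D α.1 β.1 : ℤ) : R), hsR, one_mul]
  rw [hx]
  exact key

/-- `x_α(t)` as an element of the general linear group -/
noncomputable def x {R : Type*} [CommRing R] (α : Root D) (t : R) : GL (Idx D) R where
  val := xM D α t
  inv := xM D α (-t)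
  val_inv := by rw [← xM_add, add_neg_cancel, xM_zero]
  inv_val := by rw [← xM_add, neg_add_cancel, xM_zero]

/-- `x_α(t)` as an element of the Chevalley group -/
noncomputable def xg {R : Type*} [CommRing R] (α : Root D) (t : R) : G D R :=
  ⟨x D α t, Subgroup.subset_closure ⟨α, t, rfl⟩⟩

/-- the matrix of an element of the Chevalley group -/
def mat {R : Type*} [CommRing R] (g : G D R) : Matrix (Idx D) (Idx D) R := g.1.1

theorem mat_xg {R : Type*} [CommRing R] (α : Root D) (t : R) : mat D (xg D α t) = xM D α t := rfl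

theorem mat_mul {R : Type*} [CommRing R] (g g' : G D R) :
    mat D (g * g') = mat D g * mat D g' := rfl

theorem mat_one {R : Type*} [CommRing R] : mat D (1 : G D R) = 1 := rfl

theorem mat_injective {R : Type*} [CommRing R] : Function.Injective (mat D (R := R)) := by
  intro a b h
  exact Subtype.ext (Units.ext h)

theorem xg_zero {R : Type*} [CommRing R] (α : Root D) : xg D α (0 : R) = 1 := by
  apply mat_injective D
  rw [mat_xg, xM_zero, mat_one]

theorem xg_add {R : Type*} [CommRing R] (α : Root D) (s t : R) :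
    xg D α (s + t) = xg D α s * xg D α t := by
  apply mat_injective D
  rw [mat_mul, mat_xg, mat_xg, mat_xg, xM_add]

theorem xg_neg {R : Type*} [CommRing R] (α : Root D) (t : R) :
    xg D α (-t) = (xg D α t)⁻¹ := by
  rw [eq_inv_iff_mul_eq_one, ← xg_add, neg_add_cancel, xg_zero]

theorem xg_commute {R : Type*} [CommRing R] (α β : Root D) (h : 0 ≤ bil D α.1 β.1) (s t : R) :
    xg D α s * xg D β t = xg D β t * xg D α s := by
  apply mat_injective D
  rw [mat_mul, mat_mul, mat_xg, mat_xg, xM_commute D α β h]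

theorem xg_bracket {R : Type*} [CommRing R] (α β γ : Root D) (h : γ.1 = α.1 + β.1) (s t : R) :
    xg D α s * xg D β t =
      xg D γ ((sgn D α.1 β.1 : ℤ) * (s * t)) * xg D β t * xg D α s := by
  apply mat_injective D
  rw [mat_mul, mat_mul, mat_mul, mat_xg, mat_xg, mat_xg, xM_bracket D α β γ h]

theorem G_induction {R : Type*} [CommRing R] {p : G D R → Prop} (h1 : p 1)
    (hx : ∀ (g : G D R) (α : Root D) (t : R), p g → p (g * xg D α t)) (g : G D R) : p g := by
  obtain ⟨g, hg⟩ := g
  have hmem : g ∈ Subgroup.closure {g : GL (Idx D) R | ∃ (α : Root D) (t : R),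
      (g : Matrix (Idx D) (Idx D) R) = xM D α t} := hg
  have key : ∀ (y : GL (Idx D) R) (hy : y ∈ Subgroup.closure {g : GL (Idx D) R |
      ∃ (α : Root D) (t : R), (g : Matrix (Idx D) (Idx D) R) = xM D α t}), p ⟨y, hy⟩ := by
    intro y hy
    refine Subgroup.closure_induction_right (p := fun y hy => p ⟨y, hy⟩) h1 ?_ ?_ hy
    · rintro a ha b ⟨α, t, hb⟩ hp
      have e : b = x D α t := Units.ext hb
      subst e
      exact hx ⟨a, ha⟩ α t hp
    · rintro a ha b ⟨α, t, hb⟩ hp
      have e : b = x D α t := Units.ext hb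
      subst e
      have h2 := hx ⟨a, ha⟩ α (-t) hp
      rw [xg_neg] at h2
      exact h2
  exact key g hmem

theorem xM_map {R S : Type*} [CommRing R] [CommRing S] (f : R →+* S) (α : Root D) (t : R) :
    (xM D α t).map f = xM D α (f t) := by
  ext i j
  simp only [xM, Matrix.map_apply, Matrix.add_apply, Matrix.smul_apply, Matrix.one_apply,
    smul_eq_mul, map_add, map_mul, map_pow, map_intCast]
  congr 2
  split_ifs
  · exact map_one f
  · exact map_zero f

theorem Gmap_mem {R S : Type*} [CommRing R] [CommRing S] (f : R →+* S) (g : G D R) :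
    ((Matrix.GeneralLinearGroup.map f).comp (G D R).subtype) g ∈ G D S := by
  have h : G D R ≤ (G D S).comap (Matrix.GeneralLinearGroup.map f) := by
    unfold G
    rw [Subgroup.closure_le]
    rintro y ⟨α, t, hy⟩
    apply Subgroup.subset_closure
    refine ⟨α, f t, ?_⟩
    rw [← xM_map, ← hy]
    rfl
  exact h g.2

/-- the map of Chevalley groups induced by a ring homomorphism -/
noncomputable def Gmap {R S : Type*} [CommRing R] [CommRing S] (f : R →+* S) :
    G D R →* G D S :=
  ((Matrix.GeneralLinearGroup.map f).comp (G D R).subtype).codRestrict (G D S) (by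
    exact Gmap_mem D f)

theorem mat_Gmap {R S : Type*} [CommRing R] [CommRing S] (f : R →+* S) (g : G D R) :
    mat D (Gmap D f g) = (mat D g).map f := rfl

theorem Gmap_xg {R S : Type*} [CommRing R] [CommRing S] (f : R →+* S) (α : Root D) (t : R) :
    Gmap D f (xg D α t) = xg D α (f t) := by
  apply mat_injective D
  rw [mat_Gmap, mat_xg, mat_xg, xM_map]

theorem Gmap_injective {R S : Type*} [CommRing R] [CommRing S] (f : R →+* S)
    (hf : Function.Injective f) : Function.Injective (Gmap D f) := by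
  intro a b h
  apply mat_injective D
  have h2 : mat D (Gmap D f a) = mat D (Gmap D f b) := by rw [h]
  rw [mat_Gmap, mat_Gmap] at h2
  exact Matrix.map_injective hf h2

theorem Gmap_comp {R S R' : Type*} [CommRing R] [CommRing S] [CommRing R'] (f : R →+* S)
    (f' : S →+* R') (g : G D R) : Gmap D f' (Gmap D f g) = Gmap D (f'.comp f) g := by
  apply mat_injective D
  rw [mat_Gmap, mat_Gmap, mat_Gmap, Matrix.map_map]
  rfl

/-- basis vector `e_β` -/
def ev (R : Type*) [CommRing R] (β : Root D) : Idx D → R := Pi.single (Sum.inr β) 1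

/-- the Cartan element `h_y` of a lattice vector `y` -/
def hv (R : Type*) [CommRing R] (y : Fin l → ℤ) : Idx D → R := fun i =>
  match i with
  | Sum.inl i => (y i : R)
  | Sum.inr _ => 0

theorem m7_xM_mulVec {R : Type*} [CommRing R] (α : Root D) (t : R) (v : Idx D → R) :
    xM D α t *ᵥ v = v + t • ((E D α).map (Int.cast : ℤ → R) *ᵥ v) +
      t ^ 2 • ((F D α).map (Int.cast : ℤ → R) *ᵥ v) := by
  unfold xM
  rw [add_mulVec, add_mulVec, one_mulVec, smul_mulVec, smul_mulVec]

theorem m7_ev {R : Type*} [CommRing R] (A : Matrix (Idx D) (Idx D) ℤ) (β : Root D) (i : Idx D) :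
    (A.map (Int.cast : ℤ → R) *ᵥ ev D R β) i = (A i (Sum.inr β) : R) := by
  unfold ev
  rw [mulVec_single_one]
  rfl

theorem m7_E_inr_inr (α β γ : Root D) :
    E D α (Sum.inr β) (Sum.inr γ) = if β.1 = α.1 + γ.1 then sgn D α.1 γ.1 else 0 := rfl

theorem m7_E_inl_inr (α γ : Root D) (i : Fin l) :
    E D α (Sum.inl i) (Sum.inr γ) = if γ.1 = -α.1 then - α.1 i else 0 := rfl

theorem m7_E_inr_inl (α β : Root D) (j : Fin l) :
    E D α (Sum.inr β) (Sum.inl j) = if β = α then - bil D α.1 (Pi.single j 1) else 0 := rfl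

theorem m7_E_inl_inl (α : Root D) (i j : Fin l) :
    E D α (Sum.inl i) (Sum.inl j) = 0 := rfl

theorem m7_F_inr_inr (α β γ : Root D) :
    F D α (Sum.inr β) (Sum.inr γ) = if β = α ∧ γ.1 = -α.1 then 1 else 0 := rfl

theorem m7_F_inl (α : Root D) (i : Fin l) (j : Idx D) :
    F D α (Sum.inl i) j = 0 := by
  cases j <;> rfl

theorem m7_F_inr_inl (α β : Root D) (j : Fin l) :
    F D α (Sum.inr β) (Sum.inl j) = 0 := rfl

theorem m7_Fev {R : Type*} [CommRing R] (α β : Root D) (h : β.1 ≠ -α.1) :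
    (F D α).map (Int.cast : ℤ → R) *ᵥ ev D R β = 0 := by
  funext i
  rw [m7_ev]
  rcases i with i | β'
  · rw [m7_F_inl]; simp
  · rw [m7_F_inr_inr, if_neg (fun hh => h hh.2)]; simp

theorem xM_ev_fix {R : Type*} [CommRing R] (α β : Root D) (h : 0 ≤ bil D α.1 β.1) (t : R) :
    xM D α t *ᵥ ev D R β = ev D R β := by
  have h1 : β.1 ≠ -α.1 := by
    intro hh
    rw [← bil_eq_neg_two_iff] at hh
    omega
  have hE : (E D α).map (Int.cast : ℤ → R) *ᵥ ev D R β = 0 := by
    funext i
    rw [m7_ev]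
    rcases i with i | β'
    · rw [m7_E_inl_inr, if_neg h1]; simp
    · rw [m7_E_inr_inr, if_neg]
      · simp
      · intro hh
        have h2 := root_norm D β'
        rw [hh, add_root_iff] at h2
        omega
  rw [m7_xM_mulVec, hE, m7_Fev D α β h1]
  simp

theorem xM_ev_add {R : Type*} [CommRing R] (α β γ : Root D) (h : γ.1 = α.1 + β.1) (t : R) :
    xM D α t *ᵥ ev D R β = ev D R β + ((sgn D α.1 β.1 : ℤ) * t) • ev D R γ := by
  have h1 : β.1 ≠ -α.1 := by
    intro hh
    have h2 := root_norm D γ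
    rw [h, hh, add_neg_cancel, bil_zero_left] at h2
    omega
  have hE : (E D α).map (Int.cast : ℤ → R) *ᵥ ev D R β = ((sgn D α.1 β.1 : ℤ) : R) • ev D R γ := by
    funext i
    rw [m7_ev]
    rcases i with i | β'
    · rw [m7_E_inl_inr, if_neg h1]
      simp [ev]
    · rw [m7_E_inr_inr, ← h]
      by_cases hh : β'.1 = γ.1
      · have := root_ext D hh
        subst this
        simp [ev]
      · rw [if_neg hh]
        have h3 : β' ≠ γ := fun h4 => hh (congrArg Subtype.val h4)
        have h5 : (Sum.inr β' : Idx D) ≠ Sum.inr γ := fun h6 => h3 (Sum.inr_injective h6)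
        simp [ev, Pi.single_apply, h5, h3]
  rw [m7_xM_mulVec, hE, m7_Fev D α β h1, smul_zero, add_zero, smul_smul, mul_comm t]

theorem xM_ev_neg {R : Type*} [CommRing R] (α : Root D) (t : R) :
    xM D α t *ᵥ ev D R (rneg D α) = ev D R (rneg D α) - t • hv D R α.1 + t ^ 2 • ev D R α := by
  have hr : (rneg D α).1 = -α.1 := rfl
  have hE : (E D α).map (Int.cast : ℤ → R) *ᵥ ev D R (rneg D α) = - hv D R α.1 := by
    funext i
    rw [m7_ev]
    rcases i with i | β'
    · rw [m7_E_inl_inr, if_pos hr]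
      simp [hv]
    · rw [m7_E_inr_inr, if_neg]
      · simp [hv]
      · intro hh
        have h2 := root_norm D β'
        rw [hh, hr, add_neg_cancel, bil_zero_left] at h2
        omega
  have hF : (F D α).map (Int.cast : ℤ → R) *ᵥ ev D R (rneg D α) = ev D R α := by
    funext i
    rw [m7_ev]
    rcases i with i | β'
    · rw [m7_F_inl]
      simp [ev]
    · rw [m7_F_inr_inr]
      by_cases hh : β' = α
      · subst hh
        simp [ev, hr]
      · rw [if_neg (fun h4 => hh h4.1)]
        have h5 : (Sum.inr β' : Idx D) ≠ Sum.inr α := fun h6 => hh (Sum.inr_injective h6)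
        simp [ev, Pi.single_apply, h5, hh]
  rw [m7_xM_mulVec, hE, hF, smul_neg, sub_eq_add_neg]

theorem xM_hv {R : Type*} [CommRing R] (α : Root D) (y : Fin l → ℤ) (t : R) :
    xM D α t *ᵥ hv D R y = hv D R y - (t * (bil D α.1 y : ℤ)) • ev D R α := by
  have hb : bil D α.1 y = ∑ j, bil D α.1 (Pi.single j 1) * y j := by
    conv_lhs => rw [eq_sum_single y, bil_sum_right]
    refine Finset.sum_congr rfl fun j _ => ?_
    rw [bil_smul_right, mul_comm]
  have hsum : ∀ (A : Matrix (Idx D) (Idx D) ℤ) (i : Idx D),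
      (A.map (Int.cast : ℤ → R) *ᵥ hv D R y) i = ((∑ j, A i (Sum.inl j) * y j : ℤ) : R) := by
    intro A i
    rw [mulVec, dotProduct, Fintype.sum_sum_type]
    simp [hv]
  have hE : (E D α).map (Int.cast : ℤ → R) *ᵥ hv D R y = -((bil D α.1 y : ℤ) : R) • ev D R α := by
    funext i
    rw [hsum]
    rcases i with i | β'
    · simp [m7_E_inl_inl, ev]
    · by_cases hh : β' = α
      · subst hh
        simp [m7_E_inr_inl, ev, hb]
      · have h5 : (Sum.inr β' : Idx D) ≠ Sum.inr α := fun h6 => hh (Sum.inr_injective h6)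
        simp [m7_E_inr_inl, ev, Pi.single_apply, hh]
  have hF : (F D α).map (Int.cast : ℤ → R) *ᵥ hv D R y = 0 := by
    funext i
    rw [hsum]
    rcases i with i | β'
    · simp [m7_F_inl]
    · simp [m7_F_inr_inl]
  rw [m7_xM_mulVec, hE, hF, smul_zero, add_zero, smul_smul, mul_neg, neg_smul, ← sub_eq_add_neg]

theorem m7_hv_single {R : Type*} [CommRing R] (j : Fin l) :
    hv D R (Pi.single j 1) = Pi.single (Sum.inl j) 1 := by
  funext i
  rcases i with i | β
  · by_cases h : i = j
    · subst h; simp [hv]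
    · simp [hv, Pi.single_apply, h]
  · simp [hv]

theorem mat_ext {R : Type*} [CommRing R] (A B : Matrix (Idx D) (Idx D) R)
    (h1 : ∀ β, A *ᵥ ev D R β = B *ᵥ ev D R β) (h2 : ∀ y, A *ᵥ hv D R y = B *ᵥ hv D R y) :
    A = B := by
  ext i j
  rcases j with j | β
  · have := congrFun (h2 (Pi.single j 1)) i
    rw [m7_hv_single, mulVec_single_one, mulVec_single_one] at this
    exact this
  · have := congrFun (h1 β) i
    unfold ev at this
    rw [mulVec_single_one, mulVec_single_one] at this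
    exact this

/-- the matrix of `ad v` -/
noncomputable def adM {R : Type*} [CommRing R] (v : Idx D → R) : Matrix (Idx D) (Idx D) R :=
  (∑ β : Root D, v (Sum.inr β) • (E D β).map (Int.cast : ℤ → R)) +
    ∑ j : Fin l, v (Sum.inl j) • Matrix.diagonal (fun i : Idx D =>
      match i with
      | Sum.inl _ => (0 : R)
      | Sum.inr β => ((bil D (Pi.single j 1) β.1 : ℤ) : R))

theorem madj_vec_cancel {v w : Idx D → ℤ} (h : (2 : ℤ) • v = (2 : ℤ) • w) : v = w := by
  funext i
  have := congrFun h i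
  simp only [Pi.smul_apply, smul_eq_mul] at this
  omega

theorem madj_mat_cancel {A B : Matrix (Idx D) (Idx D) ℤ} (h : (2 : ℤ) • A = (2 : ℤ) • B) :
    A = B := by
  ext i j
  have := congrFun (congrFun h i) j
  simp only [Matrix.smul_apply, smul_eq_mul] at this
  omega

theorem madj_xM_int (α : Root D) (t : ℤ) : xM D α t = 1 + t • E D α + t ^ 2 • F D α := by
  unfold xM
  have h : ∀ A : Matrix (Idx D) (Idx D) ℤ, A.map (Int.cast : ℤ → ℤ) = A := by
    intro A
    ext i j
    simp
  rw [h, h]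

theorem madj_two_E (α : Root D) (v : Idx D → ℤ) :
    (2 : ℤ) • (E D α *ᵥ v) = xM D α (1 : ℤ) *ᵥ v - xM D α (-1 : ℤ) *ᵥ v := by
  rw [madj_xM_int, madj_xM_int, Matrix.add_mulVec, Matrix.add_mulVec, Matrix.add_mulVec,
    Matrix.add_mulVec, Matrix.smul_mulVec, Matrix.smul_mulVec,
    Matrix.smul_mulVec, Matrix.smul_mulVec]
  module

theorem madj_E_fix (α β : Root D) (h : 0 ≤ bil D α.1 β.1) : E D α *ᵥ ev D ℤ β = 0 := by
  apply madj_vec_cancel
  rw [madj_two_E, xM_ev_fix D α β h, xM_ev_fix D α β h]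
  simp

theorem madj_E_add (α β γ : Root D) (h : γ.1 = α.1 + β.1) :
    E D α *ᵥ ev D ℤ β = sgn D α.1 β.1 • ev D ℤ γ := by
  apply madj_vec_cancel
  rw [madj_two_E, xM_ev_add D α β γ h, xM_ev_add D α β γ h]
  simp only [Int.cast_id]
  module

theorem madj_E_neg (α : Root D) : E D α *ᵥ ev D ℤ (rneg D α) = - hv D ℤ α.1 := by
  apply madj_vec_cancel
  rw [madj_two_E, xM_ev_neg, xM_ev_neg]
  module

theorem madj_E_hv (α : Root D) (y : Fin l → ℤ) :
    E D α *ᵥ hv D ℤ y = (-bil D α.1 y) • ev D ℤ α := by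
  apply madj_vec_cancel
  rw [madj_two_E, xM_hv, xM_hv]
  simp only [Int.cast_id]
  module

/-- the matrix of `ad h_y` over the integers -/
def madj_H (y : Fin l → ℤ) : Matrix (Idx D) (Idx D) ℤ := Matrix.diagonal (fun i : Idx D =>
  match i with
  | Sum.inl _ => (0 : ℤ)
  | Sum.inr β => bil D y β.1)

theorem madj_H_ev (y : Fin l → ℤ) (β : Root D) :
    madj_H D y *ᵥ ev D ℤ β = bil D y β.1 • ev D ℤ β := by
  unfold madj_H ev
  funext i
  rw [Matrix.mulVec_diagonal]
  rcases i with i | i
  · simp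
  · by_cases h : i = β
    · subst h; simp
    · simp [h]

theorem madj_H_hv (y z : Fin l → ℤ) : madj_H D y *ᵥ hv D ℤ z = 0 := by
  unfold madj_H hv
  funext i
  rw [Matrix.mulVec_diagonal]
  rcases i with i | i
  · simp
  · simp

theorem madj_HE (y : Fin l → ℤ) (α : Root D) :
    madj_H D y * E D α = E D α * madj_H D y + bil D y α.1 • E D α := by
  unfold madj_H
  ext i j
  rw [Matrix.diagonal_mul, Matrix.add_apply, Matrix.mul_diagonal, Matrix.smul_apply, smul_eq_mul]
  rcases i with i | β <;> rcases j with j | γ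
  · simp [E]
  · simp only [E, Matrix.of_apply, zero_mul]
    split_ifs with h
    · rw [h, bil_neg_right]; ring
    · ring
  · simp only [E, Matrix.of_apply, mul_zero]
    split_ifs with h
    · rw [h]; ring
    · ring
  · simp only [E, Matrix.of_apply]
    split_ifs with h
    · rw [h, bil_add_right]; ring
    · ring

theorem madj_HF (y : Fin l → ℤ) (α : Root D) :
    madj_H D y * F D α = bil D y α.1 • F D α := by
  unfold madj_H
  ext i j
  rw [Matrix.diagonal_mul, Matrix.smul_apply, smul_eq_mul]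
  rcases i with i | β <;> rcases j with j | γ
  · simp [F]
  · simp [F]
  · simp [F]
  · simp only [F, Matrix.of_apply]
    split_ifs with h
    · rw [h.1]
    · ring

theorem madj_EF_zero (γ α : Root D) (h : 0 ≤ bil D γ.1 α.1) : E D γ * F D α = 0 := by
  ext i j
  rw [Matrix.mul_apply, Matrix.zero_apply]
  apply Finset.sum_eq_zero
  intro k _
  by_cases hk : k = Sum.inr α
  · have h1 : E D γ i k = (E D γ *ᵥ ev D ℤ α) i := by
      rw [hk]
      simp [ev]
    rw [h1, madj_E_fix D γ α h]
    simp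
  · have h1 : F D α k j = 0 := by
      rcases k with k | β <;> rcases j with j | γ'
      · simp [F]
      · simp [F]
      · simp [F]
      · simp only [F, Matrix.of_apply]
        rw [if_neg]
        rintro ⟨rfl, -⟩
        exact hk rfl
    rw [h1, mul_zero]

theorem madj_rneg_val (α : Root D) : (rneg D α).1 = -α.1 := rfl

theorem madj_EE' (α : Root D) :
    E D α * E D (rneg D α) = E D (rneg D α) * E D α - madj_H D α.1 := by
  have hrr : rneg D (rneg D α) = α := by
    apply root_ext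
    rw [madj_rneg_val, madj_rneg_val, neg_neg]
  apply mat_ext D
  · intro β
    rw [Matrix.sub_mulVec, ← Matrix.mulVec_mulVec, ← Matrix.mulVec_mulVec, madj_H_ev]
    have hr := bil_range D α β
    have h5 : bil D α.1 β.1 = -2 ∨ bil D α.1 β.1 = -1 ∨ bil D α.1 β.1 = 0 ∨ bil D α.1 β.1 = 1 ∨
        bil D α.1 β.1 = 2 := by omega
    rcases h5 with h5 | h5 | h5 | h5 | h5
    · have hβ : β = rneg D α := root_ext D ((bil_eq_neg_two_iff D α β).mp h5)
      rw [h5, hβ, madj_E_neg, madj_E_fix D (rneg D α) (rneg D α) (by rw [root_norm]; norm_num),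
        Matrix.mulVec_neg, madj_E_hv, madj_rneg_val, bil_neg_left, root_norm]
      simp
    · -- β + α root
      have hγ : bil D (α.1 + β.1) (α.1 + β.1) = 2 := (add_root_iff D α β).mpr h5
      set γ : Root D := ⟨α.1 + β.1, hγ⟩ with hγd
      have e0 : 0 ≤ bil D (rneg D α).1 β.1 := by
        rw [madj_rneg_val, bil_neg_left, h5]; norm_num
      rw [h5, madj_E_fix D (rneg D α) β e0, madj_E_add D α β γ rfl, Matrix.mulVec_smul,
        madj_E_add D (rneg D α) γ β (by rw [madj_rneg_val, hγd]; simp), Matrix.mulVec_zero,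
        madj_rneg_val, sgn_neg_left, hγd]
      simp only
      rw [sgn_add_right, sgn_self, smul_smul]
      have := sgn_mul_self D α.1 β.1
      have e1 : sgn D α.1 β.1 * (-1 * sgn D α.1 β.1) = -1 := by linear_combination -this
      rw [e1]
      simp
    · have e0 : 0 ≤ bil D (rneg D α).1 β.1 := by
        rw [madj_rneg_val, bil_neg_left, h5]; norm_num
      rw [h5, madj_E_fix D (rneg D α) β e0, madj_E_fix D α β (by rw [h5])]
      simp
    · have hγ : bil D (-α.1 + β.1) (-α.1 + β.1) = 2 := by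
        have := (add_root_iff D (rneg D α) β).mpr (by rw [madj_rneg_val, bil_neg_left, h5])
        rwa [madj_rneg_val] at this
      set γ : Root D := ⟨-α.1 + β.1, hγ⟩ with hγd
      rw [h5, madj_E_fix D α β (by rw [h5]; norm_num), madj_E_add D (rneg D α) β γ rfl,
        Matrix.mulVec_smul, madj_E_add D α γ β (by rw [hγd]; simp), Matrix.mulVec_zero,
        madj_rneg_val, sgn_neg_left, hγd]
      simp only
      rw [sgn_add_right, sgn_neg_right, sgn_self, smul_smul]
      have := sgn_mul_self D α.1 β.1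
      have e1 : sgn D α.1 β.1 * (-1 * sgn D α.1 β.1) = -1 := by linear_combination -this
      rw [e1]
      simp
    · have hβ : β = α := ((bil_eq_two_iff D α β).mp h5).symm
      have h6 : E D (rneg D α) *ᵥ ev D ℤ α = - hv D ℤ (-α.1) := by
        have := madj_E_neg D (rneg D α)
        rwa [hrr, madj_rneg_val] at this
      rw [hβ, h6, madj_E_fix D α α (by rw [root_norm]; norm_num), Matrix.mulVec_neg, madj_E_hv,
        bil_neg_right, root_norm]
      simp
  · intro y
    have h6 : E D (rneg D α) *ᵥ ev D ℤ α = - hv D ℤ (-α.1) := by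
      have := madj_E_neg D (rneg D α)
      rwa [hrr, madj_rneg_val] at this
    rw [Matrix.sub_mulVec, ← Matrix.mulVec_mulVec, ← Matrix.mulVec_mulVec, madj_H_hv, madj_E_hv,
      madj_E_hv, Matrix.mulVec_smul, Matrix.mulVec_smul, madj_E_neg, h6, madj_rneg_val,
      bil_neg_left]
    funext i
    rcases i with i | i <;> simp [hv]

theorem madj_F_comm (α β : Root D) (h : 0 ≤ bil D α.1 β.1) :
    F D α * E D β = E D β * F D α := by
  apply madj_mat_cancel
  have h2 : (2 : ℤ) • F D α = E D α * E D α := by rw [E_mul_E]; module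
  rw [← smul_mul_assoc, ← mul_smul_comm, h2, Matrix.mul_assoc, E_commute D α β h,
    ← Matrix.mul_assoc, E_commute D α β h, Matrix.mul_assoc]

theorem madj_F_add (α β γ : Root D) (h : γ.1 = α.1 + β.1) :
    F D α * E D β = E D β * F D α + sgn D α.1 β.1 • (E D γ * E D α) := by
  apply madj_mat_cancel
  have h2 : (2 : ℤ) • F D α = E D α * E D α := by rw [E_mul_E]; module
  have hb : bil D α.1 β.1 = -1 := by
    have h3 := γ.2
    rw [h] at h3
    exact (add_root_iff D α β).mp h3
  have hc : E D α * E D γ = E D γ * E D α := by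
    apply E_commute
    rw [h, bil_add_right, root_norm, hb]
    norm_num
  have h4 := E_bracket D α β γ h
  rw [← smul_mul_assoc, smul_add, ← mul_smul_comm, h2, Matrix.mul_assoc, h4, Matrix.mul_add,
    mul_smul_comm, hc, ← Matrix.mul_assoc, h4, Matrix.add_mul, smul_mul_assoc, Matrix.mul_assoc]
  module

theorem madj_F_neg (α : Root D) :
    F D α * E D (rneg D α) = E D (rneg D α) * F D α - madj_H D α.1 * E D α + E D α := by
  apply madj_mat_cancel
  have h2 : (2 : ℤ) • F D α = E D α * E D α := by rw [E_mul_E]; module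
  have h4 := madj_EE' D α
  have h5 := madj_HE D α.1 α
  rw [root_norm] at h5
  have h6 : E D α * madj_H D α.1 = madj_H D α.1 * E D α - (2 : ℤ) • E D α := by
    rw [h5]; module
  rw [← smul_mul_assoc, smul_add, smul_sub, ← mul_smul_comm, h2, Matrix.mul_assoc, h4,
    Matrix.mul_sub, ← Matrix.mul_assoc, h4, Matrix.sub_mul, Matrix.mul_assoc, h6]
  module

/-- integer matrices over `R` -/
noncomputable def madj_c (R : Type*) [CommRing R] :
    Matrix (Idx D) (Idx D) ℤ →+* Matrix (Idx D) (Idx D) R := (Int.castRingHom R).mapMatrix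

theorem madj_c_apply (R : Type*) [CommRing R] (A : Matrix (Idx D) (Idx D) ℤ) :
    A.map (Int.cast : ℤ → R) = madj_c D R A := rfl

theorem madj_c_smul {R : Type*} [CommRing R] (n : ℤ) (A : Matrix (Idx D) (Idx D) ℤ) :
    madj_c D R (n • A) = (n : R) • madj_c D R A := by
  rw [map_zsmul]
  rw [Int.cast_smul_eq_zsmul]

theorem madj_adM_add {R : Type*} [CommRing R] (v w : Idx D → R) :
    adM D (v + w) = adM D v + adM D w := by
  unfold adM
  simp only [Pi.add_apply, add_smul, Finset.sum_add_distrib]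
  abel

theorem madj_adM_smul {R : Type*} [CommRing R] (c : R) (v : Idx D → R) :
    adM D (c • v) = c • adM D v := by
  unfold adM
  simp only [Pi.smul_apply, smul_eq_mul, smul_add, Finset.smul_sum, smul_smul]

theorem madj_adM_ev {R : Type*} [CommRing R] (β : Root D) :
    adM D (ev D R β) = madj_c D R (E D β) := by
  unfold adM ev
  rw [Finset.sum_eq_single β]
  · simp [madj_c_apply]
  · intro b _ hb
    rw [Pi.single_eq_of_ne, zero_smul]
    intro h
    exact hb (Sum.inr_injective h)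
  · intro h
    exact absurd (Finset.mem_univ _) h

theorem madj_adM_hv {R : Type*} [CommRing R] (y : Fin l → ℤ) :
    adM D (hv D R y) = madj_c D R (madj_H D y) := by
  unfold adM hv madj_H
  simp only [zero_smul, Finset.sum_const_zero, zero_add]
  rw [← madj_c_apply]
  ext i j
  rw [Matrix.sum_apply, Matrix.map_apply]
  by_cases hij : i = j
  · subst hij
    rcases i with i | β
    · simp
    · simp only [Matrix.smul_apply, Matrix.diagonal_apply_eq, smul_eq_mul]
      have h1 : bil D y β.1 = ∑ j, y j * bil D (Pi.single j 1) β.1 := by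
        conv_lhs => rw [eq_sum_single y]
        rw [bil_sum_left]
        exact Finset.sum_congr rfl (fun j _ => bil_smul_left D _ _ _)
      rw [h1]
      push_cast
      rfl
  · simp [Matrix.diagonal_apply_ne _ hij]

/-- the basic relation on a vector -/
def madj_P {R : Type*} [CommRing R] (X : Matrix (Idx D) (Idx D) R) (v : Idx D → R) : Prop :=
  X * adM D v = adM D (X *ᵥ v) * X

theorem madj_P_add {R : Type*} [CommRing R] {X : Matrix (Idx D) (Idx D) R} {v w : Idx D → R}
    (hv : madj_P D X v) (hw : madj_P D X w) : madj_P D X (v + w) := by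
  unfold madj_P at *
  rw [madj_adM_add, Matrix.mul_add, hv, hw, Matrix.mulVec_add, madj_adM_add, Matrix.add_mul]

theorem madj_P_smul {R : Type*} [CommRing R] {X : Matrix (Idx D) (Idx D) R} {v : Idx D → R}
    (c : R) (hv : madj_P D X v) : madj_P D X (c • v) := by
  unfold madj_P at *
  rw [madj_adM_smul, Matrix.mul_smul, hv, Matrix.mulVec_smul, madj_adM_smul, Matrix.smul_mul]

theorem madj_P_sum {R : Type*} [CommRing R] {X : Matrix (Idx D) (Idx D) R} {ι : Type*}
    (s : Finset ι) (f : ι → Idx D → R) (h : ∀ i, madj_P D X (f i)) :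
    madj_P D X (∑ i ∈ s, f i) := by
  classical
  induction s using Finset.induction_on with
  | empty =>
    have h0 : adM D (0 : Idx D → R) = 0 := by simp [adM]
    unfold madj_P
    rw [Finset.sum_empty, Matrix.mulVec_zero, h0, Matrix.mul_zero, Matrix.zero_mul]
  | insert a s ha ih =>
    rw [Finset.sum_insert ha]
    exact madj_P_add D (h a) ih

theorem madj_xM_c {R : Type*} [CommRing R] (α : Root D) (t : R) :
    xM D α t = 1 + t • madj_c D R (E D α) + t ^ 2 • madj_c D R (F D α) := rfl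

theorem madj_xM_ev {R : Type*} [CommRing R] (α β : Root D) (t : R) :
    madj_P D (xM D α t) (ev D R β) := by
  unfold madj_P
  have hr := bil_range D α β
  have h5 : bil D α.1 β.1 = -2 ∨ bil D α.1 β.1 = -1 ∨ 0 ≤ bil D α.1 β.1 := by omega
  rcases h5 with h5 | h5 | h5
  · have hβ : β = rneg D α := root_ext D ((bil_eq_neg_two_iff D α β).mp h5)
    rw [hβ, xM_ev_neg, sub_eq_add_neg, ← neg_smul, madj_adM_add, madj_adM_add, madj_adM_smul,
      madj_adM_smul, madj_adM_ev, madj_adM_ev, madj_adM_hv, madj_xM_c]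
    have h1 := congrArg (madj_c D R) (madj_EE' D α)
    have h2 := congrArg (madj_c D R) (madj_F_neg D α)
    have h3 := congrArg (madj_c D R) (madj_HF D α.1 α)
    have h4 := congrArg (madj_c D R) (E_mul_E D α)
    have h6 := congrArg (madj_c D R) (E_mul_F D α)
    rw [root_norm] at h3
    rw [madj_c_smul] at h3
    have h4' : (2 : ℕ) • F D α = (2 : ℤ) • F D α := by module
    rw [h4', madj_c_smul] at h4
    simp only [map_mul, map_add, map_sub, map_zero] at h1 h2 h3 h4 h6
    simp only [Matrix.mul_add, Matrix.add_mul, Matrix.mul_smul, Matrix.smul_mul, Matrix.one_mul,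
      Matrix.mul_one, h1, h2, h3, h4, h6, smul_zero, smul_add, smul_sub, smul_smul]
    push_cast
    module
  · have hγ : bil D (α.1 + β.1) (α.1 + β.1) = 2 := (add_root_iff D α β).mpr h5
    set γ : Root D := ⟨α.1 + β.1, hγ⟩ with hγd
    have hγv : γ.1 = α.1 + β.1 := rfl
    rw [xM_ev_add D α β γ hγv, madj_adM_add, madj_adM_smul, madj_adM_ev, madj_adM_ev, madj_xM_c]
    have h1 := congrArg (madj_c D R) (E_bracket D α β γ hγv)
    have h2 := congrArg (madj_c D R) (madj_F_add D α β γ hγv)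
    have h3 := congrArg (madj_c D R) (madj_EF_zero D γ α (by
      rw [hγv, bil_add_left, root_norm, bil_comm D β.1, h5]; norm_num))
    simp only [map_mul, map_add, map_zero, madj_c_smul] at h1 h2 h3
    simp only [Matrix.mul_add, Matrix.add_mul, Matrix.mul_smul, Matrix.smul_mul, Matrix.one_mul,
      Matrix.mul_one, h1, h2, h3, smul_zero, smul_add, smul_smul]
    module
  · rw [xM_ev_fix D α β h5, madj_adM_ev, madj_xM_c]
    have h1 := congrArg (madj_c D R) (E_commute D α β h5)
    have h2 := congrArg (madj_c D R) (madj_F_comm D α β h5)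
    simp only [map_mul] at h1 h2
    simp only [Matrix.mul_add, Matrix.add_mul, Matrix.mul_smul, Matrix.smul_mul, Matrix.one_mul,
      Matrix.mul_one, h1, h2]

theorem madj_xM_hv {R : Type*} [CommRing R] (α : Root D) (y : Fin l → ℤ) (t : R) :
    madj_P D (xM D α t) (hv D R y) := by
  unfold madj_P
  rw [xM_hv, sub_eq_add_neg, ← neg_smul, madj_adM_add, madj_adM_smul, madj_adM_ev, madj_adM_hv,
    madj_xM_c]
  have hHE := madj_HE D y α
  have hEH : E D α * madj_H D y = madj_H D y * E D α + (-bil D α.1 y) • E D α := by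
    rw [hHE, bil_comm D y α.1]; module
  have hFH : F D α * madj_H D y = madj_H D y * F D α + (-(2 * bil D α.1 y)) • F D α := by
    apply madj_mat_cancel
    have h2 : (2 : ℤ) • F D α = E D α * E D α := by rw [E_mul_E]; module
    have h3 : E D α * E D α * madj_H D y = madj_H D y * (E D α * E D α) +
        (-(2 * bil D α.1 y)) • (E D α * E D α) := by
      rw [Matrix.mul_assoc, hEH, Matrix.mul_add, ← Matrix.mul_assoc, hEH, Matrix.add_mul,
        Matrix.mul_smul, Matrix.smul_mul, Matrix.mul_assoc]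
      module
    rw [← smul_mul_assoc, h2, h3, ← h2, Matrix.mul_smul]
    module
  have h1 := congrArg (madj_c D R) hEH
  have h2 := congrArg (madj_c D R) hFH
  have h4 := congrArg (madj_c D R) (E_mul_E D α)
  have h6 := congrArg (madj_c D R) (E_mul_F D α)
  have h4' : (2 : ℕ) • F D α = (2 : ℤ) • F D α := by module
  rw [h4', madj_c_smul] at h4
  simp only [map_mul, map_add, map_zero, madj_c_smul] at h1 h2 h4 h6
  simp only [Matrix.mul_add, Matrix.add_mul, Matrix.mul_smul, Matrix.smul_mul, Matrix.one_mul,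
    Matrix.mul_one, h1, h2, h4, h6, smul_zero, smul_add, smul_smul]
  push_cast
  module

theorem madj_xM {R : Type*} [CommRing R] (α : Root D) (t : R) (v : Idx D → R) :
    madj_P D (xM D α t) v := by
  have hv : v = ∑ β : Root D, v (Sum.inr β) • ev D R β +
      ∑ j : Fin l, v (Sum.inl j) • hv D R (Pi.single j 1) := by
    funext i
    rw [Pi.add_apply, Finset.sum_apply, Finset.sum_apply]
    rcases i with i | β
    · simp [ev, hv, Pi.single_apply]
    · simp [ev, hv, Pi.single_apply]
  rw [hv]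
  apply madj_P_add
  · exact madj_P_sum D _ _ (fun β => madj_P_smul D _ (madj_xM_ev D α β t))
  · exact madj_P_sum D _ _ (fun j => madj_P_smul D _ (madj_xM_hv D α _ t))


/-- elements of the Chevalley group are automorphisms of the Lie algebra -/
theorem mat_adM {R : Type*} [CommRing R] (g : G D R) (v : Idx D → R) :
    mat D g * adM D v = adM D (mat D g *ᵥ v) * mat D g := by
  revert v
  refine G_induction D (p := fun g => ∀ v, mat D g * adM D v = adM D (mat D g *ᵥ v) * mat D g)
    ?_ ?_ g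
  · intro v
    rw [mat_one, Matrix.one_mul, Matrix.one_mulVec, Matrix.mul_one]
  · intro g α t ih v
    have h1 := madj_xM D α t v
    unfold madj_P at h1
    rw [mat_mul, mat_xg, Matrix.mul_assoc, h1, ← Matrix.mul_assoc, ih, Matrix.mul_assoc,
      Matrix.mulVec_mulVec]

/-- monomial matrices compatible with the Lie algebra structure -/
structure Mono {R : Type*} [CommRing R] (g : G D R) (w : (Fin l → ℤ) ≃+ (Fin l → ℤ))
    (χ : Root D → R) : Prop where
  isom : ∀ x y, bil D (w x) (w y) = bil D x y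
  he : ∀ β β' : Root D, β'.1 = w β.1 → mat D g *ᵥ ev D R β = χ β • ev D R β'
  hh : ∀ y, mat D g *ᵥ hv D R y = hv D R (w y)
  hmul : ∀ α β γ : Root D, γ.1 = α.1 + β.1 → ((sgn D α.1 β.1 : ℤ) : R) * χ γ =
    ((sgn D (w α.1) (w β.1) : ℤ) : R) * (χ α * χ β)
  hneg : ∀ β, χ β * χ (rneg D β) = 1

/-- the image of a root under an isometry -/
def wr (w : (Fin l → ℤ) ≃+ (Fin l → ℤ)) (hw : ∀ x y, bil D (w x) (w y) = bil D x y)
    (β : Root D) : Root D := ⟨w β.1, by rw [hw]; exact β.2⟩

theorem Mono.one {R : Type*} [CommRing R] :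
    Mono D (1 : G D R) (AddEquiv.refl _) (fun _ => 1) := by
  refine ⟨fun x y => rfl, ?_, ?_, ?_, ?_⟩
  · intro β β' h
    have : β' = β := root_ext D h
    rw [mat_one, Matrix.one_mulVec, one_smul, this]
  · intro y
    rw [mat_one, Matrix.one_mulVec]
    rfl
  · intro α β γ _
    simp
  · intro β
    simp

theorem Mono.mul {R : Type*} [CommRing R] {g g' : G D R} {w w' : (Fin l → ℤ) ≃+ (Fin l → ℤ)}
    {χ χ' : Root D → R} (h : Mono D g w χ) (h' : Mono D g' w' χ') :
    Mono D (g * g') (w'.trans w) (fun β => χ (wr D w' h'.isom β) * χ' β) := by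
  refine ⟨fun x y => ?_, ?_, ?_, ?_, ?_⟩
  · show bil D (w (w' x)) (w (w' y)) = bil D x y
    rw [h.isom, h'.isom]
  · intro β β' hb
    rw [mat_mul, ← Matrix.mulVec_mulVec, h'.he β (wr D w' h'.isom β) rfl, Matrix.mulVec_smul,
      h.he (wr D w' h'.isom β) β' hb, smul_smul, mul_comm]
  · intro y
    rw [mat_mul, ← Matrix.mulVec_mulVec, h'.hh, h.hh]
    rfl
  · intro α β γ hγ
    have e1 := h'.hmul α β γ hγ
    have e2 := h.hmul (wr D w' h'.isom α) (wr D w' h'.isom β) (wr D w' h'.isom γ) (by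
      show w' γ.1 = w' α.1 + w' β.1
      rw [hγ, map_add])
    have e3 : ((sgn D (w' α.1) (w' β.1) : ℤ) : R) * χ (wr D w' h'.isom γ) =
      ((sgn D (w (w' α.1)) (w (w' β.1)) : ℤ) : R) *
        (χ (wr D w' h'.isom α) * χ (wr D w' h'.isom β)) := e2
    show ((sgn D α.1 β.1 : ℤ) : R) * (χ (wr D w' h'.isom γ) * χ' γ) =
      ((sgn D (w (w' α.1)) (w (w' β.1)) : ℤ) : R) *
        ((χ (wr D w' h'.isom α) * χ' α) * (χ (wr D w' h'.isom β) * χ' β))
    linear_combination χ (wr D w' h'.isom γ) * e1 + (χ' α * χ' β) * e3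
  · intro β
    have e1 : wr D w' h'.isom (rneg D β) = rneg D (wr D w' h'.isom β) := by
      apply root_ext
      show w' (-β.1) = -w' β.1
      rw [map_neg]
    have e2 := h.hneg (wr D w' h'.isom β)
    have e3 := h'.hneg β
    show (χ (wr D w' h'.isom β) * χ' β) *
      (χ (wr D w' h'.isom (rneg D β)) * χ' (rneg D β)) = 1
    rw [e1]
    linear_combination (χ' β * χ' (rneg D β)) * e2 + e3

theorem Mono.inv {R : Type*} [CommRing R] {g : G D R} {w : (Fin l → ℤ) ≃+ (Fin l → ℤ)}
    {χ : Root D → R} (h : Mono D g w χ) :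
    ∃ χ' : Root D → R, Mono D g⁻¹ w.symm χ' ∧
      ∀ β β' : Root D, β'.1 = w β.1 → χ' β' * χ β = 1 := by
  have hw' : ∀ x y, bil D (w.symm x) (w.symm y) = bil D x y := by
    intro x y
    rw [← h.isom, AddEquiv.apply_symm_apply, AddEquiv.apply_symm_apply]
  have hinv : ∀ v : Idx D → R, mat D g⁻¹ *ᵥ (mat D g *ᵥ v) = v := by
    intro v
    rw [Matrix.mulVec_mulVec, ← mat_mul, inv_mul_cancel, mat_one, Matrix.one_mulVec]
  refine ⟨fun b => χ (rneg D (wr D w.symm hw' b)), ⟨hw', ?_, ?_, ?_, ?_⟩, ?_⟩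
  · intro β β' hb
    have e1 : mat D g *ᵥ ev D R β' = χ β' • ev D R β := h.he β' β (by
      rw [hb, AddEquiv.apply_symm_apply])
    have e2 := hinv (ev D R β')
    rw [e1, Matrix.mulVec_smul] at e2
    have e3 : wr D w.symm hw' β = β' := root_ext D hb.symm
    have e4 := h.hneg β'
    show _ = χ (rneg D (wr D w.symm hw' β)) • _
    rw [e3, ← e2, smul_smul, mul_comm, e4, one_smul]
  · intro y
    have e1 : mat D g *ᵥ hv D R (w.symm y) = hv D R y := by
      rw [h.hh, AddEquiv.apply_symm_apply]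
    rw [← e1, hinv]
  · intro α β γ hγ
    have e1 := h.hmul (rneg D (wr D w.symm hw' α)) (rneg D (wr D w.symm hw' β))
      (rneg D (wr D w.symm hw' γ)) (by
        show -(w.symm γ.1) = -(w.symm α.1) + -(w.symm β.1)
        rw [hγ, map_add, neg_add])
    have e2 : ((sgn D (w.symm α.1) (w.symm β.1) : ℤ) : R) * χ (rneg D (wr D w.symm hw' γ)) =
        ((sgn D α.1 β.1 : ℤ) : R) *
          (χ (rneg D (wr D w.symm hw' α)) * χ (rneg D (wr D w.symm hw' β))) := by
      have f1 : sgn D (rneg D (wr D w.symm hw' α)).1 (rneg D (wr D w.symm hw' β)).1 =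
          sgn D (w.symm α.1) (w.symm β.1) := by
        show sgn D (-(w.symm α.1)) (-(w.symm β.1)) = _
        rw [sgn_neg_left, sgn_neg_right]
      have f2 : sgn D (w (rneg D (wr D w.symm hw' α)).1) (w (rneg D (wr D w.symm hw' β)).1) =
          sgn D α.1 β.1 := by
        show sgn D (w (-(w.symm α.1))) (w (-(w.symm β.1))) = _
        rw [map_neg, map_neg, AddEquiv.apply_symm_apply, AddEquiv.apply_symm_apply,
          sgn_neg_left, sgn_neg_right]
      rw [f1, f2] at e1
      exact e1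
    have e3 : ((sgn D (w.symm α.1) (w.symm β.1) : ℤ) : R) *
        ((sgn D (w.symm α.1) (w.symm β.1) : ℤ) : R) = 1 := by
      exact_mod_cast congrArg (Int.cast : ℤ → R) (sgn_mul_self D (w.symm α.1) (w.symm β.1))
    have e4 : ((sgn D α.1 β.1 : ℤ) : R) * ((sgn D α.1 β.1 : ℤ) : R) = 1 := by
      exact_mod_cast congrArg (Int.cast : ℤ → R) (sgn_mul_self D α.1 β.1)
    show ((sgn D α.1 β.1 : ℤ) : R) * χ (rneg D (wr D w.symm hw' γ)) =
      ((sgn D (w.symm α.1) (w.symm β.1) : ℤ) : R) *
        (χ (rneg D (wr D w.symm hw' α)) * χ (rneg D (wr D w.symm hw' β)))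
    linear_combination (((sgn D (w.symm α.1) (w.symm β.1) : ℤ) : R) *
      ((sgn D α.1 β.1 : ℤ) : R)) * e2 -
      (((sgn D α.1 β.1 : ℤ) : R) * χ (rneg D (wr D w.symm hw' γ))) * e3 +
      (((sgn D (w.symm α.1) (w.symm β.1) : ℤ) : R) *
        (χ (rneg D (wr D w.symm hw' α)) * χ (rneg D (wr D w.symm hw' β)))) * e4
  · intro β
    have e1 : wr D w.symm hw' (rneg D β) = rneg D (wr D w.symm hw' β) := by
      apply root_ext
      show w.symm (-β.1) = -w.symm β.1
      rw [map_neg]
    show χ (rneg D (wr D w.symm hw' β)) * χ (rneg D (wr D w.symm hw' (rneg D β))) = 1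
    rw [e1]
    exact h.hneg (rneg D (wr D w.symm hw' β))
  · intro β β' hb
    have e3 : wr D w.symm hw' β' = β := by
      apply root_ext
      show w.symm β'.1 = β.1
      rw [hb, AddEquiv.symm_apply_apply]
    show χ (rneg D (wr D w.symm hw' β')) * χ β = 1
    rw [e3, mul_comm]
    exact h.hneg β

theorem Mono.conj_mat {R : Type*} [CommRing R] {g : G D R} {w : (Fin l → ℤ) ≃+ (Fin l → ℤ)}
    {χ : Root D → R} (h : Mono D g w χ) (β β' : Root D) (hβ : β'.1 = w β.1) (t : R) :
    mat D g * xM D β t = xM D β' (χ β * t) * mat D g := by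
  apply mat_ext D
  · intro γ
    obtain ⟨γ', hγ'⟩ : ∃ γ' : Root D, γ'.1 = w γ.1 := ⟨wr D w h.isom γ, rfl⟩
    have hbil : bil D β'.1 γ'.1 = bil D β.1 γ.1 := by rw [hβ, hγ', h.isom]
    rw [← Matrix.mulVec_mulVec, ← Matrix.mulVec_mulVec, h.he γ γ' hγ', Matrix.mulVec_smul]
    have hr := bil_range D β γ
    rcases le_or_gt 0 (bil D β.1 γ.1) with h0 | h0
    · rw [xM_ev_fix D β γ h0, xM_ev_fix D β' γ' (by rw [hbil]; exact h0), h.he γ γ' hγ']
    · have h1 : bil D β.1 γ.1 = -1 ∨ bil D β.1 γ.1 = -2 := by omega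
      rcases h1 with h1 | h1
      · obtain ⟨δ, hδ⟩ : ∃ δ : Root D, δ.1 = β.1 + γ.1 :=
          ⟨⟨β.1 + γ.1, (add_root_iff D β γ).2 h1⟩, rfl⟩
        obtain ⟨δ', hδ'⟩ : ∃ δ' : Root D, δ'.1 = w δ.1 := ⟨wr D w h.isom δ, rfl⟩
        have hδ2 : δ'.1 = β'.1 + γ'.1 := by rw [hδ', hδ, map_add, hβ, hγ']
        rw [xM_ev_add D β γ δ hδ, xM_ev_add D β' γ' δ' hδ2, Matrix.mulVec_add,
          Matrix.mulVec_smul, h.he γ γ' hγ', h.he δ δ' hδ', smul_add, smul_smul, smul_smul]
        congr 2
        have h2 := h.hmul β γ δ hδ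
        rw [hβ, hγ']
        linear_combination t * h2
      · have h2 : γ.1 = -β.1 := (bil_eq_neg_two_iff D β γ).1 h1
        have h3 : γ = rneg D β := root_ext D h2
        have h4 : γ' = rneg D β' := by
          apply root_ext D
          rw [hγ', h2, map_neg, ← hβ]
          rfl
        subst h3
        rw [h4, xM_ev_neg, xM_ev_neg, Matrix.mulVec_add, Matrix.mulVec_sub, Matrix.mulVec_smul,
          Matrix.mulVec_smul, h.hh, h.he β β' hβ, h.he (rneg D β) γ' hγ', h4, ← hβ]
        have h5 := h.hneg β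
        rw [smul_add, smul_sub, smul_smul, smul_smul, smul_smul]
        have h6 : χ (rneg D β) * (χ β * t) = t := by linear_combination t * h5
        have h7 : χ (rneg D β) * (χ β * t) ^ 2 = t ^ 2 * χ β := by
          linear_combination t ^ 2 * χ β * h5
        rw [h6, h7]
  · intro y
    rw [← Matrix.mulVec_mulVec, ← Matrix.mulVec_mulVec, h.hh, xM_hv, xM_hv, Matrix.mulVec_sub,
      Matrix.mulVec_smul, h.hh, h.he β β' hβ, smul_smul, hβ, h.isom]
    congr 2
    ring

theorem Mono.conj {R : Type*} [CommRing R] {g : G D R} {w : (Fin l → ℤ) ≃+ (Fin l → ℤ)}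
    {χ : Root D → R} (h : Mono D g w χ) (β β' : Root D) (hβ : β'.1 = w β.1) (t : R) :
    g * xg D β t * g⁻¹ = xg D β' (χ β * t) := by
  rw [mul_inv_eq_iff_eq_mul]
  apply mat_injective D
  rw [mat_mul, mat_mul, mat_xg, mat_xg]
  exact Mono.conj_mat D h β β' hβ t

/-- the reflection in a root -/
def refl (α : Root D) : (Fin l → ℤ) ≃+ (Fin l → ℤ) where
  toFun y := y - bil D α.1 y • α.1
  invFun y := y - bil D α.1 y • α.1
  left_inv y := by
    simp only [bil_sub_right, bil_smul_right, α.2]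
    funext i
    simp only [Pi.sub_apply, Pi.smul_apply, smul_eq_mul]
    ring
  right_inv y := by
    simp only [bil_sub_right, bil_smul_right, α.2]
    funext i
    simp only [Pi.sub_apply, Pi.smul_apply, smul_eq_mul]
    ring
  map_add' y z := by
    simp only [bil_add_right]
    funext i
    simp only [Pi.sub_apply, Pi.smul_apply, Pi.add_apply, smul_eq_mul]
    ring

/-- `n_α(c)` -/
noncomputable def ng {R : Type*} [CommRing R] (α : Root D) (c : Rˣ) : G D R :=
  xg D α (c : R) * xg D (rneg D α) ((c⁻¹ : Rˣ) : R) * xg D α (c : R)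

theorem ng_mono_hv_neg {R : Type*} [CommRing R] (y : Fin l → ℤ) :
    hv D R (-y) = - hv D R y := by
  funext i
  rcases i with i | i <;> simp [hv]

theorem ng_mono_hv_sub {R : Type*} [CommRing R] (y z : Fin l → ℤ) (k : ℤ) :
    hv D R (y - k • z) = hv D R y - ((k : ℤ) : R) • hv D R z := by
  funext i
  rcases i with i | i <;> simp [hv]

theorem ng_mono_rr (α : Root D) : rneg D (rneg D α) = α := by
  apply root_ext
  show - - α.1 = α.1
  rw [neg_neg]

theorem ng_mono_act {R : Type*} [CommRing R] (α : Root D) (c : Rˣ) (z : Idx D → R) :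
    mat D (ng D α c) *ᵥ z =
      xM D α (c:R) *ᵥ (xM D (rneg D α) ((c⁻¹ : Rˣ):R) *ᵥ (xM D α (c:R) *ᵥ z)) := by
  rw [Matrix.mulVec_mulVec, Matrix.mulVec_mulVec]
  rfl

theorem ng_mono_e {R : Type*} [CommRing R] (α : Root D) (t : R) :
    xM D (rneg D α) t *ᵥ ev D R α =
      ev D R α + t • hv D R α.1 + t ^ 2 • ev D R (rneg D α) := by
  have h := xM_ev_neg D (rneg D α) t
  rw [ng_mono_rr] at h
  have h2 : (rneg D α).1 = -α.1 := rfl
  rw [h, h2, ng_mono_hv_neg, smul_neg, sub_neg_eq_add]

theorem ng_mono_h {R : Type*} [CommRing R] (α : Root D) (y : Fin l → ℤ) (t : R) :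
    xM D (rneg D α) t *ᵥ hv D R y =
      hv D R y + (t * (bil D α.1 y : ℤ)) • ev D R (rneg D α) := by
  have h2 : (rneg D α).1 = -α.1 := rfl
  rw [xM_hv, h2, bil_neg_left, Int.cast_neg, mul_neg, neg_smul, sub_neg_eq_add]

/-- the character -/
noncomputable def ngχ {R : Type*} [CommRing R] (α : Root D) (c : Rˣ) (β : Root D) : R :=
  if bil D α.1 β.1 = -1 then (c : R) * ((sgn D α.1 β.1 : ℤ) : R)
  else if bil D α.1 β.1 = 1 then ((c⁻¹ : Rˣ) : R) * ((sgn D α.1 β.1 : ℤ) : R)
  else if bil D α.1 β.1 = 2 then ((c⁻¹ : Rˣ) : R) ^ 2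
  else if bil D α.1 β.1 = -2 then (c : R) ^ 2
  else 1

theorem ng_mono_cases (α β : Root D) : bil D α.1 β.1 = -1 ∨ bil D α.1 β.1 = 1 ∨
    bil D α.1 β.1 = 2 ∨ bil D α.1 β.1 = -2 ∨ bil D α.1 β.1 = 0 := by
  have := bil_range D α β
  omega

theorem ng_mono_ss {R : Type*} [CommRing R] (x y : Fin l → ℤ) :
    ((sgn D x y : ℤ) : R) * ((sgn D x y : ℤ) : R) = 1 := by
  rw [← Int.cast_mul, sgn_mul_self, Int.cast_one]

theorem ng_mono_he {R : Type*} [CommRing R] (α : Root D) (c : Rˣ) (β β' : Root D)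
    (hβ : β'.1 = refl D α β.1) :
    mat D (ng D α c) *ᵥ ev D R β = ngχ D α c β • ev D R β' := by
  have hb : β'.1 = β.1 - bil D α.1 β.1 • α.1 := hβ
  have huv : (c : R) * ((c⁻¹ : Rˣ) : R) = 1 := c.mul_inv
  have hn : (rneg D α).1 = -α.1 := rfl
  have hs := ng_mono_ss D (R := R) α.1 β.1
  have haa : bil D α.1 α.1 = 2 := α.2
  rw [ng_mono_act]
  set u : R := (c : R) with hu
  set v : R := ((c⁻¹ : Rˣ) : R) with hv'
  rcases ng_mono_cases D α β with hk | hk | hk | hk | hk
  · -- k = -1
    have e1 : β'.1 = α.1 + β.1 := by rw [hb, hk, neg_one_smul, sub_neg_eq_add, add_comm]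
    have e2 : β.1 = (rneg D α).1 + β'.1 := by rw [hn, e1]; abel
    have hχ : ngχ D α c β = u * ((sgn D α.1 β.1 : ℤ) : R) := by
      unfold ngχ
      rw [if_pos hk]
    have hsg : sgn D (rneg D α).1 β'.1 = - sgn D α.1 β.1 := by
      rw [hn, e1, sgn_neg_left, sgn_add_right, sgn_self, neg_one_mul]
    have hk1 : 0 ≤ bil D (rneg D α).1 β.1 := by rw [hn, bil_neg_left, hk]; norm_num
    have hk2 : 0 ≤ bil D α.1 β'.1 := by rw [e1, bil_add_right, haa, hk]; norm_num
    rw [xM_ev_add D α β β' e1, mulVec_add, mulVec_smul, xM_ev_fix D _ _ hk1,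
      xM_ev_add D (rneg D α) β' β e2, hsg, Int.cast_neg, mulVec_add, mulVec_smul, mulVec_add,
      mulVec_smul, xM_ev_fix D α β' hk2, xM_ev_add D α β β' e1, hχ]
    set s : R := ((sgn D α.1 β.1 : ℤ) : R)
    funext i
    simp only [Pi.add_apply, Pi.smul_apply, smul_eq_mul]
    set x := ev D R β i
    set y := ev D R β' i
    linear_combination (-(x + s * u * y) * u * v) * hs - (x + s * u * y) * huv
  · -- k = 1
    have e1 : β'.1 = (rneg D α).1 + β.1 := by
      rw [hb, hk, one_smul, hn]; abel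
    have e2 : β.1 = α.1 + β'.1 := by rw [e1, hn]; abel
    have hχ : ngχ D α c β = v * ((sgn D α.1 β.1 : ℤ) : R) := by
      unfold ngχ
      rw [if_neg (by rw [hk]; norm_num), if_pos hk]
    have hsg : sgn D α.1 β'.1 = - sgn D α.1 β.1 := by
      rw [e1, hn, sgn_add_right, sgn_neg_right, sgn_self, neg_one_mul]
    have hsg2 : sgn D (rneg D α).1 β.1 = sgn D α.1 β.1 := by
      rw [hn, sgn_neg_left]
    have hk1 : 0 ≤ bil D α.1 β.1 := by rw [hk]; norm_num
    rw [xM_ev_fix D α β hk1, xM_ev_add D (rneg D α) β β' e1, mulVec_add, mulVec_smul,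
      xM_ev_fix D α β hk1, xM_ev_add D α β' β e2, hsg, hsg2, Int.cast_neg, hχ]
    set s : R := ((sgn D α.1 β.1 : ℤ) : R)
    funext i
    simp only [Pi.add_apply, Pi.smul_apply, smul_eq_mul]
    set x := ev D R β i
    set y := ev D R β' i
    linear_combination (-x * u * v) * hs - x * huv
  · -- k = 2
    have e0 : α = β := (bil_eq_two_iff D α β).1 hk
    subst e0
    have e1 : β' = rneg D α := by
      apply root_ext
      rw [hb, hk, hn]
      funext i
      simp only [Pi.sub_apply, Pi.smul_apply, Pi.neg_apply, smul_eq_mul]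
      ring
    subst e1
    have hχ : ngχ D α c α = v ^ 2 := by
      unfold ngχ
      rw [if_neg (by rw [hk]; norm_num), if_neg (by rw [hk]; norm_num), if_pos hk]
    have hk1 : 0 ≤ bil D α.1 α.1 := by rw [hk]; norm_num
    rw [xM_ev_fix D α α hk1, ng_mono_e, mulVec_add, mulVec_add, mulVec_smul, mulVec_smul,
      xM_ev_fix D α α hk1, xM_hv, xM_ev_neg, haa, hχ]
    funext i
    simp only [Pi.add_apply, Pi.sub_apply, Pi.smul_apply, smul_eq_mul, Int.cast_ofNat]
    set x := ev D R α i
    set y := ev D R (rneg D α) i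
    set z := hv D R α.1 i
    linear_combination (-v * z + x * (u * v - 1)) * huv
  · -- k = -2
    have e0 : β = rneg D α := root_ext D ((bil_eq_neg_two_iff D α β).1 hk)
    subst e0
    have e1 : β' = α := by
      apply root_ext
      rw [hb, hk, hn]
      funext i
      simp only [Pi.sub_apply, Pi.smul_apply, Pi.neg_apply, smul_eq_mul]
      ring
    subst e1
    have hχ : ngχ D β' c (rneg D β') = u ^ 2 := by
      unfold ngχ
      rw [if_neg (by rw [hk]; norm_num), if_neg (by rw [hk]; norm_num),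
        if_neg (by rw [hk]; norm_num), if_pos hk]
    have hk1 : 0 ≤ bil D β'.1 β'.1 := by rw [haa]; norm_num
    have hk2 : 0 ≤ bil D (rneg D β').1 (rneg D β').1 := by rw [root_norm]; norm_num
    rw [xM_ev_neg, mulVec_add, mulVec_sub, mulVec_smul, mulVec_smul, xM_ev_fix D _ _ hk2,
      ng_mono_h, ng_mono_e, haa, mulVec_add, mulVec_sub, mulVec_smul, mulVec_smul, mulVec_add,
      mulVec_smul, mulVec_add, mulVec_add, mulVec_smul, mulVec_smul, xM_ev_fix D _ _ hk1, xM_hv,
      xM_ev_neg, haa, hχ]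
    funext i
    simp only [Pi.add_apply, Pi.sub_apply, Pi.smul_apply, smul_eq_mul, Int.cast_ofNat]
    set x := ev D R β' i
    set y := ev D R (rneg D β') i
    set z := hv D R β'.1 i
    linear_combination ((u * v - 1) * y + (-u * u * v + 2 * u) * z + (u ^ 3 * v - 3 * u ^ 2) * x) * huv
  · -- k = 0
    have e1 : β' = β := by
      apply root_ext
      rw [hb, hk, zero_smul, sub_zero]
    subst e1
    have hχ : ngχ D α c β' = 1 := by
      unfold ngχ
      rw [if_neg (by rw [hk]; norm_num), if_neg (by rw [hk]; norm_num),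
        if_neg (by rw [hk]; norm_num), if_neg (by rw [hk]; norm_num)]
    have hk1 : 0 ≤ bil D α.1 β'.1 := by rw [hk]
    have hk2 : 0 ≤ bil D (rneg D α).1 β'.1 := by rw [hn, bil_neg_left, hk]; norm_num
    rw [xM_ev_fix D _ _ hk1, xM_ev_fix D _ _ hk2, xM_ev_fix D _ _ hk1, hχ, one_smul]

theorem ng_mono_hh {R : Type*} [CommRing R] (α : Root D) (c : Rˣ) (y : Fin l → ℤ) :
    mat D (ng D α c) *ᵥ hv D R y = hv D R (refl D α y) := by
  have huv : (c : R) * ((c⁻¹ : Rˣ) : R) = 1 := c.mul_inv
  have haa : bil D α.1 α.1 = 2 := α.2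
  have hk1 : 0 ≤ bil D α.1 α.1 := by rw [haa]; norm_num
  have hr : refl D α y = y - bil D α.1 y • α.1 := rfl
  rw [ng_mono_act, hr, ng_mono_hv_sub, xM_hv, mulVec_sub, mulVec_smul, ng_mono_h, ng_mono_e,
    mulVec_sub, mulVec_smul, mulVec_add, mulVec_smul, mulVec_add, mulVec_add, mulVec_smul,
    mulVec_smul, xM_hv, xM_hv, xM_ev_fix D _ _ hk1, xM_ev_neg, haa]
  funext i
  simp only [Pi.add_apply, Pi.sub_apply, Pi.smul_apply, smul_eq_mul, Int.cast_ofNat]
  set u : R := (c : R)
  set v : R := ((c⁻¹ : Rˣ) : R)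
  set k : R := ((bil D α.1 y : ℤ) : R)
  set x := ev D R α i
  set w := ev D R (rneg D α) i
  set z := hv D R α.1 i
  linear_combination (k * (-(v * w) - z + u * v * z + 2 * u * x - u ^ 2 * v * x)) * huv

theorem ng_mono_adM {R : Type*} [CommRing R] (β : Root D) (r : R) :
    adM D (r • ev D R β) = r • (E D β).map (Int.cast : ℤ → R) := by
  classical
  unfold adM
  rw [Finset.sum_eq_single β, Finset.sum_eq_zero, add_zero]
  · simp [ev]
  · intro j _
    simp [ev]
  · intro b _ hb
    simp [ev, hb]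
  · intro h
    exact absurd (Finset.mem_univ β) h

theorem ng_mono_E {R : Type*} [CommRing R] (α β γ : Root D) (h : γ.1 = α.1 + β.1) :
    (E D α).map (Int.cast : ℤ → R) *ᵥ ev D R β = ((sgn D α.1 β.1 : ℤ) : R) • ev D R γ := by
  classical
  have hne : ¬ β.1 = -α.1 := by
    intro h1
    have h2 := γ.2
    rw [h, h1, add_neg_cancel, bil_zero_left] at h2
    norm_num at h2
  funext i
  unfold ev
  rw [Matrix.mulVec_single_one]
  rcases i with i | i
  · simp [E, hne, Matrix.col_apply]
  · by_cases h1 : i = γ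
    · subst h1
      simp [E, h, Matrix.col_apply]
    · have h2 : ¬ (i.1 = α.1 + β.1) := by
        rw [← h]
        exact fun h3 => h1 (root_ext D h3)
      simp [E, h2, h1, Matrix.col_apply]

theorem ng_mono {R : Type*} [CommRing R] (α : Root D) (c : Rˣ) :
    ∃ χ, Mono D (ng D α c) (refl D α) χ := by
  have hisom : ∀ x y, bil D (refl D α x) (refl D α y) = bil D x y := by
    intro x y
    have hx : refl D α x = x - bil D α.1 x • α.1 := rfl
    have hy : refl D α y = y - bil D α.1 y • α.1 := rfl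
    rw [hx, hy, bil_sub_left, bil_sub_right, bil_sub_right, bil_smul_left, bil_smul_left,
      bil_smul_right, bil_smul_right, α.2, bil_comm D x α.1]
    ring
  refine ⟨ngχ D α c, hisom, fun β β' h => ng_mono_he D α c β β' h,
    fun y => ng_mono_hh D α c y, ?_, ?_⟩
  · intro a b g hg
    set w := refl D α with hw
    set a' := wr D w hisom a with ha'
    set b' := wr D w hisom b with hb'
    set g' := wr D w hisom g with hg'
    have hg2 : g'.1 = a'.1 + b'.1 := by
      show w g.1 = w a.1 + w b.1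
      rw [hg, map_add]
    have h1 := mat_adM D (ng D α c) (ev D R a)
    rw [ng_mono_he D α c a a' rfl, ng_mono_adM] at h1
    have h1' : adM D (ev D R a) = (E D a).map (Int.cast : ℤ → R) := by
      have := ng_mono_adM D a (1 : R)
      rwa [one_smul, one_smul] at this
    rw [h1'] at h1
    have h2 : (mat D (ng D α c) * (E D a).map (Int.cast : ℤ → R)) *ᵥ ev D R b =
        _ *ᵥ ev D R b := congrArg (fun M => M *ᵥ ev D R b) h1
    rw [← Matrix.mulVec_mulVec, ← Matrix.mulVec_mulVec, ng_mono_E D a b g hg, mulVec_smul,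
      ng_mono_he D α c g g' rfl, ng_mono_he D α c b b' rfl, mulVec_smul, Matrix.smul_mulVec,
      ng_mono_E D a' b' g' hg2] at h2
    have h3 := congrFun h2 (Sum.inr g')
    simp only [Pi.smul_apply, smul_eq_mul, ev, Pi.single_eq_same, mul_one] at h3
    rw [h3]
    show _ = ((sgn D a'.1 b'.1 : ℤ) : R) * _
    ring
  · intro β
    have huv : (c : R) * ((c⁻¹ : Rˣ) : R) = 1 := c.mul_inv
    have hs := ng_mono_ss D (R := R) α.1 β.1
    have hn : (rneg D β).1 = -β.1 := rfl
    unfold ngχ
    rw [hn, bil_neg_right, sgn_neg_right]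
    rcases ng_mono_cases D α β with hk | hk | hk | hk | hk
    · rw [hk]
      norm_num
      linear_combination ((c : R) * ((c⁻¹ : Rˣ) : R)) * hs + huv
    · rw [hk]
      norm_num
      linear_combination ((c : R) * ((c⁻¹ : Rˣ) : R)) * hs + huv
    · rw [hk]
      norm_num
      linear_combination ((c : R) * ((c⁻¹ : Rˣ) : R) + 1) * huv
    · rw [hk]
      norm_num
      linear_combination ((c : R) * ((c⁻¹ : Rˣ) : R) + 1) * huv
    · rw [hk]
      norm_num

/-- `h_α(c)` -/
noncomputable def hg {R : Type*} [CommRing R] (α : Root D) (c : Rˣ) : G D R :=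
  ng D α c * ng D α (-1)

theorem hgaux_sq {R : Type*} [CommRing R] (x y : Fin l → ℤ) :
    ((sgn D x y : ℤ) : R) * ((sgn D x y : ℤ) : R) = 1 := by
  rw [← Int.cast_mul, sgn_mul_self, Int.cast_one]

theorem hgaux_cc {R : Type*} [CommRing R] (c : Rˣ) : (c : R) * ((c⁻¹ : Rˣ) : R) = 1 := by
  rw [← Units.val_mul, mul_inv_cancel, Units.val_one]

theorem hgaux_mat {R : Type*} [CommRing R] (α : Root D) (c : Rˣ) (v : Idx D → R) :
    mat D (ng D α c) *ᵥ v = xM D α (c : R) *ᵥ
      (xM D (rneg D α) ((c⁻¹ : Rˣ) : R) *ᵥ (xM D α (c : R) *ᵥ v)) := by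
  unfold ng
  rw [mat_mul, mat_mul, mat_xg, mat_xg, Matrix.mulVec_mulVec, Matrix.mulVec_mulVec,
    Matrix.mul_assoc]

theorem hgaux_rneg_add {α β γ : Root D} (h : γ.1 = α.1 + β.1) :
    β.1 = (rneg D α).1 + γ.1 := by
  show β.1 = -α.1 + γ.1
  rw [h]; abel

theorem hgaux_bil {α β γ : Root D} (h : γ.1 = α.1 + β.1) : bil D α.1 β.1 = -1 := by
  rw [← add_root_iff, ← h]
  exact γ.2

theorem hgaux_bilγ {α β γ : Root D} (h : γ.1 = α.1 + β.1) : bil D α.1 γ.1 = 1 := by
  have h1 := hgaux_bil D h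
  have h2 : bil D α.1 α.1 = 2 := α.2
  rw [h, bil_add_right, h1, h2]; norm_num

theorem hgaux_rneg_ev {R : Type*} [CommRing R] (α : Root D) (t : R) :
    xM D (rneg D α) t *ᵥ ev D R α = ev D R α + t • hv D R α.1 + t ^ 2 • ev D R (rneg D α) := by
  have h := xM_ev_neg D (rneg D α) t
  have h1 : rneg D (rneg D α) = α := root_ext D (neg_neg α.1)
  have h2 : hv D R (rneg D α).1 = - hv D R α.1 := by
    funext i
    rcases i with i | i
    · simp [hv, rneg]
    · simp [hv]
  rw [h1, h2] at h
  rw [h, smul_neg, sub_neg_eq_add]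

theorem hgaux_zero {R : Type*} [CommRing R] (α β : Root D) (c : Rˣ) (h : bil D α.1 β.1 = 0) :
    mat D (ng D α c) *ᵥ ev D R β = ev D R β := by
  have h' : 0 ≤ bil D (rneg D α).1 β.1 := by
    show 0 ≤ bil D (-α.1) β.1
    rw [bil_neg_left, h]; norm_num
  rw [hgaux_mat, xM_ev_fix D α β h.ge, xM_ev_fix D (rneg D α) β h', xM_ev_fix D α β h.ge]

theorem hgaux_neg_one {R : Type*} [CommRing R] (α β γ : Root D) (h : γ.1 = α.1 + β.1) (c : Rˣ) :
    mat D (ng D α c) *ᵥ ev D R β = ((sgn D α.1 β.1 : ℤ) * (c : R)) • ev D R γ := by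
  have hb := hgaux_bil D h
  have hγ := hgaux_bilγ D h
  have h' : 0 ≤ bil D (rneg D α).1 β.1 := by
    show 0 ≤ bil D (-α.1) β.1
    rw [bil_neg_left, hb]; norm_num
  have hs : sgn D (rneg D α).1 γ.1 = - sgn D α.1 β.1 := by
    show sgn D (-α.1) γ.1 = _
    rw [sgn_neg_left, h, sgn_add_right, sgn_self]; ring
  rw [hgaux_mat, xM_ev_add D α β γ h, Matrix.mulVec_add, Matrix.mulVec_smul,
    xM_ev_fix D (rneg D α) β h', xM_ev_add D (rneg D α) γ β (hgaux_rneg_add D h), hs,
    Matrix.mulVec_add, Matrix.mulVec_smul, Matrix.mulVec_add, Matrix.mulVec_smul,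
    xM_ev_add D α β γ h, xM_ev_fix D α γ (by rw [hγ]; norm_num)]
  have h1 := hgaux_sq D (R := R) α.1 β.1
  have h2 := hgaux_cc c
  push_cast
  generalize ((sgn D α.1 β.1 : ℤ) : R) = s at *
  generalize (c : R) = u at *
  generalize ((c⁻¹ : Rˣ) : R) = v at *
  funext i
  simp only [Pi.add_apply, Pi.smul_apply, smul_eq_mul]
  linear_combination (-(ev D R β i) * (u * v) - s * u * (ev D R γ i) * (u * v)) * h1 +
    (-(ev D R β i) - s * u * (ev D R γ i)) * h2

theorem hgaux_one {R : Type*} [CommRing R] (α β γ : Root D) (h : γ.1 = α.1 + β.1) (c : Rˣ) :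
    mat D (ng D α c) *ᵥ ev D R γ =
      (-((sgn D α.1 β.1 : ℤ) * ((c⁻¹ : Rˣ) : R))) • ev D R β := by
  have hγ := hgaux_bilγ D h
  have hs : sgn D (rneg D α).1 γ.1 = - sgn D α.1 β.1 := by
    show sgn D (-α.1) γ.1 = _
    rw [sgn_neg_left, h, sgn_add_right, sgn_self]; ring
  rw [hgaux_mat, xM_ev_fix D α γ (by rw [hγ]; norm_num),
    xM_ev_add D (rneg D α) γ β (hgaux_rneg_add D h), hs,
    Matrix.mulVec_add, Matrix.mulVec_smul,
    xM_ev_add D α β γ h, xM_ev_fix D α γ (by rw [hγ]; norm_num)]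
  have h1 := hgaux_sq D (R := R) α.1 β.1
  have h2 := hgaux_cc c
  push_cast
  generalize ((sgn D α.1 β.1 : ℤ) : R) = s at *
  generalize (c : R) = u at *
  generalize ((c⁻¹ : Rˣ) : R) = v at *
  funext i
  simp only [Pi.add_apply, Pi.smul_apply, smul_eq_mul]
  linear_combination (-(ev D R γ i) * (u * v)) * h1 + (-(ev D R γ i)) * h2

theorem hgaux_two {R : Type*} [CommRing R] (α : Root D) (c : Rˣ) :
    mat D (ng D α c) *ᵥ ev D R α = (((c⁻¹ : Rˣ) : R) ^ 2) • ev D R (rneg D α) := by
  have hb : bil D α.1 α.1 = 2 := α.2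
  rw [hgaux_mat, xM_ev_fix D α α (by rw [hb]; norm_num), hgaux_rneg_ev, Matrix.mulVec_add,
    Matrix.mulVec_add, Matrix.mulVec_smul, Matrix.mulVec_smul, xM_ev_neg, xM_hv,
    xM_ev_fix D α α (by rw [hb]; norm_num), hb]
  have h2 := hgaux_cc c
  push_cast
  generalize (c : R) = u at *
  generalize ((c⁻¹ : Rˣ) : R) = v at *
  funext i
  simp only [Pi.add_apply, Pi.sub_apply, Pi.smul_apply, smul_eq_mul]
  linear_combination (-2 * ev D R α i - v * hv D R α.1 i + (u * v + 1) * ev D R α i) * h2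

theorem hgaux_neg_two {R : Type*} [CommRing R] (α : Root D) (c : Rˣ) :
    mat D (ng D α c) *ᵥ ev D R (rneg D α) = ((c : R) ^ 2) • ev D R α := by
  have hb : bil D α.1 α.1 = 2 := α.2
  have hb' : 0 ≤ bil D (rneg D α).1 (rneg D α).1 := by
    rw [(rneg D α).2]; norm_num
  have hb2 : bil D (rneg D α).1 α.1 = -2 := by
    show bil D (-α.1) α.1 = -2
    rw [bil_neg_left, hb]
  rw [hgaux_mat, xM_ev_neg, Matrix.mulVec_add, Matrix.mulVec_sub, Matrix.mulVec_smul,
    Matrix.mulVec_smul, xM_ev_fix D (rneg D α) (rneg D α) hb', xM_hv, hgaux_rneg_ev, hb2]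
  have h2 := hgaux_cc c
  have e : ev D R (rneg D α) - (c : R) • (hv D R α.1 -
      (((c⁻¹ : Rˣ) : R) * ((-2 : ℤ) : R)) • ev D R (rneg D α)) +
      (c : R) ^ 2 • (ev D R α + ((c⁻¹ : Rˣ) : R) • hv D R α.1 +
        ((c⁻¹ : Rˣ) : R) ^ 2 • ev D R (rneg D α)) = ((c : R) ^ 2) • ev D R α := by
    push_cast
    generalize (c : R) = u at *
    generalize ((c⁻¹ : Rˣ) : R) = v at *
    funext i
    simp only [Pi.add_apply, Pi.sub_apply, Pi.smul_apply, smul_eq_mul]
    linear_combination (-2 * ev D R (rneg D α) i + u * hv D R α.1 i +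
      (u * v + 1) * ev D R (rneg D α) i) * h2
  rw [e, Matrix.mulVec_smul, xM_ev_fix D α α (by rw [hb]; norm_num)]

theorem hgaux_hg_mat {R : Type*} [CommRing R] (α : Root D) (c : Rˣ) (v : Idx D → R) :
    mat D (hg D α c) *ᵥ v = mat D (ng D α c) *ᵥ (mat D (ng D α (-1)) *ᵥ v) := by
  unfold hg
  rw [mat_mul, Matrix.mulVec_mulVec]

theorem hg_mono {R : Type*} [CommRing R] (α : Root D) (c : Rˣ) :
    Mono D (hg D α c) (AddEquiv.refl _)
      (fun β => ((c ^ (bil D α.1 β.1) : Rˣ) : R)) where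
  isom _ _ := rfl
  he β β' hβ := by
    have hβ' : β' = β := root_ext D hβ
    subst hβ'
    rw [hgaux_hg_mat]
    obtain ⟨hlo, hhi⟩ := bil_range D α β'
    have hcases : bil D α.1 β'.1 = -2 ∨ bil D α.1 β'.1 = -1 ∨ bil D α.1 β'.1 = 0 ∨
        bil D α.1 β'.1 = 1 ∨ bil D α.1 β'.1 = 2 := by omega
    rcases hcases with h | h | h | h | h
    · have hβ2 : β' = rneg D α := root_ext D ((bil_eq_neg_two_iff D α β').mp h)
      rw [h, hβ2, hgaux_neg_two, Matrix.mulVec_smul, hgaux_two, smul_smul]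
      congr 1
      simp
    · obtain ⟨γ, hγ⟩ : ∃ γ : Root D, γ.1 = α.1 + β'.1 :=
        ⟨⟨α.1 + β'.1, (add_root_iff D α β').mpr h⟩, rfl⟩
      rw [h, hgaux_neg_one D α β' γ hγ, Matrix.mulVec_smul, hgaux_one D α β' γ hγ, smul_smul]
      congr 1
      have h1 := hgaux_sq D (R := R) α.1 β'.1
      simp only [Units.val_neg, Units.val_one, _root_.zpow_neg, _root_.zpow_one]
      linear_combination ((c⁻¹ : Rˣ) : R) * h1
    · rw [h, hgaux_zero D α β' (-1) h, hgaux_zero D α β' c h]
      simp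
    · have hβ1 : bil D (-α.1) β'.1 = -1 := by rw [bil_neg_left, h]
      obtain ⟨δ, hδ⟩ : ∃ δ : Root D, δ.1 = -α.1 + β'.1 :=
        ⟨⟨(rneg D α).1 + β'.1, (add_root_iff D (rneg D α) β').mpr hβ1⟩, rfl⟩
      have hγ : β'.1 = α.1 + δ.1 := by rw [hδ]; abel
      rw [h, hgaux_one D α δ β' hγ, Matrix.mulVec_smul, hgaux_neg_one D α δ β' hγ, smul_smul]
      congr 1
      have h1 := hgaux_sq D (R := R) α.1 δ.1
      simp only [Units.val_neg, inv_neg, inv_one, Units.val_one, _root_.zpow_one]
      linear_combination (c : R) * h1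
    · have hβ2 : α = β' := (bil_eq_two_iff D α β').mp h
      subst hβ2
      rw [h, hgaux_two, Matrix.mulVec_smul, hgaux_neg_two, smul_smul]
      congr 1
      simp only [Units.val_neg, inv_neg, inv_one, Units.val_one]
      rw [show ((2 : ℤ)) = ((2 : ℕ) : ℤ) by norm_num, zpow_natCast]
      push_cast
      ring
  hh y := by
    obtain ⟨χ, hχ⟩ := ng_mono D α c
    obtain ⟨χ', hχ'⟩ := ng_mono D (R := R) α (-1)
    rw [hgaux_hg_mat, hχ'.hh, hχ.hh]
    congr 1
    exact (refl D α).left_inv y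
  hmul a b g hg := by
    have e : bil D α.1 g.1 = bil D α.1 a.1 + bil D α.1 b.1 := by rw [hg, bil_add_right]
    show ((sgn D a.1 b.1 : ℤ) : R) * ((c ^ (bil D α.1 g.1) : Rˣ) : R) =
      ((sgn D a.1 b.1 : ℤ) : R) * (((c ^ (bil D α.1 a.1) : Rˣ) : R) *
        ((c ^ (bil D α.1 b.1) : Rˣ) : R))
    rw [e, _root_.zpow_add, Units.val_mul]
  hneg b := by
    show ((c ^ (bil D α.1 b.1) : Rˣ) : R) * ((c ^ (bil D α.1 (-b.1)) : Rˣ) : R) = 1
    rw [bil_neg_right, ← Units.val_mul, ← _root_.zpow_add, add_neg_cancel, _root_.zpow_zero, Units.val_one]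

theorem tor_aux {R : Type*} [CommRing R] (ν : Fin l → ℤ) (c : Rˣ) (s : Finset (Fin l)) :
    ∃ g : G D R, Mono D g (AddEquiv.refl _) (fun β =>
      ((c ^ (bil D (∑ i ∈ s, ν i • (Pi.single i (1 : ℤ) : Fin l → ℤ)) β.1) : Rˣ) : R)) := by
  classical
  induction s using Finset.induction_on with
  | empty =>
    refine ⟨1, ?_⟩
    have e : (fun β : Root D => ((c ^ (bil D (∑ i ∈ (∅ : Finset (Fin l)),
        ν i • (Pi.single i (1 : ℤ) : Fin l → ℤ)) β.1) : Rˣ) : R)) = fun _ => 1 := by
      funext β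
      rw [Finset.sum_empty, bil_zero_left, _root_.zpow_zero, Units.val_one]
    rw [e]
    exact Mono.one D
  | insert i s hi ih =>
    obtain ⟨g, hg'⟩ := ih
    refine ⟨hg D (sr D i) (c ^ (ν i)) * g, ?_⟩
    have h := Mono.mul D (hg_mono D (sr D i) (c ^ (ν i))) hg'
    have e : (fun β : Root D => ((c ^ (bil D (∑ i ∈ insert i s,
        ν i • (Pi.single i (1 : ℤ) : Fin l → ℤ)) β.1) : Rˣ) : R)) = fun β =>
        (((c ^ (ν i)) ^ (bil D (sr D i).1 β.1) : Rˣ) : R) *
        ((c ^ (bil D (∑ i ∈ s, ν i • (Pi.single i (1 : ℤ) : Fin l → ℤ)) β.1) : Rˣ) : R) := by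
      funext β
      rw [Finset.sum_insert hi, bil_add_left, bil_smul_left, ← _root_.zpow_mul, ← Units.val_mul,
        ← _root_.zpow_add]
      rfl
    rw [e]
    exact h

/-- torus elements -/
theorem exists_torus {R : Type*} [CommRing R] (ν : Fin l → ℤ) (c : Rˣ) :
    ∃ g : G D R, Mono D g (AddEquiv.refl _) (fun β => ((c ^ (bil D ν β.1) : Rˣ) : R)) := by
  have h := tor_aux D (R := R) ν c Finset.univ
  rw [← eq_sum_single ν] at h
  exact h

end Pool.Agent.Helper255.CF
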