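import Pool.Agent.Helper255.CF.FoldC
import Pool.Agent.Helper255.CF.Diag

set_option autoImplicit false

namespace Pool.Agent.Helper255.CF

open Matrix

variable {l : ℕ} {D : SLCartan l} (S : Folding D)

/-! general lemmas on foldings -/

theorem bil_double833 (x y : Fin l → ℤ) :
    bil D x y = ∑ i, ∑ j, (D.M i j + D.M j i) * x i * y j := by
  have h1 : eta D x y = ∑ i, ∑ j, D.M i j * x i * y j := by
    unfold eta dotProduct Matrix.mulVec dotProduct
    apply Finset.sum_congr rfl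
    intro i _
    rw [Finset.mul_sum]
    apply Finset.sum_congr rfl
    intro j _
    ring
  have h2 : eta D y x = ∑ i, ∑ j, D.M j i * x i * y j := by
    rw [Finset.sum_comm]
    unfold eta dotProduct Matrix.mulVec dotProduct
    apply Finset.sum_congr rfl
    intro i _
    rw [Finset.mul_sum]
    apply Finset.sum_congr rfl
    intro j _
    ring
  rw [bil, h1, h2, ← Finset.sum_add_distrib]
  apply Finset.sum_congr rfl
  intro i _
  rw [← Finset.sum_add_distrib]
  apply Finset.sum_congr rfl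
  intro j _
  ring

theorem pv_invol833 (σ : Equiv.Perm (Fin l)) (h2 : ∀ i, σ (σ i) = i) (x : Fin l → ℤ) (i : Fin l) :
    pv σ x i = x (σ i) := by
  unfold pv
  congr 1
  rw [Equiv.Perm.inv_eq_iff_eq]
  exact (h2 i).symm

theorem bil_pv_invol833 (σ : Equiv.Perm (Fin l)) (hM : ∀ i j, D.M (σ i) (σ j) = D.M i j)
    (h2 : ∀ i, σ (σ i) = i) (x : Fin l → ℤ) : bil D (pv σ x) (pv σ x) = bil D x x := by
  rw [bil_double833, bil_double833]
  rw [← Equiv.sum_comp σ]
  apply Finset.sum_congr rfl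
  intro i _
  rw [← Equiv.sum_comp σ]
  apply Finset.sum_congr rfl
  intro j _
  rw [pv_invol833 σ h2, pv_invol833 σ h2, h2, h2, hM, hM]

theorem bil_even833 (σ : Equiv.Perm (Fin l)) (hM : ∀ i j, D.M (σ i) (σ j) = D.M i j)
    (h2 : ∀ i, σ (σ i) = i) (hno : ∀ i, σ i ≠ i → D.M i (σ i) + D.M (σ i) i = 0)
    (x : Fin l → ℤ) : ((bil D x (pv σ x) : ℤ) : ZMod 2) = 0 := by
  have h22 : ∀ a : ZMod 2, a + a = 0 := by decide
  rw [bil_double833, ← Finset.sum_product', Int.cast_sum]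
  refine Finset.sum_involution (fun p _ => (σ p.2, σ p.1)) ?_ ?_ ?_ ?_
  · rintro ⟨i, j⟩ _
    have h : (D.M (σ j) (σ i) + D.M (σ i) (σ j)) * x (σ j) * pv σ x (σ i)
        = (D.M i j + D.M j i) * x i * pv σ x j := by
      rw [pv_invol833 σ h2, pv_invol833 σ h2, hM, hM, h2]; ring
    show (((D.M i j + D.M j i) * x i * pv σ x j : ℤ) : ZMod 2)
      + (((D.M (σ j) (σ i) + D.M (σ i) (σ j)) * x (σ j) * pv σ x (σ i) : ℤ) : ZMod 2) = 0
    rw [h]; exact h22 _
  · rintro ⟨i, j⟩ _ hne heq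
    apply hne
    have hi : σ j = i := congrArg Prod.fst heq
    have hj : σ i = j := congrArg Prod.snd heq
    show (((D.M i j + D.M j i) * x i * pv σ x j : ℤ) : ZMod 2) = 0
    by_cases hs : σ i = i
    · have hij : j = i := by rw [← hj, hs]
      rw [hij, D.diag]
      have h3 : (1 + 1 : ℤ) * x i * pv σ x i = (x i * pv σ x i) + (x i * pv σ x i) := by ring
      rw [h3, Int.cast_add]; exact h22 _
    · have h3 := hno i hs
      rw [hj] at h3
      rw [h3, zero_mul, zero_mul, Int.cast_zero]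
  · intro p _; exact Finset.mem_product.2 ⟨Finset.mem_univ _, Finset.mem_univ _⟩
  · rintro ⟨i, j⟩ _
    show (σ (σ i), σ (σ j)) = (i, j)
    rw [h2, h2]

/-- an involution of the diagram that moves no node to a neighbour has orthogonal orbits -/
theorem orth_of_involution (σ : Equiv.Perm (Fin l)) (hM : ∀ i j, D.M (σ i) (σ j) = D.M i j)
    (h2 : ∀ i, σ (σ i) = i) (hno : ∀ i, σ i ≠ i → D.M i (σ i) + D.M (σ i) i = 0) (k : ℕ)
    (x : Fin l → ℤ) (hx : bil D x x = 2) :
    pv (σ ^ k) x = x ∨ bil D x (pv (σ ^ k) x) = 0 := by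
  have hsq : σ ^ 2 = 1 := by
    ext i
    rw [pow_two, Equiv.Perm.mul_apply, h2, Equiv.Perm.one_apply]
  rcases Nat.even_or_odd' k with ⟨m, hm | hm⟩
  · left
    rw [hm, pow_mul, hsq, one_pow, pv_one]
  · have hk : σ ^ k = σ := by rw [hm, pow_succ, pow_mul, hsq, one_pow, one_mul]
    rw [hk]
    obtain ⟨α, hα⟩ : ∃ α : Root D, α.1 = x := ⟨⟨x, hx⟩, rfl⟩
    obtain ⟨β, hβ⟩ : ∃ β : Root D, β.1 = pv σ x :=
      ⟨⟨pv σ x, (bil_pv_invol833 σ hM h2 x).trans hx⟩, rfl⟩
    obtain ⟨hr1, hr2⟩ := bil_range D α β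
    have hev := bil_even833 σ hM h2 hno x
    rw [ZMod.intCast_zmod_eq_zero_iff_dvd] at hev
    rw [hα, hβ] at hr1 hr2
    obtain ⟨c, hc⟩ := hev
    have hcases : bil D x (pv σ x) = 2 ∨ bil D x (pv σ x) = 0 ∨ bil D x (pv σ x) = -2 := by
      omega
    rcases hcases with h | h | h
    · left
      have h3 : α = β := by
        rw [← bil_eq_two_iff D α β, hα, hβ]; exact h
      rw [← hβ, ← h3, hα]
    · exact Or.inr h
    · exfalso
      have h3 : β.1 = -α.1 := by
        rw [← bil_eq_neg_two_iff D α β, hα, hβ]; exact h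
      have h4 : ht x = 0 := by
        have h5 := ht_pv σ x
        rw [← hβ, h3, hα, ht_neg] at h5
        omega
      rcases pos_or_neg D α with hp | hp
      · rw [pos_iff_ht, hα, h4] at hp
        exact lt_irrefl _ hp
      · have hp' : Pos (rneg D α).1 := hp
        rw [pos_iff_ht] at hp'
        have h6 : ht (rneg D α).1 = - ht α.1 := ht_neg α.1
        rw [h6, hα, h4] at hp'
        exact lt_irrefl _ hp'

/-- orbit representatives containing given ones -/
theorem exists_reps (P T : Finset (Root D)) (hP : ∀ γ ∈ P, sroot S γ ∈ P) (hT : T ⊆ P)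
    (hTi : ∀ a ∈ T, ∀ b ∈ T, b ∈ orb S a → b = a) : ∃ P₀, IsReps S P P₀ ∧ T ⊆ P₀ := by
  classical
  have hne : ∀ γ : Root D, (orb S γ).Nonempty := fun γ => ⟨γ, self_mem_orb S γ⟩
  let g : (s : Finset (Root D)) → s.Nonempty → Root D := fun s h => h.choose
  have hg : ∀ s h, g s h ∈ s := fun s h => h.choose_spec
  have hgc : ∀ s t (h : s.Nonempty) (h' : t.Nonempty), s = t → g s h = g t h' := by
    intro s t h h' hst
    subst hst
    rfl
  have hPo : ∀ γ ∈ P, ∀ γ' ∈ orb S γ, γ' ∈ P := fun γ hγ =>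
    orb_induction S (p := fun x => x ∈ P) γ hγ hP
  let f : Root D → Root D := fun γ => g (orb S γ) (hne γ)
  have hf : ∀ γ, f γ ∈ orb S γ := fun γ => hg _ _
  refine ⟨T ∪ (P.filter (fun γ => ∀ a ∈ T, a ∉ orb S γ)).image f, ⟨?_, ?_⟩,
    Finset.subset_union_left⟩
  · intro γ hγ
    rcases Finset.mem_union.1 hγ with h | h
    · exact hT h
    · obtain ⟨δ, hδ, rfl⟩ := Finset.mem_image.1 h
      exact hPo δ (Finset.mem_filter.1 hδ).1 _ (hf δ)
  · intro γ hγ
    by_cases hc : ∃ a ∈ T, a ∈ orb S γ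
    · obtain ⟨a, haT, ha⟩ := hc
      refine ⟨a, ⟨Finset.mem_union_left _ haT, ha⟩, ?_⟩
      rintro b ⟨hb, hbo⟩
      rcases Finset.mem_union.1 hb with h | h
      · apply hTi a haT b h
        rw [orb_eq S γ a ha]
        exact hbo
      · obtain ⟨δ, hδ, rfl⟩ := Finset.mem_image.1 h
        have h1 := (Finset.mem_filter.1 hδ).2 a haT
        have h2 : orb S (f δ) = orb S δ := orb_eq S δ _ (hf δ)
        have h3 : orb S (f δ) = orb S γ := orb_eq S γ _ hbo
        exact absurd (by rw [← h2, h3]; exact ha) h1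
    · have hc' : ∀ a ∈ T, a ∉ orb S γ := fun a ha h => hc ⟨a, ha, h⟩
      refine ⟨f γ, ⟨Finset.mem_union_right _ (Finset.mem_image_of_mem f
        (Finset.mem_filter.2 ⟨hγ, hc'⟩)), hf γ⟩, ?_⟩
      rintro b ⟨hb, hbo⟩
      rcases Finset.mem_union.1 hb with h | h
      · exact absurd hbo (hc' b h)
      · obtain ⟨δ, hδ, rfl⟩ := Finset.mem_image.1 h
        have h2 : orb S (f δ) = orb S δ := orb_eq S δ _ (hf δ)
        have h3 : orb S (f δ) = orb S γ := orb_eq S γ _ hbo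
        exact hgc _ _ _ _ (h2.symm.trans h3)

/-- sums over orbits as sums over vectors -/
theorem sum_orb_vec (n : ℕ) (hn : 0 < n) (hσ : S.σ ^ n = 1) (β : Root D) (f : (Fin l → ℤ) → ℤ) :
    ∑ γ ∈ orb S β, f γ.1 = ∑ v ∈ (Finset.range n).image (fun k => pv (S.σ ^ k) β.1), f v := by
  have h : (Finset.range n).image (fun k => pv (S.σ ^ k) β.1) =
      (orb S β).image (fun γ : Root D => γ.1) := by
    ext v
    simp only [Finset.mem_image, Finset.mem_range]
    constructor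
    · rintro ⟨k, hk, rfl⟩
      refine ⟨⟨pv (S.σ ^ k) β.1, by rw [bil_pv]; exact β.2⟩, ?_, rfl⟩
      rw [mem_orb]
      exact ⟨k, rfl⟩
    · rintro ⟨γ, hγ, rfl⟩
      rw [mem_orb] at hγ
      obtain ⟨k, hk⟩ := hγ
      refine ⟨k % n, Nat.mod_lt _ hn, ?_⟩
      rw [hk, pow_eq_pow_mod k hσ]
  rw [h, Finset.sum_image (fun a _ b _ hab => root_ext D hab)]

/-- membership in an orbit, computably -/
theorem mem_orb_vec (n : ℕ) (hn : 0 < n) (hσ : S.σ ^ n = 1) (β γ : Root D) :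
    γ ∈ orb S β ↔ γ.1 ∈ (Finset.range n).image (fun k => pv (S.σ ^ k) β.1) := by
  rw [mem_orb]
  simp only [Finset.mem_image, Finset.mem_range]
  constructor
  · rintro ⟨k, hk⟩
    refine ⟨k % n, Nat.mod_lt _ hn, ?_⟩
    rw [hk, pow_eq_pow_mod k hσ]
  · rintro ⟨k, _, hk⟩
    exact ⟨k, hk.symm⟩

/-- a coefficient that is at most one on all roots gives an abelian ideal -/
theorem PSet_of_minuscule (k : Fin l) (hk : S.σ k = k) (hmin : ∀ β : Root D, β.1 k ≤ 1)
    (P : Finset (Root D)) (hP : ∀ β, β ∈ P ↔ β.1 k = 1) :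
    PSet S P ∧ ∀ β : Root D, β.1 k = 0 → JR P β := by
  refine ⟨⟨?_, ?_, ?_, ?_⟩, ?_⟩
  · intro γ hγ
    rw [hP] at hγ
    rcases pos_or_neg D γ with h | h
    · exact h
    · have := h k
      rw [Pi.neg_apply, hγ] at this
      omega
  · intro γ hγ β δ hβ hδ
    rw [hP] at hγ ⊢
    have h1 := hβ k
    have h2 := hmin δ
    have h3 : δ.1 k = γ.1 k + β.1 k := by rw [hδ, Pi.add_apply]
    omega
  · intro γ hγ δ hδ
    rw [hP] at hγ hδ
    have h1 := bil_range D γ δ
    by_contra hcon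
    have h2 : bil D γ.1 δ.1 = -1 ∨ bil D γ.1 δ.1 = -2 := by omega
    rcases h2 with h2 | h2
    · have h3 := (add_root_iff D γ δ).mpr h2
      have h4 := hmin ⟨γ.1 + δ.1, h3⟩
      change (γ.1 + δ.1) k ≤ 1 at h4
      rw [Pi.add_apply] at h4
      omega
    · have h3 := (bil_eq_neg_two_iff D γ δ).mp h2
      rw [h3, Pi.neg_apply] at hδ
      omega
  · intro γ hγ
    rw [hP] at hγ ⊢
    show pv S.σ γ.1 k = 1
    have h1 : S.σ⁻¹ k = k := by
      rw [Equiv.Perm.inv_eq_iff_eq, hk]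
    show γ.1 (S.σ⁻¹ k) = 1
    rw [h1, hγ]
  · intro β hβ
    refine ⟨?_, ?_⟩
    · rw [hP]
      show ¬ (-β.1) k = 1
      rw [Pi.neg_apply, hβ]
      omega
    · intro γ hγ δ hδ
      rw [hP] at hγ ⊢
      rw [hδ, Pi.add_apply, hγ, hβ]
      rfl

/-- enumeration of the positive roots -/
theorem pos_root_mem (L : Finset (Fin l → ℤ)) (h1 : ∀ i, (Pi.single i 1 : Fin l → ℤ) ∈ L)
    (h2 : ∀ v ∈ L, ∀ i, bil D (Pi.single i 1) v = -1 → v + Pi.single i 1 ∈ L) (β : Root D)
    (hβ : Pos β.1) : β.1 ∈ L := by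
  have key : ∀ n : ℕ, ∀ β : Root D, Pos β.1 → (ht β.1).toNat = n → β.1 ∈ L := by
    intro n
    induction n using Nat.strong_induction_on with
    | _ n ih =>
      intro β hβ hn
      by_cases hs : ∃ i, β = sr D i
      · obtain ⟨i, rfl⟩ := hs
        exact h1 i
      · push Not at hs
        obtain ⟨i, γ, hγ, hγp, hγb⟩ := exists_simple_sub D β hβ hs
        have h3 : ht γ.1 = ht β.1 - 1 := by
          have h4 : β.1 = γ.1 + (sr D i).1 := by rw [hγ]; abel
          rw [h4, ht_add]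
          have : ht (sr D i).1 = 1 := ht_single i
          omega
        have h5 := (pos_iff_ht D γ).mp hγp
        have h6 := ih (ht γ.1).toNat (by omega) γ hγp rfl
        have h7 := h2 γ.1 h6 i hγb
        have h8 : γ.1 + Pi.single i 1 = β.1 := by
          rw [hγ]
          show β.1 - Pi.single i 1 + Pi.single i 1 = β.1
          abel
        rwa [h8] at h7
  exact key _ β hβ rfl

/-- a step whose coefficient is a single sign -/
theorem StepRel_of_unique (p : ℕ) [Fact p.Prime] (P : Finset (Root D)) (γ γ' β : Root D)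
    (hγ' : γ' ∈ P) (hβ : β.1 = γ'.1 - γ.1) (hJ : JR P β)
    (hu : ∀ β' ∈ orb S β, ∀ γ'' ∈ orb S γ, γ'.1 = β'.1 + γ''.1 → γ'' = γ) :
    StepRel S p P γ γ' := by
  classical
  refine ⟨hγ', Or.inr ⟨β, hJ, ?_⟩⟩
  have hsum : ∑ β' ∈ orb S β, ∑ γ'' ∈ orb S γ, E D β' (Sum.inr γ') (Sum.inr γ'') =
      sgn D β.1 γ.1 := by
    rw [Finset.sum_eq_single β]
    · rw [Finset.sum_eq_single γ]
      · have h1 : γ'.1 = β.1 + γ.1 := by rw [hβ]; abel
        simp [E, h1]
      · intro γ'' hγ'' hne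
        have h2 : ¬ (γ'.1 = β.1 + γ''.1) := fun h =>
          hne (hu β (self_mem_orb S β) γ'' hγ'' h)
        simp [E, h2]
      · intro h
        exact absurd (self_mem_orb S γ) h
    · intro β' hβ' hne
      refine Finset.sum_eq_zero fun γ'' hγ'' => ?_
      have h2 : ¬ (γ'.1 = β'.1 + γ''.1) := by
        intro h
        have h3 := hu β' hβ' γ'' hγ'' h
        subst h3
        apply hne
        apply root_ext D
        rw [hβ, h]
        abel
      simp [E, h2]
    · intro h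
      exact absurd (self_mem_orb S β) h
  rw [hsum]
  intro hdvd
  unfold sgn at hdvd
  have hu2 : IsUnit (p : ℤ) := isUnit_of_dvd_unit hdvd (Units.isUnit _)
  have hp2 : 2 ≤ p := (Fact.out : p.Prime).two_le
  rcases Int.isUnit_iff.mp hu2 with h | h <;> omega

open Classical in
/-- roots with coefficient one at a node -/
noncomputable def PK (D : SLCartan l) (k : Fin l) : Finset (Root D) :=
  Finset.univ.filter fun β => β.1 k = 1

theorem mem_PK (D : SLCartan l) (k : Fin l) (β : Root D) : β ∈ PK D k ↔ β.1 k = 1 := by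
  simp [PK]

/-- from a minuscule node to the data -/
theorem data_of_minuscule (p : ℕ) [Fact p.Prime] (k : Fin l) (hk : S.σ k = k)
    (hmin : ∀ β : Root D, β.1 k ≤ 1)
    (hgood : ∀ δ : Root D, Pos δ.1 → δ.1 k = 0 → Good S p (PK D k) δ)
    (hconn : ∃ γ₀ ∈ PK D k, ∀ γ ∈ PK D k, Relation.ReflTransGen (StepRel S p (PK D k)) γ γ₀) :
    ∃ P P₀ γ₀, EData S p P P₀ γ₀ := by
  classical
  obtain ⟨γ₀, hγ₀, hc⟩ := hconn
  have hP := (PSet_of_minuscule S k hk hmin (PK D k) (mem_PK D k)).1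
  obtain ⟨P₀, hP₀, hT⟩ := exists_reps S (PK D k) {γ₀} hP.stab
    (Finset.singleton_subset_iff.mpr hγ₀) (by
      intro a ha b hb _
      rw [Finset.mem_singleton] at ha hb
      rw [ha, hb])
  refine ⟨PK D k, P₀, γ₀, ⟨hP, hP₀, hT (Finset.mem_singleton_self _), hc, ?_⟩⟩
  intro δ hδ hδP
  apply hgood δ hδ
  have h1 := hδ k
  have h2 := hmin δ
  have h3 : δ.1 k ≠ 1 := fun h => hδP ((mem_PK D k δ).mpr h)
  omega

/-- the trivial folding -/
def fTriv (D : SLCartan l) : Folding D where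
  σ := 1
  hM := fun _ _ => rfl
  orth := fun k x _ => Or.inl (by rw [one_pow]; rfl)

/-- simply laced types -/
theorem triv_data (hl : 0 < l) (D : SLCartan l) (p : ℕ) [Fact p.Prime] :
    ∃ P P₀ γ₀, EData (fTriv D) p P P₀ γ₀ := by
  classical
  obtain ⟨α₀, hα₀, hhigh⟩ := exists_highest D hl
  obtain ⟨P, hαP, hpos, hideal, hcomm, hself⟩ := exists_ideal D α₀ hα₀ hhigh
  have hpow : ∀ k : ℕ, (fTriv D).σ ^ k = 1 := fun k => by
    show (1 : Equiv.Perm (Fin l)) ^ k = 1
    exact one_pow k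
  have hmem : ∀ β γ : Root D, γ ∈ orb (fTriv D) β ↔ γ = β := by
    intro β γ
    rw [mem_orb]
    constructor
    · rintro ⟨k, hk⟩
      rw [hpow, pv_one] at hk
      exact Subtype.ext hk
    · rintro rfl
      exact ⟨0, by rw [hpow, pv_one]⟩
  have horb : ∀ β : Root D, orb (fTriv D) β = {β} := by
    intro β
    ext γ
    rw [hmem, Finset.mem_singleton]
  have hsr : ∀ γ : Root D, sroot (fTriv D) γ = γ := fun γ => Subtype.ext rfl
  have hPS : PSet (fTriv D) P := by
    refine ⟨hpos, hideal, hcomm, ?_⟩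
    intro γ hγ
    rw [hsr]
    exact hγ
  have hstep : ∀ γ ∈ P, γ ≠ α₀ → ∃ δ ∈ P, StepRel (fTriv D) p P γ δ ∧ ht δ.1 = ht γ.1 + 1 := by
    intro γ hγ hne
    obtain ⟨hlt, i, hi⟩ := hhigh γ (hpos γ hγ) hne
    have hr : bil D (γ.1 + (sr D i).1) (γ.1 + (sr D i).1) = 2 := by
      rw [add_root_iff D γ (sr D i), bil_comm]
      exact hi
    let δ : Root D := ⟨γ.1 + (sr D i).1, hr⟩
    have hδ : δ ∈ P := hideal γ hγ (sr D i) δ (pos_simple D i) rfl
    refine ⟨δ, hδ, ⟨hδ, Or.inr ⟨sr D i, JR_pos (fTriv D) P hPS (sr D i) (pos_simple D i), ?_⟩⟩, ?_⟩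
    · rw [horb, horb, Finset.sum_singleton, Finset.sum_singleton]
      have hE : E D (sr D i) (Sum.inr δ) (Sum.inr γ) = sgn D (sr D i).1 γ.1 := by
        show (if δ.1 = (sr D i).1 + γ.1 then sgn D (sr D i).1 γ.1 else 0) = _
        rw [if_pos (add_comm _ _)]
      rw [hE]
      intro hd
      have h1 : (p : ℤ) ∣ 1 := by
        rw [← sgn_mul_self D (sr D i).1 γ.1]
        exact Dvd.dvd.mul_right hd _
      have hp := (Fact.out : p.Prime)
      have := Int.natCast_dvd_natCast.1 (by simpa using h1 : (p : ℤ) ∣ ((1 : ℕ) : ℤ))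
      exact hp.one_lt.ne' (Nat.dvd_one.1 this)
    · show ht (γ.1 + (sr D i).1) = _
      rw [ht_add]
      congr 1
      exact ht_single i
  have hconn : ∀ n : ℕ, ∀ γ ∈ P, (ht α₀.1 - ht γ.1).toNat = n →
      Relation.ReflTransGen (StepRel (fTriv D) p P) γ α₀ := by
    intro n
    induction n using Nat.strong_induction_on with
    | _ n ih =>
      intro γ hγ hn
      by_cases hne : γ = α₀
      · subst hne; exact Relation.ReflTransGen.refl
      · obtain ⟨δ, hδ, hst, hht⟩ := hstep γ hγ hne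
        have hlt := (hhigh γ (hpos γ hγ) hne).1
        refine Relation.ReflTransGen.head hst (ih _ ?_ δ hδ rfl)
        omega
  refine ⟨P, P, α₀, hPS, ⟨fun _ h => h, ?_⟩, hαP, fun γ hγ => hconn _ γ hγ rfl, ?_⟩
  · intro γ hγ
    refine ⟨γ, ⟨hγ, (hmem γ γ).2 rfl⟩, ?_⟩
    rintro γ' ⟨_, h⟩
    exact (hmem γ γ').1 h
  · intro δ hδ hn
    obtain ⟨γ, hγ, hb⟩ := hself δ hδ hn
    refine ⟨γ, hγ, hb, Or.inl ?_⟩
    intro γ' hγ' hne
    exact absurd ((hmem γ γ').1 hγ') hne

end Pool.Agent.Helper255.CF
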