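import Pool.Agent.Helper255.CF.TypA

set_option autoImplicit false

namespace Pool.Agent.Helper255.CF

open Matrix

variable {l : ℕ} {D : SLCartan l} (S : Folding D)

/-! type `D_{l+1}` and its folding `B_l` -/

/-- the coordinates of `∑ x_i α_i` in the orthonormal basis `ε_0, ..., ε_l`, where
`α_i = ε_i - ε_{i+1}` for `i < l` and `α_l = ε_{l-1} + ε_l` -/
def dY (l : ℕ) (x : Fin (l + 1) → ℤ) (i : Fin (l + 1)) : ℤ :=
  x i - (if h : 0 < (i : ℕ) then x ⟨(i : ℕ) - 1, by omega⟩ else 0) +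
    (if (i : ℕ) + 1 = l then x (Fin.last l) else 0)

/-- extension of a vector by zero -/
def axE {n : ℕ} (x : Fin n → ℤ) (i : ℕ) : ℤ := if h : i < n then x ⟨i, h⟩ else 0

theorem axE_val {n : ℕ} (x : Fin n → ℤ) (i : Fin n) : axE x (i : ℕ) = x i := by
  unfold axE
  rw [dif_pos i.2]

/-- natural number version of the matrix -/
def axM (l i j : ℕ) : ℤ :=
  if i = j then 1
  else if (j = i + 1 ∧ j < l) ∨ (i + 2 = l ∧ j = l) then -1 else 0

theorem ax_DM (l : ℕ) (i j : Fin (l + 1)) : DM l i j = axM l i j := by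
  unfold DM axM
  rw [Matrix.of_apply]
  by_cases h : i = j
  · subst h
    simp
  · have h' : ¬ ((i : ℕ) = j) := fun hh => h (Fin.ext hh)
    rw [if_neg h, if_neg h']

theorem ax_dY (l : ℕ) (x : Fin (l + 1) → ℤ) (i : Fin (l + 1)) :
    dY l x i = axE x i - (if 0 < (i : ℕ) then axE x ((i : ℕ) - 1) else 0) +
      (if (i : ℕ) + 1 = l then axE x l else 0) := by
  unfold dY
  rw [axE_val]
  have h1 : (if h : 0 < (i : ℕ) then x ⟨(i : ℕ) - 1, by omega⟩ else 0)
      = (if 0 < (i : ℕ) then axE x ((i : ℕ) - 1) else 0) := by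
    by_cases h : 0 < (i : ℕ)
    · rw [dif_pos h, if_pos h]
      unfold axE
      rw [dif_pos (by omega)]
    · rw [dif_neg h, if_neg h]
  have h2 : axE x l = x (Fin.last l) := by
    unfold axE
    rw [dif_pos (by omega)]
    rfl
  rw [h1, h2]

theorem ax_rowN (m i : ℕ) (hi : i < m + 3) (Z : ℕ → ℤ) :
    ∑ j ∈ Finset.range (m + 3), axM (m + 2) i j * Z j =
      Z i - (if i < m + 1 then Z (i + 1) else 0) - (if i = m then Z (m + 2) else 0) := by
  have h1 : ∀ j ∈ Finset.range (m + 3), axM (m + 2) i j * Z j =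
      (if i = j then Z j else 0) - (if i + 1 = j then (if i < m + 1 then Z j else 0) else 0)
        - (if m + 2 = j then (if i = m then Z j else 0) else 0) := by
    intro j hj
    have hj' := Finset.mem_range.1 hj
    unfold axM
    split_ifs <;> first | omega | simp
  rw [Finset.sum_congr rfl h1, Finset.sum_sub_distrib, Finset.sum_sub_distrib,
    Finset.sum_ite_eq, Finset.sum_ite_eq, Finset.sum_ite_eq]
  rw [if_pos (Finset.mem_range.2 hi), if_pos (Finset.mem_range.2 (show m + 2 < m + 3 by omega))]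
  by_cases h : i < m + 1
  · rw [if_pos (Finset.mem_range.2 (show i + 1 < m + 3 by omega))]
  · rw [if_neg h]
    simp

theorem ax_ind (X Z : ℕ → ℤ) (m : ℕ) :
    ∑ i ∈ Finset.range (m + 1), (2 * (X i * Z i) - X i * Z (i + 1) - Z i * X (i + 1)) =
      ∑ i ∈ Finset.range (m + 1), (X i - (if 0 < i then X (i - 1) else 0)) *
        (Z i - (if 0 < i then Z (i - 1) else 0)) + X m * Z m - X m * Z (m + 1) - Z m * X (m + 1) := by
  induction m with
  | zero =>
    simp
    ring
  | succ m ih =>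
    rw [Finset.sum_range_succ, ih, Finset.sum_range_succ _ (m + 1)]
    rw [if_pos (Nat.succ_pos m), if_pos (Nat.succ_pos m)]
    rw [show m + 1 - 1 = m from rfl]
    ring

theorem ax_quad (m : ℕ) (x z : Fin (m + 2 + 1) → ℤ) :
    x ⬝ᵥ (DM (m + 2) *ᵥ z) = ∑ i ∈ Finset.range (m + 1), (axE x i * axE z i -
      axE x i * axE z (i + 1)) - axE x m * axE z (m + 2) + axE x (m + 1) * axE z (m + 1) +
      axE x (m + 2) * axE z (m + 2) := by
  have h1 : x ⬝ᵥ (DM (m + 2) *ᵥ z) = ∑ i ∈ Finset.range (m + 3), axE x i *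
      (axE z i - (if i < m + 1 then axE z (i + 1) else 0) -
        (if i = m then axE z (m + 2) else 0)) := by
    have h2 : x ⬝ᵥ (DM (m + 2) *ᵥ z) = ∑ i : Fin (m + 3), axE x i *
      (axE z i - (if (i : ℕ) < m + 1 then axE z (i + 1) else 0) -
        (if (i : ℕ) = m then axE z (m + 2) else 0)) := by
      unfold dotProduct
      refine Finset.sum_congr rfl (fun i _ => ?_)
      rw [axE_val]
      congr 1
      unfold mulVec dotProduct
      have h3 : ∑ j : Fin (m + 2 + 1), DM (m + 2) i j * z j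
          = ∑ j : Fin (m + 3), axM (m + 2) i j * axE z j := by
        refine Finset.sum_congr rfl (fun j _ => ?_)
        rw [ax_DM, axE_val]
      rw [h3, Fin.sum_univ_eq_sum_range (fun j => axM (m + 2) i j * axE z j) (m + 3),
        ax_rowN m i i.2]
    rw [h2]
    exact Fin.sum_univ_eq_sum_range (fun i => axE x i *
      (axE z i - (if i < m + 1 then axE z (i + 1) else 0) -
        (if i = m then axE z (m + 2) else 0))) (m + 3)
  rw [h1, Finset.sum_range_succ, Finset.sum_range_succ]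
  have h4 : ∀ i ∈ Finset.range (m + 1), axE x i *
      (axE z i - (if i < m + 1 then axE z (i + 1) else 0) -
        (if i = m then axE z (m + 2) else 0)) = (axE x i * axE z i -
      axE x i * axE z (i + 1)) - (if m = i then axE x i * axE z (m + 2) else 0) := by
    intro i hi
    rw [if_pos (Finset.mem_range.1 hi)]
    by_cases h : i = m
    · rw [if_pos h, if_pos h.symm]
      ring
    · rw [if_neg h, if_neg (fun hh => h hh.symm)]
      ring
  rw [Finset.sum_congr rfl h4, Finset.sum_sub_distrib, Finset.sum_ite_eq,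
    if_pos (Finset.mem_range.2 (Nat.lt_succ_self m))]
  rw [if_neg (by omega), if_neg (by omega), if_neg (by omega), if_neg (by omega)]
  ring

theorem DM_bil (l : ℕ) (hl : 2 ≤ l) (x z : Fin (l + 1) → ℤ) :
    x ⬝ᵥ (DM l *ᵥ z) + z ⬝ᵥ (DM l *ᵥ x) = ∑ i, dY l x i * dY l z i := by
  obtain ⟨m, rfl⟩ : ∃ m, l = m + 2 := ⟨l - 2, by omega⟩
  have hR : ∑ i, dY (m + 2) x i * dY (m + 2) z i = ∑ i ∈ Finset.range (m + 3),
      (axE x i - (if 0 < i then axE x (i - 1) else 0) + (if i = m + 1 then axE x (m + 2) else 0)) *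
      (axE z i - (if 0 < i then axE z (i - 1) else 0) +
        (if i = m + 1 then axE z (m + 2) else 0)) := by
    rw [← Fin.sum_univ_eq_sum_range (fun i => (axE x i - (if 0 < i then axE x (i - 1) else 0) +
      (if i = m + 1 then axE x (m + 2) else 0)) *
      (axE z i - (if 0 < i then axE z (i - 1) else 0) +
        (if i = m + 1 then axE z (m + 2) else 0))) (m + 3)]
    refine Finset.sum_congr rfl (fun i _ => ?_)
    rw [ax_dY, ax_dY]
    have h1 : ((i : ℕ) + 1 = m + 2) ↔ ((i : ℕ) = m + 1) := by omega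
    simp only [h1]
  rw [hR, ax_quad, ax_quad, Finset.sum_range_succ _ (m + 2), Finset.sum_range_succ _ (m + 1)]
  have h5 : ∀ i ∈ Finset.range (m + 1),
      (axE x i - (if 0 < i then axE x (i - 1) else 0) + (if i = m + 1 then axE x (m + 2) else 0)) *
      (axE z i - (if 0 < i then axE z (i - 1) else 0) +
        (if i = m + 1 then axE z (m + 2) else 0)) =
      (axE x i - (if 0 < i then axE x (i - 1) else 0)) *
      (axE z i - (if 0 < i then axE z (i - 1) else 0)) := by
    intro i hi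
    have := Finset.mem_range.1 hi
    rw [if_neg (show ¬ i = m + 1 by omega), if_neg (show ¬ i = m + 1 by omega), add_zero, add_zero]
  rw [Finset.sum_congr rfl h5]
  have h6 := ax_ind (axE x) (axE z) m
  have h7 : ∑ i ∈ Finset.range (m + 1), (2 * (axE x i * axE z i) - axE x i * axE z (i + 1)
      - axE z i * axE x (i + 1)) =
      ∑ i ∈ Finset.range (m + 1), (axE x i * axE z i - axE x i * axE z (i + 1)) +
      ∑ i ∈ Finset.range (m + 1), (axE z i * axE x i - axE z i * axE x (i + 1)) := by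
    rw [← Finset.sum_add_distrib]
    refine Finset.sum_congr rfl (fun i _ => ?_)
    ring
  rw [h7] at h6
  rw [if_pos (Nat.succ_pos m), if_pos (Nat.succ_pos m), if_pos rfl, if_pos rfl,
    if_pos (show 0 < m + 2 by omega), if_pos (show 0 < m + 2 by omega),
    if_neg (show ¬ m + 2 = m + 1 by omega), if_neg (show ¬ m + 2 = m + 1 by omega)]
  rw [show m + 1 - 1 = m from rfl, show m + 2 - 1 = m + 1 from rfl]
  linear_combination h6

theorem dY_eq_zero (l : ℕ) (hl : 2 ≤ l) (x : Fin (l + 1) → ℤ) (h : ∀ i, dY l x i = 0) :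
    x = 0 := by
  obtain ⟨m, rfl⟩ : ∃ m, l = m + 2 := ⟨l - 2, by omega⟩
  have h1 : ∀ i : ℕ, i < m + 3 → axE x i - (if 0 < i then axE x (i - 1) else 0) +
      (if i + 1 = m + 2 then axE x (m + 2) else 0) = 0 := by
    intro i hi
    have := h ⟨i, hi⟩
    rw [ax_dY] at this
    exact this
  have h2 : ∀ i : ℕ, i < m + 1 → axE x i = 0 := by
    intro i
    induction i with
    | zero =>
      intro _
      have h3 := h1 0 (by omega)
      rw [if_neg (lt_irrefl 0), if_neg (by omega)] at h3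
      linarith
    | succ i ih =>
      intro hi
      have h3 := h1 (i + 1) (by omega)
      rw [if_pos (Nat.succ_pos i), if_neg (by omega), show i + 1 - 1 = i from rfl,
        ih (by omega)] at h3
      linarith
  have h3 := h1 (m + 1) (by omega)
  have h4 := h1 (m + 2) (by omega)
  rw [if_pos (Nat.succ_pos m), if_pos (by omega), show m + 1 - 1 = m from rfl,
    h2 m (by omega)] at h3
  rw [if_pos (by omega), if_neg (by omega), show m + 2 - 1 = m + 1 from rfl] at h4
  have h5 : ∀ i : ℕ, i < m + 3 → axE x i = 0 := by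
    intro i hi
    rcases Nat.lt_or_ge i (m + 1) with h6 | h6
    · exact h2 i h6
    · rcases (show i = m + 1 ∨ i = m + 2 by omega) with h7 | h7
      · subst h7; linarith
      · subst h7; linarith
  funext i
  have h6 := h5 i i.2
  rw [axE_val] at h6
  exact h6

theorem DM_diag (l : ℕ) (i : Fin (l + 1)) : DM l i i = 1 := by
  unfold DM
  rw [Matrix.of_apply, if_pos rfl]

theorem DM_off (l : ℕ) (i j : Fin (l + 1)) (h : i ≠ j) : DM l i j + DM l j i ≤ 0 := by
  unfold DM
  rw [Matrix.of_apply, Matrix.of_apply, if_neg h, if_neg h.symm]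
  split_ifs <;> norm_num

theorem DM_pos (l : ℕ) (hl : 2 ≤ l) (x : Fin (l + 1) → ℤ) (hx : x ≠ 0) :
    0 < x ⬝ᵥ (DM l *ᵥ x) := by
  have h1 := DM_bil l hl x x
  have h2 : 0 < ∑ i, dY l x i * dY l x i := by
    have h3 : ∃ i, dY l x i ≠ 0 := by
      by_contra hcon
      push Not at hcon
      exact hx (dY_eq_zero l hl x hcon)
    obtain ⟨i, hi⟩ := h3
    exact Finset.sum_pos' (fun j _ => mul_self_nonneg _) ⟨i, Finset.mem_univ i, mul_self_pos.2 hi⟩
  linarith

theorem DMc_apply (l : ℕ) (i j : Fin (l + 1)) : DM l i j =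
    if (i : ℕ) = (j : ℕ) then 1
    else if ((j : ℕ) = i + 1 ∧ (j : ℕ) < l) ∨ ((i : ℕ) + 2 = l ∧ (j : ℕ) = l) then -1 else 0 := by
  show (if i = j then (1 : ℤ) else _) = _
  by_cases hij : i = j
  · rw [if_pos hij, if_pos (congrArg _ hij)]
  · rw [if_neg hij, if_neg (fun hh => hij (Fin.ext hh))]

theorem DMc_adj (l : ℕ) (s : Finset (Fin (l + 1)))
    (h : ∀ i ∈ s, ∀ j, j ∉ s → DM l i j + DM l j i = 0) (i j : Fin (l + 1))
    (hij : DM l i j + DM l j i ≠ 0) : i ∈ s ↔ j ∈ s := by
  constructor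
  · intro hi
    by_contra hj
    exact hij (h i hi j hj)
  · intro hj
    by_contra hi
    exact hij (by rw [add_comm]; exact h j hj i hi)

theorem DMc_adj2 (l : ℕ) (s : Finset (Fin (l + 1)))
    (h : ∀ i ∈ s, ∀ j, j ∉ s → DM l i j + DM l j i = 0) (i j : Fin (l + 1))
    (hij : ((i : ℕ) + 1 = (j : ℕ) ∧ (j : ℕ) < l) ∨ ((i : ℕ) + 2 = l ∧ (j : ℕ) = l)) :
    i ∈ s ↔ j ∈ s := by
  apply DMc_adj l s h
  rw [DMc_apply, DMc_apply]
  generalize (i : ℕ) = a at *
  generalize (j : ℕ) = b at *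
  split_ifs <;> omega

theorem DM_conn (l : ℕ) (hl : 2 ≤ l) (s : Finset (Fin (l + 1))) (hs : s.Nonempty)
    (h : ∀ i ∈ s, ∀ j, j ∉ s → DM l i j + DM l j i = 0) : s = Finset.univ := by
  have h1 : ∀ (k : ℕ) (hk : k + 1 < l),
      ((⟨k, by omega⟩ : Fin (l + 1)) ∈ s ↔ (⟨k + 1, by omega⟩ : Fin (l + 1)) ∈ s) := by
    intro k hk
    exact DMc_adj2 l s h _ _ (Or.inl ⟨rfl, hk⟩)
  have h2 : ((⟨l - 2, by omega⟩ : Fin (l + 1)) ∈ s ↔ (⟨l, by omega⟩ : Fin (l + 1)) ∈ s) := by
    exact DMc_adj2 l s h _ _ (Or.inr ⟨Nat.sub_add_cancel hl, rfl⟩)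
  have h3 : ∀ (k : ℕ) (hk : k < l),
      ((⟨0, by omega⟩ : Fin (l + 1)) ∈ s ↔ (⟨k, by omega⟩ : Fin (l + 1)) ∈ s) := by
    intro k
    induction k with
    | zero => intro _; rfl
    | succ k ih =>
      intro hk
      exact (ih (by omega)).trans (h1 k hk)
  have h4 : ∀ i : Fin (l + 1), ((⟨0, by omega⟩ : Fin (l + 1)) ∈ s ↔ i ∈ s) := by
    rintro ⟨i, hi⟩
    by_cases hil : i < l
    · exact h3 i hil
    · obtain rfl : i = l := by omega
      exact (h3 (i - 2) (by omega)).trans h2
  obtain ⟨i, hi⟩ := hs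
  rw [Finset.eq_univ_iff_forall]
  intro j
  exact (h4 j).mp ((h4 i).mpr hi)

/-- type `D_{l+1}` -/
def cD (l : ℕ) (hl : 2 ≤ l) : SLCartan (l + 1) where
  M := DM l
  diag := DM_diag l
  off := DM_off l
  pos := DM_pos l hl
  conn := DM_conn l hl

theorem sBc_val (l : ℕ) (hl : 2 ≤ l) (i : Fin (l + 1)) : ((sB l hl i : Fin (l + 1)) : ℕ) =
    if (i : ℕ) + 1 = l then l else if (i : ℕ) = l then l - 1 else i := by
  unfold sB
  rw [Equiv.swap_apply_def]
  split_ifs with h1 h2 h3 h4 h5 h6 h7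
  all_goals simp only [Fin.ext_iff, Fin.val_last] at *
  all_goals omega

theorem sB_M (l : ℕ) (hl : 2 ≤ l) (i j : Fin (l + 1)) :
    DM l (sB l hl i) (sB l hl j) = DM l i j := by
  rw [DMc_apply, DMc_apply, sBc_val, sBc_val]
  have hi := i.2
  have hj := j.2
  generalize (i : ℕ) = a at *
  generalize (j : ℕ) = b at *
  split_ifs <;> omega

theorem sB_no (l : ℕ) (hl : 2 ≤ l) (i : Fin (l + 1)) (h : sB l hl i ≠ i) :
    DM l i (sB l hl i) + DM l (sB l hl i) i = 0 := by
  have h' : ((sB l hl i : Fin (l + 1)) : ℕ) ≠ (i : ℕ) := fun hh => h (Fin.ext hh)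
  rw [DMc_apply, DMc_apply, sBc_val]
  rw [sBc_val] at h'
  have hi := i.2
  generalize (i : ℕ) = a at *
  split_ifs at h' ⊢ <;> omega

/-- the folding of type `B_l` -/
def fB (l : ℕ) (hl : 2 ≤ l) : Folding (cD l hl) where
  σ := sB l hl
  hM := sB_M l hl
  orth := orth_of_involution (D := cD l hl) (sB l hl) (sB_M l hl)
    (fun i => Equiv.swap_apply_self _ _ _) (sB_no l hl)

theorem dY_add (l : ℕ) (x z : Fin (l + 1) → ℤ) (i : Fin (l + 1)) :
    dY l (x + z) i = dY l x i + dY l z i := by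
  unfold dY
  simp only [Pi.add_apply]
  split_ifs <;> ring

theorem dY_sub (l : ℕ) (x z : Fin (l + 1) → ℤ) (i : Fin (l + 1)) :
    dY l (x - z) i = dY l x i - dY l z i := by
  unfold dY
  simp only [Pi.sub_apply]
  split_ifs <;> ring

theorem dY_zero (l : ℕ) (hl : 2 ≤ l) (x : Fin (l + 1) → ℤ) : dY l x 0 = x 0 := by
  unfold dY
  have h0 : ((0 : Fin (l + 1)) : ℕ) = 0 := rfl
  rw [dif_neg (by rw [h0]; exact lt_irrefl 0), if_neg (by rw [h0]; omega)]
  ring

theorem dY_pv (l : ℕ) (hl : 2 ≤ l) (x : Fin (l + 1) → ℤ) (i : Fin (l + 1)) :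
    dY l (pv (sB l hl) x) i = if i = Fin.last l then - dY l x i else dY l x i := by
  have hinv : (sB l hl)⁻¹ = sB l hl := by
    unfold sB
    exact Equiv.swap_inv _ _
  have hp : ∀ j, pv (sB l hl) x j = x (sB l hl j) := by
    intro j
    unfold pv
    rw [hinv]
  have hs : ∀ j : Fin (l + 1), sB l hl j =
      if (j : ℕ) = l - 1 then Fin.last l
      else if (j : ℕ) = l then ⟨l - 1, by omega⟩ else j := by
    intro j
    unfold sB
    rw [Equiv.swap_apply_def]
    have e1 : (j = (⟨l - 1, by omega⟩ : Fin (l + 1))) ↔ (j : ℕ) = l - 1 := by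
      rw [Fin.ext_iff]
    have e2 : (j = Fin.last l) ↔ (j : ℕ) = l := by
      rw [Fin.ext_iff, Fin.val_last]
    simp only [e1, e2]
  have hil : (i : ℕ) ≤ l := Nat.lt_succ_iff.mp i.isLt
  have e3 : (i = Fin.last l) ↔ (i : ℕ) = l := by
    rw [Fin.ext_iff, Fin.val_last]
  unfold dY
  simp only [hp, hs, e3, Fin.val_last]
  rcases lt_trichotomy (i : ℕ) (l - 1) with h | h | h
  · -- i < l - 1
    rw [if_neg (show ¬ (i : ℕ) = l by omega)]
    rw [if_neg (show ¬ (i : ℕ) = l - 1 by omega), if_neg (show ¬ (i : ℕ) = l by omega),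
      if_neg (show ¬ (i : ℕ) + 1 = l by omega), if_neg (show ¬ (i : ℕ) + 1 = l by omega)]
    by_cases h0 : 0 < (i : ℕ)
    · rw [dif_pos h0, dif_pos h0, if_neg (by omega), if_neg (by omega)]
    · rw [dif_neg h0, dif_neg h0]
  · -- i = l - 1
    have h0 : 0 < (i : ℕ) := by omega
    have hi : i = ⟨l - 1, by omega⟩ := Fin.ext h
    rw [if_neg (show ¬ (i : ℕ) = l by omega), if_pos h, if_pos (show (i : ℕ) + 1 = l by omega),
      if_pos (show (i : ℕ) + 1 = l by omega), dif_pos h0, dif_pos h0,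
      if_neg (by omega), if_neg (by omega), if_neg (by omega), if_pos trivial,
      if_neg (show ¬ (i : ℕ) = l by omega)]
    rw [← hi]
    ring
  · -- i = l
    have h' : (i : ℕ) = l := by omega
    have h0 : 0 < (i : ℕ) := by omega
    have hi : i = Fin.last l := Fin.ext (by rw [h', Fin.val_last])
    rw [if_pos h', if_neg (show ¬ (i : ℕ) = l - 1 by omega), if_pos h',
      if_neg (show ¬ (i : ℕ) + 1 = l by omega), if_neg (show ¬ (i : ℕ) + 1 = l by omega),
      dif_pos h0, dif_pos h0, if_pos (show (i : ℕ) - 1 = l - 1 by omega)]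
    have e4 : (⟨(i : ℕ) - 1, by omega⟩ : Fin (l + 1)) = ⟨l - 1, by omega⟩ := Fin.ext (by
      show (i : ℕ) - 1 = l - 1
      omega)
    rw [e4, ← hi]
    ring

theorem dY_inj (l : ℕ) (hl : 2 ≤ l) (x z : Fin (l + 1) → ℤ) (h : ∀ i, dY l x i = dY l z i) :
    x = z := by
  have h1 : x - z = 0 := dY_eq_zero l hl (x - z) (fun i => by rw [dY_sub, h i, sub_self])
  exact sub_eq_zero.mp h1

theorem D_bil (l : ℕ) (hl : 2 ≤ l) (x z : Fin (l + 1) → ℤ) :
    bil (cD l hl) x z = ∑ i, dY l x i * dY l z i := DM_bil l hl x z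

theorem two_form_753 {n : ℕ} (y : Fin n → ℤ) (h : ∑ i, y i * y i = 2) :
    ∃ (a b : Fin n) (s t : ℤ), a < b ∧ (s = 1 ∨ s = -1) ∧ (t = 1 ∨ t = -1) ∧
      ∀ i, y i = (if i = a then s else 0) + (if i = b then t else 0) := by
  classical
  have hnn : ∀ s : Finset (Fin n), 0 ≤ ∑ i ∈ s, y i * y i := fun s =>
    Finset.sum_nonneg fun i _ => mul_self_nonneg _
  have hone : ∀ z : ℤ, z ≠ 0 → z * z ≤ 2 → z = 1 ∨ z = -1 := by
    intro z hz h2
    have h3 : z < 2 := by nlinarith
    have h4 : -2 < z := by nlinarith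
    omega
  obtain ⟨a, ha⟩ : ∃ a, y a ≠ 0 := by
    by_contra hc
    push Not at hc
    simp [hc] at h
  have h1 : y a * y a + ∑ i ∈ Finset.univ.erase a, y i * y i = ∑ i, y i * y i :=
    Finset.add_sum_erase Finset.univ (fun i => y i * y i) (Finset.mem_univ a)
  rw [h] at h1
  have ha1 : y a = 1 ∨ y a = -1 := hone _ ha (by have := hnn (Finset.univ.erase a); linarith)
  have haa : y a * y a = 1 := by rcases ha1 with h | h <;> rw [h] <;> norm_num
  rw [haa] at h1
  have h1' : ∑ i ∈ Finset.univ.erase a, y i * y i = 1 := by linarith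
  obtain ⟨b, hb, hb0⟩ : ∃ b ∈ Finset.univ.erase a, y b ≠ 0 := by
    by_contra hc
    push Not at hc
    rw [Finset.sum_eq_zero (fun i hi => by rw [hc i hi, mul_zero])] at h1'
    exact absurd h1' (by norm_num)
  have h2 : y b * y b + ∑ i ∈ (Finset.univ.erase a).erase b, y i * y i =
      ∑ i ∈ Finset.univ.erase a, y i * y i :=
    Finset.add_sum_erase (Finset.univ.erase a) (fun i => y i * y i) hb
  rw [h1'] at h2
  have hb1 : y b = 1 ∨ y b = -1 := hone _ hb0
    (by have := hnn ((Finset.univ.erase a).erase b); linarith)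
  have hbb : y b * y b = 1 := by rcases hb1 with h | h <;> rw [h] <;> norm_num
  rw [hbb] at h2
  have h2' : ∑ i ∈ (Finset.univ.erase a).erase b, y i * y i = 0 := by linarith
  have hz : ∀ i, i ≠ a → i ≠ b → y i = 0 := by
    intro i hia hib
    have := (Finset.sum_eq_zero_iff_of_nonneg (fun i _ => mul_self_nonneg (y i))).1 h2' i
      (Finset.mem_erase.2 ⟨hib, Finset.mem_erase.2 ⟨hia, Finset.mem_univ i⟩⟩)
    exact mul_self_eq_zero.1 this
  have hba : b ≠ a := (Finset.mem_erase.1 hb).1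
  rcases lt_or_gt_of_ne hba with hlt | hlt
  · refine ⟨b, a, y b, y a, hlt, hb1, ha1, ?_⟩
    intro i
    by_cases hia : i = a
    · subst hia; rw [if_neg hba.symm, if_pos rfl, zero_add]
    · by_cases hib : i = b
      · subst hib; rw [if_pos rfl, if_neg hba, add_zero]
      · rw [if_neg hib, if_neg hia, hz i hia hib, add_zero]
  · refine ⟨a, b, y a, y b, hlt, ha1, hb1, ?_⟩
    intro i
    by_cases hia : i = a
    · subst hia; rw [if_pos rfl, if_neg hba.symm, add_zero]
    · by_cases hib : i = b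
      · subst hib; rw [if_neg hba, if_pos rfl, zero_add]
      · rw [if_neg hia, if_neg hib, hz i hia hib, add_zero]

theorem sum_two_753 {n : ℕ} (a b : Fin n) (s t : ℤ) (hab : a ≠ b)
    (hs : s = 1 ∨ s = -1) (ht : t = 1 ∨ t = -1) :
    ∑ i, ((if i = a then s else 0) + (if i = b then t else 0)) *
      ((if i = a then s else 0) + (if i = b then t else 0)) = 2 := by
  have h : ∀ i : Fin n, ((if i = a then s else 0) + (if i = b then t else 0)) *
      ((if i = a then s else 0) + (if i = b then t else 0)) =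
      (if i = a then (1 : ℤ) else 0) + (if i = b then 1 else 0) := by
    intro i
    by_cases hia : i = a
    · subst hia
      rw [if_pos rfl, if_neg hab, if_pos rfl, if_neg hab]
      rcases hs with rfl | rfl <;> norm_num
    · rw [if_neg hia, if_neg hia]
      by_cases hib : i = b
      · rw [if_pos hib, if_pos hib]
        rcases ht with rfl | rfl <;> norm_num
      · rw [if_neg hib, if_neg hib]
        norm_num
  rw [Finset.sum_congr rfl fun i _ => h i, Finset.sum_add_distrib]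
  simp

/-- the coefficient vector of a root of type D given by its coordinates -/
def dX_753 (l : ℕ) (a b : ℕ) (s t : ℤ) (j : Fin (l + 1)) : ℤ :=
  if (j : ℕ) + 2 ≤ l then (if a ≤ (j : ℕ) then s else 0) + (if b ≤ (j : ℕ) then t else 0)
  else if (j : ℕ) + 1 = l then (if b = l then (s - t) / 2 else (s + t) / 2)
  else (s + t) / 2

theorem dY_dX_753 (l : ℕ) (hl : 2 ≤ l) (a b : ℕ) (s t : ℤ) (hab : a < b) (hb : b ≤ l)
    (hs : s = 1 ∨ s = -1) (ht : t = 1 ∨ t = -1) (i : Fin (l + 1)) :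
    dY l (dX_753 l a b s t) i = (if (i : ℕ) = a then s else 0) + (if (i : ℕ) = b then t else 0) := by
  obtain ⟨i, hi⟩ := i
  by_cases h0 : 0 < i
  · simp only [dY, dX_753, Fin.val_last, dif_pos h0]
    rcases hs with rfl | rfl <;> rcases ht with rfl | rfl <;>
      norm_num <;> split_ifs <;> omega
  · have h0' : i = 0 := by omega
    subst h0'
    simp only [dY, dX_753, Fin.val_last, lt_irrefl, dif_neg, not_false_eq_true]
    rcases hs with rfl | rfl <;> rcases ht with rfl | rfl <;>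
      norm_num <;> split_ifs <;> omega

/-- the roots are `± ε_a ± ε_b` -/
theorem D_root_form (l : ℕ) (hl : 2 ≤ l) (β : Root (cD l hl)) :
    ∃ (a b : Fin (l + 1)) (s t : ℤ), a < b ∧ (s = 1 ∨ s = -1) ∧ (t = 1 ∨ t = -1) ∧
      ∀ i, dY l β.1 i = (if i = a then s else 0) + (if i = b then t else 0) := by
  have h := β.2
  rw [D_bil] at h
  exact two_form_753 _ h

theorem D_root_mk (l : ℕ) (hl : 2 ≤ l) (a b : Fin (l + 1)) (s t : ℤ) (hab : a < b)
    (hs : s = 1 ∨ s = -1) (ht : t = 1 ∨ t = -1) : ∃ β : Root (cD l hl),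
      ∀ i, dY l β.1 i = (if i = a then s else 0) + (if i = b then t else 0) := by
  have hY : ∀ i, dY l (dX_753 l a b s t) i =
      (if i = a then s else 0) + (if i = b then t else 0) := by
    intro i
    rw [dY_dX_753 l hl a b s t hab (by omega) hs ht i]
    simp only [Fin.ext_iff]
  refine ⟨⟨dX_753 l a b s t, ?_⟩, hY⟩
  rw [D_bil]
  rw [Finset.sum_congr rfl fun i _ => by rw [hY i]]
  exact sum_two_753 a b s t hab.ne hs ht

theorem B_min (l : ℕ) (hl : 2 ≤ l) (β : Root (cD l hl)) : β.1 0 ≤ 1 := by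
  obtain ⟨a, b, s, t, hab, hs, ht, h⟩ := D_root_form l hl β
  have e : β.1 0 = dY l β.1 0 := (dY_zero l hl β.1).symm
  rw [e, h 0]
  have hb : (0 : Fin (l + 1)) ≠ b := by
    intro hb
    rw [← hb] at hab
    exact absurd hab (Fin.not_lt_zero a)
  rw [if_neg hb, add_zero]
  rcases hs with rfl | rfl <;> split_ifs <;> norm_num

theorem dY_prefix833 (l : ℕ) (x : Fin (l + 1) → ℤ) (a : ℕ) (ha : a < l)
    (h : ∀ i : Fin (l + 1), (i : ℕ) < a → dY l x i = 0) (n : ℕ) :
    ∀ hn : n < a, x ⟨n, by omega⟩ = 0 := by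
  induction n with
  | zero =>
    intro hn
    have h1 := h ⟨0, by omega⟩ hn
    unfold dY at h1
    have h2 : ¬ ((0 : ℕ) + 1 = l) := by omega
    simpa [h2] using h1
  | succ n ih =>
    intro hn
    have h1 := h ⟨n + 1, by omega⟩ hn
    unfold dY at h1
    have h2 : ¬ ((n : ℕ) + 1 + 1 = l) := by omega
    have h3 := ih (by omega)
    simp only [h2, if_false, add_zero] at h1
    rw [dif_pos (Nat.succ_pos n)] at h1
    have h4 : (⟨n + 1 - 1, by omega⟩ : Fin (l + 1)) = ⟨n, by omega⟩ := by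
      apply Fin.ext; exact Nat.add_sub_cancel n 1
    rw [h4, h3, sub_zero] at h1
    exact h1

theorem B_good (l : ℕ) (hl : 2 ≤ l) (p : ℕ) [Fact p.Prime] (δ : Root (cD l hl)) (hδ : Pos δ.1)
    (h0 : δ.1 0 = 0) : Good (fB l hl) p (PK (cD l hl) 0) δ := by
  obtain ⟨a, b, s, t, hab, hs, ht, hform⟩ := D_root_form l hl δ
  have hb0 : (0 : Fin (l + 1)) ≠ b := by
    intro h; rw [← h] at hab; exact absurd hab (Fin.not_lt_zero a)
  have ha0 : (0 : Fin (l + 1)) ≠ a := by
    intro h
    have h1 := hform 0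
    rw [dY_zero l hl, h0, if_pos h, if_neg hb0] at h1
    omega
  have hapos : 0 < (a : ℕ) := by
    rcases Nat.eq_zero_or_pos (a : ℕ) with h | h
    · exact absurd (Fin.ext h.symm) ha0
    · exact h
  have hablt : (a : ℕ) < (b : ℕ) := hab
  have hbl : (b : ℕ) < l + 1 := b.2
  have hal : (a : ℕ) < l := by omega
  have hpre : δ.1 ⟨(a : ℕ) - 1, by omega⟩ = 0 := by
    apply dY_prefix833 l δ.1 (a : ℕ) hal ?_ ((a : ℕ) - 1) (by omega)
    intro i hi
    rw [hform i, if_neg (by intro h; rw [h] at hi; exact lt_irrefl _ hi),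
      if_neg (by intro h; rw [h] at hi; omega), add_zero]
  have hs1 : s = 1 := by
    rcases hs with h | h
    · exact h
    · exfalso
      have h1 := hform a
      rw [if_pos rfl, if_neg (ne_of_lt hab), add_zero, h] at h1
      unfold dY at h1
      rw [dif_pos hapos, hpre] at h1
      have h2 := hδ a
      have h3 := hδ (Fin.last l)
      split_ifs at h1 <;> omega
  obtain ⟨γ, hγ⟩ := D_root_mk l hl 0 a 1 (-1) (Fin.pos_iff_ne_zero.2 (Ne.symm ha0)) (Or.inl rfl)
    (Or.inr rfl)
  have hfix : sroot (fB l hl) γ = γ := by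
    apply root_ext
    show pv (sB l hl) γ.1 = γ.1
    apply dY_inj l hl
    intro i
    rw [dY_pv l hl]
    split_ifs with h
    · have h1 : i ≠ 0 := by
        intro h2; rw [h2] at h
        have h3 := congrArg Fin.val h
        rw [Fin.val_last] at h3
        have h4 : ((0 : Fin (l + 1)) : ℕ) = 0 := rfl
        omega
      have h2 : i ≠ a := by
        intro h2; rw [h2] at h
        have h3 := congrArg Fin.val h
        rw [Fin.val_last] at h3
        omega
      rw [hγ i, if_neg h1, if_neg h2]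
      norm_num
    · rfl
  refine ⟨γ, ?_, ?_, Or.inl ?_⟩
  · have h9 := hγ 0
    rw [dY_zero l hl] at h9
    rw [mem_PK, h9, if_pos rfl, if_neg ha0]
    norm_num
  · rw [D_bil, Finset.sum_eq_single a]
    · rw [hform a, hγ a, if_pos rfl, if_neg (ne_of_lt hab), if_neg (Ne.symm ha0), if_pos rfl, hs1]
      norm_num
    · intro i _ hi
      rw [hform i, hγ i, if_neg hi, if_neg hi]
      by_cases h1 : i = b
      · rw [if_pos h1, if_neg (by intro h2; exact hb0 (h2.symm.trans h1))]
        ring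
      · rw [if_neg h1]
        ring
    · intro h; exact absurd (Finset.mem_univ a) h
  · intro γ' hγ' hne
    rw [orb_fixed (fB l hl) γ hfix, Finset.mem_singleton] at hγ'
    exact absurd hγ' hne

theorem B_conn (l : ℕ) (hl : 2 ≤ l) (p : ℕ) [Fact p.Prime] : ∃ γ₀ ∈ PK (cD l hl) 0,
    ∀ γ ∈ PK (cD l hl) 0,
      Relation.ReflTransGen (StepRel (fB l hl) p (PK (cD l hl) 0)) γ γ₀ := by
  have h0last : (0 : Fin (l + 1)) < Fin.last l := by
    rw [Fin.lt_def]
    simp
    omega
  have h0l : (0 : Fin (l + 1)) ≠ Fin.last l := h0last.ne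
  obtain ⟨γ₀, hγ₀⟩ := D_root_mk l hl 0 (Fin.last l) 1 (-1) h0last (Or.inl rfl) (Or.inr rfl)
  have hmem : ∀ β : Root (cD l hl), β ∈ PK (cD l hl) 0 ↔ dY l β.1 0 = 1 := by
    intro β
    rw [mem_PK, dY_zero l hl]
  have hγ₀mem : γ₀ ∈ PK (cD l hl) 0 := by
    rw [hmem, hγ₀, if_pos rfl, if_neg h0l]
    norm_num
  have hk : (fB l hl).σ 0 = 0 := by
    show Equiv.swap (⟨l - 1, by omega⟩ : Fin (l + 1)) (Fin.last l) 0 = 0
    apply Equiv.swap_apply_of_ne_of_ne _ h0l
    intro h
    have := congrArg Fin.val h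
    simp at this
    omega
  refine ⟨γ₀, hγ₀mem, ?_⟩
  intro γ hγ
  have hγ0 := (hmem γ).1 hγ
  obtain ⟨a, b, s, t, hab, hs, ht, hf⟩ := D_root_form l hl γ
  have hb0 : (0 : Fin (l + 1)) ≠ b := by
    intro h
    rw [← h] at hab
    exact absurd hab (not_lt.2 (Fin.zero_le a))
  have ha : a = 0 ∧ s = 1 := by
    rw [hf, if_neg hb0, add_zero] at hγ0
    by_cases h : (0 : Fin (l + 1)) = a
    · rw [if_pos h] at hγ0
      exact ⟨h.symm, hγ0⟩
    · rw [if_neg h] at hγ0
      exact absurd hγ0 (by norm_num)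
  obtain ⟨rfl, rfl⟩ := ha
  by_cases hbl : b = Fin.last l
  · subst hbl
    rcases ht with rfl | rfl
    · apply Relation.ReflTransGen.single
      refine ⟨hγ₀mem, Or.inl ?_⟩
      rw [mem_orb]
      refine ⟨1, ?_⟩
      rw [pow_one]
      apply dY_inj l hl
      intro i
      show _ = dY l (pv (sB l hl) γ.1) i
      rw [dY_pv l hl, hγ₀, hf]
      by_cases hi : i = Fin.last l
      · subst hi
        rw [if_neg h0l.symm, if_pos rfl, if_pos rfl, if_pos rfl]
        norm_num
      · rw [if_neg hi, if_neg hi, if_neg hi]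
    · have : γ = γ₀ := by
        apply root_ext
        apply dY_inj l hl
        intro i
        rw [hγ₀, hf]
      rw [this]
  · have hfix : sroot (fB l hl) γ = γ := by
      apply root_ext
      show pv (sB l hl) γ.1 = γ.1
      apply dY_inj l hl
      intro i
      rw [dY_pv l hl]
      by_cases hi : i = Fin.last l
      · subst hi
        rw [if_pos rfl, hf, if_neg h0l.symm, if_neg (fun h => hbl h.symm)]
        norm_num
      · rw [if_neg hi]
    have horb := orb_fixed (fB l hl) γ hfix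
    have hblt : b < Fin.last l := lt_of_le_of_ne (Fin.le_last b) hbl
    obtain ⟨β, hβ⟩ := D_root_mk l hl b (Fin.last l) (-t) (-1) hblt
      (by rcases ht with rfl | rfl <;> norm_num) (Or.inr rfl)
    have hβ' : β.1 = γ₀.1 - γ.1 := by
      apply dY_inj l hl
      intro i
      rw [dY_sub, hγ₀, hf, hβ]
      by_cases h1 : i = b
      · rw [if_pos h1, if_pos h1]; ring
      · rw [if_neg h1, if_neg h1]; ring
    have h3 := dY_zero l hl β.1
    rw [hβ, if_neg hb0, if_neg h0l, add_zero] at h3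
    have hJ : JR (PK (cD l hl) 0) β :=
      (PSet_of_minuscule (fB l hl) 0 hk (B_min l hl) (PK (cD l hl) 0)
        (fun β => mem_PK _ _ β)).2 β h3.symm
    apply Relation.ReflTransGen.single
    refine StepRel_of_unique (fB l hl) p (PK (cD l hl) 0) γ γ₀ β hγ₀mem hβ' hJ ?_
    intro β' _ γ'' hγ'' _
    rw [horb, Finset.mem_singleton] at hγ''
    exact hγ''

theorem B_data (l : ℕ) (hl : 2 ≤ l) (p : ℕ) [Fact p.Prime] :
    ∃ P P₀ γ₀, EData (fB l hl) p P P₀ γ₀ :=
  data_of_minuscule (fB l hl) p 0 (by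
      show sB l hl 0 = 0
      unfold sB
      apply Equiv.swap_apply_of_ne_of_ne
      · intro h
        have := congrArg Fin.val h
        simp at this
        omega
      · intro h
        have := congrArg Fin.val h
        simp at this
        omega)
    (B_min l hl) (B_good l hl p) (B_conn l hl p)

end Pool.Agent.Helper255.CF
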