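import Pool.Agent.Helper255.CF.TypB
import Pool.Agent.Helper255.CF.TypC
import Pool.Agent.Helper255.CF.TypE

set_option autoImplicit false

namespace Pool.Agent.Helper255.CF

open Matrix

theorem DM_ok (l : ℕ) (hl : 2 ≤ l) : (∀ i, DM l i i = 1) ∧
    (∀ i j, i ≠ j → DM l i j + DM l j i ≤ 0) ∧
    (∀ x : Fin (l + 1) → ℤ, x ≠ 0 → 0 < x ⬝ᵥ (DM l *ᵥ x)) ∧
    ∀ s : Finset (Fin (l + 1)), s.Nonempty →
      (∀ i ∈ s, ∀ j, j ∉ s → DM l i j + DM l j i = 0) → s = Finset.univ :=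
  ⟨DM_diag l, DM_off l, DM_pos l hl, DM_conn l hl⟩

theorem AM_ok (k : ℕ) : (∀ i, AM k i i = 1) ∧
    (∀ i j, i ≠ j → AM k i j + AM k j i ≤ 0) ∧
    (∀ x : Fin (2 * k + 1) → ℤ, x ≠ 0 → 0 < x ⬝ᵥ (AM k *ᵥ x)) ∧
    ∀ s : Finset (Fin (2 * k + 1)), s.Nonempty →
      (∀ i ∈ s, ∀ j, j ∉ s → AM k i j + AM k j i = 0) → s = Finset.univ :=
  ⟨AM_diag k, AM_off k, AM_pos k, AM_conn k⟩

theorem EM_ok : (∀ i, EM i i = 1) ∧ (∀ i j, i ≠ j → EM i j + EM j i ≤ 0) ∧
    (∀ x : Fin 6 → ℤ, x ≠ 0 → 0 < x ⬝ᵥ (EM *ᵥ x)) ∧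
    ∀ s : Finset (Fin 6), s.Nonempty →
      (∀ i ∈ s, ∀ j, j ∉ s → EM i j + EM j i = 0) → s = Finset.univ :=
  ⟨EM_diag, EM_off, EM_pos, EM_conn⟩

theorem TM_ok : (∀ i, TM i i = 1) ∧ (∀ i j, i ≠ j → TM i j + TM j i ≤ 0) ∧
    (∀ x : Fin 4 → ℤ, x ≠ 0 → 0 < x ⬝ᵥ (TM *ᵥ x)) ∧
    ∀ s : Finset (Fin 4), s.Nonempty →
      (∀ i ∈ s, ∀ j, j ∉ s → TM i j + TM j i = 0) → s = Finset.univ :=
  ⟨TM_diag, TM_off, TM_pos, TM_conn⟩

/-- type `D_{l+1}` -/
def typeD (l : ℕ) (hl : 2 ≤ l) : SLCartan (l + 1) :=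
  ⟨DM l, (DM_ok l hl).1, (DM_ok l hl).2.1, (DM_ok l hl).2.2.1, (DM_ok l hl).2.2.2⟩

/-- type `A_{2k+1}` -/
def typeA (k : ℕ) : SLCartan (2 * k + 1) :=
  ⟨AM k, (AM_ok k).1, (AM_ok k).2.1, (AM_ok k).2.2.1, (AM_ok k).2.2.2⟩

/-- type `E_6` -/
def typeE : SLCartan 6 := ⟨EM, EM_ok.1, EM_ok.2.1, EM_ok.2.2.1, EM_ok.2.2.2⟩

/-- type `D_4` -/
def typeT : SLCartan 4 := ⟨TM, TM_ok.1, TM_ok.2.1, TM_ok.2.2.1, TM_ok.2.2.2⟩

/-- The untwisted Lie types. A simply laced type (`A_l`, `D_l`, `E_6`, `E_7`, `E_8`) is given by a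
Cartan datum; the others are obtained by folding a simply laced diagram: `B_l` (`l ≥ 2`) from
`D_{l+1}`, `C_{k+1}` (`k ≥ 1`) from `A_{2k+1}`, `F_4` from `E_6` and `G_2` from `D_4`. -/
inductive LieType : Type
  | ADE (l : ℕ) (hl : 0 < l) (D : SLCartan l) : LieType
  | B (l : ℕ) (hl : 2 ≤ l) : LieType
  | C (k : ℕ) (hk : 1 ≤ k) : LieType
  | F4 : LieType
  | G2 : LieType

/-- the number of nodes of the simply laced diagram -/
def LieType.nodes : LieType → ℕ
  | ADE l _ _ => l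
  | B l _ => l + 1
  | C k _ => 2 * k + 1
  | F4 => 6
  | G2 => 4

/-- the simply laced diagram -/
def LieType.datum : (X : LieType) → SLCartan X.nodes
  | ADE _ _ D => D
  | B l hl => typeD l hl
  | C k _ => typeA k
  | F4 => typeE
  | G2 => typeT

/-- the diagram automorphism -/
def LieType.auto : (X : LieType) → Equiv.Perm (Fin X.nodes)
  | ADE _ _ _ => 1
  | B l hl => sB l hl
  | C _ _ => Fin.revPerm
  | F4 => sF
  | G2 => sG

/-- the (adjoint) Chevalley group of type `X` over `R`, as a type -/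
def Chev (X : LieType) (R : Type) [CommRing R] : Type := folded X.datum X.auto R

noncomputable instance instGroupChev (X : LieType) (R : Type) [CommRing R] :
    Group (Chev X R) := Subgroup.toGroup (folded X.datum X.auto R)

/-- the entries of the matrix of an element -/
def Chev.entry {X : LieType} {R : Type} [CommRing R] (g : Chev X R) (i j : Idx X.datum) : R :=
  g.1.1 i j

/-- the standard embedding of the group over `K` in the group over `L`: it maps the entries of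
the matrices by the inclusion of `K` in `L` -/
def IsStandard (X : LieType) {K L : Type} [Field K] [Field L] [Algebra K L]
    (j : Chev X K →* Chev X L) : Prop :=
  ∀ (g : Chev X K) (a b : Idx X.datum), (j g).entry a b = algebraMap K L (g.entry a b)

/-- the representation `τ` is a quotient of a subrepresentation of `ρ`; for irreducible `τ` this
means that `τ` is a composition factor of `ρ` -/
def IsFactor {F H V S : Type*} [Field F] [Group H] [AddCommGroup V] [Module F V]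
    [AddCommGroup S] [Module F S] (τ : Representation F H S) (ρ : Representation F H V) : Prop :=
  ∃ (W : Subrepresentation ρ) (φ : Representation.IntertwiningMap W.toRepresentation τ),
    Function.Surjective φ.toLinearMap

end Pool.Agent.Helper255.CF
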